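import Pool.Agent.Work.MP_602313_nt.Bd.B01

/-! Bundle of small proof modules (one section per former module). -/

section

/-! B2b: `Gamma0 N` acts transitively on the projective line over `F_p`. -/

open scoped MatrixGroups
open Matrix CongruenceSubgroup

namespace Gou

theorem bTrans_aux (p N : ℕ) (γ γ' : SL(2, ℤ)) (hN : (N : ℤ) ∣ γ' 1 0)
    (h : (p : ℤ) ∣ - γ' 1 0 * γ 0 0 + γ' 0 0 * γ 1 0) :
    ∃ γ' δ : SL(2, ℤ), γ' ∈ Gamma0 N ∧ (p : ℤ) ∣ δ 1 0 ∧ γ = γ' * δ := by
  refine ⟨γ', γ'⁻¹ * γ, ?_, ?_, by group⟩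
  · rw [Gamma0_mem]
    exact (ZMod.intCast_zmod_eq_zero_iff_dvd _ _).2 hN
  · have h1 : (γ'⁻¹ * γ) 1 0 = - γ' 1 0 * γ 0 0 + γ' 0 0 * γ 1 0 := by
      rw [Matrix.SpecialLinearGroup.coe_mul, Matrix.SpecialLinearGroup.coe_inv,
        Matrix.adjugate_fin_two, Matrix.mul_apply, Fin.sum_univ_two]
      simp
    rw [h1]; exact h

theorem bTrans : BTrans := by
  intro p N hp hN0 hpN γ
  have hp' : Nat.Prime p := hp.out
  have hcop : IsCoprime (p : ℤ) (N : ℤ) := by
    rw [Nat.isCoprime_iff_coprime]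
    exact (Nat.Prime.coprime_iff_not_dvd hp').2 hpN
  by_cases hx : (p : ℤ) ∣ γ 0 0
  · obtain ⟨d, b, hdb⟩ := hcop
    have hdet : (!![(p : ℤ), -b; (N : ℤ), d]).det = 1 := by
      rw [Matrix.det_fin_two_of]; linarith
    refine bTrans_aux p N γ ⟨_, hdet⟩ ?_ ?_
    · simp
    · simp only [Matrix.of_apply, Matrix.cons_val', Matrix.cons_val_zero, Matrix.cons_val_one,
        Matrix.cons_val_fin_one]
      exact dvd_add (Dvd.dvd.mul_left hx _) (Dvd.intro _ rfl)
  · have hx' : IsCoprime (p : ℤ) (γ 0 0) :=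
      ((Nat.prime_iff_prime_int.1 hp').coprime_iff_not_dvd).2 hx
    obtain ⟨u, v, huv⟩ := hcop.mul_right hx'
    have hdet : (!![(1 : ℤ), 0; (N : ℤ) * (v * γ 1 0), 1]).det = 1 := by
      rw [Matrix.det_fin_two_of]; ring
    refine bTrans_aux p N γ ⟨_, hdet⟩ ?_ ?_
    · simp
    · simp only [Matrix.of_apply, Matrix.cons_val', Matrix.cons_val_zero, Matrix.cons_val_one,
        Matrix.cons_val_fin_one]
      refine ⟨u * γ 1 0, ?_⟩
      linear_combination (- γ 1 0) * huv
end Gou

end

section

/-!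
Module B, item BVal: the values of a symbol lie in `I_m'`.
-/

open scoped MatrixGroups Polynomial
open CongruenceSubgroup

noncomputable section

namespace Gou

theorem bVal_dvdP_symAct {R : Type} [CommRing R] (n : ℕ) (g : Matrix (Fin 2) (Fin 2) ℤ) (q : R)
    (f : R[X]) (h : dvdP q f) : dvdP q (symAct n g f) := by
  have h1 : Polynomial.C q ∣ f := (Polynomial.C_dvd_iff_dvd_coeff q f).2 h
  obtain ⟨f', rfl⟩ := h1
  rw [← Polynomial.smul_eq_C_mul, symAct_smul, Polynomial.smul_eq_C_mul]
  exact (Polynomial.C_dvd_iff_dvd_coeff q _).1 (Dvd.intro _ rfl)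

/-- B2c. -/
theorem bVal (h1 : BTrans) (h2 : BComp) : BVal := by
  intro p N _ hN hpN n m' φ hφ hd r s
  obtain ⟨hdeg, -, -, -, hequi⟩ := hφ
  refine ⟨hdeg r s, fun γ => ?_⟩
  obtain ⟨γ', δ, hγ', ⟨c, hc⟩, rfl⟩ := h1 p N hN hpN γ
  have hc' : (mx δ) 1 0 = (p : ℤ) * c := hc
  have hδ : mx δ * dp p = dp p * !![mx δ 0 0, (p : ℤ) * mx δ 0 1; c, mx δ 1 1] := by
    ext i j
    fin_cases i <;> fin_cases j <;> simp [dp, Matrix.mul_apply, Fin.sum_univ_two, hc'] <;> ring
  have hm : mx (γ' * δ) * dp p =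
      mx γ' * (dp p * !![mx δ 0 0, (p : ℤ) * mx δ 0 1; c, mx δ 1 1]) := by
    rw [← hδ, ← Matrix.mul_assoc]
    simp [mx]
  have hinv : ∀ v : Vec, (mx γ').mulVec ((mx γ'⁻¹).mulVec v) = v := by
    intro v
    rw [Matrix.mulVec_mulVec]
    have : mx γ' * mx γ'⁻¹ = 1 := by
      rw [mx, mx, ← Matrix.SpecialLinearGroup.coe_mul, mul_inv_cancel,
        Matrix.SpecialLinearGroup.coe_one]
    rw [this, Matrix.one_mulVec]
  have hval : symAct n (mx γ') (φ r s) = φ ((mx γ'⁻¹).mulVec r) ((mx γ'⁻¹).mulVec s) := by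
    have h := hequi γ' hγ' ((mx γ'⁻¹).mulVec r) ((mx γ'⁻¹).mulVec s)
    have e1 := hinv r
    have e2 := hinv s
    unfold mx at h e1 e2 ⊢
    rw [e1, e2] at h
    exact h
  rw [hm, (h2 ℤ n _ _ _ (hdeg r s)).1, hval]
  set F := φ ((mx γ'⁻¹).mulVec r) ((mx γ'⁻¹).mulVec s) with hF
  have hFd : F.natDegree ≤ n := hdeg _ _
  rw [(h2 ℤ n _ _ F hFd).1]
  exact bVal_dvdP_symAct n _ _ _ (hd _ _)

end Gou

end
end

section

/-!
MP_602313_nt, item B2e (`BVmod`): from `DualStep`, the values of a symbol with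
`(T_p - p^s u) φ ∈ p^(s+h) Λ`, times `p^e0`, lie in `V_(s+h) + p^(h+e0)`.
-/

open scoped MatrixGroups Polynomial
open CongruenceSubgroup

noncomputable section

namespace Gou

namespace BVm

theorem symAct_map {R R' : Type*} [CommRing R] [CommRing R'] (φ : R →+* R') (n : ℕ)
    (g : Matrix (Fin 2) (Fin 2) ℤ) (f : R[X]) :
    (symAct n g f).map φ = symAct n g (f.map φ) := by
  simp [symAct, Polynomial.map_sum]

theorem symAct_repU {R : Type*} [CommRing R] (n p j : ℕ) (f : R[X]) :
    symAct n (repU p j) f = ∑ a ∈ Finset.range (n + 1),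
      Polynomial.C ((p : R) ^ a * f.coeff (n - a)) *
        (Polynomial.X + Polynomial.C (j : R)) ^ (n - a) := by
  rw [symAct, ← Finset.sum_flip]
  refine Finset.sum_congr rfl fun a ha => ?_
  have ha' : a ≤ n := Nat.lt_succ_iff.1 (Finset.mem_range.1 ha)
  have h1 : n - (n - a) = a := by omega
  simp only [repU, Matrix.of_apply, Matrix.cons_val', Matrix.cons_val_zero, Matrix.cons_val_one,
    Matrix.cons_val_fin_one, h1, Int.cast_one, Int.cast_natCast, Int.cast_zero, map_one, map_zero,
    one_mul, zero_mul, zero_add, Polynomial.C_mul, Polynomial.C_pow]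
  ring

theorem symAct_repV {R : Type*} [CommRing R] (n p : ℕ) (f : R[X]) :
    symAct n (repV p) f = ∑ a ∈ Finset.range (n + 1),
      Polynomial.C ((p : R) ^ a * f.coeff a) * Polynomial.X ^ a := by
  rw [symAct]
  refine Finset.sum_congr rfl fun a ha => ?_
  simp only [repV, Matrix.of_apply, Matrix.cons_val', Matrix.cons_val_zero, Matrix.cons_val_one,
    Matrix.cons_val_fin_one, Int.cast_one, Int.cast_natCast, Int.cast_zero, map_one, map_zero,
    zero_mul, zero_add, add_zero, one_pow, mul_one, Polynomial.C_mul, Polynomial.C_pow, mul_pow]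
  ring

/-- The coefficients of `T_p φ (r, s)` in terms of the vectors `v_{b,a}`. -/
def cc (p n : ℕ) [Fact p.Prime] (φ : Vec → Vec → ℤ[X]) (r s : Vec) : Node p → ℕ → ℤ_[p]
  | some b, a => (((φ ((repU p b).mulVec r) ((repU p b).mulVec s)).coeff (n - a) : ℤ) : ℤ_[p])
  | none, a => (((φ ((repV p).mulVec r) ((repV p).mulVec s)).coeff a : ℤ) : ℤ_[p])

theorem hecke_eq (p n : ℕ) [Fact p.Prime] (φ : Vec → Vec → ℤ[X]) (r s : Vec) :
    (heckeSymbFun n p φ r s).map (Int.castRingHom ℤ_[p]) =
      ∑ b : Node p, ∑ a ∈ Finset.range (n + 1),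
        Polynomial.C ((p : ℤ_[p]) ^ a * cc p n φ r s b a) * vv p n ℤ_[p] b a := by
  rw [Fintype.sum_option, heckeSymbFun, Polynomial.map_add, Polynomial.map_sum, add_comm,
    Finset.sum_range]
  congr 1
  · rw [symAct_map, symAct_repV]
    refine Finset.sum_congr rfl fun a _ => ?_
    simp [cc, vv]
  · refine Finset.sum_congr rfl fun b _ => ?_
    rw [symAct_map, symAct_repU]
    refine Finset.sum_congr rfl fun a _ => ?_
    simp [cc, vv]

theorem vv_natDegree_le (p n : ℕ) [Fact p.Prime] (b : Node p) (a : ℕ) (ha : a ≤ n) :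
    (vv p n ℤ_[p] b a).natDegree ≤ n := by
  cases b with
  | none =>
    simp only [vv]
    exact (Polynomial.natDegree_pow_le).trans (by simpa using ha)
  | some b =>
    simp only [vv]
    refine (Polynomial.natDegree_pow_le).trans ?_
    have : (Polynomial.X + Polynomial.C ((b : ℕ) : ℤ_[p])).natDegree ≤ 1 :=
      (Polynomial.natDegree_add_le _ _).trans (by simp)
    calc (n - a) * (Polynomial.X + Polynomial.C ((b : ℕ) : ℤ_[p])).natDegree
        ≤ (n - a) * 1 := Nat.mul_le_mul_left _ this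
      _ ≤ n := by omega

end BVm

open BVm in
theorem bVmod (_h2 : BComp) : BVmod := by
  intro p N _ hDS _ _ n s h u φ hφ hn hu ⟨ψ, hψ, hT⟩ r s'
  set e := e0 p n with he
  set c := cc p n φ r s' with hc
  set F := (φ r s').map (Int.castRingHom ℤ_[p]) with hF
  set P := (ψ r s').map (Int.castRingHom ℤ_[p]) with hP
  have hp0 : (p : ℤ_[p]) ≠ 0 := by
    exact_mod_cast (Fact.out : p.Prime).ne_zero
  -- degrees
  have hdF : F.natDegree ≤ n := (Polynomial.natDegree_map_le).trans (hφ.1 r s')
  have hdP : P.natDegree ≤ n := (Polynomial.natDegree_map_le).trans (hψ.1 r s')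
  -- the main identity
  have h1 : ∑ b : Node p, ∑ a ∈ Finset.range (n + 1),
        Polynomial.C ((p : ℤ_[p]) ^ a * c b a) * vv p n ℤ_[p] b a =
      Polynomial.C ((p : ℤ_[p]) ^ s) * (Polynomial.C (u : ℤ_[p]) * F +
        Polynomial.C ((p : ℤ_[p]) ^ h) * P) := by
    rw [hc, ← hecke_eq]
    have h2 : heckeSymbFun n p φ r s' = ((p : ℤ) ^ s * u) • φ r s' + ((p : ℤ) ^ (s + h)) • ψ r s' := by
      have h3 := congrFun (congrFun hT r) s'
      simp only [Pi.sub_apply, Pi.smul_apply] at h3
      rw [← h3]; ring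
    rw [h2, Polynomial.map_add, Polynomial.smul_eq_C_mul, Polynomial.smul_eq_C_mul,
      Polynomial.map_mul, Polynomial.map_mul, Polynomial.map_C, Polynomial.map_C]
    simp only [eq_intCast, Int.cast_mul, Int.cast_pow, Int.cast_natCast, Polynomial.C_mul,
      Polynomial.C_pow, ← hF, ← hP]
    ring
  have h2 : ∀ (b : Node p) (a : ℕ), a ≤ n →
      (p : ℤ_[p]) ^ (s - e) ∣ (p : ℤ_[p]) ^ a * c b a := by
    refine hDS n s ?_ c ⟨_, ?_, h1⟩
    · have : (p + 1) * s ≤ (p + 1) * (s + h) := Nat.mul_le_mul_left _ (Nat.le_add_right _ _)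
      omega
    · refine (Polynomial.natDegree_add_le _ _).trans (max_le ?_ ?_)
      · exact (Polynomial.natDegree_C_mul_le _ _).trans hdF
      · exact (Polynomial.natDegree_C_mul_le _ _).trans hdP
  -- the divided coefficients
  have h3 : ∀ (b : Node p) (a : ℕ), ∃ d : ℤ_[p], a ≤ n →
      (p : ℤ_[p]) ^ e * ((p : ℤ_[p]) ^ a * c b a) = (p : ℤ_[p]) ^ s * d := by
    intro b a
    by_cases ha : a ≤ n
    · obtain ⟨d, hd⟩ := h2 b a ha
      refine ⟨(p : ℤ_[p]) ^ (e + (s - e) - s) * d, fun _ => ?_⟩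
      rw [hd, ← mul_assoc, ← mul_assoc, ← pow_add, ← pow_add]
      congr 2; omega
    · exact ⟨0, fun h => absurd h ha⟩
  choose d hd using h3
  -- the unit
  have hun : IsUnit (u : ℤ_[p]) := by
    rw [PadicInt.isUnit_iff]
    by_contra hcon
    have hlt : ‖(u : ℤ_[p])‖ < 1 := lt_of_le_of_ne (PadicInt.norm_le_one _) hcon
    exact hu ((PadicInt.norm_int_lt_one_iff_dvd u).1 hlt)
  obtain ⟨v, hv⟩ := hun.exists_right_inv
  have hsn : s + h ≤ n := by
    have : 1 * (s + h) ≤ (p + 1) * (s + h) := Nat.mul_le_mul_right _ (by omega)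
    omega
  -- the identity after division
  have h4 : Polynomial.C ((p : ℤ_[p]) ^ e) * (Polynomial.C (u : ℤ_[p]) * F +
        Polynomial.C ((p : ℤ_[p]) ^ h) * P) =
      ∑ b : Node p, ∑ a ∈ Finset.range (n + 1), Polynomial.C (d b a) * vv p n ℤ_[p] b a := by
    have hne : Polynomial.C ((p : ℤ_[p]) ^ s) ≠ 0 := by
      simpa using pow_ne_zero s hp0
    refine mul_left_cancel₀ hne ?_
    calc Polynomial.C ((p : ℤ_[p]) ^ s) * (Polynomial.C ((p : ℤ_[p]) ^ e) *
          (Polynomial.C (u : ℤ_[p]) * F + Polynomial.C ((p : ℤ_[p]) ^ h) * P))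
        = Polynomial.C ((p : ℤ_[p]) ^ e) * (Polynomial.C ((p : ℤ_[p]) ^ s) *
          (Polynomial.C (u : ℤ_[p]) * F + Polynomial.C ((p : ℤ_[p]) ^ h) * P)) := by ring
      _ = _ := by
        rw [← h1, Finset.mul_sum, Finset.mul_sum]
        refine Finset.sum_congr rfl fun b _ => ?_
        rw [Finset.mul_sum, Finset.mul_sum]
        refine Finset.sum_congr rfl fun a ha => ?_
        have ha' : a ≤ n := Nat.lt_succ_iff.1 (Finset.mem_range.1 ha)
        rw [← mul_assoc, ← mul_assoc, ← Polynomial.C_mul, ← Polynomial.C_mul, hd b a ha']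
  have h5 : ∀ (b : Node p) (a : ℕ), s + h ≤ a → a ≤ n →
      d b a = (p : ℤ_[p]) ^ (h + e) * ((p : ℤ_[p]) ^ (a - (s + h)) * c b a) := by
    intro b a ha1 ha2
    have hne : (p : ℤ_[p]) ^ s ≠ 0 := pow_ne_zero s hp0
    refine mul_left_cancel₀ hne ?_
    rw [← hd b a ha2, ← mul_assoc, ← mul_assoc, ← mul_assoc, ← pow_add, ← pow_add, ← pow_add]
    congr 2; omega
  refine ⟨fun b a => v * d b a,
    (∑ b : Node p, ∑ a ∈ Finset.Ico (s + h) (n + 1),
      Polynomial.C (v * ((p : ℤ_[p]) ^ (a - (s + h)) * c b a)) * vv p n ℤ_[p] b a)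
      - Polynomial.C v * P, ?_, ?_⟩
  · refine (Polynomial.natDegree_sub_le _ _).trans (max_le ?_ ?_)
    · refine Polynomial.natDegree_sum_le_of_forall_le _ _ fun b _ => ?_
      refine Polynomial.natDegree_sum_le_of_forall_le _ _ fun a ha => ?_
      exact (Polynomial.natDegree_C_mul_le _ _).trans (vv_natDegree_le p n b a
        (Nat.lt_succ_iff.1 (Finset.mem_Ico.1 ha).2))
    · exact (Polynomial.natDegree_C_mul_le _ _).trans hdP
  · have h6 : Polynomial.C v * (Polynomial.C ((p : ℤ_[p]) ^ e) * (Polynomial.C (u : ℤ_[p]) * F +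
        Polynomial.C ((p : ℤ_[p]) ^ h) * P)) =
        Polynomial.C ((p : ℤ_[p]) ^ e) * F +
          Polynomial.C ((p : ℤ_[p]) ^ (h + e)) * (Polynomial.C v * P) := by
      have hcv : Polynomial.C (u : ℤ_[p]) * Polynomial.C v = 1 := by
        rw [← Polynomial.C_mul, hv, Polynomial.C_1]
      calc _ = (Polynomial.C (u : ℤ_[p]) * Polynomial.C v) * (Polynomial.C ((p : ℤ_[p]) ^ e) * F) +
          Polynomial.C ((p : ℤ_[p]) ^ e) * Polynomial.C ((p : ℤ_[p]) ^ h) * (Polynomial.C v * P) := by
            ring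
        _ = _ := by
            rw [hcv, one_mul, ← Polynomial.C_mul, ← pow_add, add_comm e h]
    have h7 : ∑ b : Node p, ∑ a ∈ Finset.range (n + 1),
          Polynomial.C (v * d b a) * vv p n ℤ_[p] b a =
        ∑ b : Node p, ∑ a ∈ Finset.range (s + h), Polynomial.C (v * d b a) * vv p n ℤ_[p] b a +
        Polynomial.C ((p : ℤ_[p]) ^ (h + e)) * ∑ b : Node p, ∑ a ∈ Finset.Ico (s + h) (n + 1),
          Polynomial.C (v * ((p : ℤ_[p]) ^ (a - (s + h)) * c b a)) * vv p n ℤ_[p] b a := by
      rw [Finset.mul_sum, ← Finset.sum_add_distrib]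
      refine Finset.sum_congr rfl fun b _ => ?_
      rw [← Finset.sum_range_add_sum_Ico _ (show s + h ≤ n + 1 by omega), Finset.mul_sum]
      congr 1
      refine Finset.sum_congr rfl fun a ha => ?_
      rw [h5 b a (Finset.mem_Ico.1 ha).1 (Nat.lt_succ_iff.1 (Finset.mem_Ico.1 ha).2)]
      simp only [Polynomial.C_mul]
      ring
    have h8 : Polynomial.C v * ∑ b : Node p, ∑ a ∈ Finset.range (n + 1),
        Polynomial.C (d b a) * vv p n ℤ_[p] b a = ∑ b : Node p, ∑ a ∈ Finset.range (n + 1),
          Polynomial.C (v * d b a) * vv p n ℤ_[p] b a := by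
      rw [Finset.mul_sum]
      refine Finset.sum_congr rfl fun b _ => ?_
      rw [Finset.mul_sum]
      refine Finset.sum_congr rfl fun a _ => ?_
      rw [← mul_assoc, ← Polynomial.C_mul]
    rw [h4, h8, h7] at h6
    rw [mul_sub, ← add_sub_assoc, h6]
    ring

end Gou

end
end

section

/-!
MP_602313_nt, module C1 (helper5): statements of the items.
-/

open scoped MatrixGroups ModularForm UpperHalfPlane Manifold Pointwise
open CongruenceSubgroup UpperHalfPlane Matrix Matrix.SpecialLinearGroup ConjAct OnePoint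

noncomputable section

namespace Gou

/-! ### q-expansions -/

/-- `F(z) = ∑ a_m e(m z)` for all `z`. -/
def HasQ (F : ℍ → ℂ) (a : ℕ → ℂ) : Prop :=
  ∀ z : ℍ, HasSum (fun m : ℕ => a m * Complex.exp (2 * Real.pi * Complex.I * m * (z : ℂ))) (F z)

/-- The `m`-th coefficient of the `q`-expansion. -/
def aq (F : ℍ → ℂ) (m : ℕ) : ℂ := (qExpansion 1 F).coeff m

/-- Q1. The `q`-expansion of a cusp form of period one (`UpperHalfPlane.hasSum_qExpansion`;
bounded at infinity from `IsCuspFun.zero`, `OnePoint.isZeroAt_infty_iff`). -/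
def Q1Exp : Prop := ∀ (k : ℤ) (F : ℍ → ℂ), IsCuspFun k F → (∀ z, F (shPt 1 1 z) = F z) →
  HasQ F (aq F) ∧ aq F 0 = 0

/-- Q2. Uniqueness of the coefficients. -/
def Q2Uniq : Prop := ∀ (F : ℍ → ℂ) (a b : ℕ → ℂ), HasQ F a → HasQ F b → a = b

/-- Q3. The operator `U_d`. -/
def Q3U : Prop := ∀ (F : ℍ → ℂ) (a : ℕ → ℂ) (d : ℕ) (hd : 0 < d), HasQ F a →
  HasQ (fun z => (d : ℂ)⁻¹ * ∑ j ∈ Finset.range d, F (divPt d j hd z)) (fun m => a (d * m))

/-- Q4. The operator `V_l`. -/
def Q4V : Prop := ∀ (F : ℍ → ℂ) (a : ℕ → ℂ) (l : ℕ) (hl : 0 < l), HasQ F a →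
  HasQ (fun z => F (mulPt l hl z)) (fun m => if l ∣ m then a (m / l) else 0)

/-- Q5. Translations. -/
def Q5Shift : Prop := ∀ (F : ℍ → ℂ) (a : ℕ → ℂ) (N j : ℕ), HasQ F a →
  HasQ (fun z => F (shPt N j z)) (fun m => a m * Complex.exp (2 * Real.pi * Complex.I * m * j / N))

/-- Q6. Decay at infinity from the vanishing of the first coefficients. -/
def Q6Decay : Prop := ∀ (F : ℍ → ℂ) (a : ℕ → ℂ) (M : ℕ), HasQ F a → (∀ m ≤ M, a m = 0) →
  F =O[atImInfty] fun τ => Real.exp (-2 * Real.pi * ((M : ℝ) + 1) * τ.im)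

/-! ### Sturm bounds -/

/-- S1. Level one (Mathlib: `ModularForm.sturm_bound_levelOne`). -/
def S1Level : Prop := ∀ (K : ℤ) (F : ModularForm 𝒮ℒ K) (c : ℝ), (K : ℝ) < 12 * c →
  (⇑F =O[atImInfty] fun τ => Real.exp (-2 * Real.pi * c * τ.im)) → F = 0

/-- S2. Any subgroup of finite index (from S1, through `ModularForm.norm`). -/
def S2Sturm : Prop := ∀ (Γ : Subgroup SL(2, ℤ)) [Γ.FiniteIndex], ∃ C : ℕ,
  ∀ (k : ℕ) (f : CuspForm Γ (k : ℤ)) (c : ℝ), (C : ℝ) * k < c →
    (⇑f =O[atImInfty] fun τ => Real.exp (-2 * Real.pi * c * τ.im)) → f = 0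

/-! ### Cosets -/

/-- K0. Sums over representatives are invariant. -/
def K0Sum : Prop := ∀ (Γ : Subgroup SL(2, ℤ)) (k : ℤ) (f : ℍ → ℂ), (∀ γ ∈ Γ, f ∣[k] γ = f) →
  ∀ (ι : Type) [Fintype ι] (α : ι → GL (Fin 2) ℚ),
    (∀ γ ∈ Γ, ∀ i, ∃ j, ∃ γ' ∈ Γ, α i * mapGL ℚ γ = mapGL ℚ γ' * α j) →
    (∀ i j, ∀ γ' ∈ Γ, α i = mapGL ℚ γ' * α j → i = j) →
    ∀ γ ∈ Γ, (∑ i, f ∣[k] gR (α i)) ∣[k] γ = ∑ i, f ∣[k] gR (α i)

/-- K1. Representatives of `U_d`, all primes dividing `d` divide `N`. -/
def K1U : Prop := ∀ (N d : ℕ) (hd : d ≠ 0), (∀ q : ℕ, q.Prime → q ∣ d → q ∣ N) →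
  (∀ γ ∈ Gamma0 N, ∀ i : Fin d, ∃ j : Fin d, ∃ γ' ∈ Gamma0 N,
    gU d hd i * mapGL ℚ γ = mapGL ℚ γ' * gU d hd j) ∧
  (∀ i j : Fin d, ∀ γ' ∈ Gamma0 N, gU d hd i = mapGL ℚ γ' * gU d hd j → i = j)

/-- Representatives of `T_l`. -/
def alphaT (l : ℕ) (hl : l ≠ 0) : Option (Fin l) → GL (Fin 2) ℚ
  | Option.some j => gU l hl j
  | Option.none => gV l hl

/-- K2. Representatives of `T_l`, `l` a prime not dividing `N`. -/
def K2T : Prop := ∀ (N l : ℕ) (hl : l ≠ 0), l.Prime → ¬ l ∣ N →
  (∀ γ ∈ Gamma0 N, ∀ i : Option (Fin l), ∃ j : Option (Fin l), ∃ γ' ∈ Gamma0 N,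
    alphaT l hl i * mapGL ℚ γ = mapGL ℚ γ' * alphaT l hl j) ∧
  (∀ i j : Option (Fin l), ∀ γ' ∈ Gamma0 N, alphaT l hl i = mapGL ℚ γ' * alphaT l hl j → i = j)

/-- K3. Translations by `j / N` and `Γ(N^2)`. -/
def K3B : Prop := ∀ (N j : ℕ), N ≠ 0 → ∀ γ ∈ Gamma (N ^ 2), ∃ γ' ∈ Gamma0 N,
  gB N j * mapGL ℚ γ = mapGL ℚ γ' * gB N j

/-- H1. The Hecke operators (from K0, K2). -/
def H1Hecke : Prop := ∀ N : ℕ, N ≠ 0 → HeckeExists N

/-- H2. The operators `U_d` (from K0, K1). -/
def H2U : Prop := ∀ (N : ℕ), N ≠ 0 → ∀ (k : ℤ) (d : ℕ) (hd : 0 < d),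
  (∀ q : ℕ, q.Prime → q ∣ d → q ∣ N) →
  ∀ f : SN N k, ∃ g : SN N k, ∀ z : ℍ,
    g z = (d : ℂ)⁻¹ * ∑ j ∈ Finset.range d, f (divPt d j hd z)

/-- H3. Translates by `j / N` are cusp forms for `Γ(N^2)` (from K3). -/
def H3B : Prop := ∀ (N : ℕ), N ≠ 0 → ∀ (k : ℤ) (f : SN N k) (j : ℕ),
  ∃ g : CuspForm (Gamma (N ^ 2)) k, ∀ z : ℍ, g z = f (shPt N j z)

/-- H4. Coefficients of a cusp form of level `N` (from Q1, Q2, Q6, S2). -/
def H4Sturm : Prop := ∀ (N : ℕ), N ≠ 0 → ∃ C : ℕ, ∀ (k : ℕ) (f : SN N (k : ℤ)),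
  (∀ m ≤ C * k, aq f m = 0) → f = 0

/-- H5. `q`-expansion of `T_l f` (from Q1-Q4). -/
def H5Coeff : Prop := ∀ (N : ℕ), N ≠ 0 → ∀ (k : ℤ) (l : ℕ), l.Prime → ¬ l ∣ N →
  ∀ T : SN N k →ₗ[ℂ] SN N k, IsHecke N k l T → ∀ (f : SN N k) (m : ℕ),
    aq (T f) m = aq f (l * m) + (l : ℂ) ^ (k - 1) * (if l ∣ m then aq f (m / l) else 0)

/-- H6. Finite dimension (from H4 and, for `k < 0`, `ModularForm.isZero_of_neg_weight`). -/
def H6Fin : Prop := ∀ N : ℕ, N ≠ 0 → FinDim N

/-- H7. Commutation (from Q1, Q2, H5). -/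
def H7Comm : Prop := ∀ N : ℕ, N ≠ 0 → HeckeComm N

/-! ### Eigenvalues -/

/-- The Hecke eigenvalue of the `m`-th Hecke operator in terms of the eigenvalues `χ l`. -/
def lamC (k : ℤ) (χ : ℕ → ℂ) (m : ℕ) : ℂ :=
  if _h : m ≤ 1 then 1 else
    χ m.minFac * lamC k χ (m / m.minFac) - (m.minFac : ℂ) ^ (k - 1) *
      (if m.minFac ∣ m / m.minFac then lamC k χ (m / m.minFac / m.minFac) else 0)
termination_by m
decreasing_by
  all_goals
    have h1 : 1 < m.minFac := (Nat.minFac_prime (by omega)).one_lt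
    have h2 : m / m.minFac < m := Nat.div_lt_self (by omega) h1
  · exact h2
  · exact lt_of_le_of_lt (Nat.div_le_self _ _) h2

/-- R1. Eigen sequences. -/
def R1Eigen : Prop := ∀ (N : ℕ) (k : ℤ) (χ : ℕ → ℂ) (a : ℕ → ℂ),
  (∀ l : ℕ, l.Prime → ¬ l ∣ N → ∀ j : ℕ,
    a (l * j) + (l : ℂ) ^ (k - 1) * (if l ∣ j then a (j / l) else 0) = χ l * a j) →
  ∀ d m : ℕ, m ≠ 0 → d ≠ 0 → (∀ q : ℕ, q.Prime → q ∣ d → q ∣ N) → m.Coprime N →
    a (d * m) = lamC k χ m * a d

/-- R2. `cmul` and `lamC` determine each other, universally in `χ`. -/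
def R2Conv : Prop := ∀ k : ℤ, ∃ b b' : ℕ → ℕ → ℂ, ∀ (χ : ℕ → ℂ) (m : ℕ), m ≠ 0 →
  cmul χ m = ∑ m' ∈ m.divisors, b m m' * lamC k χ m' ∧
  lamC k χ m = ∑ m' ∈ m.divisors, b' m m' * cmul χ m'

/-- R3. Every `m ≠ 0` is a product of a number all of whose prime factors divide `N` and a number
prime to `N`. -/
def R3Fact : Prop := ∀ N : ℕ, N ≠ 0 → ∀ m : ℕ, m ≠ 0 → ∃ d e : ℕ, d ≠ 0 ∧ e ≠ 0 ∧ m = d * e ∧
  (∀ q : ℕ, q.Prime → q ∣ d → q ∣ N) ∧ e.Coprime N

/-- R4. Counting. -/
def R4Count : Prop := ∀ N B : ℕ, N ≠ 0 →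
  ((Finset.Icc 1 B).filter (fun d => ∀ q ∈ d.primeFactors, q ∣ N)).card ≤
    (Nat.log 2 B + 1) ^ N.primeFactors.card

/-- R5. Dedekind independence. -/
def R5Ded : Prop := ∀ (N r : ℕ) (χ : Fin r → ℕ → ℂ),
  (∀ i j, i ≠ j → ∃ l : ℕ, l.Prime ∧ ¬ l ∣ N ∧ χ i l ≠ χ j l) →
  ∀ c : Fin r → ℂ, (∀ m : ℕ, m ≠ 0 → m.Coprime N → ∑ i, c i * cmul (χ i) m = 0) → c = 0

/-- The weights of the depletion. -/
def wdep (N j : ℕ) : ℂ := (N : ℂ)⁻¹ * ∑ r ∈ (Finset.range N).filter (fun r => r.Coprime N),
  Complex.exp (-(2 * Real.pi * Complex.I * r * j / N))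

/-- R6. Depletion. -/
def R6Dep : Prop := ∀ N : ℕ, N ≠ 0 → ∀ m : ℕ,
  ∑ j ∈ Finset.range N, wdep N j * Complex.exp (2 * Real.pi * Complex.I * m * j / N)
    = if m.Coprime N then 1 else 0

/-- R7. An eigenform whose coefficients `a_d`, `d ≤ B`, `d` composed of primes dividing `N`, vanish,
has `a_m = 0` for all `m ≤ B` (from Q1, H1, H5, R1, R3). -/
def R7Vanish : Prop := ∀ (N : ℕ), N ≠ 0 → ∀ (k : ℤ) (χ : ℕ → ℂ) (f : SN N k) (B : ℕ),
  IsEigen N k χ f → (∀ d ≤ B, d ≠ 0 → (∀ q : ℕ, q.Prime → q ∣ d → q ∣ N) → aq f d = 0) →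
  ∀ m ≤ B, aq f m = 0

/-- F1. -/
def F1Mult : Prop := ∀ N : ℕ, N ≠ 0 → MultBound N

/-- F2. -/
def F2Sep : Prop := ∀ N : ℕ, N ≠ 0 → CharSep N

end Gou

end
end

section

/-!
D10. Lower bound for `v_p(det A)` by the size of the image modulo `p^s`.
-/

namespace Gou

namespace D10

theorem val_prod (p : ℕ) [Fact p.Prime] {ι : Type*} (s : Finset ι) (a : ι → ℤ)
    (ha : ∀ i, a i ≠ 0) : padicValInt p (∏ i ∈ s, a i) = ∑ i ∈ s, padicValInt p (a i) := by
  classical
  induction s using Finset.induction_on with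
  | empty => simp
  | insert i s hi ih =>
    rw [Finset.prod_insert hi, Finset.sum_insert hi,
      padicValInt.mul (ha i) (Finset.prod_ne_zero_iff.2 fun j _ => ha j), ih]

theorem val_unit (p : ℕ) {z : ℤ} (hz : IsUnit z) : padicValInt p z = 0 := by
  unfold padicValInt
  rw [Int.isUnit_iff_natAbs_eq.1 hz]
  simp

theorem key (p : ℕ) [Fact p.Prime] {z c : ℤ} {s : ℕ} (hz : z ≠ 0)
    (h : (p : ℤ) ^ s ∣ z * c) : (p : ℤ) ^ (s - min (padicValInt p z) s) ∣ c := by
  rw [padicValInt_dvd_iff] at h ⊢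
  by_cases hc : c = 0
  · exact Or.inl hc
  · right
    rcases h with h | h
    · exact absurd h (mul_ne_zero hz hc)
    · rw [padicValInt.mul hz hc] at h
      omega

end D10

open Matrix in
theorem d10Lower (h8 : D8Smith) : D10Lower := by
  intro p hp R s A L hA hL
  obtain ⟨U, V, a, hU, hV, hAUV⟩ := h8 R A hA
  have hdet : A.det * U.det = V.det * ∏ i, a i := by
    have := congrArg Matrix.det hAUV
    rwa [det_mul, det_mul, det_diagonal] at this
  have hai : ∀ i, a i ≠ 0 := by
    intro i hi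
    rw [Finset.prod_eq_zero (Finset.mem_univ i) hi, mul_zero] at hdet
    exact (mul_ne_zero hA hU.ne_zero) hdet
  have hv : padicValInt p A.det = ∑ i, padicValInt p (a i) := by
    have h1 := congrArg (padicValInt p) hdet
    rw [padicValInt.mul hA hU.ne_zero, padicValInt.mul hV.ne_zero
      (Finset.prod_ne_zero_iff.2 fun j _ => hai j), D10.val_unit p hU, D10.val_unit p hV,
      D10.val_prod p _ a hai, add_zero, zero_add] at h1
    exact h1
  set e : Fin R → ℕ := fun i => s - min (padicValInt p (a i)) s with he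
  let T := ∀ i : Fin R, Fin (p ^ (e i))
  have hcard : Fintype.card T = p ^ (∑ i, e i) := by
    simp only [T, Fintype.card_pi, Fintype.card_fin]
    rw [Finset.prod_pow_eq_pow_sum]
  let φ : Fin (Fintype.card T) ≃ T := (Fintype.equivFin T).symm
  let y : T → Fin R → ℤ := fun c i => ((c i : ℕ) : ℤ)
  have hVy : ∀ y : Fin R → ℤ, (∀ k, (p : ℤ) ^ s ∣ V.mulVec y k) → ∀ k, (p : ℤ) ^ s ∣ y k := by
    intro y hy k
    have h1 : y = V⁻¹.mulVec (V.mulVec y) := by
      rw [mulVec_mulVec, nonsing_inv_mul V hV, one_mulVec]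
    rw [h1]
    unfold mulVec dotProduct
    exact Finset.dvd_sum fun l _ => Dvd.dvd.mul_left (hy l) _
  have hinj : ∀ c c' : T, (∀ k, (p : ℤ) ^ s ∣ A.mulVec (U.mulVec (y c)) k -
      A.mulVec (U.mulVec (y c')) k) → c = c' := by
    intro c c' h
    have h1 : ∀ y : Fin R → ℤ, A.mulVec (U.mulVec y) = V.mulVec (fun i => a i * y i) := by
      intro y
      rw [mulVec_mulVec, hAUV, ← mulVec_mulVec]
      congr 1
      ext i
      rw [mulVec_diagonal]
    have h2 : ∀ k, (p : ℤ) ^ s ∣ a k * (y c k - y c' k) := by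
      have h3 := hVy (fun i => a i * y c i - a i * y c' i) (by
        intro k
        have h4 := h k
        rw [h1, h1] at h4
        have h5 : (fun i => a i * y c i - a i * y c' i) =
            (fun i => a i * y c i) - (fun i => a i * y c' i) := rfl
        rw [h5, mulVec_sub]
        exact h4)
      intro k
      have := h3 k
      rwa [← mul_sub] at this
    funext k
    have h3 := D10.key p (hai k) (h2 k)
    have h4 : y c k - y c' k = 0 := by
      apply Int.eq_zero_of_abs_lt_dvd h3
      have h5 : (y c k) < (p : ℤ) ^ (e k) := by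
        change (((c k : ℕ) : ℤ)) < (p : ℤ) ^ (e k)
        exact_mod_cast (c k).2
      have h6 : (y c' k) < (p : ℤ) ^ (e k) := by
        change (((c' k : ℕ) : ℤ)) < (p : ℤ) ^ (e k)
        exact_mod_cast (c' k).2
      have h7 : 0 ≤ y c k := Int.natCast_nonneg _
      have h8 : 0 ≤ y c' k := Int.natCast_nonneg _
      rw [abs_lt]
      constructor <;> (simp only [he] at h5 h6; linarith)
    apply Fin.ext
    have h5 : ((c k : ℕ) : ℤ) = ((c' k : ℕ) : ℤ) := by
      change y c k = y c' k
      linarith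
    exact_mod_cast h5
  have h1 := hL (Fintype.card T) (fun i => U.mulVec (y (φ i))) (by
    intro i j hij
    exact φ.injective (hinj _ _ hij))
  rw [hcard] at h1
  have hp1 : (1 : ℝ) < p := by exact_mod_cast hp.out.one_lt
  have h2 : Real.logb p ((p ^ (∑ i, e i) : ℕ) : ℝ) = ((∑ i, e i : ℕ) : ℝ) := by
    push_cast
    rw [Real.logb_pow, Real.logb_self_eq_one hp1, mul_one]
    push_cast
    rfl
  rw [h2] at h1
  have h3 : R * s ≤ (∑ i, e i) + ∑ i, padicValInt p (a i) := by
    rw [← Finset.sum_add_distrib]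
    calc R * s = ∑ _i : Fin R, s := by simp
      _ ≤ ∑ i, (e i + padicValInt p (a i)) := Finset.sum_le_sum fun i _ => by
          simp only [he]
          omega
  have h4 : (R : ℝ) * s ≤ ((∑ i, e i : ℕ) : ℝ) + ((∑ i, padicValInt p (a i) : ℕ) : ℝ) := by
    exact_mod_cast h3
  rw [hv]
  linarith

end Gou

end

section

/-!
D11. Choice of `u` by the pigeonhole principle.
-/

noncomputable section

namespace Gou

theorem d11Gen (h1 : D1Int) : D11Gen := by
  classical
  intro p hpf K _ _ av hna s c D roots hcard hpc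
  have hp : p.Prime := hpf.out
  have hp0 : (0 : ℝ) < p := by exact_mod_cast hp.pos
  by_contra hcon
  push Not at hcon
  have hu : ∀ j : ℕ, ¬ (p : ℤ) ∣ (1 + p * j : ℤ) := by
    intro j h
    have h2 : (p : ℤ) ∣ 1 := by
      have h3 : (1 : ℤ) = (1 + p * j) - p * j := by ring
      rw [h3]
      exact dvd_sub h (dvd_mul_right _ _)
    have h4 := Int.le_of_dvd one_pos h2
    have h5 := hp.two_le
    omega
  choose f hf1 hf2 using fun j : ℕ => hcon (1 + p * j) (hu j)
  have hlt : roots.toFinset.card < (Finset.range (D + 1)).card := by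
    rw [Finset.card_range]
    exact Nat.lt_succ_of_le ((Multiset.toFinset_card_le roots).trans hcard)
  obtain ⟨i, hi, j, hj, hij, hfij⟩ := Finset.exists_ne_map_eq_of_card_lt_of_maps_to hlt
    (f := f) (fun j _ => Multiset.mem_toFinset.2 (hf1 j))
  rw [Finset.mem_range] at hi hj
  have e1 := hf2 i
  have e2 := hf2 j
  rw [← hfij] at e2
  -- the difference
  set z : ℤ := p * ((i : ℤ) - j) with hz
  have hz0 : z ≠ 0 := by
    rw [hz]
    refine mul_ne_zero (by exact_mod_cast hp.ne_zero) ?_
    intro h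
    apply hij
    omega
  have h3 : av ((p : K) ^ s * (z : K)) < (p : ℝ) ^ (-((s + c : ℕ) : ℝ)) := by
    have h4 : (p : K) ^ s * (z : K) = (f i - (p : K) ^ s * ((1 + p * j : ℤ) : K)) +
        -(f i - (p : K) ^ s * ((1 + p * i : ℤ) : K)) := by
      rw [hz]
      push_cast
      ring
    rw [h4]
    refine (hna.na _ _).trans_lt (max_lt e2 ?_)
    rw [map_neg_eq_map]
    exact e1
  have h5 : (p : ℝ) ^ (-((s + c : ℕ) : ℝ)) = ((p : ℝ) ^ s)⁻¹ * ((p : ℝ) ^ c)⁻¹ := by
    rw [Real.rpow_neg hp0.le, Real.rpow_natCast, pow_add, mul_inv]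
  rw [map_mul, map_pow, hna.hp, h5, inv_pow] at h3
  have h6 := lt_of_mul_lt_mul_left h3 (by positivity)
  have h7 := ((h1 p K av hna z).2.1 hz0).trans_lt h6
  have h8 : (p : ℝ) ^ c < ((|z| : ℤ) : ℝ) := by
    have hzpos : (0 : ℝ) < ((|z| : ℤ) : ℝ) := by exact_mod_cast abs_pos.2 hz0
    exact (inv_lt_inv₀ hzpos (by positivity)).1 h7
  have h9 : |z| ≤ p * (D + 1) := by
    rw [hz, abs_mul, Nat.abs_cast]
    refine mul_le_mul_of_nonneg_left ?_ (by positivity)
    rw [abs_le]
    constructor <;> omega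
  have h10 : (p : ℤ) ^ c < |z| := by exact_mod_cast h8
  have h11 : ((p * (D + 1) : ℕ) : ℤ) < ((p ^ c : ℕ) : ℤ) := by exact_mod_cast hpc
  push_cast at h11
  linarith

end Gou

end
end

section

/-!
D12: simultaneous generalised eigenspaces.
-/

noncomputable section

namespace Gou

open Module Module.End LinearMap Set

namespace D12

variable {K V L : Type} [Field K] [AddCommGroup V] [Module K V]

theorem restr_prod (N : Submodule K V) (f : L → Module.End K V)
    (hN : ∀ l, MapsTo (f l) N N) (w : List L) (x : N) :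
    (((w.map fun l => (f l).restrict (hN l)).prod x : N) : V) = (w.map f).prod (x : V) := by
  induction w with
  | nil => simp
  | cons l w ih =>
    simp only [List.map_cons, List.prod_cons, Module.End.mul_apply]
    rw [← ih]
    rfl

theorem mapsTo_prod (N : Submodule K V) (f : L → Module.End K V)
    (hN : ∀ l, MapsTo (f l) N N) (w : List L) : MapsTo ((w.map f).prod) N N := by
  intro x hx
  have := restr_prod N f hN w ⟨x, hx⟩
  rw [← this]
  exact Subtype.mem _

theorem restrict_prod (N : Submodule K V) (f : L → Module.End K V)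
    (hN : ∀ l, MapsTo (f l) N N) (w : List L) :
    ((w.map f).prod).restrict (mapsTo_prod N f hN w) =
      (w.map fun l => (f l).restrict (hN l)).prod := by
  ext x
  rw [restr_prod]
  rfl

theorem pow_restr (N : Submodule K V) (f : Module.End K V) (hN : MapsTo f N N) (c : K) (k : ℕ)
    (x : N) : (((f.restrict hN - c • (1 : Module.End K N)) ^ k) x : V) =
      ((f - c • (1 : Module.End K V)) ^ k) (x : V) := by
  induction k generalizing x with
  | zero => simp
  | succ k ih =>
    rw [pow_succ, pow_succ, Module.End.mul_apply, Module.End.mul_apply, ih]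
    rfl

/-- A product of commuting endomorphisms `c l + nilpotent` is of the form
`prod c + nilpotent`. -/
theorem nil_prod (F : L → Module.End K V) (hF : ∀ l l', Commute (F l) (F l')) (χ : L → K)
    (hn : ∀ l, IsNilpotent (F l - χ l • (1 : Module.End K V))) (w : List L) :
    IsNilpotent ((w.map F).prod - (w.map χ).prod • (1 : Module.End K V)) := by
  induction w with
  | nil => simp
  | cons l w ih =>
    set P := (w.map F).prod with hP
    set c := (w.map χ).prod with hc
    have hcomm : Commute (F l) P := by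
      apply Commute.list_prod_right
      intro x hx
      obtain ⟨l', _, rfl⟩ := List.mem_map.1 hx
      exact hF l l'
    have e : ((l :: w).map F).prod - ((l :: w).map χ).prod • (1 : Module.End K V) =
        (F l - χ l • (1 : Module.End K V)) * P + χ l • (P - c • (1 : Module.End K V)) := by
      simp only [List.map_cons, List.prod_cons]
      rw [sub_mul, smul_mul_assoc, one_mul, smul_sub, smul_smul]
      abel
    rw [e]
    have c1 : Commute (F l - χ l • (1 : Module.End K V)) P :=
      hcomm.sub_left ((Commute.one_left P).smul_left _)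
    have c2 : Commute (F l - χ l • (1 : Module.End K V)) (P - c • (1 : Module.End K V)) :=
      c1.sub_right ((Commute.one_right _).smul_right _)
    have c3 : Commute P (P - c • (1 : Module.End K V)) :=
      (Commute.refl P).sub_right ((Commute.one_right _).smul_right _)
    refine Commute.isNilpotent_add ?_ (c1.isNilpotent_mul_right (hn l)) (ih.smul _)
    exact (c2.mul_left c3).smul_right _

theorem trace_prod [FiniteDimensional K V] (F : L → Module.End K V)
    (hF : ∀ l l', Commute (F l) (F l')) (χ : L → K)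
    (hn : ∀ l, IsNilpotent (F l - χ l • (1 : Module.End K V))) (w : List L) :
    LinearMap.trace K V (w.map F).prod = (finrank K V : K) * (w.map χ).prod := by
  have h1 := (LinearMap.isNilpotent_trace_of_isNilpotent (nil_prod F hF χ hn w)).eq_zero
  rw [map_sub, map_smul, LinearMap.trace_one, sub_eq_zero] at h1
  rw [h1, smul_eq_mul, mul_comm]

end D12

open D12 in
theorem d12Char : D12Char := by
  intro K _ _ _ L _ R M hM
  classical
  let V := Fin R → K
  let f : L → Module.End K V := fun l => Matrix.toLinAlgEquiv' (M l)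
  have hf : ∀ l l', Commute (f l) (f l') := by
    intro l l'
    show f l * f l' = f l' * f l
    simp only [f]
    rw [← map_mul, ← map_mul, hM]
  let W : (L → K) → Submodule K V := fun χ => ⨅ l, (f l).maxGenEigenspace (χ l)
  have hmap : ∀ i j φ, MapsTo (f i) ((f j).maxGenEigenspace φ) ((f j).maxGenEigenspace φ) :=
    fun i j φ => mapsTo_maxGenEigenspace_of_comm (hf j i) φ
  have hW : ∀ χ l, MapsTo (f l) (W χ) (W χ) := by
    intro χ l x hx
    have hx' : x ∈ ⨅ l, (f l).maxGenEigenspace (χ l) := hx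
    show f l x ∈ ⨅ l, (f l).maxGenEigenspace (χ l)
    rw [Submodule.mem_iInf] at hx' ⊢
    exact fun i => hmap l i (χ i) (hx' i)
  have hind : iSupIndep W := independent_iInf_maxGenEigenspace_of_forall_mapsTo f hmap
  have htop : ⨆ χ, W χ = ⊤ := iSup_iInf_maxGenEigenspace_eq_top_of_forall_mapsTo f hmap
    (fun i => iSup_maxGenEigenspace_eq_top (f i))
  have hint : DirectSum.IsInternal W :=
    DirectSum.isInternal_submodule_of_iSupIndep_of_iSup_eq_top hind htop
  have hfin : {χ | W χ ≠ ⊥}.Finite := WellFoundedGT.finite_ne_bot_of_iSupIndep hind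
  have hmem : ∀ χ, χ ∈ hfin.toFinset ↔ W χ ≠ ⊥ := fun χ => by simp
  set s := hfin.toFinset with hs
  let e : Fin s.card ≃ s := s.equivFin.symm
  have hnil : ∀ χ l, IsNilpotent ((f l).restrict (hW χ l) - χ l • (1 : Module.End K (W χ))) := by
    intro χ l
    rw [Module.End.isNilpotent_iff_of_finite]
    intro x
    obtain ⟨k, hk⟩ := (mem_iInf_maxGenEigenspace_iff f χ (x : V)).1 x.2 l
    refine ⟨k, ?_⟩
    apply Subtype.ext
    rw [pow_restr]
    exact hk
  have htr : ∀ w : List L, Matrix.trace (w.map M).prod =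
      ∑ j : Fin s.card, (finrank K (W (e j).1) : K) * (w.map (e j).1).prod := by
    intro w
    have h1 : LinearMap.trace K V (w.map f).prod = Matrix.trace (w.map M).prod := by
      have h2 : (w.map f).prod = Matrix.toLin' (w.map M).prod := by
        have h3 : Matrix.toLinAlgEquiv' (w.map M).prod = (w.map f).prod := by
          rw [map_list_prod, List.map_map]
          rfl
        rw [← h3]
        rfl
      rw [h2]
      exact Matrix.trace_toLin'_eq _
    rw [← h1, LinearMap.trace_eq_sum_trace_restrict' hint hfin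
      (fun χ => mapsTo_prod (W χ) f (hW χ) w)]
    have h4 : ∀ χ, LinearMap.trace K (W χ) (((w.map f).prod).restrict
        (mapsTo_prod (W χ) f (hW χ) w)) = (finrank K (W χ) : K) * (w.map χ).prod := by
      intro χ
      rw [restrict_prod]
      exact trace_prod _ (fun l l' => LinearMap.restrict_commute (hf l l') _ _) χ (hnil χ) w
    rw [Finset.sum_congr rfl (fun χ _ => h4 χ)]
    rw [← hs, ← Finset.sum_coe_sort s]
    exact (Equiv.sum_comp e (fun χ : s => (finrank K (W χ.1) : K) * (w.map χ.1).prod)).symm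
  refine ⟨s.card, fun j => (e j).1, fun j => finrank K (W (e j).1), ?_, ?_, ?_, htr, ?_, ?_⟩
  · intro i j hij
    exact e.injective (Subtype.ext hij)
  · intro j
    have h1 : W (e j).1 ≠ ⊥ := (hmem _).1 (e j).2
    exact Nat.one_le_iff_ne_zero.2 fun h => h1 (Submodule.finrank_eq_zero.1 h)
  · have h1 := htr []
    simp only [List.map_nil, List.prod_nil, Matrix.trace_one, Fintype.card_fin, mul_one] at h1
    exact_mod_cast h1.symm
  · intro j l
    have h1 : W (e j).1 ≠ ⊥ := (hmem _).1 (e j).2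
    have h2 : (f l).maxGenEigenspace ((e j).1 l) ≠ ⊥ := by
      intro h3
      apply h1
      rw [eq_bot_iff, ← h3]
      exact iInf_le _ l
    have h3 : (f l).HasEigenvalue ((e j).1 l) := by
      have h4 : HasUnifEigenvalue (f l) ((e j).1 l) ⊤ := h2
      exact HasUnifEigenvalue.lt zero_lt_one h4
    have h4 := (hasEigenvalue_iff_isRoot_charpoly (f l) _).1 h3
    have h5 : (f l).charpoly = (M l).charpoly := Matrix.charpoly_toLin' (M l)
    rwa [h5] at h4
  · intro ψ r v hv hlin hr
    have h1 : ∀ i, v i ∈ W ψ := by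
      intro i
      show v i ∈ ⨅ l, (f l).maxGenEigenspace (ψ l)
      rw [mem_iInf_maxGenEigenspace_iff]
      intro l
      refine ⟨1, ?_⟩
      rw [pow_one]
      show f l (v i) - ψ l • v i = 0
      rw [sub_eq_zero]
      exact hv i l
    have h2 : W ψ ≠ ⊥ := by
      intro h3
      have h4 := h1 ⟨0, hr⟩
      rw [h3, Submodule.mem_bot] at h4
      exact hlin.ne_zero _ h4
    obtain ⟨j, hj⟩ := e.surjective ⟨ψ, (hmem ψ).2 h2⟩
    have hj' : (e j).1 = ψ := congrArg Subtype.val hj
    refine ⟨j, hj'.symm, ?_⟩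
    show r ≤ finrank K (W (e j).1)
    rw [hj']
    have h5 : LinearIndependent K (fun i => (⟨v i, h1 i⟩ : W ψ)) :=
      LinearIndependent.of_comp (W ψ).subtype hlin
    have h6 := h5.fintype_card_le_finrank
    simpa using h6

end Gou

end
end

section

/-!
Item D13 (chain argument).
-/

open scoped Pointwise

noncomputable section

namespace Gou

namespace D13Aux

variable {K : Type} [Field K] {q : ℕ}

/-- a subspace of `K^q` which is closed under multiplication, contains `1` and separates the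
points is everything -/
theorem eq_top (P : Submodule K (Fin q → K)) (h1 : (1 : Fin q → K) ∈ P)
    (hmul : ∀ a ∈ P, ∀ b ∈ P, a * b ∈ P)
    (hsep : ∀ j j' : Fin q, j ≠ j' → ∃ f ∈ P, f j ≠ f j') : P = ⊤ := by
  classical
  have hg : ∀ j j' : Fin q, ∃ g ∈ P, (j ≠ j' → g j = 1 ∧ g j' = 0) := by
    intro j j'
    by_cases hjj : j = j'
    · exact ⟨1, h1, fun h => absurd hjj h⟩
    · obtain ⟨f, hf, hne⟩ := hsep j j' hjj
      refine ⟨(f j - f j')⁻¹ • (f - f j' • (1 : Fin q → K)), ?_, fun _ => ⟨?_, ?_⟩⟩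
      · exact P.smul_mem _ (P.sub_mem hf (P.smul_mem _ h1))
      · have : f j - f j' ≠ 0 := sub_ne_zero.mpr hne
        simp only [Pi.smul_apply, Pi.sub_apply, Pi.one_apply, smul_eq_mul, mul_one]
        exact inv_mul_cancel₀ this
      · simp only [Pi.smul_apply, Pi.sub_apply, Pi.one_apply, smul_eq_mul, mul_one, sub_self,
          mul_zero]
  choose g hgP hg using hg
  have hprod : ∀ (j : Fin q) (s : Finset (Fin q)), (∏ j' ∈ s, g j j') ∈ P := by
    intro j s
    induction s using Finset.induction_on with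
    | empty => simpa using h1
    | insert a s ha ih =>
      rw [Finset.prod_insert ha]
      exact hmul _ (hgP j a) _ ih
  have hsingle : ∀ j : Fin q, (Pi.single j (1 : K) : Fin q → K) ∈ P := by
    intro j
    have : (Pi.single j (1 : K) : Fin q → K) = ∏ j' ∈ Finset.univ.erase j, g j j' := by
      funext i
      rw [Finset.prod_apply]
      by_cases hi : i = j
      · subst hi
        rw [Pi.single_eq_same, Finset.prod_eq_one]
        intro j' hj'
        exact (hg i j' (Finset.ne_of_mem_erase hj').symm).1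
      · rw [Pi.single_eq_of_ne hi]
        symm
        apply Finset.prod_eq_zero (i := i) (Finset.mem_erase.mpr ⟨hi, Finset.mem_univ _⟩)
        exact (hg j i (Ne.symm hi)).2
    rw [this]
    exact hprod _ _
  rw [Submodule.eq_top_iff']
  intro v
  have hv : v = ∑ j, v j • (Pi.single j (1 : K) : Fin q → K) := by
    funext i
    rw [Finset.sum_apply]
    simp only [Pi.smul_apply, smul_eq_mul, Pi.single_apply]
    simp
  rw [hv]
  exact P.sum_mem fun j _ => P.smul_mem _ (hsingle j)

theorem mem_pow_words {L : Type} (χ : Fin q → L → K) (S : Set (List L)) (n : ℕ) :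
    ∀ v ∈ ({v : Fin q → K | ∃ w ∈ S, v = fun j => (w.map (χ j)).prod} ^ n : Set (Fin q → K)),
      ∃ W : List (List L), W.length = n ∧ (∀ u ∈ W, u ∈ S) ∧
        v = fun j => (W.flatten.map (χ j)).prod := by
  induction n with
  | zero =>
    intro v hv
    rw [pow_zero, Set.mem_one] at hv
    refine ⟨[], rfl, by simp, ?_⟩
    rw [hv]
    funext j
    simp
  | succ n ih =>
    intro v hv
    rw [pow_succ, Set.mem_mul] at hv
    obtain ⟨a, ha, b, ⟨w, hw, hb⟩, rfl⟩ := hv
    obtain ⟨W, hW1, hW2, rfl⟩ := ih a ha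
    refine ⟨W ++ [w], by simp [hW1], ?_, ?_⟩
    · intro u hu
      rw [List.mem_append, List.mem_singleton] at hu
      rcases hu with hu | hu
      · exact hW2 u hu
      · rw [hu]
        exact hw
    · funext j
      rw [hb]
      simp

end D13Aux

open D13Aux

theorem d13Chain : D13Chain := by
  intro K _ L q c χ S hχ hnil hl hdim
  set s : Set (Fin q → K) := {v : Fin q → K | ∃ w ∈ S, v = fun j => (w.map (χ j)).prod} with hs
  set V : Submodule K (Fin q → K) := Submodule.span K s with hV
  have h1s : (1 : Fin q → K) ∈ s := ⟨[], hnil, by funext j; simp⟩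
  have h1V : (1 : Fin q → K) ∈ V := Submodule.subset_span h1s
  have hoV : (1 : Submodule K (Fin q → K)) ≤ V := Submodule.one_le.mpr h1V
  have ho : ∀ n : ℕ, (1 : Submodule K (Fin q → K)) ≤ V ^ n := by
    intro n
    induction n with
    | zero => rw [pow_zero]
    | succ n ih =>
      rw [pow_succ]
      calc (1 : Submodule K (Fin q → K)) = 1 * 1 := (one_mul 1).symm
        _ ≤ V ^ n * V := mul_le_mul' ih hoV
  have hle : ∀ n : ℕ, V ^ n ≤ V ^ (n + 1) := by
    intro n
    rw [pow_succ]
    calc V ^ n = V ^ n * 1 := (mul_one _).symm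
      _ ≤ V ^ n * V := mul_le_mul' le_rfl hoV
  have hVle : ∀ n : ℕ, V ≤ V ^ (n + 1) := by
    intro n
    rw [pow_succ]
    calc V = 1 * V := (one_mul _).symm
      _ ≤ V ^ n * V := mul_le_mul' (ho n) le_rfl
  have hstab : ∀ n : ℕ, V ^ (n + 1) = V ^ (n + 2) → V ^ (n + 1) = ⊤ := by
    intro n hn
    have hm : ∀ m : ℕ, V ^ (n + 1) * V ^ m = V ^ (n + 1) := by
      intro m
      induction m with
      | zero => rw [pow_zero, mul_one]
      | succ m ih =>
        rw [pow_succ V m, ← mul_assoc, ih, ← pow_succ]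
        exact hn.symm
    apply eq_top
    · exact Submodule.one_le.mp (ho (n + 1))
    · intro a ha b hb
      rw [← hm (n + 1)]
      exact Submodule.mul_mem_mul ha hb
    · intro j j' hjj
      have hne : χ j ≠ χ j' := fun h => hjj (hχ h)
      obtain ⟨l, hl'⟩ := Function.ne_iff.mp hne
      refine ⟨fun i => χ i l, hVle n (Submodule.subset_span ⟨[l], hl l, ?_⟩), hl'⟩
      funext i
      simp
  have hfin : ∀ n : ℕ, V ^ (n + 1) = ⊤ ∨ q + n ≤ Module.finrank K (V ^ (n + 1) : Submodule K _) + c := by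
    intro n
    induction n with
    | zero =>
      right
      rw [zero_add, pow_one, add_zero]
      exact hdim
    | succ n ih =>
      rcases ih with ih | ih
      · left
        rw [eq_top_iff, ← ih]
        exact hle (n + 1)
      · by_cases heq : V ^ (n + 1) = V ^ (n + 2)
        · left
          rw [← heq]
          exact hstab n heq
        · right
          have hlt : V ^ (n + 1) < V ^ (n + 2) := lt_of_le_of_ne (hle (n + 1)) heq
          have := Submodule.finrank_lt_finrank_of_lt hlt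
          rw [show n + 1 + 1 = n + 2 from rfl]
          omega
  have htop : V ^ (c + 1) = ⊤ := by
    rcases hfin c with h | h
    · exact h
    · apply Submodule.eq_top_of_finrank_eq
      have h2 : Module.finrank K (Fin q → K) = q := by simp
      have h3 := Submodule.finrank_le (V ^ (c + 1))
      omega
  have hspan : Submodule.span K (s ^ (c + 1)) = ⊤ := by
    rw [← Submodule.span_pow, ← hV]
    exact htop
  obtain ⟨f, hf, -, hli⟩ := Submodule.exists_fun_fin_finrank_span_eq K (s ^ (c + 1))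
  have hfr : Module.finrank K (Submodule.span K (s ^ (c + 1))) = q := by
    rw [hspan, finrank_top]
    simp
  have hli' : LinearIndependent K (f ∘ Fin.cast hfr.symm) :=
    hli.comp _ (Fin.cast_injective _)
  have hw : ∀ i : Fin q, ∃ W : List (List L), W.length = c + 1 ∧ (∀ u ∈ W, u ∈ S) ∧
      f (Fin.cast hfr.symm i) = fun j => (W.flatten.map (χ j)).prod :=
    fun i => mem_pow_words χ S (c + 1) _ (hf _)
  choose W hW1 hW2 hW3 using hw
  refine ⟨fun i => (W i).flatten, fun i => ⟨W i, (hW1 i).le, hW2 i, rfl⟩, ?_⟩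
  have hmat : LinearIndependent K
      (Matrix.row (fun i j : Fin q => (((W i).flatten).map (χ j)).prod : Matrix (Fin q) (Fin q) K)) := by
    convert hli' using 1
    funext i
    exact (hW3 i).symm
  have h5 := Matrix.linearIndependent_rows_iff_isUnit.mp hmat
  exact ((Matrix.isUnit_iff_isUnit_det _).mp h5).ne_zero

end Gou

end
end

section

/-!
D14: minors and Cramer's rule.
-/

noncomputable section

namespace Gou

namespace D14C

variable {K : Type} [Field K] {p : ℕ} {av : AbsoluteValue K ℝ}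

theorem av_neg_one_pow (n : ℕ) : av ((-1 : K) ^ n) = 1 := by
  rcases neg_one_pow_eq_or K n with h | h
  · rw [h, map_one]
  · rw [h, AbsoluteValue.map_neg, map_one]

theorem av_sum (h : NA K p av) {ι : Type} (s : Finset ι) (F : ι → K) (C : ℝ) (hC : 0 ≤ C)
    (hF : ∀ i ∈ s, av (F i) ≤ C) : av (∑ i ∈ s, F i) ≤ C := by
  classical
  induction s using Finset.induction_on with
  | empty => simpa using hC
  | insert a s ha ih =>
    rw [Finset.sum_insert ha]
    refine (h.na _ _).trans (max_le (hF a (Finset.mem_insert_self a s)) ?_)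
    exact ih fun i hi => hF i (Finset.mem_insert_of_mem hi)

/-- The largest absolute value of a `j × j` minor. -/
def M (av : AbsoluteValue K ℝ) {q : ℕ} (A : Matrix (Fin q) (Fin q) K) (j : ℕ) : ℝ :=
  ⨆ x : (Fin j → Fin q) × (Fin j → Fin q), av (A.submatrix x.1 x.2).det

variable {q : ℕ} {A : Matrix (Fin q) (Fin q) K}

theorem le_M {j : ℕ} (f g : Fin j → Fin q) : av (A.submatrix f g).det ≤ M av A j :=
  le_ciSup (f := fun x : (Fin j → Fin q) × (Fin j → Fin q) => av (A.submatrix x.1 x.2).det)
    (Set.finite_range _).bddAbove (f, g)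

theorem M_nonneg (j : ℕ) : 0 ≤ M av A j := Real.iSup_nonneg fun _ => av.nonneg _

theorem M_zero : M av A 0 = 1 := by
  unfold M
  have h : ∀ x : (Fin 0 → Fin q) × (Fin 0 → Fin q), av (A.submatrix x.1 x.2).det = 1 := by
    intro x
    rw [Matrix.det_isEmpty, map_one]
  simp only [h]
  exact ciSup_const

theorem M_attained {j : ℕ} (hj : 0 < M av A j) :
    ∃ f g : Fin j → Fin q, av (A.submatrix f g).det = M av A j := by
  have hne : Nonempty ((Fin j → Fin q) × (Fin j → Fin q)) := by
    by_contra h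
    rw [not_nonempty_iff] at h
    unfold M at hj
    rw [Real.iSup_of_isEmpty] at hj
    exact lt_irrefl _ hj
  obtain ⟨x, hx⟩ := exists_eq_ciSup_of_finite
    (f := fun x : (Fin j → Fin q) × (Fin j → Fin q) => av (A.submatrix x.1 x.2).det)
  exact ⟨x.1, x.2, hx⟩

theorem M_succ (h : NA K p av) (hA : ∀ i j, av (A i j) ≤ 1) (j : ℕ) :
    M av A (j + 1) ≤ M av A j := by
  refine Real.iSup_le (fun x => ?_) (M_nonneg j)
  rw [Matrix.det_succ_row_zero]
  refine av_sum h _ _ _ (M_nonneg j) fun k _ => ?_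
  rw [map_mul, map_mul, av_neg_one_pow, one_mul]
  have h1 : av (A.submatrix x.1 x.2 0 k) ≤ 1 := hA _ _
  have h2 : av ((A.submatrix x.1 x.2).submatrix Fin.succ k.succAbove).det ≤ M av A j := by
    rw [Matrix.submatrix_submatrix]
    exact le_M _ _
  calc av (A.submatrix x.1 x.2 0 k) * av ((A.submatrix x.1 x.2).submatrix Fin.succ
      k.succAbove).det ≤ 1 * M av A j :=
        mul_le_mul h1 h2 (av.nonneg _) zero_le_one
    _ = M av A j := one_mul _

theorem M_le_one (h : NA K p av) (hA : ∀ i j, av (A i j) ≤ 1) (j : ℕ) : M av A j ≤ 1 := by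
  induction j with
  | zero => rw [M_zero]
  | succ j ih => exact (M_succ h hA j).trans ih

theorem choose_j (m : ℕ → ℝ) (r : ℝ) (hr : 0 ≤ r) (n : ℕ) :
    ∃ j ≤ n, (j = 0 ∨ r * m (j - 1) ≤ m j) ∧ m n ≤ r ^ (n - j) * m j := by
  induction n with
  | zero => exact ⟨0, le_rfl, Or.inl rfl, by simp⟩
  | succ n ih =>
    by_cases hc : r * m n ≤ m (n + 1)
    · exact ⟨n + 1, le_rfl, Or.inr hc, by simp⟩
    · obtain ⟨j, hj, h1, h2⟩ := ih
      refine ⟨j, hj.trans (Nat.le_succ n), h1, ?_⟩
      have h3 : n + 1 - j = (n - j) + 1 := by omega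
      rw [h3, pow_succ]
      calc m (n + 1) ≤ r * m n := (not_le.1 hc).le
        _ ≤ r * (r ^ (n - j) * m j) := mul_le_mul_of_nonneg_left h2 hr
        _ = r ^ (n - j) * r * m j := by ring

end D14C

open D14C

theorem d14Cramer : D14Cramer := by
  intro p _ K _ _ av h q h1 E A hh1 hA hE
  classical
  have hp1 : (1 : ℝ) < p := by exact_mod_cast (Fact.out : p.Prime).one_lt
  have hp0 : (0 : ℝ) < p := lt_trans zero_lt_one hp1
  have hr0 : (0 : ℝ) < ((p : ℝ)⁻¹) ^ h1 := by positivity
  set r : ℝ := ((p : ℝ)⁻¹) ^ h1 with hr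
  obtain ⟨j, hj, hj1, hj2⟩ := choose_j (M av A) r hr0.le q
  have hdet : av A.det ≤ M av A q := by
    have := le_M (av := av) (A := A) (id : Fin q → Fin q) id
    rwa [Matrix.submatrix_id_id] at this
  have hpos : (0 : ℝ) < (p : ℝ) ^ (-E) := Real.rpow_pos_of_pos hp0 _
  have hMj : 0 < M av A j := by
    have h3 : 0 < r ^ (q - j) * M av A j := lt_of_lt_of_le hpos (hE.trans (hdet.trans hj2))
    have h4 : 0 < r ^ (q - j) := by positivity
    exact (pos_iff_pos_of_mul_pos h3).1 h4
  have hEj : ((q - j : ℕ) : ℝ) * h1 ≤ E := by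
    have h3 : (p : ℝ) ^ (-E) ≤ r ^ (q - j) := by
      refine hE.trans (hdet.trans (hj2.trans ?_))
      have h4 : 0 ≤ r ^ (q - j) := by positivity
      calc r ^ (q - j) * M av A j ≤ r ^ (q - j) * 1 :=
            mul_le_mul_of_nonneg_left (M_le_one h hA j) h4
        _ = r ^ (q - j) := mul_one _
    have h5 : r ^ (q - j) = (p : ℝ) ^ (-(((q - j : ℕ) : ℝ) * h1)) := by
      rw [hr, Real.rpow_neg hp0.le, ← pow_mul, inv_pow]
      congr 1
      rw [mul_comm, ← Nat.cast_mul, Real.rpow_natCast, Nat.mul_comm]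
    rw [h5, Real.rpow_le_rpow_left_iff hp1] at h3
    linarith
  rcases Nat.eq_zero_or_pos j with rfl | hjpos
  · refine ⟨∅, ?_, ?_⟩
    · rw [Finset.compl_empty, Finset.card_univ, Fintype.card_fin]
      simpa using hEj
    · intro y _
      exact ⟨0, fun i => by simp, fun j hj => absurd hj (Finset.notMem_empty j)⟩
  obtain ⟨j, rfl⟩ : ∃ j', j = j' + 1 := ⟨j - 1, by omega⟩
  have hj3 : r * M av A j ≤ M av A (j + 1) := by
    rcases hj1 with h0 | h0
    · omega
    · simpa using h0
  obtain ⟨f, g, hfg⟩ := M_attained hMj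
  set B : Matrix (Fin (j + 1)) (Fin (j + 1)) K := A.submatrix f g with hB
  have hBdet : B.det ≠ 0 := by
    intro h0
    rw [h0, map_zero] at hfg
    exact hMj.ne hfg
  have hg : Function.Injective g := by
    intro a b hab
    by_contra hne
    refine hBdet (Matrix.det_zero_of_column_eq hne fun i => ?_)
    rw [hB, Matrix.submatrix_apply, Matrix.submatrix_apply, hab]
  refine ⟨Finset.univ.image g, ?_, ?_⟩
  · rw [Finset.card_compl, Finset.card_image_of_injective _ hg, Finset.card_univ,
      Fintype.card_fin, Fintype.card_fin]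
    exact hEj
  · intro y hy
    set c' : Fin (j + 1) → K := fun a =>
      (p : K) ^ h1 * ((∑ b, y (g b) * B.adjugate b a) / B.det) with hc'
    have hc'1 : ∀ a, av (c' a) ≤ 1 := by
      intro a
      have e1 : av (∑ b, y (g b) * B.adjugate b a) ≤ M av A j := by
        refine av_sum h _ _ _ (M_nonneg j) fun b _ => ?_
        rw [map_mul]
        have e2 : av (B.adjugate b a) ≤ M av A j := by
          rw [Matrix.adjugate_fin_succ_eq_det_submatrix, map_mul, av_neg_one_pow, one_mul, hB,
            Matrix.submatrix_submatrix]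
          exact le_M _ _
        calc av (y (g b)) * av (B.adjugate b a) ≤ 1 * M av A j :=
              mul_le_mul (hy _) e2 (av.nonneg _) zero_le_one
          _ = M av A j := one_mul _
      rw [hc']
      simp only
      rw [map_mul, map_pow, h.hp, map_div₀, hfg, ← hr, ← mul_div_assoc, div_le_one hMj]
      exact (mul_le_mul_of_nonneg_left e1 hr0.le).trans hj3
    have hc'2 : ∀ b, ∑ a, c' a * B a b = (p : K) ^ h1 * y (g b) := by
      intro b
      have e1 : B.adjugate * B = B.det • (1 : Matrix (Fin (j + 1)) (Fin (j + 1)) K) :=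
        Matrix.adjugate_mul B
      have e2 : ∀ b', ∑ a, B.adjugate b' a * B a b = if b' = b then B.det else 0 := by
        intro b'
        have e3 := congrFun (congrFun e1 b') b
        rw [Matrix.mul_apply, Matrix.smul_apply, Matrix.one_apply] at e3
        rw [e3]
        split_ifs <;> simp
      calc ∑ a, c' a * B a b
          = (p : K) ^ h1 / B.det * ∑ a, ∑ b', y (g b') * (B.adjugate b' a * B a b) := by
            rw [Finset.mul_sum]
            refine Finset.sum_congr rfl fun a _ => ?_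
            rw [hc']
            simp only
            rw [Finset.mul_sum, Finset.sum_div, Finset.mul_sum, Finset.sum_mul]
            refine Finset.sum_congr rfl fun b' _ => ?_
            field_simp
        _ = (p : K) ^ h1 / B.det * (y (g b) * B.det) := by
            congr 1
            rw [Finset.sum_comm]
            simp only [← Finset.mul_sum, e2]
            simp
        _ = (p : K) ^ h1 * y (g b) := by
            field_simp
    refine ⟨fun i => ∑ a, if f a = i then c' a else 0, ?_, ?_⟩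
    · intro i
      refine av_sum h _ _ _ zero_le_one fun a _ => ?_
      split_ifs
      · exact hc'1 a
      · rw [map_zero]; exact zero_le_one
    · intro l hl
      obtain ⟨b, -, rfl⟩ := Finset.mem_image.1 hl
      rw [← hc'2 b]
      simp only [Finset.sum_mul]
      rw [Finset.sum_comm]
      refine Finset.sum_congr rfl fun a _ => ?_
      simp [hB, ite_mul]

end Gou

end
end

section

/-!
D15. Gram determinant bound.
-/

noncomputable section

namespace Gou

theorem d15Gram (h1 : D1Int) : D15Gram := by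
  classical
  intro p hpf K _ _ av hna q A μ G X hX hμ hA hG hGX
  have hGm : cm K G = A * Matrix.diagonal (fun l => (μ l : K)) * A.transpose := by
    ext i j
    rw [Matrix.mul_apply]
    simp only [Matrix.mul_diagonal, Matrix.transpose_apply, Matrix.map_apply]
    exact hG i j
  have hdet : ((G.det : ℤ) : K) = A.det ^ 2 * ∏ l, (μ l : K) := by
    have h2 : ((G.det : ℤ) : K) = (cm K G).det := Int.cast_det G
    rw [h2, hGm, Matrix.det_mul, Matrix.det_mul, Matrix.det_transpose, Matrix.det_diagonal]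
    ring
  have hprod : (∏ l, (μ l : K)) = ((∏ l, (μ l : ℤ) : ℤ) : K) := by
    push_cast
    rfl
  have hprod0 : (∏ l, (μ l : K)) ≠ 0 := by
    refine Finset.prod_ne_zero_iff.2 fun l _ => ?_
    have := hμ l
    exact_mod_cast (by omega : μ l ≠ 0)
  have hdet0 : G.det ≠ 0 := by
    intro h
    rw [h, Int.cast_zero] at hdet
    exact mul_ne_zero (pow_ne_zero 2 hA) hprod0 hdet.symm
  have h3 := (h1 p K av hna G.det).2.1 hdet0
  have h4 : av ((G.det : ℤ) : K) ≤ av A.det ^ 2 := by
    rw [hdet, map_mul, map_pow, hprod]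
    exact mul_le_of_le_one_right (by positivity) (h1 p K av hna _).1
  have h5 : ((|G.det| : ℤ) : ℝ) ≤ (q.factorial : ℝ) * X ^ q := by
    have h6 := Matrix.det_le (A := G.map (Int.cast : ℤ → ℝ)) (abv := AbsoluteValue.abs) (x := X)
      (fun i j => by
        have := hGX i j
        simpa using this)
    have h7 : (G.map (Int.cast : ℤ → ℝ)).det = ((G.det : ℤ) : ℝ) := (Int.cast_det G).symm
    rw [h7] at h6
    simpa using h6
  have h8 : (0 : ℝ) < ((|G.det| : ℤ) : ℝ) := by exact_mod_cast abs_pos.2 hdet0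
  exact (inv_anti₀ h8 h5).trans (h3.trans h4)

end Gou

end
end

section

/-!
D1. Absolute values of integers.
-/

open scoped Polynomial

noncomputable section

namespace Gou

theorem av_natCast_le_one {p : ℕ} {K : Type} [Field K] {av : AbsoluteValue K ℝ}
    (h : NA K p av) (n : ℕ) : av (n : K) ≤ 1 := by
  induction n with
  | zero => simp
  | succ n ih =>
      have h1 := h.na (n : K) 1
      push_cast
      refine h1.trans ?_
      rw [max_le_iff]
      exact ⟨ih, by simp⟩

theorem av_intCast_le_one {p : ℕ} {K : Type} [Field K] {av : AbsoluteValue K ℝ}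
    (h : NA K p av) (z : ℤ) : av (z : K) ≤ 1 := by
  obtain ⟨n, rfl | rfl⟩ := z.eq_nat_or_neg
  · simpa using av_natCast_le_one h n
  · simpa using av_natCast_le_one h n

theorem av_intCast_eq_one {p : ℕ} [Fact p.Prime] {K : Type} [Field K] {av : AbsoluteValue K ℝ}
    (h : NA K p av) (z : ℤ) (hz : ¬ (p : ℤ) ∣ z) : av (z : K) = 1 := by
  refine le_antisymm (av_intCast_le_one h z) ?_
  have hp : p.Prime := Fact.out
  have hco : IsCoprime (p : ℤ) z := by
    rw [Prime.coprime_iff_not_dvd (Nat.prime_iff_prime_int.mp hp)]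
    exact hz
  obtain ⟨a, b, hab⟩ := hco
  have h1 : (1 : K) = (a : K) * (p : K) + (b : K) * (z : K) := by
    have := congrArg (fun t : ℤ => (t : K)) hab
    push_cast at this
    exact this.symm
  have h2 : av (1 : K) ≤ max (av ((a : K) * (p : K))) (av ((b : K) * (z : K))) := by
    conv_lhs => rw [h1]
    exact h.na _ _
  rw [av.map_one, av.map_mul, av.map_mul, h.hp] at h2
  have hpr : (1 : ℝ) < p := by exact_mod_cast hp.one_lt
  have hpi : ((p : ℝ))⁻¹ < 1 := inv_lt_one_of_one_lt₀ hpr
  have ha := av_intCast_le_one h a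
  have hb := av_intCast_le_one h b
  have h3 : av (a : K) * ((p : ℝ))⁻¹ < 1 := by
    have h0 : 0 ≤ ((p : ℝ))⁻¹ := by positivity
    nlinarith [av.nonneg (a : K)]
  rcases le_max_iff.mp h2 with h4 | h4
  · linarith
  · have : av (b : K) * av (z : K) ≤ 1 * av (z : K) :=
      mul_le_mul_of_nonneg_right hb (av.nonneg _)
    linarith

theorem av_intCast_pow {p : ℕ} [Fact p.Prime] {K : Type} [Field K] {av : AbsoluteValue K ℝ}
    (h : NA K p av) (z : ℤ) (hz : z ≠ 0) :
    av (z : K) = (((p : ℝ)) ^ (padicValInt p z))⁻¹ := by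
  have hp : p.Prime := Fact.out
  obtain ⟨m, hm⟩ := (padicValInt_dvd_iff (p := p) (padicValInt p z) z).mpr (Or.inr le_rfl)
  have hpm : ¬ (p : ℤ) ∣ m := by
    rintro ⟨q, hq⟩
    have h1 : (p : ℤ) ^ (padicValInt p z + 1) ∣ z := by
      refine ⟨q, ?_⟩
      conv_lhs => rw [hm, hq]
      ring
    rcases (padicValInt_dvd_iff (p := p) (padicValInt p z + 1) z).mp h1 with h2 | h2
    · exact hz h2
    · omega
  have h3 : (z : K) = (p : K) ^ (padicValInt p z) * (m : K) := by
    conv_lhs => rw [hm]
    push_cast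
    rfl
  rw [h3, av.map_mul, av_intCast_eq_one h m hpm, mul_one, av.map_pow, h.hp, inv_pow]

theorem d1Int : D1Int := by
  intro p _ K _ _ av h z
  have hp : p.Prime := Fact.out
  have hpr : (0 : ℝ) < p := by exact_mod_cast hp.pos
  refine ⟨av_intCast_le_one h z, ?_, ?_, av_intCast_eq_one h z⟩
  · intro hz
    rw [av_intCast_pow h z hz]
    have h1 : (p : ℤ) ^ (padicValInt p z) ∣ |z| := by
      rw [dvd_abs]
      exact (padicValInt_dvd_iff (p := p) (padicValInt p z) z).mpr (Or.inr le_rfl)
    have h2 : (p : ℤ) ^ (padicValInt p z) ≤ |z| := Int.le_of_dvd (abs_pos.mpr hz) h1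
    have h3 : (p : ℝ) ^ (padicValInt p z) ≤ ((|z| : ℤ) : ℝ) := by exact_mod_cast h2
    exact inv_anti₀ (by positivity) h3
  · intro hz
    rw [av_intCast_pow h z hz, Real.rpow_neg hpr.le, Real.rpow_natCast]

end Gou

end
end

section

/-!
D2. Determinant bound.
-/

open scoped Polynomial

noncomputable section

namespace Gou

theorem av_sum_le {p : ℕ} {K : Type} [Field K] {av : AbsoluteValue K ℝ}
    (h : NA K p av) {ι : Type*} (s : Finset ι) (f : ι → K) (C : ℝ) (hC : 0 ≤ C)
    (hf : ∀ i ∈ s, av (f i) ≤ C) : av (∑ i ∈ s, f i) ≤ C := by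
  classical
  induction s using Finset.induction_on with
  | empty => simpa using hC
  | insert a s ha ih =>
      rw [Finset.sum_insert ha]
      refine (h.na _ _).trans ?_
      rw [max_le_iff]
      exact ⟨hf a (Finset.mem_insert_self a s), ih fun i hi => hf i (Finset.mem_insert_of_mem hi)⟩

theorem d2Det : D2Det := by
  intro p _ K _ av h m A B hB
  rw [Matrix.det_apply]
  have hB0 : ∀ j, 0 ≤ B j := by
    intro j
    exact (av.nonneg _).trans (hB j j)
  refine av_sum_le h _ _ _ (Finset.prod_nonneg fun j _ => hB0 j) ?_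
  intro σ _
  have h1 : av (Equiv.Perm.sign σ • ∏ i, A (σ i) i) = av (∏ i, A (σ i) i) := by
    rcases Int.units_eq_one_or (Equiv.Perm.sign σ) with h2 | h2
    · rw [h2, one_smul]
    · rw [h2, Units.neg_smul, one_smul, av.map_neg]
  rw [h1, map_prod]
  exact Finset.prod_le_prod (fun i _ => av.nonneg _) fun i _ => hB (σ i) i

end Gou

end
end

section

/-! D3: integral echelon basis of a subspace (MP_602313_nt). -/

noncomputable section

namespace Gou

theorem d3_exists {K : Type*} [Field K] {R d : ℕ} (b : Fin d → Fin R → K)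
    (hb : LinearIndependent K b) :
    ∃ I : Fin d → Fin R, Matrix.det (Matrix.of fun i j => b i (I j)) ≠ 0 := by
  have hrank : (Matrix.of b).rank = d := by
    have h : LinearIndependent K (Matrix.of b).row := hb
    simpa using h.rank_matrix
  rw [Matrix.rank_eq_finrank_span_cols] at hrank
  obtain ⟨κ, a, ha, hsp, hli⟩ := exists_linearIndependent' K (Matrix.of b).col
  have hfin : Finite κ := Finite.of_injective a ha
  have := Fintype.ofFinite κ
  have hcard : Fintype.card κ = d := by
    rw [← hrank, ← hsp, finrank_span_eq_card hli]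
  let e : Fin d ≃ κ := (finCongr hcard.symm).trans (Fintype.equivFin κ).symm
  refine ⟨a ∘ e, ?_⟩
  have h1 : LinearIndependent K (Matrix.of fun i j => b i ((a ∘ e) j)).col := by
    have h2 := hli.comp e e.injective
    exact h2
  rw [Matrix.linearIndependent_cols_iff_isUnit, Matrix.isUnit_iff_isUnit_det] at h1
  exact h1.ne_zero

theorem d3Basis : D3Basis := by
  intro p _ K _ av hna R d W hW
  obtain ⟨b⟩ : Nonempty (Module.Basis (Fin d) K W) := ⟨Module.finBasisOfFinrankEq K W hW⟩
  set v : Fin d → Fin R → K := fun i => (b i : Fin R → K) with hv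
  have hvli : LinearIndependent K v := by
    have h := b.linearIndependent.map' W.subtype (Submodule.ker_subtype W)
    exact h
  obtain ⟨I0, hI0⟩ := d3_exists v hvli
  -- choose `I` with maximal determinant
  let F : (Fin d → Fin R) → ℝ := fun I => av (Matrix.det (Matrix.of fun i j => v i (I j)))
  have hne : Nonempty (Fin d → Fin R) := ⟨I0⟩
  obtain ⟨I, hI⟩ := Finite.exists_max F
  set B : Matrix (Fin d) (Fin d) K := Matrix.of fun i j => v i (I j) with hB
  have hBdet : B.det ≠ 0 := by
    intro h0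
    have h1 : F I0 ≤ F I := hI I0
    have h2 : F I = 0 := by
      show av B.det = 0
      rw [h0, map_zero]
    have h3 : 0 < F I0 := av.pos hI0
    linarith
  have hBunit : IsUnit B.det := isUnit_iff_ne_zero.mpr hBdet
  let e : Fin d → Fin R → K := fun j => ∑ i, B⁻¹ j i • v i
  have heW : ∀ j, e j ∈ W := fun j => Submodule.sum_mem _ fun i _ => W.smul_mem _ (b i).2
  have heI : ∀ j i, e j (I i) = if i = j then 1 else 0 := by
    intro j i
    have h1 : e j (I i) = (B⁻¹ * B) j i := by
      simp only [e, Finset.sum_apply, Pi.smul_apply, smul_eq_mul, Matrix.mul_apply]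
      rfl
    rw [h1, Matrix.nonsing_inv_mul B hBunit, Matrix.one_apply]
    simp only [eq_comm]
  have hspan : ∀ i, v i = ∑ j, v i (I j) • e j := by
    intro i
    have h1 : ∀ k, ∑ j, v i (I j) * ∑ l, B⁻¹ j l * v l k = v i k := by
      intro k
      calc ∑ j, v i (I j) * ∑ l, B⁻¹ j l * v l k
          = ∑ l, (B * B⁻¹) i l * v l k := by
            simp only [Matrix.mul_apply, Finset.mul_sum, Finset.sum_mul]
            rw [Finset.sum_comm]
            refine Finset.sum_congr rfl fun l _ => Finset.sum_congr rfl fun j _ => ?_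
            rw [hB, Matrix.of_apply]
            ring
        _ = v i k := by
            rw [Matrix.mul_nonsing_inv B hBunit]
            simp [Matrix.one_apply]
    funext k
    rw [Finset.sum_apply, ← h1 k]
    refine Finset.sum_congr rfl fun j _ => ?_
    simp only [e, Pi.smul_apply, smul_eq_mul, Finset.sum_apply]
  refine ⟨I, e, ?_, heW, ?_, heI, ?_⟩
  · intro i i' hii
    have h1 := heI i i
    have h2 := heI i i'
    rw [← hii, h1, if_pos rfl] at h2
    by_contra hne'
    rw [if_neg (fun h => hne' h.symm)] at h2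
    exact one_ne_zero h2
  · intro j k
    -- replace `I j` by `k`
    have h1 : F (Function.update I j k) ≤ F I := hI _
    have h2 : Matrix.det (Matrix.of fun i l => v i (Function.update I j k l)) =
        e j k * B.det := by
      have h3 : (Matrix.of fun i l => v i (Function.update I j k l)) =
          B.updateCol j (B.mulVec fun l => e l k) := by
        ext i l
        rw [Matrix.of_apply, Matrix.updateCol_apply]
        by_cases hl : l = j
        · subst hl
          rw [Function.update_self, if_pos rfl]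
          have h4 := congrFun (hspan i) k
          rw [h4, Finset.sum_apply]
          simp only [Matrix.mulVec, dotProduct, Pi.smul_apply, smul_eq_mul]
          rfl
        · rw [Function.update_of_ne hl, if_neg hl]
          rfl
      rw [h3, ← Matrix.cramer_apply, Matrix.cramer_eq_adjugate_mulVec, Matrix.mulVec_mulVec,
        Matrix.adjugate_mul, Matrix.smul_mulVec, Matrix.one_mulVec]
      simp [mul_comm]
    have h5 : F (Function.update I j k) = av (e j k) * F I := by
      show av _ = av (e j k) * av B.det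
      rw [h2, map_mul]
    rw [h5] at h1
    have h6 : 0 < F I := av.pos hBdet
    by_contra hcon
    push Not at hcon
    nlinarith
  · intro w hw
    obtain ⟨c, hc⟩ : ∃ c : Fin d → K, w = ∑ i, c i • v i := by
      refine ⟨fun i => b.repr ⟨w, hw⟩ i, ?_⟩
      have h1 := congrArg (Subtype.val) (b.sum_repr ⟨w, hw⟩)
      simp only [Submodule.coe_sum, Submodule.coe_smul] at h1
      exact h1.symm
    have h2 : ∀ j, w (I j) = ∑ i, c i * v i (I j) := by
      intro j
      rw [hc]
      simp
    calc w = ∑ i, c i • v i := hc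
      _ = ∑ i, c i • ∑ j, v i (I j) • e j := by
        refine Finset.sum_congr rfl fun i _ => ?_
        rw [← hspan i]
      _ = ∑ j, w (I j) • e j := by
        simp only [h2, Finset.smul_sum, Finset.sum_smul, smul_smul]
        rw [Finset.sum_comm]

end Gou

end
end

section

/-!
Module D, item D4: the volume bound.
-/

noncomputable section

namespace Gou

theorem d4_det_inst {n R : Type*} [CommRing R] (d1 d2 : DecidableEq n) (f1 f2 : Fintype n)
    (M : Matrix n n R) : @Matrix.det n d1 f1 R _ M = @Matrix.det n d2 f2 R _ M := by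
  have h1 : d1 = d2 := Subsingleton.elim _ _
  have h2 : f1 = f2 := Subsingleton.elim _ _
  subst h1
  subst h2
  rfl

theorem d4Vol (h2 : D2Det) : D4Vol := by
  classical
  intro p hp K _ av hav d r A b δ I hI hdet hb hA hAb
  have hp0 : (0 : ℝ) < p := by exact_mod_cast hp.out.pos
  -- the matrix `B`
  let c : Fin d → Fin d → K := Function.extend I b (fun k => Pi.single k 1)
  let B : Matrix (Fin d) (Fin d) K := Matrix.of fun j k => c k j
  have hc1 : ∀ i, c (I i) = b i := fun i => hI.extend_apply _ _ _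
  have hc2 : ∀ k, k ∉ Set.range I → c k = Pi.single k 1 := by
    intro k hk
    exact Function.extend_apply' _ _ _ (by simpa using hk)
  have hBdet : B.det = Matrix.det (fun i j => b i (I j)) := by
    rw [Matrix.twoBlockTriangular_det' B (fun k => k ∈ Set.range I)]
    · have e2 : (Matrix.toSquareBlockProp B fun k => ¬ k ∈ Set.range I) = 1 := by
        ext j k
        change c k.1 j.1 = _
        rw [hc2 k.1 k.2, Matrix.one_apply, Pi.single_apply]
        by_cases hjk : j = k
        · rw [if_pos hjk, if_pos (congrArg Subtype.val hjk)]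
        · rw [if_neg hjk, if_neg (fun h => hjk (Subtype.ext h))]
      rw [e2, Matrix.det_one, mul_one]
      have e1 : (Matrix.toSquareBlockProp B fun k => k ∈ Set.range I).submatrix
          (Equiv.ofInjective I hI) (Equiv.ofInjective I hI) =
          (Matrix.of (fun i j => b i (I j))).transpose := by
        ext i j
        change c (I j) (I i) = b j (I i)
        rw [hc1]
      have e3 := Matrix.det_submatrix_equiv_self (Equiv.ofInjective I hI)
        (Matrix.toSquareBlockProp B fun k => k ∈ Set.range I)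
      rw [e1, Matrix.det_transpose] at e3
      refine Eq.trans ?_ e3.symm
      exact d4_det_inst _ _ _ _ _
    · intro i hi j hj
      change c j i = 0
      rw [hc2 j hj, Pi.single_apply, if_neg]
      rintro rfl
      exact hj hi
  have hBav : av B.det = 1 := by rw [hBdet]; exact hdet
  have hcol : ∀ j k, (A * B) j k = A.mulVec (c k) j := by
    intro j k
    rw [Matrix.mul_apply]
    rfl
  let D : Fin d → ℝ := Function.extend I (fun i => (p : ℝ) ^ (-(δ i))) (fun _ => 1)
  have hD1 : ∀ i, D (I i) = (p : ℝ) ^ (-(δ i)) := fun i => hI.extend_apply _ _ _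
  have hD2 : ∀ k, k ∉ Set.range I → D k = 1 := by
    intro k hk
    exact Function.extend_apply' _ _ _ (by simpa using hk)
  have hbound : ∀ j k, av ((A * B) j k) ≤ D k := by
    intro j k
    rw [hcol]
    by_cases hk : k ∈ Set.range I
    · obtain ⟨i, rfl⟩ := hk
      rw [hc1, hD1]
      exact hAb i j
    · rw [hc2 k hk, hD2 k hk]
      have : A.mulVec (Pi.single k 1) j = A j k := by simp
      rw [this]
      exact hA j k
  have hfin := h2 p K av hav d (A * B) D hbound
  rw [Matrix.det_mul, map_mul, hBav, mul_one] at hfin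
  refine hfin.trans (le_of_eq ?_)
  rw [← Finset.sum_neg_distrib, Real.rpow_sum_of_pos hp0]
  exact (Fintype.prod_of_injective I hI _ _ hD2 (fun i => (hD1 i).symm)).symm

end Gou

end
end

section

/-!
D5: minors of a product.
-/

noncomputable section

namespace Gou

namespace D5

lemma av_sum_lt_one {K : Type*} [Field K] {p : ℕ} {av : AbsoluteValue K ℝ} (h : NA K p av)
    {ι : Type*} (s : Finset ι) (f : ι → K) (hf : ∀ i ∈ s, av (f i) < 1) :
    av (∑ i ∈ s, f i) < 1 := by
  classical
  induction s using Finset.induction_on with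
  | empty => simp
  | insert a s ha ih =>
    rw [Finset.sum_insert ha]
    refine lt_of_le_of_lt (h.na _ _) (max_lt (hf a (Finset.mem_insert_self a s)) ?_)
    exact ih fun i hi => hf i (Finset.mem_insert_of_mem hi)

lemma det_expand {K : Type*} [Field K] {r d : ℕ} (β : Fin r → Fin d → K)
    (e : Fin d → Fin r → K) :
    Matrix.det (fun i k : Fin r => ∑ j, β i j * e j k) =
      ∑ J : Fin r → Fin d, (∏ k, e (J k) k) * Matrix.det (fun i k : Fin r => β i (J k)) := by
  have h1 : Matrix.transpose (fun i k : Fin r => ∑ j, β i j * e j k) =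
      fun k => ∑ j, e j k • (fun i => β i j) := by
    funext k i
    simp only [Matrix.transpose, Matrix.of_apply, Finset.sum_apply, Pi.smul_apply, smul_eq_mul]
    exact Finset.sum_congr rfl fun j _ => mul_comm _ _
  refine (Matrix.det_transpose (fun i k : Fin r => ∑ j, β i j * e j k)).symm.trans ?_
  rw [h1]
  have h2 := (Matrix.detRowAlternating (R := K) (n := Fin r)).toMultilinearMap.map_sum
    (fun (k : Fin r) (j : Fin d) => e j k • (fun i : Fin r => β i j))
  refine h2.trans ?_
  refine Finset.sum_congr rfl fun J _ => ?_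
  have h3 := (Matrix.detRowAlternating (R := K) (n := Fin r)).toMultilinearMap.map_smul_univ
    (fun k : Fin r => e (J k) k) (fun k => fun i : Fin r => β i (J k))
  refine h3.trans ?_
  rw [smul_eq_mul]
  congr 1
  exact Matrix.det_transpose (fun i k : Fin r => β i (J k))

end D5

open D5 in
theorem d5Minor (h2 : D2Det) : D5Minor := by
  intro p _ K _ av hna R d r e β b I hb he hβ hdet
  have h1 : (fun i j => b i (I j)) = fun i k : Fin r => ∑ j, β i j * (fun j k => e j (I k)) j k := by
    funext i k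
    exact hb i (I k)
  rw [h1, det_expand] at hdet
  have hex : ∃ J : Fin r → Fin d, 1 ≤ av ((∏ k, e (J k) (I k)) *
      Matrix.det (fun i k : Fin r => β i (J k))) := by
    by_contra hcon
    push Not at hcon
    have := av_sum_lt_one hna Finset.univ _ (fun J _ => hcon J)
    rw [hdet] at this
    exact lt_irrefl _ this
  obtain ⟨J, hJ⟩ := hex
  have hle : av (Matrix.det (fun i k : Fin r => β i (J k))) ≤ 1 := by
    have := h2 p K av hna r (fun i k : Fin r => β i (J k)) (fun _ => 1) (fun i j => hβ i (J j))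
    simpa using this
  have hprod : av (∏ k, e (J k) (I k)) ≤ 1 := by
    rw [map_prod]
    exact Finset.prod_le_one (fun k _ => av.nonneg _) (fun k _ => he _ _)
  have hge : 1 ≤ av (Matrix.det (fun i k : Fin r => β i (J k))) := by
    rw [map_mul] at hJ
    have := mul_le_mul_of_nonneg_right hprod (av.nonneg (Matrix.det (fun i k : Fin r => β i (J k))))
    rw [one_mul] at this
    exact hJ.trans this
  refine ⟨J, ?_, le_antisymm hle hge⟩
  intro k k' hkk
  by_contra hne
  have hz : Matrix.det (fun i k : Fin r => β i (J k)) = 0 :=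
    Matrix.det_zero_of_column_eq hne (fun i => by simp only [hkk])
  rw [hz, map_zero] at hge
  exact absurd hge (by norm_num)

end Gou

end
end

section

/-!
D6: integer vectors independent modulo `p` have a minor prime to `p`; perturbation.
-/

noncomputable section

namespace Gou

namespace D6

lemma av_sum_lt_one {K : Type*} [Field K] {p : ℕ} {av : AbsoluteValue K ℝ} (h : NA K p av)
    {ι : Type*} (s : Finset ι) (f : ι → K) (hf : ∀ i ∈ s, av (f i) < 1) :
    av (∑ i ∈ s, f i) < 1 := by
  classical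
  induction s using Finset.induction_on with
  | empty => simp
  | insert a s ha ih =>
    rw [Finset.sum_insert ha]
    refine lt_of_le_of_lt (h.na _ _) (max_lt (hf a (Finset.mem_insert_self a s)) ?_)
    exact ih fun i hi => hf i (Finset.mem_insert_of_mem hi)

lemma av_prod_sub {K : Type*} [Field K] {p : ℕ} {av : AbsoluteValue K ℝ} (h : NA K p av)
    {ι : Type*} (s : Finset ι) (f g : ι → K) (hf : ∀ i ∈ s, av (f i) ≤ 1)
    (hg : ∀ i ∈ s, av (g i) ≤ 1) (hfg : ∀ i ∈ s, av (f i - g i) < 1) :
    av (∏ i ∈ s, f i - ∏ i ∈ s, g i) < 1 := by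
  classical
  induction s using Finset.induction_on with
  | empty => simp
  | insert a s ha ih =>
    rw [Finset.prod_insert ha, Finset.prod_insert ha]
    have e1 : f a * ∏ i ∈ s, f i - g a * ∏ i ∈ s, g i =
        (f a - g a) * ∏ i ∈ s, f i + g a * (∏ i ∈ s, f i - ∏ i ∈ s, g i) := by ring
    rw [e1]
    refine lt_of_le_of_lt (h.na _ _) (max_lt ?_ ?_)
    · rw [map_mul]
      have h1 : av (∏ i ∈ s, f i) ≤ 1 := by
        rw [map_prod]
        exact Finset.prod_le_one (fun k _ => av.nonneg _)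
          (fun k hk => hf k (Finset.mem_insert_of_mem hk))
      calc av (f a - g a) * av (∏ i ∈ s, f i) ≤ av (f a - g a) * 1 :=
            mul_le_mul_of_nonneg_left h1 (av.nonneg _)
        _ < 1 := by rw [mul_one]; exact hfg a (Finset.mem_insert_self a s)
    · rw [map_mul]
      have h2 := ih (fun i hi => hf i (Finset.mem_insert_of_mem hi))
        (fun i hi => hg i (Finset.mem_insert_of_mem hi))
        (fun i hi => hfg i (Finset.mem_insert_of_mem hi))
      calc av (g a) * av (∏ i ∈ s, f i - ∏ i ∈ s, g i) ≤ 1 * av (∏ i ∈ s, f i - ∏ i ∈ s, g i) :=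
            mul_le_mul_of_nonneg_right (hg a (Finset.mem_insert_self a s)) (av.nonneg _)
        _ < 1 := by rw [one_mul]; exact h2

lemma av_det_sub {K : Type*} [Field K] {p : ℕ} {av : AbsoluteValue K ℝ} (h : NA K p av)
    {r : ℕ} (A B : Matrix (Fin r) (Fin r) K) (hA : ∀ i j, av (A i j) ≤ 1)
    (hB : ∀ i j, av (B i j) ≤ 1) (hAB : ∀ i j, av (A i j - B i j) < 1) :
    av (A.det - B.det) < 1 := by
  classical
  rw [Matrix.det_apply, Matrix.det_apply, ← Finset.sum_sub_distrib]
  refine av_sum_lt_one h _ _ fun σ _ => ?_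
  rw [← smul_sub]
  have h1 := av_prod_sub h Finset.univ (fun i => A (σ i) i) (fun i => B (σ i) i)
    (fun i _ => hA _ _) (fun i _ => hB _ _) (fun i _ => hAB _ _)
  rcases Int.units_eq_one_or (Equiv.Perm.sign σ) with h2 | h2
  · rw [h2, one_smul]; exact h1
  · rw [h2, Units.neg_smul, one_smul, av.map_neg]; exact h1

/-- Rows linearly independent over a field: some square minor is nonzero. -/
lemma exists_minor {F : Type*} [Field F] {r R : ℕ} (x : Fin r → Fin R → F)
    (hx : LinearIndependent F x) :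
    ∃ I : Fin r → Fin R, Function.Injective I ∧ Matrix.det (fun i j => x i (I j)) ≠ 0 := by
  classical
  set X : Matrix (Fin r) (Fin R) F := Matrix.of x with hX
  have hrank : X.rank = r := by
    have := LinearIndependent.rank_matrix (M := X) hx
    simpa using this
  set c : Fin R → Fin r → F := fun k i => x i k with hc
  have hspan : Submodule.span F (Set.range c) = ⊤ := by
    apply Submodule.eq_top_of_finrank_eq
    rw [Module.finrank_fin_fun]
    rw [Matrix.rank_eq_finrank_span_cols] at hrank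
    exact hrank
  set b := Module.Basis.ofSpan hspan.ge with hb
  have hsub := Module.Basis.ofSpan_subset hspan.ge
  have : Fintype ((linearIndepOn_empty F id).extend (Set.empty_subset (Set.range c))) := by
    exact FiniteDimensional.fintypeBasisIndex b
  have hcard : Fintype.card ((linearIndepOn_empty F id).extend (Set.empty_subset (Set.range c))) = r := by
    have := Module.finrank_eq_card_basis b
    rw [Module.finrank_fin_fun] at this
    exact this.symm
  let e := (Fintype.equivFinOfCardEq hcard).symm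
  have hmem : ∀ j : Fin r, ∃ k : Fin R, c k = b (e j) := by
    intro j
    have : b (e j) ∈ Set.range c := hsub ⟨e j, rfl⟩
    exact this
  choose I hI using hmem
  have hli : LinearIndependent F (fun j => b (e j)) := b.linearIndependent.comp e e.injective
  have hli2 : LinearIndependent F (fun j => c (I j)) := by
    have : (fun j => c (I j)) = (fun j => b (e j)) := by
      funext j; exact hI j
    rw [this]; exact hli
  refine ⟨I, ?_, ?_⟩
  · intro j j' hjj
    apply hli2.injective
    simp only [hjj]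
  · have h1 : LinearIndependent F (Matrix.of (fun i j => x i (I j))).col := hli2
    have h2 := Matrix.linearIndependent_cols_iff_isUnit.1 h1
    exact ((Matrix.isUnit_iff_isUnit_det _).1 h2).ne_zero

end D6

open D6 in
theorem d6Unit (h1 : D1Int) (h2 : D2Det) : D6Unit := by
  classical
  intro p _ K _ _ av hna R r x hx
  have hli : LinearIndependent (ZMod p) (fun i k => ((x i k : ℤ) : ZMod p) : Fin r → Fin R → ZMod p) := by
    rw [Fintype.linearIndependent_iff]
    intro g hg i
    have h3 := hx (fun i => ((g i).val : ℤ)) ?_ i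
    · have h4 : (((g i).val : ℤ) : ZMod p) = 0 := (ZMod.intCast_zmod_eq_zero_iff_dvd _ _).2 h3
      rw [Int.cast_natCast, ZMod.natCast_zmod_val] at h4
      exact h4
    · intro k
      rw [← ZMod.intCast_zmod_eq_zero_iff_dvd]
      have h5 := congrFun hg k
      simp only [Finset.sum_apply, Pi.smul_apply, smul_eq_mul, Pi.zero_apply] at h5
      push_cast
      simp only [ZMod.natCast_zmod_val]
      exact h5
  obtain ⟨I, hI, hdet⟩ := exists_minor _ hli
  refine ⟨I, hI, ?_⟩
  have hdetZ : ¬ (p : ℤ) ∣ Matrix.det (fun i j => x i (I j)) := by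
    rw [← ZMod.intCast_zmod_eq_zero_iff_dvd]
    have : ((Matrix.det (fun i j => x i (I j)) : ℤ) : ZMod p) =
        Matrix.det (fun i j => ((x i (I j) : ℤ) : ZMod p)) :=
      Int.cast_det (R := ZMod p) (fun i j => x i (I j))
    rw [this]
    exact hdet
  have hxle : ∀ i k, av (x i k : K) ≤ 1 := fun i k => (h1 p K av hna (x i k)).1
  intro b hb
  have hble : ∀ i k, av (b i k) ≤ 1 := by
    intro i k
    have : b i k = (b i k - (x i k : K)) + (x i k : K) := by ring
    rw [this]
    exact (hna.na _ _).trans (max_le (hb i k).le (hxle i k))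
  refine ⟨hble, ?_⟩
  have hdx : av (Matrix.det (fun i j => ((x i (I j) : ℤ) : K))) = 1 := by
    have : ((Matrix.det (fun i j => x i (I j)) : ℤ) : K) =
        Matrix.det (fun i j => ((x i (I j) : ℤ) : K)) :=
      Int.cast_det (R := K) (fun i j => x i (I j))
    rw [← this]
    exact (h1 p K av hna _).2.2.2 hdetZ
  have hsub := av_det_sub hna (fun i j => b i (I j)) (fun i j => ((x i (I j) : ℤ) : K))
    (fun i j => hble _ _) (fun i j => hxle _ _) (fun i j => hb _ _)
  have hle : av (Matrix.det (fun i j => b i (I j))) ≤ 1 := by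
    have := h2 p K av hna r (fun i k : Fin r => b i (I k)) (fun _ => 1) (fun i j => hble i (I j))
    simpa using this
  refine le_antisymm hle ?_
  by_contra hlt
  push Not at hlt
  have h6 : Matrix.det (fun i j => ((x i (I j) : ℤ) : K)) =
      -(Matrix.det (fun i j => b i (I j)) - Matrix.det (fun i j => ((x i (I j) : ℤ) : K))) +
        Matrix.det (fun i j => b i (I j)) := by ring
  have h7 : av (Matrix.det (fun i j => ((x i (I j) : ℤ) : K))) < 1 := by
    rw [h6]
    refine lt_of_le_of_lt (hna.na _ _) (max_lt ?_ hlt)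
    rw [av.map_neg]; exact hsub
  rw [hdx] at h7
  exact lt_irrefl _ h7

end Gou

end
end
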