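import Pool.Agent.Work.MP_602313_nt.Bd.B01

/-! Bundle of small proof modules (one section per former module). -/

section

/-!
Module A, item J5: `DualInj`.
-/

open scoped Polynomial
open Finset

noncomputable section

namespace Gou

theorem pj5_pairG_sum {p : ℕ} [Fact p.Prime] (n : ℕ) (g : ℤ_[p][X]) {ι : Type*} (S : Finset ι)
    (F : ι → ℤ_[p][X]) : pairG n g (∑ i ∈ S, F i) = ∑ i ∈ S, pairG n g (F i) := by
  unfold pairG
  rw [Finset.sum_comm]
  refine Finset.sum_congr rfl fun m _ => ?_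
  rw [Polynomial.finsetSum_coeff, PadicInt.coe_sum, Finset.mul_sum, Finset.sum_mul,
    Finset.sum_div]

theorem pj5_pairG_C {p : ℕ} [Fact p.Prime] (n : ℕ) (g : ℤ_[p][X]) (c : ℤ_[p])
    (F : ℤ_[p][X]) : pairG n g (Polynomial.C c * F) = (c : ℚ_[p]) * pairG n g F := by
  unfold pairG
  rw [Finset.mul_sum]
  refine Finset.sum_congr rfl fun m _ => ?_
  rw [Polynomial.coeff_C_mul, PadicInt.coe_mul]
  ring

theorem pj5_choose {p : ℕ} [Fact p.Prime] (n m : ℕ) (hm : m ≤ n) :
    ‖((n.choose m : ℕ) : ℚ_[p])⁻¹‖ ≤ (p : ℝ) ^ (e0 p n) := by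
  have hne : ((n.choose m : ℕ) : ℚ_[p]) ≠ 0 := by
    exact_mod_cast (Nat.choose_pos hm).ne'
  rw [norm_inv, Padic.norm_eq_zpow_neg_valuation hne, Padic.valuation_natCast, ← zpow_neg,
    neg_neg, zpow_natCast]
  refine pow_le_pow_right₀ ?_ ?_
  · exact_mod_cast (Fact.out : p.Prime).one_lt.le
  · have := Nat.factorization_choose_le_log (n := n) (k := m) (p := p)
    rw [Nat.factorization_def _ (Fact.out : p.Prime)] at this
    exact this

theorem pj5_pairG_norm {p : ℕ} [Fact p.Prime] (n : ℕ) (g F : ℤ_[p][X]) :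
    ‖pairG n g F‖ ≤ (p : ℝ) ^ (e0 p n) := by
  unfold pairG
  refine IsUltrametricDist.norm_sum_le_of_forall_le_of_nonneg (by positivity) fun m hm => ?_
  have h1 : ‖((F.coeff m : ℤ_[p]) : ℚ_[p])‖ ≤ 1 := PadicInt.norm_le_one _
  have h2 : ‖((g.coeff (n - m) : ℤ_[p]) : ℚ_[p])‖ ≤ 1 := PadicInt.norm_le_one _
  have h3 := pj5_choose (p := p) n m (Nat.lt_succ_iff.mp (Finset.mem_range.mp hm))
  have h4 : ‖(-1 : ℚ_[p]) ^ m‖ = 1 := by simp
  rw [div_eq_mul_inv, norm_mul, norm_mul, norm_mul, h4, one_mul]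
  calc ‖((F.coeff m : ℤ_[p]) : ℚ_[p])‖ * ‖((g.coeff (n - m) : ℤ_[p]) : ℚ_[p])‖ *
        ‖((n.choose m : ℕ) : ℚ_[p])⁻¹‖ ≤ 1 * 1 * (p : ℝ) ^ (e0 p n) := by
        gcongr
    _ = _ := by ring

theorem prf_DualInj (p : ℕ) [Fact p.Prime] (j2 : J2 p) (j4 : J4 p) : DualInj p := by
  intro n s t hs c G hG heq b0 a0 ha0
  have hp2 : 2 ≤ p := (Fact.out : p.Prime).two_le
  have hsn : s ≤ n := by nlinarith
  have hp0 : (0 : ℝ) < p := by exact_mod_cast (by omega : 0 < p)
  classical
  obtain ⟨g, hg, hj⟩ := j2 n s hs (fun b a => if b = b0 ∧ a = a0 then 1 else 0)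
  have h1 : pairG n g (∑ b : Node p, ∑ a ∈ range s, Polynomial.C (c b a) * vv p n ℤ_[p] b a)
      = pairG n g (Polynomial.C ((p : ℤ_[p]) ^ t) * G) := by rw [heq]
  rw [pj5_pairG_C, pj5_pairG_sum] at h1
  have h2 : ∀ b : Node p, b ≠ b0 →
      pairG n g (∑ a ∈ range s, Polynomial.C (c b a) * vv p n ℤ_[p] b a) = 0 := by
    intro b hb
    rw [pj5_pairG_sum]
    refine Finset.sum_eq_zero fun a ha => ?_
    have ha' := Finset.mem_range.mp ha
    rw [pj5_pairG_C]
    obtain ⟨ε, -, hε⟩ := j4 n a b g (by omega) hg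
    rw [hε, hj b a ha', if_neg (fun h => hb h.1)]
    simp
  rw [Finset.sum_eq_single b0 (fun b _ hb => h2 b hb) (fun h => absurd (Finset.mem_univ _) h),
    pj5_pairG_sum, Finset.sum_eq_single a0] at h1
  · rw [pj5_pairG_C] at h1
    obtain ⟨ε, hε1, hε⟩ := j4 n a0 b0 g (by omega) hg
    rw [hε, hj b0 a0 ha0, if_pos ⟨rfl, rfl⟩] at h1
    have hne : ((n.choose a0 : ℕ) : ℚ_[p]) ≠ 0 := by
      exact_mod_cast (Nat.choose_pos (by omega : a0 ≤ n)).ne'
    have hεn : ‖ε‖ = 1 := by
      rcases hε1 with h | h <;> simp [h]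
    have h3 : ‖((c b0 a0 : ℤ_[p]) : ℚ_[p])‖ =
        ‖((n.choose a0 : ℕ) : ℚ_[p])‖ * (‖(((p : ℤ_[p]) ^ t : ℤ_[p]) : ℚ_[p])‖ *
          ‖pairG n g G‖) := by
      rw [← norm_mul, ← h1, norm_mul, norm_div, norm_mul, hεn, PadicInt.coe_one, norm_one,
        one_mul]
      have : ‖((n.choose a0 : ℕ) : ℚ_[p])‖ ≠ 0 := norm_ne_zero_iff.mpr hne
      field_simp
    rcases le_total t (e0 p n) with hte | hte
    · rw [Nat.sub_eq_zero_of_le hte, pow_zero]
      exact one_dvd _
    · rw [← Ideal.mem_span_singleton, ← PadicInt.norm_le_pow_iff_mem_span_pow]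
      have h4 : ‖c b0 a0‖ = ‖((c b0 a0 : ℤ_[p]) : ℚ_[p])‖ := rfl
      rw [h4, h3]
      have h5 : ‖((n.choose a0 : ℕ) : ℚ_[p])‖ ≤ 1 := by
        have := PadicInt.norm_le_one ((n.choose a0 : ℕ) : ℤ_[p])
        rwa [PadicInt.norm_def, PadicInt.coe_natCast] at this
      have h6 : ‖(((p : ℤ_[p]) ^ t : ℤ_[p]) : ℚ_[p])‖ = (p : ℝ) ^ (-(t : ℤ)) := by
        rw [PadicInt.padic_norm_e_of_padicInt, PadicInt.norm_p_pow]
      rw [h6]
      calc ‖((n.choose a0 : ℕ) : ℚ_[p])‖ * ((p : ℝ) ^ (-(t : ℤ)) * ‖pairG n g G‖)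
          ≤ 1 * ((p : ℝ) ^ (-(t : ℤ)) * (p : ℝ) ^ (e0 p n)) := by
            gcongr
            exact pj5_pairG_norm n g G
        _ = (p : ℝ) ^ (-((t - e0 p n : ℕ) : ℤ)) := by
            rw [one_mul, ← zpow_natCast, ← zpow_add₀ hp0.ne']
            congr 1
            omega
  · intro a ha hne
    have ha' := Finset.mem_range.mp ha
    rw [pj5_pairG_C]
    obtain ⟨ε, -, hε⟩ := j4 n a b0 g (by omega) hg
    rw [hε, hj b0 a ha', if_neg (fun h => hne h.2)]
    simp
  · intro h
    exact absurd (Finset.mem_range.mpr ha0) h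

end Gou

end
end

section

/-!
Module A, item J6: `DualStep` from `DualInj`.
-/

open scoped Polynomial
open Finset

noncomputable section

namespace Gou

theorem pj6_vv_natDegree (p n : ℕ) (R : Type*) [CommRing R] (b : Node p) (a : ℕ) (ha : a ≤ n) :
    (vv p n R b a).natDegree ≤ n := by
  rcases b with _ | b
  · show (Polynomial.X ^ a : R[X]).natDegree ≤ n
    exact (Polynomial.natDegree_X_pow_le a).trans ha
  · show ((Polynomial.X + Polynomial.C ((b : ℕ) : R)) ^ (n - a)).natDegree ≤ n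
    refine Polynomial.natDegree_pow_le.trans ?_
    have h1 : (Polynomial.X + Polynomial.C ((b : ℕ) : R)).natDegree ≤ 1 := by
      compute_degree
    calc (n - a) * (Polynomial.X + Polynomial.C ((b : ℕ) : R)).natDegree ≤ (n - a) * 1 :=
          Nat.mul_le_mul_left _ h1
      _ ≤ n := by omega

theorem prf_DualStep (p : ℕ) [Fact p.Prime] (h : DualInj p) : DualStep p := by
  intro n s hs c hG b a ha
  obtain ⟨G, hGn, hG⟩ := hG
  rcases lt_or_ge a s with has | has
  · have hsn : s ≤ n + 1 := le_trans (Nat.le_mul_of_pos_left s (Nat.succ_pos p)) hs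
    set G' : ℤ_[p][X] := G - ∑ b : Node p, ∑ a ∈ Ico s (n + 1),
      Polynomial.C ((p : ℤ_[p]) ^ (a - s) * c b a) * vv p n ℤ_[p] b a with hG'
    refine h n s s hs (fun b a => (p : ℤ_[p]) ^ a * c b a) G' ?_ ?_ b a has
    · refine (Polynomial.natDegree_sub_le _ _).trans (max_le hGn ?_)
      refine Polynomial.natDegree_sum_le_of_forall_le _ _ fun b _ => ?_
      refine Polynomial.natDegree_sum_le_of_forall_le _ _ fun a ha' => ?_
      refine (Polynomial.natDegree_C_mul_le _ _).trans ?_
      exact pj6_vv_natDegree p n _ b a (by have := (mem_Ico.1 ha').2; omega)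
    · have h1 : ∀ b : Node p, ∑ a ∈ range (n + 1),
          Polynomial.C ((p : ℤ_[p]) ^ a * c b a) * vv p n ℤ_[p] b a =
          ∑ a ∈ range s, Polynomial.C ((p : ℤ_[p]) ^ a * c b a) * vv p n ℤ_[p] b a +
          Polynomial.C ((p : ℤ_[p]) ^ s) * ∑ a ∈ Ico s (n + 1),
            Polynomial.C ((p : ℤ_[p]) ^ (a - s) * c b a) * vv p n ℤ_[p] b a := by
        intro b
        rw [← sum_range_add_sum_Ico _ hsn, mul_sum]
        congr 1
        refine sum_congr rfl fun a ha' => ?_
        rw [← mul_assoc, ← Polynomial.C_mul, ← mul_assoc, ← pow_add,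
          Nat.add_sub_cancel' (mem_Ico.1 ha').1]
      simp only [h1, sum_add_distrib, ← mul_sum] at hG
      rw [hG', mul_sub, ← hG]
      ring
  · exact Dvd.dvd.mul_right (pow_dvd_pow _ (by omega)) _

end Gou

end
end

section

/-!
MP_602313_nt module A, item K1: the natural kernel. By helper72.
-/

open scoped Polynomial
open Finset

noncomputable section

namespace Gou

namespace PK1

variable {p : ℕ} [Fact p.Prime]

/-- The jet as a linear map. -/
def jetL (n : ℕ) (b : Node p) (a : ℕ) : ℤ_[p][X] →ₗ[ℤ_[p]] ℤ_[p] :=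
  match b with
  | some b => (Polynomial.lcoeff ℤ_[p] a) ∘ₗ (Polynomial.taylor (-((b : ℕ) : ℤ_[p])))
  | none => Polynomial.lcoeff ℤ_[p] (n - a)

theorem jetL_apply (n : ℕ) (b : Node p) (a : ℕ) (f : ℤ_[p][X]) :
    jetL n b a f = jet n b a f := by
  cases b <;> rfl

theorem natDegree_vv (n : ℕ) (c : Node p) (a : ℕ) (ha : a ≤ n) :
    (vv p n ℤ_[p] c a).natDegree ≤ n := by
  cases c with
  | some b =>
    have h1 : (Polynomial.X + Polynomial.C ((b : ℕ) : ℤ_[p])).natDegree ≤ 1 := by
      exact (Polynomial.natDegree_X_add_C _).le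
    calc ((Polynomial.X + Polynomial.C ((b : ℕ) : ℤ_[p])) ^ (n - a)).natDegree
        ≤ (n - a) * (Polynomial.X + Polynomial.C ((b : ℕ) : ℤ_[p])).natDegree :=
          Polynomial.natDegree_pow_le
      _ ≤ (n - a) * 1 := Nat.mul_le_mul_left _ h1
      _ ≤ n := by omega
  | none =>
    calc ((Polynomial.X : ℤ_[p][X]) ^ a).natDegree ≤ a := Polynomial.natDegree_X_pow_le a
      _ ≤ n := ha

theorem indepMod_single {ν : ℕ} {γ : Type} [DecidableEq γ] [Fintype γ] (e : Fin ν ≃ γ) :
    IndepMod p (fun i : Fin ν => (fun k : γ => if e i = k then (1 : ℤ_[p]) else 0)) := by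
  unfold IndepMod
  rw [Fintype.linearIndependent_iff]
  intro g hg i
  have h := congrFun hg (e i)
  simp only [Finset.sum_apply, Pi.smul_apply, smul_eq_mul, Pi.zero_apply] at h
  rw [Finset.sum_eq_single i] at h
  · simpa using h
  · intro j _ hj
    have : e j ≠ e i := fun h' => hj (e.injective h')
    simp [this]
  · intro h'
    exact absurd (Finset.mem_univ i) h'

theorem rr_le (q s x : ℕ) :
    rr q s x ≤ (q + 1) * s - ((x + 1) + (q + 1) * (2 * s - (x + 1))) := by
  unfold rr
  rcases Nat.lt_or_ge (x + 1) (2 * s) with h | h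
  · refine le_trans (min_le_right _ _) ?_
    obtain ⟨d, hd⟩ := Nat.exists_eq_add_of_lt h
    have h1 : 2 * s - (x + 1) = d + 1 := by omega
    rw [h1]
    have h2 : (q + 1) * (2 * s) = (q + 1) * (x + 1 + d + 1) := by rw [hd]
    have h3 : 2 * ((q + 1) * s) = (q + 1) * (x + 1) + (q + 1) * (d + 1) := by
      calc 2 * ((q + 1) * s) = (q + 1) * (2 * s) := by ring
        _ = (q + 1) * (x + 1 + d + 1) := h2
        _ = _ := by ring
    have h4 : (q + 1) * (x + 1) = q * (x + 1) + (x + 1) := by ring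
    omega
  · have h1 : 2 * s - (x + 1) = 0 := by omega
    rw [h1, Nat.mul_zero, Nat.add_zero]
    exact min_le_left _ _

end PK1

open PK1 in
theorem prf_K1 (p : ℕ) [Fact p.Prime] (_l1 : L1 p) (l2 : L2 p) (j1 : J1 p) : K1 p := by
  intro s x hs hx
  have hcard : Fintype.card (Idx p s) = (p + 1) * s := by
    simp [Idx, Node, Fintype.card_prod, Fintype.card_option]
  let e : Fin ((p + 1) * s) ≃ Idx p s := (Fintype.equivFinOfCardEq hcard).symm
  let κ : Type := Fin (x + 1) ⊕ (Node p × Fin (2 * s - (x + 1)))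
  let F : κ → Idx p s → ℤ_[p] := fun j k =>
    match j with
    | Sum.inl m => (vv p x ℤ_[p] k.1 k.2).coeff (m : ℕ)
    | Sum.inr cj => if k.1 = cj.1 ∧ (k.2 : ℕ) + 1 + (cj.2 : ℕ) = s then 1 else 0
  have hκ : Fintype.card κ = (x + 1) + (p + 1) * (2 * s - (x + 1)) := by
    simp [κ, Node, Fintype.card_sum, Fintype.card_prod, Fintype.card_option]
  obtain ⟨v, hv1, -, hv3⟩ := l2 κ (Idx p s) ((p + 1) * s)
    (fun i : Fin ((p + 1) * s) => (fun k : Idx p s => if e i = k then (1 : ℤ_[p]) else 0)) F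
    (indepMod_single e)
  have hle : rr p s x ≤ (p + 1) * s - Fintype.card κ := by
    rw [hκ]; exact rr_le p s x
  refine ⟨fun i => v (Fin.castLE hle i), ?_, ?_⟩
  · unfold IndepMod at hv1 ⊢
    exact hv1.comp (Fin.castLE hle) (Fin.castLE_injective hle)
  · intro i0
    set i := Fin.castLE hle i0 with hi
    -- the vanishing of the high components
    have hz : ∀ k : Idx p s, x + 1 ≤ (k.2 : ℕ) + s → v i k = 0 := by
      intro k hk
      have hlt : (k.2 : ℕ) < s := k.2.2
      have hj : s - 1 - (k.2 : ℕ) < 2 * s - (x + 1) := by omega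
      have h := hv3 i (Sum.inr (k.1, ⟨s - 1 - (k.2 : ℕ), hj⟩))
      rw [Finset.sum_eq_single k] at h
      · have : (k.2 : ℕ) + 1 + (s - 1 - (k.2 : ℕ)) = s := by omega
        simpa [F, this] using h
      · intro k' _ hk'
        have : ¬ (k'.1 = k.1 ∧ (k'.2 : ℕ) + 1 + (s - 1 - (k.2 : ℕ)) = s) := by
          rintro ⟨h1, h2⟩
          apply hk'
          refine Prod.ext h1 (Fin.ext ?_)
          omega
        simp [F, this]
      · intro h'
        exact absurd (Finset.mem_univ k) h'
    -- the polynomial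
    have hF : ∑ k : Idx p s, (v i k) • (vv p x ℤ_[p] k.1 k.2) = 0 := by
      ext m
      rw [Polynomial.finset_sum_coeff, Polynomial.coeff_zero]
      rcases Nat.lt_or_ge m (x + 1) with hm | hm
      · have h := hv3 i (Sum.inl ⟨m, hm⟩)
        rw [← h]
        refine Finset.sum_congr rfl fun k _ => ?_
        rw [Polynomial.coeff_smul, smul_eq_mul, mul_comm]
      · refine Finset.sum_eq_zero fun k _ => ?_
        rw [Polynomial.coeff_smul, Polynomial.coeff_eq_zero_of_natDegree_lt, smul_zero]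
        have h1 := natDegree_vv (p := p) x k.1 (k.2 : ℕ) (by have := k.2.2; omega)
        omega
    funext r
    have hr : (r.2 : ℕ) < s := r.2.2
    have hjet := congrArg (jetL x r.1 (r.2 : ℕ)) hF
    rw [map_sum, map_zero] at hjet
    show (NMp p s x).mulVec (v i) r = 0
    unfold Matrix.mulVec dotProduct
    rw [← hjet]
    refine Finset.sum_congr rfl fun k _ => ?_
    rw [map_smul, smul_eq_mul, jetL_apply]
    have hk : (k.2 : ℕ) < s := k.2.2
    rcases Nat.lt_or_ge ((k.2 : ℕ) + s) (x + 1) with h | h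
    · rw [j1 x r.1 k.1 r.2 k.2 (by omega) (by omega) (Or.inr (by omega))]
      simp only [NMp, NM]
      ring
    · rw [hz k h]
      ring

end Gou

end
end

section

/-! K2: the sum of the coranks (helper90). -/

open Finset

noncomputable section

namespace Gou

/-- The sum of the floors. -/
private lemma k2_floor (p : ℕ) (hp : 0 < p) (s : ℕ) :
    2 * ∑ i ∈ range s, ((i / p : ℕ) : ℤ) =
      2 * (s : ℤ) * ((s / p : ℕ) : ℤ) - p * ((s / p : ℕ) : ℤ) * (((s / p : ℕ) : ℤ) + 1) := by
  induction s with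
  | zero => simp
  | succ s ih =>
    rw [sum_range_succ, mul_add, ih, Nat.succ_div]
    by_cases h : p ∣ s + 1
    · rw [if_pos h]
      obtain ⟨c, hc⟩ := h
      have hc0 : 0 < c := by
        rcases Nat.eq_zero_or_pos c with h0 | h0
        · subst h0; omega
        · exact h0
      have h1 : s / p = c - 1 := by
        have h2 : (s + 1) / p = s / p + 1 := by
          rw [Nat.succ_div, if_pos ⟨c, hc⟩]
        rw [hc, Nat.mul_div_cancel_left _ hp] at h2
        omega
      rw [h1]
      have h3 : ((c - 1 : ℕ) : ℤ) = c - 1 := by push_cast [Nat.cast_sub hc0]; ring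
      have h4 : (s : ℤ) = p * c - 1 := by
        have : ((s + 1 : ℕ) : ℤ) = ((p * c : ℕ) : ℤ) := by rw [hc]
        push_cast at this
        linarith
      push_cast [h3]
      rw [h4]
      ring
    · rw [if_neg h]
      push_cast
      ring

private lemma k2_lam (p : ℕ) (hp : 0 < p) (s : ℕ) :
    2 * ((lam p s : ℕ) : ℤ) = (p + 1) * ((s : ℤ) * (s - 1) - 2 * (s : ℤ) * ((s / p : ℕ) : ℤ)
      + p * ((s / p : ℕ) : ℤ) * (((s / p : ℕ) : ℤ) + 1)) := by
  have h1 : ((lam p s : ℕ) : ℤ) = (p + 1) * (∑ i ∈ range s, (i : ℤ)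
      - ∑ i ∈ range s, ((i / p : ℕ) : ℤ)) := by
    unfold lam
    push_cast
    rw [← sum_sub_distrib]
    congr 1
    refine sum_congr rfl fun i _ => ?_
    rw [Nat.cast_sub (Nat.div_le_self i p)]
    push_cast
    ring
  have h2 : ∀ s : ℕ, 2 * ∑ i ∈ range s, (i : ℤ) = s * (s - 1) := by
    intro s
    induction s with
    | zero => simp
    | succ s ih =>
      rw [sum_range_succ, mul_add, ih]
      push_cast
      ring
  rw [h1]
  linear_combination ((p : ℤ) + 1) * (h2 s) - ((p : ℤ) + 1) * (k2_floor p hp s)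

private lemma k2_gg1 (P s t : ℕ) (ht : t ≤ s) :
    min (P * t) (((P + 1) ^ 2 - 1) * s - (P + 1) * P * t) = P * t := by
  refine min_eq_left ?_
  have h1 : (P + 1) ^ 2 - 1 = P * (P + 2) := by
    have : (P + 1) ^ 2 = P * (P + 2) + 1 := by ring
    omega
  rw [h1]
  have h2 : P * (P + 2) * t ≤ P * (P + 2) * s := Nat.mul_le_mul_left _ ht
  have h3 : P * (P + 2) * t = P * t + (P + 1) * P * t := by ring
  omega

private lemma k2_gg2 (P s u : ℕ) (hu : (P + 1) * u ≤ s) :
    ((min (P * (s + u)) (((P + 1) ^ 2 - 1) * s - (P + 1) * P * (s + u)) : ℕ) : ℤ) =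
      P * (s - (P + 1) * u) := by
  have h1 : (P + 1) ^ 2 - 1 = P * (P + 2) := by
    have : (P + 1) ^ 2 = P * (P + 2) + 1 := by ring
    omega
  have h2 : P * (P + 2) * s = (P + 1) * P * (s + u) + P * (s - (P + 1) * u) := by
    zify [hu]
    ring
  have h3 : P * (P + 2) * s - (P + 1) * P * (s + u) = P * (s - (P + 1) * u) := by omega
  rw [h1, h3, min_eq_right]
  · push_cast [Nat.cast_sub hu]
    ring
  · exact Nat.mul_le_mul_left _ (by omega)

private lemma k2_odd (P s : ℕ) (hP : 0 < P) (g : ℕ → ℕ)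
    (hg : ∀ t, g t = min (P * t) (((P + 1) ^ 2 - 1) * s - (P + 1) * P * t)) :
    2 * ((lam (P + 1) s : ℕ) : ℤ) ≤
      2 * ∑ t ∈ range (s + s / (P + 1) + 1), ((g t : ℕ) : ℤ) := by
  have hA : ∀ m ≤ s, 2 * ∑ t ∈ range (m + 1), ((g t : ℕ) : ℤ) = P * m * (m + 1) := by
    intro m
    induction m with
    | zero =>
      intro _
      have h0 : g 0 = 0 := by rw [hg, Nat.mul_zero, Nat.zero_min]
      simp [h0]
    | succ m ih =>
      intro hm
      rw [sum_range_succ, mul_add, ih (by omega), hg, k2_gg1 P s (m + 1) hm]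
      push_cast
      ring
  have hB : ∀ u, (P + 1) * u ≤ s → 2 * ∑ t ∈ range (s + u + 1), ((g t : ℕ) : ℤ) =
      P * (s * (s + 1) + 2 * s * u - (P + 1) * u * (u + 1)) := by
    intro u
    induction u with
    | zero =>
      intro _
      rw [add_zero, hA s le_rfl]
      push_cast
      ring
    | succ u ih =>
      intro hu
      rw [sum_range_succ, mul_add, show s + (u + 1) = s + u + 1 by ring,
        ih (by nlinarith), hg, show s + u + 1 = s + (u + 1) by ring, k2_gg2 P s (u + 1) hu]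
      push_cast
      ring
  have hU : (P + 1) * (s / (P + 1)) ≤ s := Nat.mul_div_le s (P + 1)
  rw [hB _ hU, k2_lam (P + 1) (by omega) s]
  have h1 : (P + 1) * (s / (P + 1)) + s % (P + 1) = s := Nat.div_add_mod s (P + 1)
  have h2 : s % (P + 1) < P + 1 := Nat.mod_lt _ (by omega)
  generalize s / (P + 1) = U at *
  generalize s % (P + 1) = r at *
  subst h1
  obtain ⟨w, hw⟩ := Nat.exists_eq_add_of_lt h2
  have h3 : (P : ℤ) = r + w := by
    have : ((P + 1 : ℕ) : ℤ) = ((r + w + 1 : ℕ) : ℤ) := by rw [hw]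
    push_cast at this
    linarith
  push_cast
  have h4 : (0 : ℤ) ≤ r * (w + 1) := by positivity
  rw [h3]
  nlinarith [h4]

private lemma k2_two (s : ℕ) :
    ((lam 2 s : ℕ) : ℤ) ≤ 2 * ∑ t ∈ range (3 * s / 4 + 1), ((min (2 * t) (3 * s - 4 * t) : ℕ) : ℤ) := by
  have hA : ∀ m ≤ s / 2, ∑ t ∈ range (m + 1), ((min (2 * t) (3 * s - 4 * t) : ℕ) : ℤ)
      = m * (m + 1) := by
    intro m
    induction m with
    | zero => intro _; simp
    | succ m ih =>
      intro hm
      rw [sum_range_succ, ih (by omega), min_eq_left (by omega)]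
      push_cast
      ring
  have hB : ∀ u, s / 2 + u ≤ 3 * s / 4 →
      ∑ t ∈ range (s / 2 + u + 1), ((min (2 * t) (3 * s - 4 * t) : ℕ) : ℤ) =
      ((s / 2 : ℕ) : ℤ) * (((s / 2 : ℕ) : ℤ) + 1) + 3 * s * u
        - 2 * u * (2 * ((s / 2 : ℕ) : ℤ) + u + 1) := by
    intro u
    induction u with
    | zero =>
      intro _
      rw [add_zero, hA _ le_rfl]
      push_cast
      ring
    | succ u ih =>
      intro hu
      rw [sum_range_succ, show s / 2 + (u + 1) = s / 2 + u + 1 by ring, ih (by omega),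
        min_eq_right (by omega), Nat.cast_sub (by omega)]
      push_cast
      ring
  have hle : s / 2 ≤ 3 * s / 4 := by omega
  obtain ⟨u, hu⟩ := Nat.exists_eq_add_of_le hle
  have h2 := hB u (by omega)
  rw [hu, h2]
  have h3 := k2_lam 2 (by norm_num) s
  obtain ⟨k, j, hj, hs⟩ : ∃ k j : ℕ, j < 4 ∧ s = 4 * k + j := ⟨s / 4, s % 4, by omega, by omega⟩
  subst hs
  interval_cases j
  · have e1 : (4 * k + 0) / 2 = 2 * k := by omega
    have e2 : u = k := by omega
    rw [e1] at h3 ⊢
    subst e2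
    push_cast at h3 ⊢
    nlinarith [h3]
  · have e1 : (4 * k + 1) / 2 = 2 * k := by omega
    have e2 : u = k := by omega
    rw [e1] at h3 ⊢
    subst e2
    push_cast at h3 ⊢
    nlinarith [h3]
  · have e1 : (4 * k + 2) / 2 = 2 * k + 1 := by omega
    have e2 : u = k := by omega
    rw [e1] at h3 ⊢
    subst e2
    push_cast at h3 ⊢
    nlinarith [h3]
  · have e1 : (4 * k + 3) / 2 = 2 * k + 1 := by omega
    have e2 : u = k + 1 := by omega
    rw [e1] at h3 ⊢
    subst e2
    push_cast at h3 ⊢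
    nlinarith [h3]

theorem prf_K2 (p : ℕ) [Fact p.Prime] : K2 p := by
  intro s
  have hp : p.Prime := Fact.out
  have hmono : ∀ (M : ℕ), M ≤ (p + 1) * s → ∑ t ∈ range (M + 1), gg p s t ≤
      ∑ t ∈ Icc 1 ((p + 1) * s), gg p s t := by
    intro M hM
    rw [sum_range_succ']
    have h0 : gg p s 0 = 0 := by simp [gg]
    rw [h0, add_zero]
    rw [← sum_image (s := range M) (f := fun t => gg p s t) (g := fun t => t + 1)
      (by intro a _ b _ h; simpa using h)]
    refine sum_le_sum_of_subset ?_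
    intro t ht
    rw [mem_image] at ht
    obtain ⟨a, ha, rfl⟩ := ht
    rw [mem_range] at ha
    rw [mem_Icc]
    omega
  by_cases h2 : p = 2
  · subst h2
    have h := k2_two s
    have h1 := hmono (3 * s / 4) (by omega)
    have h3 : ∀ t, gg 2 s t = min (2 * t) (3 * s - 4 * t) := by
      intro t
      simp only [gg, qq, if_true]
      norm_num
    simp only [← h3] at h
    have h4 : ((∑ t ∈ range (3 * s / 4 + 1), gg 2 s t : ℕ) : ℤ) =
        ∑ t ∈ range (3 * s / 4 + 1), ((gg 2 s t : ℕ) : ℤ) := by push_cast; rfl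
    rw [← h4] at h
    have h5 : lam 2 s ≤ 2 * ∑ t ∈ range (3 * s / 4 + 1), gg 2 s t := by exact_mod_cast h
    simp only [kap, if_true]
    omega
  · obtain ⟨P, rfl⟩ : ∃ P, p = P + 1 := ⟨p - 1, by have := hp.pos; omega⟩
    have hP : 0 < P := by
      have := hp.two_le
      omega
    have h := k2_odd P s hP (fun t => gg (P + 1) s t) (by
      intro t
      simp only [gg, qq, if_neg h2, Nat.add_sub_cancel])
    have h1 := hmono (s + s / (P + 1)) (by
      have : s / (P + 1) ≤ s := Nat.div_le_self _ _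
      nlinarith)
    have h4 : ((∑ t ∈ range (s + s / (P + 1) + 1), gg (P + 1) s t : ℕ) : ℤ) =
        ∑ t ∈ range (s + s / (P + 1) + 1), ((gg (P + 1) s t : ℕ) : ℤ) := by push_cast; rfl
    rw [← h4] at h
    have h5 : 2 * lam (P + 1) s ≤ 2 * ∑ t ∈ range (s + s / (P + 1) + 1), gg (P + 1) s t := by
      exact_mod_cast h
    simp only [kap, if_neg h2]
    omega

end Gou

end
end

section

/-!
Item K3 of module A of MP_602313_nt.
-/

namespace Gou

theorem prf_K3 (p : ℕ) [hp : Fact p.Prime] : K3 p := by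
  intro s t h
  have hp2 : 2 ≤ p := hp.out.two_le
  unfold gg at h
  rw [lt_min_iff] at h
  obtain ⟨h1, h2⟩ := h
  unfold rr gg
  rw [mul_assoc p (qq p) t] at h2 ⊢
  generalize qq p * t = Q at h1 h2 ⊢
  obtain ⟨k, rfl⟩ : ∃ k, p = k + 2 := ⟨p - 2, by omega⟩
  have hsq : (k + 2) ^ 2 - 1 = (k + 1) * (k + 3) := by
    have : (k + 2) ^ 2 = (k + 1) * (k + 3) + 1 := by ring
    omega
  rw [hsq] at h2 ⊢
  have h3 : (k + 2) * Q < (k + 1) * (k + 3) * s := by omega
  have hs : 0 < s := by
    rcases Nat.eq_zero_or_pos s with h0 | h0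
    · subst h0; simp at h3
    · exact h0
  have h4 : Q < (k + 2) * s := by
    have h5 : (k + 2) * Q < (k + 2) * ((k + 2) * s) := by nlinarith
    exact lt_of_mul_lt_mul_left h5 (Nat.zero_le _)
  have h6 : (k + 2 + 1) * s = (k + 2) * s + s := by ring
  have h7 : (k + 2) * s ≤ (k + 2 + 1) * s := by omega
  refine ⟨by omega, by omega, ?_, ?_⟩
  · have h8 : (k + 2 + 1) * s - 1 - Q + 1 = (k + 2 + 1) * s - Q := by omega
    rw [h8]
    have h9 : (k + 2 + 1) * s - ((k + 2 + 1) * s - Q) = Q := by omega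
    rw [h9]
    congr 1
    obtain ⟨d, hd⟩ : ∃ d, (k + 2 + 1) * s = Q + d := ⟨(k + 2 + 1) * s - Q, by omega⟩
    have h10 : (k + 2 + 1) * s - Q = d := by omega
    rw [h10]
    have h11 : (k + 1) * (k + 3) * s = (k + 1) * (Q + d) := by rw [← hd]; ring
    rw [h11, hd]
    have h12 : (k + 2) * d - (Q + d) = (k + 1) * (Q + d) - (k + 2) * Q := by
      have e1 : (k + 2) * d = (k + 1) * d + d := by ring
      have e2 : (k + 1) * (Q + d) = (k + 1) * Q + (k + 1) * d := by ring
      have e3 : (k + 2) * Q = (k + 1) * Q + Q := by ring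
      rw [e1, e2, e3]
      omega
    exact h12
  · exact le_trans (min_le_left _ _) (by omega)

end Gou

end

section

/-!
Module A, item L1: a system of linear equations over the `p`-adic integers.
-/

open Finset

noncomputable section

namespace Gou

theorem toZMod_eq_zero_iff_dvd (p : ℕ) [Fact p.Prime] (x : ℤ_[p]) :
    PadicInt.toZMod (p := p) x = 0 ↔ (p : ℤ_[p]) ∣ x := by
  rw [← Ideal.mem_span_singleton, ← PadicInt.maximalIdeal_eq_span_p, ← PadicInt.ker_toZMod,
    RingHom.mem_ker]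

theorem toZMod_surj (p : ℕ) [Fact p.Prime] (z : ZMod p) :
    ∃ x : ℤ_[p], PadicInt.toZMod (p := p) x = z := by
  refine ⟨((z.val : ℕ) : ℤ_[p]), ?_⟩
  rw [map_natCast]
  exact ZMod.natCast_zmod_val z

/-- Independence mod `p` in terms of divisibility. -/
theorem indepMod_iff (p : ℕ) [Fact p.Prime] {γ : Type} {ν : ℕ} (v : Fin ν → γ → ℤ_[p]) :
    IndepMod p v ↔ ∀ a : Fin ν → ℤ_[p], (∀ k, (p : ℤ_[p]) ∣ ∑ i, a i * v i k) →
      ∀ i, (p : ℤ_[p]) ∣ a i := by
  rw [IndepMod, Fintype.linearIndependent_iff]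
  constructor
  · intro h a ha i
    rw [← toZMod_eq_zero_iff_dvd]
    refine h (fun i => PadicInt.toZMod (p := p) (a i)) ?_ i
    ext k
    have := (toZMod_eq_zero_iff_dvd p _).2 (ha k)
    rw [map_sum] at this
    rw [Finset.sum_apply, Pi.zero_apply, ← this]
    refine Finset.sum_congr rfl fun j _ => ?_
    rw [map_mul]
    rfl
  · intro h g hg i
    choose a ha using fun i => toZMod_surj p (g i)
    have h1 : ∀ k, (p : ℤ_[p]) ∣ ∑ i, a i * v i k := by
      intro k
      rw [← toZMod_eq_zero_iff_dvd, map_sum]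
      have := congrFun hg k
      rw [Finset.sum_apply, Pi.zero_apply] at this
      rw [← this]
      refine Finset.sum_congr rfl fun j _ => ?_
      rw [map_mul, ha]
      rfl
    rw [← ha i]
    exact (toZMod_eq_zero_iff_dvd p _).2 (h a h1 i)

theorem prf_L1 (p : ℕ) [Fact p.Prime] : L1 p := by
  intro κ _ ν B
  classical
  set K : Submodule ℤ_[p] (Fin ν → ℤ_[p]) := LinearMap.ker B.mulVecLin with hK
  have hrank : ν - Fintype.card κ ≤ Module.finrank ℤ_[p] K := by
    have h1 := Submodule.finrank_quotient_add_finrank (LinearMap.ker B.mulVecLin)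
    rw [LinearEquiv.finrank_eq (LinearMap.quotKerEquivRange B.mulVecLin)] at h1
    have h2 : Module.finrank ℤ_[p] (LinearMap.range B.mulVecLin) ≤ Fintype.card κ := by
      have := Submodule.finrank_le (LinearMap.range B.mulVecLin)
      rwa [Module.finrank_pi] at this
    rw [Module.finrank_pi, Fintype.card_fin, ← hK] at h1
    omega
  let b := Module.finBasis ℤ_[p] K
  let f : Fin (ν - Fintype.card κ) → Fin (Module.finrank ℤ_[p] K) := Fin.castLE hrank
  have hf : Function.Injective f := Fin.castLE_injective hrank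
  refine ⟨fun i => (b (f i) : Fin ν → ℤ_[p]), ?_, fun i => (b (f i)).2⟩
  rw [indepMod_iff]
  intro a ha
  choose z hz using ha
  have hp0 : (p : ℤ_[p]) ≠ 0 := by exact_mod_cast (Fact.out : p.Prime).ne_zero
  -- the combination is `p z`
  have hcomb : (∑ i, a i • (b (f i) : Fin ν → ℤ_[p])) = (p : ℤ_[p]) • z := by
    ext k
    rw [Finset.sum_apply]
    simp only [Pi.smul_apply, smul_eq_mul]
    exact hz k
  have hzK : z ∈ K := by
    have h1 : (p : ℤ_[p]) • z ∈ K := by
      rw [← hcomb]
      exact Submodule.sum_mem _ fun i _ => Submodule.smul_mem _ _ (b (f i)).2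
    rw [hK, LinearMap.mem_ker, map_smul] at h1
    rw [hK, LinearMap.mem_ker]
    exact (smul_eq_zero.1 h1).resolve_left hp0
  have hK2 : (∑ i, a i • b (f i)) = (p : ℤ_[p]) • (⟨z, hzK⟩ : K) := by
    apply Subtype.ext
    rw [Submodule.coe_sum, Submodule.coe_smul]
    simpa using hcomb
  intro i
  have h3 := congrArg (fun w => b.repr w (f i)) hK2
  simp only [map_sum, map_smul, Finsupp.smul_apply, smul_eq_mul, Finsupp.coe_finsetSum,
    Finset.sum_apply, Module.Basis.repr_self] at h3
  rw [Finset.sum_eq_single i] at h3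
  · rw [Finsupp.single_eq_same, mul_one] at h3
    exact ⟨_, h3⟩
  · intro j _ hj
    rw [Finsupp.single_eq_of_ne (fun h => hj (hf h).symm), mul_zero]
  · intro h
    exact absurd (Finset.mem_univ i) h

end Gou

end
end

section

set_option autoImplicit false

open scoped Polynomial
open Finset

noncomputable section

namespace Gou

theorem PL3.sumExtend_inl {ι K V : Type*} [DivisionRing K] [AddCommGroup V] [Module K V]
    {v : ι → V} (hs : LinearIndependent K v) (i : ι) :
    Module.Basis.sumExtend hs (Sum.inl i) = v i := by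
  classical
  simp only [Module.Basis.sumExtend, Module.Basis.reindex_apply, Module.Basis.extend_apply_self]
  exact congrArg Subtype.val (Equiv.Set.sumDiffSubset_apply_inl
    (hs.linearIndepOn_id.subset_extend (Set.subset_univ _)) (Equiv.ofInjective v hs.injective i))

theorem prf_L3 (p : ℕ) [Fact p.Prime] : L3 p := by
  intro γ _ _ A h r hA
  obtain ⟨v, hv, hdiv⟩ := hA
  unfold IndepMod at hv
  classical
  let b := Module.Basis.sumExtend hv
  have hfin : Finite (Fin r ⊕ Module.Basis.sumExtendIndex hv) := Module.Finite.finite_basis b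
  let _ : Fintype (Fin r ⊕ Module.Basis.sumExtendIndex hv) := Fintype.ofFinite _
  have hcard : Fintype.card (Fin r ⊕ Module.Basis.sumExtendIndex hv) = Fintype.card γ := by
    rw [← Module.finrank_eq_card_basis b, Module.finrank_fintype_fun_eq_card]
  let e : (Fin r ⊕ Module.Basis.sumExtendIndex hv) ≃ γ := Fintype.equivOfCardEq hcard
  have hsurj : Function.Surjective (PadicInt.toZMod (p := p)) := ZMod.ringHom_surjective _
  choose lift hlift using hsurj
  let u : (Fin r ⊕ Module.Basis.sumExtendIndex hv) → γ → ℤ_[p] := fun x =>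
    Sum.casesOn x (fun i => v i) (fun y k => lift (b (Sum.inr y) k))
  have hu : ∀ x k, PadicInt.toZMod (u x k) = b x k := by
    rintro (i | y) k
    · have h1 : b (Sum.inl i) = fun k => PadicInt.toZMod (v i k) := by
        have := PL3.sumExtend_inl hv i
        exact this
      rw [h1]
    · exact hlift _
  let U : Matrix γ γ ℤ_[p] := fun k l => u (e.symm l) k
  have hU : IsUnit U.det := by
    have h1 : PadicInt.toZMod U.det = (U.map (PadicInt.toZMod (p := p))).det := by
      rw [RingHom.map_det]; rfl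
    have h2 : LinearIndependent (ZMod p) (U.map (PadicInt.toZMod (p := p))).col := by
      have h3 : (U.map (PadicInt.toZMod (p := p))).col = fun l => b (e.symm l) := by
        funext l k
        simp only [Matrix.col_apply, Matrix.map_apply, U]
        exact hu _ _
      rw [h3]
      exact b.linearIndependent.comp _ e.symm.injective
    have h3 := Matrix.linearIndependent_cols_iff_isUnit.1 h2
    have h4 := (Matrix.isUnit_iff_isUnit_det _).1 h3
    rw [← h1] at h4
    by_contra hne
    have : U.det ∈ IsLocalRing.maximalIdeal ℤ_[p] := hne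
    rw [← PadicInt.ker_toZMod, RingHom.mem_ker] at this
    rw [this] at h4
    exact not_isUnit_zero h4
  -- factor the columns
  let d : γ → ℤ_[p] := fun l => if (e.symm l).isLeft then (p : ℤ_[p]) ^ h else 1
  have hcol : ∀ k l, d l ∣ (A * U) k l := by
    intro k l
    by_cases hl : (e.symm l).isLeft
    · simp only [d, hl, if_true]
      obtain ⟨i, hi⟩ := Sum.isLeft_iff.1 hl
      have := hdiv i k
      have h5 : (A * U) k l = A.mulVec (v i) k := by
        rw [Matrix.mul_apply, Matrix.mulVec, dotProduct]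
        refine Finset.sum_congr rfl fun j _ => ?_
        simp only [U, hi, u]
      rw [h5]; exact this
    · simp only [d, hl, if_false]
      exact one_dvd _
  choose W hW using hcol
  have h6 : A * U = Matrix.of W * Matrix.diagonal d := by
    ext k l
    rw [Matrix.mul_diagonal, hW, Matrix.of_apply, mul_comm]
  have h7 : ∏ l, d l = (p : ℤ_[p]) ^ (h * r) := by
    have h8 : ∏ l, d l = ∏ x, (if (x : Fin r ⊕ Module.Basis.sumExtendIndex hv).isLeft then
        (p : ℤ_[p]) ^ h else 1) := (Equiv.prod_comp e.symm (fun x => if (x : Fin r ⊕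
          Module.Basis.sumExtendIndex hv).isLeft then (p : ℤ_[p]) ^ h else 1))
    rw [h8]
    have h9 : Finite (Module.Basis.sumExtendIndex hv) := Finite.of_injective
      (Sum.inr : _ → (Fin r ⊕ Module.Basis.sumExtendIndex hv)) Sum.inr_injective
    let _ : Fintype (Module.Basis.sumExtendIndex hv) := Fintype.ofFinite _
    have h10 : ∀ (F : (Fin r ⊕ Module.Basis.sumExtendIndex hv) → ℤ_[p]),
        ∏ x, F x = (∏ i, F (Sum.inl i)) * ∏ y, F (Sum.inr y) := by
      intro F
      have h11 := Fintype.prod_sum_type F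
      rw [← h11]
      refine Finset.prod_congr ?_ fun _ _ => rfl
      ext x; simp
    rw [h10]
    simp [pow_mul]
  have h11 : A.det * U.det = (Matrix.of W).det * (p : ℤ_[p]) ^ (h * r) := by
    rw [← Matrix.det_mul, h6, Matrix.det_mul, Matrix.det_diagonal, h7]
  have h12 : (p : ℤ_[p]) ^ (h * r) ∣ A.det * U.det := by
    rw [h11]; exact Dvd.intro_left _ rfl
  exact (hU.dvd_mul_right).1 h12

end Gou

end
end

section

set_option autoImplicit false

open scoped Polynomial
open Finset

noncomputable section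

namespace Gou

theorem prf_L4 (p : ℕ) [Fact p.Prime] : L4 p := by
  intro γ _ _ A e H hdvd
  have hp0 : (p : ℤ_[p]) ≠ 0 := by
    exact_mod_cast (Fact.out : p.Prime).ne_zero
  have hpn : ¬ IsUnit (p : ℤ_[p]) := (PadicInt.prime_p (p := p)).not_unit
  -- the determinant is not zero
  have hdet : A.det ≠ 0 := by
    intro h0
    obtain ⟨c, hc, hc0⟩ := Matrix.exists_mulVec_eq_zero_iff.2 h0
    apply hc
    funext k
    by_contra hk
    have h1 : ∀ t : ℕ, (p : ℤ_[p]) ^ t ∣ c k := by
      intro t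
      have := H (t + e) c (fun r => by rw [hc0]; exact dvd_zero _) k
      simpa using this
    have h2 := h1 ((c k).valuation + 1)
    have h3 := PadicInt.unitCoeff_spec hk
    rw [pow_succ] at h2
    have h4 : (p : ℤ_[p]) ^ (c k).valuation * p ∣
        (p : ℤ_[p]) ^ (c k).valuation * (PadicInt.unitCoeff hk : ℤ_[p]) := by
      rw [mul_comm ((p : ℤ_[p]) ^ (c k).valuation) (PadicInt.unitCoeff hk : ℤ_[p]), ← h3]
      exact h2
    have h5 := (mul_dvd_mul_iff_left (pow_ne_zero _ hp0)).1 h4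
    exact hpn (isUnit_of_dvd_unit h5 (Units.isUnit _))
  obtain ⟨d, w, hw⟩ : ∃ (d : ℕ) (w : ℤ_[p]ˣ), A.det = (w : ℤ_[p]) * (p : ℤ_[p]) ^ d :=
    ⟨_, _, PadicInt.unitCoeff_spec hdet⟩
  have hcard : e * Fintype.card γ + 1 ≤ d := by
    by_contra hlt
    have hlt' : d + 1 ≤ e * Fintype.card γ + 1 := by omega
    have h2 : (p : ℤ_[p]) ^ (d + 1) ∣ A.det := (pow_dvd_pow _ hlt').trans hdvd
    rw [hw, pow_succ, mul_comm (w : ℤ_[p])] at h2
    have h5 := (mul_dvd_mul_iff_left (pow_ne_zero _ hp0)).1 h2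
    exact hpn (isUnit_of_dvd_unit h5 (Units.isUnit _))
  -- if the type is empty the determinant is one
  rcases isEmpty_or_nonempty γ with hγ | hγ
  · have h1 : A.det = 1 := Matrix.det_isEmpty
    rw [h1] at hdvd
    have : (p : ℤ_[p]) ∣ 1 := (dvd_pow_self _ (Nat.succ_ne_zero _)).trans hdvd
    exact hpn (isUnit_of_dvd_one this)
  have hed : e ≤ d := by
    have : 1 ≤ Fintype.card γ := Fintype.card_pos
    nlinarith
  have hadj : ∀ i j, (p : ℤ_[p]) ^ (d - e) ∣ A.adjugate i j := by
    intro i j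
    refine H d (fun k => A.adjugate k j) (fun r => ?_) i
    have h1 : A.mulVec (fun k => A.adjugate k j) r = (A * A.adjugate) r j := by
      rw [Matrix.mul_apply, Matrix.mulVec, dotProduct]
    rw [h1, Matrix.mul_adjugate, hw, Matrix.smul_apply, smul_eq_mul]
    exact Dvd.intro_left ((w : ℤ_[p]) * (1 : Matrix γ γ ℤ_[p]) r j) (by ring)
  choose Q hQ using hadj
  have h3 : A * Matrix.of Q = ((w : ℤ_[p]) * (p : ℤ_[p]) ^ e) • (1 : Matrix γ γ ℤ_[p]) := by
    have h4 : (p : ℤ_[p]) ^ (d - e) • (A * Matrix.of Q) =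
        (p : ℤ_[p]) ^ (d - e) • (((w : ℤ_[p]) * (p : ℤ_[p]) ^ e) • (1 : Matrix γ γ ℤ_[p])) := by
      have h5 : (p : ℤ_[p]) ^ (d - e) • (A * Matrix.of Q) = A * A.adjugate := by
        rw [← Matrix.mul_smul]
        congr 1
        ext i j
        rw [Matrix.smul_apply, Matrix.of_apply, smul_eq_mul, hQ]
      rw [h5, Matrix.mul_adjugate, hw, smul_smul]
      congr 1
      have : (p : ℤ_[p]) ^ d = (p : ℤ_[p]) ^ (d - e) * (p : ℤ_[p]) ^ e := by
        rw [← pow_add, Nat.sub_add_cancel hed]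
      rw [this]; ring
    ext i j
    have h6 := congrFun (congrFun h4 i) j
    simp only [Matrix.smul_apply, smul_eq_mul] at h6
    have h7 := mul_left_cancel₀ (pow_ne_zero _ hp0) h6
    simpa only [Matrix.smul_apply, smul_eq_mul] using h7
  have h4 := congrArg Matrix.det h3
  rw [Matrix.det_mul, Matrix.det_smul, Matrix.det_one, mul_one, mul_pow, ← pow_mul] at h4
  have h5 : (p : ℤ_[p]) ^ (e * Fintype.card γ + 1) ∣
      (w : ℤ_[p]) ^ Fintype.card γ * (p : ℤ_[p]) ^ (e * Fintype.card γ) := by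
    rw [← h4]; exact hdvd.mul_right _
  rw [pow_succ, mul_comm ((w : ℤ_[p]) ^ Fintype.card γ)] at h5
  have h6 := (mul_dvd_mul_iff_left (pow_ne_zero _ hp0)).1 h5
  exact hpn (isUnit_of_dvd_unit h6 ((Units.isUnit w).pow _))

end Gou

end
end

section

/-!
MP_602313_nt, module A, item L5.
-/

open scoped Polynomial
open Finset

noncomputable section

namespace Gou

namespace PL5

variable {p : ℕ} [Fact p.Prime]

theorem toZMod_eq_zero_iff (x : ℤ_[p]) : PadicInt.toZMod (p := p) x = 0 ↔ (p : ℤ_[p]) ∣ x := by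
  rw [← RingHom.mem_ker, PadicInt.ker_toZMod, PadicInt.maximalIdeal_eq_span_p,
    Ideal.mem_span_singleton]

theorem toZMod_surj : Function.Surjective (PadicInt.toZMod (p := p)) :=
  ZMod.ringHom_surjective _

/-- Independence mod `p` in terms of divisibility. -/
theorem indepMod_iff {γ : Type} {ν : ℕ} (v : Fin ν → γ → ℤ_[p]) :
    IndepMod p v ↔ ∀ c : Fin ν → ℤ_[p], (∀ k, (p : ℤ_[p]) ∣ ∑ i, c i * v i k) →
      ∀ i, (p : ℤ_[p]) ∣ c i := by
  unfold IndepMod
  rw [Fintype.linearIndependent_iff]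
  constructor
  · intro h c hc i
    rw [← toZMod_eq_zero_iff]
    refine h (fun i => PadicInt.toZMod (c i)) ?_ i
    funext k
    have := (toZMod_eq_zero_iff _).2 (hc k)
    rw [map_sum] at this
    simpa [Finset.sum_apply] using this
  · intro h g hg i
    choose c hc using fun i => toZMod_surj (p := p) (g i)
    have h1 := h c (fun k => ?_) i
    · rw [← hc i]
      exact (toZMod_eq_zero_iff _).2 h1
    · rw [← toZMod_eq_zero_iff, map_sum]
      have := congrFun hg k
      simpa [Finset.sum_apply, hc] using this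

/-- The same for polynomials. -/
theorem indepPoly {ν : ℕ} (y : Fin ν → ℤ_[p][X])
    (h : LinearIndependent (ZMod p) (fun i => (y i).map (PadicInt.toZMod (p := p))))
    (c : Fin ν → ℤ_[p]) (hc : ∀ k, (p : ℤ_[p]) ∣ ∑ i, c i * (y i).coeff k) :
    ∀ i, (p : ℤ_[p]) ∣ c i := by
  intro i
  rw [← toZMod_eq_zero_iff]
  rw [Fintype.linearIndependent_iff] at h
  refine h (fun i => PadicInt.toZMod (c i)) ?_ i
  ext k
  have := (toZMod_eq_zero_iff _).2 (hc k)
  rw [map_sum] at this
  simpa [Polynomial.finsetSum_coeff] using this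

/-- Part of a basis is independent mod `p`. -/
theorem indep_basis {γ : Type} [Finite γ] {ι : Type} (b : Module.Basis ι ℤ_[p] (γ → ℤ_[p]))
    {ν : ℕ} (f : Fin ν ↪ ι) : IndepMod p (fun i => b (f i)) := by
  rw [indepMod_iff]
  intro c hc i
  choose y hy using hc
  have h1 : ∑ i, c i • b (f i) = (p : ℤ_[p]) • y := by
    funext k
    simp only [Finset.sum_apply, Pi.smul_apply, smul_eq_mul]
    exact hy k
  have h2 := congrArg (fun z => b.repr z (f i)) h1
  simp only [map_sum, map_smul, Finsupp.coe_finsetSum, Finset.sum_apply, Finsupp.smul_apply,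
    Module.Basis.repr_self, smul_eq_mul] at h2
  rw [Finset.sum_eq_single i] at h2
  · rw [Finsupp.single_eq_same, mul_one] at h2
    exact ⟨_, h2⟩
  · intro j _ hj
    rw [Finsupp.single_eq_of_ne (fun h => hj (f.injective h).symm), mul_zero]
  · intro h
    exact absurd (Finset.mem_univ i) h

theorem pow_dvd_cancel {e h : ℕ} {a x : ℤ_[p]} (ha : ¬ (p : ℤ_[p]) ^ (e + 1) ∣ a)
    (hx : (p : ℤ_[p]) ^ (h + e) ∣ a * x) : (p : ℤ_[p]) ^ h ∣ x := by
  have hp : Prime (p : ℤ_[p]) := PadicInt.prime_p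
  rcases h with _ | m
  · simp
  · by_contra hc
    refine finiteMultiplicity_mul_aux hp ha hc ?_
    have : e + m + 1 = m + 1 + e := by ring
    rw [this]
    exact hx

/-- If no primitive relation exists mod `p^(e+1)`, the vectors are independent. -/
theorem linInd {γ : Type} {ν : ℕ} (e : ℕ) (v : Fin ν → γ → ℤ_[p])
    (h : ∀ c : Fin ν → ℤ_[p], (∀ k, (p : ℤ_[p]) ^ (e + 1) ∣ ∑ i, c i * v i k) →
      ∀ i, (p : ℤ_[p]) ∣ c i) : LinearIndependent ℤ_[p] v := by
  rw [Fintype.linearIndependent_iff]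
  have key : ∀ m : ℕ, ∀ g : Fin ν → ℤ_[p], ∑ i, g i • v i = 0 → ∀ i, (p : ℤ_[p]) ^ m ∣ g i := by
    intro m
    induction m with
    | zero => intro g _ i; simp
    | succ m ih =>
      intro g hg i
      have h1 : ∀ i, (p : ℤ_[p]) ∣ g i := by
        refine h g (fun k => ?_)
        have := congrFun hg k
        simp only [Finset.sum_apply, Pi.smul_apply, smul_eq_mul, Pi.zero_apply] at this
        rw [this]
        exact dvd_zero _
      choose g' hg' using h1
      have h2 : ∑ i, g' i • v i = 0 := by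
        have h3 : (p : ℤ_[p]) • ∑ i, g' i • v i = 0 := by
          rw [Finset.smul_sum, ← hg]
          refine Finset.sum_congr rfl fun i _ => ?_
          rw [hg' i, mul_smul]
        have hp0 : (p : ℤ_[p]) ≠ 0 := PadicInt.prime_p.ne_zero
        exact (smul_eq_zero.1 h3).resolve_left hp0
      have h4 := ih g' h2 i
      rw [hg' i, pow_succ, mul_comm]
      exact mul_dvd_mul_left _ h4
  intro g hg i
  by_contra hne
  obtain ⟨m, hm⟩ : ∃ m : ℕ, ¬ (p : ℤ_[p]) ^ m ∣ g i := by
    refine ⟨(g i).valuation + 1, fun hd => ?_⟩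
    rw [← Ideal.mem_span_singleton, PadicInt.mem_span_pow_iff_le_valuation _ hne] at hd
    omega
  exact hm (key m g hg i)

end PL5

open PL5

theorem prf_L5 (p : ℕ) [Fact p.Prime] : L5 p := by
  intro ρ γ _ _ A h e ν v hA hv
  classical
  have hli := linInd e v hv
  set N : Submodule ℤ_[p] (γ → ℤ_[p]) := Submodule.span ℤ_[p] (Set.range v) with hN
  let bv : Module.Basis (Fin ν) ℤ_[p] N := Module.Basis.span hli
  obtain ⟨n, snf⟩ := Submodule.smithNormalForm (Pi.basisFun ℤ_[p] γ) N
  have hn : n = ν := by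
    have h1 := Module.finrank_eq_card_basis bv
    have h2 := Module.finrank_eq_card_basis snf.bN
    rw [h1] at h2
    simpa using h2.symm
  subst hn
  have hp : Prime (p : ℤ_[p]) := PadicInt.prime_p
  -- every element of `N` is a combination of the `v_i`
  have hcomb : ∀ x ∈ N, ∃ c : Fin n → ℤ_[p], ∑ i, c i • v i = x := by
    intro x hx
    exact (Submodule.mem_span_range_iff_exists_fun ℤ_[p]).1 hx
  -- the invariant factors are not divisible by `p^(e+1)`
  have hfac : ∀ i, ¬ (p : ℤ_[p]) ^ (e + 1) ∣ snf.a i := by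
    intro i hd
    obtain ⟨c, hc⟩ := hcomb _ (snf.bN i).2
    have h1 : ∀ k, (p : ℤ_[p]) ^ (e + 1) ∣ ∑ j, c j * v j k := by
      intro k
      have h2 := congrFun hc k
      simp only [Finset.sum_apply, Pi.smul_apply, smul_eq_mul] at h2
      rw [h2, snf.snf i]
      simp only [Pi.smul_apply, smul_eq_mul]
      exact Dvd.dvd.mul_right hd _
    choose c' hc' using hv c h1
    let z : N := ∑ j, c' j • ⟨v j, Submodule.subset_span ⟨j, rfl⟩⟩
    have hz : snf.bN i = (p : ℤ_[p]) • z := by
      apply Subtype.ext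
      rw [← hc]
      simp only [z, Submodule.coe_smul, Submodule.coe_sum, Finset.smul_sum]
      refine Finset.sum_congr rfl fun j _ => ?_
      rw [hc' j, mul_smul]
    have h3 := congrArg (fun w => snf.bN.repr w i) hz
    simp only [Module.Basis.repr_self, map_smul, Finsupp.smul_apply, smul_eq_mul,
      Finsupp.single_eq_same] at h3
    exact hp.not_isUnit (IsUnit.of_mul_eq_one _ h3.symm)
  refine ⟨fun i => snf.bM (snf.f i), indep_basis snf.bM snf.f, ?_⟩
  intro i r
  obtain ⟨c, hc⟩ := hcomb _ (snf.bN i).2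
  have h1 : (p : ℤ_[p]) ^ (h + e) ∣ A.mulVec (snf.bN i : γ → ℤ_[p]) r := by
    rw [← hc, Matrix.mulVec_sum, Finset.sum_apply]
    refine Finset.dvd_sum fun j _ => ?_
    rw [Matrix.mulVec_smul]
    exact Dvd.dvd.mul_left (hA j r) _
  rw [snf.snf i, Matrix.mulVec_smul] at h1
  exact pow_dvd_cancel (hfac i) h1

end Gou

end
end

section

/-!
# M1: product of `MC` functions
-/

open scoped Polynomial
open Finset

noncomputable section

namespace Gou

/-- version with an integer `L` -/
def MCZ (p κ : ℕ) (L : ℤ) {R : Type} [CommRing R] (f : ℕ → R) : Prop :=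
  ∀ l m : ℕ, (p : R) ^ (((κ : ℤ) * (l : ℤ) - L).toNat) ∣ (fwdDiff (1 : ℕ))^[l] f m

theorem mcz_of_mc {p κ L : ℕ} {R : Type} [CommRing R] {f : ℕ → R} (h : MC p κ L f) :
    MCZ p κ (L : ℤ) f := by
  intro l m
  have e : (((κ : ℤ) * l - (L : ℤ)).toNat) = κ * l - L := by
    have : (κ : ℤ) * l = ((κ * l : ℕ) : ℤ) := by push_cast; rfl
    rw [this]; omega
  rw [e]; exact h l m

theorem mc_of_mcz {p κ L : ℕ} {R : Type} [CommRing R] {f : ℕ → R} (h : MCZ p κ (L : ℤ) f) :
    MC p κ L f := by
  intro l m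
  have e : (((κ : ℤ) * l - (L : ℤ)).toNat) = κ * l - L := by
    have : (κ : ℤ) * l = ((κ * l : ℕ) : ℤ) := by push_cast; rfl
    rw [this]; omega
  have := h l m
  rwa [e] at this

theorem mcz_mul {p κ : ℕ} {R : Type} [CommRing R] (l : ℕ) :
    ∀ (L L' : ℤ) (f g : ℕ → R), MCZ p κ L f → MCZ p κ L' g → ∀ m,
      (p : R) ^ (((κ : ℤ) * l - (L + L')).toNat) ∣
        (fwdDiff (1 : ℕ))^[l] (fun m => f m * g m) m := by
  induction l with
  | zero =>
    intro L L' f g hf hg m
    have h1 := hf 0 m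
    have h2 := hg 0 m
    simp only [Function.iterate_zero, id_eq, Nat.cast_zero, mul_zero, zero_sub] at h1 h2 ⊢
    refine dvd_trans ?_ (mul_dvd_mul h1 h2)
    rw [← pow_add]
    exact pow_dvd_pow _ (by omega)
  | succ l ih =>
    intro L L' f g hf hg m
    have hshift : ∀ {L : ℤ} {f : ℕ → R}, MCZ p κ L f → MCZ p κ L (fun m => f (m + 1)) := by
      intro L f hf l m
      have := hf l (m + 1)
      have e : (fwdDiff (1 : ℕ))^[l] (fun m => f (m + 1)) m =
          (fwdDiff (1 : ℕ))^[l] f (m + 1) := fwdDiff_iter_comp_add 1 f 1 l m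
      rwa [e]
    have hdiff : ∀ {L : ℤ} {f : ℕ → R}, MCZ p κ L f → MCZ p κ (L - κ) (fwdDiff (1 : ℕ) f) := by
      intro L f hf l m
      have := hf (l + 1) m
      rw [Function.iterate_succ_apply] at this
      have e : ((κ : ℤ) * ((l + 1 : ℕ) : ℤ) - L) = (κ : ℤ) * l - (L - κ) := by push_cast; ring
      rwa [e] at this
    have e1 : fwdDiff (1 : ℕ) (fun m => f m * g m) =
        (fun m => (fun m => f (m + 1)) m * fwdDiff (1 : ℕ) g m) +
          (fun m => fwdDiff (1 : ℕ) f m * g m) := by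
      funext m
      simp only [fwdDiff, Pi.add_apply]
      ring
    rw [Function.iterate_succ_apply, e1, fwdDiff_iter_add]
    have a1 := ih L (L' - κ) (fun m => f (m + 1)) (fwdDiff (1 : ℕ) g) (hshift hf) (hdiff hg) m
    have a2 := ih (L - κ) L' (fwdDiff (1 : ℕ) f) g (hdiff hf) hg m
    have e2 : ((κ : ℤ) * l - (L + (L' - κ))) = (κ : ℤ) * ((l + 1 : ℕ) : ℤ) - (L + L') := by
      push_cast; ring
    have e3 : ((κ : ℤ) * l - (L - κ + L')) = (κ : ℤ) * ((l + 1 : ℕ) : ℤ) - (L + L') := by
      push_cast; ring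
    rw [e2] at a1
    rw [e3] at a2
    exact dvd_add a1 a2

theorem prf_M1 (p : ℕ) : M1 p := by
  intro R _ κ L L' f g hf hg
  refine mc_of_mcz ?_
  intro l m
  have := mcz_mul (p := p) (κ := κ) l (L : ℤ) (L' : ℤ) f g (mcz_of_mc hf) (mcz_of_mc hg) m
  push_cast
  exact this

end Gou

end
end

section

/-!
# M2: closure properties of `MC`
-/

open scoped Polynomial
open Finset

noncomputable section

namespace Gou

theorem prf_M2 (p : ℕ) : M2 p := by
  intro R _ κ
  refine ⟨?_, ?_, ?_, ?_⟩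
  · intro c l m
    rcases l with _ | l
    · simp
    · have h0 : ∀ l : ℕ, (fwdDiff (1 : ℕ))^[l] (fun _ => (0 : R)) = fun _ => 0 := by
        intro l
        induction l with
        | zero => rfl
        | succ l ih => rw [Function.iterate_succ_apply, fwdDiff_const, ih]
      rw [Function.iterate_succ_apply, fwdDiff_const, h0]
      exact dvd_zero _
  · intro L L' f hL hf l m
    exact dvd_trans (pow_dvd_pow _ (by omega)) (hf l m)
  · intro L c f hf l m
    have e : (fwdDiff (1 : ℕ))^[l] (fun m => c * f m) = c • (fwdDiff (1 : ℕ))^[l] f := by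
      have : (fun m => c * f m) = c • f := rfl
      rw [this, fwdDiff_iter_const_smul]
    rw [e]
    exact Dvd.dvd.mul_left (hf l m) c
  · intro L ι S f hf l m
    have e : (fwdDiff (1 : ℕ))^[l] (fun m => ∑ i ∈ S, f i m) =
        ∑ i ∈ S, (fwdDiff (1 : ℕ))^[l] (f i) := by
      have : (fun m => ∑ i ∈ S, f i m) = ∑ i ∈ S, f i := by
        funext m; rw [Finset.sum_apply]
      rw [this, fwdDiff_iter_finsetSum]
    rw [e, Finset.sum_apply]
    exact Finset.dvd_sum fun i hi => hf i hi l m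

end Gou

end
end

section

/-!
# M3: finite products of `MC` functions
-/

open scoped Polynomial
open Finset

noncomputable section

namespace Gou

theorem prf_M3 (p : ℕ) (m1 : M1 p) (m2 : M2 p) : M3 p := by
  classical
  intro R _ κ ι S L f
  induction S using Finset.induction_on with
  | empty =>
    intro _
    simp only [Finset.sum_empty, Finset.prod_empty]
    exact (m2 R κ).1 1
  | insert a S ha ih =>
    intro h
    rw [Finset.sum_insert ha]
    have e : (fun m => ∏ i ∈ insert a S, f i m) = fun m => f a m * ∏ i ∈ S, f i m := by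
      funext m; rw [Finset.prod_insert ha]
    rw [e]
    exact m1 R κ _ _ _ _ (h a (Finset.mem_insert_self _ _))
      (ih fun i hi => h i (Finset.mem_insert_of_mem hi))

end Gou

end
end

section

/-!
# M4: powers of a unit
-/

open scoped Polynomial
open Finset

noncomputable section

namespace Gou

theorem m4_unit (p : ℕ) [Fact p.Prime] (u : ℤ) (hu : ¬ (p : ℤ) ∣ u) :
    (p : ℤ) ^ kap p ∣ u ^ qq p - 1 := by
  unfold kap qq
  by_cases hp : p = 2
  · subst hp
    simp only [if_true]
    have h1 : u % 2 = 1 := by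
      have : ¬ (2 : ℤ) ∣ u := by exact_mod_cast hu
      omega
    obtain ⟨k, hk⟩ : ∃ k, u = 2 * k + 1 := ⟨u / 2, by omega⟩
    refine ⟨k ^ 2 + k, ?_⟩
    rw [hk]; push_cast; ring
  · rw [if_neg hp, if_neg hp, pow_one]
    have h1 : ((u : ZMod p)) ^ (p - 1) = 1 := by
      apply ZMod.pow_card_sub_one_eq_one
      rw [Ne, ZMod.intCast_zmod_eq_zero_iff_dvd]
      exact hu
    have h2 : (((u ^ (p - 1) - 1 : ℤ)) : ZMod p) = 0 := by
      push_cast; rw [h1, sub_self]
    exact (ZMod.intCast_zmod_eq_zero_iff_dvd _ _).1 h2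

theorem m4_iter {R : Type} [CommRing R] (u : R) (x0 q : ℕ) (l : ℕ) : ∀ c : R,
    (fwdDiff (1 : ℕ))^[l] (fun m => c * u ^ (x0 + q * m)) =
      fun m => c * (u ^ q - 1) ^ l * u ^ (x0 + q * m) := by
  induction l with
  | zero => intro c; funext m; simp
  | succ l ih =>
    intro c
    rw [Function.iterate_succ_apply]
    have e : fwdDiff (1 : ℕ) (fun m => c * u ^ (x0 + q * m)) =
        fun m => (c * (u ^ q - 1)) * u ^ (x0 + q * m) := by
      funext m
      simp only [fwdDiff]
      have : x0 + q * (m + 1) = x0 + q * m + q := by ring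
      rw [this, pow_add]
      ring
    rw [e, ih]
    funext m
    ring

theorem prf_M4 (p : ℕ) [Fact p.Prime] : M4 p := by
  intro u x0 hu l m
  have e : (fun m => ((u : ℤ) : ℤ_[p]) ^ (x0 + qq p * m)) =
      fun m => (1 : ℤ_[p]) * ((u : ℤ) : ℤ_[p]) ^ (x0 + qq p * m) := by
    funext m; rw [one_mul]
  rw [e, m4_iter]
  simp only [one_mul, Nat.sub_zero]
  refine Dvd.dvd.mul_right ?_ _
  rw [pow_mul]
  refine pow_dvd_pow_of_dvd ?_ l
  obtain ⟨k, hk⟩ := m4_unit p u hu
  refine ⟨((k : ℤ) : ℤ_[p]), ?_⟩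
  have := congrArg (fun z : ℤ => (z : ℤ_[p])) hk
  push_cast at this
  exact this

end Gou

end
end

section

/-! M5: binomial coefficients (helper90). -/

open scoped Polynomial
open Finset

noncomputable section

namespace Gou

open Polynomial in
private lemma m5_iter (q x0 l : ℕ) : ∀ m : ℕ,
    (fwdDiff (1 : ℕ))^[l] (fun m : ℕ => ((1 + X : ℤ[X]) ^ (x0 + q * m))) m =
      (1 + X) ^ (x0 + q * m) * ((1 + X) ^ q - 1) ^ l := by
  induction l with
  | zero => intro m; simp
  | succ l ih =>
    intro m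
    rw [Function.iterate_succ_apply', fwdDiff, ih, ih, show x0 + q * (m + 1) = x0 + q * m + q by ring]
    ring

open Polynomial in
private lemma m5_coeff (r l : ℕ) : ∀ (F : ℕ → ℤ[X]) (m : ℕ),
    (fwdDiff (1 : ℕ))^[l] (fun m : ℕ => (((F m).coeff r : ℤ))) m =
      ((fwdDiff (1 : ℕ))^[l] F m).coeff r := by
  induction l with
  | zero => intro F m; simp
  | succ l ih =>
    intro F m
    rw [Function.iterate_succ_apply', fwdDiff, ih, ih, Function.iterate_succ_apply', fwdDiff,
      coeff_sub]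

private lemma m5_cast {R : Type*} [CommRing R] (l : ℕ) : ∀ (f : ℕ → ℤ) (m : ℕ),
    (fwdDiff (1 : ℕ))^[l] (fun m : ℕ => ((f m : ℤ) : R)) m =
      (((fwdDiff (1 : ℕ))^[l] f m : ℤ) : R) := by
  induction l with
  | zero => intro F m; simp
  | succ l ih =>
    intro F m
    rw [Function.iterate_succ_apply', fwdDiff, ih, ih, Function.iterate_succ_apply', fwdDiff,
      Int.cast_sub]

open Polynomial in
private lemma m5_dvd (p : ℕ) [Fact p.Prime] (N l r : ℕ) :
    (p : ℤ) ^ (kap p * l - r) ∣ (((1 + X : ℤ[X]) ^ N) * ((1 + X) ^ (qq p) - 1) ^ l).coeff r := by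
  have hX : (X : ℤ[X]) ∣ (1 + X) ^ (qq p) - 1 := by
    have := sub_dvd_pow_sub_pow (1 + X : ℤ[X]) 1 (qq p)
    simpa using this
  by_cases hrl : r < l
  · obtain ⟨G, hG⟩ := hX
    rw [hG, mul_pow, mul_left_comm, coeff_X_pow_mul', if_neg (by omega)]
    exact dvd_zero _
  rw [not_lt] at hrl
  by_cases hp : p = 2
  · subst hp
    have h2 : ((1 + X : ℤ[X]) ^ (qq 2) - 1) = X * (X + C 2) := by
      simp only [qq, if_true]
      have : (C 2 : ℤ[X]) = 2 := by simp
      rw [this]; ring
    rw [h2, mul_pow, mul_left_comm, coeff_X_pow_mul', if_pos hrl, coeff_mul]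
    refine dvd_sum fun x hx => ?_
    rw [HasAntidiagonal.mem_antidiagonal] at hx
    rw [coeff_X_add_C_pow]
    refine Dvd.dvd.mul_left (Dvd.dvd.mul_right ?_ _) _
    simp only [kap, if_true]
    refine pow_dvd_pow _ ?_
    omega
  · simp only [kap, if_neg hp]
    rw [show 1 * l - r = 0 by omega, pow_zero]
    exact one_dvd _

theorem prf_M5 (p : ℕ) [Fact p.Prime] : M5 p := by
  intro x0 r l m
  have h1 : (fun m : ℕ => (((x0 + qq p * m).choose r : ℕ) : ℤ_[p])) =
      fun m : ℕ => (((fun m : ℕ => (((fun m : ℕ =>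
        ((1 + Polynomial.X : ℤ[X]) ^ (x0 + qq p * m))) m).coeff r : ℤ)) m : ℤ) : ℤ_[p]) := by
    funext m
    simp [Polynomial.coeff_one_add_X_pow]
  rw [h1, m5_cast, m5_coeff, m5_iter]
  have h2 := m5_dvd p (x0 + qq p * m) l r
  have h3 := (Int.castRingHom ℤ_[p]).map_dvd h2
  simpa using h3

end Gou

end
end

section

/-!
M6: decomposition of the entries.
-/

open scoped Polynomial
open Finset

noncomputable section

namespace Gou

/-- Vandermonde. -/
theorem vand_sub (x a i : ℕ) (h : a ≤ x) :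
    (((x - a).choose i : ℕ) : ℤ) =
      ∑ r ∈ range (i + 1), ((x.choose r : ℕ) : ℤ) * Ring.choose (-(a : ℤ)) (i - r) := by
  have h1 : ((x - a : ℕ) : ℤ) = (x : ℤ) + (-(a : ℤ)) := by push_cast [Nat.cast_sub h]; ring
  have h2 := Ring.choose_natCast (R := ℤ) (x - a) i
  rw [← h2, h1, Ring.add_choose_eq i (Commute.all _ _),
    Finset.Nat.sum_antidiagonal_eq_sum_range_succ
      (fun r j => Ring.choose (x : ℤ) r * Ring.choose (-(a : ℤ)) j)]
  refine Finset.sum_congr rfl fun r _ => ?_
  rw [Ring.choose_natCast]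

/-- `c - b` in `ℤ_p` -/
def uu (p : ℕ) (b c : Fin p) : ℤ := ((c : ℕ) : ℤ) - ((b : ℕ) : ℤ)

theorem uu_not_dvd {p : ℕ} (b c : Fin p) (h : b ≠ c) : ¬ (p : ℤ) ∣ uu p b c := by
  intro hd
  apply h
  have h1 : |uu p b c| < p := by
    have hb := b.2
    have hc := c.2
    rw [abs_lt]
    unfold uu
    constructor <;> omega
  have h2 : uu p b c = 0 := Int.eq_zero_of_abs_lt_dvd hd h1
  unfold uu at h2
  apply Fin.ext
  omega

/-- the inverse of `c - b` -/
def ui (p : ℕ) [Fact p.Prime] (b c : Fin p) : ℤ_[p] := ((uu p b c : ℤ) : ℤ_[p]).inv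

theorem uu_mul_ui {p : ℕ} [Fact p.Prime] (b c : Fin p) (h : b ≠ c) :
    ((uu p b c : ℤ) : ℤ_[p]) * ui p b c = 1 := by
  apply PadicInt.mul_inv
  by_contra hne
  have h1 : ‖((uu p b c : ℤ) : ℤ_[p])‖ < 1 := lt_of_le_of_ne (PadicInt.norm_le_one _) hne
  exact uu_not_dvd b c h ((PadicInt.norm_int_lt_one_iff_dvd _).1 h1)

def M6G (p : ℕ) [Fact p.Prime] : Node p → Node p → ℕ → ℕ → ℤ_[p]
  | some b, some c, r, x =>
      if b = c then 0 else
        ((x.choose r : ℕ) : ℤ_[p]) * ((uu p b c : ℤ) : ℤ_[p]) ^ x * ui p b c ^ r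
  | some _, none, r, _ => if r = 0 then 1 else 0
  | none, some c, r, x => ((x.choose r : ℕ) : ℤ_[p]) * (((c : ℕ) : ℤ) : ℤ_[p]) ^ r
  | none, none, _, _ => 0

def M6W (p : ℕ) [Fact p.Prime] : Node p → Node p → ℕ → ℕ → ℤ_[p]
  | some b, some c, j, a => ((Ring.choose (-(a : ℤ)) j : ℤ) : ℤ_[p]) * ui p b c ^ (a + j)
  | some b, none, j, a => ((a.choose j : ℕ) : ℤ_[p]) * (((-((b : ℕ) : ℤ)) : ℤ) : ℤ_[p]) ^ (a - j)
  | none, some c, j, a =>
      if a ≤ j then ((Ring.choose (-(a : ℤ)) (j - a) : ℤ) : ℤ_[p])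
        * (((c : ℕ) : ℤ) : ℤ_[p]) ^ (j - a) else 0
  | none, none, _, _ => 0

theorem M6W_some_some (p : ℕ) [Fact p.Prime] (b c : Fin p) (j a : ℕ) :
    M6W p (some b) (some c) j a
      = ((Ring.choose (-(a : ℤ)) j : ℤ) : ℤ_[p]) * ui p b c ^ (a + j) := rfl

theorem M6W_some_none (p : ℕ) [Fact p.Prime] (b : Fin p) (j a : ℕ) :
    M6W p (some b) none j a
      = ((a.choose j : ℕ) : ℤ_[p]) * (((-((b : ℕ) : ℤ)) : ℤ) : ℤ_[p]) ^ (a - j) := rfl

theorem M6W_none_some (p : ℕ) [Fact p.Prime] (c : Fin p) (j a : ℕ) :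
    M6W p none (some c) j a
      = if a ≤ j then ((Ring.choose (-(a : ℤ)) (j - a) : ℤ) : ℤ_[p])
        * (((c : ℕ) : ℤ) : ℤ_[p]) ^ (j - a) else 0 := rfl

theorem M6_mc (p : ℕ) [Fact p.Prime] (m1 : M1 p) (m2 : M2 p) (m4 : M4 p) (m5 : M5 p)
    (b c : Node p) (r x0 : ℕ) : MC p (kap p) r (fun m => M6G p b c r (x0 + qq p * m)) := by
  obtain ⟨c1, c2, c3, -⟩ := m2 ℤ_[p] (kap p)
  have hconst : ∀ z : ℤ_[p], MC p (kap p) r (fun _ => z) := fun z =>
    c2 0 r _ (Nat.zero_le _) (c1 z)
  cases b with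
  | some b =>
    cases c with
    | some c =>
      simp only [M6G]
      by_cases hbc : b = c
      · simp only [hbc, if_true]
        exact hconst 0
      · simp only [hbc, if_false]
        have h1 := m5 x0 r
        have h2 := m4 (uu p b c) x0 (uu_not_dvd b c hbc)
        have h3 := m1 ℤ_[p] (kap p) r 0 _ _ h1 h2
        have h4 := c3 (r + 0) (ui p b c ^ r) _ h3
        simp only [add_zero] at h4
        convert h4 using 2
        ring
    | none =>
      simp only [M6G]
      exact hconst _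
  | none =>
    cases c with
    | some c =>
      simp only [M6G]
      have h4 := c3 r ((((c : ℕ) : ℤ) : ℤ_[p]) ^ r) _ (m5 x0 r)
      convert h4 using 2
      ring
    | none =>
      simp only [M6G]
      exact hconst 0

theorem cast_vand (p : ℕ) [Fact p.Prime] (x a i : ℕ) (h : a ≤ x) :
    (((x - a).choose i : ℕ) : ℤ_[p]) =
      ∑ r ∈ range (i + 1), ((x.choose r : ℕ) : ℤ_[p]) *
        ((Ring.choose (-(a : ℤ)) (i - r) : ℤ) : ℤ_[p]) := by
  have := congrArg (fun z : ℤ => (z : ℤ_[p])) (vand_sub x a i h)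
  simp only [Int.cast_natCast] at this
  rw [this]
  push_cast
  rfl

theorem M6_eq (p : ℕ) [Fact p.Prime] (x i a : ℕ) (b c : Node p) (hbc : b ≠ c) (hax : a ≤ x) :
    ((ent x b i c a : ℤ) : ℤ_[p]) = ∑ r ∈ range (i + 1), M6G p b c r x * M6W p b c (i - r) a := by
  cases b with
  | some b =>
    cases c with
    | some c =>
      have hbc' : b ≠ c := fun h => hbc (by rw [h])
      have hu := uu_mul_ui b c hbc'
      simp only [ent, M6G, M6W_some_some, hbc', if_false]
      push_cast
      have e1 : ∀ r ∈ range (i + 1),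
          ((x.choose r : ℕ) : ℤ_[p]) * ((uu p b c : ℤ) : ℤ_[p]) ^ x * ui p b c ^ r *
            (((Ring.choose (-(a : ℤ)) (i - r) : ℤ) : ℤ_[p]) * ui p b c ^ (a + (i - r)))
          = (((x.choose r : ℕ) : ℤ_[p]) * ((Ring.choose (-(a : ℤ)) (i - r) : ℤ) : ℤ_[p])) *
            (((uu p b c : ℤ) : ℤ_[p]) ^ x * ui p b c ^ (a + i)) := by
        intro r hr
        have hr' : r ≤ i := by
          have := Finset.mem_range.1 hr
          omega
        have : a + i = r + (a + (i - r)) := by omega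
        rw [this, pow_add (ui p b c) r]
        ring
      rw [Finset.sum_congr rfl e1, ← Finset.sum_mul, ← cast_vand p x a i hax]
      by_cases hi : i ≤ x - a
      · congr 1
        have hx : x = (x - a - i) + (a + i) := by omega
        conv_rhs => rw [hx]
        rw [pow_add, mul_assoc, ← mul_pow, hu, one_pow, mul_one]
        simp [uu]
      · have : (x - a).choose i = 0 := Nat.choose_eq_zero_of_lt (by omega)
        rw [this]
        simp
    | none =>
      simp only [ent, M6G, M6W_some_none]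
      rw [Finset.sum_eq_single 0]
      · simp
      · intro r _ hr
        simp [hr]
      · intro h
        exact absurd (Finset.mem_range.2 (Nat.succ_pos i)) h
  | none =>
    cases c with
    | some c =>
      simp only [ent, M6G, M6W_none_some]
      by_cases hai : a ≤ i
      · simp only [hai, if_true]
        push_cast
        rw [cast_vand p x a (i - a) hax, Finset.sum_mul]
        have hsub : range (i - a + 1) ⊆ range (i + 1) := by
          intro r hr
          rw [Finset.mem_range] at hr ⊢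
          omega
        rw [← Finset.sum_subset hsub]
        · refine Finset.sum_congr rfl fun r hr => ?_
          have hr' : r ≤ i - a := by
            have := Finset.mem_range.1 hr
            omega
          have h1 : a ≤ i - r := by omega
          have h2 : i - r - a = i - a - r := by omega
          rw [if_pos h1, h2]
          have h3 : i - a = r + (i - a - r) := by omega
          conv_lhs => rw [h3, pow_add]
          have h4 : r + (i - a - r) - r = i - a - r := by omega
          rw [h4]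
          push_cast
          ring
        · intro r hr hr2
          have h1 : ¬ a ≤ i - r := by
            rw [Finset.mem_range] at hr hr2
            omega
          rw [if_neg h1, mul_zero]
      · simp only [hai, if_false]
        rw [Int.cast_zero]
        symm
        refine Finset.sum_eq_zero fun r _ => ?_
        have h1 : ¬ a ≤ i - r := by omega
        rw [if_neg h1, mul_zero]
    | none => exact absurd rfl hbc

theorem prf_M6 (p : ℕ) [Fact p.Prime] (m1 : M1 p) (m2 : M2 p) (m4 : M4 p) (m5 : M5 p) : M6 p :=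
  ⟨M6G p, M6W p, fun b c r x0 => M6_mc p m1 m2 m4 m5 b c r x0,
    fun x i a b c hbc hax => M6_eq p x i a b c hbc hax⟩

end Gou

end
end

section

/-! M7: the sum of the second components of `s` distinct pairs. -/

open Finset

namespace Gou

theorem M7_aux (p : ℕ) (X : Type) [Fintype X] (hX : Fintype.card X ≤ p) :
    ∀ (s : ℕ) (A : Finset (X × ℕ)), A.card = s → ∑ i ∈ range s, i / p ≤ ∑ a ∈ A, a.2 := by
  classical
  intro s
  induction s with
  | zero => intro A _; simp
  | succ s ih =>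
    intro A hA
    have hne : A.Nonempty := by
      rw [← Finset.card_pos]; omega
    obtain ⟨a, haA, hmax⟩ := Finset.exists_max_image A (fun a => a.2) hne
    have hsub : A ⊆ (Finset.univ : Finset X) ×ˢ range (a.2 + 1) := by
      intro b hb
      simp only [Finset.mem_product, Finset.mem_univ, true_and, Finset.mem_range]
      have := hmax b hb
      omega
    have hcard := Finset.card_le_card hsub
    rw [Finset.card_product, Finset.card_univ, Finset.card_range, hA] at hcard
    have h1 : s + 1 ≤ p * (a.2 + 1) := hcard.trans (Nat.mul_le_mul_right _ hX)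
    have hdiv : s / p ≤ a.2 := by
      have h2 : s / p < a.2 + 1 := Nat.div_lt_of_lt_mul (by omega)
      omega
    have hE : (A.erase a).card = s := by
      rw [Finset.card_erase_of_mem haA, hA]; rfl
    have := ih (A.erase a) hE
    rw [Finset.sum_range_succ, ← Finset.sum_erase_add A _ haA]
    exact Nat.add_le_add this hdiv

theorem prf_M7 : M7 := by
  classical
  intro p s X _ hX c j hinj
  have h := M7_aux p X hX s (Finset.univ.image (fun i => (c i, j i)))
    (by rw [Finset.card_image_of_injective _ hinj, Finset.card_univ, Fintype.card_fin])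
  rwa [Finset.sum_image (fun a _ b _ hab => hinj hab)] at h

end Gou

end
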