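import Pool.Agent.Work.MP_602313_nt.Bd.B01

/-! Bundle of small proof modules (one section per former module). -/

section

/-! M8: Mahler coefficients of the determinant (MP_602313_nt). -/

open scoped Polynomial
open Finset

noncomputable section

namespace Gou

/-- allowed pairs `(c, r)` for the row `(b, i)` -/
def pm8S (p s : ℕ) (ri : Idx p s) : Finset (Node p × Fin s) :=
  univ.filter (fun t => t.1 ≠ ri.1 ∧ t.2 ≤ ri.2)

theorem pm8_row (p : ℕ) [hp : Fact p.Prime] (G W : Node p → Node p → ℕ → ℕ → ℤ_[p])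
    (h : ∀ (x i a : ℕ) (b c : Node p), b ≠ c → a ≤ x →
      ((ent x b i c a : ℤ) : ℤ_[p]) = ∑ r ∈ range (i + 1), G b c r x * W b c (i - r) a)
    (s x : ℕ) (hs : s ≤ x) (ri cc : Idx p s) :
    NMp p s x ri cc = ∑ t ∈ pm8S p s ri, G ri.1 t.1 t.2 x *
      (if cc.1 = t.1 then W ri.1 t.1 ((ri.2 : ℕ) - (t.2 : ℕ)) cc.2 else 0) := by
  obtain ⟨b, i⟩ := ri
  obtain ⟨c, a⟩ := cc
  have h1 : ∑ t ∈ pm8S p s (b, i), G b t.1 t.2 x *
      (if c = t.1 then W b t.1 ((i : ℕ) - (t.2 : ℕ)) a else 0) =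
      ∑ d : Node p, if d = c then (∑ r : Fin s, if (d ≠ b ∧ r ≤ i) then
        G b d r x * W b d ((i : ℕ) - (r : ℕ)) a else 0) else 0 := by
    rw [pm8S, Finset.sum_filter, Fintype.sum_prod_type]
    refine Finset.sum_congr rfl fun d _ => ?_
    by_cases hd : d = c
    · subst hd
      rw [if_pos rfl]
      refine Finset.sum_congr rfl fun r _ => ?_
      simp
    · rw [if_neg hd]
      apply Finset.sum_eq_zero
      intro r _
      have hd' : ¬ c = d := fun h => hd h.symm
      simp [hd']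
  show NMp p s x (b, i) (c, a) = ∑ t ∈ pm8S p s (b, i), G b t.1 t.2 x *
      (if c = t.1 then W b t.1 ((i : ℕ) - (t.2 : ℕ)) a else 0)
  rw [h1, Finset.sum_ite_eq' univ c, if_pos (mem_univ _)]
  by_cases hbc : b = c
  · subst hbc
    have h2 : NMp p s x (b, i) (b, a) = 0 := by
      show ((ent x b i b a : ℤ) : ℤ_[p]) = 0
      cases b <;> simp [ent]
    rw [h2]
    symm
    apply Finset.sum_eq_zero
    intro r _
    simp
  · have h2 : NMp p s x (b, i) (c, a) = ((ent x b i c a : ℤ) : ℤ_[p]) := rfl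
    rw [h2, h x i a b c hbc (le_trans a.2.le hs)]
    have h3 : (∑ r : Fin s, if (c ≠ b ∧ r ≤ i) then
        G b c r x * W b c ((i : ℕ) - (r : ℕ)) a else 0) =
        ∑ r ∈ range s, if r ≤ (i : ℕ) then G b c r x * W b c ((i : ℕ) - r) a else 0 := by
      rw [← Fin.sum_univ_eq_sum_range (fun r => if r ≤ (i : ℕ) then
        G b c r x * W b c ((i : ℕ) - r) a else 0) s]
      refine Finset.sum_congr rfl fun r _ => ?_
      have hcb : c ≠ b := fun h => hbc h.symm
      simp only [ne_eq, hcb, not_false_eq_true, true_and]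
      rfl
    rw [h3, ← Finset.sum_filter]
    refine Finset.sum_congr ?_ fun _ _ => rfl
    ext r
    simp only [mem_filter, mem_range]
    have := i.2
    omega

theorem prf_DetMC (p : ℕ) [hp : Fact p.Prime] (m2 : M2 p) (m3 : M3 p) (m6 : M6 p) (m7 : M7)
    (_m1 : M1 p) : DetMC p := by
  intro s x0 hs
  obtain ⟨G, W, hG, hW⟩ := m6
  obtain ⟨mc, mmono, mmul, msum⟩ := m2 ℤ_[p] (kap p)
  -- the constant vectors
  let w : Idx p s → (Node p × Fin s) → (Idx p s → ℤ_[p]) := fun ri t cc =>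
    if cc.1 = t.1 then W ri.1 t.1 ((ri.2 : ℕ) - (t.2 : ℕ)) cc.2 else 0
  have hdet : ∀ x, s ≤ x → ((DD p s x : ℤ) : ℤ_[p]) =
      ∑ φ ∈ Fintype.piFinset (pm8S p s), Matrix.det (Matrix.of fun ri => w ri (φ ri)) *
        ∏ ri : Idx p s, G ri.1 (φ ri).1 (φ ri).2 x := by
    intro x hx
    have h1 : ((DD p s x : ℤ) : ℤ_[p]) = (NMp p s x).det := by
      rw [DD, ← eq_intCast (Int.castRingHom ℤ_[p]), RingHom.map_det]
      rfl
    have h2 : NMp p s x = Matrix.of fun ri => ∑ t ∈ pm8S p s ri, G ri.1 t.1 t.2 x • w ri t := by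
      ext ri cc
      rw [pm8_row p G W hW s x hx ri cc, Matrix.of_apply, Finset.sum_apply]
      rfl
    rw [h1, h2]
    have h3 := (Matrix.detRowAlternating (n := Idx p s) (R := ℤ_[p])).toMultilinearMap.map_sum_finset
      (fun ri t => G ri.1 t.1 t.2 x • w ri t) (pm8S p s)
    have h4 : Matrix.det (Matrix.of fun ri => ∑ t ∈ pm8S p s ri, G ri.1 t.1 t.2 x • w ri t) =
      ∑ φ ∈ Fintype.piFinset (pm8S p s),
        (Matrix.detRowAlternating (n := Idx p s) (R := ℤ_[p])).toMultilinearMap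
          (fun ri => G ri.1 (φ ri).1 (φ ri).2 x • w ri (φ ri)) := h3
    rw [h4]
    refine Finset.sum_congr rfl fun φ _ => ?_
    have h5 := (Matrix.detRowAlternating (n := Idx p s) (R := ℤ_[p])).toMultilinearMap.map_smul_univ
      (fun ri => G ri.1 (φ ri).1 (φ ri).2 x) (fun ri => w ri (φ ri))
    rw [h5, smul_eq_mul, mul_comm]
    rfl
  have hfun : (fun m => ((DD p s (x0 + qq p * m) : ℤ) : ℤ_[p])) = fun m =>
      ∑ φ ∈ Fintype.piFinset (pm8S p s), (Matrix.det (Matrix.of fun ri => w ri (φ ri)) *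
        ∏ ri : Idx p s, G ri.1 (φ ri).1 (φ ri).2 (x0 + qq p * m)) := by
    funext m
    exact hdet _ (le_trans hs (Nat.le_add_right _ _))
  rw [hfun]
  apply msum
  intro φ hφ
  rw [Fintype.mem_piFinset] at hφ
  have hφ' : ∀ b i, (φ (b, i)).1 ≠ b ∧ (φ (b, i)).2 ≤ i := by
    intro b i
    have := hφ (b, i)
    rw [pm8S, mem_filter] at this
    exact this.2
  by_cases hinj : ∀ b : Node p, Function.Injective
      (fun i : Fin s => ((φ (b, i)).1, (i : ℕ) - ((φ (b, i)).2 : ℕ)))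
  · apply mmul
    have hL : ∑ ri : Idx p s, ((φ ri).2 : ℕ) ≤ lam p s := by
      rw [Fintype.sum_prod_type]
      have hb : ∀ b : Node p, ∑ i : Fin s, ((φ (b, i)).2 : ℕ) ≤ ∑ i ∈ range s, (i - i / p) := by
        intro b
        have hcard : Fintype.card {c : Node p // c ≠ b} ≤ p := by
          rw [Fintype.card_subtype_compl]
          simp
        have h7 := m7 p s {c : Node p // c ≠ b} hcard (fun i => ⟨(φ (b, i)).1, (hφ' b i).1⟩)
          (fun i => (i : ℕ) - ((φ (b, i)).2 : ℕ)) (by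
            intro i i' hii
            apply hinj b
            simp only [Prod.mk.injEq, Subtype.mk.injEq] at hii ⊢
            exact hii)
        have h8 : ∑ i : Fin s, ((i : ℕ) - ((φ (b, i)).2 : ℕ)) + ∑ i : Fin s, ((φ (b, i)).2 : ℕ) =
            ∑ i ∈ range s, i := by
          rw [← Finset.sum_add_distrib, ← Fin.sum_univ_eq_sum_range (fun i => i) s]
          refine Finset.sum_congr rfl fun i _ => ?_
          have h9 : ((φ (b, i)).2 : ℕ) ≤ (i : ℕ) := (hφ' b i).2
          omega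
        have h10 : ∑ i ∈ range s, (i - i / p) + ∑ i ∈ range s, i / p = ∑ i ∈ range s, i := by
          rw [← Finset.sum_add_distrib]
          refine Finset.sum_congr rfl fun i _ => ?_
          exact Nat.sub_add_cancel (Nat.div_le_self i p)
        omega
      calc ∑ b : Node p, ∑ i : Fin s, ((φ (b, i)).2 : ℕ)
          ≤ ∑ _b : Node p, ∑ i ∈ range s, (i - i / p) := Finset.sum_le_sum fun b _ => hb b
        _ = lam p s := by
          rw [Finset.sum_const, Finset.card_univ, Fintype.card_option, Fintype.card_fin, lam,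
            smul_eq_mul]
    refine mmono _ _ _ hL ?_
    exact m3 ℤ_[p] (kap p) (Idx p s) univ (fun ri => ((φ ri).2 : ℕ))
      (fun ri m => G ri.1 (φ ri).1 (φ ri).2 (x0 + qq p * m)) fun ri _ => hG _ _ _ _
  · -- two equal rows
    push Not at hinj
    obtain ⟨b, hb⟩ := hinj
    rw [Function.Injective] at hb
    push Not at hb
    obtain ⟨i, i', hii, hne⟩ := hb
    simp only [Prod.mk.injEq] at hii
    have h0 : Matrix.det (Matrix.of fun ri => w ri (φ ri)) = 0 := by
      apply Matrix.det_zero_of_row_eq (i := (b, i)) (j := (b, i'))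
      · intro h
        exact hne (Prod.mk.injEq _ _ _ _ ▸ h).2
      · funext cc
        show (if cc.1 = (φ (b, i)).1 then W b (φ (b, i)).1 ((i : ℕ) - ((φ (b, i)).2 : ℕ)) cc.2 else 0)
          = (if cc.1 = (φ (b, i')).1 then W b (φ (b, i')).1 ((i' : ℕ) - ((φ (b, i')).2 : ℕ)) cc.2 else 0)
        rw [hii.1, hii.2]
    have h1 : (fun m => Matrix.det (Matrix.of fun ri => w ri (φ ri)) *
        ∏ ri : Idx p s, G ri.1 (φ ri).1 (φ ri).2 (x0 + qq p * m)) = fun _ => (0 : ℤ_[p]) := by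
      funext m
      rw [h0, zero_mul]
    rw [h1]
    exact mmono 0 _ _ (Nat.zero_le _) (mc 0)

end Gou

end
end

section

/-!
T1: transfer to the next weight.
-/

open scoped Polynomial
open Finset

noncomputable section

namespace Gou

/-- The shift on vectors: `v2 (some c, a) = v (some c, a+1)`, `v2 (none, a) = v (none, a)`. -/
def shiftV {p s : ℕ} {R : Type} [Zero R] (v : Idx p s → R) : Idx p s → R := fun k =>
  match k.1 with
  | some c => if h : (k.2 : ℕ) + 1 < s then v (some c, ⟨(k.2 : ℕ) + 1, h⟩) else 0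
  | none => v (none, k.2)

theorem shiftV_some {p s : ℕ} {R : Type} [Zero R] (v : Idx p s → R) (c : Fin p) (a : Fin s) :
    shiftV v (some c, a) = if h : (a : ℕ) + 1 < s then v (some c, ⟨(a : ℕ) + 1, h⟩) else 0 := rfl

theorem shiftV_none {p s : ℕ} {R : Type} [Zero R] (v : Idx p s → R) (a : Fin s) :
    shiftV v (none, a) = v (none, a) := rfl

/-- the shift as a linear map -/
def shiftL (p s : ℕ) (R : Type) [CommRing R] : (Idx p s → R) →ₗ[R] (Idx p s → R) where
  toFun := shiftV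
  map_add' v w := by
    funext ⟨c, a⟩
    cases c with
    | none => simp [shiftV_none]
    | some c =>
      simp only [shiftV_some, Pi.add_apply]
      split_ifs <;> simp
  map_smul' r v := by
    funext ⟨c, a⟩
    cases c with
    | none => simp [shiftV_none]
    | some c =>
      simp only [shiftV_some, Pi.smul_apply, RingHom.id_apply]
      split_ifs <;> simp

theorem ent_shift_some {p : ℕ} (x : ℕ) (b : Fin p) (i : ℕ) (c : Fin p) (a : ℕ) :
    ent (x + 1) (some b) i (some c) (a + 1) = ent x (some b) i (some c) a := by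
  simp only [ent, Nat.add_sub_add_right]

theorem ent_shift_none {p : ℕ} (x : ℕ) (i : ℕ) (c : Fin p) (a : ℕ) :
    ent (x + 1) (none : Node p) (i + 1) (some c) (a + 1) = ent x (none : Node p) i (some c) a := by
  simp only [ent, Nat.add_sub_add_right, Nat.add_le_add_iff_right]

/-- sum over `Fin s` of shifted quantities -/
theorem sum_fin_shift {s : ℕ} {M : Type} [AddCommMonoid M] (f : ℕ → M) (h0 : f 0 = 0) :
    ∑ a : Fin s, (if (a : ℕ) + 1 < s then f ((a : ℕ) + 1) else 0) = ∑ a : Fin s, f a := by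
  cases s with
  | zero => simp
  | succ s =>
    rw [Fin.sum_univ_castSucc, Fin.sum_univ_succ]
    simp [h0]

/-- extension of a vector by zero -/
def extV {p s : ℕ} {R : Type} [Zero R] (v : Idx p s → R) (c : Node p) (a : ℕ) : R :=
  if h : a < s then v (c, ⟨a, h⟩) else 0

theorem extV_fin {p s : ℕ} {R : Type} [Zero R] (v : Idx p s → R) (c : Node p) (a : Fin s) :
    extV v c a = v (c, a) := by
  simp [extV]

theorem shiftV_some' {p s : ℕ} {R : Type} [Zero R] (v : Idx p s → R) (c : Fin p) (a : Fin s) :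
    shiftV v (some c, a) = if (a : ℕ) + 1 < s then extV v (some c) ((a : ℕ) + 1) else 0 := by
  rw [shiftV_some]
  by_cases h : (a : ℕ) + 1 < s
  · simp [extV, h]
  · simp [h]

theorem sum_idx {p s : ℕ} {M : Type} [AddCommMonoid M] (f : Idx p s → M) :
    ∑ k, f k = ∑ a : Fin s, f (none, a) + ∑ c : Fin p, ∑ a : Fin s, f (some c, a) := by
  rw [Fintype.sum_prod_type, Fintype.sum_option]

theorem mulVec_shift_some {p : ℕ} [Fact p.Prime] (s x : ℕ) (v : Idx p s → ℤ_[p])
    (h0 : ∀ (c : Fin p), extV v (some c) 0 = 0) (b : Fin p) (i : Fin s) :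
    (NMp p s x).mulVec (shiftV v) (some b, i) = (NMp p s (x + 1)).mulVec v (some b, i) := by
  simp only [Matrix.mulVec, dotProduct]
  rw [sum_idx, sum_idx]
  congr 1
  refine Finset.sum_congr rfl fun c _ => ?_
  have := sum_fin_shift (s := s)
    (fun a => ((ent (x + 1) (some b) (i : ℕ) (some c) a : ℤ) : ℤ_[p]) * extV v (some c) a)
    (by simp [h0])
  have e2 : ∑ a : Fin s, NMp p s (x + 1) (some b, i) (some c, a) * v (some c, a)
      = ∑ a : Fin s, ((ent (x + 1) (some b) (i : ℕ) (some c) a : ℤ) : ℤ_[p]) * extV v (some c) a := by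
    refine Finset.sum_congr rfl fun a _ => ?_
    rw [extV_fin]; rfl
  rw [e2, ← this]
  refine Finset.sum_congr rfl fun a _ => ?_
  rw [shiftV_some', ent_shift_some]
  split_ifs
  · rfl
  · simp

theorem mulVec_shift_none {p : ℕ} [Fact p.Prime] (s x : ℕ) (v : Idx p s → ℤ_[p])
    (h0 : ∀ (c : Fin p), extV v (some c) 0 = 0) (i : Fin s) (hi : (i : ℕ) + 1 < s) :
    (NMp p s x).mulVec (shiftV v) (none, i)
      = (NMp p s (x + 1)).mulVec v (none, ⟨(i : ℕ) + 1, hi⟩) := by
  simp only [Matrix.mulVec, dotProduct]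
  rw [sum_idx, sum_idx]
  congr 1
  refine Finset.sum_congr rfl fun c _ => ?_
  have := sum_fin_shift (s := s)
    (fun a => ((ent (x + 1) (none : Node p) ((i : ℕ) + 1) (some c) a : ℤ) : ℤ_[p])
      * extV v (some c) a)
    (by simp [h0])
  have e2 : ∑ a : Fin s, NMp p s (x + 1) (none, ⟨(i : ℕ) + 1, hi⟩) (some c, a) * v (some c, a)
      = ∑ a : Fin s, ((ent (x + 1) (none : Node p) ((i : ℕ) + 1) (some c) a : ℤ) : ℤ_[p])
        * extV v (some c) a := by
    refine Finset.sum_congr rfl fun a _ => ?_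
    rw [extV_fin]; rfl
  rw [e2, ← this]
  refine Finset.sum_congr rfl fun a _ => ?_
  rw [shiftV_some', ent_shift_none]
  split_ifs
  · rfl
  · simp

theorem mulVec_dvd_span {p : ℕ} [Fact p.Prime] {ρ γ : Type} [Fintype γ]
    (A : Matrix ρ γ ℤ_[p]) (h : ℕ) {ν : ℕ} (v : Fin ν → γ → ℤ_[p])
    (hv : ∀ i r, (p : ℤ_[p]) ^ h ∣ A.mulVec (v i) r) (w : γ → ℤ_[p])
    (hw : w ∈ Submodule.span ℤ_[p] (Set.range v)) (r : ρ) :
    (p : ℤ_[p]) ^ h ∣ A.mulVec w r := by
  induction hw using Submodule.span_induction with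
  | mem w hw =>
    obtain ⟨i, rfl⟩ := hw
    exact hv i r
  | zero => simp [Matrix.mulVec_zero]
  | add a b _ _ ha hb =>
    rw [Matrix.mulVec_add]
    exact dvd_add ha hb
  | smul c a _ ha =>
    rw [Matrix.mulVec_smul]
    exact Dvd.dvd.mul_left ha c

theorem prf_T1 (p : ℕ) [Fact p.Prime] (l2 : L2 p) : T1 p := by
  intro s x h ν hν
  rcases Nat.eq_zero_or_pos s with rfl | hs
  · -- trivial case
    obtain ⟨v, hv, -⟩ := hν
    have hz : ν - (p + 1) = 0 := by
      have h1 := hv.fintype_card_le_finrank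
      have h2 : Module.finrank (ZMod p) (Idx p 0 → ZMod p) = 0 := by
        simp
      rw [h2, Fintype.card_fin] at h1
      omega
    rw [hz]
    refine ⟨fun i => i.elim0, ?_, fun i => i.elim0⟩
    exact linearIndependent_empty_type
  · obtain ⟨v, hv, hdiv⟩ := hν
    have hcard : Fintype.card (Node p) = p + 1 := by simp
    let last : Fin s := ⟨s - 1, by omega⟩
    let Lf : (Idx p s → ℤ_[p]) →ₗ[ℤ_[p]] ℤ_[p] :=
      (LinearMap.proj ((none : Node p), last)).comp
        ((Matrix.mulVecLin (NMp p s x)).comp (shiftL p s ℤ_[p]))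
    let F : Node p → Idx p s → ℤ_[p] := fun j k =>
      match j with
      | some c => if k = (some c, ⟨0, hs⟩) then 1 else 0
      | none => Lf (Pi.single k 1)
    have h2 := l2 (Node p) (Idx p s) ν v F hv
    rw [hcard] at h2
    obtain ⟨w, hw, hspan, hF⟩ := h2
    have hLf : ∀ u : Idx p s → ℤ_[p], Lf u = ∑ k, Lf (Pi.single k 1) * u k := by
      intro u
      rw [LinearMap.pi_apply_eq_sum_univ Lf u]
      refine Finset.sum_congr rfl fun k _ => ?_
      rw [smul_eq_mul, mul_comm]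
      congr 2
      funext j
      by_cases hjk : k = j
      · subst hjk; simp
      · simp [Pi.single_apply, hjk, Ne.symm hjk]
    have hw0 : ∀ i (c : Fin p), extV (w i) (some c) 0 = 0 := by
      intro i c
      have := hF i (some c)
      simp only [F, ite_mul, one_mul, zero_mul, Finset.sum_ite_eq', Finset.mem_univ,
        if_true] at this
      simp only [extV, hs, dif_pos]
      exact this
    have hlast : ∀ i, (NMp p s x).mulVec (shiftV (w i)) (none, last) = 0 := by
      intro i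
      have := hF i none
      simp only [F] at this
      rw [← hLf] at this
      exact this
    refine ⟨fun i => shiftV (w i), ?_, ?_⟩
    · -- independence
      unfold IndepMod at hw ⊢
      rw [Fintype.linearIndependent_iff] at hw ⊢
      intro g hg
      apply hw g
      have hg' := fun k => congrFun hg k
      simp only [Finset.sum_apply, Pi.smul_apply, Pi.zero_apply, smul_eq_mul] at hg'
      funext ⟨c, a⟩
      simp only [Finset.sum_apply, Pi.smul_apply, Pi.zero_apply, smul_eq_mul]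
      cases c with
      | none =>
        have := hg' (none, a)
        simpa only [shiftV_none] using this
      | some c =>
        rcases Nat.eq_zero_or_pos (a : ℕ) with ha | ha
        · refine Finset.sum_eq_zero fun i _ => ?_
          have h3 := hw0 i c
          have h4 : a = ⟨0, hs⟩ := Fin.ext ha
          simp only [extV, hs, dif_pos] at h3
          rw [h4, h3, map_zero, mul_zero]
        · have h5 := hg' (some c, ⟨(a : ℕ) - 1, by omega⟩)
          have h6 : ((a : ℕ) - 1) + 1 < s := by omega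
          simp only [shiftV_some, h6, dif_pos] at h5
          have h7 : (⟨(a : ℕ) - 1 + 1, h6⟩ : Fin s) = a := Fin.ext (by simp; omega)
          simpa only [h7] using h5
    · rintro i ⟨b, j⟩
      cases b with
      | some b =>
        rw [mulVec_shift_some s x (w i) (hw0 i)]
        exact mulVec_dvd_span _ h v hdiv (w i) (hspan i) _
      | none =>
        by_cases hj : (j : ℕ) + 1 < s
        · rw [mulVec_shift_none s x (w i) (hw0 i) j hj]
          exact mulVec_dvd_span _ h v hdiv (w i) (hspan i) _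
        · have h8 : j = last := Fin.ext (by simp only [last]; omega)
          rw [h8, hlast i]
          exact dvd_zero _

end Gou

end
end

section

/-!
T2: DeepNu, choice of the parameters.
-/

open scoped Polynomial
open Finset

noncomputable section

namespace Gou

theorem tt_pow (K : ℕ) : ∃ L0 : ℕ, ∀ l ≥ L0, K * (l + 1) ^ 4 + 1 ≤ 2 ^ l := by
  have h := tendsto_pow_const_div_const_pow_of_one_lt 4 (r := (2 : ℝ)) (by norm_num)
  have h2 := h.eventually (gt_mem_nhds (show (0 : ℝ) < 1 / (16 * K + 1) by positivity))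
  obtain ⟨L0, hL0⟩ := Filter.eventually_atTop.mp h2
  refine ⟨L0 + 1, fun l hl => ?_⟩
  have h3 := hL0 l (by omega)
  have hl1 : 1 ≤ l := by omega
  have h4 : (0 : ℝ) < 2 ^ l := by positivity
  rw [div_lt_div_iff₀ h4 (by positivity)] at h3
  have h5 : (K * (l + 1) ^ 4 : ℝ) ≤ 16 * K * l ^ 4 := by
    have h6 : ((l : ℝ) + 1) ≤ 2 * l := by
      have : (1 : ℝ) ≤ l := by exact_mod_cast hl1
      linarith
    have h7 : ((l : ℝ) + 1) ^ 4 ≤ (2 * l) ^ 4 := pow_le_pow_left₀ (by positivity) h6 4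
    have h8 : (K : ℝ) * (l + 1) ^ 4 ≤ K * (2 * l) ^ 4 := mul_le_mul_of_nonneg_left h7 (by positivity)
    calc (K * (l + 1) ^ 4 : ℝ) ≤ K * (2 * l) ^ 4 := h8
      _ = 16 * K * l ^ 4 := by ring
  have h9 : (1 : ℝ) ≤ (l : ℝ) ^ 4 := one_le_pow₀ (by exact_mod_cast hl1)
  have h10 : ((K * (l + 1) ^ 4 + 1 : ℕ) : ℝ) ≤ ((2 ^ l : ℕ) : ℝ) := by
    push_cast
    nlinarith
  exact_mod_cast h10

theorem tt_log (p : ℕ) (hp : 2 ≤ p) (K : ℕ) :
    ∃ n0 : ℕ, ∀ n ≥ n0, K * (Nat.log p (n + 1) + 1) ^ 4 ≤ n := by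
  obtain ⟨L0, hL0⟩ := tt_pow K
  refine ⟨K * (L0 + 1) ^ 4, fun n hn => ?_⟩
  rcases le_or_gt L0 (Nat.log p (n + 1)) with h | h
  · have h1 := hL0 _ h
    have h2 : p ^ Nat.log p (n + 1) ≤ n + 1 := Nat.pow_log_le_self p (by omega)
    have h3 : 2 ^ Nat.log p (n + 1) ≤ p ^ Nat.log p (n + 1) := Nat.pow_le_pow_left hp _
    omega
  · refine le_trans ?_ hn
    exact Nat.mul_le_mul_left _ (Nat.pow_le_pow_left (by omega) _)

theorem tt_mono {p : ℕ} [Fact p.Prime] {ρ γ : Type} [Fintype γ] {A : Matrix ρ γ ℤ_[p]}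
    {h ν ν' : ℕ} (hle : ν' ≤ ν) (H : NuGe p A h ν) : NuGe p A h ν' := by
  obtain ⟨v, hv, hA⟩ := H
  refine ⟨fun i => v (Fin.castLE hle i), ?_, fun i r => hA _ r⟩
  unfold IndepMod at hv ⊢
  exact hv.comp _ (Fin.castLE_injective hle)

theorem tt_iter {p : ℕ} [Fact p.Prime] (t1 : T1 p) (s h : ℕ) :
    ∀ (k x ν : ℕ), NuGe p (NMp p s (x + k)) h ν → NuGe p (NMp p s x) h (ν - (p + 1) * k) := by
  intro k
  induction k with
  | zero => intro x ν H; simpa using H
  | succ k ih =>
      intro x ν H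
      have h1 := ih x _ (t1 s (x + k) h ν H)
      refine tt_mono ?_ h1
      rw [Nat.mul_succ]
      omega

theorem tt_zero {p : ℕ} [Fact p.Prime] (x h ν : ℕ) (H : NuGe p (NMp p 0 x) h ν) : ν = 0 := by
  obtain ⟨v, hv, -⟩ := H
  by_contra hν
  unfold IndepMod at hv
  have h1 := hv.ne_zero (⟨0, by omega⟩ : Fin ν)
  apply h1
  funext k
  exact k.2.elim0

theorem tt_qq (p : ℕ) (hp : 2 ≤ p) : 1 ≤ qq p ∧ qq p ≤ p ∧ (p + 1) * qq p ≤ 2 * p ^ 2 := by
  unfold qq
  split_ifs with h
  · subst h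
    norm_num
  · obtain ⟨r, rfl⟩ : ∃ r, p = r + 1 := ⟨p - 1, by omega⟩
    refine ⟨by omega, by omega, ?_⟩
    simp only [Nat.add_sub_cancel]
    nlinarith

/-- The numerical part, over the reals. -/
theorem tt_num1 (P l n h b c M s : ℝ) (hP : 4 ≤ P) (hl : 1 ≤ l) (hn : 1 ≤ n) (hh : 0 ≤ h)
    (hs : 0 ≤ s) (hM : 0 ≤ M)
    (hC : 1000 * P ^ 2 * n * l ^ 2 ≤ h ^ 2) (hC2 : 1000 * P ^ 2 * l ^ 2 ≤ h)
    (hb1 : 2 * b ≤ h) (hb2 : h ≤ 2 * b + 1) (hc1 : 2 * c ≤ b + 1) (hc2 : b ≤ 2 * c)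
    (hM1 : 4 * P * l * M ≤ h) (hsn : s ≤ n) :
    l * n + (c - 1) * (h + l) + M * c * l + l + P * s * l < b * (h - l) := by
  have hP2 : (16 : ℝ) ≤ P ^ 2 := by nlinarith
  have hPP : P ≤ P ^ 2 := by nlinarith
  have hll : l ≤ l ^ 2 := by nlinarith
  have hl2 : (1 : ℝ) ≤ l ^ 2 := by nlinarith
  have hPl : P * l ≤ P ^ 2 * l ^ 2 := mul_le_mul hPP hll (by positivity) (by positivity)
  have h1000 : 1000 * (P * l) ≤ h := by nlinarith
  have hl4000 : 4000 * l ≤ h := by nlinarith
  have hh4 : 4000 ≤ h := by nlinarith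
  -- n l P ≤ h^2 / 1000
  have hnl : 1000 * (P * l * n) ≤ h ^ 2 := by
    have : P * l * n ≤ P ^ 2 * l ^ 2 * n := mul_le_mul_of_nonneg_right hPl (by linarith)
    nlinarith
  have hnl2 : 4000 * (l * n) ≤ h ^ 2 := by
    have : 4 * (l * n) ≤ P * (l * n) := mul_le_mul_of_nonneg_right hP (by positivity)
    nlinarith
  have hPsl : P * s * l ≤ P * l * n := by
    have : s * (P * l) ≤ n * (P * l) := mul_le_mul_of_nonneg_right hsn (by positivity)
    nlinarith
  have hb0 : 0 ≤ b := by linarith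
  have hc0 : 0 ≤ c := by linarith
  have hMc : 16 * (M * c * l) ≤ h * c := by
    have h1 : 16 * (M * c * l) ≤ 4 * P * (M * c * l) := by
      have : 0 ≤ M * c * l := by positivity
      nlinarith
    have h2 : 4 * P * l * M * c ≤ h * c := mul_le_mul_of_nonneg_right hM1 hc0
    nlinarith
  have hhc : h * c ≤ h * ((b + 1) / 2) := mul_le_mul_of_nonneg_left (by linarith) hh
  have hcc : (c - 1) * (h + l) ≤ ((b - 1) / 2) * (h + l) :=
    mul_le_mul_of_nonneg_right (by linarith) (by linarith)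
  have hbh : h * h ≤ (2 * b + 1) * h := mul_le_mul_of_nonneg_right hb2 hh
  have hbl : 4000 * (b * l) ≤ b * h := by
    have := mul_le_mul_of_nonneg_left hl4000 hb0
    linarith
  nlinarith

theorem tt_num2 (P l n h b c M s : ℝ) (hP : 4 ≤ P) (hl : 1 ≤ l) (hn : 1 ≤ n) (hh : 0 ≤ h)
    (hM : 0 ≤ M)
    (hC : 1000 * P ^ 2 * n * l ^ 2 ≤ h ^ 2) (hC2 : 1000 * P ^ 2 * l ^ 2 ≤ h)
    (hb2 : h ≤ 2 * b + 1) (hc2 : b ≤ 2 * c)
    (hM2 : h < 4 * P * l * (M + 1)) (hsn : s ≤ n) :
    2 * (l * n + P * s * l + 1) < M * c := by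
  have hP2 : (16 : ℝ) ≤ P ^ 2 := by nlinarith
  have hPP : P ≤ P ^ 2 := by nlinarith
  have hll : l ≤ l ^ 2 := by nlinarith
  have hPl : P * l ≤ P ^ 2 * l ^ 2 := mul_le_mul hPP hll (by positivity) (by positivity)
  have h1000 : 1000 * (P * l) ≤ h := by nlinarith
  have hPl4 : 4 ≤ P * l := by nlinarith
  have hh4 : 4000 ≤ h := by nlinarith
  have hPsl : P * s * l ≤ P * l * n := by
    have : s * (P * l) ≤ n * (P * l) := mul_le_mul_of_nonneg_right hsn (by positivity)
    nlinarith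
  have hln : 4 * (l * n) ≤ P * l * n := by
    have : 4 * (l * n) ≤ P * (l * n) := mul_le_mul_of_nonneg_right hP (by positivity)
    nlinarith
  have hPln : 4 ≤ P * l * n := by nlinarith
  -- left side ≤ 3 P l n
  have hleft : 2 * (l * n + P * s * l + 1) ≤ 3 * (P * l * n) := by nlinarith
  -- 4 P l M ≥ h / 2, c ≥ (h-1)/4
  have hM3 : h / 2 ≤ 4 * P * l * M := by nlinarith
  have hc3 : h / 5 ≤ c := by linarith
  have h5 : h / 2 * (h / 5) ≤ 4 * P * l * M * c := by
    refine mul_le_mul hM3 hc3 (by linarith) (by positivity)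
  by_contra hcon
  push Not at hcon
  have h6 : M * c ≤ 3 * (P * l * n) := hcon.trans hleft
  have h7 : 4 * (P * l) * (M * c) ≤ 4 * (P * l) * (3 * (P * l * n)) :=
    mul_le_mul_of_nonneg_left h6 (by positivity)
  have h8 : h ^ 2 ≤ 120 * (P ^ 2 * n * l ^ 2) := by nlinarith
  have h9 : 0 < P ^ 2 * n * l ^ 2 := by positivity
  nlinarith

theorem prf_DeepNu (p : ℕ) [Fact p.Prime] (t1 : T1 p) (cb : CountBad p) : DeepNu p := by
  have hpp : p.Prime := Fact.out
  have hp2 := hpp.two_le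
  obtain ⟨n0, hn0⟩ := tt_log p hp2 ((1000 * (p ^ 2) ^ 2) ^ 2 + 1)
  refine ⟨n0 + 1, fun n hn s h ν hh hsh H => ?_⟩
  by_contra hν
  push Not at hν
  rcases Nat.eq_zero_or_pos s with rfl | hs
  · have := tt_zero _ _ _ H
    omega
  have hnpos : 1 ≤ n := by omega
  obtain ⟨l, hl⟩ : ∃ l, l = Nat.log p (n + 1) + 1 := ⟨_, rfl⟩
  have hnl := hn0 n (by omega)
  rw [← hl] at hnl
  have hl1 : 1 ≤ l := by omega
  have hlt : n + 1 < p ^ l := by
    rw [hl]
    exact Nat.lt_pow_succ_log_self hpp.one_lt _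
  -- key inequality
  have hC : 1000 * (p ^ 2) ^ 2 * n * l ^ 2 ≤ h ^ 2 := by
    by_contra hcon
    push Not at hcon
    have h1 : (h ^ 2) ^ 2 < (1000 * (p ^ 2) ^ 2 * n * l ^ 2) ^ 2 :=
      Nat.pow_lt_pow_left hcon (by norm_num)
    have h2 : (1000 * (p ^ 2) ^ 2 * n * l ^ 2) ^ 2 = n ^ 2 * ((1000 * (p ^ 2) ^ 2) ^ 2 * l ^ 4) := by
      ring
    have h3 : (1000 * (p ^ 2) ^ 2) ^ 2 * l ^ 4 ≤ n := by
      refine le_trans ?_ hnl
      exact Nat.mul_le_mul_right _ (Nat.le_succ _)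
    have h4 : n ^ 2 * ((1000 * (p ^ 2) ^ 2) ^ 2 * l ^ 4) ≤ n ^ 2 * n := Nat.mul_le_mul_left _ h3
    have h5 : n ^ 2 * n = n ^ 3 := by ring
    have h6 : (h ^ 2) ^ 2 = h ^ 4 := by ring
    omega
  have hhn : h ≤ n := by nlinarith
  have hC2 : 1000 * (p ^ 2) ^ 2 * l ^ 2 ≤ h := by
    have h1 : n * (1000 * (p ^ 2) ^ 2 * l ^ 2) ≤ n * h := by
      calc n * (1000 * (p ^ 2) ^ 2 * l ^ 2) = 1000 * (p ^ 2) ^ 2 * n * l ^ 2 := by ring
        _ ≤ h ^ 2 := hC
        _ = h * h := by ring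
        _ ≤ n * h := Nat.mul_le_mul_right _ hhn
    exact Nat.le_of_mul_le_mul_left h1 hnpos
  have hP4 : 4 ≤ p ^ 2 := by nlinarith
  have hPsq : 16 ≤ (p ^ 2) ^ 2 := by nlinarith
  have hlsq : l ≤ l ^ 2 := by nlinarith
  have hlh : l ≤ h := by
    have h1 : 1 * l ^ 2 ≤ 1000 * (p ^ 2) ^ 2 * l ^ 2 := Nat.mul_le_mul_right _ (by omega)
    omega
  have hh1 : 1 ≤ h := le_trans hl1 hlh
  -- parameters
  obtain ⟨M, hM⟩ : ∃ M, M = h / (4 * p ^ 2 * l) := ⟨_, rfl⟩
  obtain ⟨b, hb⟩ : ∃ b, b = h / 2 := ⟨_, rfl⟩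
  obtain ⟨c, hc⟩ : ∃ c, c = (b + 1) / 2 := ⟨_, rfl⟩
  have hD : 0 < 4 * p ^ 2 * l := by positivity
  have hM1 : 4 * p ^ 2 * l * M ≤ h := by rw [hM]; exact Nat.mul_div_le _ _
  have hM2 : h < 4 * p ^ 2 * l * (M + 1) := by
    rw [hM]
    exact Nat.lt_mul_div_succ _ hD
  have hMh : M ≤ h := by rw [hM]; exact Nat.div_le_self _ _
  obtain ⟨hq1, hqp, hqq⟩ := tt_qq p hp2
  obtain ⟨q, hq⟩ : ∃ q, q = qq p := ⟨_, rfl⟩
  rw [← hq] at hq1 hqp hqq
  have hn1 : (p + 1) * s + (p + 1) * h ≤ n := by rw [← mul_add]; exact hsh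
  have hs1 : 1 ≤ (p + 1) * s := Nat.one_le_iff_ne_zero.mpr (by positivity)
  obtain ⟨n1, hn1'⟩ : ∃ n1, n1 = (p + 1) * s - 1 := ⟨_, rfl⟩
  obtain ⟨t0, ht0⟩ : ∃ t0, t0 = (n - n1) / q := ⟨_, rfl⟩
  have ht0a : q * t0 ≤ n - n1 := by rw [ht0]; exact Nat.mul_div_le _ _
  have ht0b : n - n1 < q * (t0 + 1) := by rw [ht0]; exact Nat.lt_mul_div_succ _ hq1
  have hqh : q * h ≤ (p + 1) * h := Nat.mul_le_mul_right _ (by omega)
  have ht0h : h ≤ t0 := by
    rw [ht0, Nat.le_div_iff_mul_le hq1, mul_comm]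
    omega
  have hMlt : M < h := by
    rw [hM]
    refine Nat.div_lt_self hh1 ?_
    have : 1 ≤ p ^ 2 * l := Nat.one_le_iff_ne_zero.mpr (by positivity)
    nlinarith
  have hqM : (p + 1) * (q * M) ≤ h / 2 := by
    rw [Nat.le_div_iff_mul_le (by norm_num)]
    calc (p + 1) * (q * M) * 2 = (p + 1) * q * (2 * M) := by ring
      _ ≤ 2 * p ^ 2 * (2 * M) := Nat.mul_le_mul_right _ hqq
      _ = 4 * p ^ 2 * 1 * M := by ring
      _ ≤ 4 * p ^ 2 * l * M := Nat.mul_le_mul_right _ (Nat.mul_le_mul_left _ hl1)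
      _ ≤ h := hM1
  have hx : ∀ i : Fin M, q * (t0 - (i : ℕ)) ≤ n - n1 ∧
      n - n1 - q * (t0 - (i : ℕ)) ≤ q * M := by
    intro i
    have hi := i.2
    refine ⟨(Nat.mul_le_mul_left _ (Nat.sub_le _ _)).trans ht0a, ?_⟩
    have h1 : q * (t0 + 1) ≤ q * (t0 - (i : ℕ)) + q * M := by
      rw [← mul_add]
      exact Nat.mul_le_mul_left _ (by omega)
    omega
  have hnu : ∀ i : Fin M, NuGe p (NMp p s (n1 + q * (t0 - (i : ℕ)))) h b := by
    intro i
    obtain ⟨hx1, hx2⟩ := hx i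
    have h1 : n = n1 + q * (t0 - (i : ℕ)) + (n - n1 - q * (t0 - (i : ℕ))) := by omega
    rw [h1] at H
    have h2 := tt_iter t1 s h _ _ _ H
    refine tt_mono ?_ h2
    have h3 : (p + 1) * (n - n1 - q * (t0 - (i : ℕ))) ≤ (p + 1) * (q * M) :=
      Nat.mul_le_mul_left _ hx2
    omega
  have hsn : (p + 1) * s ≤ n := by omega
  have hsn' : s ≤ n := le_trans (Nat.le_mul_of_pos_left _ (by omega)) hsn
  -- real versions
  have rP : (4 : ℝ) ≤ ((p ^ 2 : ℕ) : ℝ) := by exact_mod_cast hP4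
  have rl : (1 : ℝ) ≤ (l : ℝ) := by exact_mod_cast hl1
  have rn : (1 : ℝ) ≤ (n : ℝ) := by exact_mod_cast hnpos
  have rC : 1000 * ((p ^ 2 : ℕ) : ℝ) ^ 2 * n * l ^ 2 ≤ (h : ℝ) ^ 2 := by exact_mod_cast hC
  have rC2 : 1000 * ((p ^ 2 : ℕ) : ℝ) ^ 2 * l ^ 2 ≤ (h : ℝ) := by exact_mod_cast hC2
  have rb1 : 2 * (b : ℝ) ≤ h := by
    have : 2 * b ≤ h := by omega
    exact_mod_cast this
  have rb2 : (h : ℝ) ≤ 2 * b + 1 := by
    have : h ≤ 2 * b + 1 := by omega
    exact_mod_cast this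
  have rc1 : 2 * (c : ℝ) ≤ b + 1 := by
    have : 2 * c ≤ b + 1 := by omega
    exact_mod_cast this
  have rc2 : (b : ℝ) ≤ 2 * c := by
    have : b ≤ 2 * c := by omega
    exact_mod_cast this
  have rM1 : 4 * ((p ^ 2 : ℕ) : ℝ) * l * M ≤ h := by exact_mod_cast hM1
  have rM2 : (h : ℝ) < 4 * ((p ^ 2 : ℕ) : ℝ) * l * (M + 1) := by exact_mod_cast hM2
  have rs : (s : ℝ) ≤ n := by exact_mod_cast hsn'
  have hnum1 := tt_num1 ((p ^ 2 : ℕ) : ℝ) l n h b c M s rP rl rn (by positivity) (by positivity)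
    (by positivity) rC rC2 rb1 rb2 rc1 rc2 rM1 rs
  have hnum2 := tt_num2 ((p ^ 2 : ℕ) : ℝ) l n h b c M s rP rl rn (by positivity)
    (by positivity) rC rC2 rb2 rc2 rM2 rs
  have hc1 : 1 ≤ c := by
    have h1 : 16 * 1 ≤ (p ^ 2) ^ 2 * l ^ 2 := Nat.mul_le_mul hPsq (Nat.one_le_pow _ _ hl1)
    have h2 : 1000 * ((p ^ 2) ^ 2 * l ^ 2) ≤ h := by
      calc 1000 * ((p ^ 2) ^ 2 * l ^ 2) = 1000 * (p ^ 2) ^ 2 * l ^ 2 := by ring
        _ ≤ h := hC2
    omega
  have hnum1' : l * n + (c - 1) * (h + l) + M * c * l + l + p ^ 2 * s * l < b * (h - l) := by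
    have : (((l * n + (c - 1) * (h + l) + M * c * l + l + p ^ 2 * s * l : ℕ)) : ℝ) <
        ((b * (h - l) : ℕ) : ℝ) := by
      push_cast [Nat.cast_sub hc1, Nat.cast_sub hlh]
      push_cast at hnum1
      exact hnum1
    exact_mod_cast this
  have hnum2' : 2 * (l * n + p ^ 2 * s * l + 1) < M * c := by
    have : ((2 * (l * n + p ^ 2 * s * l + 1) : ℕ) : ℝ) < ((M * c : ℕ) : ℝ) := by
      push_cast
      push_cast at hnum2
      exact hnum2
    exact_mod_cast this
  have hlsn : l * ((p + 1) * s) ≤ l * n := Nat.mul_le_mul_left _ hsn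
  have hcb := cb s l h b M (fun i => t0 - (i : ℕ)) hs ?_ ?_ ?_ ?_ hlh ?_ ?_
  · rw [← hc] at hcb
    omega
  · intro i j hij
    have hi := i.2
    have hj := j.2
    apply Fin.ext
    simp only at hij
    omega
  · intro i
    have hi := i.2
    omega
  · intro i
    have := (hx i).1
    rw [← hq]
    omega
  · omega
  · intro i
    have := hnu i
    rw [← hq, ← hn1']
    exact this
  · rw [← hc]
    omega

end Gou

end
end

section

/-!
Z2: lower bound of the ghost sum. Level sets of `gg`.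
-/

open scoped Polynomial
open Finset

noncomputable section

namespace Gou

/-- Layer cake. -/
theorem zz_layer (N T : ℕ) (g w : ℕ → ℕ) (hg : ∀ t, g t ≤ T) :
    ∑ t ∈ Icc 1 N, g t * w t = ∑ τ ∈ Icc 1 T, ∑ t ∈ (Icc 1 N).filter (fun t => τ ≤ g t), w t := by
  have h1 : ∀ t, g t = ∑ τ ∈ Icc 1 T, if τ ≤ g t then 1 else 0 := by
    intro t
    rw [← Finset.sum_filter, Finset.sum_const, smul_eq_mul, mul_one]
    have : (Icc 1 T).filter (fun τ => τ ≤ g t) = Icc 1 (g t) := by
      ext x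
      simp only [mem_filter, mem_Icc]
      have := hg t
      omega
    rw [this]
    simp
  have h2 : ∀ t, g t * w t = ∑ τ ∈ Icc 1 T, if τ ≤ g t then w t else 0 := by
    intro t
    conv_lhs => rw [h1 t]
    rw [Finset.sum_mul]
    refine Finset.sum_congr rfl fun τ _ => ?_
    split_ifs <;> simp
  rw [Finset.sum_congr rfl fun t _ => h2 t, Finset.sum_comm]
  refine Finset.sum_congr rfl fun τ _ => ?_
  rw [Finset.sum_filter]

theorem zz_gg_le (p s t : ℕ) : gg p s t ≤ p ^ 2 * s := by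
  unfold gg
  refine (min_le_right _ _).trans ((Nat.sub_le _ _).trans ?_)
  exact Nat.mul_le_mul_right s (Nat.sub_le _ _)

/-- Level sets of `gg` are intervals. -/
theorem zz_interval (p s N τ : ℕ) :
    ∃ a n : ℕ, 1 ≤ a ∧ a + n ≤ N + 1 ∧
      (Icc 1 N).filter (fun t => τ ≤ gg p s t) = Ico a (a + n) := by
  rcases Finset.eq_empty_or_nonempty ((Icc 1 N).filter (fun t => τ ≤ gg p s t)) with h | h
  · refine ⟨1, 0, le_rfl, by omega, ?_⟩
    rw [h]
    simp
  · obtain ⟨a, ha⟩ : ∃ a, a = ((Icc 1 N).filter (fun t => τ ≤ gg p s t)).min' h := ⟨_, rfl⟩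
    obtain ⟨b, hb⟩ : ∃ b, b = ((Icc 1 N).filter (fun t => τ ≤ gg p s t)).max' h := ⟨_, rfl⟩
    have hamem := Finset.min'_mem _ h
    have hbmem := Finset.max'_mem _ h
    rw [← ha] at hamem
    rw [← hb] at hbmem
    have hle : ∀ x ∈ (Icc 1 N).filter (fun t => τ ≤ gg p s t), a ≤ x ∧ x ≤ b := by
      intro x hx
      exact ⟨ha ▸ Finset.min'_le _ x hx, hb ▸ Finset.le_max' _ x hx⟩
    have hab := (hle b hbmem).1
    rw [mem_filter, mem_Icc] at hamem hbmem
    refine ⟨a, b + 1 - a, hamem.1.1, by omega, ?_⟩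
    have e : a + (b + 1 - a) = b + 1 := by omega
    rw [e]
    ext x
    constructor
    · intro hx
      have := hle x hx
      rw [mem_Ico]
      omega
    · intro hx
      rw [mem_Ico] at hx
      rw [mem_filter, mem_Icc]
      refine ⟨⟨by omega, by omega⟩, ?_⟩
      have h1 := hamem.2
      have h2 := hbmem.2
      unfold gg at h1 h2 ⊢
      rw [le_min_iff] at h1 h2 ⊢
      refine ⟨h1.1.trans (Nat.mul_le_mul_left _ hx.1), h2.2.trans ?_⟩
      refine Nat.sub_le_sub_left ?_ _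
      exact Nat.mul_le_mul_left _ (by omega)

theorem zz_val_Ico (p : ℕ) [Fact p.Prime] (a n u : ℕ) (ha : 1 ≤ a) :
    ∑ t ∈ Ico a (a + n), padicValNat p (t + u) =
      padicValNat p n.factorial + padicValNat p ((a + u - 1 + n).choose n) := by
  have h1 : (a + u).ascFactorial n = n.factorial * (a + u - 1 + n).choose n := by
    obtain ⟨c, hc⟩ : ∃ c, a + u = c + 1 := ⟨a + u - 1, by omega⟩
    rw [hc, Nat.ascFactorial_eq_factorial_mul_choose]
    congr 2
  have hch : (a + u - 1 + n).choose n ≠ 0 := (Nat.choose_pos (by omega)).ne'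
  rw [← padicValNat.mul (Nat.factorial_ne_zero n) hch, ← h1]
  clear h1 hch
  induction n with
  | zero => simp
  | succ n ih =>
      have h2 : (a + u).ascFactorial n ≠ 0 := by
        obtain ⟨c, hc⟩ : ∃ c, a + u = c + 1 := ⟨a + u - 1, by omega⟩
        rw [hc]
        exact (Nat.ascFactorial_pos c n).ne'
      rw [Nat.ascFactorial_succ, padicValNat.mul (by omega) h2,
        ← add_assoc, Finset.sum_Ico_succ_top (by omega), ih, add_comm]
      congr 2
      omega

theorem zz_digits (p : ℕ) [Fact p.Prime] (n l : ℕ) (hn : n < p ^ l) :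
    n ≤ (p - 1) * padicValNat p n.factorial + (p - 1) * l := by
  have hp : p.Prime := Fact.out
  have h1 := sub_one_mul_padicValNat_factorial (p := p) n
  have h2 : (p.digits n).sum ≤ (p - 1) * l := by
    have h3 : (p.digits n).sum ≤ (p.digits n).length • (p - 1) := by
      refine List.sum_le_card_nsmul _ _ fun x hx => ?_
      have := Nat.digits_lt_base hp.one_lt hx
      omega
    have h4 : (p.digits n).length ≤ l := by
      exact (Nat.digits_length_le_iff hp.one_lt n).mpr hn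
    rw [smul_eq_mul] at h3
    calc (p.digits n).sum ≤ (p.digits n).length * (p - 1) := h3
      _ ≤ l * (p - 1) := Nat.mul_le_mul_right _ h4
      _ = (p - 1) * l := mul_comm _ _
  omega

theorem prf_Z2 (p : ℕ) [Fact p.Prime] : Z2 p := by
  intro s l hl
  have h0 : ∑ t ∈ Icc 1 ((p + 1) * s), gg p s t =
      ∑ t ∈ Icc 1 ((p + 1) * s), gg p s t * (fun _ => 1) t := by simp
  rw [h0, zz_layer ((p + 1) * s) (p ^ 2 * s) (gg p s) (fun _ => 1) (zz_gg_le p s),
    zz_layer ((p + 1) * s) (p ^ 2 * s) (gg p s) (padicValNat p) (zz_gg_le p s), Finset.mul_sum]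
  have h1 : (p - 1) * (p ^ 2 * s * l) = ∑ _τ ∈ Icc 1 (p ^ 2 * s), (p - 1) * l := by
    rw [Finset.sum_const, smul_eq_mul, Nat.card_Icc]
    simp only [Nat.add_sub_cancel]
    ring
  rw [h1, ← Finset.sum_add_distrib]
  refine Finset.sum_le_sum fun τ _ => ?_
  obtain ⟨a, n, ha, han, hS⟩ := zz_interval p s ((p + 1) * s) τ
  rw [hS]
  have h2 := zz_val_Ico p a n 0 ha
  simp only [add_zero] at h2
  rw [h2, Finset.sum_const, smul_eq_mul, mul_one, Nat.card_Ico]
  have h3 := zz_digits p n l (by omega)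
  rw [mul_add]
  omega

end Gou

end
end

section

/-!
Existence of a basis of the modular symbols.
-/

open scoped MatrixGroups Polynomial
open CongruenceSubgroup

noncomputable section

namespace Gou

/-- integral polynomials describing the action -/
def actPoly (n : ℕ) (g : Matrix (Fin 2) (Fin 2) ℤ) (i : ℕ) : ℤ[X] :=
  (Polynomial.C (g 0 0) * Polynomial.X + Polynomial.C (g 0 1)) ^ i *
    (Polynomial.C (g 1 0) * Polynomial.X + Polynomial.C (g 1 1)) ^ (n - i)

theorem symAct_eq {R : Type*} [CommRing R] (n : ℕ) (g : Matrix (Fin 2) (Fin 2) ℤ) (f : R[X]) :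
    symAct n g f = ∑ i ∈ Finset.range (n + 1),
      Polynomial.C (f.coeff i) * (actPoly n g i).map (Int.castRingHom R) := by
  unfold symAct actPoly
  refine Finset.sum_congr rfl fun i _ => ?_
  simp only [Polynomial.map_mul, Polynomial.map_pow, Polynomial.map_add, Polynomial.map_C,
    Polynomial.map_X, mul_assoc]
  rfl

theorem symAct_map' {R R' : Type*} [CommRing R] [CommRing R'] (φ : R →+* R') (n : ℕ)
    (g : Matrix (Fin 2) (Fin 2) ℤ) (f : R[X]) :
    (symAct n g f).map φ = symAct n g (f.map φ) := by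
  rw [symAct_eq, symAct_eq, Polynomial.map_sum]
  refine Finset.sum_congr rfl fun i _ => ?_
  rw [Polynomial.map_mul, Polynomial.map_C, Polynomial.coeff_map, Polynomial.map_map]
  congr 2
  exact RingHom.ext_int _ _

theorem symAct_coeff_mem {R : Type*} [CommRing R] (M : AddSubgroup R) (n : ℕ)
    (g : Matrix (Fin 2) (Fin 2) ℤ) (f : R[X]) (hf : ∀ i, f.coeff i ∈ M) (m : ℕ) :
    (symAct n g f).coeff m ∈ M := by
  rw [symAct_eq, Polynomial.finset_sum_coeff]
  refine AddSubgroup.sum_mem M fun i _ => ?_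
  rw [Polynomial.coeff_C_mul, Polynomial.coeff_map, mul_comm]
  have : (Int.castRingHom R) ((actPoly n g i).coeff m) * f.coeff i
      = (actPoly n g i).coeff m • f.coeff i := by
    rw [zsmul_eq_mul]; rfl
  rw [this]
  exact AddSubgroup.zsmul_mem M (hf i) _

/-- the polynomials with coefficients in `M` -/
def polyIn {R : Type*} [CommRing R] (M : AddSubgroup R) : AddSubgroup R[X] where
  carrier := {f | ∀ i, f.coeff i ∈ M}
  add_mem' := fun ha hb i => by
    rw [Polynomial.coeff_add]; exact M.add_mem (ha i) (hb i)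
  zero_mem' := fun i => by rw [Polynomial.coeff_zero]; exact M.zero_mem
  neg_mem' := fun ha i => by rw [Polynomial.coeff_neg]; exact M.neg_mem (ha i)

/-- the values on the representatives control all values -/
theorem symb_mem (h3 : BManin) (h4 : BComp) {N n m : ℕ} {R : Type} [CommRing R]
    (M : AddSubgroup R) (g : Fin m → SL(2, ℤ))
    (hg : ∀ h : SL(2, ℤ), ∃ (j : Fin m) (γ : SL(2, ℤ)), γ ∈ Gamma0 N ∧ h = γ * g j)
    (φ : Vec → Vec → R[X]) (hφ : φ ∈ Symb N n R)
    (hv : ∀ j i, (φ ((mx (g j)).mulVec c0) ((mx (g j)).mulVec cI)).coeff i ∈ M)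
    (r s : Vec) (i : ℕ) : (φ r s).coeff i ∈ M := by
  obtain ⟨p1, p2, p3, p4, p5⟩ := hφ
  by_cases hr : r = 0
  · rw [p2 r s (Or.inl hr), Polynomial.coeff_zero]; exact M.zero_mem
  by_cases hs : s = 0
  · rw [p2 r s (Or.inr hs), Polynomial.coeff_zero]; exact M.zero_mem
  obtain ⟨L, hL⟩ := h3 r s hr hs
  have h := hL R[X] φ p3 p4
  have hmem : φ r s ∈ polyIn M := by
    rw [h]
    refine AddSubgroup.list_sum_mem _ ?_
    intro f hf
    obtain ⟨q, -, rfl⟩ := List.mem_map.1 hf
    obtain ⟨j, γ, hγ, rfl⟩ := hg q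
    have e0 : mx (γ * g j) = mx γ * mx (g j) := by simp [mx]
    rw [e0, ← Matrix.mulVec_mulVec, ← Matrix.mulVec_mulVec]
    have e1 := p5 γ hγ ((mx (g j)).mulVec c0) ((mx (g j)).mulVec cI)
    set F := φ ((mx γ).mulVec ((mx (g j)).mulVec c0)) ((mx γ).mulVec ((mx (g j)).mulVec cI))
      with hF
    have hdeg : F.natDegree ≤ n := p1 _ _
    have e2 := (h4 R n (mx γ) (mx γ⁻¹) F hdeg).1
    have e3 : mx γ * mx γ⁻¹ = 1 := by
      have : mx (γ * γ⁻¹) = mx γ * mx γ⁻¹ := by
        simp only [mx, Matrix.SpecialLinearGroup.coe_mul]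
      rw [← this, mul_inv_cancel]
      simp [mx]
    rw [e3, (h4 R n (mx γ) 1 F hdeg).2.2] at e2
    have e4 : symAct n (mx γ) F = φ ((mx (g j)).mulVec c0) ((mx (g j)).mulVec cI) := e1
    rw [e4] at e2
    intro i
    show F.coeff i ∈ M
    rw [e2]
    exact symAct_coeff_mem M n _ _ (hv j) i
  exact hmem i

/-- a `ℤ`-basis of a finitely generated subgroup of `ℂ` -/
theorem exists_zbasis (S : Set ℂ) (hS : S.Finite) : ∃ (k : ℕ) (e : Fin k → ℂ),
    LinearIndependent ℤ e ∧ ∀ x ∈ Submodule.span ℤ S, ∃ c : Fin k → ℤ, x = ∑ t, (c t : ℂ) * e t := by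
  have hfin : Module.Finite ℤ (Submodule.span ℤ S) := Module.Finite.span_of_finite ℤ hS
  have hfree : Module.Free ℤ (Submodule.span ℤ S) := inferInstance
  let b := Module.finBasis ℤ (Submodule.span ℤ S)
  refine ⟨_, fun t => (b t : ℂ), ?_, ?_⟩
  · exact b.linearIndependent.map' (Submodule.span ℤ S).subtype (Submodule.ker_subtype _)
  · intro x hx
    refine ⟨fun t => b.repr ⟨x, hx⟩ t, ?_⟩
    have h1 := congrArg (Submodule.subtype _) (b.sum_repr ⟨x, hx⟩)
    rw [map_sum] at h1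
    simp only [Submodule.coe_subtype, Submodule.coe_smul, zsmul_eq_mul] at h1
    exact h1.symm

theorem poly_zero_of_indep {k : ℕ} (e : Fin k → ℂ) (he : LinearIndependent ℤ e)
    (F : Fin k → ℤ[X]) (h : ∑ t, e t • (F t).map (Int.castRingHom ℂ) = 0) : ∀ t, F t = 0 := by
  intro t
  ext m
  have h1 := congrArg (fun f : ℂ[X] => f.coeff m) h
  simp only [Polynomial.finset_sum_coeff, Polynomial.coeff_smul, Polynomial.coeff_map,
    Polynomial.coeff_zero, smul_eq_mul] at h1
  rw [Fintype.linearIndependent_iff] at he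
  have h2 := he (fun t => (F t).coeff m) (by
    rw [← h1]
    refine Finset.sum_congr rfl fun t _ => ?_
    rw [zsmul_eq_mul, mul_comm]
    rfl) t
  simpa using h2

theorem map_zsmul_poly (c : ℤ) (f : ℤ[X]) :
    (c • f).map (Int.castRingHom ℂ) = (c : ℂ) • f.map (Int.castRingHom ℂ) := by
  rw [Polynomial.smul_eq_C_mul, Polynomial.map_mul, Polynomial.map_C, Polynomial.smul_eq_C_mul]
  rfl

/-- decomposition of a complex symbol into integral ones -/
theorem symb_decomp (h3 : BManin) (h4 : BComp) {N n m : ℕ} (g : Fin m → SL(2, ℤ))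
    (hg : ∀ h : SL(2, ℤ), ∃ (j : Fin m) (γ : SL(2, ℤ)), γ ∈ Gamma0 N ∧ h = γ * g j)
    (φ : Vec → Vec → ℂ[X]) (hφ : φ ∈ Symb N n ℂ) :
    ∃ (k : ℕ) (e : Fin k → ℂ) (ψ : Fin k → Vec → Vec → ℤ[X]), (∀ t, ψ t ∈ Symb N n ℤ) ∧
      φ = ∑ t, e t • castSymb ℂ (ψ t) := by
  let S : Set ℂ := Set.range fun x : Fin m × Fin (n + 1) =>
    (φ ((mx (g x.1)).mulVec c0) ((mx (g x.1)).mulVec cI)).coeff x.2
  obtain ⟨k, e, he, hc⟩ := exists_zbasis S (Set.finite_range _)
  have hmem : ∀ r s i, (φ r s).coeff i ∈ (Submodule.span ℤ S).toAddSubgroup := by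
    refine symb_mem h3 h4 _ g hg φ hφ ?_
    intro j i
    by_cases hi : i < n + 1
    · exact Submodule.subset_span ⟨(j, ⟨i, hi⟩), rfl⟩
    · have : (φ ((mx (g j)).mulVec c0) ((mx (g j)).mulVec cI)).coeff i = 0 :=
        Polynomial.coeff_eq_zero_of_natDegree_lt (lt_of_le_of_lt (hφ.1 _ _) (by omega))
      rw [this]
      exact AddSubgroup.zero_mem _
  choose c hc' using hc
  let ψ : Fin k → Vec → Vec → ℤ[X] := fun t r s =>
    ∑ i ∈ Finset.range (n + 1), Polynomial.monomial i (c _ (hmem r s i) t)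
  have hψ : ∀ r s, φ r s = ∑ t, e t • (ψ t r s).map (Int.castRingHom ℂ) := by
    intro r s
    ext m
    simp only [Polynomial.finset_sum_coeff, Polynomial.coeff_smul, Polynomial.coeff_map, ψ,
      Polynomial.coeff_monomial, Finset.sum_ite_eq', Finset.mem_range, smul_eq_mul]
    by_cases hm : m < n + 1
    · simp only [hm, if_true]
      conv_lhs => rw [hc' _ (hmem r s m)]
      refine Finset.sum_congr rfl fun t _ => ?_
      rw [mul_comm]
      rfl
    · simp only [hm, if_false, map_zero, mul_zero, Finset.sum_const_zero]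
      exact Polynomial.coeff_eq_zero_of_natDegree_lt (lt_of_le_of_lt (hφ.1 _ _) (by omega))
  refine ⟨k, e, ψ, ?_, ?_⟩
  · obtain ⟨p1, p2, p3, p4, p5⟩ := hφ
    intro t
    refine ⟨?_, ?_, ?_, ?_, ?_⟩
    · intro r s
      refine (Polynomial.natDegree_sum_le_of_forall_le _ _ fun i hi => ?_)
      refine (Polynomial.natDegree_monomial_le _).trans ?_
      have := Finset.mem_range.1 hi
      omega
    · intro r s h
      refine poly_zero_of_indep e he (fun t => ψ t r s) ?_ t
      rw [← hψ, p2 r s h]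
    · intro r s t' hr hs ht
      have := poly_zero_of_indep e he (fun t => ψ t r s + ψ t s t' - ψ t r t') ?_ t
      · exact sub_eq_zero.1 this
      · simp only [Polynomial.map_sub, Polynomial.map_add, smul_sub, smul_add,
          Finset.sum_sub_distrib, Finset.sum_add_distrib]
        rw [← hψ, ← hψ, ← hψ, p3 r s t' hr hs ht, sub_self]
    · intro d r s hd
      have := poly_zero_of_indep e he (fun t => ψ t (d • r) s - ψ t r s) ?_ t
      · exact sub_eq_zero.1 this
      · simp only [Polynomial.map_sub, smul_sub, Finset.sum_sub_distrib]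
        rw [← hψ, ← hψ, p4 d r s hd, sub_self]
    · intro γ hγ r s
      have := poly_zero_of_indep e he (fun t => symAct n (γ : Matrix (Fin 2) (Fin 2) ℤ)
        (ψ t ((γ : Matrix (Fin 2) (Fin 2) ℤ).mulVec r) ((γ : Matrix (Fin 2) (Fin 2) ℤ).mulVec s))
          - ψ t r s) ?_ t
      · exact sub_eq_zero.1 this
      · simp only [Polynomial.map_sub, smul_sub, Finset.sum_sub_distrib, symAct_map']
        rw [← hψ]
        have hs : ∀ (T : Finset (Fin k)) (G : Fin k → ℂ[X]),
            ∑ t ∈ T, e t • symAct n (γ : Matrix (Fin 2) (Fin 2) ℤ) (G t)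
              = symAct n (γ : Matrix (Fin 2) (Fin 2) ℤ) (∑ t ∈ T, e t • G t) := by
          intro T G
          induction T using Finset.induction_on with
          | empty => simp [symAct_zero]
          | insert a T ha ih =>
            rw [Finset.sum_insert ha, Finset.sum_insert ha, symAct_add, ih, symAct_smul]
        rw [hs, ← hψ, p5 γ hγ r s, sub_self]
  · funext r s
    rw [hψ r s]
    simp only [Finset.sum_apply, Pi.smul_apply, castSymb]

theorem castSymb_sum {r : ℕ} (c : Fin r → ℤ) (b : Fin r → Vec → Vec → ℤ[X]) :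
    castSymb ℂ (∑ i, c i • b i) = ∑ i, (c i : ℂ) • castSymb ℂ (b i) := by
  funext x y
  simp only [castSymb, Finset.sum_apply, Pi.smul_apply, Polynomial.map_sum]
  refine Finset.sum_congr rfl fun i _ => ?_
  exact map_zsmul_poly _ _

/-- integral symbols independent over `ℤ` are independent over `ℂ` -/
theorem cast_indep {r : ℕ} (b : Fin r → Vec → Vec → ℤ[X]) (hb : LinearIndependent ℤ b) :
    LinearIndependent ℂ (fun i => castSymb ℂ (b i)) := by
  rw [Fintype.linearIndependent_iff] at hb ⊢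
  intro g hg
  obtain ⟨k, e, he, hc⟩ := exists_zbasis (Set.range g) (Set.finite_range _)
  have h1 : ∀ i, ∃ c : Fin k → ℤ, g i = ∑ t, (c t : ℂ) * e t := fun i =>
    hc _ (Submodule.subset_span ⟨i, rfl⟩)
  choose c hc' using h1
  have h2 : ∀ t, ∑ i, c i t • b i = 0 := by
    intro t
    funext x y
    refine poly_zero_of_indep e he (fun t => (∑ i, c i t • b i) x y) ?_ t
    have h3 := congrFun (congrFun hg x) y
    simp only [Finset.sum_apply, Pi.smul_apply, castSymb, Pi.zero_apply] at h3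
    simp only [Finset.sum_apply, Pi.smul_apply, Polynomial.map_sum]
    rw [← h3]
    simp only [Finset.smul_sum]
    rw [Finset.sum_comm]
    refine Finset.sum_congr rfl fun i _ => ?_
    rw [hc' i, Finset.sum_smul]
    refine Finset.sum_congr rfl fun t _ => ?_
    rw [map_zsmul_poly, smul_smul, mul_comm]
  intro i
  rw [hc' i]
  refine Finset.sum_eq_zero fun t _ => ?_
  rw [hb (fun i => c i t) (h2 t) i, Int.cast_zero, zero_mul]

/-- values on the representatives -/
def evL (N n m : ℕ) (g : Fin m → SL(2, ℤ)) :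
    Symb N n ℤ →ₗ[ℤ] (Fin m × Fin (n + 1) → ℤ) where
  toFun φ := fun x => (φ.1 ((mx (g x.1)).mulVec c0) ((mx (g x.1)).mulVec cI)).coeff x.2
  map_add' φ ψ := by
    funext x
    simp
  map_smul' c φ := by
    funext x
    simp

theorem evL_inj (h3 : BManin) (h4 : BComp) {N n m : ℕ} (g : Fin m → SL(2, ℤ))
    (hg : ∀ h : SL(2, ℤ), ∃ (j : Fin m) (γ : SL(2, ℤ)), γ ∈ Gamma0 N ∧ h = γ * g j) :
    Function.Injective (evL N n m g) := by
  rw [injective_iff_map_eq_zero]
  intro φ hφ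
  apply Subtype.ext
  funext r s
  ext i
  have := symb_mem h3 h4 (⊥ : AddSubgroup ℤ) g hg φ.1 φ.2 ?_ r s i
  · rw [AddSubgroup.mem_bot] at this
    simpa using this
  · intro j i
    rw [AddSubgroup.mem_bot]
    by_cases hi : i < n + 1
    · exact congrFun hφ (j, ⟨i, hi⟩)
    · exact Polynomial.coeff_eq_zero_of_natDegree_lt (lt_of_le_of_lt (φ.2.1 _ _) (by omega))

theorem bBasis (_h1 : BDiv) (h2 : BReps) (h3 : BManin) (h4 : BComp) : BBasis := by
  intro N hN n _
  obtain ⟨g, hg⟩ := h2 N hN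
  have hinj := evL_inj h3 h4 (n := n) g hg
  have hfin : Module.Finite ℤ (Symb N n ℤ) := Module.Finite.of_injective _ hinj
  have hfree : Module.Free ℤ (Symb N n ℤ) := by
    have e : Symb N n ℤ ≃ₗ[ℤ] LinearMap.range (evL N n (Gamma0 N).index g) :=
      LinearEquiv.ofInjective _ hinj
    exact Module.Free.of_equiv e.symm
  let b := Module.finBasis ℤ (Symb N n ℤ)
  have hbi : LinearIndependent ℤ (fun i => (b i : Vec → Vec → ℤ[X])) :=
    b.linearIndependent.map' (Symb N n ℤ).subtype (Submodule.ker_subtype _)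
  have hex : ∀ φ ∈ Symb N n ℤ, ∃ c : Fin (Module.finrank ℤ (Symb N n ℤ)) → ℤ,
      φ = ∑ i, c i • (b i : Vec → Vec → ℤ[X]) := by
    intro φ hφ
    refine ⟨fun i => b.repr ⟨φ, hφ⟩ i, ?_⟩
    have h1 := congrArg (Submodule.subtype _) (b.sum_repr ⟨φ, hφ⟩)
    rw [map_sum] at h1
    simp only [Submodule.coe_subtype, Submodule.coe_smul] at h1
    exact h1.symm
  refine ⟨_, fun i => (b i : Vec → Vec → ℤ[X]), fun i => (b i).2, ?_, ?_⟩
  · intro φ hφ
    obtain ⟨c, hc⟩ := hex φ hφ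
    refine ⟨c, hc, ?_⟩
    intro c' hc'
    rw [Fintype.linearIndependent_iff] at hbi
    funext i
    have := hbi (fun i => c' i - c i) (by
      simp only [sub_smul, Finset.sum_sub_distrib]
      rw [← hc', ← hc, sub_self]) i
    exact sub_eq_zero.1 this
  · intro φ hφ
    obtain ⟨k, e, ψ, hψ, hsum⟩ := symb_decomp h3 h4 g hg φ hφ
    choose c hc using fun t => hex (ψ t) (hψ t)
    have hli := cast_indep _ hbi
    refine ⟨fun i => ∑ t, e t * (c t i : ℂ), ?_, ?_⟩
    · show φ = _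
      rw [hsum]
      simp only [Finset.sum_smul]
      rw [Finset.sum_comm]
      refine Finset.sum_congr rfl fun t _ => ?_
      rw [hc t, castSymb_sum, Finset.smul_sum]
      refine Finset.sum_congr rfl fun i _ => ?_
      rw [smul_smul]
    · intro c' hc'
      have hφ2 : φ = ∑ i, (∑ t, e t * (c t i : ℂ)) • castSymb ℂ (b i : Vec → Vec → ℤ[X]) := by
        rw [hsum]
        simp only [Finset.sum_smul]
        rw [Finset.sum_comm]
        refine Finset.sum_congr rfl fun t _ => ?_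
        rw [hc t, castSymb_sum, Finset.smul_sum]
        refine Finset.sum_congr rfl fun i _ => ?_
        rw [smul_smul]
      rw [Fintype.linearIndependent_iff] at hli
      funext i
      have := hli (fun i => c' i - ∑ t, e t * (c t i : ℂ)) (by
        simp only [sub_smul, Finset.sum_sub_distrib]
        rw [← hc', ← hφ2, sub_self]) i
      exact sub_eq_zero.1 this

end Gou

end
end
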