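import Pool.Agent.Work.MP_602313_nt.Bd.B01

/-! Bundle of small proof modules (one section per former module). -/

section

/-!
Module B, item BDeep: the deep bound for modular symbols.
-/

open scoped MatrixGroups Polynomial
open CongruenceSubgroup

noncomputable section

namespace Gou

theorem dvdP_map {R R' : Type} [CommRing R] [CommRing R'] (φ : R →+* R') (q : R) (f : R[X])
    (h : dvdP q f) : dvdP (φ q) (f.map φ) := by
  intro i
  rw [Polynomial.coeff_map]
  exact map_dvd φ (h i)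

theorem inI_map (h6 : BMap) (p : ℕ) [Fact p.Prime] (n m : ℕ) (F : ℤ[X]) (h : InI p n m F) :
    InI p n m (F.map (Int.castRingHom ℤ_[p])) := by
  refine ⟨(Polynomial.natDegree_map_le).trans h.1, fun γ => ?_⟩
  rw [← (h6 ℤ ℤ_[p] (Int.castRingHom ℤ_[p]) n (mx γ * dp p) F).1]
  have := dvdP_map (Int.castRingHom ℤ_[p]) _ _ (h.2 γ)
  simpa using this

theorem bDeep (h1 : BTp) (h2 : BVmod) (h3 : BJet) (h4 : BDiv) (h5 : BReps) (h6 : BMap) :
    BDeep := by
  intro p N hp hN hpN hdual hdeep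
  obtain ⟨C, n0, hC⟩ := hdeep
  obtain ⟨g, hg⟩ := h5 N hN
  have hidx : 1 ≤ (Gamma0 N).index := by
    obtain ⟨j, -⟩ := hg 1
    have := j.2
    omega
  refine ⟨(Gamma0 N).index * C, n0, ?_⟩
  intro n hn _ s h hCh hph u hu r φ hφ hT
  have hCh' : C * n ^ 3 ≤ h ^ 4 := by
    refine le_trans ?_ hCh
    calc C * n ^ 3 = 1 * C * n ^ 3 := by ring
      _ ≤ (Gamma0 N).index * C * n ^ 3 := by gcongr
  have hs1 : (p + 1) * s ≤ n + 1 := by
    have : (p + 1) * s ≤ (p + 1) * (s + h) := Nat.mul_le_mul_left _ (Nat.le_add_right s h)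
    omega
  have hsn : s ≤ n := by
    have : 1 * (s + h) ≤ (p + 1) * (s + h) := Nat.mul_le_mul_right _ (by omega)
    omega
  -- values of the symbols
  let y : Fin (Gamma0 N).index → Fin r → ℤ[X] := fun j i =>
    φ i ((mx (g j)).mulVec c0) ((mx (g j)).mulVec cI)
  let yb : Fin (Gamma0 N).index → Fin r → (ZMod p)[X] := fun j i =>
    (y j i).map (Int.castRingHom (ZMod p))
  let V : Fin (Gamma0 N).index → Submodule (ZMod p) (ZMod p)[X] := fun j =>
    Submodule.span (ZMod p) (Set.range (yb j))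
  have hVfin : ∀ j, Module.Finite (ZMod p) (V j) := fun j =>
    Module.Finite.span_of_finite (ZMod p) (Set.finite_range (yb j))
  have hTp : ∀ i, ∃ ψ ∈ Symb N n ℤ, heckeSymbFun n p (φ i) = ((p : ℤ) ^ s) • ψ := by
    intro i
    obtain ⟨ψ, hψ, he⟩ := hT i
    refine ⟨u • φ i + ((p : ℤ) ^ h) • ψ,
      Submodule.add_mem _ (Submodule.smul_mem _ _ (hφ.1 i)) (Submodule.smul_mem _ _ hψ), ?_⟩
    rw [sub_eq_iff_eq_add] at he
    rw [he, smul_add, smul_smul, smul_smul, ← pow_add, add_comm]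
  -- dimension of the spans
  have hVdim : ∀ j, Module.finrank (ZMod p) (V j) ≤ C * h := by
    intro j
    have hVj : Module.Finite (ZMod p) (Submodule.span (ZMod p) (Set.range (yb j))) := hVfin j
    obtain ⟨f, hf1, -, hf3⟩ := Submodule.exists_fun_fin_finrank_span_eq (ZMod p)
      (Set.range (yb j))
    choose ι hι using hf1
    refine hC n hn s h hCh' hph (Module.finrank (ZMod p) (V j))
      (fun k => (y j (ι k)).map (Int.castRingHom ℤ_[p])) ?_ ?_ ?_ ?_
    · intro k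
      exact (Polynomial.natDegree_map_le).trans ((hφ.1 (ι k)).1 _ _)
    · have : (fun k => Polynomial.map (PadicInt.toZMod (p := p))
          ((y j (ι k)).map (Int.castRingHom ℤ_[p]))) = f := by
        ext1 k
        rw [Polynomial.map_map, ← hι k]
        congr 1
        exact RingHom.ext_int _ _
      rw [this]
      exact hf3
    · intro k b a ha
      refine h3 p n (s - e0 p n) _ (by omega) ?_ b a ha
      exact inI_map h6 p n _ _ (h1 p N hdual hN hpN n s (φ (ι k)) (hφ.1 _) hs1 (hTp (ι k)) _ _)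
    · intro k
      exact h2 p N hdual hN hpN n s h u (φ (ι k)) (hφ.1 _) hph hu (hT (ι k)) _ _
  -- the linear map
  let L : (Fin r → ZMod p) →ₗ[ZMod p] (∀ j, V j) :=
    LinearMap.pi fun j => LinearMap.codRestrict (V j)
      (∑ i, (LinearMap.proj i : (Fin r → ZMod p) →ₗ[ZMod p] ZMod p).smulRight (yb j i))
      (fun c => by
        rw [LinearMap.sum_apply]
        exact Submodule.sum_mem _ fun i _ => Submodule.smul_mem _ _
          (Submodule.subset_span ⟨i, rfl⟩))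
  have hLval : ∀ c j, ((L c j : V j) : (ZMod p)[X]) = ∑ i, c i • yb j i := by
    intro c j
    change (∑ i, (LinearMap.proj i : (Fin r → ZMod p) →ₗ[ZMod p] ZMod p).smulRight (yb j i)) c = _
    rw [LinearMap.sum_apply]
    rfl
  have hinj : Function.Injective L := by
    rw [injective_iff_map_eq_zero]
    intro c hc
    -- integer lifts
    let c' : Fin r → ℤ := fun i => ((c i).val : ℤ)
    have hc' : ∀ i, ((c' i : ℤ) : ZMod p) = c i := by
      intro i
      change (((c i).val : ℤ) : ZMod p) = c i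
      rw [Int.cast_natCast]
      exact ZMod.natCast_zmod_val (c i)
    have hmem : (∑ i, c' i • φ i) ∈ Symb N n ℤ :=
      Submodule.sum_mem _ fun i _ => Submodule.smul_mem _ _ (hφ.1 i)
    have hdiv : ∀ j, dvdP (p : ℤ) ((∑ i, c' i • φ i) ((mx (g j)).mulVec c0)
        ((mx (g j)).mulVec cI)) := by
      intro j k
      have h7 : ∑ i, c i • yb j i = 0 := by
        rw [← hLval, hc]
        rfl
      have h8 := congrArg (fun q => Polynomial.coeff q k) h7
      simp only [Polynomial.finsetSum_coeff, Polynomial.coeff_smul, smul_eq_mul,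
        Polynomial.coeff_zero] at h8
      have h9 : (((∑ i, c' i • φ i) ((mx (g j)).mulVec c0) ((mx (g j)).mulVec cI)).coeff k) =
          ∑ i, c' i * (y j i).coeff k := by
        rw [Finset.sum_apply, Finset.sum_apply, Polynomial.finsetSum_coeff]
        exact Finset.sum_congr rfl fun i _ => by
          rw [Pi.smul_apply, Pi.smul_apply, Polynomial.coeff_smul, smul_eq_mul]
      rw [h9, ← ZMod.intCast_zmod_eq_zero_iff_dvd, Int.cast_sum, ← h8]
      refine Finset.sum_congr rfl fun i _ => ?_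
      rw [Int.cast_mul, hc', Polynomial.coeff_map]
      rfl
    obtain ⟨ψ, hψ, he⟩ := h4 N n p _ _ g hg (by exact_mod_cast hp.out.ne_zero) hmem hdiv
    have h10 := hφ.2 c' ⟨ψ, hψ, he⟩
    ext i
    rw [Pi.zero_apply, ← hc' i]
    exact (ZMod.intCast_zmod_eq_zero_iff_dvd _ _).2 (h10 i)
  have hfin := LinearMap.finrank_le_finrank_of_injective hinj
  rw [Module.finrank_pi, Fintype.card_fin, Module.finrank_pi_fintype] at hfin
  refine hfin.trans ?_
  calc ∑ j, Module.finrank (ZMod p) (V j) ≤ ∑ _j : Fin (Gamma0 N).index, C * h :=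
        Finset.sum_le_sum fun j _ => hVdim j
    _ = (Gamma0 N).index * C * h := by
        rw [Finset.sum_const, Finset.card_univ, Fintype.card_fin, smul_eq_mul, mul_assoc]

end Gou

end
end

section

/-!
MP_602313_nt, item BDiv: divisibility of a symbol can be tested on the coset representatives.
-/

open scoped MatrixGroups Polynomial
open CongruenceSubgroup

noncomputable section

namespace Gou

namespace BDivAux

theorem dvdP_iff {R : Type*} [CommRing R] (q : R) (f : R[X]) :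
    dvdP q f ↔ ∃ f' : R[X], f = q • f' := by
  unfold dvdP
  rw [← Polynomial.C_dvd_iff_dvd_coeff]
  constructor
  · rintro ⟨f', h⟩
    exact ⟨f', by rw [h, Polynomial.smul_eq_C_mul]⟩
  · rintro ⟨f', h⟩
    exact ⟨f', by rw [h, Polynomial.smul_eq_C_mul]⟩

theorem dvdP_symAct {R : Type*} [CommRing R] (n : ℕ) (g : Matrix (Fin 2) (Fin 2) ℤ) (q : R)
    {f : R[X]} (h : dvdP q f) : dvdP q (symAct n g f) := by
  rw [dvdP_iff] at h ⊢
  obtain ⟨f', rfl⟩ := h
  exact ⟨symAct n g f', symAct_smul n g q f'⟩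

theorem dvdP_zero {R : Type*} [CommRing R] (q : R) : dvdP q (0 : R[X]) := fun i => by simp

theorem dvdP_add {R : Type*} [CommRing R] {q : R} {f g : R[X]} (hf : dvdP q f) (hg : dvdP q g) :
    dvdP q (f + g) := fun i => by
  rw [Polynomial.coeff_add]
  exact dvd_add (hf i) (hg i)

theorem dvdP_list_sum {R : Type*} [CommRing R] {q : R} (L : List R[X])
    (h : ∀ f ∈ L, dvdP q f) : dvdP q L.sum := by
  induction L with
  | nil => simpa using dvdP_zero q
  | cons a L ih =>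
    rw [List.sum_cons]
    exact dvdP_add (h a List.mem_cons_self) (ih fun f hf => h f (List.mem_cons_of_mem a hf))

end BDivAux

open BDivAux

theorem bDiv (h1 : BManin) (h2 : BComp) : BDiv := by
  intro N n q φ m g hrep hq hφ hg
  have hφ' := hφ
  obtain ⟨a1, a2, a3, a4, a5⟩ := hφ
  -- values on the images of the standard path
  have s1 : ∀ h : SL(2, ℤ), dvdP q (φ ((mx h).mulVec c0) ((mx h).mulVec cI)) := by
    intro h
    obtain ⟨j, γ, hγ, rfl⟩ := hrep h
    have e1 : (mx (γ * g j)).mulVec c0 = (mx γ).mulVec ((mx (g j)).mulVec c0) := by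
      rw [Matrix.mulVec_mulVec]
      simp [mx]
    have e2 : (mx (γ * g j)).mulVec cI = (mx γ).mulVec ((mx (g j)).mulVec cI) := by
      rw [Matrix.mulVec_mulVec]
      simp [mx]
    rw [e1, e2]
    set r := (mx (g j)).mulVec c0 with hr
    set s := (mx (g j)).mulVec cI with hs
    have e3 : symAct n (mx γ) (φ ((mx γ).mulVec r) ((mx γ).mulVec s)) = φ r s := a5 γ hγ r s
    have e4 : φ ((mx γ).mulVec r) ((mx γ).mulVec s) = symAct n (mx γ⁻¹) (φ r s) := by
      have h3 := (h2 ℤ n (mx γ) (mx γ⁻¹) (φ ((mx γ).mulVec r) ((mx γ).mulVec s)) (a1 _ _)).1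
      have h4 : mx γ * mx γ⁻¹ = 1 := by
        rw [← Matrix.SpecialLinearGroup.coe_mul, mul_inv_cancel, Matrix.SpecialLinearGroup.coe_one]
      rw [h4, e3, (h2 ℤ n 1 1 (φ ((mx γ).mulVec r) ((mx γ).mulVec s)) (a1 _ _)).2.2] at h3
      exact h3
    rw [e4]
    exact dvdP_symAct n _ q (hg j)
  -- all values
  have s2 : ∀ r s, dvdP q (φ r s) := by
    intro r s
    by_cases hr : r = 0
    · rw [a2 r s (Or.inl hr)]
      exact dvdP_zero q
    by_cases hs : s = 0
    · rw [a2 r s (Or.inr hs)]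
      exact dvdP_zero q
    obtain ⟨L, hL⟩ := h1 r s hr hs
    rw [hL ℤ[X] φ a3 a4]
    refine dvdP_list_sum _ fun f hf => ?_
    rw [List.mem_map] at hf
    obtain ⟨h, _, rfl⟩ := hf
    exact s1 h
  choose ψ hψ using fun r s => (dvdP_iff q (φ r s)).mp (s2 r s)
  have inj : ∀ f f' : ℤ[X], q • f = q • f' → f = f' := fun f f' h =>
    smul_right_injective ℤ[X] hq h
  refine ⟨ψ, ⟨?_, ?_, ?_, ?_, ?_⟩, ?_⟩
  · intro r s
    have := a1 r s
    rwa [hψ r s, Polynomial.natDegree_smul _ hq] at this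
  · intro r s h
    apply inj
    rw [← hψ r s, a2 r s h, smul_zero]
  · intro r s t hr hs ht
    apply inj
    rw [smul_add, ← hψ r s, ← hψ s t, ← hψ r t, a3 r s t hr hs ht]
  · intro c r s hc
    apply inj
    rw [← hψ, ← hψ, a4 c r s hc]
  · intro γ hγ r s
    apply inj
    rw [← symAct_smul, ← hψ, ← hψ, a5 γ hγ r s]
  · funext r s
    exact hψ r s

end Gou

end
end

section

/-!
B2a for MP_602313_nt: jets of the elements of `I_m`.
-/

open scoped MatrixGroups Polynomial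
open CongruenceSubgroup

noncomputable section

namespace Gou

namespace JetAux

variable {R : Type} [CommRing R]

/-- Coefficients of `f · (0 c; 1 0)`. -/
theorem coeff_anti (n : ℕ) (c : ℤ) (f : R[X]) (a : ℕ) (ha : a ≤ n) :
    (symAct n !![0, c; 1, 0] f).coeff (n - a) = (c : R) ^ a * f.coeff a := by
  unfold symAct
  rw [Polynomial.finsetSum_coeff, Finset.sum_eq_single a]
  · simp only [Matrix.of_apply, Matrix.cons_val', Matrix.cons_val_zero, Matrix.cons_val_one,
      Matrix.cons_val_fin_one, Int.cast_zero, Polynomial.C_0, zero_mul, zero_add, Int.cast_one,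
      Polynomial.C_1, one_mul, add_zero]
    rw [← Polynomial.C_pow, ← Polynomial.C_mul, Polynomial.coeff_C_mul_X_pow, if_pos rfl, mul_comm]
  · intro i hi hia
    simp only [Matrix.of_apply, Matrix.cons_val', Matrix.cons_val_zero, Matrix.cons_val_one,
      Matrix.cons_val_fin_one, Int.cast_zero, Polynomial.C_0, zero_mul, zero_add, Int.cast_one,
      Polynomial.C_1, one_mul, add_zero]
    rw [← Polynomial.C_pow, ← Polynomial.C_mul, Polynomial.coeff_C_mul_X_pow, if_neg]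
    rw [Finset.mem_range] at hi
    omega
  · intro h
    exact absurd (Finset.mem_range.2 (by omega)) h

/-- Coefficients of `f · diag(1, p)`. -/
theorem coeff_dp (n p : ℕ) (f : R[X]) (i : ℕ) (hi : i ≤ n) :
    (symAct n (dp p) f).coeff i = f.coeff i * (p : R) ^ (n - i) := by
  unfold symAct dp
  rw [Polynomial.finsetSum_coeff, Finset.sum_eq_single i]
  · simp only [Matrix.of_apply, Matrix.cons_val', Matrix.cons_val_zero, Matrix.cons_val_one,
      Matrix.cons_val_fin_one, Int.cast_zero, Polynomial.C_0, zero_mul, zero_add, Int.cast_one,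
      Polynomial.C_1, one_mul, add_zero, Int.cast_natCast]
    rw [← Polynomial.C_pow, mul_right_comm, ← Polynomial.C_mul, Polynomial.coeff_C_mul_X_pow,
      if_pos rfl]
  · intro j hj hji
    simp only [Matrix.of_apply, Matrix.cons_val', Matrix.cons_val_zero, Matrix.cons_val_one,
      Matrix.cons_val_fin_one, Int.cast_zero, Polynomial.C_0, zero_mul, zero_add, Int.cast_one,
      Polynomial.C_1, one_mul, add_zero, Int.cast_natCast]
    rw [← Polynomial.C_pow, mul_right_comm, ← Polynomial.C_mul, Polynomial.coeff_C_mul_X_pow,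
      if_neg hji.symm]
  · intro h
    exact absurd (Finset.mem_range.2 (by omega)) h

/-- The action of `(1 c; 0 1)` is the Taylor shift. -/
theorem symAct_shift (n : ℕ) (c : ℤ) (f : R[X]) (hf : f.natDegree ≤ n) :
    symAct n !![1, c; 0, 1] f = Polynomial.taylor (c : R) f := by
  rw [Polynomial.taylor_apply, Polynomial.comp, Polynomial.eval₂_eq_sum_range' _
    (Nat.lt_succ_of_le hf)]
  unfold symAct
  refine Finset.sum_congr rfl fun i _ => ?_
  simp

end JetAux

theorem bJet (h : BComp) : BJet := by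
  intro p _ n m F hmn hF b a ha
  have hp0 : (p : ℤ_[p]) ≠ 0 := by
    exact_mod_cast (Fact.out : p.Prime).ne_zero
  have hpw : ∀ x : ℤ_[p], (p : ℤ_[p]) ^ m ∣ (p : ℤ_[p]) ^ a * x → (p : ℤ_[p]) ^ (m - a) ∣ x := by
    intro x hx
    have e : (p : ℤ_[p]) ^ m = (p : ℤ_[p]) ^ a * (p : ℤ_[p]) ^ (m - a) := by
      rw [← pow_add]
      congr 1
      omega
    rw [e] at hx
    exact (mul_dvd_mul_iff_left (pow_ne_zero _ hp0)).1 hx
  obtain ⟨hdeg, hγ⟩ := hF
  rcases b with _ | b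
  · -- infinity
    show (p : ℤ_[p]) ^ (m - a) ∣ F.coeff (n - a)
    have h1 := hγ 1 (n - a)
    have e1 : mx 1 * dp p = dp p := by
      show (1 : Matrix (Fin 2) (Fin 2) ℤ) * dp p = dp p
      rw [one_mul]
    rw [e1, JetAux.coeff_dp n p F (n - a) (by omega)] at h1
    apply hpw
    have e2 : n - (n - a) = a := by omega
    rw [e2, mul_comm] at h1
    exact h1
  · -- a finite node
    show (p : ℤ_[p]) ^ (m - a) ∣ (Polynomial.taylor (-((b : ℕ) : ℤ_[p])) F).coeff a
    let γ : SL(2, ℤ) := ⟨!![-((b : ℕ) : ℤ), -1; 1, 0], by simp [Matrix.det_fin_two]⟩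
    have h1 := hγ γ (n - a)
    have e1 : mx γ * dp p = !![1, -((b : ℕ) : ℤ); 0, 1] * !![0, -(p : ℤ); 1, 0] := by
      show !![-((b : ℕ) : ℤ), -1; 1, 0] * dp p = _
      unfold dp
      ext i j
      fin_cases i <;> fin_cases j <;> simp [Matrix.mul_apply, Fin.sum_univ_two]
    rw [e1, (h ℤ_[p] n _ _ F hdeg).1, JetAux.symAct_shift n _ F hdeg,
      JetAux.coeff_anti n _ _ a (by omega)] at h1
    apply hpw
    have e2 : (((-(p : ℤ)) : ℤ) : ℤ_[p]) ^ a = (-1) ^ a * (p : ℤ_[p]) ^ a := by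
      push_cast
      rw [neg_pow]
    have e3 : (((-((b : ℕ) : ℤ)) : ℤ) : ℤ_[p]) = -((b : ℕ) : ℤ_[p]) := by push_cast; rfl
    rw [e2, e3] at h1
    have h2 := h1.mul_left ((-1) ^ a)
    have e4 : (-1 : ℤ_[p]) ^ a * ((-1) ^ a * (p : ℤ_[p]) ^ a *
        (Polynomial.taylor (-((b : ℕ) : ℤ_[p])) F).coeff a) =
        (p : ℤ_[p]) ^ a * (Polynomial.taylor (-((b : ℕ) : ℤ_[p])) F).coeff a := by
      rw [← mul_assoc, ← mul_assoc, ← pow_add, ← two_mul, pow_mul]
      simp
    rw [e4] at h2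
    exact h2

end Gou

end
end

section

/-!
B1a: Manin's trick.
-/

open scoped MatrixGroups Polynomial
open CongruenceSubgroup

noncomputable section

namespace Gou

namespace ManinAux

/-- The cocycle condition. -/
def Coc {M : Type} [AddCommGroup M] (φ : Vec → Vec → M) : Prop :=
  (∀ r s t, r ≠ 0 → s ≠ 0 → t ≠ 0 → φ r s + φ s t = φ r t) ∧
    (∀ (c : ℤ) r s, c ≠ 0 → φ (c • r) s = φ r s)

lemma Coc.self {M : Type} [AddCommGroup M] {φ : Vec → Vec → M} (h : Coc φ) {r : Vec} (hr : r ≠ 0) :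
    φ r r = 0 := by
  have := h.1 r r r hr hr hr
  exact left_eq_add.1 this.symm

lemma Coc.anti {M : Type} [AddCommGroup M] {φ : Vec → Vec → M} (h : Coc φ) {r s : Vec} (hr : r ≠ 0)
    (hs : s ≠ 0) : φ r s = -φ s r := by
  have := h.1 r s r hr hs hr
  rw [h.self hr] at this
  exact eq_neg_of_add_eq_zero_left this

/-- `r`, `s` are connected by a path of unimodular segments. -/
def P (r s : Vec) : Prop := ∃ L : List SL(2, ℤ), ∀ (M : Type) [AddCommGroup M] (φ : Vec → Vec → M),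
  Coc φ → φ r s = (L.map fun g => φ ((mx g).mulVec c0) ((mx g).mulVec cI)).sum

lemma P.trans {r s t : Vec} (hr : r ≠ 0) (hs : s ≠ 0) (ht : t ≠ 0) (h1 : P r s) (h2 : P s t) :
    P r t := by
  obtain ⟨L1, h1⟩ := h1
  obtain ⟨L2, h2⟩ := h2
  refine ⟨L1 ++ L2, fun M _ φ hφ => ?_⟩
  rw [List.map_append, List.sum_append, ← h1 M φ hφ, ← h2 M φ hφ, hφ.1 r s t hr hs ht]

/-- The matrix `S`. -/
def SS : SL(2, ℤ) := ⟨!![0, -1; 1, 0], by simp [Matrix.det_fin_two]⟩

lemma mulVec_ne_zero (g : SL(2, ℤ)) {v : Vec} (hv : v ≠ 0) : (mx g).mulVec v ≠ 0 := by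
  intro h
  apply hv
  have h1 : (mx g⁻¹).mulVec ((mx g).mulVec v) = v := by
    rw [Matrix.mulVec_mulVec]
    have : mx g⁻¹ * mx g = 1 := by
      rw [← Matrix.SpecialLinearGroup.coe_mul, inv_mul_cancel, Matrix.SpecialLinearGroup.coe_one]
    rw [this, Matrix.one_mulVec]
  rw [← h1, h, Matrix.mulVec_zero]

lemma c0_ne : c0 ≠ 0 := by
  intro h
  have := congrFun h 1
  simp [c0] at this

lemma cI_ne : cI ≠ 0 := by
  intro h
  have := congrFun h 0
  simp [cI] at this

lemma mx_SS : mx SS = !![0, -1; 1, 0] := rfl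

lemma SS_c0 : (mx SS).mulVec c0 = (-1 : ℤ) • cI := by
  rw [mx_SS]
  funext i
  fin_cases i <;> simp [c0, cI, Matrix.mulVec, dotProduct]

lemma SS_cI : (mx SS).mulVec cI = c0 := by
  rw [mx_SS]
  funext i
  fin_cases i <;> simp [c0, cI, Matrix.mulVec, dotProduct]

lemma P.symm {r s : Vec} (hr : r ≠ 0) (hs : s ≠ 0) (h : P r s) : P s r := by
  obtain ⟨L, hL⟩ := h
  refine ⟨L.map (· * SS), fun M _ φ hφ => ?_⟩
  rw [hφ.anti hs hr, hL M φ hφ]
  have key : ∀ g : SL(2, ℤ), φ ((mx (g * SS)).mulVec c0) ((mx (g * SS)).mulVec cI) =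
      -φ ((mx g).mulVec c0) ((mx g).mulVec cI) := by
    intro g
    have e1 : (mx (g * SS)).mulVec c0 = (-1 : ℤ) • (mx g).mulVec cI := by
      rw [mx, Matrix.SpecialLinearGroup.coe_mul, ← Matrix.mulVec_mulVec, SS_c0, Matrix.mulVec_smul]
    have e2 : (mx (g * SS)).mulVec cI = (mx g).mulVec c0 := by
      rw [mx, Matrix.SpecialLinearGroup.coe_mul, ← Matrix.mulVec_mulVec, SS_cI]
    rw [e1, e2, hφ.2 (-1) _ _ (by norm_num), hφ.anti (mulVec_ne_zero g cI_ne)
      (mulVec_ne_zero g c0_ne)]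
  clear hL
  induction L with
  | nil => simp
  | cons g L ih =>
    simp only [List.map_cons, List.sum_cons] at ih ⊢
    rw [key g, ← ih]
    abel

lemma P.scale {r s : Vec} {c : ℤ} (hc : c ≠ 0) (h : P r s) : P (c • r) s := by
  obtain ⟨L, hL⟩ := h
  refine ⟨L, fun M _ φ hφ => ?_⟩
  rw [hφ.2 c r s hc]
  exact hL M φ hφ

lemma smul_ne {c : ℤ} {r : Vec} (hc : c ≠ 0) (hr : r ≠ 0) : c • r ≠ 0 := smul_ne_zero hc hr

lemma P.seg (g : SL(2, ℤ)) : P ((mx g).mulVec c0) ((mx g).mulVec cI) :=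
  ⟨[g], fun M _ φ _ => by simp⟩

lemma P_prim : ∀ (m : ℕ) (a c : ℤ), IsCoprime a c → c.natAbs = m → P cI ![a, c] := by
  intro m
  induction m using Nat.strong_induction_on with
  | _ m ih =>
    intro a c hac hm
    by_cases hc : c = 0
    · subst hc
      have ha : IsUnit a := isCoprime_zero_right.1 hac
      have ha0 : a ≠ 0 := ha.ne_zero
      have e1 : (![a, 0] : Vec) = a • cI := by
        funext i
        fin_cases i <;> simp [cI]
      refine P.symm ?_ cI_ne ?_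
      · rw [e1]; exact smul_ne ha0 cI_ne
      · rw [e1]
        refine P.scale ha0 ⟨[], fun M _ φ hφ => ?_⟩
        rw [hφ.self cI_ne]; rfl
    · obtain ⟨x, y, hxy⟩ := hac
      have hxc : (x % c) = x - c * (x / c) := by rw [Int.emod_def]
      set c' := x % c with hc'
      set a' : ℤ := -(y + a * (x / c)) with ha'
      have hdet : a * c' - a' * c = 1 := by
        rw [ha', hxc]; linear_combination hxy
      have hlt : c'.natAbs < m := by
        rw [← hm]
        have h0 : 0 ≤ c' := Int.emod_nonneg _ hc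
        have h1 : c' < |c| := Int.emod_lt_abs _ hc
        rw [Int.abs_eq_natAbs] at h1
        omega
      have hcop : IsCoprime a' c' := ⟨-c, a, by linear_combination hdet⟩
      have h1 := ih _ hlt a' c' hcop rfl
      let g : SL(2, ℤ) := ⟨!![a, a'; c, c'], by rw [Matrix.det_fin_two_of]; exact hdet⟩
      have hmx : mx g = !![a, a'; c, c'] := rfl
      have hg0 : (mx g).mulVec c0 = ![a', c'] := by
        rw [hmx]
        funext i
        fin_cases i <;> simp [c0, Matrix.mulVec, dotProduct]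
      have hgI : (mx g).mulVec cI = ![a, c] := by
        rw [hmx]
        funext i
        fin_cases i <;> simp [cI, Matrix.mulVec, dotProduct]
      have h2 := P.seg g
      rw [hg0, hgI] at h2
      have n1 : (![a', c'] : Vec) ≠ 0 := by rw [← hg0]; exact mulVec_ne_zero g c0_ne
      have n2 : (![a, c] : Vec) ≠ 0 := by rw [← hgI]; exact mulVec_ne_zero g cI_ne
      exact h1.trans cI_ne n1 n2 h2

lemma P_all (r : Vec) (hr : r ≠ 0) : P cI r := by
  have hg : Int.gcd (r 0) (r 1) ≠ 0 := by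
    intro h
    rw [Int.gcd_eq_zero_iff] at h
    apply hr
    funext i
    fin_cases i
    · exact h.1
    · exact h.2
  obtain ⟨d, u, v, hd, hcop, hu, hv⟩ := Int.exists_gcd_one' (Nat.pos_of_ne_zero hg)
  have hd0 : (d : ℤ) ≠ 0 := by exact_mod_cast hd.ne'
  have e1 : r = (d : ℤ) • ![u, v] := by
    funext i
    fin_cases i
    · simp only [Fin.zero_eta, Pi.smul_apply, Matrix.cons_val_zero, smul_eq_mul]
      rw [hu, mul_comm]
    · simp only [Fin.mk_one, Pi.smul_apply, Matrix.cons_val_one, smul_eq_mul]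
      rw [hv, mul_comm]
      rfl
  have huv : (![u, v] : Vec) ≠ 0 := by
    intro h
    apply hr
    rw [e1, h, smul_zero]
  have h1 := P_prim _ u v (Int.isCoprime_iff_gcd_eq_one.2 hcop) rfl
  rw [e1]
  exact ((h1.symm cI_ne huv).scale hd0).symm (smul_ne hd0 huv) cI_ne

end ManinAux

open ManinAux in
theorem bManin : BManin := by
  intro r s hr hs
  obtain ⟨L, hL⟩ := ((P_all r hr).symm cI_ne hr).trans hr cI_ne hs (P_all s hs)
  exact ⟨L, fun M _ φ h1 h2 => hL M φ ⟨h1, h2⟩⟩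

end Gou

end
end

section

/-!
MP_602313_nt, item BMap: change of rings and scalar matrices.
-/

open scoped MatrixGroups Polynomial
open CongruenceSubgroup

noncomputable section

namespace Gou

theorem bMap : BMap := by
  intro R R' _ _ φ n g f
  refine ⟨?_, fun _ c => ?_⟩
  · unfold symAct
    rw [Polynomial.map_sum]
    refine Finset.sum_congr rfl fun i _ => ?_
    simp only [Polynomial.map_mul, Polynomial.map_pow, Polynomial.map_add, Polynomial.map_C,
      Polynomial.map_X, map_intCast, Polynomial.map_intCast, Polynomial.coeff_map]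
  · unfold symAct
    rw [Finset.smul_sum]
    refine Finset.sum_congr rfl fun i hi => ?_
    have hi' : i ≤ n := Nat.lt_succ_iff.mp (Finset.mem_range.mp hi)
    have e1 : (Polynomial.C (((c • g) 0 0 : ℤ) : R) * Polynomial.X +
        Polynomial.C (((c • g) 0 1 : ℤ) : R)) =
        Polynomial.C (c : R) * (Polynomial.C ((g 0 0 : ℤ) : R) * Polynomial.X +
        Polynomial.C ((g 0 1 : ℤ) : R)) := by
      rw [Matrix.smul_apply, Matrix.smul_apply, smul_eq_mul, smul_eq_mul, Int.cast_mul,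
        Int.cast_mul, Polynomial.C_mul, Polynomial.C_mul]
      ring
    have e2 : (Polynomial.C (((c • g) 1 0 : ℤ) : R) * Polynomial.X +
        Polynomial.C (((c • g) 1 1 : ℤ) : R)) =
        Polynomial.C (c : R) * (Polynomial.C ((g 1 0 : ℤ) : R) * Polynomial.X +
        Polynomial.C ((g 1 1 : ℤ) : R)) := by
      rw [Matrix.smul_apply, Matrix.smul_apply, smul_eq_mul, smul_eq_mul, Int.cast_mul,
        Int.cast_mul, Polynomial.C_mul, Polynomial.C_mul]
      ring
    rw [e1, e2, mul_pow, mul_pow, Polynomial.smul_eq_C_mul, Polynomial.C_pow]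
    have e3 : (Polynomial.C (c : R)) ^ n = Polynomial.C (c : R) ^ i * Polynomial.C (c : R) ^ (n - i) := by
      rw [← pow_add, Nat.add_sub_cancel' hi']
    rw [e3]
    ring

end Gou

end
end

section

/-!
MP_602313_nt, item B0b: multiplicativity of the action.
-/

open scoped Polynomial

noncomputable section

namespace Gou

theorem symAct_sum {R ι : Type*} [CommRing R] (n : ℕ) (g : Matrix (Fin 2) (Fin 2) ℤ)
    (s : Finset ι) (f : ι → R[X]) : symAct n g (∑ i ∈ s, f i) = ∑ i ∈ s, symAct n g (f i) := by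
  classical
  induction s using Finset.induction_on with
  | empty => rw [Finset.sum_empty, Finset.sum_empty, symAct_zero]
  | insert a s ha ih => rw [Finset.sum_insert ha, Finset.sum_insert ha, symAct_add, ih]

theorem symAct_monomial {R : Type*} [CommRing R] (n : ℕ) (g : Matrix (Fin 2) (Fin 2) ℤ)
    (i : ℕ) (c : R) (hi : i ≤ n) : symAct n g (Polynomial.monomial i c) = Polynomial.C c *
      (Polynomial.C (g 0 0 : R) * Polynomial.X + Polynomial.C (g 0 1 : R)) ^ i *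
      (Polynomial.C (g 1 0 : R) * Polynomial.X + Polynomial.C (g 1 1 : R)) ^ (n - i) := by
  unfold symAct
  rw [Finset.sum_eq_single i]
  · rw [Polynomial.coeff_monomial, if_pos rfl]
  · intro j _ hj
    rw [Polynomial.coeff_monomial, if_neg (Ne.symm hj)]
    simp
  · intro h
    exact absurd (Finset.mem_range.2 (Nat.lt_succ_of_le hi)) h

theorem bMul : BMul := by
  intro R _ a b g f f' hf hf'
  have h1 : f = ∑ i ∈ Finset.range (a + 1), Polynomial.monomial i (f.coeff i) :=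
    f.as_sum_range' (a + 1) (Nat.lt_succ_of_le hf)
  have h2 : f' = ∑ i ∈ Finset.range (b + 1), Polynomial.monomial i (f'.coeff i) :=
    f'.as_sum_range' (b + 1) (Nat.lt_succ_of_le hf')
  calc symAct (a + b) g (f * f')
      = symAct (a + b) g ((∑ i ∈ Finset.range (a + 1), Polynomial.monomial i (f.coeff i)) *
          ∑ j ∈ Finset.range (b + 1), Polynomial.monomial j (f'.coeff j)) := by
        rw [← h1, ← h2]
    _ = ∑ i ∈ Finset.range (a + 1), ∑ j ∈ Finset.range (b + 1), symAct (a + b) g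
          (Polynomial.monomial (i + j) (f.coeff i * f'.coeff j)) := by
        rw [Finset.sum_mul_sum, symAct_sum]
        refine Finset.sum_congr rfl fun i _ => ?_
        rw [symAct_sum]
        refine Finset.sum_congr rfl fun j _ => ?_
        rw [Polynomial.monomial_mul_monomial]
    _ = ∑ i ∈ Finset.range (a + 1), ∑ j ∈ Finset.range (b + 1), (Polynomial.C (f.coeff i) *
          (Polynomial.C (g 0 0 : R) * Polynomial.X + Polynomial.C (g 0 1 : R)) ^ i *
          (Polynomial.C (g 1 0 : R) * Polynomial.X + Polynomial.C (g 1 1 : R)) ^ (a - i)) *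
          (Polynomial.C (f'.coeff j) *
          (Polynomial.C (g 0 0 : R) * Polynomial.X + Polynomial.C (g 0 1 : R)) ^ j *
          (Polynomial.C (g 1 0 : R) * Polynomial.X + Polynomial.C (g 1 1 : R)) ^ (b - j)) := by
        refine Finset.sum_congr rfl fun i hi => Finset.sum_congr rfl fun j hj => ?_
        have hi' : i ≤ a := Nat.lt_succ_iff.1 (Finset.mem_range.1 hi)
        have hj' : j ≤ b := Nat.lt_succ_iff.1 (Finset.mem_range.1 hj)
        rw [symAct_monomial (a + b) g (i + j) _ (Nat.add_le_add hi' hj'),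
          show a + b - (i + j) = (a - i) + (b - j) by omega, pow_add, pow_add, Polynomial.C_mul]
        ring
    _ = symAct a g f * symAct b g f' := by
        rw [← Finset.sum_mul_sum]
        rfl

end Gou

end
end

section

/-!
B7. The norm bound for the Hecke operators on modular symbols.
-/

open scoped MatrixGroups Polynomial
open CongruenceSubgroup

noncomputable section

namespace Gou

namespace BNormAux

/-! ### The `l1` norm of the coefficients -/

/-- the real polynomial `F` dominates the coefficients of `f` -/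
def Dom (f : ℂ[X]) (F : ℝ[X]) : Prop := ∀ i, ‖f.coeff i‖ ≤ F.coeff i

theorem Dom.nonneg {f : ℂ[X]} {F : ℝ[X]} (h : Dom f F) (i : ℕ) : 0 ≤ F.coeff i :=
  (norm_nonneg _).trans (h i)

theorem Dom.add {f g : ℂ[X]} {F G : ℝ[X]} (hf : Dom f F) (hg : Dom g G) : Dom (f + g) (F + G) := by
  intro i
  rw [Polynomial.coeff_add, Polynomial.coeff_add]
  exact (norm_add_le _ _).trans (add_le_add (hf i) (hg i))

theorem Dom.mul {f g : ℂ[X]} {F G : ℝ[X]} (hf : Dom f F) (hg : Dom g G) : Dom (f * g) (F * G) := by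
  intro i
  rw [Polynomial.coeff_mul, Polynomial.coeff_mul]
  refine (norm_sum_le _ _).trans (Finset.sum_le_sum fun x _ => ?_)
  rw [norm_mul]
  exact mul_le_mul (hf _) (hg _) (norm_nonneg _) (hf.nonneg _)

theorem dom_C (a : ℂ) : Dom (Polynomial.C a) (Polynomial.C ‖a‖) := by
  intro i
  rw [Polynomial.coeff_C, Polynomial.coeff_C]
  split_ifs <;> simp

theorem dom_one : Dom 1 1 := by
  have := dom_C 1
  simpa using this

theorem dom_X : Dom Polynomial.X Polynomial.X := by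
  intro i
  rw [Polynomial.coeff_X, Polynomial.coeff_X]
  split_ifs <;> simp

theorem Dom.pow {f : ℂ[X]} {F : ℝ[X]} (hf : Dom f F) : ∀ k : ℕ, Dom (f ^ k) (F ^ k)
  | 0 => by simpa using dom_one
  | k + 1 => by rw [pow_succ, pow_succ]; exact (hf.pow k).mul hf

theorem dom_sum {ι : Type*} (s : Finset ι) (f : ι → ℂ[X]) (F : ι → ℝ[X])
    (h : ∀ i ∈ s, Dom (f i) (F i)) : Dom (∑ i ∈ s, f i) (∑ i ∈ s, F i) := by
  intro k
  rw [Polynomial.finset_sum_coeff, Polynomial.finset_sum_coeff]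
  exact (norm_sum_le _ _).trans (Finset.sum_le_sum fun i hi => h i hi k)

/-- the `l1` norm of the first `n + 1` coefficients -/
def nm (n : ℕ) (f : ℂ[X]) : ℝ := ∑ i ∈ Finset.range (n + 1), ‖f.coeff i‖

theorem nm_nonneg (n : ℕ) (f : ℂ[X]) : 0 ≤ nm n f := Finset.sum_nonneg fun _ _ => norm_nonneg _

theorem nm_zero (n : ℕ) : nm n 0 = 0 := by simp [nm]

theorem nm_add (n : ℕ) (f g : ℂ[X]) : nm n (f + g) ≤ nm n f + nm n g := by
  unfold nm
  rw [← Finset.sum_add_distrib]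
  refine Finset.sum_le_sum fun i _ => ?_
  rw [Polynomial.coeff_add]
  exact norm_add_le _ _

theorem nm_smul (n : ℕ) (c : ℂ) (f : ℂ[X]) : nm n (c • f) = ‖c‖ * nm n f := by
  unfold nm
  rw [Finset.mul_sum]
  refine Finset.sum_congr rfl fun i _ => ?_
  rw [Polynomial.coeff_smul, smul_eq_mul, norm_mul]

theorem nm_eq_zero {n : ℕ} {f : ℂ[X]} (hf : f.natDegree ≤ n) (h : nm n f = 0) : f = 0 := by
  ext i
  rw [Polynomial.coeff_zero]
  by_cases hi : i ≤ n
  · have h1 := (Finset.sum_eq_zero_iff_of_nonneg (fun j _ => norm_nonneg (f.coeff j))).mp h i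
      (Finset.mem_range.mpr (Nat.lt_succ_of_le hi))
    exact norm_eq_zero.mp h1
  · exact Polynomial.coeff_eq_zero_of_natDegree_lt (by omega)

theorem nm_sum {ι : Type*} (n : ℕ) (s : Finset ι) (f : ι → ℂ[X]) :
    nm n (∑ i ∈ s, f i) ≤ ∑ i ∈ s, nm n (f i) := by
  classical
  induction s using Finset.induction_on with
  | empty => simp [nm_zero]
  | insert a s ha ih =>
    rw [Finset.sum_insert ha, Finset.sum_insert ha]
    exact (nm_add n _ _).trans (by linarith)

theorem nm_list {ι : Type*} (n : ℕ) (f : ι → ℂ[X]) (B : ℝ) : ∀ L : List ι,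
    (∀ g ∈ L, nm n (f g) ≤ B) → nm n (L.map f).sum ≤ L.length * B
  | [], _ => by simp [nm_zero]
  | g :: L, h => by
      rw [List.map_cons, List.sum_cons, List.length_cons]
      have h1 := nm_list n f B L fun g' hg' => h g' (List.mem_cons_of_mem _ hg')
      have h2 := h g List.mem_cons_self
      have h3 := nm_add n (f g) (L.map f).sum
      push_cast
      linarith

theorem nm_le_eval {n : ℕ} {f : ℂ[X]} {F : ℝ[X]} (h : Dom f F) : nm n f ≤ F.eval 1 := by
  have h0 : F.natDegree < max (n + 1) (F.natDegree + 1) :=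
    lt_of_lt_of_le (Nat.lt_succ_self _) (le_max_right _ _)
  have h1 : F.eval 1 = ∑ i ∈ Finset.range (max (n + 1) (F.natDegree + 1)), F.coeff i := by
    rw [Polynomial.eval_eq_sum_range' h0]
    simp only [one_pow, mul_one]
  rw [h1]
  calc nm n f ≤ ∑ i ∈ Finset.range (n + 1), F.coeff i := Finset.sum_le_sum fun i _ => h i
    _ ≤ _ := Finset.sum_le_sum_of_subset_of_nonneg
        (Finset.range_subset_range.mpr (le_max_left _ _)) fun i _ _ => h.nonneg i

theorem nm_symAct (n : ℕ) (G : Matrix (Fin 2) (Fin 2) ℤ) (K : ℝ) (hK : ∀ i j, |(G i j : ℝ)| ≤ K)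
    (f : ℂ[X]) : nm n (symAct n G f) ≤ (2 * K) ^ n * nm n f := by
  have hK0 : 0 ≤ K := (abs_nonneg _).trans (hK 0 0)
  have hlin : ∀ a b : ℤ, Dom (Polynomial.C (a : ℂ) * Polynomial.X + Polynomial.C (b : ℂ))
      (Polynomial.C |(a : ℝ)| * Polynomial.X + Polynomial.C |(b : ℝ)|) := by
    intro a b
    have h1 := ((dom_C (a : ℂ)).mul dom_X).add (dom_C (b : ℂ))
    simpa [Complex.norm_intCast] using h1
  have hD : Dom (symAct n G f) (∑ i ∈ Finset.range (n + 1), Polynomial.C ‖f.coeff i‖ *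
      (Polynomial.C |(G 0 0 : ℝ)| * Polynomial.X + Polynomial.C |(G 0 1 : ℝ)|) ^ i *
      (Polynomial.C |(G 1 0 : ℝ)| * Polynomial.X + Polynomial.C |(G 1 1 : ℝ)|) ^ (n - i)) :=
    dom_sum _ _ _ fun i _ => ((dom_C _).mul ((hlin _ _).pow i)).mul ((hlin _ _).pow (n - i))
  refine (nm_le_eval hD).trans ?_
  rw [Polynomial.eval_finset_sum]
  unfold nm
  rw [Finset.mul_sum]
  refine Finset.sum_le_sum fun i hi => ?_
  have hin : i ≤ n := Nat.lt_succ_iff.mp (Finset.mem_range.mp hi)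
  simp only [Polynomial.eval_mul, Polynomial.eval_pow, Polynomial.eval_add, Polynomial.eval_C,
    Polynomial.eval_X, mul_one]
  have h1 : (|(G 0 0 : ℝ)| + |(G 0 1 : ℝ)|) ^ i ≤ (2 * K) ^ i :=
    pow_le_pow_left₀ (by positivity) (by linarith [hK 0 0, hK 0 1]) i
  have h2 : (|(G 1 0 : ℝ)| + |(G 1 1 : ℝ)|) ^ (n - i) ≤ (2 * K) ^ (n - i) :=
    pow_le_pow_left₀ (by positivity) (by linarith [hK 1 0, hK 1 1]) (n - i)
  have h3 : (2 * K) ^ n = (2 * K) ^ i * (2 * K) ^ (n - i) := by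
    rw [← pow_add]; congr 1; omega
  rw [h3]
  calc ‖f.coeff i‖ * (|(G 0 0 : ℝ)| + |(G 0 1 : ℝ)|) ^ i *
        (|(G 1 0 : ℝ)| + |(G 1 1 : ℝ)|) ^ (n - i)
      ≤ ‖f.coeff i‖ * (2 * K) ^ i * (2 * K) ^ (n - i) := by gcongr
    _ = (2 * K) ^ i * (2 * K) ^ (n - i) * ‖f.coeff i‖ := by ring

/-! ### Quantitative Manin trick -/

theorem c0_ne : c0 ≠ 0 := by
  intro h
  have := congrFun h 1
  simp [c0] at this

theorem cI_ne : cI ≠ 0 := by
  intro h
  have := congrFun h 0
  simp [cI] at this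

theorem vec_ne {x y : ℤ} (hy : y ≠ 0) : (![x, y] : Vec) ≠ 0 := by
  intro h
  have := congrFun h 1
  simp at this
  exact hy this

theorem qm : ∀ (y : ℕ) (x : ℤ), 1 ≤ y → 0 ≤ x → x ≤ y → IsCoprime x (y : ℤ) →
    ∃ L : List SL(2, ℤ), L.length ≤ y ∧ (∀ g ∈ L, ∀ i j, |mx g i j| ≤ y) ∧
      ∀ (M : Type) [AddCommGroup M] (φ : Vec → Vec → M),
        (∀ r s t, r ≠ 0 → s ≠ 0 → t ≠ 0 → φ r s + φ s t = φ r t) →
        φ ![x, (y : ℤ)] cI = (L.map fun g => φ ((mx g).mulVec c0) ((mx g).mulVec cI)).sum := by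
  intro y
  induction y using Nat.strong_induction_on with
  | _ y ih =>
    intro x hy hx0 hxy hco
    rcases Nat.lt_or_ge 1 y with hy1 | hy1
    · -- `y ≥ 2`
      have hyZ : (1 : ℤ) < y := by exact_mod_cast hy1
      have hypos : (0 : ℤ) < y := by linarith
      obtain ⟨u, v, huv⟩ := hco
      set y' : ℤ := (-u) % (y : ℤ) with hy'
      have hy'0 : 0 ≤ y' := Int.emod_nonneg _ hypos.ne'
      have hy'1 : y' < y := Int.emod_lt_of_pos _ hypos
      obtain ⟨x', hx'⟩ : ∃ x' : ℤ, 1 + x * y' = y * x' := by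
        have h1 : (y : ℤ) ∣ (-u) - y' := by
          rw [hy']; exact Int.dvd_self_sub_emod
        obtain ⟨k, hk⟩ := h1
        refine ⟨v - x * k, ?_⟩
        have : y' = -u - y * k := by linarith
        rw [this]
        linear_combination -huv
      have hy'ne : y' ≠ 0 := by
        intro h
        rw [h, mul_zero, add_zero] at hx'
        have : (y : ℤ) ∣ 1 := ⟨x', hx'⟩
        have := Int.le_of_dvd one_pos this
        linarith
      have hy'pos : 0 < y' := lt_of_le_of_ne hy'0 (Ne.symm hy'ne)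
      have hxlt : x < y := by
        rcases lt_or_eq_of_le hxy with h | h
        · exact h
        · exfalso
          rw [h] at huv
          have : (y : ℤ) ∣ 1 := ⟨u + v, by linear_combination -huv⟩
          have := Int.le_of_dvd one_pos this
          linarith
      have hx'0 : 0 ≤ x' := by
        by_contra hneg
        push Not at hneg
        have : (y : ℤ) * x' < 0 := mul_neg_of_pos_of_neg hypos hneg
        have h2 : 0 ≤ x * y' := mul_nonneg hx0 hy'0
        linarith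
      have hx'y' : x' ≤ y' := by
        by_contra hneg
        push Not at hneg
        have h2 : (y : ℤ) * (y' + 1) ≤ y * x' := mul_le_mul_of_nonneg_left (by linarith) hypos.le
        have h3 : x * y' ≤ (y - 1) * y' := mul_le_mul_of_nonneg_right (by linarith) hy'0
        nlinarith
      have hco' : IsCoprime x' y' := ⟨y, -x, by linear_combination -hx'⟩
      obtain ⟨w, hw⟩ := Int.eq_ofNat_of_zero_le hy'0
      have hwpos : 1 ≤ w := by
        have : (0 : ℤ) < w := by rw [← hw]; exact hy'pos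
        exact_mod_cast this
      have hwy : w < y := by
        have : (w : ℤ) < y := by rw [← hw]; exact hy'1
        exact_mod_cast this
      obtain ⟨L, hL1, hL2, hL3⟩ := ih w hwy x' hwpos hx'0 (by rw [← hw]; exact hx'y')
        (by rw [← hw]; exact hco')
      let g : SL(2, ℤ) := ⟨!![x', x; y', (y : ℤ)], by
        rw [Matrix.det_fin_two_of]
        linear_combination -hx'⟩
      have hg : mx g = !![x', x; y', (y : ℤ)] := rfl
      refine ⟨g :: L, ?_, ?_, ?_⟩
      · rw [List.length_cons]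
        omega
      · intro g' hg' i j
        rcases List.mem_cons.mp hg' with h | h
        · rw [h, hg]
          have hwyZ : (w : ℤ) < y := by exact_mod_cast hwy
          fin_cases i <;> fin_cases j <;> simp <;> rw [abs_le] <;> constructor <;> linarith
        · refine (hL2 g' h i j).trans ?_
          exact_mod_cast hwy.le
      · intro M _ φ hφ
        rw [List.map_cons, List.sum_cons, ← hL3 M φ hφ]
        have e1 : (mx g).mulVec c0 = ![x, (y : ℤ)] := by
          rw [hg]; ext i; fin_cases i <;> simp [c0, Matrix.mulVec, dotProduct]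
        have e2 : (mx g).mulVec cI = ![x', (w : ℤ)] := by
          rw [hg, ← hw]; ext i; fin_cases i <;> simp [cI, Matrix.mulVec, dotProduct]
        rw [e1, e2]
        exact (hφ _ _ _ (vec_ne hypos.ne') (vec_ne (by rw [← hw]; exact hy'ne)) cI_ne).symm
    · have hy2 : y = 1 := le_antisymm hy1 hy
      subst hy2
      let g : SL(2, ℤ) := ⟨!![1, x; 0, 1], by rw [Matrix.det_fin_two_of]; ring⟩
      have hg : mx g = !![1, x; 0, 1] := rfl
      refine ⟨[g], by simp, ?_, ?_⟩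
      · intro g' hg' i j
        rw [List.mem_singleton] at hg'
        rw [hg', hg]
        have hx1 : x ≤ 1 := by exact_mod_cast hxy
        fin_cases i <;> fin_cases j <;> simp <;> rw [abs_le] <;> constructor <;> linarith
      · intro M _ φ _
        have e1 : (mx g).mulVec c0 = ![x, ((1 : ℕ) : ℤ)] := by
          rw [hg]; ext i; fin_cases i <;> simp [c0, Matrix.mulVec, dotProduct]
        have e2 : (mx g).mulVec cI = cI := by
          rw [hg]; ext i; fin_cases i <;> simp [cI, Matrix.mulVec, dotProduct]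
        simp only [List.map_cons, List.map_nil, List.sum_cons, List.sum_nil, add_zero]
        rw [e1, e2]

/-! ### Hermite normal form -/

theorem hnf (A : Matrix (Fin 2) (Fin 2) ℤ) (l : ℕ) (hl : 0 < l) (hA : A.det = l) :
    ∃ (h : SL(2, ℤ)) (a b d : ℤ), A = mx h * !![a, b; 0, d] ∧ a * d = l ∧ 0 < a ∧ 0 < d ∧
      0 ≤ b ∧ b < d := by
  have hlZ : (0 : ℤ) < l := by exact_mod_cast hl
  have hdet : A 0 0 * A 1 1 - A 0 1 * A 1 0 = l := by rw [← Matrix.det_fin_two, hA]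
  set a : ℕ := Int.gcd (A 0 0) (A 1 0) with ha
  have ha0 : 0 < a := by
    rw [ha, Int.gcd_pos_iff]
    by_contra hcon
    push Not at hcon
    rw [hcon.1, hcon.2] at hdet
    linarith
  have haZ : (0 : ℤ) < a := by exact_mod_cast ha0
  obtain ⟨p', hp'⟩ : (a : ℤ) ∣ A 0 0 := Int.gcd_dvd_left _ _
  obtain ⟨q', hq'⟩ : (a : ℤ) ∣ A 1 0 := Int.gcd_dvd_right _ _
  obtain ⟨u, v, huv⟩ : ∃ u v : ℤ, u * p' + v * q' = 1 := by
    have h1 : ((Int.gcd (A 0 0) (A 1 0) : ℕ) : ℤ) =
      A 0 0 * Int.gcdA (A 0 0) (A 1 0) + A 1 0 * Int.gcdB (A 0 0) (A 1 0) := Int.gcd_eq_gcd_ab _ _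
    rw [← ha] at h1
    refine ⟨Int.gcdA (A 0 0) (A 1 0), Int.gcdB (A 0 0) (A 1 0), ?_⟩
    apply mul_left_cancel₀ haZ.ne'
    generalize Int.gcdA (A 0 0) (A 1 0) = s at h1 ⊢
    generalize Int.gcdB (A 0 0) (A 1 0) = t at h1 ⊢
    rw [hp', hq'] at h1
    linear_combination -h1
  set d : ℤ := p' * A 1 1 - q' * A 0 1 with hd
  have had : (a : ℤ) * d = l := by
    rw [hd, ← hdet, hp', hq']; ring
  have hd0 : 0 < d := by
    by_contra hcon
    push Not at hcon
    have : (a : ℤ) * d ≤ 0 := mul_nonpos_of_nonneg_of_nonpos haZ.le hcon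
    linarith
  set b1 : ℤ := u * A 0 1 + v * A 1 1 with hb1
  set t : ℤ := b1 / d with ht
  have htb : b1 % d + d * t = b1 := Int.emod_add_mul_ediv b1 d
  let h : SL(2, ℤ) := ⟨!![p', p' * t - v; q', q' * t + u], by
    rw [Matrix.det_fin_two_of]
    linear_combination huv⟩
  have hh : mx h = !![p', p' * t - v; q', q' * t + u] := rfl
  refine ⟨h, a, b1 % d, d, ?_, had, haZ, hd0, Int.emod_nonneg _ hd0.ne', Int.emod_lt_of_pos _ hd0⟩
  rw [hh]
  have hb : b1 % d = b1 - d * t := by linarith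
  rw [hb]
  ext i j
  fin_cases i <;> fin_cases j
  · simp [Matrix.mul_apply, Fin.sum_univ_two, hp']; ring
  · simp [Matrix.mul_apply, Fin.sum_univ_two]
    rw [hb1, hd]
    linear_combination (-(A 0 1)) * huv
  · simp [Matrix.mul_apply, Fin.sum_univ_two, hq']; ring
  · simp [Matrix.mul_apply, Fin.sum_univ_two]
    rw [hb1, hd]
    linear_combination (-(A 1 1)) * huv

/-! ### The main estimate -/

theorem key (hC : BComp) (n l : ℕ) (hl : l.Prime) (φ : Vec → Vec → ℂ[X])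
    (hdeg : ∀ r s, (φ r s).natDegree ≤ n)
    (hadd : ∀ r s t, r ≠ 0 → s ≠ 0 → t ≠ 0 → φ r s + φ s t = φ r t)
    (hsc : ∀ (c : ℤ) r s, c ≠ 0 → φ (c • r) s = φ r s) (M0 : ℝ)
    (hM : ∀ h : SL(2, ℤ), nm n (symAct n (mx h) (φ ((mx h).mulVec c0) ((mx h).mulVec cI))) ≤ M0)
    (A : Matrix (Fin 2) (Fin 2) ℤ) (hA : A.det = l) :
    nm n (symAct n A (φ (A.mulVec c0) (A.mulVec cI))) ≤ l * ((4 * (l : ℝ) ^ 2) ^ n * M0) := by
  have hl2 : 2 ≤ l := hl.two_le
  have hM0 : 0 ≤ M0 := (nm_nonneg _ _).trans (hM 1)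
  obtain ⟨h, a, b, d, hAh, had, ha, hd, hb0, hbd⟩ := hnf A l hl.pos hA
  have hinj : ∀ r : Vec, r ≠ 0 → (mx h).mulVec r ≠ 0 := by
    intro r hr h0
    apply hr
    have h1 : (mx h⁻¹).mulVec ((mx h).mulVec r) = r := by
      rw [Matrix.mulVec_mulVec]
      have : mx h⁻¹ * mx h = 1 := by
        show ((h⁻¹ : SL(2, ℤ)) : Matrix (Fin 2) (Fin 2) ℤ) * (h : Matrix (Fin 2) (Fin 2) ℤ) = 1
        rw [← Matrix.SpecialLinearGroup.coe_mul, inv_mul_cancel, Matrix.SpecialLinearGroup.coe_one]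
      rw [this, Matrix.one_mulVec]
    rw [← h1, h0, Matrix.mulVec_zero]
  -- second argument scaling
  have hself : ∀ r, r ≠ 0 → φ r r = 0 := fun r hr => by
    have := hadd r r r hr hr hr
    simpa using this
  have hanti : ∀ r s, r ≠ 0 → s ≠ 0 → φ r s = - φ s r := fun r s hr hs => by
    have := hadd r s r hr hs hr
    rw [hself r hr] at this
    exact eq_neg_of_add_eq_zero_left this
  have hsc2 : ∀ (c : ℤ) r s, c ≠ 0 → r ≠ 0 → s ≠ 0 → φ r (c • s) = φ r s := fun c r s hc hr hs => by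
    rw [hanti r (c • s) hr (smul_ne_zero hc hs), hsc c s r hc, ← hanti r s hr hs]
  set Φ : Vec → Vec → ℂ[X] := fun r s => symAct n A (φ ((mx h).mulVec r) ((mx h).mulVec s)) with hΦ
  have hΦadd : ∀ r s t, r ≠ 0 → s ≠ 0 → t ≠ 0 → Φ r s + Φ s t = Φ r t := fun r s t hr hs ht => by
    simp only [hΦ]
    rw [← symAct_add, hadd _ _ _ (hinj r hr) (hinj s hs) (hinj t ht)]
  have hB : (!![a, b; 0, d] : Matrix (Fin 2) (Fin 2) ℤ).mulVec c0 = ![b, d] := by
    ext i; fin_cases i <;> simp [c0, Matrix.mulVec, dotProduct]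
  have hB' : (!![a, b; 0, d] : Matrix (Fin 2) (Fin 2) ℤ).mulVec cI = a • cI := by
    ext i; fin_cases i <;> simp [cI, Matrix.mulVec, dotProduct]
  have hstart : symAct n A (φ (A.mulVec c0) (A.mulVec cI)) = Φ ![b, d] cI := by
    simp only [hΦ]
    congr 1
    have e1 : A.mulVec c0 = (mx h).mulVec ![b, d] := by
      rw [hAh, ← Matrix.mulVec_mulVec, hB]
    have e2 : A.mulVec cI = a • (mx h).mulVec cI := by
      rw [hAh, ← Matrix.mulVec_mulVec, hB', Matrix.mulVec_smul]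
    rw [e1, e2, hsc2 a _ _ ha.ne' (hinj _ (vec_ne hd.ne')) (hinj _ cI_ne)]
  -- the list
  obtain ⟨L, hL1, hL2, hL3⟩ : ∃ L : List SL(2, ℤ), L.length ≤ l ∧
      (∀ g ∈ L, ∀ i j, |mx g i j| ≤ l) ∧
      Φ ![b, d] cI = (L.map fun g => Φ ((mx g).mulVec c0) ((mx g).mulVec cI)).sum := by
    rcases eq_or_lt_of_le hb0 with hb | hb
    · refine ⟨[1], by simp; omega, ?_, ?_⟩
      · intro g hg i j
        rw [List.mem_singleton] at hg
        rw [hg]
        have h1 : (1 : ℤ) ≤ l := by exact_mod_cast hl.one_lt.le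
        have h2 : mx 1 = 1 := rfl
        rw [h2]
        fin_cases i <;> fin_cases j <;> simp [Matrix.one_apply] <;> omega
      · have e0 : (![b, d] : Vec) = d • c0 := by
          rw [← hb]; ext i; fin_cases i <;> simp [c0]
        have h2 : mx 1 = 1 := rfl
        simp only [List.map_cons, List.map_nil, List.sum_cons, List.sum_nil, add_zero]
        rw [h2, Matrix.one_mulVec, Matrix.one_mulVec, e0]
        simp only [hΦ]
        rw [Matrix.mulVec_smul, hsc d _ _ hd.ne']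
    · have hdl : d = l := by
        have h1 : d.natAbs ∣ l := by
          have : d ∣ (l : ℤ) := ⟨a, by rw [← had]; ring⟩
          simpa using Int.natAbs_dvd_natAbs.mpr this
        rcases (Nat.dvd_prime hl).mp h1 with h2 | h2
        · exfalso; omega
        · omega
      have hco : IsCoprime b (l : ℤ) := by
        rw [Int.isCoprime_iff_gcd_eq_one, Int.gcd_comm]
        have h1 : ¬ (l : ℤ) ∣ b := fun hdv => by
          have := Int.le_of_dvd hb hdv
          omega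
        have h2 : Nat.Coprime l b.natAbs := (Nat.Prime.coprime_iff_not_dvd hl).mpr fun hdv => by
          apply h1
          exact Int.natCast_dvd.mpr hdv
        simpa [Int.gcd] using h2
      obtain ⟨L, hL1, hL2, hL3⟩ := qm l b hl.one_lt.le hb0 (by omega) hco
      refine ⟨L, hL1, hL2, ?_⟩
      rw [hdl]
      exact hL3 ℂ[X] Φ hΦadd
  rw [hstart, hL3]
  have hterm : ∀ g ∈ L, nm n (Φ ((mx g).mulVec c0) ((mx g).mulVec cI)) ≤
      (4 * (l : ℝ) ^ 2) ^ n * M0 := by
    intro g hg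
    set k : SL(2, ℤ) := h * g with hk
    have hkm : mx k = mx h * mx g := rfl
    set F : ℂ[X] := φ ((mx k).mulVec c0) ((mx k).mulVec cI) with hF
    have hFd : F.natDegree ≤ n := hdeg _ _
    have e1 : Φ ((mx g).mulVec c0) ((mx g).mulVec cI) = symAct n A F := by
      simp only [hΦ]
      rw [Matrix.mulVec_mulVec, Matrix.mulVec_mulVec, ← hkm]
    have hmd := (hC ℂ n (mx k) 1 F hFd).2.1
    have hkk : mx k * mx k⁻¹ = 1 := by
      show (k : Matrix (Fin 2) (Fin 2) ℤ) * ((k⁻¹ : SL(2, ℤ)) : Matrix (Fin 2) (Fin 2) ℤ) = 1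
      rw [← Matrix.SpecialLinearGroup.coe_mul, mul_inv_cancel, Matrix.SpecialLinearGroup.coe_one]
    have e2 : F = symAct n (mx k⁻¹) (symAct n (mx k) F) := by
      rw [← (hC ℂ n (mx k) (mx k⁻¹) F hFd).1, hkk, (hC ℂ n 1 1 F hFd).2.2]
    have e3 : symAct n A F = symAct n (mx k⁻¹ * A) (symAct n (mx k) F) := by
      rw [(hC ℂ n (mx k⁻¹) A _ hmd).1, ← e2]
    have e4 : mx k⁻¹ * A = mx g⁻¹ * !![a, b; 0, d] := by
      rw [hAh, ← Matrix.mul_assoc]
      congr 1
      show ((k⁻¹ : SL(2, ℤ)) : Matrix (Fin 2) (Fin 2) ℤ) * (h : Matrix (Fin 2) (Fin 2) ℤ) =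
        ((g⁻¹ : SL(2, ℤ)) : Matrix (Fin 2) (Fin 2) ℤ)
      rw [← Matrix.SpecialLinearGroup.coe_mul, hk]
      congr 1
      group
    have hlZ : (1 : ℤ) ≤ l := by exact_mod_cast hl.one_lt.le
    have hal : a ≤ l := by nlinarith
    have hdl : d ≤ l := by nlinarith
    have hent : ∀ i j, |(((mx k⁻¹ * A) i j : ℤ) : ℝ)| ≤ 2 * (l : ℝ) ^ 2 := by
      intro i j
      have hz : |(mx k⁻¹ * A) i j| ≤ 2 * (l : ℤ) ^ 2 := by
        rw [e4]
        have hg' : mx g⁻¹ = !![mx g 1 1, -(mx g 0 1); -(mx g 1 0), mx g 0 0] := by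
          show ((g⁻¹ : SL(2, ℤ)) : Matrix (Fin 2) (Fin 2) ℤ) = _
          rw [Matrix.SpecialLinearGroup.coe_inv, Matrix.adjugate_fin_two]
        rw [hg']
        have g00 := hL2 g hg 0 0
        have g01 := hL2 g hg 0 1
        have g10 := hL2 g hg 1 0
        have g11 := hL2 g hg 1 1
        have hm : ∀ x y : ℤ, |x| ≤ l → 0 ≤ y → y ≤ l → |x * y| ≤ (l : ℤ) ^ 2 := by
          intro x y hx hy hy'
          rw [abs_mul, abs_of_nonneg hy, sq]
          exact mul_le_mul hx hy' hy (by omega)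
        have hlsq : 0 ≤ (l : ℤ) ^ 2 := by positivity
        fin_cases i <;> fin_cases j
        · simp only [Matrix.mul_apply, Fin.sum_univ_two]
          simp
          have := hm _ a g11 ha.le hal
          rw [abs_mul] at this
          linarith
        · simp only [Matrix.mul_apply, Fin.sum_univ_two]
          simp
          have h1 := hm _ b g11 hb0 (by omega)
          have h2 := hm _ d g01 hd.le hdl
          rw [abs_le] at h1 h2 ⊢
          constructor <;> linarith [h1.1, h1.2, h2.1, h2.2]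
        · simp only [Matrix.mul_apply, Fin.sum_univ_two]
          simp
          have := hm _ a g10 ha.le hal
          rw [abs_mul] at this
          linarith
        · simp only [Matrix.mul_apply, Fin.sum_univ_two]
          simp
          have h1 := hm _ b g10 hb0 (by omega)
          have h2 := hm _ d g00 hd.le hdl
          rw [abs_le] at h1 h2 ⊢
          constructor <;> linarith [h1.1, h1.2, h2.1, h2.2]
      exact_mod_cast hz
    rw [e1, e3]
    refine (nm_symAct n _ _ hent _).trans ?_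
    have e5 : 2 * (2 * (l : ℝ) ^ 2) = 4 * (l : ℝ) ^ 2 := by ring
    rw [e5]
    exact mul_le_mul_of_nonneg_left (hM k) (by positivity)
  refine (nm_list n _ _ L hterm).trans ?_
  have hL1' : (L.length : ℝ) ≤ l := by exact_mod_cast hL1
  have : 0 ≤ (4 * (l : ℝ) ^ 2) ^ n * M0 := by positivity
  exact mul_le_mul_of_nonneg_right hL1' this

/-- the value of a symbol at `h`, transported back -/
def mval (n : ℕ) (φ : Vec → Vec → ℂ[X]) (h : SL(2, ℤ)) : ℂ[X] :=
  symAct n (mx h) (φ ((mx h).mulVec c0) ((mx h).mulVec cI))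

theorem mval_inv (h2 : BComp) (N n : ℕ) (φ : Vec → Vec → ℂ[X]) (hφ : φ ∈ Symb N n ℂ)
    (γ : SL(2, ℤ)) (hγ : γ ∈ Gamma0 N) (h : SL(2, ℤ)) : mval n φ (γ * h) = mval n φ h := by
  obtain ⟨hd, _, _, _, h5⟩ := hφ
  unfold mval
  have e0 : mx (γ * h) = mx γ * mx h := rfl
  rw [e0, (h2 ℂ n (mx γ) (mx h) _ (hd _ _)).1, ← Matrix.mulVec_mulVec, ← Matrix.mulVec_mulVec,
    h5 γ hγ]

theorem mval_zero (h2 : BComp) (n : ℕ) (φ : Vec → Vec → ℂ[X])
    (hdeg : ∀ r s, (φ r s).natDegree ≤ n) (h : SL(2, ℤ)) (hm : mval n φ h = 0) :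
    φ ((mx h).mulVec c0) ((mx h).mulVec cI) = 0 := by
  have hkk : mx h * mx h⁻¹ = 1 := by
    show (h : Matrix (Fin 2) (Fin 2) ℤ) * ((h⁻¹ : SL(2, ℤ)) : Matrix (Fin 2) (Fin 2) ℤ) = 1
    rw [← Matrix.SpecialLinearGroup.coe_mul, mul_inv_cancel, Matrix.SpecialLinearGroup.coe_one]
  have h3 := (h2 ℂ n (mx h) (mx h⁻¹) _ (hdeg ((mx h).mulVec c0) ((mx h).mulVec cI))).1
  rw [hkk, (h2 ℂ n 1 1 _ (hdeg _ _)).2.2] at h3
  rw [h3]
  unfold mval at hm
  rw [hm, symAct_zero]

theorem symAct_sum (n : ℕ) (G : Matrix (Fin 2) (Fin 2) ℤ) (s : Finset ℕ) (f : ℕ → ℂ[X]) :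
    symAct n G (∑ j ∈ s, f j) = ∑ j ∈ s, symAct n G (f j) := by
  induction s using Finset.induction_on with
  | empty => simp [symAct_zero]
  | insert a s ha ih => rw [Finset.sum_insert ha, Finset.sum_insert ha, symAct_add, ih]

theorem mval_hecke (h2 : BComp) (n l : ℕ) (φ : Vec → Vec → ℂ[X])
    (hdeg : ∀ r s, (φ r s).natDegree ≤ n) (S : ℝ)
    (hkey : ∀ A : Matrix (Fin 2) (Fin 2) ℤ, A.det = l →
        nm n (symAct n A (φ (A.mulVec c0) (A.mulVec cI))) ≤ S) (h : SL(2, ℤ)) :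
    nm n (mval n (heckeSymbFun n l φ) h) ≤ (l + 1) * S := by
  have hrep : ∀ (α : Matrix (Fin 2) (Fin 2) ℤ), α.det = l →
      nm n (symAct n (mx h) (symAct n α (φ (α.mulVec ((mx h).mulVec c0))
        (α.mulVec ((mx h).mulVec cI))))) ≤ S := by
    intro α hα
    rw [← (h2 ℂ n α (mx h) _ (hdeg _ _)).1, Matrix.mulVec_mulVec, Matrix.mulVec_mulVec]
    apply hkey
    rw [Matrix.det_mul, hα]
    have : (mx h).det = 1 := h.2
    rw [this, mul_one]
  have hUd : ∀ j : ℕ, (repU l j).det = l := fun j => by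
    simp [repU, Matrix.det_fin_two_of]
  have hVd : (repV l).det = l := by simp [repV, Matrix.det_fin_two_of]
  have e1 : mval n (heckeSymbFun n l φ) h =
      ∑ j ∈ Finset.range l, symAct n (mx h) (symAct n (repU l j)
        (φ ((repU l j).mulVec ((mx h).mulVec c0)) ((repU l j).mulVec ((mx h).mulVec cI))))
      + symAct n (mx h) (symAct n (repV l)
        (φ ((repV l).mulVec ((mx h).mulVec c0)) ((repV l).mulVec ((mx h).mulVec cI)))) := by
    unfold mval heckeSymbFun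
    rw [symAct_add, symAct_sum]
  rw [e1]
  refine (nm_add n _ _).trans ?_
  have e2 : nm n (∑ j ∈ Finset.range l, symAct n (mx h) (symAct n (repU l j)
        (φ ((repU l j).mulVec ((mx h).mulVec c0)) ((repU l j).mulVec ((mx h).mulVec cI))))) ≤
      l * S := by
    refine (nm_sum n _ _).trans ?_
    refine (Finset.sum_le_sum fun j _ => hrep (repU l j) (hUd j)).trans ?_
    simp
  have e3 := hrep (repV l) hVd
  linarith

theorem num_bound (ι l n : ℕ) (hl : 2 ≤ l) (x : ℝ) (hx : 0 ≤ x) :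
    (ι : ℝ) * ((l + 1) * (l * ((4 * (l : ℝ) ^ 2) ^ n * x))) ≤
      (l : ℝ) ^ ((ι + 4) * (n + 1)) * x := by
  have hl2 : (2 : ℝ) ≤ l := by exact_mod_cast hl
  have hl0 : (0 : ℝ) < l := by linarith
  have b1 : (ι : ℝ) ≤ (l : ℝ) ^ ι := by
    calc (ι : ℝ) ≤ (2 : ℝ) ^ ι := by exact_mod_cast Nat.lt_two_pow_self.le
      _ ≤ (l : ℝ) ^ ι := pow_le_pow_left₀ (by norm_num) hl2 ι
  have b2 : (l : ℝ) + 1 ≤ (l : ℝ) ^ 2 := by nlinarith
  have b3 : (4 * (l : ℝ) ^ 2) ^ n ≤ (l : ℝ) ^ (4 * n) := by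
    rw [pow_mul]
    apply pow_le_pow_left₀ (by positivity)
    have : (4 : ℝ) ≤ (l : ℝ) ^ 2 := by nlinarith
    nlinarith [sq_nonneg (l : ℝ)]
  calc (ι : ℝ) * ((l + 1) * (l * ((4 * (l : ℝ) ^ 2) ^ n * x)))
      ≤ (l : ℝ) ^ ι * ((l : ℝ) ^ 2 * (l * ((l : ℝ) ^ (4 * n) * x))) := by gcongr
    _ = (l : ℝ) ^ (ι + 3 + 4 * n) * x := by ring
    _ ≤ (l : ℝ) ^ ((ι + 4) * (n + 1)) * x := by
        apply mul_le_mul_of_nonneg_right _ hx
        apply pow_le_pow_right₀ (by linarith)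
        nlinarith

/-- the norm -/
def nrm0 (n ι : ℕ) (g : Fin ι → SL(2, ℤ)) (φ : Vec → Vec → ℂ[X]) : ℝ :=
  ∑ j, nm n (mval n φ (g j))

theorem main_aux (h1 : BManin) (h2 : BComp) (N ι : ℕ) (g : Fin ι → SL(2, ℤ))
    (hg : ∀ h : SL(2, ℤ), ∃ (j : Fin ι) (γ : SL(2, ℤ)), γ ∈ Gamma0 N ∧ h = γ * g j) :
    SymbNorm N := by
  refine ⟨ι + 4, fun n _ => ⟨nrm0 n ι g, ?_⟩⟩
  have hnn : ∀ φ, 0 ≤ nrm0 n ι g φ := fun φ => Finset.sum_nonneg fun j _ => nm_nonneg n _
  have hle : ∀ φ ∈ Symb N n ℂ, ∀ h : SL(2, ℤ), nm n (mval n φ h) ≤ nrm0 n ι g φ := by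
    intro φ hφ h
    obtain ⟨j, γ, hγ, hh⟩ := hg h
    rw [hh, mval_inv h2 N n φ hφ γ hγ]
    unfold nrm0
    exact Finset.single_le_sum (f := fun j => nm n (mval n φ (g j))) (fun j _ => nm_nonneg n _)
      (Finset.mem_univ j)
  refine ⟨?_, ?_, ?_, ?_⟩
  · intro φ hφ
    refine ⟨hnn φ, fun h0 => ?_⟩
    have hφ0 : ∀ h : SL(2, ℤ), φ ((mx h).mulVec c0) ((mx h).mulVec cI) = 0 := by
      intro h
      have h3 : nm n (mval n φ h) = 0 :=
        le_antisymm ((hle φ hφ h).trans h0.le) (nm_nonneg n _)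
      exact mval_zero h2 n φ hφ.1 h (nm_eq_zero (h2 ℂ n (mx h) 1 _ (hφ.1 _ _)).2.1 h3)
    funext r s
    by_cases hr : r = 0
    · exact hφ.2.1 r s (Or.inl hr)
    by_cases hs : s = 0
    · exact hφ.2.1 r s (Or.inr hs)
    obtain ⟨L, hL⟩ := h1 r s hr hs
    rw [hL ℂ[X] φ hφ.2.2.1 hφ.2.2.2.1]
    have : (L.map fun g => φ ((mx g).mulVec c0) ((mx g).mulVec cI)) = L.map fun _ => (0 : ℂ[X]) :=
      List.map_congr_left fun g _ => hφ0 g
    rw [this]
    simp
  · intro c φ _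
    unfold nrm0
    rw [Finset.mul_sum]
    refine Finset.sum_congr rfl fun j _ => ?_
    unfold mval
    rw [Pi.smul_apply, Pi.smul_apply, symAct_smul, nm_smul]
  · intro φ _ φ' _
    unfold nrm0
    rw [← Finset.sum_add_distrib]
    refine Finset.sum_le_sum fun j _ => ?_
    unfold mval
    rw [Pi.add_apply, Pi.add_apply, symAct_add]
    exact nm_add n _ _
  · intro l hl _ φ hφ
    have hkey : ∀ A : Matrix (Fin 2) (Fin 2) ℤ, A.det = l →
        nm n (symAct n A (φ (A.mulVec c0) (A.mulVec cI))) ≤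
          l * ((4 * (l : ℝ) ^ 2) ^ n * nrm0 n ι g φ) := fun A hA =>
      key h2 n l hl φ hφ.1 hφ.2.2.1 hφ.2.2.2.1 (nrm0 n ι g φ) (fun h => hle φ hφ h) A hA
    refine le_trans ?_ (num_bound ι l n hl.two_le (nrm0 n ι g φ) (hnn φ))
    have h4 := fun j => mval_hecke h2 n l φ hφ.1 _ hkey (g j)
    have h5 : nrm0 n ι g (heckeSymbFun n l φ) ≤
        ∑ _j : Fin ι, ((l : ℝ) + 1) * (l * ((4 * (l : ℝ) ^ 2) ^ n * nrm0 n ι g φ)) := by
      conv_lhs => unfold nrm0
      exact Finset.sum_le_sum fun j _ => h4 j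
    refine h5.trans_eq ?_
    rw [Finset.sum_const, Finset.card_univ, Fintype.card_fin, nsmul_eq_mul]

end BNormAux

open BNormAux

/-- B7. The norm bound. -/
theorem bNorm (h1 : BManin) (h2 : BComp) (h3 : BReps) : BNorm := by
  intro N hN
  obtain ⟨g, hg⟩ := h3 N hN
  exact main_aux h1 h2 N _ g hg

end Gou

end
end

section

/-!
B1b: coset representatives.
-/

open scoped MatrixGroups Polynomial
open CongruenceSubgroup

noncomputable section

namespace Gou

theorem bReps : BReps := by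
  intro N hN
  have : NeZero N := ⟨hN⟩
  have hfi : (Gamma0 N).FiniteIndex := inferInstance
  have : Finite (SL(2, ℤ) ⧸ Gamma0 N) := inferInstance
  let e : (SL(2, ℤ) ⧸ Gamma0 N) ≃ Fin (Gamma0 N).index := Finite.equivFin _
  refine ⟨fun j => ((e.symm j).out)⁻¹, fun h => ?_⟩
  refine ⟨e (QuotientGroup.mk h⁻¹), (((QuotientGroup.mk h⁻¹ : SL(2, ℤ) ⧸ Gamma0 N).out)⁻¹ * h⁻¹)⁻¹, ?_, ?_⟩
  · apply Subgroup.inv_mem
    rw [← QuotientGroup.eq]
    exact QuotientGroup.out_eq' _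
  · beta_reduce
    rw [Equiv.symm_apply_apply]
    group

end Gou

end
end

section

/-!
Module B, second part: counting modular symbols with finite coefficients.
All coefficient modules are subquotients `K / J` of the additive group `ℤ_[p][X]`.
-/

open scoped MatrixGroups Polynomial
open CongruenceSubgroup

noncomputable section

namespace Gou

/-- The element `S = (0 -1; 1 0)` of `SL(2, ℤ)`, of order 4. -/
def mS : SL(2, ℤ) := ⟨!![0, -1; 1, 0], by simp [Matrix.det_fin_two]⟩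

/-- The element `V = (-1 1; -1 0)` of `SL(2, ℤ)`, of order 3; `V 0 = ∞`, `V ∞ = 1`, `V 1 = 0`. -/
def mV : SL(2, ℤ) := ⟨!![-1, 1; -1, 0], by simp [Matrix.det_fin_two]⟩

/-- The element `T = (1 1; 0 1)`. -/
def mT : SL(2, ℤ) := ⟨!![1, 1; 0, 1], by simp [Matrix.det_fin_two]⟩

/-- A right action of `SL(2, ℤ)` on an abelian group, `-1` acting trivially. -/
structure SLAct (M : Type) [AddCommGroup M] where
  act : SL(2, ℤ) → M →+ M
  one : ∀ x, act 1 x = x
  mul : ∀ g h x, act (g * h) x = act h (act g x)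
  neg : ∀ x, act (-1) x = x

/-- Modular symbols with values in `M`. -/
def SymbM (N : ℕ) (M : Type) [AddCommGroup M] (A : SLAct M) : Set (Vec → Vec → M) :=
  {φ | (∀ r s, (r = 0 ∨ s = 0) → φ r s = 0) ∧
    (∀ r s t, r ≠ 0 → s ≠ 0 → t ≠ 0 → φ r s + φ s t = φ r t) ∧
    (∀ (c : ℤ) r s, c ≠ 0 → φ (c • r) s = φ r s) ∧
    (∀ γ ∈ Gamma0 N, ∀ r s, A.act γ (φ ((mx γ).mulVec r) ((mx γ).mulVec s)) = φ r s)}

/-- B3a. The counting lemma. -/
def BCount : Prop := ∀ (N : ℕ) (M : Type) [AddCommGroup M] [Finite M] (A : SLAct M), N ≠ 0 →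
  ∃ e2 ε2 e3 ε3 : ℕ, 2 * e2 + ε2 = (Gamma0 N).index ∧ 3 * e3 + ε3 = (Gamma0 N).index ∧
    Nat.card (SymbM N M A) * Nat.card M ^ (Gamma0 N).index ≤
      Nat.card M ^ (e2 + 2 * e3) * Nat.card {x : M // x + A.act mS x = 0} ^ ε2 *
        Nat.card {x : M // x + A.act mV x + A.act (mV * mV) x = 0} ^ ε3 *
        Nat.card {x : M // A.act mT x = x}

/-! Subquotients of `ℤ_[p][X]`. -/

variable (p : ℕ) [Fact p.Prime]

/-- Polynomials of degree at most `n`. -/
def Pn (n : ℕ) : AddSubgroup ℤ_[p][X] where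
  carrier := {f | f.natDegree ≤ n}
  add_mem' {a b} ha hb := (Polynomial.natDegree_add_le a b).trans (max_le ha hb)
  zero_mem' := by simp
  neg_mem' {a} ha := by simpa using ha

/-- Polynomials of degree at most `n` divisible by `p^h`. -/
def pPn (n h : ℕ) : AddSubgroup ℤ_[p][X] where
  carrier := {f | f.natDegree ≤ n ∧ dvdP ((p : ℤ_[p]) ^ h) f}
  add_mem' {a b} ha hb := ⟨(Polynomial.natDegree_add_le a b).trans (max_le ha.1 hb.1), fun i => by
    rw [Polynomial.coeff_add]; exact dvd_add (ha.2 i) (hb.2 i)⟩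
  zero_mem' := ⟨by simp, fun i => by simp⟩
  neg_mem' {a} ha := ⟨by simpa using ha.1, fun i => by
    rw [Polynomial.coeff_neg]; exact (dvd_neg).2 (ha.2 i)⟩

/-- The group `I_m`. -/
def Ip (n m : ℕ) : AddSubgroup ℤ_[p][X] where
  carrier := {f | InI p n m f}
  add_mem' {a b} ha hb := ⟨(Polynomial.natDegree_add_le a b).trans (max_le ha.1 hb.1),
    fun γ i => by
      rw [symAct_add, Polynomial.coeff_add]; exact dvd_add (ha.2 γ i) (hb.2 γ i)⟩
  zero_mem' := ⟨by simp, fun γ i => by simp [symAct_zero]⟩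
  neg_mem' {a} ha := ⟨by simpa using ha.1, fun γ i => by
    have h : symAct n (mx γ * dp p) (-a) = - symAct n (mx γ * dp p) a := by
      rw [eq_neg_iff_add_eq_zero, ← symAct_add]; simp [symAct_zero]
    rw [h, Polynomial.coeff_neg]; exact (dvd_neg).2 (ha.2 γ i)⟩

variable {p}

/-- Stability under `SL(2, ℤ)`. -/
def Stab (n : ℕ) (K : AddSubgroup ℤ_[p][X]) : Prop :=
  ∀ γ : SL(2, ℤ), ∀ f ∈ K, symAct n (mx γ) f ∈ K

theorem symAct_neg' {R : Type*} [CommRing R] (n : ℕ) (g : Matrix (Fin 2) (Fin 2) ℤ) (f : R[X]) :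
    symAct n g (-f) = - symAct n g f := by
  rw [eq_neg_iff_add_eq_zero, ← symAct_add]; simp [symAct_zero]

/-- The operator `N_g = 1 + g` (`d = 2`) or `1 + g + g^2` (`d = 3`): `sum_{i<d} g^i`. -/
def Ng (n d : ℕ) (g : SL(2, ℤ)) (f : ℤ_[p][X]) : ℤ_[p][X] :=
  ∑ i ∈ Finset.range d, symAct n (mx (g ^ i)) f

/-- `{x ∈ K : N_g x ∈ J}`. -/
def kerN (n d : ℕ) (g : SL(2, ℤ)) (K J : AddSubgroup ℤ_[p][X]) : AddSubgroup ℤ_[p][X] where
  carrier := {x | x ∈ K ∧ Ng n d g x ∈ J}
  add_mem' {a b} ha hb := ⟨K.add_mem ha.1 hb.1, by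
    have : Ng n d g (a + b) = Ng n d g a + Ng n d g b := by
      simp [Ng, symAct_add, Finset.sum_add_distrib]
    rw [this]; exact J.add_mem ha.2 hb.2⟩
  zero_mem' := ⟨K.zero_mem, by simp [Ng, symAct_zero, J.zero_mem]⟩
  neg_mem' {a} ha := ⟨K.neg_mem ha.1, by
    have : Ng n d g (-a) = - Ng n d g a := by simp [Ng, symAct_neg']
    rw [this]; exact J.neg_mem ha.2⟩

/-- `{x ∈ K : x T - x ∈ J}`. -/
def kerT (n : ℕ) (K J : AddSubgroup ℤ_[p][X]) : AddSubgroup ℤ_[p][X] where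
  carrier := {x | x ∈ K ∧ symAct n (mx mT) x - x ∈ J}
  add_mem' {a b} ha hb := ⟨K.add_mem ha.1 hb.1, by
    have : symAct n (mx mT) (a + b) - (a + b)
        = (symAct n (mx mT) a - a) + (symAct n (mx mT) b - b) := by
      rw [symAct_add]; ring
    rw [this]; exact J.add_mem ha.2 hb.2⟩
  zero_mem' := ⟨K.zero_mem, by simp [symAct_zero, J.zero_mem]⟩
  neg_mem' {a} ha := ⟨K.neg_mem ha.1, by
    have : symAct n (mx mT) (-a) - (-a) = - (symAct n (mx mT) a - a) := by
      rw [symAct_neg']; ring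
    rw [this]; exact J.neg_mem ha.2⟩

/-- B3b. Counting families of symbols with values in `K`, pairwise distinct modulo `J`. -/
def BCountJK : Prop := ∀ (p : ℕ) [Fact p.Prime] (N n : ℕ) (K J : AddSubgroup ℤ_[p][X]) (L E : ℝ),
  N ≠ 0 → Even n → J ≤ K → K ≤ Pn p n → Stab n K → Stab n J → J.relIndex K ≠ 0 → 0 ≤ L → 0 ≤ E →
  |Real.logb p (J.relIndex K) - L| ≤ E →
  Real.logb p (J.relIndex (kerN n 2 mS K J)) ≤ L / 2 + E →
  Real.logb p (J.relIndex (kerN n 3 mV K J)) ≤ 2 * L / 3 + E →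
  Real.logb p (J.relIndex (kerT n K J)) ≤ E →
  ∀ (r : ℕ) (φ : Fin r → Vec → Vec → ℤ_[p][X]), (∀ i, φ i ∈ Symb N n ℤ_[p]) →
    (∀ i a b, φ i a b ∈ K) → (∀ i j, (∀ a b, φ i a b - φ j a b ∈ J) → i = j) →
    Real.logb p r ≤ ((Gamma0 N).index : ℝ) / 6 * L + (4 * ((Gamma0 N).index : ℝ) + 1) * E

/-! ### The ideal `I_m` -/

/-- `Θ = X^p Y - X Y^p`, in the model of degree at most `p + 1`: `X^p - X`. -/
def Theta (p : ℕ) [Fact p.Prime] : ℤ_[p][X] := Polynomial.X ^ p - Polynomial.X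

/-- B5a. One step: `F = R + Θ G`, `R` in the span of `1, X, ..., X^(p-1), X^n`. -/
def BStep : Prop := ∀ (p : ℕ) [Fact p.Prime] (n : ℕ), p + 1 ≤ n →
  (∀ F ∈ Pn p n, ∃ R G : ℤ_[p][X], F = R + Theta p * G ∧ G ∈ Pn p (n - (p + 1)) ∧ R ∈ Pn p n ∧
    (∀ i, p ≤ i → i ≠ n → R.coeff i = 0)) ∧
  (∀ (R G : ℤ_[p][X]) (m : ℕ), G ∈ Pn p (n - (p + 1)) → R ∈ Pn p n →
    (∀ i, p ≤ i → i ≠ n → R.coeff i = 0) →
    (R + Theta p * G ∈ Ip p n m ↔
      dvdP ((p : ℤ_[p]) ^ m) R ∧ G ∈ Ip p (n - (p + 1)) (m - 1)))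

/-- B5b. Products: `F ∈ I_a(n)`, `G ∈ I_b(n')` give `F G ∈ I_(a+b)(n+n')`; `Θ ∈ I_1(p+1)`;
`p^m Sym ≤ I_m`; stability; monotonicity. -/
def BProd : Prop := ∀ (p : ℕ) [Fact p.Prime],
  (∀ (n n' a b : ℕ) (F G : ℤ_[p][X]), F ∈ Ip p n a → G ∈ Ip p n' b → F * G ∈ Ip p (n + n') (a + b)) ∧
  Theta p ∈ Ip p (p + 1) 1 ∧ (∀ n m : ℕ, pPn p n m ≤ Ip p n m) ∧ (∀ n m : ℕ, Stab n (Ip p n m)) ∧
  (∀ n m m' : ℕ, m ≤ m' → Ip p n m' ≤ Ip p n m) ∧ (∀ n : ℕ, Ip p n 0 = Pn p n) ∧
  (∀ n h : ℕ, Stab n (pPn p n h)) ∧ (∀ n : ℕ, Stab n (Pn p n))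

/-- B5c. Index of `I_m`. -/
def BCard : Prop := ∀ (p : ℕ) [Fact p.Prime] (n m : ℕ), (p + 1) * m ≤ n →
  2 * Real.logb p ((Ip p n m).relIndex (Pn p n)) = ((p : ℝ) + 1) * m * (m + 1) ∧
  (Ip p n m).relIndex (Pn p n) ≠ 0

/-- B5d. `I_m` is generated by the `p^(m-i) Θ^i Sym`. -/
def BTheta : Prop := ∀ (p : ℕ) [Fact p.Prime] (n m : ℕ), (p + 1) * m ≤ n → ∀ F ∈ Ip p n m,
  ∃ G : ℕ → ℤ_[p][X], (∀ i ≤ m, G i ∈ Pn p (n - (p + 1) * i)) ∧
    F = ∑ i ∈ Finset.range (m + 1), Polynomial.C ((p : ℤ_[p]) ^ (m - i)) * Theta p ^ i * G i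

/-- The invariant product `H = prod_{j<e} Θ g^j` for `g` of order `e`. -/
def HH (p : ℕ) [Fact p.Prime] (e : ℕ) (g : SL(2, ℤ)) : ℤ_[p][X] :=
  ∏ j ∈ Finset.range e, symAct (p + 1) (mx (g ^ j)) (Theta p)

/-- B5e. Properties of `H`. -/
def BH : Prop := ∀ (p : ℕ) [Fact p.Prime] (e : ℕ) (g : SL(2, ℤ)), g ^ e = 1 → 1 ≤ e →
  HH p e g ∈ Pn p (e * (p + 1)) ∧ symAct (e * (p + 1)) (mx g) (HH p e g) = HH p e g ∧
  HH p e g ∈ Ip p (e * (p + 1)) e ∧
  (∃ K : ℤ_[p][X], K ∈ Pn p (e * (p + 1)) ∧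
    Theta p ^ e = HH p e g + Polynomial.C (p : ℤ_[p]) * K) ∧
  ¬ dvdP (p : ℤ_[p]) (HH p e g)

/-- B4. Kernel of the norm on a lattice modulo `p^j`. -/
def BLat : Prop := ∀ (p : ℕ) [Fact p.Prime] (W : Type) [AddCommGroup W] [Module ℤ_[p] W]
  [Module.Free ℤ_[p] W] [Module.Finite ℤ_[p] W] (g : W →ₗ[ℤ_[p]] W) (d j : ℕ), 1 ≤ d → g ^ d = 1 →
  ∀ (Kj Pj : AddSubgroup W),
    (∀ x, x ∈ Pj ↔ ∃ y : W, x = ((p : ℤ_[p]) ^ j) • y) →
    (∀ x, x ∈ Kj ↔ (∑ i ∈ Finset.range d, (g ^ i) x) ∈ Pj) →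
    Pj.relIndex Kj ≠ 0 ∧
    Pj.relIndex Kj ≤ p ^ (j * Module.finrank ℤ_[p]
      (LinearMap.ker (∑ i ∈ Finset.range d, g ^ i)) + padicValNat p d * Module.finrank ℤ_[p] W)

/-- `kk n`: the rank of the kernel of `N_g` on the polynomials of degree at most `n`:
`kk n = n + 1 - (trace of N_g)/d`. We only need a function with the following properties. -/
def BKK : Prop := ∀ (p : ℕ) [Fact p.Prime] (d e : ℕ) (g : SL(2, ℤ)),
  ((d = 2 ∧ e = 4 ∧ g = mS) ∨ (d = 3 ∧ e = 3 ∧ g = mV)) →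
  ∃ kk : ℕ → ℕ,
    (∀ n, (d = 2 → Even n) → |(kk n : ℝ) - (1 - 1 / (d : ℝ)) * ((n : ℝ) + 1)| ≤ 1) ∧
    -- kernel on `Sym / p^j`
    (∀ n j, (d = 2 → Even n) →
      (pPn p n j).relIndex (kerN n d g (Pn p n) (pPn p n j)) ≠ 0 ∧
      (pPn p n j).relIndex (kerN n d g (Pn p n) (pPn p n j)) ≤
        p ^ (j * kk n + padicValNat p d * (n + 1))) ∧
    -- kernel on `Sym / (H Sym' + p^j)`
    (∀ n j, (d = 2 → Even n) → e * (p + 1) ≤ n →
      ∀ J : AddSubgroup ℤ_[p][X], (∀ x, x ∈ J ↔ ∃ a b : ℤ_[p][X], a ∈ Pn p (n - e * (p + 1)) ∧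
        b ∈ pPn p n j ∧ x = HH p e g * a + b) →
      kk (n - e * (p + 1)) ≤ kk n ∧
      J.relIndex (kerN n d g (Pn p n) J) ≠ 0 ∧
      J.relIndex (kerN n d g (Pn p n) J) ≤
        p ^ (j * (kk n - kk (n - e * (p + 1))) + padicValNat p d * (e * (p + 1))))

/-- B5f. Kernel of `N_g` on `Sym / I_m`. -/
def BKerI : Prop := ∀ (p : ℕ) [Fact p.Prime], ∃ C : ℝ, 0 ≤ C ∧ ∀ n m : ℕ, Even n →
  (p + 1) * m ≤ n →
  Real.logb p ((Ip p n m).relIndex (kerN n 2 mS (Pn p n) (Ip p n m))) ≤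
    1 / 2 * (((p : ℝ) + 1) * (m : ℝ) ^ 2 / 2) + C * (m + 1) ∧
  Real.logb p ((Ip p n m).relIndex (kerN n 3 mV (Pn p n) (Ip p n m))) ≤
    2 / 3 * (((p : ℝ) + 1) * (m : ℝ) ^ 2 / 2) + C * (m + 1)

/-- B5g. Kernel of `T - 1` on subquotients of `Sym` killed by `p^h`. -/
def BKerT : Prop := ∀ (p : ℕ) [Fact p.Prime] (n h : ℕ),
  (∀ J : AddSubgroup ℤ_[p][X], J ≤ Pn p n → pPn p n h ≤ J → Stab n J →
    Real.logb p (J.relIndex (kerT n (Pn p n) J)) ≤ h + n) ∧
  (∀ K : AddSubgroup ℤ_[p][X], K ≤ Pn p n → Stab n K →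
    Real.logb p ((K ⊓ pPn p n h).relIndex (kerT n K (K ⊓ pPn p n h))) ≤ h + n)

/-- B5h. The module `I_m` modulo `p^h`. -/
def BWW : Prop := ∀ (p : ℕ) [Fact p.Prime], ∃ C : ℝ, 0 ≤ C ∧ ∀ n m h : ℕ, Even n → 1 ≤ h →
  (p + 1) * m ≤ n →
  |Real.logb p ((Ip p n m ⊓ pPn p n h).relIndex (Ip p n m)) - h * ((n : ℝ) - (p + 1) * m)| ≤
    C * ((h : ℝ) ^ 2 + n + 1) ∧
  (Ip p n m ⊓ pPn p n h).relIndex (Ip p n m) ≠ 0 ∧
  Real.logb p ((Ip p n m ⊓ pPn p n h).relIndex (kerN n 2 mS (Ip p n m) (Ip p n m ⊓ pPn p n h))) ≤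
    1 / 2 * (h * ((n : ℝ) - (p + 1) * m)) + C * ((h : ℝ) ^ 2 + n + 1) ∧
  Real.logb p ((Ip p n m ⊓ pPn p n h).relIndex (kerN n 3 mV (Ip p n m) (Ip p n m ⊓ pPn p n h))) ≤
    2 / 3 * (h * ((n : ℝ) - (p + 1) * m)) + C * ((h : ℝ) ^ 2 + n + 1)

/-- B6. The three consequences. -/
def BImage : Prop := ∀ (p N : ℕ) [Fact p.Prime], N ≠ 0 → ¬ p ∣ N → SymbImage p N

def BHodge : Prop := ∀ (p N : ℕ) [Fact p.Prime], N ≠ 0 → ¬ p ∣ N → DualStep p → SymbHodge p N

def BRank : Prop := ∀ N : ℕ, N ≠ 0 → SymbRank N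

end Gou

end
end

section

/-!
Module B, item BTp: if `T_p φ` is divisible by `p^s` then all values of `φ` lie in
`I_(s-e0)`.
-/

open scoped MatrixGroups Polynomial
open CongruenceSubgroup

noncomputable section

namespace Gou

/-- coefficients of `F * (1 0; 0 p)` -/
lemma tp_coeff_dp {R : Type*} [CommRing R] (n p : ℕ) (F : R[X]) (i : ℕ) :
    (symAct n (dp p) F).coeff i = if i ≤ n then F.coeff i * (p : R) ^ (n - i) else 0 := by
  unfold symAct dp
  rw [Polynomial.finsetSum_coeff]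
  have h : ∀ j ∈ Finset.range (n + 1), (Polynomial.C (F.coeff j) *
      (Polynomial.C (((!![1, 0; 0, (p : ℤ)] : Matrix (Fin 2) (Fin 2) ℤ) 0 0 : ℤ) : R) *
        Polynomial.X + Polynomial.C (((!![1, 0; 0, (p : ℤ)] : Matrix (Fin 2) (Fin 2) ℤ) 0 1 : ℤ)
          : R)) ^ j *
      (Polynomial.C (((!![1, 0; 0, (p : ℤ)] : Matrix (Fin 2) (Fin 2) ℤ) 1 0 : ℤ) : R) *
        Polynomial.X + Polynomial.C (((!![1, 0; 0, (p : ℤ)] : Matrix (Fin 2) (Fin 2) ℤ) 1 1 : ℤ)
          : R)) ^ (n - j)).coeff i = if i = j then F.coeff j * (p : R) ^ (n - j) else 0 := by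
    intro j _
    have h1 : (Polynomial.C (F.coeff j) *
      (Polynomial.C (((!![1, 0; 0, (p : ℤ)] : Matrix (Fin 2) (Fin 2) ℤ) 0 0 : ℤ) : R) *
        Polynomial.X + Polynomial.C (((!![1, 0; 0, (p : ℤ)] : Matrix (Fin 2) (Fin 2) ℤ) 0 1 : ℤ)
          : R)) ^ j *
      (Polynomial.C (((!![1, 0; 0, (p : ℤ)] : Matrix (Fin 2) (Fin 2) ℤ) 1 0 : ℤ) : R) *
        Polynomial.X + Polynomial.C (((!![1, 0; 0, (p : ℤ)] : Matrix (Fin 2) (Fin 2) ℤ) 1 1 : ℤ)
          : R)) ^ (n - j)) = Polynomial.C (F.coeff j * (p : R) ^ (n - j)) * Polynomial.X ^ j := by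
      simp only [Matrix.of_apply, Matrix.cons_val', Matrix.cons_val_zero, Matrix.cons_val_one,
        Matrix.cons_val_fin_one, Int.cast_one, Int.cast_zero, map_one, map_zero, one_mul, add_zero,
        zero_mul, zero_add, Int.cast_natCast, map_mul, map_pow]
      ring
    rw [h1, Polynomial.coeff_C_mul, Polynomial.coeff_X_pow]
    split_ifs <;> simp
  rw [Finset.sum_congr rfl h, Finset.sum_ite_eq]
  simp only [Finset.mem_range, Nat.lt_succ_iff]

/-- value of a symbol at equal cusps, antisymmetry, scaling of both arguments -/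
lemma tp_scale {N n : ℕ} {φ : Vec → Vec → ℤ[X]} (hφ : φ ∈ Symb N n ℤ) (c : ℤ) (hc : c ≠ 0)
    (r s : Vec) (hr : r ≠ 0) (hs : s ≠ 0) : φ (c • r) (c • s) = φ r s := by
  obtain ⟨-, -, h3, h4, -⟩ := hφ
  have hrr : ∀ r : Vec, r ≠ 0 → φ r r = 0 := by
    intro r hr
    have := h3 r r r hr hr hr
    simpa using this
  have hanti : ∀ r s : Vec, r ≠ 0 → s ≠ 0 → φ r s = - φ s r := by
    intro r s hr hs
    have := h3 r s r hr hs hr
    rw [hrr r hr] at this
    exact eq_neg_of_add_eq_zero_left this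
  have hcs : c • s ≠ 0 := smul_ne_zero hc hs
  rw [h4 c r (c • s) hc, hanti r (c • s) hr hcs, h4 c s r hc, ← hanti r s hr hs]

lemma tp_repU {R : Type*} [CommRing R] (n p j : ℕ) (F : R[X]) :
    symAct n (repU p j) F = ∑ a ∈ Finset.range (n + 1),
      Polynomial.C ((p : R) ^ a * F.coeff (n - a)) *
        (Polynomial.X + Polynomial.C ((j : ℕ) : R)) ^ (n - a) := by
  unfold symAct repU
  rw [← Finset.sum_range_reflect]
  refine Finset.sum_congr rfl fun a ha => ?_
  have ha' : a ≤ n := Nat.lt_succ_iff.1 (Finset.mem_range.1 ha)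
  have e1 : n + 1 - 1 - a = n - a := by omega
  have e2 : n - (n - a) = a := by omega
  rw [e1, e2]
  simp only [Matrix.of_apply, Matrix.cons_val', Matrix.cons_val_zero, Matrix.cons_val_one,
    Matrix.cons_val_fin_one, Int.cast_one, Int.cast_zero, map_one, map_zero, one_mul,
    zero_mul, zero_add, Int.cast_natCast, map_mul, map_pow]
  ring

lemma tp_repV {R : Type*} [CommRing R] (n p : ℕ) (F : R[X]) :
    symAct n (repV p) F = ∑ a ∈ Finset.range (n + 1),
      Polynomial.C ((p : R) ^ a * F.coeff a) * Polynomial.X ^ a := by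
  unfold symAct repV
  refine Finset.sum_congr rfl fun a ha => ?_
  simp only [Matrix.of_apply, Matrix.cons_val', Matrix.cons_val_zero, Matrix.cons_val_one,
    Matrix.cons_val_fin_one, Int.cast_one, Int.cast_zero, map_one, map_zero, add_zero,
    zero_mul, zero_add, Int.cast_natCast, map_mul, map_pow, one_pow, mul_one]
  ring

theorem bTp (h1 : BVal) (h3 : BMap) : BTp := by
  intro p N _ hD hN hpN n s φ hφ hps hex r s'
  refine h1 p N hN hpN n (s - e0 p n) φ hφ ?_ r s'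
  clear r s'
  intro r s'
  obtain ⟨hdeg, hzero, hadd, hscal, hequi⟩ := hφ
  have hp0 : p ≠ 0 := (Fact.out : p.Prime).ne_zero
  have hpz : (p : ℤ) ≠ 0 := by exact_mod_cast hp0
  by_cases hr : r = 0
  · rw [hzero r s' (Or.inl hr), symAct_zero]
    intro i
    simp
  by_cases hs : s' = 0
  · rw [hzero r s' (Or.inr hs), symAct_zero]
    intro i
    simp
  obtain ⟨ψ, hψ, hTp⟩ := hex
  set r0 : Vec := ![p * r 0, r 1] with hr0
  set s0 : Vec := ![p * s' 0, s' 1] with hs0
  have hUr : (repU p 0).mulVec r0 = (p : ℤ) • r := by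
    ext i
    fin_cases i <;> simp [repU, hr0, Matrix.mulVec, dotProduct, Fin.sum_univ_two]
  have hUs : (repU p 0).mulVec s0 = (p : ℤ) • s' := by
    ext i
    fin_cases i <;> simp [repU, hs0, Matrix.mulVec, dotProduct, Fin.sum_univ_two]
  have hval : φ ((repU p 0).mulVec r0) ((repU p 0).mulVec s0) = φ r s' := by
    rw [hUr, hUs]
    exact tp_scale ⟨hdeg, hzero, hadd, hscal, hequi⟩ _ hpz r s' hr hs
  -- the coefficients
  let F : Fin p → ℤ[X] := fun j => φ ((repU p j).mulVec r0) ((repU p j).mulVec s0)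
  let F' : ℤ[X] := φ ((repV p).mulVec r0) ((repV p).mulVec s0)
  let c : Node p → ℕ → ℤ_[p] := fun b a =>
    match b with
    | some j => (((F j).coeff (n - a) : ℤ) : ℤ_[p])
    | none => ((F'.coeff a : ℤ) : ℤ_[p])
  have hsum : ∑ b : Node p, ∑ a ∈ Finset.range (n + 1),
      Polynomial.C ((p : ℤ_[p]) ^ a * c b a) * vv p n ℤ_[p] b a =
      Polynomial.C ((p : ℤ_[p]) ^ s) * (ψ r0 s0).map (Int.castRingHom ℤ_[p]) := by
    have e1 : (heckeSymbFun n p φ r0 s0).map (Int.castRingHom ℤ_[p]) =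
        Polynomial.C ((p : ℤ_[p]) ^ s) * (ψ r0 s0).map (Int.castRingHom ℤ_[p]) := by
      rw [hTp]
      simp only [Pi.smul_apply, zsmul_eq_mul, Polynomial.map_mul]
      congr 1
      simp [Polynomial.C_pow]
    rw [← e1, Fintype.sum_option]
    unfold heckeSymbFun
    rw [Polynomial.map_add, Polynomial.map_sum, Finset.sum_range (n := p), add_comm]
    congr 1
    · refine Finset.sum_congr rfl fun j _ => ?_
      rw [(h3 ℤ ℤ_[p] (Int.castRingHom ℤ_[p]) n _ _).1, tp_repU]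
      refine Finset.sum_congr rfl fun a _ => ?_
      simp only [c, F, vv, Polynomial.coeff_map, eq_intCast]
    · rw [(h3 ℤ ℤ_[p] (Int.castRingHom ℤ_[p]) n _ _).1, tp_repV]
      refine Finset.sum_congr rfl fun a _ => ?_
      simp only [c, F', vv, Polynomial.coeff_map, eq_intCast]
  have hG : ((ψ r0 s0).map (Int.castRingHom ℤ_[p])).natDegree ≤ n :=
    (Polynomial.natDegree_map_le).trans (hψ.1 r0 s0)
  have hdual := hD n s hps c ⟨_, hG, hsum⟩
  intro i
  rw [tp_coeff_dp]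
  split_ifs with hi
  · have h := hdual (some ⟨0, Nat.pos_of_ne_zero hp0⟩) (n - i) (Nat.sub_le _ _)
    have e : n - (n - i) = i := by omega
    simp only [c, F, e] at h
    rw [hval] at h
    have h' : (p : ℤ_[p]) ^ (s - e0 p n) ∣ (((p : ℤ) ^ (n - i) * (φ r s').coeff i : ℤ) : ℤ_[p]) := by
      push_cast
      exact h
    rw [PadicInt.pow_p_dvd_int_iff] at h'
    rw [mul_comm]
    exact_mod_cast h'
  · exact dvd_zero _

end Gou

end
end
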