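import Pool.Agent.Work.MP_602313_nt.Bd.B01
import Pool.Agent.Work.MP_602313_nt.Bd.B02
import Pool.Agent.Work.MP_602313_nt.Bd.B13
import Pool.Agent.Work.MP_602313_nt.Bd.B14
import Pool.Agent.Work.MP_602313_nt.B.BComp

/-! Bundle of small proof modules (one section per former module). -/

section

/-!
D7: the `Z`-argument.
-/

open scoped Polynomial

noncomputable section

namespace Gou

section

variable {K : Type} [Field K] {p : ℕ} {av : AbsoluteValue K ℝ}

theorem D7_sum (h : NA K p av) {ι : Type*} (s : Finset ι) (f : ι → K) (B : ℝ) (hB : 0 ≤ B)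
    (hf : ∀ i ∈ s, av (f i) ≤ B) : av (∑ i ∈ s, f i) ≤ B := by
  classical
  induction s using Finset.induction_on with
  | empty => simpa using hB
  | insert a s ha ih =>
    rw [Finset.sum_insert ha]
    exact (h.na _ _).trans (max_le (hf a (Finset.mem_insert_self _ _))
      (ih fun i hi => hf i (Finset.mem_insert_of_mem hi)))

theorem D7_mulVec (h : NA K p av) {m n : ℕ} (M : Matrix (Fin m) (Fin n) K) (v : Fin n → K)
    (B : ℝ) (hB : 0 ≤ B) (hM : ∀ i j, av (M i j) ≤ 1) (hv : ∀ j, av (v j) ≤ B) (i : Fin m) :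
    av (M.mulVec v i) ≤ B := by
  rw [Matrix.mulVec, dotProduct]
  apply D7_sum h _ _ _ hB
  intro j _
  rw [map_mul]
  calc av (M i j) * av (v j) ≤ 1 * B := mul_le_mul (hM i j) (hv j) (av.nonneg _) zero_le_one
    _ = B := one_mul _

/-- A root of the characteristic polynomial has an eigenvector. -/
theorem D7_eig {m : ℕ} (M : Matrix (Fin m) (Fin m) K) (a : K) :
    M.charpoly.IsRoot a ↔ ∃ v : Fin m → K, v ≠ 0 ∧ M.mulVec v = a • v := by
  rw [Polynomial.IsRoot.def, Matrix.eval_charpoly, ← Matrix.exists_mulVec_eq_zero_iff]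
  apply exists_congr
  intro v
  apply and_congr_right
  intro _
  rw [Matrix.sub_mulVec, sub_eq_zero, Matrix.scalar_apply, eq_comm]
  have : (Matrix.diagonal fun _ : Fin m => a).mulVec v = a • v := by
    funext i
    rw [Matrix.mulVec_diagonal]
    rfl
  rw [this]

end

theorem d7Z (h1 : D1Int) (h3 : D3Basis) (h4 : D4Vol) (h5 : D5Minor) (h6 : D6Unit) : D7Z := by
  intro p _ K _ _ _ av hav R r r2 A P ζ Y σ x d hP hcomm hY hζ hσ hrk hroot hx hd hdiv
  have hp1 : (1 : ℝ) < p := by exact_mod_cast (Fact.out : p.Prime).one_lt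
  have hp0 : (0 : ℝ) < p := by linarith
  set Ak : Matrix (Fin R) (Fin R) K := cm K A with hAk
  set Z : Matrix (Fin R) (Fin R) K := P * Ak - ζ • (1 : Matrix (Fin R) (Fin R) K) with hZ
  have hζ0 : ζ ≠ 0 := by
    intro h
    rw [h, map_zero] at hζ
    exact (Real.rpow_pos_of_pos hp0 _).ne hζ
  set xk : Fin r → Fin R → K := fun i k => (x i k : K) with hxk
  -- the images of the vectors
  have hAx : ∀ i k, Ak.mulVec (xk i) k = ((A.mulVec (x i) k : ℤ) : K) := by
    intro i k
    simp only [hAk, hxk, Matrix.mulVec, dotProduct, Matrix.map_apply]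
    push_cast
    rfl
  have hAxb : ∀ i k, av (Ak.mulVec (xk i) k) ≤ (p : ℝ) ^ (-(d i : ℝ)) := by
    intro i k
    rw [hAx]
    obtain ⟨z, hz⟩ := hdiv i k
    rw [hz]
    push_cast
    rw [map_mul, map_pow, hav.hp, Real.rpow_neg hp0.le, Real.rpow_natCast, ← inv_pow]
    calc _ ≤ ((p : ℝ)⁻¹) ^ d i * 1 :=
          mul_le_mul_of_nonneg_left (h1 p K av hav z).1 (by positivity)
      _ = _ := mul_one _
  have hAint : ∀ i j, av (Ak i j) ≤ 1 := fun i j => (h1 p K av hav (A i j)).1
  set b : Fin r → Fin R → K := fun i => xk i - ζ⁻¹ • (P * Ak).mulVec (xk i) with hb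
  have hPAx : ∀ i k, av ((P * Ak).mulVec (xk i) k) ≤ (p : ℝ) ^ (-(d i : ℝ)) := by
    intro i k
    rw [← Matrix.mulVec_mulVec]
    exact D7_mulVec hav P _ _ (by positivity) hP (hAxb i) k
  have hζinv : av ζ⁻¹ = (p : ℝ) ^ Y := by
    rw [map_inv₀, hζ, Real.rpow_neg hp0.le, inv_inv]
  have hpow : ∀ i, (p : ℝ) ^ Y * (p : ℝ) ^ (-(d i : ℝ)) = (p : ℝ) ^ (-((d i : ℝ) - Y)) := by
    intro i
    rw [← Real.rpow_add hp0]
    congr 1
    ring
  have hbx : ∀ i k, av (b i k - (x i k : K)) ≤ (p : ℝ) ^ (-((d i : ℝ) - Y)) := by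
    intro i k
    have e : b i k - (x i k : K) = -(ζ⁻¹ * (P * Ak).mulVec (xk i) k) := by
      simp only [hb, hxk, Pi.sub_apply, Pi.smul_apply, smul_eq_mul]
      ring
    rw [e, map_neg_eq_map, map_mul, hζinv, ← hpow i]
    exact mul_le_mul_of_nonneg_left (hPAx i k) (by positivity)
  have hbx1 : ∀ i k, av (b i k - (x i k : K)) < 1 := by
    intro i k
    refine (hbx i k).trans_lt ?_
    apply Real.rpow_lt_one_of_one_lt_of_neg hp1
    have := hd i
    linarith
  have hcomm2 : Ak * (P * Ak) = (P * Ak) * Ak := by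
    rw [← Matrix.mul_assoc, ← hcomm]
  have hAb : ∀ i k, av (Ak.mulVec (b i) k) ≤ (p : ℝ) ^ (-((d i : ℝ) - Y)) := by
    intro i k
    have e : Ak.mulVec (b i) = Ak.mulVec (xk i) - ζ⁻¹ • (P * Ak).mulVec (Ak.mulVec (xk i)) := by
      simp only [hb]
      rw [Matrix.mulVec_sub, Matrix.mulVec_smul, Matrix.mulVec_mulVec, hcomm2,
        ← Matrix.mulVec_mulVec]
    have e2 : (P * Ak).mulVec (Ak.mulVec (xk i)) = P.mulVec (Ak.mulVec (Ak.mulVec (xk i))) := by
      rw [← Matrix.mulVec_mulVec]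
    have h7 : av (ζ⁻¹ * (P * Ak).mulVec (Ak.mulVec (xk i)) k) ≤ (p : ℝ) ^ (-((d i : ℝ) - Y)) := by
      rw [map_mul, hζinv, ← hpow i, e2]
      apply mul_le_mul_of_nonneg_left _ (by positivity)
      exact D7_mulVec hav P _ _ (by positivity) hP
        (D7_mulVec hav Ak _ _ (by positivity) hAint (hAxb i)) k
    have h8 : av (Ak.mulVec (xk i) k) ≤ (p : ℝ) ^ (-((d i : ℝ) - Y)) := by
      refine (hAxb i k).trans ?_
      apply Real.rpow_le_rpow_of_exponent_le hp1.le
      linarith
    rw [e, Pi.sub_apply, Pi.smul_apply, smul_eq_mul, sub_eq_add_neg]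
    refine (hav.na _ _).trans (max_le h8 ?_)
    rw [map_neg_eq_map]
    exact h7
  -- the subspace
  set W : Submodule K (Fin R → K) := LinearMap.range Z.mulVecLin with hW
  have hWmem : ∀ w, w ∈ W ↔ ∃ v, Z.mulVec v = w := fun w => by
    rw [hW, LinearMap.mem_range]
    rfl
  have hbW : ∀ i, b i ∈ W := by
    intro i
    rw [hWmem]
    refine ⟨-(ζ⁻¹ • xk i), ?_⟩
    rw [Matrix.mulVec_neg, Matrix.mulVec_smul, hZ, Matrix.sub_mulVec, Matrix.smul_mulVec,
      Matrix.one_mulVec, smul_sub, smul_smul, inv_mul_cancel₀ hζ0, one_smul, neg_sub]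
  have hZc : Ak * Z = Z * Ak := by
    rw [hZ, Matrix.mul_sub, Matrix.sub_mul, hcomm2, Matrix.mul_smul, Matrix.smul_mul,
      Matrix.mul_one, Matrix.one_mul]
  have hAW : ∀ w ∈ W, Ak.mulVec w ∈ W := by
    intro w hw
    obtain ⟨v, rfl⟩ := (hWmem w).1 hw
    rw [hWmem]
    exact ⟨Ak.mulVec v, by rw [Matrix.mulVec_mulVec, Matrix.mulVec_mulVec, hZc]⟩
  have hWrk : Module.finrank K W = Z.rank := rfl
  obtain ⟨I, e, hI, heW, heint, heI, hexp⟩ := h3 p K av hav R Z.rank W hWrk
  set β : Fin r → Fin Z.rank → K := fun i j => b i (I j) with hβ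
  obtain ⟨I6, hI6, hI6b⟩ := h6 p K av hav R r x hx
  obtain ⟨hbint, hbdet⟩ := hI6b b hbx1
  have hbexp : ∀ i k, b i k = ∑ j, β i j * e j k := by
    intro i k
    have := congrFun (hexp (b i) (hbW i)) k
    rw [this, Finset.sum_apply]
    rfl
  obtain ⟨J, hJ, hJdet⟩ := h5 p K av hav R Z.rank r e β b I6 hbexp heint
    (fun i j => hbint i (I j)) hbdet
  -- the matrix of `A` on the subspace
  set A2 : Matrix (Fin Z.rank) (Fin Z.rank) K := fun i j => Ak.mulVec (e j) (I i) with hA2
  have hA2int : ∀ i j, av (A2 i j) ≤ 1 := fun i j =>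
    D7_mulVec hav Ak _ _ zero_le_one hAint (heint j) (I i)
  have hlin : ∀ (c : Fin Z.rank → K), Ak.mulVec (∑ j, c j • e j) =
      ∑ i, (A2.mulVec c i) • e i := by
    intro c
    have hmem : Ak.mulVec (∑ j, c j • e j) ∈ W :=
      hAW _ (Submodule.sum_mem _ fun j _ => Submodule.smul_mem _ _ (heW j))
    have h9 : ∀ i, Ak.mulVec (∑ j, c j • e j) (I i) = A2.mulVec c i := by
      intro i
      rw [Matrix.mulVec_sum, Finset.sum_apply]
      simp only [Matrix.mulVec_smul, Pi.smul_apply, smul_eq_mul]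
      rw [Matrix.mulVec, dotProduct]
      exact Finset.sum_congr rfl fun j _ => mul_comm _ _
    conv_lhs => rw [hexp _ hmem]
    exact Finset.sum_congr rfl fun i _ => by rw [h9]
  have hbsum : ∀ i, b i = ∑ j, β i j • e j := by
    intro i
    funext k
    rw [hbexp, Finset.sum_apply]
    rfl
  have hsumI : ∀ (c : Fin Z.rank → K) k, (∑ j, c j • e j) (I k) = c k := by
    intro c k
    rw [Finset.sum_apply]
    simp only [Pi.smul_apply, smul_eq_mul, heI, mul_ite, mul_one, mul_zero]
    rw [Finset.sum_ite_eq Finset.univ k c]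
    simp
  have hA2b : ∀ i k, av (A2.mulVec (β i) k) ≤ (p : ℝ) ^ (-((d i : ℝ) - Y)) := by
    intro i k
    have h10 : A2.mulVec (β i) k = Ak.mulVec (b i) (I k) := by
      rw [hbsum i, hlin, hsumI]
    rw [h10]
    exact hAb i (I k)
  have hvol := h4 p K av hav Z.rank r A2 β (fun i => (d i : ℝ) - Y) J hJ hJdet
    (fun i j => hbint i (I j)) hA2int hA2b
  -- lower bound for the determinant
  have hroot2 : ∀ a ∈ A2.charpoly.roots, (p : ℝ) ^ (-σ) ≤ av a := by
    intro a ha
    apply hroot a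
    rw [Polynomial.mem_roots A2.charpoly_monic.ne_zero] at ha
    obtain ⟨v, hv, hva⟩ := (D7_eig A2 a).1 ha
    rw [D7_eig]
    refine ⟨∑ j, v j • e j, ?_, ?_⟩
    · intro h0
      apply hv
      funext k
      rw [← hsumI v k, h0]
      rfl
    · rw [hlin, hva, Finset.smul_sum]
      exact Finset.sum_congr rfl fun i _ => by rw [Pi.smul_apply, smul_eq_mul, mul_smul]
  have hcard : Multiset.card A2.charpoly.roots = Z.rank := by
    rw [← (IsAlgClosed.splits A2.charpoly).natDegree_eq_card_roots, Matrix.charpoly_natDegree_eq_dim,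
      Fintype.card_fin]
  have hlow : ((p : ℝ) ^ (-σ)) ^ Z.rank ≤ av A2.det := by
    have this : ∀ s : Multiset ℝ, (∀ y ∈ s, (p : ℝ) ^ (-σ) ≤ y) →
        ((p : ℝ) ^ (-σ)) ^ Multiset.card s ≤ s.prod := by
      intro s
      induction s using Multiset.induction_on with
      | empty => intro _; simp
      | cons y s ih =>
        intro hy
        rw [Multiset.card_cons, Multiset.prod_cons, pow_succ, mul_comm]
        exact mul_le_mul (hy y (Multiset.mem_cons_self _ _))
          (ih fun z hz => hy z (Multiset.mem_cons_of_mem hz)) (by positivity)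
          (le_trans (by positivity) (hy y (Multiset.mem_cons_self _ _)))
    have h11 := this (A2.charpoly.roots.map av) (by
      intro y hy
      obtain ⟨a, ha, rfl⟩ := Multiset.mem_map.1 hy
      exact hroot2 a ha)
    rw [Multiset.card_map, hcard] at h11
    rw [Matrix.det_eq_prod_roots_charpoly, map_multiset_prod]
    exact h11
  have hfin := hlow.trans hvol
  rw [← Real.rpow_natCast, ← Real.rpow_mul hp0.le, Real.rpow_le_rpow_left_iff hp1] at hfin
  have hr : (Z.rank : ℝ) ≤ r2 := by exact_mod_cast hrk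
  have := mul_le_mul_of_nonneg_right hr hσ
  linarith

end Gou

end
end

section

/-! D8 (Smith normal form) for MP_602313_nt. -/

noncomputable section

namespace Gou

theorem d8Smith : D8Smith := by
  intro R A hA
  have hinj : Function.Injective (Matrix.mulVecLin A) := by
    intro v w hvw
    have hvw' : A.mulVec v = A.mulVec w := by simpa using hvw
    have h2 : A.adjugate.mulVec (A.mulVec v) = A.adjugate.mulVec (A.mulVec w) := by rw [hvw']
    rw [Matrix.mulVec_mulVec, Matrix.mulVec_mulVec, Matrix.adjugate_mul, Matrix.smul_mulVec,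
      Matrix.smul_mulVec, Matrix.one_mulVec, Matrix.one_mulVec] at h2
    funext i
    have h3 := congrFun h2 i
    simp only [Pi.smul_apply, smul_eq_mul] at h3
    exact mul_left_cancel₀ hA h3
  have hrk : Module.finrank ℤ (LinearMap.range (Matrix.mulVecLin A)) =
      Module.finrank ℤ (Fin R → ℤ) := LinearMap.finrank_range_of_inj hinj
  obtain ⟨y, a, z, hz⟩ := Submodule.exists_smith_normal_form_of_rank_eq
    (Pi.basisFun ℤ (Fin R)) hrk
  let x : Module.Basis (Fin R) ℤ (Fin R → ℤ) :=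
    z.map (LinearEquiv.ofInjective (Matrix.mulVecLin A) hinj).symm
  have hx : ∀ j, A.mulVec (x j) = a j • y j := by
    intro j
    rw [← hz j]
    have h1 : (LinearEquiv.ofInjective (Matrix.mulVecLin A) hinj) (x j) = z j := by
      simp [x]
    rw [← h1]
    simp
  have hdet : ∀ b : Module.Basis (Fin R) ℤ (Fin R → ℤ),
      IsUnit (Matrix.det (Matrix.of fun i j => b j i)) := by
    intro b
    have h := (Pi.basisFun ℤ (Fin R)).isUnit_det b
    rw [Module.Basis.det_apply] at h
    have h2 : (Pi.basisFun ℤ (Fin R)).toMatrix b = Matrix.of fun i j => b j i := by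
      ext i j
      simp [Module.Basis.toMatrix_apply]
    rwa [h2] at h
  refine ⟨Matrix.of fun i j => x j i, Matrix.of fun i j => y j i, a, hdet x, hdet y, ?_⟩
  ext i j
  have h := congrFun (hx j) i
  rw [Matrix.mul_diagonal]
  simp only [Pi.smul_apply, smul_eq_mul] at h
  rw [Matrix.of_apply, mul_comm, ← h]
  rfl

end Gou

end
end

section

/-! D9: upper bound for the valuation of a determinant (MP_602313_nt). -/

noncomputable section

namespace Gou

theorem d9_pind {p R : ℕ} (U : Matrix (Fin R) (Fin R) ℤ) (hU : IsUnit U.det) {r : ℕ}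
    (e : Fin r → Fin R) (he : Function.Injective e) : PInd p (fun i k => U k (e i)) := by
  intro c hc i0
  have h1 : ∑ k, U.adjugate (e i0) k * ∑ i, c i * U k (e i) = U.det * c i0 := by
    have h2 : ∀ i, ∑ k, U.adjugate (e i0) k * U k (e i) = if i0 = i then U.det else 0 := by
      intro i
      have h3 := congrFun (congrFun (Matrix.adjugate_mul U) (e i0)) (e i)
      rw [Matrix.mul_apply] at h3
      rw [h3, Matrix.smul_apply, Matrix.one_apply, smul_eq_mul]
      by_cases h : i0 = i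
      · simp [h]
      · have h' : e i0 ≠ e i := fun h' => h (he h')
        simp [h, h']
    calc ∑ k, U.adjugate (e i0) k * ∑ i, c i * U k (e i)
        = ∑ k, ∑ i, c i * (U.adjugate (e i0) k * U k (e i)) := by
          refine Finset.sum_congr rfl fun k _ => ?_
          rw [Finset.mul_sum]
          refine Finset.sum_congr rfl fun i _ => ?_
          ring
      _ = ∑ i, c i * ∑ k, U.adjugate (e i0) k * U k (e i) := by
          rw [Finset.sum_comm]
          refine Finset.sum_congr rfl fun i _ => ?_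
          rw [Finset.mul_sum]
      _ = U.det * c i0 := by
          simp only [h2, mul_ite, mul_zero, Finset.sum_ite_eq, Finset.mem_univ, if_true]
          ring
  have h4 : (p : ℤ) ∣ U.det * c i0 := by
    rw [← h1]
    exact Finset.dvd_sum fun k _ => Dvd.dvd.mul_left (hc k) _
  exact (hU.dvd_mul_left).mp h4

theorem d9_val_prod (p : ℕ) [Fact p.Prime] {ι : Type*} (S : Finset ι) (a : ι → ℤ)
    (ha : ∀ i, a i ≠ 0) : padicValInt p (∏ i ∈ S, a i) = ∑ i ∈ S, padicValInt p (a i) := by
  classical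
  induction S using Finset.induction_on with
  | empty => simp
  | insert i S hi ih =>
    rw [Finset.prod_insert hi, Finset.sum_insert hi, ← ih]
    exact padicValInt.mul (ha i) (Finset.prod_ne_zero_iff.mpr fun j _ => ha j)

theorem d9_val_unit (p : ℕ) {u : ℤ} (hu : IsUnit u) : padicValInt p u = 0 := by
  rcases Int.isUnit_iff.mp hu with h | h <;> rw [h] <;> simp [padicValInt]

theorem d9Upper (h8 : D8Smith) : D9Upper := by
  intro p hp R s h B' A Bm Y D hA hY H1 H2 H3
  obtain ⟨U, V, a, hU, hV, hUV⟩ := h8 R A hA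
  have hdet : A.det * U.det = V.det * ∏ i, a i := by
    rw [← Matrix.det_mul, hUV, Matrix.det_mul, Matrix.det_diagonal]
  have hprod : ∏ i, a i ≠ 0 := by
    intro h0
    rw [h0, mul_zero] at hdet
    rcases mul_eq_zero.mp hdet with h1 | h1
    · exact hA h1
    · exact hU.ne_zero h1
  have ha : ∀ i, a i ≠ 0 := fun i => (Finset.prod_ne_zero_iff.mp hprod) i (Finset.mem_univ i)
  set d : Fin R → ℕ := fun i => padicValInt p (a i) with hd
  have hval : padicValInt p A.det = ∑ i, d i := by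
    have h1 := congrArg (padicValInt p) hdet
    rw [padicValInt.mul hA hU.ne_zero, padicValInt.mul hV.ne_zero hprod, d9_val_unit p hU,
      d9_val_unit p hV, d9_val_prod p _ a ha] at h1
    simpa using h1
  have hdvd : ∀ (i : Fin R) (m : ℕ), m ≤ d i → ∀ k, (p : ℤ) ^ m ∣ A.mulVec (fun k => U k i) k := by
    intro i m hm k
    have h1 : A.mulVec (fun k => U k i) k = V k i * a i := by
      have h2 := congrFun (congrFun hUV k) i
      rw [Matrix.mul_diagonal] at h2
      rw [← h2]
      rfl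
    rw [h1]
    exact Dvd.dvd.mul_left ((padicValInt_dvd_iff m (a i)).mpr (Or.inr hm)) _
  -- counting
  have hsub : ∀ (T : Finset (Fin R)), ∃ e : Fin T.card → Fin R, Function.Injective e ∧
      (∀ i, e i ∈ T) ∧ ∀ f : Fin R → ℝ, ∑ i, f (e i) = ∑ i ∈ T, f i := by
    intro T
    refine ⟨fun i => (T.equivFin.symm i : Fin R), ?_, ?_, ?_⟩
    · intro i j hij
      exact T.equivFin.symm.injective (Subtype.ext hij)
    · intro i
      exact (T.equivFin.symm i).2
    · intro f
      rw [← Finset.sum_coe_sort T f]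
      exact Equiv.sum_comp T.equivFin.symm (fun x : T => f x)
  have hc1 : ∀ m, 1 ≤ m → m ≤ s →
      ((Finset.univ.filter fun i => m ≤ d i).card : ℝ) ≤ Bm m := by
    intro m hm hms
    obtain ⟨e, he, heT, -⟩ := hsub (Finset.univ.filter fun i => m ≤ d i)
    exact H1 m hm hms _ _ (d9_pind U hU e he) fun i k =>
      hdvd (e i) m (Finset.mem_filter.mp (heT i)).2 k
  have hc2 : (Finset.univ.filter fun i => s + h ≤ d i).card ≤ B' := by
    obtain ⟨e, he, heT, -⟩ := hsub (Finset.univ.filter fun i => s + h ≤ d i)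
    exact H2 _ _ (d9_pind U hU e he) fun i k =>
      hdvd (e i) (s + h) (Finset.mem_filter.mp (heT i)).2 k
  have hc3 : ∑ i ∈ Finset.univ.filter (fun i => 2 * Y ≤ (d i : ℝ)), ((d i : ℝ) - Y) ≤ D := by
    obtain ⟨e, he, heT, hsum⟩ := hsub (Finset.univ.filter fun i => 2 * Y ≤ (d i : ℝ))
    rw [← hsum (fun i => (d i : ℝ) - Y)]
    exact H3 _ _ (fun i => d (e i)) (d9_pind U hU e he)
      (fun i => (Finset.mem_filter.mp (heT i)).2) fun i k => hdvd (e i) _ le_rfl k
  have hpt : ∀ i, (d i : ℝ) ≤ (∑ m ∈ Finset.Icc 1 s, if m ≤ d i then (1 : ℝ) else 0) + h +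
      2 * Y * (if s + h ≤ d i then (1 : ℝ) else 0) +
      2 * (if 2 * Y ≤ (d i : ℝ) then ((d i : ℝ) - Y) else 0) := by
    intro i
    have hcount : (∑ m ∈ Finset.Icc 1 s, if m ≤ d i then (1 : ℝ) else 0) = (min s (d i) : ℕ) := by
      rw [Finset.sum_boole]
      congr 1
      have : (Finset.Icc 1 s).filter (fun m => m ≤ d i) = Finset.Icc 1 (min s (d i)) := by
        ext m
        simp only [Finset.mem_filter, Finset.mem_Icc, le_min_iff]
        tauto
      rw [this]
      simp
    rw [hcount]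
    have h0 : (0 : ℝ) ≤ (min s (d i) : ℕ) := Nat.cast_nonneg _
    have hh0 : (0 : ℝ) ≤ h := Nat.cast_nonneg _
    by_cases h1 : 2 * Y ≤ (d i : ℝ)
    · rw [if_pos h1]
      have h2 : 0 ≤ 2 * Y * (if s + h ≤ d i then (1 : ℝ) else 0) := by
        split_ifs
        · linarith
        · simp
      linarith
    · rw [if_neg h1]
      push Not at h1
      by_cases h2 : s + h ≤ d i
      · rw [if_pos h2]
        linarith
      · rw [if_neg h2]
        push Not at h2
        have h3 : d i ≤ min s (d i) + h := by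
          rcases le_total s (d i) with h4 | h4
          · rw [min_eq_left h4]; omega
          · rw [min_eq_right h4]; omega
        have h4 : (d i : ℝ) ≤ (min s (d i) : ℕ) + (h : ℝ) := by exact_mod_cast h3
        linarith
  rw [hval]
  push_cast
  calc ∑ i, (d i : ℝ) ≤ ∑ i, ((∑ m ∈ Finset.Icc 1 s, if m ≤ d i then (1 : ℝ) else 0) + h +
      2 * Y * (if s + h ≤ d i then (1 : ℝ) else 0) +
      2 * (if 2 * Y ≤ (d i : ℝ) then ((d i : ℝ) - Y) else 0)) :=
        Finset.sum_le_sum fun i _ => hpt i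
    _ = (∑ m ∈ Finset.Icc 1 s, ((Finset.univ.filter fun i => m ≤ d i).card : ℝ)) + R * h +
        2 * Y * ((Finset.univ.filter fun i => s + h ≤ d i).card : ℝ) +
        2 * ∑ i ∈ Finset.univ.filter (fun i => 2 * Y ≤ (d i : ℝ)), ((d i : ℝ) - Y) := by
        rw [Finset.sum_add_distrib, Finset.sum_add_distrib, Finset.sum_add_distrib,
          ← Finset.mul_sum, ← Finset.mul_sum, Finset.sum_boole, ← Finset.sum_filter]
        congr 1
        congr 1
        congr 1
        · rw [Finset.sum_comm]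
          refine Finset.sum_congr rfl fun m _ => ?_
          rw [Finset.sum_boole]
        · simp
    _ ≤ ∑ m ∈ Finset.Icc 1 s, Bm m + R * h + 2 * Y * B' + 2 * D := by
        have h1 : (∑ m ∈ Finset.Icc 1 s, ((Finset.univ.filter fun i => m ≤ d i).card : ℝ)) ≤
            ∑ m ∈ Finset.Icc 1 s, Bm m :=
          Finset.sum_le_sum fun m hm => hc1 m (Finset.mem_Icc.mp hm).1 (Finset.mem_Icc.mp hm).2
        have h2 : 2 * Y * ((Finset.univ.filter fun i => s + h ≤ d i).card : ℝ) ≤ 2 * Y * B' := by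
          refine mul_le_mul_of_nonneg_left ?_ (by linarith)
          exact_mod_cast hc2
        linarith

end Gou

end
end

section

/-!
Module D, second part: assembly.
-/

open scoped Polynomial

noncomputable section

namespace Gou

/-- D17. Roots of the characteristic polynomial of an integer matrix are integral. -/
def D17Root : Prop := ∀ (p : ℕ) [Fact p.Prime] (K : Type) [Field K] [CharZero K]
  (av : AbsoluteValue K ℝ), NA K p av → ∀ (R : ℕ) (A : Matrix (Fin R) (Fin R) ℤ) (a : K),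
    (cm K A).charpoly.IsRoot a → av a ≤ 1

/-- D16. Existence of the approximate inverse `P`. `S` is a set of words in a finite family of
commuting integer matrices `M l`; all traces of products of at most `2 (c0+1)` words of `S` are at
most `X`; `v i j` (`j < μ' i`) are joint eigenvectors with character `ψ i`; `R ≤ sum μ' + c0`. -/
def D16P : Prop := ∀ (p : ℕ) [Fact p.Prime] (K : Type) [Field K] [CharZero K] [IsAlgClosed K]
  (av : AbsoluteValue K ℝ), NA K p av →
  ∀ (L : Type) [Finite L] (R c0 mx q0 h1 s c : ℕ) (M : L → Matrix (Fin R) (Fin R) ℤ) (lp : L)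
    (S : Set (List L)) (X : ℝ) (lam : ℤ) (ψ : Fin q0 → L → K) (μ' : Fin q0 → ℕ)
    (v : (i : Fin q0) → Fin (μ' i) → Fin R → K),
    (∀ l l', M l * M l' = M l' * M l) → [] ∈ S → (∀ l, [l] ∈ S) → 1 ≤ X → 1 ≤ h1 →
    (∀ W : List (List L), W.length ≤ 2 * (c0 + 1) → (∀ u ∈ W, u ∈ S) →
      ((|(((W.flatten).map M).prod).trace| : ℤ) : ℝ) ≤ X) →
    (∀ i, 1 ≤ μ' i ∧ μ' i ≤ mx) → R ≤ ∑ i, μ' i + c0 →
    (∀ i, LinearIndependent K (v i)) →
    (∀ i j l, (cm K (M l)).mulVec (v i j) = ψ i l • v i j) →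
    LinearIndependent K (fun (i : Fin q0) (w : S) => (w.1.map (ψ i)).prod) →
    (∀ a : K, (cm K (M lp)).charpoly.IsRoot a → (p : ℝ) ^ (-((s + c : ℕ) : ℝ)) ≤ av (a - lam)) →
    ∃ (P : Matrix (Fin R) (Fin R) K) (r2 : ℕ), (∀ i j, av (P i j) ≤ 1) ∧
      P * cm K (M lp) = cm K (M lp) * P ∧
      (r2 : ℝ) ≤ c0 + mx * ((R * Real.logb p R + R * Real.logb p X) / 2) / h1 ∧
      (P * cm K (M lp - Matrix.scalar (Fin R) lam)
        - ((p : K) ^ (h1 + s + c)) • (1 : Matrix (Fin R) (Fin R) K)).rank ≤ r2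

/-- D18. Upper bound for `v_p(det(M_p - lam))`: D7, D9, D16 together. -/
def D18Upper : Prop := ∀ (p : ℕ) [Fact p.Prime] (K : Type) [Field K] [CharZero K] [IsAlgClosed K]
  (av : AbsoluteValue K ℝ), NA K p av →
  ∀ (L : Type) [Finite L] (R c0 mx q0 h1 s c h B' : ℕ) (M : L → Matrix (Fin R) (Fin R) ℤ) (lp : L)
    (S : Set (List L)) (X : ℝ) (lam : ℤ) (ψ : Fin q0 → L → K) (μ' : Fin q0 → ℕ)
    (v : (i : Fin q0) → Fin (μ' i) → Fin R → K) (Bm : ℕ → ℝ),
    (∀ l l', M l * M l' = M l' * M l) → [] ∈ S → (∀ l, [l] ∈ S) → 1 ≤ X → 1 ≤ h1 →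
    (∀ W : List (List L), W.length ≤ 2 * (c0 + 1) → (∀ u ∈ W, u ∈ S) →
      ((|(((W.flatten).map M).prod).trace| : ℤ) : ℝ) ≤ X) →
    (∀ i, 1 ≤ μ' i ∧ μ' i ≤ mx) → R ≤ ∑ i, μ' i + c0 →
    (∀ i, LinearIndependent K (v i)) →
    (∀ i j l, (cm K (M l)).mulVec (v i j) = ψ i l • v i j) →
    LinearIndependent K (fun (i : Fin q0) (w : S) => (w.1.map (ψ i)).prod) →
    (∀ a : K, (cm K (M lp)).charpoly.IsRoot a → (p : ℝ) ^ (-((s + c : ℕ) : ℝ)) ≤ av (a - lam)) →
    (p : ℤ) ^ s ∣ lam →
    (∀ m : ℕ, 1 ≤ m → m ≤ s → ∀ (r : ℕ) (x : Fin r → Fin R → ℤ), PInd p x →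
      (∀ i k, (p : ℤ) ^ m ∣ (M lp).mulVec (x i) k) → (r : ℝ) ≤ Bm m) →
    (∀ (r : ℕ) (x : Fin r → Fin R → ℤ), PInd p x →
      (∀ i k, (p : ℤ) ^ (s + h) ∣ (M lp - Matrix.scalar (Fin R) lam).mulVec (x i) k) → r ≤ B') →
    (M lp - Matrix.scalar (Fin R) lam).det ≠ 0 ∧
    (padicValInt p (M lp - Matrix.scalar (Fin R) lam).det : ℝ) ≤
      ∑ m ∈ Finset.Icc 1 s, Bm m + R * h + 2 * (h1 + s + c : ℕ) * B'
        + 2 * (s + c : ℕ) * (c0 + mx * ((R * Real.logb p R + R * Real.logb p X) / 2) / h1)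

/-- D19. `v_p(det(M - lam))` as a sum over the roots of the characteristic polynomial of `M`. -/
def D19Sum : Prop := ∀ (p : ℕ) [Fact p.Prime] (K : Type) [Field K] [CharZero K] [IsAlgClosed K]
  (av : AbsoluteValue K ℝ), NA K p av → ∀ (R : ℕ) (M : Matrix (Fin R) (Fin R) ℤ) (lam : ℤ),
    (M - Matrix.scalar (Fin R) lam).det ≠ 0 →
    (padicValInt p (M - Matrix.scalar (Fin R) lam).det : ℝ) =
      ((cm K M).charpoly.roots.map fun a => -Real.logb p (av (a - lam))).sum

/-- D20. An injective linear map `Φ : E × E → K^R` intertwining `(T, T)` with the matrix `M`: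
the roots of the characteristic polynomial of `M` are those of `T`, twice, and `R - 2 dim E` more. -/
def D20Two : Prop := ∀ (K : Type) [Field K] [IsAlgClosed K] (E : Type) [AddCommGroup E] [Module K E]
  [Module.Finite K E] (R : ℕ) (M : Matrix (Fin R) (Fin R) K) (T : E →ₗ[K] E)
  (Φ : (E × E) →ₗ[K] (Fin R → K)), Function.Injective Φ →
    (∀ f g, Φ (T f, T g) = M.mulVec (Φ (f, g))) →
    ∃ Q : Multiset K, M.charpoly.roots = T.charpoly.roots + T.charpoly.roots + Q ∧
      Multiset.card Q + 2 * Module.finrank K E = R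

/-- `min (v(x), s)`, `v = -log_p av`. -/
def ws {K : Type*} [Field K] (p : ℕ) (av : AbsoluteValue K ℝ) (s : ℝ) (x : K) : ℝ :=
  -Real.logb p (max (av x) ((p : ℝ) ^ (-s)))

/-- D21. Comparison of `v(a - lam)` with `min (v(a), s)` when `v(lam) = s`. -/
def D21Cmp : Prop := ∀ (p : ℕ) [Fact p.Prime] (K : Type) [Field K] [CharZero K]
  (av : AbsoluteValue K ℝ), NA K p av → ∀ (s c : ℕ) (u : ℤ) (a : K), ¬ (p : ℤ) ∣ u → av a ≤ 1 →
    (p : ℝ) ^ (-((s + c : ℕ) : ℝ)) ≤ av (a - ((p : ℤ) ^ s * u : ℤ)) →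
    ws p av s a ≤ -Real.logb p (av (a - ((p : ℤ) ^ s * u : ℤ))) ∧
    -Real.logb p (av (a - ((p : ℤ) ^ s * u : ℤ))) ≤ ws p av s a + c ∧
    0 ≤ ws p av s a ∧ ws p av s a ≤ s

end Gou

end
end

section

/-!
MP_602313_nt, module A, item A8: the deep bound.
-/

open scoped Polynomial
open Finset

noncomputable section

namespace Gou

namespace PA8

open PL5

variable {p : ℕ} [Fact p.Prime]

theorem jet_add (n : ℕ) (b : Node p) (a : ℕ) (f g : ℤ_[p][X]) :
    jet n b a (f + g) = jet n b a f + jet n b a g := by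
  cases b with
  | none => simp [jet]
  | some b => simp [jet]

theorem jet_C_mul (n : ℕ) (b : Node p) (a : ℕ) (c : ℤ_[p]) (f : ℤ_[p][X]) :
    jet n b a (Polynomial.C c * f) = c * jet n b a f := by
  cases b with
  | none => simp [jet]
  | some b => simp [jet]

theorem jet_zero (n : ℕ) (b : Node p) (a : ℕ) :
    jet n b a (0 : ℤ_[p][X]) = 0 := by
  cases b with
  | none => simp [jet]
  | some b => simp [jet]

theorem jet_sum (n : ℕ) (b : Node p) (a : ℕ) {ι : Type} (S : Finset ι) (f : ι → ℤ_[p][X]) :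
    jet n b a (∑ i ∈ S, f i) = ∑ i ∈ S, jet n b a (f i) := by
  classical
  induction S using Finset.induction_on with
  | empty => simp [jet_zero]
  | insert i S hi ih => rw [Finset.sum_insert hi, jet_add, ih, Finset.sum_insert hi]

theorem pow4 : ∀ h : ℕ, h ^ 4 < 8 ^ (h + 1)
  | 0 => by norm_num
  | 1 => by norm_num
  | 2 => by norm_num
  | (k + 3) => by
    have ih := pow4 (k + 2)
    have h1 : (k + 3) ^ 4 ≤ 8 * (k + 2) ^ 4 := by
      have h2 : 2 * (k + 3) ≤ 3 * (k + 2) := by omega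
      have h3 : (2 * (k + 3)) ^ 4 ≤ (3 * (k + 2)) ^ 4 := Nat.pow_le_pow_left h2 4
      rw [mul_pow, mul_pow] at h3
      have h4 : 0 ≤ (k + 2) ^ 4 := Nat.zero_le _
      norm_num at h3
      omega
    calc (k + 3) ^ 4 ≤ 8 * (k + 2) ^ 4 := h1
      _ < 8 * 8 ^ (k + 2 + 1) := by omega
      _ = 8 ^ (k + 3 + 1) := by ring

theorem e0_le (n h : ℕ) (hn : n ^ 3 ≤ h ^ 4) : e0 p n ≤ h := by
  by_contra hc
  push Not at hc
  have hp : 2 ≤ p := (Fact.out : p.Prime).two_le
  have hn0 : n ≠ 0 := by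
    rintro rfl
    simp [e0] at hc
  have h1 : p ^ (h + 1) ≤ n :=
    (Nat.pow_le_pow_right (by omega) hc).trans (Nat.pow_log_le_self p hn0)
  have h2 : 2 ^ (h + 1) ≤ n := (Nat.pow_le_pow_left hp _).trans h1
  have h3 : (2 ^ (h + 1)) ^ 3 ≤ n ^ 3 := Nat.pow_le_pow_left h2 3
  have h4 := pow4 h
  have h5 : (2 ^ (h + 1)) ^ 3 = 8 ^ (h + 1) := by
    rw [← pow_mul, mul_comm, pow_mul]
    norm_num
  omega

/-- The matrix of jets. -/
def JM (p : ℕ) [Fact p.Prime] (n j m : ℕ) : Matrix (Idx p j) (Idx p m) ℤ_[p] :=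
  fun r k => jet n r.1 r.2 (vv p n ℤ_[p] k.1 k.2)

theorem JM_mulVec (n j m : ℕ) (c : Node p → ℕ → ℤ_[p]) (r : Idx p j) :
    (JM p n j m).mulVec (fun k => c k.1 k.2) r =
      jet n r.1 r.2 (∑ b : Node p, ∑ a ∈ range m, Polynomial.C (c b a) * vv p n ℤ_[p] b a) := by
  rw [jet_sum]
  unfold Matrix.mulVec dotProduct
  rw [Fintype.sum_prod_type]
  refine Finset.sum_congr rfl fun b _ => ?_
  rw [jet_sum, Finset.sum_range]
  refine Finset.sum_congr rfl fun a _ => ?_
  rw [jet_C_mul, mul_comm]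
  rfl

end PA8

open PL5 PA8

theorem prf_DeepBound (p : ℕ) [Fact p.Prime] (l2 : L2 p) (l5 : L5 p) (j1 : J1 p)
    (dn : DeepNu p) : DeepBound p := by
  obtain ⟨n0, hn0⟩ := dn
  refine ⟨3 * (p + 1) + 1, max n0 2, ?_⟩
  intro n hn s h hh hsh ν y hdeg hind hjet hdec
  have hn2 : 2 ≤ n := (le_max_right _ _).trans hn
  have hp2 : 2 ≤ p := (Fact.out : p.Prime).two_le
  have hn3 : n ^ 3 ≤ h ^ 4 := by
    refine le_trans ?_ hh
    exact Nat.le_mul_of_pos_left _ (by omega)
  have hh1 : 1 ≤ h := by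
    rcases Nat.eq_zero_or_pos h with h0 | h0
    · subst h0
      have : 0 < n ^ 3 := by positivity
      simp at hn3
      omega
    · exact h0
  have he : e0 p n ≤ h := e0_le n h hn3
  set e := e0 p n with hedef
  set j := s - e - h with hj
  have hjs : j ≤ s + h := by omega
  choose c G hG hcG using hdec
  -- the vectors
  have hA : ∀ i r, (p : ℤ_[p]) ^ (h + e) ∣
      (JM p n j (s + h)).mulVec (fun k => c i k.1 k.2) r := by
    intro i r
    rw [JM_mulVec]
    have h1 : ∑ b : Node p, ∑ a ∈ range (s + h), Polynomial.C (c i b a) * vv p n ℤ_[p] b a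
        = Polynomial.C ((p : ℤ_[p]) ^ e) * y i
          + Polynomial.C (-(p : ℤ_[p]) ^ (h + e)) * G i := by
      rw [hcG i, Polynomial.C_neg]
      ring
    rw [h1, jet_add, jet_C_mul, jet_C_mul]
    refine dvd_add ?_ (Dvd.dvd.mul_right ((dvd_neg).2 (dvd_refl _)) _)
    have h2 : (r.2 : ℕ) < j := r.2.2
    have h3 := hjet i r.1 r.2 (by omega)
    have h4 : (p : ℤ_[p]) ^ h ∣ jet n r.1 r.2 (y i) :=
      (pow_dvd_pow _ (by omega)).trans h3
    rw [add_comm, pow_add]
    exact mul_dvd_mul_left _ h4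
  have hprim : ∀ d : Fin ν → ℤ_[p],
      (∀ k : Idx p (s + h), (p : ℤ_[p]) ^ (e + 1) ∣ ∑ i, d i * c i k.1 k.2) →
      ∀ i, (p : ℤ_[p]) ∣ d i := by
    intro d hd
    refine indepPoly y hind d ?_
    intro m
    have h1 : Polynomial.C ((p : ℤ_[p]) ^ e) * ∑ i, Polynomial.C (d i) * y i
        = ∑ b : Node p, ∑ a ∈ range (s + h),
            Polynomial.C (∑ i, d i * c i b a) * vv p n ℤ_[p] b a
          + Polynomial.C ((p : ℤ_[p]) ^ (h + e)) * ∑ i, Polynomial.C (d i) * G i := by
      have h2 : ∀ i, Polynomial.C (d i) * (Polynomial.C ((p : ℤ_[p]) ^ e) * y i)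
          = ∑ b : Node p, ∑ a ∈ range (s + h),
              Polynomial.C (d i * c i b a) * vv p n ℤ_[p] b a
            + Polynomial.C ((p : ℤ_[p]) ^ (h + e)) * (Polynomial.C (d i) * G i) := by
        intro i
        rw [hcG i, mul_add, Finset.mul_sum]
        congr 1
        · refine Finset.sum_congr rfl fun b _ => ?_
          rw [Finset.mul_sum]
          refine Finset.sum_congr rfl fun a _ => ?_
          rw [Polynomial.C_mul]
          ring
        · ring
      calc Polynomial.C ((p : ℤ_[p]) ^ e) * ∑ i, Polynomial.C (d i) * y i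
          = ∑ i, Polynomial.C (d i) * (Polynomial.C ((p : ℤ_[p]) ^ e) * y i) := by
            rw [Finset.mul_sum]
            refine Finset.sum_congr rfl fun i _ => by ring
        _ = _ := by
            rw [Finset.sum_congr rfl fun i _ => h2 i, Finset.sum_add_distrib, Finset.mul_sum]
            congr 1
            rw [Finset.sum_comm]
            refine Finset.sum_congr rfl fun b _ => ?_
            rw [Finset.sum_comm]
            refine Finset.sum_congr rfl fun a _ => ?_
            rw [map_sum, Finset.sum_mul]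
    have h3 := congrArg (fun f : ℤ_[p][X] => f.coeff m) h1
    simp only [Polynomial.coeff_C_mul, Polynomial.coeff_add, Polynomial.finsetSum_coeff] at h3
    have h4 : (p : ℤ_[p]) ^ (e + 1) ∣ (p : ℤ_[p]) ^ e * ∑ i, d i * (y i).coeff m := by
      rw [h3]
      refine dvd_add ?_ ?_
      · refine Finset.dvd_sum fun b _ => Finset.dvd_sum fun a ha => ?_
        exact Dvd.dvd.mul_right (hd (b, ⟨a, Finset.mem_range.1 ha⟩)) _
      · exact Dvd.dvd.mul_right (pow_dvd_pow _ (by omega)) _
    rw [pow_succ] at h4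
    have hp0 : (p : ℤ_[p]) ^ e ≠ 0 := pow_ne_zero _ PadicInt.prime_p.ne_zero
    exact (mul_dvd_mul_iff_left hp0).1 h4
  obtain ⟨w, hwi, hwd⟩ := l5 (Idx p j) (Idx p (s + h)) (JM p n j (s + h)) h e ν
    (fun i k => c i k.1 k.2) hA hprim
  -- impose the conditions
  let F : (Node p × Fin (s + h - j)) → Idx p (s + h) → ℤ_[p] := fun q k =>
    if k = (q.1, ⟨j + q.2, by have := q.2.2; omega⟩) then 1 else 0
  obtain ⟨v', hvi, hvs, hvF⟩ := l2 (Node p × Fin (s + h - j)) (Idx p (s + h)) ν w F hwi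
  have hcard : Fintype.card (Node p × Fin (s + h - j)) = (p + 1) * (s + h - j) := by
    simp [Fintype.card_prod, Fintype.card_option]
  have hvan : ∀ i (k : Idx p (s + h)), j ≤ (k.2 : ℕ) → v' i k = 0 := by
    intro i k hk
    have hk2 := k.2.2
    have h1 := hvF i (k.1, ⟨(k.2 : ℕ) - j, by omega⟩)
    have h2 : k = (k.1, ⟨j + ((k.2 : ℕ) - j), by omega⟩) := by
      refine Prod.ext rfl (Fin.ext ?_)
      simp only
      omega
    simp only [F] at h1
    rw [Finset.sum_eq_single k] at h1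
    · rw [if_pos h2, one_mul] at h1
      exact h1
    · intro l _ hl
      rw [if_neg (fun hh => hl (hh.trans h2.symm)), zero_mul]
    · intro hk'
      exact absurd (Finset.mem_univ k) hk'
  let emb : Idx p j → Idx p (s + h) := fun k => (k.1, Fin.castLE hjs k.2)
  have hemb : Function.Injective emb := by
    intro k l hkl
    have h1 := congrArg Prod.fst hkl
    have h2 := congrArg (fun z : Idx p (s + h) => (z.2 : ℕ)) hkl
    refine Prod.ext h1 (Fin.ext ?_)
    simpa [emb] using h2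
  have hrange : ∀ k : Idx p (s + h), k ∉ Set.range emb → j ≤ (k.2 : ℕ) := by
    intro k hk
    by_contra hlt
    push Not at hlt
    exact hk ⟨(k.1, ⟨k.2, hlt⟩), rfl⟩
  have hfin : NuGe p (NMp p j n) h (ν - Fintype.card (Node p × Fin (s + h - j))) := by
    refine ⟨fun i k => v' i (emb k), ?_, ?_⟩
    · rw [indepMod_iff]
      intro d hd
      rw [indepMod_iff] at hvi
      refine hvi d fun k => ?_
      by_cases hk : k ∈ Set.range emb
      · obtain ⟨l, rfl⟩ := hk
        exact hd l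
      · have h0 : ∀ i, v' i k = 0 := fun i => hvan i k (hrange k hk)
        simp [h0]
    · intro i r
      have h1 : (NMp p j n).mulVec (fun k => v' i (emb k)) r
          = (JM p n j (s + h)).mulVec (v' i) r := by
        unfold Matrix.mulVec dotProduct
        refine Fintype.sum_of_injective emb hemb _ _ ?_ ?_
        · intro k hk
          simp only
          rw [hvan i k (hrange k hk), mul_zero]
        · intro k
          simp only
          congr 1
          have hk2 : (k.2 : ℕ) < j := k.2.2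
          have hr2 : (r.2 : ℕ) < j := r.2.2
          have hbig : 3 * (s + h) ≤ n := by
            refine le_trans ?_ hsh
            exact Nat.mul_le_mul_right _ (by omega)
          exact (j1 n r.1 k.1 r.2 k.2 (by omega) (by omega) (Or.inr (by omega))).symm
      rw [h1]
      have h2 := hvs i
      -- `A` maps the span into the multiples of `p^h`
      have h3 : ∀ z ∈ Submodule.span ℤ_[p] (Set.range w),
          (p : ℤ_[p]) ^ h ∣ (JM p n j (s + h)).mulVec z r := by
        intro z hz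
        induction hz using Submodule.span_induction with
        | mem z hz =>
          obtain ⟨l, rfl⟩ := hz
          exact hwd l r
        | zero => simp
        | add z z' _ _ h1 h2 =>
          rw [Matrix.mulVec_add]
          exact dvd_add h1 h2
        | smul a z _ h1 =>
          rw [Matrix.mulVec_smul]
          exact Dvd.dvd.mul_left h1 _
      exact h3 _ h2
  have hlast := hn0 n ((le_max_left _ _).trans hn) j h _ hn3
    ((Nat.mul_le_mul_left _ (by omega)).trans hsh) hfin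
  rw [hcard] at hlast
  have h5 : (p + 1) * (s + h - j) ≤ (p + 1) * (3 * h) := Nat.mul_le_mul_left _ (by omega)
  have h6 : (3 * (p + 1) + 1) * h = (p + 1) * (3 * h) + h := by ring
  rw [h6]
  omega

end Gou

end
end

section

/-!
Module A, item J7: the valuation of the determinant in the weight `n0 = (p+1) s - 1`.
-/

open Finset Polynomial

noncomputable section

namespace Gou

theorem natDegree_vv_le {p n : ℕ} {R : Type*} [CommRing R] [Nontrivial R] (b : Node p) (a : ℕ)
    (ha : a ≤ n) : (vv p n R b a).natDegree ≤ n := by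
  match b with
  | none =>
    change (X ^ a : R[X]).natDegree ≤ n
    rw [natDegree_X_pow]
    exact ha
  | some b =>
    change ((X + C ((b : ℕ) : R)) ^ (n - a)).natDegree ≤ n
    refine (natDegree_pow_le).trans ?_
    have : (X + C ((b : ℕ) : R)).natDegree ≤ 1 := (natDegree_X_add_C _).le
    calc (n - a) * (X + C ((b : ℕ) : R)).natDegree ≤ (n - a) * 1 := Nat.mul_le_mul_left _ this
      _ ≤ n := by omega

theorem prf_DetN0 (p : ℕ) [Fact p.Prime] (j1 : J1 p) (j3 : J3 p) (h : DualInj p) (l4 : L4 p) :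
    DetN0 p := by
  classical
  intro s hs
  have hp2 : 2 ≤ p := (Fact.out : p.Prime).two_le
  obtain ⟨n, hn⟩ : ∃ n, n = (p + 1) * s - 1 := ⟨_, rfl⟩
  have hsn : (p + 1) * s = n + 1 := by
    have : 0 < (p + 1) * s := Nat.mul_pos (by omega) hs
    omega
  rw [← hn]
  have h2s : 2 * s ≤ n := by
    have : 3 * s ≤ (p + 1) * s := Nat.mul_le_mul_right s (by omega)
    omega
  have hdet : ((DD p s n : ℤ) : ℤ_[p]) = (NMp p s n).det := by
    rw [DD, Int.cast_det]
    rfl
  have hcard : Fintype.card (Idx p s) = (p + 1) * s := by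
    rw [Fintype.card_prod, Fintype.card_option, Fintype.card_fin, Fintype.card_fin]
  rw [hdet]
  have key := l4 (Idx p s) (NMp p s n) (e0 p n) ?_
  · rw [hcard] at key
    exact key
  · intro t c hc k
    let c' : Node p → ℕ → ℤ_[p] := fun b a => if h : a < s then c (b, ⟨a, h⟩) else 0
    have hc' : ∀ (b : Node p) (a : Fin s), c' b a = c (b, a) := by
      intro b a
      change (if h : (a : ℕ) < s then c (b, ⟨a, h⟩) else 0) = _
      rw [dif_pos a.2]
    let F : ℤ_[p][X] := ∑ b : Node p, ∑ a ∈ range s, C (c' b a) * vv p n ℤ_[p] b a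
    have hFdeg : F.natDegree ≤ n := by
      refine natDegree_sum_le_of_forall_le _ _ fun b _ => ?_
      refine natDegree_sum_le_of_forall_le _ _ fun a ha => ?_
      have ha' : a < s := Finset.mem_range.1 ha
      exact (natDegree_C_mul_le _ _).trans (natDegree_vv_le b a (by omega))
    have hjet : ∀ (b : Node p) (i : ℕ) (hi : i < s), jet n b i F =
        (NMp p s n).mulVec c (b, ⟨i, hi⟩) := by
      intro b i hi
      rw [jet_sum', Matrix.mulVec, dotProduct, Fintype.sum_prod_type]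
      refine Finset.sum_congr rfl fun b' _ => ?_
      rw [jet_sum', Finset.sum_range]
      refine Finset.sum_congr rfl fun a _ => ?_
      rw [jet_C_mul', hc', j1 n b b' i a (by omega) (by omega) (Or.inr (by omega)), mul_comm]
      rfl
    obtain ⟨G, hG, hFG⟩ := j3 n s t hsn F hFdeg (fun b a ha => by
      rw [hjet b a ha]
      exact hc _)
    have h5 := h n s t hsn.le c' G hG hFG k.1 k.2 k.2.2
    rw [hc'] at h5
    exact h5

end Gou

end
end

section

/-!
Module A, item L2: imposing linear conditions on vectors independent mod `p`.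
-/

open Finset

noncomputable section

namespace Gou

theorem prf_L2 (p : ℕ) [Fact p.Prime] (l1 : L1 p) : L2 p := by
  intro κ γ _ _ ν v F hv
  obtain ⟨c, hc, hBc⟩ := l1 κ ν (Matrix.of fun j i => ∑ k, F j k * v i k)
  refine ⟨fun m => ∑ i, c m i • v i, ?_, ?_, ?_⟩
  · rw [indepMod_iff] at hv hc ⊢
    intro a ha
    refine hc a (hv (fun i => ∑ m, a m * c m i) fun k => ?_)
    have : ∑ i, (∑ m, a m * c m i) * v i k = ∑ m, a m * (∑ i, c m i • v i) k := by
      simp only [Finset.sum_mul, Finset.sum_apply, Pi.smul_apply, smul_eq_mul, Finset.mul_sum]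
      rw [Finset.sum_comm]
      exact Finset.sum_congr rfl fun _ _ => Finset.sum_congr rfl fun _ _ => by ring
    rw [this]
    exact ha k
  · intro m
    exact Submodule.sum_mem _ fun i _ =>
      Submodule.smul_mem _ _ (Submodule.subset_span ⟨i, rfl⟩)
  · intro m j
    have h := congrFun (hBc m) j
    rw [Matrix.mulVec, dotProduct] at h
    simp only [Matrix.of_apply, Pi.zero_apply] at h
    rw [← h]
    simp only [Finset.sum_apply, Pi.smul_apply, smul_eq_mul, Finset.mul_sum, Finset.sum_mul]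
    rw [Finset.sum_comm]
    exact Finset.sum_congr rfl fun _ _ => Finset.sum_congr rfl fun _ _ => by ring

end Gou

end
end

section

/-!
Z1: comparison of the ghost sums.
-/

open scoped Polynomial
open Finset

noncomputable section

namespace Gou

theorem prf_Z1 (p : ℕ) [Fact p.Prime] : Z1 p := by
  intro s u l hu hl
  have hp : p.Prime := Fact.out
  rw [zz_layer ((p + 1) * s) (p ^ 2 * s) (gg p s) (fun t => padicValNat p (t + u)) (zz_gg_le p s),
    zz_layer ((p + 1) * s) (p ^ 2 * s) (gg p s) (padicValNat p) (zz_gg_le p s)]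
  have h1 : p ^ 2 * s * l = ∑ _τ ∈ Icc 1 (p ^ 2 * s), l := by
    rw [Finset.sum_const, smul_eq_mul, Nat.card_Icc]
    simp only [Nat.add_sub_cancel]
  rw [h1, ← Finset.sum_add_distrib]
  refine Finset.sum_le_sum fun τ _ => ?_
  obtain ⟨a, n, ha, han, hS⟩ := zz_interval p s ((p + 1) * s) τ
  rw [hS]
  have h2 := zz_val_Ico p a n 0 ha
  simp only [add_zero] at h2
  have h3 := zz_val_Ico p a n u ha
  rw [h2, h3]
  have h4 : padicValNat p ((a + u - 1 + n).choose n) ≤ l := by
    rw [← Nat.factorization_def _ hp]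
    refine Nat.factorization_choose_le_log.trans ?_
    refine (Nat.log_lt_of_lt_pow' ?_ (lt_of_le_of_lt ?_ hl)).le
    · rintro rfl
      simp at hl
      omega
    · omega
  omega

end Gou

end
end

section

/-!
B5c. Index of `I_m`.
-/

open scoped MatrixGroups Polynomial
open CongruenceSubgroup

noncomputable section

namespace Gou

/-- Remainders. -/
def bcRn (p : ℕ) [Fact p.Prime] (n : ℕ) : AddSubgroup ℤ_[p][X] where
  carrier := {f | f.natDegree ≤ n ∧ ∀ i, p ≤ i → i ≠ n → f.coeff i = 0}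
  add_mem' {a b} ha hb := ⟨(Polynomial.natDegree_add_le a b).trans (max_le ha.1 hb.1),
    fun i h1 h2 => by rw [Polynomial.coeff_add, ha.2 i h1 h2, hb.2 i h1 h2, add_zero]⟩
  zero_mem' := by simp
  neg_mem' {a} ha := ⟨by simpa using ha.1,
    fun i h1 h2 => by rw [Polynomial.coeff_neg, ha.2 i h1 h2, neg_zero]⟩

/-- The map `(R, G) ↦ R + Θ G`. -/
def bcHom (p : ℕ) [Fact p.Prime] (n : ℕ) : bcRn p n × Pn p (n - (p + 1)) →+ ℤ_[p][X] where
  toFun x := x.1.1 + Theta p * x.2.1
  map_zero' := by simp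
  map_add' x y := by
    simp only [Prod.fst_add, Prod.snd_add, AddSubgroup.coe_add]
    ring

/-- The exponents of the remainders. -/
def bcIdx (p n : ℕ) (i : Fin (p + 1)) : ℕ := if (i : ℕ) < p then i else n

/-- The coefficients of the remainder modulo `p^m`. -/
def bcKap (p : ℕ) [Fact p.Prime] (n m : ℕ) :
    bcRn p n →+ (Fin (p + 1) → ZMod (p ^ m)) where
  toFun x := fun i => PadicInt.toZModPow m (x.1.coeff (bcIdx p n i))
  map_zero' := by
    ext i
    simp
  map_add' x y := by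
    ext i
    simp

theorem bcIdx_inj (p n : ℕ) (h : p ≤ n) : Function.Injective (bcIdx p n) := by
  intro i j hij
  have hi := i.2
  have hj := j.2
  ext
  simp only [bcIdx] at hij
  split_ifs at hij <;> omega

theorem bcKap_ker (p : ℕ) [Fact p.Prime] (n m : ℕ) (R : bcRn p n) :
    bcKap p n m R = 0 ↔ dvdP ((p : ℤ_[p]) ^ m) R.1 := by
  have hk : ∀ x : ℤ_[p], PadicInt.toZModPow m x = 0 ↔ (p : ℤ_[p]) ^ m ∣ x := by
    intro x
    rw [← RingHom.mem_ker, PadicInt.ker_toZModPow, Ideal.mem_span_singleton]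
  constructor
  · intro h i
    by_cases h1 : i < p
    · have h2 := congrFun h ⟨i, by omega⟩
      simp only [bcKap, AddMonoidHom.coe_mk, ZeroHom.coe_mk, bcIdx, h1, if_true,
        Pi.zero_apply] at h2
      exact (hk _).1 h2
    · by_cases h3 : i = n
      · have h2 := congrFun h ⟨p, by omega⟩
        simp only [bcKap, AddMonoidHom.coe_mk, ZeroHom.coe_mk, bcIdx, lt_irrefl, if_false,
          Pi.zero_apply] at h2
        rw [h3]
        exact (hk _).1 h2
      · rw [R.2.2 i (by omega) h3]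
        exact dvd_zero _
  · intro h
    ext i
    simp only [bcKap, AddMonoidHom.coe_mk, ZeroHom.coe_mk, Pi.zero_apply]
    exact (hk _).2 (h _)

theorem bcKap_surj (p : ℕ) [Fact p.Prime] (n m : ℕ) (h : p ≤ n) :
    Function.Surjective (bcKap p n m) := by
  intro v
  have hp : 0 < p ^ m := pow_pos (Fact.out : p.Prime).pos m
  have : NeZero (p ^ m) := ⟨hp.ne'⟩
  set F : ℤ_[p][X] := ∑ i : Fin (p + 1),
    Polynomial.monomial (bcIdx p n i) (((v i).val : ℕ) : ℤ_[p]) with hF
  have hidx : ∀ i : Fin (p + 1), bcIdx p n i ≤ n := by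
    intro i
    have := i.2
    simp only [bcIdx]
    split_ifs <;> omega
  have hc : ∀ k, F.coeff k = ∑ i : Fin (p + 1),
      if bcIdx p n i = k then (((v i).val : ℕ) : ℤ_[p]) else 0 := by
    intro k
    rw [hF, Polynomial.finsetSum_coeff]
    exact Finset.sum_congr rfl fun i _ => Polynomial.coeff_monomial
  have hmem : F ∈ bcRn p n := by
    constructor
    · rw [hF]
      refine Polynomial.natDegree_sum_le_of_forall_le _ _ fun i _ => ?_
      exact (Polynomial.natDegree_monomial_le _).trans (hidx i)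
    · intro k h1 h2
      rw [hc k]
      refine Finset.sum_eq_zero fun i _ => ?_
      rw [if_neg]
      simp only [bcIdx]
      split_ifs <;> omega
  refine ⟨⟨F, hmem⟩, ?_⟩
  ext i
  simp only [bcKap, AddMonoidHom.coe_mk, ZeroHom.coe_mk]
  rw [hc, Finset.sum_eq_single i, if_pos rfl, map_natCast, ZMod.natCast_zmod_val]
  · intro j _ hj
    rw [if_neg]
    exact fun h' => hj (bcIdx_inj p n h h')
  · intro hi
    exact absurd (Finset.mem_univ i) hi

theorem bcHom_range (h : BStep) (p : ℕ) [Fact p.Prime] (n : ℕ) (hn : p + 1 ≤ n) :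
    (bcHom p n).range = Pn p n := by
  ext F
  constructor
  · rintro ⟨⟨R, G⟩, rfl⟩
    change (R.1 + Theta p * G.1).natDegree ≤ n
    refine (Polynomial.natDegree_add_le _ _).trans (max_le R.2.1 ?_)
    refine Polynomial.natDegree_mul_le.trans ?_
    have h1 : (Theta p).natDegree ≤ p := by
      rw [Theta]
      refine (Polynomial.natDegree_sub_le _ _).trans (max_le ?_ ?_)
      · exact Polynomial.natDegree_X_pow_le p
      · exact Polynomial.natDegree_X_le.trans (Fact.out : p.Prime).one_le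
    have h2 : G.1.natDegree ≤ n - (p + 1) := G.2
    omega
  · intro hF
    obtain ⟨R, G, hFe, hG, hR, hR2⟩ := (h p n hn).1 F hF
    exact ⟨(⟨R, hR, hR2⟩, ⟨G, hG⟩), hFe.symm⟩

theorem bcCard_step (h : BStep) (p : ℕ) [Fact p.Prime] (n m : ℕ) (hn : p + 1 ≤ n) :
    (Ip p n m).relIndex (Pn p n) =
      (p ^ m) ^ (p + 1) * (Ip p (n - (p + 1)) (m - 1)).relIndex (Pn p (n - (p + 1))) := by
  have h1 : (Ip p n m).comap (bcHom p n) =
      ((bcKap p n m).ker).prod
        ((Ip p (n - (p + 1)) (m - 1)).addSubgroupOf (Pn p (n - (p + 1)))) := by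
    ext ⟨R, G⟩
    rw [AddSubgroup.mem_comap, AddSubgroup.mem_prod, AddMonoidHom.mem_ker, bcKap_ker,
      AddSubgroup.mem_addSubgroupOf]
    exact (h p n hn).2 R.1 G.1 m G.2 R.2.1 R.2.2
  have hp : 0 < p ^ m := pow_pos (Fact.out : p.Prime).pos m
  have : NeZero (p ^ m) := ⟨hp.ne'⟩
  rw [← bcHom_range h p n hn, ← AddSubgroup.index_comap, h1, AddSubgroup.index_prod,
    AddSubgroup.index_ker, (AddMonoidHom.range_eq_top).2 (bcKap_surj p n m (by omega))]
  congr 1
  rw [AddSubgroup.card_top, Nat.card_pi]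
  simp

theorem bcCard_pow (h : BStep) (p : ℕ) [Fact p.Prime] (m : ℕ) :
    ∀ n : ℕ, (p + 1) * m ≤ n → ∃ k : ℕ, 2 * k = (p + 1) * m * (m + 1) ∧
      (Ip p n m).relIndex (Pn p n) = p ^ k := by
  induction m with
  | zero =>
    intro n _
    refine ⟨0, by simp, ?_⟩
    have h1 : Ip p n 0 = Pn p n := by
      ext F
      constructor
      · intro hF
        exact hF.1
      · intro hF
        refine ⟨hF, fun γ i => ?_⟩
        rw [pow_zero]
        exact one_dvd _
    rw [h1, AddSubgroup.relIndex_self, pow_zero]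
  | succ m ih =>
    intro n hn
    have hn1 : p + 1 ≤ n := le_trans (by nlinarith) hn
    have hn2 : (p + 1) * m ≤ n - (p + 1) := by
      rw [mul_add, mul_one] at hn
      omega
    obtain ⟨k, hk, hk2⟩ := ih (n - (p + 1)) hn2
    refine ⟨(m + 1) * (p + 1) + k, ?_, ?_⟩
    · rw [mul_add, hk]
      ring
    · rw [bcCard_step h p n (m + 1) hn1, Nat.add_sub_cancel, hk2, ← pow_mul, ← pow_add]

theorem bCard (h : BStep) : BCard := by
  intro p _ n m hn
  obtain ⟨k, hk, hk2⟩ := bcCard_pow h p m n hn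
  have hp1 : (1 : ℝ) < p := by exact_mod_cast (Fact.out : p.Prime).one_lt
  refine ⟨?_, ?_⟩
  · rw [hk2]
    push_cast
    rw [Real.logb_pow, Real.logb_self_eq_one hp1, mul_one]
    exact_mod_cast hk
  · rw [hk2]
    exact pow_ne_zero _ (Fact.out : p.Prime).ne_zero

end Gou

end
end

section

/-!
B3a. The counting lemma for modular symbols with values in a finite module.
-/

open scoped MatrixGroups Polynomial
open CongruenceSubgroup

noncomputable section

namespace Gou

open Classical in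
theorem bct_cnt2 (X : Type) [Finite X] (M : Type) [AddCommGroup M] [Finite M]
    (π : Equiv.Perm X) (hπ : ∀ x, π (π x) = x) (α : M →+ M) :
    ∃ e ε : ℕ, 2 * e + ε = Nat.card X ∧
      Nat.card {f : X → M // ∀ x, f x + α (f (π x)) = 0} ≤
        Nat.card M ^ e * Nat.card {m : M // m + α m = 0} ^ ε := by
  have : Fintype X := Fintype.ofFinite X
  obtain ⟨n, ⟨v⟩⟩ := Finite.exists_equiv_fin X
  set E := {x : X // v x < v (π x)} with hE
  set F := {x : X // π x = x} with hF
  refine ⟨Nat.card E, Nat.card F, ?_, ?_⟩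
  · rw [Nat.card_eq_fintype_card, Nat.card_eq_fintype_card, Nat.card_eq_fintype_card]
    have h1 : ∀ x : X, (1 : ℕ) = (if v x < v (π x) then 1 else 0) +
        (if v (π x) < v (π (π x)) then 1 else 0) + (if π x = x then 1 else 0) := by
      intro x
      rw [hπ x]
      rcases lt_trichotomy (v x) (v (π x)) with h | h | h
      · have h2 : π x ≠ x := by
          intro h3
          rw [h3] at h
          exact lt_irrefl _ h
        rw [if_pos h, if_neg h.not_gt, if_neg h2]
      · have h2 : π x = x := (v.injective h).symm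
        rw [h2]
        simp
      · have h2 : π x ≠ x := by
          intro h3
          rw [h3] at h
          exact lt_irrefl _ h
        rw [if_neg h.not_gt, if_pos h, if_neg h2]
    have h2 : Fintype.card X = ∑ x : X, (1 : ℕ) := by simp
    rw [h2, Finset.sum_congr rfl fun x _ => h1 x, Finset.sum_add_distrib,
      Finset.sum_add_distrib, Equiv.sum_comp π (fun x => if v x < v (π x) then 1 else 0),
      Fintype.card_subtype, Fintype.card_subtype, Finset.card_filter, Finset.card_filter]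
    ring
  · have hinj : Function.Injective
        (fun f : {f : X → M // ∀ x, f x + α (f (π x)) = 0} =>
          ((fun x : E => f.1 x.1,
            fun x : F => (⟨f.1 x.1, by
              have := f.2 x.1
              rw [x.2] at this
              exact this⟩ : {m : M // m + α m = 0})) :
            (E → M) × (F → {m : M // m + α m = 0}))) := by
      rintro ⟨f, hf⟩ ⟨g, hg⟩ hfg
      simp only [Prod.mk.injEq] at hfg
      obtain ⟨h1, h2⟩ := hfg
      have h1' : ∀ x, v x < v (π x) → f x = g x := fun x hx => congrFun h1 ⟨x, hx⟩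
      have h2' : ∀ x, π x = x → f x = g x := fun x hx => congrArg Subtype.val (congrFun h2 ⟨x, hx⟩)
      congr 1
      ext x
      rcases lt_trichotomy (v x) (v (π x)) with h | h | h
      · exact h1' x h
      · exact h2' x (v.injective h).symm
      · have h3 : f (π x) = g (π x) := h1' (π x) (by rw [hπ x]; exact h)
        have h4 := hf x
        have h5 := hg x
        rw [h3] at h4
        exact add_right_cancel (h4.trans h5.symm)
    have h3 := Nat.card_le_card_of_injective _ hinj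
    rw [Nat.card_prod, Nat.card_fun, Nat.card_fun] at h3
    exact h3

open Classical in
theorem bct_cnt3 (X : Type) [Finite X] (M : Type) [AddCommGroup M] [Finite M]
    (π : Equiv.Perm X) (hπ : ∀ x, π (π (π x)) = x) (α : M →+ M) :
    ∃ e ε : ℕ, 3 * e + ε = Nat.card X ∧
      Nat.card {f : X → M // ∀ x, f x + α (f (π x)) + α (α (f (π (π x)))) = 0} ≤
        Nat.card M ^ (2 * e) * Nat.card {m : M // m + α m + α (α m) = 0} ^ ε := by
  have : Fintype X := Fintype.ofFinite X
  obtain ⟨n, ⟨v⟩⟩ := Finite.exists_equiv_fin X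
  set E := {x : X // v x < v (π x) ∧ v x < v (π (π x))} with hE
  set F := {x : X // π x = x} with hF
  have hfix1 : ∀ x, π (π x) = x → π x = x := by
    intro x h
    have := hπ x
    rw [h] at this
    exact this
  have hfix2 : ∀ x, π (π x) = π x → π x = x := fun x h => π.injective h
  refine ⟨Nat.card E, Nat.card F, ?_, ?_⟩
  · rw [Nat.card_eq_fintype_card, Nat.card_eq_fintype_card, Nat.card_eq_fintype_card]
    have h1 : ∀ x : X, (1 : ℕ) = (if v x < v (π x) ∧ v x < v (π (π x)) then 1 else 0) +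
        (if v (π x) < v (π (π x)) ∧ v (π x) < v (π (π (π x))) then 1 else 0) +
        (if v (π (π x)) < v (π (π (π x))) ∧ v (π (π x)) < v (π (π (π (π x)))) then 1 else 0) +
        (if π x = x then 1 else 0) := by
      intro x
      rw [hπ x]
      by_cases hx : π x = x
      · simp [hx]
      · have h2 : v x ≠ v (π x) := fun h => hx (v.injective h).symm
        have h3 : v x ≠ v (π (π x)) := fun h => hx (hfix1 x (v.injective h).symm)
        have h4 : v (π x) ≠ v (π (π x)) := fun h => hx (hfix2 x (v.injective h).symm)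
        rw [if_neg hx]
        split_ifs <;> omega
    have h2 : Fintype.card X = ∑ x : X, (1 : ℕ) := by simp
    rw [h2, Finset.sum_congr rfl fun x _ => h1 x, Finset.sum_add_distrib,
      Finset.sum_add_distrib, Finset.sum_add_distrib,
      Equiv.sum_comp π (fun x => if v x < v (π x) ∧ v x < v (π (π x)) then 1 else 0)]
    have h3 : (∑ x, if v (π (π x)) < v (π (π (π x))) ∧ v (π (π x)) < v (π (π (π (π x))))
        then 1 else 0) = ∑ x, if v x < v (π x) ∧ v x < v (π (π x)) then 1 else 0 := by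
      rw [Equiv.sum_comp π
        (fun x => if v (π x) < v (π (π x)) ∧ v (π x) < v (π (π (π x))) then 1 else 0),
        Equiv.sum_comp π (fun x => if v x < v (π x) ∧ v x < v (π (π x)) then 1 else 0)]
    rw [h3, Fintype.card_subtype, Fintype.card_subtype, Finset.card_filter, Finset.card_filter]
    ring
  · have hinj : Function.Injective
        (fun f : {f : X → M // ∀ x, f x + α (f (π x)) + α (α (f (π (π x)))) = 0} =>
          ((fun x : E => (f.1 x.1, f.1 (π x.1)),
            fun x : F => (⟨f.1 x.1, by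
              have := f.2 x.1
              rw [x.2, x.2] at this
              exact this⟩ : {m : M // m + α m + α (α m) = 0})) :
            (E → M × M) × (F → {m : M // m + α m + α (α m) = 0}))) := by
      rintro ⟨f, hf⟩ ⟨g, hg⟩ hfg
      simp only [Prod.mk.injEq] at hfg
      obtain ⟨h1, h2⟩ := hfg
      have h1' : ∀ x, v x < v (π x) ∧ v x < v (π (π x)) → f x = g x ∧ f (π x) = g (π x) :=
        fun x hx => by
          have := congrFun h1 ⟨x, hx⟩
          exact Prod.mk.inj this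
      have h2' : ∀ x, π x = x → f x = g x := fun x hx => congrArg Subtype.val (congrFun h2 ⟨x, hx⟩)
      congr 1
      ext x
      by_cases hx : π x = x
      · exact h2' x hx
      · have h2 : v x ≠ v (π x) := fun h => hx (v.injective h).symm
        have h3 : v x ≠ v (π (π x)) := fun h => hx (hfix1 x (v.injective h).symm)
        have h4 : v (π x) ≠ v (π (π x)) := fun h => hx (hfix2 x (v.injective h).symm)
        by_cases c1 : v x < v (π x) ∧ v x < v (π (π x))
        · exact (h1' x c1).1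
        · by_cases c2 : v (π x) < v (π (π x)) ∧ v (π x) < v x
          · -- `π x` is minimal
            have h5 := h1' (π x) (by rw [hπ x]; exact c2)
            have h6 := hf x
            have h7 := hg x
            rw [h5.1, h5.2] at h6
            exact add_right_cancel (add_right_cancel (h6.trans h7.symm))
          · -- `π (π x)` is minimal
            have c3 : v (π (π x)) < v x ∧ v (π (π x)) < v (π x) := by
              constructor <;> omega
            have h5 := h1' (π (π x)) (by rw [hπ x]; exact c3)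
            rw [hπ x] at h5
            exact h5.2
    have h3 := Nat.card_le_card_of_injective _ hinj
    rw [Nat.card_prod, Nat.card_fun, Nat.card_fun, Nat.card_prod] at h3
    refine h3.trans (le_of_eq ?_)
    rw [← pow_two, ← pow_mul]


variable {M : Type} [AddCommGroup M] (A : SLAct M) (N : ℕ)

/-- The right cosets, as left cosets via the inverse. -/
abbrev BctX (N : ℕ) : Type := SL(2, ℤ) ⧸ Gamma0 N

/-- The induced module: functions on the cosets, with its action of `SL(2, ℤ)`. -/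
def bctAct (h : SL(2, ℤ)) : (BctX N → M) →+ (BctX N → M) where
  toFun f := fun x => A.act h⁻¹ (f (h⁻¹ • x))
  map_zero' := by
    ext x
    simp
  map_add' f g := by
    ext x
    simp

theorem bctAct_apply (h : SL(2, ℤ)) (f : BctX N → M) (x : BctX N) :
    bctAct A N h f x = A.act h⁻¹ (f (h⁻¹ • x)) := rfl

theorem bctAct_mul (h k : SL(2, ℤ)) (f : BctX N → M) :
    bctAct A N (h * k) f = bctAct A N h (bctAct A N k f) := by
  ext x
  rw [bctAct_apply, bctAct_apply, bctAct_apply, mul_inv_rev, A.mul, smul_smul]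

theorem bctAct_one (f : BctX N → M) : bctAct A N 1 f = f := by
  ext x
  rw [bctAct_apply, inv_one, A.one, one_smul]

theorem bct_neg_smul (x : BctX N) : (-1 : SL(2, ℤ)) • x = x := by
  induction x using QuotientGroup.induction_on with
  | H g =>
    rw [MulAction.Quotient.smul_mk, QuotientGroup.eq]
    have h1 : ((-1 : SL(2, ℤ)) • g)⁻¹ * g = -1 := by
      rw [smul_eq_mul, mul_inv_rev]
      have h2 : (-1 : SL(2, ℤ))⁻¹ = -1 := by
        rw [inv_eq_iff_mul_eq_one]
        simp
      rw [h2]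
      simp
    rw [h1, Gamma0_mem]
    simp

theorem bctAct_neg (f : BctX N → M) : bctAct A N (-1) f = f := by
  ext x
  have h2 : (-1 : SL(2, ℤ))⁻¹ = -1 := by
    rw [inv_eq_iff_mul_eq_one]
    simp
  rw [bctAct_apply, h2, A.neg, bct_neg_smul]

theorem bct_mS_sq : mS * mS = -1 := by
  decide

theorem bct_mV_cube : mV * mV * mV = 1 := by
  decide

/-- `1 + σ`. -/
def bctA : (BctX N → M) →+ (BctX N → M) := AddMonoidHom.id _ + bctAct A N mS

/-- `1 + τ + τ^2`. -/
def bctB : (BctX N → M) →+ (BctX N → M) :=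
  AddMonoidHom.id _ + bctAct A N mV + bctAct A N (mV * mV)

theorem bctA_apply (f : BctX N → M) : bctA A N f = f + bctAct A N mS f := rfl

theorem bctB_apply (f : BctX N → M) :
    bctB A N f = f + bctAct A N mV f + bctAct A N (mV * mV) f := rfl

/-- The sum map of the two kernels. -/
def bctTh : (bctA A N).ker × (bctB A N).ker →+ (BctX N → M) :=
  ((bctA A N).ker.subtype).coprod ((bctB A N).ker.subtype)

theorem bctTh_apply (x : (bctA A N).ker × (bctB A N).ker) :
    bctTh A N x = x.1.1 + x.2.1 := rfl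

theorem bct_sub_memA (f : BctX N → M) : bctAct A N mS f - f ∈ (bctA A N).ker := by
  rw [AddMonoidHom.mem_ker, bctA_apply, map_sub, ← bctAct_mul, bct_mS_sq, bctAct_neg]
  abel

theorem bct_sub_memB (f : BctX N → M) : bctAct A N mV f - f ∈ (bctB A N).ker := by
  rw [AddMonoidHom.mem_ker, bctB_apply, map_sub, map_sub, ← bctAct_mul, ← bctAct_mul,
    bct_mV_cube, bctAct_one]
  abel

/-- The group elements acting trivially modulo the range. -/
def bctH : Subgroup SL(2, ℤ) where
  carrier := {h | ∀ f : BctX N → M, bctAct A N h f - f ∈ (bctTh A N).range}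
  mul_mem' := by
    intro h k hh hk f
    have h1 := (bctTh A N).range.add_mem (hh (bctAct A N k f)) (hk f)
    rw [← bctAct_mul] at h1
    convert h1 using 1
    abel
  one_mem' := by
    intro f
    rw [bctAct_one, sub_self]
    exact (bctTh A N).range.zero_mem
  inv_mem' := by
    intro h hh f
    have h1 := (bctTh A N).range.neg_mem (hh (bctAct A N h⁻¹ f))
    rw [← bctAct_mul, mul_inv_cancel, bctAct_one] at h1
    convert h1 using 1
    abel

theorem bct_mS_mem : mS ∈ bctH A N := by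
  intro f
  refine ⟨(⟨_, bct_sub_memA A N f⟩, 0), ?_⟩
  rw [bctTh_apply]
  simp

theorem bct_mV_mem : mV ∈ bctH A N := by
  intro f
  refine ⟨(0, ⟨_, bct_sub_memB A N f⟩), ?_⟩
  rw [bctTh_apply]
  simp

theorem bct_neg_mem : (-1 : SL(2, ℤ)) ∈ bctH A N := by
  intro f
  rw [bctAct_neg, sub_self]
  exact (bctTh A N).range.zero_mem

theorem bctH_top : bctH A N = ⊤ := by
  rw [eq_top_iff, ← SpecialLinearGroup.SL2Z_generators, Subgroup.closure_le]
  have hS : ModularGroup.S ∈ bctH A N := by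
    have : ModularGroup.S = mS := by decide
    rw [this]
    exact bct_mS_mem A N
  have hT : ModularGroup.T ∈ bctH A N := by
    have : ModularGroup.T = mV * mS := by decide
    rw [this]
    exact (bctH A N).mul_mem (bct_mV_mem A N) (bct_mS_mem A N)
  rintro x (rfl | hx)
  · exact hS
  · rw [Set.mem_singleton_iff] at hx
    rw [hx]
    exact hT

theorem bct_act_sub_mem (h : SL(2, ℤ)) (f : BctX N → M) :
    bctAct A N h f - f ∈ (bctTh A N).range := by
  have : h ∈ bctH A N := by
    rw [bctH_top]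
    trivial
  exact this f

theorem bct_act_inv (h : SL(2, ℤ)) (x : M) : A.act h⁻¹ (A.act h x) = x := by
  rw [← A.mul, mul_inv_cancel, A.one]

theorem bct_act_inv' (h : SL(2, ℤ)) (x : M) : A.act h (A.act h⁻¹ x) = x := by
  rw [← A.mul, inv_mul_cancel, A.one]

open Classical in
theorem bctAct_single (g : SL(2, ℤ)) (y : M) :
    bctAct A N g (Pi.single (QuotientGroup.mk 1 : BctX N) y) =
      Pi.single (QuotientGroup.mk g : BctX N) (A.act g⁻¹ y) := by
  ext x
  rw [bctAct_apply]
  by_cases h : x = QuotientGroup.mk g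
  · have h1 : g⁻¹ • x = QuotientGroup.mk 1 := by
      rw [h, MulAction.Quotient.smul_mk, smul_eq_mul, inv_mul_cancel]
    rw [h1, h, Pi.single_eq_same, Pi.single_eq_same]
  · have h1 : g⁻¹ • x ≠ QuotientGroup.mk 1 := by
      intro h2
      apply h
      have h3 : g • (g⁻¹ • x) = g • (QuotientGroup.mk 1 : BctX N) := by rw [h2]
      rw [smul_inv_smul, MulAction.Quotient.smul_mk, smul_eq_mul, mul_one] at h3
      exact h3
    rw [Pi.single_eq_of_ne h1, Pi.single_eq_of_ne h, map_zero]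

open Classical in
/-- The cokernel is a quotient of the coinvariants of `T`. -/
theorem bct_index [Finite M] (hN : N ≠ 0) : (bctTh A N).range.index ≤
    Nat.card {x : M // A.act mT x = x} := by
  have : NeZero N := ⟨hN⟩
  have : Finite (BctX N) := inferInstance
  have : Fintype (BctX N) := Fintype.ofFinite _
  set q : M →+ ((BctX N → M) ⧸ (bctTh A N).range) :=
    (QuotientAddGroup.mk' (bctTh A N).range).comp
      (AddMonoidHom.single (fun _ : BctX N => M) (QuotientGroup.mk 1)) with hq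
  have hqa : ∀ x, q x = QuotientAddGroup.mk' (bctTh A N).range
    (Pi.single (QuotientGroup.mk 1 : BctX N) x) := fun x => rfl
  have hsingle : ∀ (x : BctX N) (m : M), ∃ y : M, q y =
      QuotientAddGroup.mk' (bctTh A N).range (Pi.single x m) := by
    intro x m
    induction x using QuotientGroup.induction_on with
    | H g =>
      refine ⟨A.act g m, ?_⟩
      rw [hqa]
      have h1 := bctAct_single A N g (A.act g m)
      rw [bct_act_inv] at h1
      rw [← h1]
      have h2 := bct_act_sub_mem A N g (Pi.single (QuotientGroup.mk 1 : BctX N) (A.act g m))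
      rw [eq_comm, ← sub_eq_zero, ← map_sub]
      exact (QuotientAddGroup.eq_zero_iff _).2 h2
  have hsurj : Function.Surjective q := by
    intro z
    obtain ⟨f, rfl⟩ := QuotientAddGroup.mk'_surjective _ z
    choose y hy using hsingle
    refine ⟨∑ x, y x (f x), ?_⟩
    rw [map_sum, Finset.sum_congr rfl fun x _ => hy x (f x), ← map_sum,
      Finset.univ_sum_single]
  set t : M →+ M := A.act mT - AddMonoidHom.id M with ht
  have htq : t.range ≤ q.ker := by
    rintro _ ⟨x, rfl⟩
    rw [AddMonoidHom.mem_ker, ht, AddMonoidHom.sub_apply, AddMonoidHom.id_apply, map_sub,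
      sub_eq_zero, hqa, hqa]
    have h1 := bctAct_single A N mT⁻¹ x
    rw [inv_inv] at h1
    have h2 : (QuotientGroup.mk mT⁻¹ : BctX N) = QuotientGroup.mk 1 := by
      rw [QuotientGroup.eq, inv_inv, mul_one, Gamma0_mem]
      simp [mT]
    rw [h2] at h1
    rw [← h1]
    have h3 := bct_act_sub_mem A N mT⁻¹ (Pi.single (QuotientGroup.mk 1 : BctX N) x)
    rw [← sub_eq_zero, ← map_sub]
    exact (QuotientAddGroup.eq_zero_iff _).2 h3
  have hc1 : Nat.card t.range ≤ Nat.card q.ker := AddSubgroup.card_le_of_le htq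
  have hc2 : Nat.card q.ker * (bctTh A N).range.index = Nat.card M := by
    rw [← AddSubgroup.card_mul_index q.ker, AddSubgroup.index_ker,
      (AddMonoidHom.range_eq_top).2 hsurj, AddSubgroup.card_top]
    rfl
  have hc3 : Nat.card t.ker * Nat.card t.range = Nat.card M := by
    rw [← AddSubgroup.card_mul_index t.ker, AddSubgroup.index_ker]
  have hc4 : Nat.card t.ker = Nat.card {x : M // A.act mT x = x} := by
    refine Nat.card_congr (Equiv.subtypeEquivRight fun x => ?_)
    rw [AddMonoidHom.mem_ker, ht, AddMonoidHom.sub_apply, AddMonoidHom.id_apply, sub_eq_zero]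
  rw [← hc4]
  have hpos : 0 < Nat.card t.range := Nat.card_pos
  have h5 : Nat.card t.range * (bctTh A N).range.index ≤ Nat.card t.range * Nat.card t.ker := by
    calc Nat.card t.range * (bctTh A N).range.index
        ≤ Nat.card q.ker * (bctTh A N).range.index := Nat.mul_le_mul_right _ hc1
      _ = Nat.card t.range * Nat.card t.ker := by rw [hc2, ← hc3, mul_comm]
  exact Nat.le_of_mul_le_mul_left h5 hpos

theorem bct_kerA [Finite M] (hN : N ≠ 0) : ∃ e ε : ℕ, 2 * e + ε = (Gamma0 N).index ∧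
    Nat.card (bctA A N).ker ≤ Nat.card M ^ e * Nat.card {x : M // x + A.act mS x = 0} ^ ε := by
  have : NeZero N := ⟨hN⟩
  have : Finite (BctX N) := inferInstance
  have hinv : mS⁻¹ * mS⁻¹ = -1 := by decide
  obtain ⟨e, ε, h1, h2⟩ := bct_cnt2 (BctX N) M (MulAction.toPerm mS⁻¹)
    (fun x => by
      rw [MulAction.toPerm_apply, MulAction.toPerm_apply, smul_smul, hinv, bct_neg_smul])
    (A.act mS⁻¹)
  refine ⟨e, ε, h1, ?_⟩
  have h3 : Nat.card (bctA A N).ker = Nat.card {f : BctX N → M //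
      ∀ x, f x + A.act mS⁻¹ (f (MulAction.toPerm mS⁻¹ x)) = 0} := by
    refine Nat.card_congr (Equiv.subtypeEquivRight fun f => ?_)
    rw [AddMonoidHom.mem_ker, bctA_apply, funext_iff]
    exact Iff.rfl
  have h4 : Nat.card {x : M // x + A.act mS x = 0} =
      Nat.card {m : M // m + A.act mS⁻¹ m = 0} := by
    refine Nat.card_congr (Equiv.subtypeEquivRight fun x => ?_)
    constructor
    · intro h
      have h5 := congrArg (A.act mS⁻¹) h
      rw [map_add, map_zero, bct_act_inv, add_comm] at h5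
      exact h5
    · intro h
      have h5 := congrArg (A.act mS) h
      rw [map_add, map_zero, bct_act_inv', add_comm] at h5
      exact h5
  rw [h3, h4]
  exact h2

theorem bct_kerB [Finite M] (hN : N ≠ 0) : ∃ e ε : ℕ, 3 * e + ε = (Gamma0 N).index ∧
    Nat.card (bctB A N).ker ≤ Nat.card M ^ (2 * e) *
      Nat.card {x : M // x + A.act mV x + A.act (mV * mV) x = 0} ^ ε := by
  have : NeZero N := ⟨hN⟩
  have : Finite (BctX N) := inferInstance
  have hinv : mV⁻¹ * mV⁻¹ * mV⁻¹ = 1 := by decide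
  obtain ⟨e, ε, h1, h2⟩ := bct_cnt3 (BctX N) M (MulAction.toPerm mV⁻¹)
    (fun x => by
      rw [MulAction.toPerm_apply, MulAction.toPerm_apply, MulAction.toPerm_apply, smul_smul,
        smul_smul, hinv, one_smul])
    (A.act mV⁻¹)
  refine ⟨e, ε, h1, ?_⟩
  have h3 : Nat.card (bctB A N).ker = Nat.card {f : BctX N → M //
      ∀ x, f x + A.act mV⁻¹ (f (MulAction.toPerm mV⁻¹ x)) +
        A.act mV⁻¹ (A.act mV⁻¹ (f (MulAction.toPerm mV⁻¹ (MulAction.toPerm mV⁻¹ x)))) = 0} := by
    refine Nat.card_congr (Equiv.subtypeEquivRight fun f => ?_)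
    rw [AddMonoidHom.mem_ker, bctB_apply, bctAct_mul, funext_iff]
    exact Iff.rfl
  have h4 : Nat.card {x : M // x + A.act mV x + A.act (mV * mV) x = 0} =
      Nat.card {m : M // m + A.act mV⁻¹ m + A.act mV⁻¹ (A.act mV⁻¹ m) = 0} := by
    refine Nat.card_congr (Equiv.subtypeEquivRight fun x => ?_)
    constructor
    · intro h
      have h5 := congrArg (fun y => A.act mV⁻¹ (A.act mV⁻¹ y)) h
      simp only [map_add, map_zero, A.mul mV mV, bct_act_inv] at h5
      rw [← h5]
      abel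
    · intro h
      have h5 := congrArg (fun y => A.act mV (A.act mV y)) h
      simp only [map_add, map_zero, bct_act_inv'] at h5
      rw [A.mul mV mV, ← h5]
      abel
  rw [h3, h4]
  exact h2

/-- The function on the cosets attached to a modular symbol. -/
def bctF (φ : Vec → Vec → M) : BctX N → M := fun x =>
  A.act (Quotient.out x)⁻¹ (φ ((mx (Quotient.out x)⁻¹).mulVec c0)
    ((mx (Quotient.out x)⁻¹).mulVec cI))

theorem bct_mx_mul (g h : SL(2, ℤ)) (r : Vec) :
    (mx (g * h)).mulVec r = (mx g).mulVec ((mx h).mulVec r) := by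
  rw [Matrix.mulVec_mulVec]
  rfl

theorem bctF_mk (φ : Vec → Vec → M) (hφ : φ ∈ SymbM N M A) (g : SL(2, ℤ)) :
    bctF A N φ (QuotientGroup.mk g) =
      A.act g⁻¹ (φ ((mx g⁻¹).mulVec c0) ((mx g⁻¹).mulVec cI)) := by
  obtain ⟨h, hh⟩ := QuotientGroup.mk_out_eq_mul (Gamma0 N) g
  rw [bctF]
  have h1 : (Quotient.out (QuotientGroup.mk g : BctX N))⁻¹ = (h : SL(2, ℤ))⁻¹ * g⁻¹ := by
    have : Quotient.out (QuotientGroup.mk g : BctX N) = g * h := hh
    rw [this, mul_inv_rev]
  rw [h1, A.mul, bct_mx_mul, bct_mx_mul,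
    hφ.2.2.2 _ ((Gamma0 N).inv_mem h.2) ((mx g⁻¹).mulVec c0) ((mx g⁻¹).mulVec cI)]

theorem bctF_act (φ : Vec → Vec → M) (hφ : φ ∈ SymbM N M A) (h g : SL(2, ℤ)) :
    bctAct A N h (bctF A N φ) (QuotientGroup.mk g) =
      A.act g⁻¹ (φ ((mx g⁻¹).mulVec ((mx h).mulVec c0)) ((mx g⁻¹).mulVec ((mx h).mulVec cI))) := by
  rw [bctAct_apply, MulAction.Quotient.smul_mk, bctF_mk A N φ hφ, smul_eq_mul, mul_inv_rev,
    inv_inv, A.mul, bct_act_inv, bct_mx_mul, bct_mx_mul]

theorem bct_mulVec_ne (g : SL(2, ℤ)) (r : Vec) (hr : r ≠ 0) : (mx g).mulVec r ≠ 0 := by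
  intro h
  apply hr
  have h1 := bct_mx_mul g⁻¹ g r
  rw [h, Matrix.mulVec_zero, inv_mul_cancel] at h1
  simpa [mx] using h1

theorem bct_c0_ne : c0 ≠ 0 := by
  intro h
  have := congrFun h 1
  simp [c0] at this

theorem bct_cI_ne : cI ≠ 0 := by
  intro h
  have := congrFun h 0
  simp [cI] at this

theorem bct_symb_self (φ : Vec → Vec → M) (hφ : φ ∈ SymbM N M A) (r : Vec) (hr : r ≠ 0) :
    φ r r = 0 := by
  have := hφ.2.1 r r r hr hr hr
  simpa using this

theorem bctF_memA (φ : Vec → Vec → M) (hφ : φ ∈ SymbM N M A) :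
    bctF A N φ ∈ (bctA A N).ker := by
  rw [AddMonoidHom.mem_ker, bctA_apply]
  ext x
  induction x using QuotientGroup.induction_on with
  | H g =>
    rw [Pi.add_apply, bctF_act A N φ hφ, bctF_mk A N φ hφ, ← map_add]
    have h1 : (mx mS).mulVec c0 = (-1 : ℤ) • cI := by
      ext i
      fin_cases i <;> simp [mS, mx, c0, cI, Matrix.mulVec, dotProduct, Fin.sum_univ_two]
    have h2 : (mx mS).mulVec cI = c0 := by
      ext i
      fin_cases i <;> simp [mS, mx, c0, cI, Matrix.mulVec, dotProduct, Fin.sum_univ_two]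
    rw [h1, h2, Matrix.mulVec_smul, hφ.2.2.1 _ _ _ (by norm_num),
      hφ.2.1 _ _ _ (bct_mulVec_ne _ _ bct_c0_ne) (bct_mulVec_ne _ _ bct_cI_ne)
        (bct_mulVec_ne _ _ bct_c0_ne),
      bct_symb_self A N φ hφ _ (bct_mulVec_ne _ _ bct_c0_ne), map_zero]
    rfl

theorem bctF_memB (φ : Vec → Vec → M) (hφ : φ ∈ SymbM N M A) :
    bctF A N φ ∈ (bctB A N).ker := by
  rw [AddMonoidHom.mem_ker, bctB_apply]
  ext x
  induction x using QuotientGroup.induction_on with
  | H g =>
    rw [Pi.add_apply, Pi.add_apply, bctF_act A N φ hφ, bctF_act A N φ hφ, bctF_mk A N φ hφ,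
      ← map_add, ← map_add]
    have h1 : (mx mV).mulVec c0 = cI := by
      ext i
      fin_cases i <;> simp [mV, mx, c0, cI, Matrix.mulVec, dotProduct, Fin.sum_univ_two]
    have h2 : (mx (mV * mV)).mulVec c0 = (mx mV).mulVec cI := by
      rw [bct_mx_mul, h1]
    have h3 : (mx (mV * mV)).mulVec cI = c0 := by
      rw [bct_mx_mul]
      ext i
      fin_cases i <;> simp [mV, mx, c0, cI, Matrix.mulVec, dotProduct, Fin.sum_univ_two]
    have hz : (mx mV).mulVec cI ≠ 0 := bct_mulVec_ne _ _ bct_cI_ne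
    rw [h1, h2, h3,
      hφ.2.1 _ _ _ (bct_mulVec_ne _ _ bct_c0_ne) (bct_mulVec_ne _ _ bct_cI_ne)
        (bct_mulVec_ne _ _ hz),
      hφ.2.1 _ _ _ (bct_mulVec_ne _ _ bct_c0_ne) (bct_mulVec_ne _ _ hz)
        (bct_mulVec_ne _ _ bct_c0_ne),
      bct_symb_self A N φ hφ _ (bct_mulVec_ne _ _ bct_c0_ne), map_zero]
    rfl

theorem bctF_inj (hM : BManin) (φ φ' : Vec → Vec → M) (hφ : φ ∈ SymbM N M A)
    (hφ' : φ' ∈ SymbM N M A) (h : bctF A N φ = bctF A N φ') : φ = φ' := by
  have h1 : ∀ g : SL(2, ℤ), φ ((mx g).mulVec c0) ((mx g).mulVec cI) =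
      φ' ((mx g).mulVec c0) ((mx g).mulVec cI) := by
    intro g
    have h2 := congrFun h (QuotientGroup.mk g⁻¹)
    rw [bctF_mk A N φ hφ, bctF_mk A N φ' hφ', inv_inv] at h2
    have h3 := congrArg (A.act g⁻¹) h2
    rw [bct_act_inv, bct_act_inv] at h3
    exact h3
  ext r s
  by_cases hr : r = 0
  · rw [hφ.1 r s (Or.inl hr), hφ'.1 r s (Or.inl hr)]
  · by_cases hs : s = 0
    · rw [hφ.1 r s (Or.inr hs), hφ'.1 r s (Or.inr hs)]
    · obtain ⟨L, hL⟩ := hM r s hr hs
      rw [hL M φ hφ.2.1 hφ.2.2.1, hL M φ' hφ'.2.1 hφ'.2.2.1]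
      congr 1
      exact List.map_congr_left fun g _ => h1 g

theorem bCount (hM : BManin) : BCount := by
  intro N M _ _ A hN
  obtain ⟨e2, ε2, h2, k2⟩ := bct_kerA A N hN
  obtain ⟨e3, ε3, h3, k3⟩ := bct_kerB A N hN
  refine ⟨e2, ε2, e3, ε3, h2, h3, ?_⟩
  have : NeZero N := ⟨hN⟩
  have : Finite (BctX N) := inferInstance
  -- the symbols inject into the kernel of `Θ`
  have hker : ∀ φ : SymbM N M A, ((⟨bctF A N φ.1, bctF_memA A N φ.1 φ.2⟩,
      ⟨-bctF A N φ.1, (bctB A N).ker.neg_mem (bctF_memB A N φ.1 φ.2)⟩) :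
        (bctA A N).ker × (bctB A N).ker) ∈ (bctTh A N).ker := by
    intro φ
    rw [AddMonoidHom.mem_ker, bctTh_apply]
    exact add_neg_cancel _
  have hinj : Function.Injective (fun φ : SymbM N M A =>
      (⟨_, hker φ⟩ : (bctTh A N).ker)) := by
    rintro ⟨φ, hφ⟩ ⟨φ', hφ'⟩ h
    have h1 : bctF A N φ = bctF A N φ' := congrArg (fun x => x.1.1.1) h
    exact Subtype.ext (bctF_inj A N hM φ φ' hφ hφ' h1)
  have c1 : Nat.card (SymbM N M A) ≤ Nat.card (bctTh A N).ker :=
    Nat.card_le_card_of_injective _ hinj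
  have c2 : Nat.card (bctTh A N).ker * Nat.card (bctTh A N).range =
      Nat.card (bctA A N).ker * Nat.card (bctB A N).ker := by
    rw [← AddSubgroup.index_ker, AddSubgroup.card_mul_index, Nat.card_prod]
  have c3 : Nat.card (bctTh A N).range * (bctTh A N).range.index =
      Nat.card M ^ (Gamma0 N).index := by
    rw [AddSubgroup.card_mul_index, Nat.card_fun]
    rfl
  calc Nat.card (SymbM N M A) * Nat.card M ^ (Gamma0 N).index
      ≤ Nat.card (bctTh A N).ker * Nat.card M ^ (Gamma0 N).index :=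
        Nat.mul_le_mul_right _ c1
    _ = (Nat.card (bctTh A N).ker * Nat.card (bctTh A N).range) *
          (bctTh A N).range.index := by rw [← c3, mul_assoc]
    _ = Nat.card (bctA A N).ker * Nat.card (bctB A N).ker * (bctTh A N).range.index := by
        rw [c2]
    _ ≤ (Nat.card M ^ e2 * Nat.card {x : M // x + A.act mS x = 0} ^ ε2) *
          (Nat.card M ^ (2 * e3) *
            Nat.card {x : M // x + A.act mV x + A.act (mV * mV) x = 0} ^ ε3) *
          Nat.card {x : M // A.act mT x = x} :=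
        Nat.mul_le_mul (Nat.mul_le_mul k2 k3) (bct_index A N hN)
    _ = _ := by
        rw [pow_add]
        ring

end Gou

end
end

section

/-!
B3b. Counting families of symbols with values in `K`, pairwise distinct modulo `J`.
-/

open scoped MatrixGroups Polynomial
open CongruenceSubgroup

noncomputable section

namespace Gou

namespace CountJK

theorem symAct_neg_mat {R : Type*} [CommRing R] (n : ℕ) (g : Matrix (Fin 2) (Fin 2) ℤ) (f : R[X])
    (hn : Even n) : symAct n (-g) f = symAct n g f := by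
  unfold symAct
  refine Finset.sum_congr rfl fun i hi => ?_
  have hi' : i ≤ n := Nat.lt_succ_iff.1 (Finset.mem_range.1 hi)
  have e1 : (Polynomial.C (((-g) 0 0 : ℤ) : R) * Polynomial.X + Polynomial.C (((-g) 0 1 : ℤ) : R)) =
      -(Polynomial.C ((g 0 0 : ℤ) : R) * Polynomial.X + Polynomial.C ((g 0 1 : ℤ) : R)) := by
    simp only [Matrix.neg_apply, Int.cast_neg, Polynomial.C_neg]
    ring
  have e2 : (Polynomial.C (((-g) 1 0 : ℤ) : R) * Polynomial.X + Polynomial.C (((-g) 1 1 : ℤ) : R)) =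
      -(Polynomial.C ((g 1 0 : ℤ) : R) * Polynomial.X + Polynomial.C ((g 1 1 : ℤ) : R)) := by
    simp only [Matrix.neg_apply, Int.cast_neg, Polynomial.C_neg]
    ring
  rw [e1, e2, neg_pow (_ + _) i, neg_pow (_ + _) (n - i)]
  have e3 : ((-1 : R[X]) ^ i) * (-1) ^ (n - i) = 1 := by
    rw [← pow_add, Nat.add_sub_cancel' hi', hn.neg_one_pow]
  calc _ = ((-1 : R[X]) ^ i * (-1) ^ (n - i)) * (Polynomial.C (f.coeff i) *
        (Polynomial.C ((g 0 0 : ℤ) : R) * Polynomial.X + Polynomial.C ((g 0 1 : ℤ) : R)) ^ i *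
        (Polynomial.C ((g 1 0 : ℤ) : R) * Polynomial.X + Polynomial.C ((g 1 1 : ℤ) : R)) ^ (n - i)) := by
        ring
    _ = _ := by rw [e3, one_mul]

variable {p : ℕ} [Fact p.Prime]

/-- the action as a homomorphism -/
def symHom (n : ℕ) (g : Matrix (Fin 2) (Fin 2) ℤ) : ℤ_[p][X] →+ ℤ_[p][X] where
  toFun f := symAct n g f
  map_zero' := symAct_zero n g
  map_add' a b := symAct_add n g a b

/-- the action on `K` -/
def actK (n : ℕ) (K : AddSubgroup ℤ_[p][X]) (hK : Stab n K) (γ : SL(2, ℤ)) : K →+ K :=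
  ((symHom n (mx γ)).comp K.subtype).codRestrict K (fun f => hK γ f.1 f.2)

/-- the action on `K / J` -/
def actM (n : ℕ) (K J : AddSubgroup ℤ_[p][X]) (hK : Stab n K) (hJ : Stab n J) (γ : SL(2, ℤ)) :
    (K ⧸ J.addSubgroupOf K) →+ (K ⧸ J.addSubgroupOf K) :=
  QuotientAddGroup.map _ _ (actK n K hK γ) (by
    intro x hx
    rw [AddSubgroup.mem_comap, AddSubgroup.mem_addSubgroupOf]
    rw [AddSubgroup.mem_addSubgroupOf] at hx
    exact hJ γ _ hx)

/-- the quotient map -/
def mk (K J : AddSubgroup ℤ_[p][X]) (x : ℤ_[p][X]) (hx : x ∈ K) : K ⧸ J.addSubgroupOf K :=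
  QuotientAddGroup.mk ⟨x, hx⟩

theorem mk_eq {K J : AddSubgroup ℤ_[p][X]} {x y : ℤ_[p][X]} {hx : x ∈ K} {hy : y ∈ K} :
    mk K J x hx = mk K J y hy ↔ x - y ∈ J := by
  unfold mk
  rw [QuotientAddGroup.eq, AddSubgroup.mem_addSubgroupOf]
  have : ((-(⟨x, hx⟩ : K) + ⟨y, hy⟩ : K) : ℤ_[p][X]) = -(x - y) := by
    simp only [AddSubgroup.coe_add, AddSubgroup.coe_neg]
    ring
  rw [this, AddSubgroup.neg_mem_iff]

theorem mk_add {K J : AddSubgroup ℤ_[p][X]} {x y : ℤ_[p][X]} (hx : x ∈ K) (hy : y ∈ K) :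
    mk K J x hx + mk K J y hy = mk K J (x + y) (K.add_mem hx hy) := rfl

theorem mk_eq_zero {K J : AddSubgroup ℤ_[p][X]} {x : ℤ_[p][X]} {hx : x ∈ K} :
    mk K J x hx = 0 ↔ x ∈ J := by
  have h0 : (0 : K ⧸ J.addSubgroupOf K) = mk K J 0 K.zero_mem := rfl
  rw [h0, mk_eq, sub_zero]

theorem mk_surj {K J : AddSubgroup ℤ_[p][X]} (z : K ⧸ J.addSubgroupOf K) :
    ∃ (x : ℤ_[p][X]) (hx : x ∈ K), z = mk K J x hx := by
  obtain ⟨x, rfl⟩ := QuotientAddGroup.mk_surjective z
  exact ⟨x.1, x.2, rfl⟩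

theorem actM_mk {n : ℕ} {K J : AddSubgroup ℤ_[p][X]} (hK : Stab n K) (hJ : Stab n J)
    (γ : SL(2, ℤ)) (x : ℤ_[p][X]) (hx : x ∈ K) :
    actM n K J hK hJ γ (mk K J x hx) = mk K J (symAct n (mx γ) x) (hK γ x hx) := rfl

/-- the module `K / J` -/
def slAct (h2 : BComp) (n : ℕ) (hn : Even n) (K J : AddSubgroup ℤ_[p][X]) (hKn : K ≤ Pn p n)
    (hK : Stab n K) (hJ : Stab n J) : SLAct (K ⧸ J.addSubgroupOf K) where
  act := actM n K J hK hJ
  one := by
    intro z
    obtain ⟨x, hx, rfl⟩ := mk_surj z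
    rw [actM_mk, mk_eq]
    have h := (h2 ℤ_[p] n 1 1 x (hKn hx)).2.2
    have e : mx (1 : SL(2, ℤ)) = 1 := Matrix.SpecialLinearGroup.coe_one
    rw [e, h, sub_self]
    exact J.zero_mem
  mul := by
    intro g k z
    obtain ⟨x, hx, rfl⟩ := mk_surj z
    rw [actM_mk, actM_mk, actM_mk, mk_eq]
    have h := (h2 ℤ_[p] n (mx g) (mx k) x (hKn hx)).1
    have e : mx (g * k) = mx g * mx k := Matrix.SpecialLinearGroup.coe_mul g k
    rw [e, h, sub_self]
    exact J.zero_mem
  neg := by
    intro z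
    obtain ⟨x, hx, rfl⟩ := mk_surj z
    rw [actM_mk, mk_eq]
    have h := (h2 ℤ_[p] n 1 1 x (hKn hx)).2.2
    have e : mx (-1 : SL(2, ℤ)) = -1 := by
      show ((-1 : SL(2, ℤ)) : Matrix (Fin 2) (Fin 2) ℤ) = -1
      rw [Matrix.SpecialLinearGroup.coe_neg, Matrix.SpecialLinearGroup.coe_one]
    rw [e, symAct_neg_mat n 1 x hn, h, sub_self]
    exact J.zero_mem

/-- cardinality of subsets of `K / J` -/
theorem card_sub {K J K' : AddSubgroup ℤ_[p][X]} (hK' : K' ≤ K)
    (P : (K ⧸ J.addSubgroupOf K) → Prop)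
    (h : ∀ (x : ℤ_[p][X]) (hx : x ∈ K), P (mk K J x hx) ↔ x ∈ K') :
    Nat.card {z : K ⧸ J.addSubgroupOf K // P z} = J.relIndex K' := by
  let θ : K' →+ (K ⧸ J.addSubgroupOf K) :=
    (QuotientAddGroup.mk' (J.addSubgroupOf K)).comp (AddSubgroup.inclusion hK')
  have hθ : ∀ x : K', θ x = mk K J x.1 (hK' x.2) := fun x => rfl
  have hker : θ.ker = J.addSubgroupOf K' := by
    ext x
    rw [AddMonoidHom.mem_ker, hθ, mk_eq_zero, AddSubgroup.mem_addSubgroupOf]
  have hrange : ∀ z, z ∈ θ.range ↔ P z := by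
    intro z
    rw [AddMonoidHom.mem_range]
    constructor
    · rintro ⟨x, rfl⟩
      rw [hθ, h]
      exact x.2
    · intro hz
      obtain ⟨x, hx, rfl⟩ := mk_surj z
      exact ⟨⟨x, (h x hx).1 hz⟩, rfl⟩
  have h1 : Nat.card {z : K ⧸ J.addSubgroupOf K // P z} = Nat.card θ.range :=
    Nat.card_congr (Equiv.subtypeEquivRight fun z => (hrange z).symm)
  rw [h1, ← AddSubgroup.index_ker, hker]
  rfl

/-- modular symbols with finite coefficients are finite in number -/
theorem finite_symbM (h3 : BManin) (h4 : BReps) {N : ℕ} (hN : N ≠ 0) (M : Type) [AddCommGroup M]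
    [Finite M] (A : SLAct M) : Finite (SymbM N M A) := by
  obtain ⟨g, hg⟩ := h4 N hN
  let Φ : SymbM N M A → (Fin (Gamma0 N).index → M) := fun φ j =>
    φ.1 ((mx (g j)).mulVec c0) ((mx (g j)).mulVec cI)
  have hact : ∀ γ : SL(2, ℤ), Function.Injective (A.act γ) := by
    intro γ x y hxy
    have e : ∀ x, A.act γ⁻¹ (A.act γ x) = x := by
      intro x
      rw [← A.mul, mul_inv_cancel, A.one]
    rw [← e x, ← e y, hxy]
  apply Finite.of_injective Φ
  rintro ⟨φ, hφ⟩ ⟨φ', hφ'⟩ heq
  apply Subtype.ext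
  have hall : ∀ h : SL(2, ℤ), φ ((mx h).mulVec c0) ((mx h).mulVec cI) =
      φ' ((mx h).mulVec c0) ((mx h).mulVec cI) := by
    intro h
    obtain ⟨j, γ, hγ, rfl⟩ := hg h
    have hj : φ ((mx (g j)).mulVec c0) ((mx (g j)).mulVec cI) =
        φ' ((mx (g j)).mulVec c0) ((mx (g j)).mulVec cI) := congrFun heq j
    have e : mx (γ * g j) = mx γ * mx (g j) := Matrix.SpecialLinearGroup.coe_mul _ _
    rw [e, ← Matrix.mulVec_mulVec, ← Matrix.mulVec_mulVec]
    apply hact γ
    rw [hφ.2.2.2 γ hγ, hφ'.2.2.2 γ hγ, hj]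
  funext r s
  show φ r s = φ' r s
  by_cases hr : r = 0
  · rw [hφ.1 r s (Or.inl hr), hφ'.1 r s (Or.inl hr)]
  by_cases hs : s = 0
  · rw [hφ.1 r s (Or.inr hs), hφ'.1 r s (Or.inr hs)]
  obtain ⟨L, hL⟩ := h3 r s hr hs
  rw [hL M φ hφ.2.1 hφ.2.2.1, hL M φ' hφ'.2.1 hφ'.2.2.1]
  congr 1
  apply List.map_congr_left
  intro h _
  exact hall h

/-- the arithmetic at the end -/
theorem final_ineq {idx e2 ε2 e3 ε3 : ℕ} (h2 : 2 * e2 + ε2 = idx) (h3 : 3 * e3 + ε3 = idx)
    {L E LM a b c X : ℝ} (hE : 0 ≤ E) (hLM : |LM - L| ≤ E)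
    (ha : a ≤ L / 2 + E) (hb : b ≤ 2 * L / 3 + E) (hc : c ≤ E)
    (hX : X + idx * LM ≤ (e2 + 2 * e3 : ℕ) * LM + ε2 * a + ε3 * b + c) :
    X ≤ (idx : ℝ) / 6 * L + (4 * (idx : ℝ) + 1) * E := by
  have h2' : 2 * (e2 : ℝ) + ε2 = idx := by exact_mod_cast h2
  have h3' : 3 * (e3 : ℝ) + ε3 = idx := by exact_mod_cast h3
  have n2 : (0 : ℝ) ≤ e2 := Nat.cast_nonneg _
  have n3 : (0 : ℝ) ≤ e3 := Nat.cast_nonneg _
  have m2 : (0 : ℝ) ≤ ε2 := Nat.cast_nonneg _
  have m3 : (0 : ℝ) ≤ ε3 := Nat.cast_nonneg _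
  have ni : (0 : ℝ) ≤ idx := Nat.cast_nonneg _
  push_cast at hX
  obtain ⟨hl, hu⟩ := abs_le.1 hLM
  have p1 : (ε2 : ℝ) * a ≤ ε2 * (L / 2 + E) := mul_le_mul_of_nonneg_left ha m2
  have p2 : (ε3 : ℝ) * b ≤ ε3 * (2 * L / 3 + E) := mul_le_mul_of_nonneg_left hb m3
  -- coefficient of `LM`
  have k1 : (idx : ℝ) / 6 * (LM - L) ≤ (idx : ℝ) / 6 * E :=
    mul_le_mul_of_nonneg_left hu (by positivity)
  have k2 : (ε2 : ℝ) / 2 * (-(LM - L)) ≤ (ε2 : ℝ) / 2 * E :=
    mul_le_mul_of_nonneg_left (by linarith) (by positivity)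
  have k3 : 2 * (ε3 : ℝ) / 3 * (-(LM - L)) ≤ 2 * (ε3 : ℝ) / 3 * E :=
    mul_le_mul_of_nonneg_left (by linarith) (by positivity)
  have q2 : (ε2 : ℝ) * E ≤ idx * E := mul_le_mul_of_nonneg_right (by linarith) hE
  have q3 : (ε3 : ℝ) * E ≤ idx * E := mul_le_mul_of_nonneg_right (by linarith) hE
  have qi : 0 ≤ (idx : ℝ) * E := mul_nonneg ni hE
  have e2' : (e2 : ℝ) = (idx - ε2) / 2 := by linarith
  have e3' : (e3 : ℝ) = (idx - ε3) / 3 := by linarith
  rw [e2', e3'] at hX
  nlinarith

theorem final_log {q : ℝ} (hq : 1 < q) {idx e2 ε2 e3 ε3 : ℕ} (h2 : 2 * e2 + ε2 = idx)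
    (h3 : 3 * e3 + ε3 = idx) {L E : ℝ} (hE : 0 ≤ E) {m s v t c r : ℕ} (hm : 0 < m) (hs : 0 < s)
    (hv : 0 < v) (ht : 0 < t) (hc : 0 < c) (hr : r ≤ c) (hLM : |Real.logb q m - L| ≤ E)
    (hS : Real.logb q s ≤ L / 2 + E) (hV : Real.logb q v ≤ 2 * L / 3 + E)
    (hT : Real.logb q t ≤ E) (hcount : c * m ^ idx ≤ m ^ (e2 + 2 * e3) * s ^ ε2 * v ^ ε3 * t) :
    Real.logb q r ≤ (idx : ℝ) / 6 * L + (4 * (idx : ℝ) + 1) * E := by
  have hm' : 0 < (m : ℝ) := by exact_mod_cast hm
  have hs' : 0 < (s : ℝ) := by exact_mod_cast hs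
  have hv' : 0 < (v : ℝ) := by exact_mod_cast hv
  have ht' : 0 < (t : ℝ) := by exact_mod_cast ht
  have hc' : 0 < (c : ℝ) := by exact_mod_cast hc
  have hcount' : (c : ℝ) * (m : ℝ) ^ idx ≤
      (m : ℝ) ^ (e2 + 2 * e3) * (s : ℝ) ^ ε2 * (v : ℝ) ^ ε3 * (t : ℝ) := by
    exact_mod_cast hcount
  have hlog := Real.logb_le_logb_of_le hq (mul_pos hc' (pow_pos hm' _)) hcount'
  rw [Real.logb_mul hc'.ne' (pow_pos hm' _).ne', Real.logb_pow,
    Real.logb_mul (by positivity) ht'.ne', Real.logb_mul (by positivity) (by positivity),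
    Real.logb_mul (by positivity) (by positivity), Real.logb_pow, Real.logb_pow,
    Real.logb_pow] at hlog
  have hmain := final_ineq h2 h3 hE hLM hS hV hT hlog
  refine le_trans ?_ hmain
  rcases Nat.eq_zero_or_pos r with h0 | h0
  · rw [h0, Nat.cast_zero, Real.logb_zero]
    apply Real.logb_nonneg hq
    exact_mod_cast hc
  · apply Real.logb_le_logb_of_le hq
    · exact_mod_cast h0
    · exact_mod_cast hr

end CountJK

open CountJK in
/-- B3b. -/
theorem bCountJK (h1 : BCount) (h2 : BComp) (h3 : BManin) (h4 : BReps) : BCountJK := by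
  intro p _ N n K J L E hN hn hJK hKn hK hJ hidx hL hE hLM hS hV hT r φ hφ hφK hinj
  have hp : 1 < (p : ℝ) := by exact_mod_cast (Fact.out : p.Prime).one_lt
  let M := K ⧸ J.addSubgroupOf K
  have hcardM : Nat.card M = J.relIndex K := rfl
  have hfin : Finite M := Nat.finite_of_card_ne_zero (by rw [hcardM]; exact hidx)
  let A : SLAct M := slAct h2 n hn K J hKn hK hJ
  have hAmk : ∀ (γ : SL(2, ℤ)) (x : ℤ_[p][X]) (hx : x ∈ K), A.act γ (mk K J x hx) =
      mk K J (symAct n (mx γ) x) (hK γ x hx) := fun γ x hx => rfl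
  have hone : ∀ x ∈ K, symAct n (mx (1 : SL(2, ℤ))) x = x := by
    intro x hx
    have h := (h2 ℤ_[p] n 1 1 x (hKn hx)).2.2
    have e : mx (1 : SL(2, ℤ)) = 1 := Matrix.SpecialLinearGroup.coe_one
    rw [e, h]
  have hkS : Nat.card {x : M // x + A.act mS x = 0} = J.relIndex (kerN n 2 mS K J) := by
    apply card_sub (K' := kerN n 2 mS K J) (fun x hx => hx.1)
    intro x hx
    rw [hAmk, mk_add, mk_eq_zero]
    have e : Ng n 2 mS x = x + symAct n (mx mS) x := by
      unfold Ng
      rw [Finset.sum_range_succ, Finset.sum_range_one, pow_zero, pow_one, hone x hx]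
    constructor
    · intro h
      exact ⟨hx, by rw [e]; exact h⟩
    · intro h
      rw [← e]
      exact h.2
  have hkV : Nat.card {x : M // x + A.act mV x + A.act (mV * mV) x = 0} =
      J.relIndex (kerN n 3 mV K J) := by
    apply card_sub (K' := kerN n 3 mV K J) (fun x hx => hx.1)
    intro x hx
    rw [hAmk, hAmk, mk_add, mk_add, mk_eq_zero]
    have e : Ng n 3 mV x = x + symAct n (mx mV) x + symAct n (mx (mV * mV)) x := by
      unfold Ng
      rw [Finset.sum_range_succ, Finset.sum_range_succ, Finset.sum_range_one, pow_zero, pow_one,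
        hone x hx, pow_two]
    constructor
    · intro h
      exact ⟨hx, by rw [e]; exact h⟩
    · intro h
      rw [← e]
      exact h.2
  have hkT : Nat.card {x : M // A.act mT x = x} = J.relIndex (kerT n K J) := by
    apply card_sub (K' := kerT n K J) (fun x hx => hx.1)
    intro x hx
    rw [hAmk, mk_eq]
    constructor
    · intro h
      exact ⟨hx, h⟩
    · intro h
      exact h.2
  -- the family in `M`
  have hfinS : Finite (SymbM N M A) := finite_symbM h3 h4 hN M A
  let ψ : Fin r → SymbM N M A := fun i => ⟨fun a b => mk K J (φ i a b) (hφK i a b), by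
    obtain ⟨_, q2, q3, q4, q5⟩ := hφ i
    refine ⟨?_, ?_, ?_, ?_⟩
    · intro a b hab
      rw [mk_eq_zero, q2 a b hab]
      exact J.zero_mem
    · intro a b c ha hb hc
      rw [mk_add, mk_eq, q3 a b c ha hb hc, sub_self]
      exact J.zero_mem
    · intro c a b hc
      rw [mk_eq, q4 c a b hc, sub_self]
      exact J.zero_mem
    · intro γ hγ a b
      rw [hAmk, mk_eq, q5 γ hγ a b, sub_self]
      exact J.zero_mem⟩
  have hψ : Function.Injective ψ := by
    intro i j hij
    apply hinj i j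
    intro a b
    have h := congrFun (congrFun (congrArg Subtype.val hij) a) b
    exact mk_eq.1 h
  have hr : r ≤ Nat.card (SymbM N M A) := by
    have := Nat.card_le_card_of_injective ψ hψ
    simpa using this
  obtain ⟨e2, ε2, e3, ε3, he2, he3, hcount⟩ := h1 N M A hN
  rw [hkS, hkV, hkT, hcardM] at hcount
  have posS : 0 < J.relIndex (kerN n 2 mS K J) := by
    rw [← hkS]
    have : Nonempty {x : M // x + A.act mS x = 0} := ⟨⟨0, by simp⟩⟩
    exact Nat.card_pos
  have posV : 0 < J.relIndex (kerN n 3 mV K J) := by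
    rw [← hkV]
    have : Nonempty {x : M // x + A.act mV x + A.act (mV * mV) x = 0} := ⟨⟨0, by simp⟩⟩
    exact Nat.card_pos
  have posT : 0 < J.relIndex (kerT n K J) := by
    rw [← hkT]
    have : Nonempty {x : M // A.act mT x = x} := ⟨⟨0, by simp⟩⟩
    exact Nat.card_pos
  have posC : 0 < Nat.card (SymbM N M A) := by
    have : Nonempty (SymbM N M A) := ⟨⟨fun _ _ => 0, by
      refine ⟨?_, ?_, ?_, ?_⟩ <;> simp⟩⟩
    exact Nat.card_pos
  exact final_log hp he2 he3 hE (Nat.pos_of_ne_zero hidx) posS posV posT posC hr hLM hS hV hT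
    hcount

end Gou

end
end

section

/-!
MP_602313_nt, item B5e: properties of the invariant product `H`.
-/

open scoped MatrixGroups Polynomial
open CongruenceSubgroup

noncomputable section

namespace Gou

namespace BHaux

variable (p : ℕ) [Fact p.Prime]

/-- Reduction modulo `p`. -/
def red : ℤ_[p][X] →+* (ZMod p)[X] := Polynomial.mapRingHom (PadicInt.toZMod (p := p))

theorem red_Theta : red p (Theta p) = Polynomial.X ^ p - Polynomial.X := by
  simp [red, Theta]

theorem red_X_ne : (Polynomial.X ^ p - Polynomial.X : (ZMod p)[X]) ≠ 0 := by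
  have hp : 1 < p := (Fact.out : p.Prime).one_lt
  exact FiniteField.X_pow_card_sub_X_ne_zero (ZMod p) hp

/-- `Θ g = Θ` modulo `p`. -/
theorem red_act (g : SL(2, ℤ)) :
    red p (symAct (p + 1) (mx g) (Theta p)) = Polynomial.X ^ p - Polynomial.X := by
  have h1 : Theta p = Polynomial.monomial p 1 + -Polynomial.monomial 1 1 := by
    rw [Theta, ← Polynomial.X_pow_eq_monomial, ← Polynomial.X_pow_eq_monomial, pow_one,
      sub_eq_add_neg]
  have hp1 : 1 ≤ p + 1 := Nat.le_add_left 1 p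
  rw [h1, symAct_add, symAct_neg', symAct_monomial (p + 1) _ p _ (Nat.le_succ p),
    symAct_monomial (p + 1) _ 1 _ hp1, Nat.add_sub_cancel_left, Nat.add_sub_cancel]
  have hdet : mx g 0 0 * mx g 1 1 - mx g 0 1 * mx g 1 0 = 1 := by
    rw [← Matrix.det_fin_two]
    exact g.det_coe
  generalize mx g 0 0 = a at hdet ⊢
  generalize mx g 0 1 = b at hdet ⊢
  generalize mx g 1 0 = c at hdet ⊢
  generalize mx g 1 1 = d at hdet ⊢
  have hdet' : (a : ZMod p) * d - b * c = 1 := by
    have := congrArg (Int.cast : ℤ → ZMod p) hdet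
    push_cast at this
    exact this
  have hdet2 : Polynomial.C (a : ZMod p) * Polynomial.C (d : ZMod p) -
      Polynomial.C (b : ZMod p) * Polynomial.C (c : ZMod p) = 1 := by
    rw [← Polynomial.C_mul, ← Polynomial.C_mul, ← Polynomial.C_sub, hdet', Polynomial.C_1]
  have hfr : ∀ u v : ZMod p, (Polynomial.C u * Polynomial.X + Polynomial.C v) ^ p =
      Polynomial.C u * Polynomial.X ^ p + Polynomial.C v := by
    intro u v
    rw [add_pow_char, mul_pow, ← Polynomial.C_pow, ← Polynomial.C_pow, ZMod.pow_card,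
      ZMod.pow_card]
  have e1 : red p (Polynomial.C 1 * (Polynomial.C (a : ℤ_[p]) * Polynomial.X +
      Polynomial.C (b : ℤ_[p])) ^ p * (Polynomial.C (c : ℤ_[p]) * Polynomial.X +
      Polynomial.C (d : ℤ_[p])) ^ 1 + -(Polynomial.C 1 * (Polynomial.C (a : ℤ_[p]) * Polynomial.X +
      Polynomial.C (b : ℤ_[p])) ^ 1 * (Polynomial.C (c : ℤ_[p]) * Polynomial.X +
      Polynomial.C (d : ℤ_[p])) ^ p)) =
      (Polynomial.C (a : ZMod p) * Polynomial.X + Polynomial.C (b : ZMod p)) ^ p *
        (Polynomial.C (c : ZMod p) * Polynomial.X + Polynomial.C (d : ZMod p)) -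
      (Polynomial.C (a : ZMod p) * Polynomial.X + Polynomial.C (b : ZMod p)) *
        (Polynomial.C (c : ZMod p) * Polynomial.X + Polynomial.C (d : ZMod p)) ^ p := by
    simp only [red, map_add, map_neg, map_mul, map_pow, Polynomial.coe_mapRingHom,
      Polynomial.map_X, map_intCast, map_one, pow_one, one_mul]
    ring
  rw [e1, hfr, hfr]
  linear_combination (Polynomial.X ^ p - Polynomial.X) * hdet2

theorem red_HH (e : ℕ) (g : SL(2, ℤ)) :
    red p (HH p e g) = (Polynomial.X ^ p - Polynomial.X) ^ e := by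
  unfold HH
  rw [map_prod, Finset.prod_congr rfl (fun j _ => red_act p (g ^ j)), Finset.prod_const,
    Finset.card_range]

theorem toZMod_eq_zero (x : ℤ_[p]) : PadicInt.toZMod x = 0 ↔ (p : ℤ_[p]) ∣ x := by
  rw [← RingHom.mem_ker, PadicInt.ker_toZMod, PadicInt.maximalIdeal_eq_span_p,
    Ideal.mem_span_singleton]

theorem red_eq_zero (f : ℤ_[p][X]) : red p f = 0 ↔ ∀ i, (p : ℤ_[p]) ∣ f.coeff i := by
  rw [Polynomial.ext_iff]
  refine forall_congr' fun i => ?_
  rw [← toZMod_eq_zero]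
  simp [red, Polynomial.coeff_map]

end BHaux

open BHaux

theorem bH (h1 : BComp) (h2 : BMul) (h3 : BProd) : BH := by
  intro p _ e g hg he
  obtain ⟨q1, q2, q3, q4, q5, q6, q7, q8⟩ := h3 p
  have hmem : ∀ j : ℕ, symAct (p + 1) (mx (g ^ j)) (Theta p) ∈ Ip p (p + 1) 1 :=
    fun j => q4 (p + 1) 1 (g ^ j) _ q2
  have hpart : ∀ m : ℕ, HH p m g ∈ Ip p (m * (p + 1)) m := by
    intro m
    induction m with
    | zero =>
      rw [Nat.zero_mul, q6]
      show (HH p 0 g).natDegree ≤ 0
      simp [HH]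
    | succ m ih =>
      have := q1 _ _ _ _ _ _ ih (hmem m)
      rw [show m * (p + 1) + (p + 1) = (m + 1) * (p + 1) by ring] at this
      rwa [HH, Finset.prod_range_succ]
  have hdeg : ∀ m : ℕ, (HH p m g).natDegree ≤ m * (p + 1) := fun m => (hpart m).1
  have hTdeg : (Theta p).natDegree ≤ p + 1 := q2.1
  have hact : ∀ m : ℕ, symAct (m * (p + 1)) (mx g) (HH p m g) =
      ∏ j ∈ Finset.range m, symAct (p + 1) (mx (g ^ (j + 1))) (Theta p) := by
    intro m
    induction m with
    | zero =>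
      rw [Nat.zero_mul, Finset.range_zero, Finset.prod_empty, HH, Finset.range_zero,
        Finset.prod_empty]
      simp [symAct]
    | succ m ih =>
      have e1 : HH p (m + 1) g = HH p m g * symAct (p + 1) (mx (g ^ m)) (Theta p) := by
        rw [HH, HH, Finset.prod_range_succ]
      have e2 := h2 ℤ_[p] (m * (p + 1)) (p + 1) (mx g) (HH p m g)
        (symAct (p + 1) (mx (g ^ m)) (Theta p)) (hdeg m) (hmem m).1
      have e3 := (h1 ℤ_[p] (p + 1) (mx (g ^ m)) (mx g) (Theta p) hTdeg).1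
      have e4 : mx (g ^ m) * mx g = mx (g ^ (m + 1)) := by
        rw [pow_succ]
        exact (Matrix.SpecialLinearGroup.coe_mul _ _).symm
      have e5 : (m + 1) * (p + 1) = m * (p + 1) + (p + 1) := by ring
      rw [e4] at e3
      rw [e1, e5, e2, ih, Finset.prod_range_succ, e3]
  have hred : red p (Theta p ^ e - HH p e g) = 0 := by
    rw [map_sub, map_pow, red_Theta, red_HH, sub_self]
  refine ⟨hdeg e, ?_, hpart e, ?_, ?_⟩
  · rw [hact e]
    obtain ⟨m, rfl⟩ := Nat.exists_eq_add_of_le' he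
    rw [HH, Finset.prod_range_succ, Finset.prod_range_succ']
    rw [hg, pow_zero]
  · have hdvd : Polynomial.C (p : ℤ_[p]) ∣ Theta p ^ e - HH p e g := by
      rw [Polynomial.C_dvd_iff_dvd_coeff]
      exact (red_eq_zero p _).1 hred
    obtain ⟨K, hK⟩ := hdvd
    refine ⟨K, ?_, by rw [← hK]; ring⟩
    have hp0 : (p : ℤ_[p]) ≠ 0 := by
      exact_mod_cast (Fact.out : p.Prime).ne_zero
    show K.natDegree ≤ e * (p + 1)
    rw [← Polynomial.natDegree_C_mul hp0, ← hK]
    refine (Polynomial.natDegree_sub_le _ _).trans (max_le ?_ (hdeg e))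
    exact Polynomial.natDegree_pow_le_of_le e hTdeg
  · intro hd
    have h4 : red p (HH p e g) = 0 := (red_eq_zero p _).2 hd
    rw [red_HH] at h4
    exact pow_ne_zero e (red_X_ne p) h4

end Gou

end
end

section

/-!
B0d: the Hecke operators preserve modular symbols.
-/

open scoped MatrixGroups Polynomial
open CongruenceSubgroup

noncomputable section

namespace Gou

namespace HeckeAux

/-- The representatives of the Hecke operator `T_l`. -/
def rep (l : ℕ) : Option (Fin l) → Matrix (Fin 2) (Fin 2) ℤ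
  | some j => repU l j
  | none => repV l

lemma hecke_eq {R : Type} [CommRing R] (n l : ℕ) (φ : Vec → Vec → R[X]) (r s : Vec) :
    heckeSymbFun n l φ r s = ∑ i : Option (Fin l),
      symAct n (rep l i) (φ ((rep l i).mulVec r) ((rep l i).mulVec s)) := by
  rw [Fintype.sum_option, heckeSymbFun, add_comm, Finset.sum_range]
  rfl

lemma det_rep (l : ℕ) (i : Option (Fin l)) : (rep l i).det = l := by
  cases i <;> simp [rep, repU, repV, Matrix.det_fin_two_of]

/-- Factorisation through a representative. -/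
lemma exists_factor {N l : ℕ} (hl : l.Prime) (hlN : ¬ l ∣ N) (A : Matrix (Fin 2) (Fin 2) ℤ)
    (hdet : (l : ℤ) ∣ A.det) (hN : (N : ℤ) ∣ A 1 0) :
    ∃ (i : Option (Fin l)) (X : Matrix (Fin 2) (Fin 2) ℤ), A = X * rep l i ∧ (N : ℤ) ∣ X 1 0 := by
  have hlp : Prime (l : ℤ) := Nat.prime_iff_prime_int.1 hl
  have hl0 : (l : ℤ) ≠ 0 := hlp.ne_zero
  rw [Matrix.det_fin_two] at hdet
  by_cases h : (l : ℤ) ∣ A 0 0 ∧ (l : ℤ) ∣ A 1 0
  · obtain ⟨⟨x, hx⟩, ⟨y, hy⟩⟩ := h
    refine ⟨none, !![x, A 0 1; y, A 1 1], ?_, ?_⟩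
    · ext i j
      fin_cases i <;> fin_cases j <;>
        simp [rep, repV, Matrix.mul_apply, Fin.sum_univ_two, hx, hy, mul_comm]
    · have hcop : IsCoprime (N : ℤ) (l : ℤ) := by
        rw [Nat.isCoprime_iff_coprime]
        exact ((Nat.Prime.coprime_iff_not_dvd hl).2 hlN).symm
      rw [hy] at hN
      exact hcop.dvd_of_dvd_mul_left hN
  · have hk : ∃ k : ℤ, (l : ℤ) ∣ A 0 1 - k * A 0 0 ∧ (l : ℤ) ∣ A 1 1 - k * A 1 0 := by
      have hunit : ∀ a : ℤ, ¬ (l : ℤ) ∣ a → ∃ u v : ℤ, u * a + v * l = 1 := by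
        intro a ha
        have : IsCoprime a (l : ℤ) := ((Prime.coprime_iff_not_dvd hlp).2 ha).symm
        exact this
      by_cases h0 : (l : ℤ) ∣ A 0 0
      · have h1 : ¬ (l : ℤ) ∣ A 1 0 := fun h1 => h ⟨h0, h1⟩
        obtain ⟨u, v, huv⟩ := hunit _ h1
        refine ⟨u * A 1 1, ?_, ⟨v * A 1 1, by linear_combination (-A 1 1) * huv⟩⟩
        have h2 : (l : ℤ) ∣ A 1 0 * (A 0 1 - u * A 1 1 * A 0 0) := by
          have e : A 1 0 * (A 0 1 - u * A 1 1 * A 0 0) =
              -(A 0 0 * A 1 1 - A 0 1 * A 1 0) + (l : ℤ) * (v * A 0 0 * A 1 1) := by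
            linear_combination (-(A 0 0 * A 1 1)) * huv
          rw [e]
          exact dvd_add (dvd_neg.2 hdet) (dvd_mul_right _ _)
        exact (hlp.dvd_or_dvd h2).resolve_left h1
      · obtain ⟨u, v, huv⟩ := hunit _ h0
        refine ⟨u * A 0 1, ⟨v * A 0 1, by linear_combination (-A 0 1) * huv⟩, ?_⟩
        have h2 : (l : ℤ) ∣ A 0 0 * (A 1 1 - u * A 0 1 * A 1 0) := by
          have e : A 0 0 * (A 1 1 - u * A 0 1 * A 1 0) =
              (A 0 0 * A 1 1 - A 0 1 * A 1 0) + (l : ℤ) * (v * A 0 1 * A 1 0) := by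
            linear_combination (-(A 0 1 * A 1 0)) * huv
          rw [e]
          exact dvd_add hdet (dvd_mul_right _ _)
        exact (hlp.dvd_or_dvd h2).resolve_left h0
    obtain ⟨k, hk1, hk2⟩ := hk
    have hpos : (0 : ℤ) < l := by exact_mod_cast hl.pos
    set k' : ℤ := k % l with hk'
    have hk0 : 0 ≤ k' := Int.emod_nonneg _ hl0
    have hkl : k' < l := Int.emod_lt_of_pos _ hpos
    have hkk : k = k' + l * (k / l) := (Int.emod_add_mul_ediv k l).symm
    obtain ⟨x, hx⟩ : (l : ℤ) ∣ A 0 1 - k' * A 0 0 := by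
      have : A 0 1 - k' * A 0 0 = (A 0 1 - k * A 0 0) + l * ((k / l) * A 0 0) := by
        linear_combination (A 0 0) * hkk
      rw [this]
      exact dvd_add hk1 (dvd_mul_right _ _)
    obtain ⟨y, hy⟩ : (l : ℤ) ∣ A 1 1 - k' * A 1 0 := by
      have : A 1 1 - k' * A 1 0 = (A 1 1 - k * A 1 0) + l * ((k / l) * A 1 0) := by
        linear_combination (A 1 0) * hkk
      rw [this]
      exact dvd_add hk2 (dvd_mul_right _ _)
    have hkn : ((k'.toNat : ℕ) : ℤ) = k' := Int.toNat_of_nonneg hk0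
    refine ⟨some ⟨k'.toNat, by omega⟩, !![A 0 0, x; A 1 0, y], ?_, by simpa using hN⟩
    ext i j
    fin_cases i <;> fin_cases j
    · simp [rep, repU, Matrix.mul_apply, Fin.sum_univ_two]
    · simp only [rep, repU, Matrix.mul_apply, Fin.sum_univ_two, Fin.zero_eta, Fin.mk_one,
        Matrix.of_apply, Matrix.cons_val_zero, Matrix.cons_val_one, Matrix.cons_val', hkn]
      linear_combination hx
    · simp [rep, repU, Matrix.mul_apply, Fin.sum_univ_two]
    · simp only [rep, repU, Matrix.mul_apply, Fin.sum_univ_two, Fin.mk_one,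
        Matrix.of_apply, Matrix.cons_val_zero, Matrix.cons_val_one, Matrix.cons_val', hkn]
      linear_combination hy

/-- Kernel vectors modulo `l`. -/
def kv (l : ℕ) : Option (Fin l) → Vec
  | some k => ![-(k : ℤ), 1]
  | none => ![1, 0]

lemma rep_kv (l : ℕ) (i : Option (Fin l)) : ∃ w : Vec, (rep l i).mulVec (kv l i) = (l : ℤ) • w := by
  cases i with
  | none =>
    refine ⟨![1, 0], ?_⟩
    funext k
    fin_cases k <;> simp [rep, repV, kv, Matrix.mulVec, dotProduct]
  | some k =>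
    refine ⟨![0, 1], ?_⟩
    funext k
    fin_cases k <;> simp [rep, repU, kv, Matrix.mulVec, dotProduct]

lemma unique_factor {l : ℕ} (hl : l.Prime) {X Y : Matrix (Fin 2) (Fin 2) ℤ} {i i' : Option (Fin l)}
    (h : X * rep l i = Y * rep l i') (hX : ¬ (l : ℤ) ∣ X.det) : i = i' := by
  have hlp : Prime (l : ℤ) := Nat.prime_iff_prime_int.1 hl
  obtain ⟨w, hw⟩ := rep_kv l i'
  have h1 : X.mulVec ((rep l i).mulVec (kv l i')) = (l : ℤ) • Y.mulVec w := by
    rw [Matrix.mulVec_mulVec, h, ← Matrix.mulVec_mulVec, hw, Matrix.mulVec_smul]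
  have h2 : X.det • (rep l i).mulVec (kv l i') = (l : ℤ) • X.adjugate.mulVec (Y.mulVec w) := by
    have := congrArg (fun v => X.adjugate.mulVec v) h1
    simp only [Matrix.mulVec_smul] at this
    rw [Matrix.mulVec_mulVec, Matrix.adjugate_mul, Matrix.smul_mulVec, Matrix.one_mulVec] at this
    exact this
  have h3 : ∀ k, (l : ℤ) ∣ (rep l i).mulVec (kv l i') k := by
    intro k
    have h4 := congrFun h2 k
    simp only [Pi.smul_apply, smul_eq_mul] at h4
    have h5 : (l : ℤ) ∣ X.det * (rep l i).mulVec (kv l i') k := ⟨_, h4⟩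
    exact (hlp.dvd_or_dvd h5).resolve_left hX
  have hl1 : ¬ (l : ℤ) ∣ 1 := hlp.not_dvd_one
  cases i with
  | none =>
    cases i' with
    | none => rfl
    | some k' =>
      exfalso
      have := h3 1
      simp [rep, repV, kv, Matrix.mulVec, dotProduct] at this
      exact hl1 this
  | some k =>
    cases i' with
    | none =>
      exfalso
      have := h3 0
      simp [rep, repU, kv, Matrix.mulVec, dotProduct] at this
      exact hl1 this
    | some k' =>
      have := h3 0
      simp [rep, repU, kv, Matrix.mulVec, dotProduct] at this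
      congr 1
      apply Fin.ext
      have hk := k.2
      have hk' := k'.2
      have h6 := Int.eq_zero_of_abs_lt_dvd this (by rw [abs_lt]; constructor <;> omega)
      omega

lemma mx_inv_mul (g : SL(2, ℤ)) : mx g⁻¹ * mx g = 1 := by
  rw [← Matrix.SpecialLinearGroup.coe_mul, inv_mul_cancel, Matrix.SpecialLinearGroup.coe_one]

lemma mx_mul_inv (g : SL(2, ℤ)) : mx g * mx g⁻¹ = 1 := by
  rw [← Matrix.SpecialLinearGroup.coe_mul, mul_inv_cancel, Matrix.SpecialLinearGroup.coe_one]

lemma mem_iff {N : ℕ} (g : SL(2, ℤ)) : g ∈ Gamma0 N ↔ (N : ℤ) ∣ mx g 1 0 := by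
  rw [Gamma0_mem, ZMod.intCast_zmod_eq_zero_iff_dvd]

/-- Matrices of determinant `l` in the Hecke coset. -/
lemma exists_factor' {N l : ℕ} (hl : l.Prime) (hlN : ¬ l ∣ N) (A : Matrix (Fin 2) (Fin 2) ℤ)
    (hdet : A.det = l) (hN : (N : ℤ) ∣ A 1 0) :
    ∃ (i : Option (Fin l)) (γ : SL(2, ℤ)), γ ∈ Gamma0 N ∧ A = mx γ * rep l i := by
  obtain ⟨i, X, hX, hXN⟩ := exists_factor hl hlN A (by rw [hdet]) hN
  have hl0 : (l : ℤ) ≠ 0 := by exact_mod_cast hl.ne_zero
  have h1 : X.det = 1 := by
    have := congrArg Matrix.det hX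
    rw [Matrix.det_mul, det_rep, hdet] at this
    exact mul_right_cancel₀ hl0 (by rw [one_mul]; exact this.symm)
  exact ⟨i, ⟨X, h1⟩, (mem_iff _).2 hXN, hX⟩

lemma rep_mulVec_ne {l : ℕ} (hl : l ≠ 0) (i : Option (Fin l)) {r : Vec} (hr : r ≠ 0) :
    (rep l i).mulVec r ≠ 0 := by
  intro h
  apply hr
  have h1 := congrArg (fun v => (rep l i).adjugate.mulVec v) h
  simp only [Matrix.mulVec_zero] at h1
  rw [Matrix.mulVec_mulVec, Matrix.adjugate_mul, Matrix.smul_mulVec, Matrix.one_mulVec,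
    det_rep] at h1
  exact (smul_eq_zero.1 h1).resolve_left (by exact_mod_cast hl)

/-- The value of a symbol at `A r, A s` times `A` only depends on the class `Gamma0 N A`. -/
lemma symb_inv (h1 : BComp) {N n : ℕ} {R : Type} [CommRing R] {φ : Vec → Vec → R[X]}
    (hφ : φ ∈ Symb N n R) {γ : SL(2, ℤ)} (hγ : γ ∈ Gamma0 N) (A : Matrix (Fin 2) (Fin 2) ℤ)
    (r s : Vec) :
    symAct n (mx γ * A) (φ ((mx γ * A).mulVec r) ((mx γ * A).mulVec s)) =
      symAct n A (φ (A.mulVec r) (A.mulVec s)) := by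
  rw [(h1 R n (mx γ) A _ (hφ.1 _ _)).1, ← Matrix.mulVec_mulVec, ← Matrix.mulVec_mulVec]
  congr 1
  exact hφ.2.2.2.2 γ hγ _ _

end HeckeAux

open HeckeAux in
theorem bHecke (h1 : BComp) (_h2 : BMap) : BHecke := by
  classical
  intro N n l R _ hl hlN φ hφ
  have hl0 : l ≠ 0 := hl.ne_zero
  refine ⟨?_, ?_, ?_, ?_, ?_⟩
  · intro r s
    rw [hecke_eq]
    apply Polynomial.natDegree_sum_le_of_forall_le
    intro i _
    exact (h1 R n (rep l i) 1 _ (hφ.1 _ _)).2.1
  · intro r s h
    rw [hecke_eq]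
    apply Finset.sum_eq_zero
    intro i _
    rw [hφ.2.1, symAct_zero]
    rcases h with h | h
    · left; rw [h, Matrix.mulVec_zero]
    · right; rw [h, Matrix.mulVec_zero]
  · intro r s t hr hs ht
    rw [hecke_eq, hecke_eq, hecke_eq, ← Finset.sum_add_distrib]
    refine Finset.sum_congr rfl fun i _ => ?_
    rw [← symAct_add, hφ.2.2.1 _ _ _ (rep_mulVec_ne hl0 i hr) (rep_mulVec_ne hl0 i hs)
      (rep_mulVec_ne hl0 i ht)]
  · intro c r s hc
    rw [hecke_eq, hecke_eq]
    refine Finset.sum_congr rfl fun i _ => ?_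
    rw [Matrix.mulVec_smul, hφ.2.2.2.1 c _ _ hc]
  · intro γ hγ r s
    have hex : ∀ i : Option (Fin l), ∃ (j : Option (Fin l)) (δ : SL(2, ℤ)), δ ∈ Gamma0 N ∧
        rep l i * mx γ = mx δ * rep l j := by
      intro i
      apply exists_factor' hl hlN
      · rw [Matrix.det_mul, det_rep, γ.2, mul_one]
      · have hc := (mem_iff γ).1 hγ
        cases i with
        | none =>
          simpa [rep, repV, Matrix.mul_apply, Fin.sum_univ_two] using hc
        | some k =>
          have : (rep l (some k) * mx γ) 1 0 = (l : ℤ) * mx γ 1 0 := by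
            simp [rep, repU, Matrix.mul_apply, Fin.sum_univ_two]
          rw [this]
          exact Dvd.dvd.mul_left hc _
    choose σ δ hδ hσ using hex
    have hinj : Function.Injective σ := by
      intro i i' hii
      have e1 := hσ i
      have e2 := hσ i'
      rw [← hii] at e2
      have e3 : mx (δ i)⁻¹ * rep l i = mx (δ i')⁻¹ * rep l i' := by
        have f1 : mx (δ i)⁻¹ * (rep l i * mx γ) * mx γ⁻¹ = mx (δ i')⁻¹ * (rep l i' * mx γ) * mx γ⁻¹ := by
          rw [e1, e2, ← Matrix.mul_assoc, ← Matrix.mul_assoc (mx (δ i')⁻¹), mx_inv_mul, mx_inv_mul]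
        rw [Matrix.mul_assoc, Matrix.mul_assoc, Matrix.mul_assoc (mx (δ i')⁻¹), Matrix.mul_assoc,
          mx_mul_inv, Matrix.mul_one, Matrix.mul_one] at f1
        exact f1
      exact unique_factor hl e3 (by
        rw [(δ i)⁻¹.2]
        exact (Nat.prime_iff_prime_int.1 hl).not_dvd_one)
    have hbij : Function.Bijective σ := Finite.injective_iff_bijective.1 hinj
    rw [hecke_eq, hecke_eq, BCompAux.symAct_sum]
    rw [← Function.Bijective.sum_comp hbij (fun i => symAct n (rep l i) (φ ((rep l i).mulVec r)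
      ((rep l i).mulVec s)))]
    refine Finset.sum_congr rfl fun i _ => ?_
    rw [← (h1 R n (rep l i) (mx γ) _ (hφ.1 _ _)).1, Matrix.mulVec_mulVec, Matrix.mulVec_mulVec,
      hσ i, symb_inv h1 hφ (hδ i)]

end Gou

end
end

section

/-!
Module B, item BHodge: the Hodge type bound for modular symbols.
-/

open scoped MatrixGroups Polynomial
open CongruenceSubgroup

noncomputable section

namespace Gou

/-- Base change of symbols to the `p`-adic integers. -/
theorem castSymb_mem (h9 : BMap) (p N n : ℕ) [Fact p.Prime] (φ : Vec → Vec → ℤ[X])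
    (hφ : φ ∈ Symb N n ℤ) : castSymb ℤ_[p] φ ∈ Symb N n ℤ_[p] := by
  obtain ⟨a1, a2, a3, a4, a5⟩ := hφ
  refine ⟨?_, ?_, ?_, ?_, ?_⟩
  · intro r s
    exact (Polynomial.natDegree_map_le).trans (a1 r s)
  · intro r s h
    change (φ r s).map _ = 0
    rw [a2 r s h, Polynomial.map_zero]
  · intro r s t hr hs ht
    change (φ r s).map _ + (φ s t).map _ = (φ r t).map _
    rw [← a3 r s t hr hs ht, Polynomial.map_add]
  · intro c r s hc
    change (φ (c • r) s).map _ = (φ r s).map _
    rw [a4 c r s hc]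
  · intro γ hγ r s
    change symAct n _ ((φ _ _).map _) = (φ r s).map _
    rw [← (h9 ℤ ℤ_[p] (Int.castRingHom ℤ_[p]) n _ _).1, a5 γ hγ r s]

/-- Iterated independence modulo `p`. -/
theorem pIndep_pow (p N n r : ℕ) (hp : p ≠ 0) (φ : Fin r → Vec → Vec → ℤ[X])
    (hφ : PIndep p N n r φ) (k : ℕ) : ∀ (c : Fin r → ℤ),
    (∃ ψ ∈ Symb N n ℤ, ∑ i, c i • φ i = ((p : ℤ) ^ k) • ψ) → ∀ i, (p : ℤ) ^ k ∣ c i := by
  induction k with
  | zero => intro c _ i; rw [pow_zero]; exact one_dvd _
  | succ k ih =>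
    rintro c ⟨ψ, hψ, he⟩
    have h1 : ∀ i, (p : ℤ) ∣ c i :=
      hφ.2 c ⟨((p : ℤ) ^ k) • ψ, Submodule.smul_mem _ _ hψ, by rw [he, smul_smul, pow_succ']⟩
    choose b hb using h1
    have h2 : ∑ i, b i • φ i = ((p : ℤ) ^ k) • ψ := by
      have h3 : (p : ℤ) • (∑ i, b i • φ i) = (p : ℤ) • (((p : ℤ) ^ k) • ψ) := by
        rw [smul_smul, ← pow_succ', ← he, Finset.smul_sum]
        refine Finset.sum_congr rfl fun i _ => ?_
        rw [hb i, smul_smul]
      have hp' : (p : ℤ) ≠ 0 := by exact_mod_cast hp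
      ext1 a
      ext1 b'
      have h4 := congrFun (congrFun h3 a) b'
      simp only [Pi.smul_apply] at h4 ⊢
      exact smul_right_injective _ hp' h4
    intro i
    rw [hb i, pow_succ']
    exact mul_dvd_mul_left _ (ih b ⟨ψ, hψ, h2⟩ i)

/-- The logarithm is bounded by a multiple of `n^(3/4)`. -/
theorem nat_log_le (p n : ℕ) (hp : 2 ≤ p) (hn : 1 ≤ n) :
    (Nat.log p n : ℝ) ≤ 4 * (n : ℝ) ^ (3 / 4 : ℝ) := by
  have h1 : p ^ Nat.log p n ≤ n := Nat.pow_log_le_self p (by omega)
  have h2 : 2 ^ Nat.log p n ≤ n := (Nat.pow_le_pow_left hp _).trans h1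
  have hn1 : (1 : ℝ) ≤ n := by exact_mod_cast hn
  have h3 : (Nat.log p n : ℝ) * Real.log 2 ≤ Real.log n := by
    rw [← Real.log_pow]
    exact Real.log_le_log (by positivity) (by exact_mod_cast h2)
  have h4 : Real.log n ≤ (n : ℝ) ^ (3 / 4 : ℝ) / (3 / 4) :=
    Real.log_le_rpow_div (by positivity) (by norm_num)
  have h5 : (1 / 2 : ℝ) < Real.log 2 := by
    have := Real.log_two_gt_d9
    linarith
  have h6 : 0 ≤ (n : ℝ) ^ (3 / 4 : ℝ) := by positivity
  have h7 : (Nat.log p n : ℝ) * (1 / 2) ≤ (Nat.log p n : ℝ) * Real.log 2 :=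
    mul_le_mul_of_nonneg_left h5.le (Nat.cast_nonneg _)
  have h8 : (n : ℝ) ^ (3 / 4 : ℝ) / (3 / 4) = 4 / 3 * (n : ℝ) ^ (3 / 4 : ℝ) := by ring
  rw [h8] at h4
  linarith

/-- The numerical estimate for BHodge. -/
theorem hodge_num (p n m m' e h r idx : ℕ) (CW : ℝ) (hCW : 0 ≤ CW) (hm' : m ≤ m' + e)
    (hh : h = Nat.sqrt n + 1) (he : (e : ℝ) ≤ 4 * (n : ℝ) ^ (3 / 4 : ℝ))
    (hmain : (h : ℝ) * r ≤ (idx : ℝ) / 6 * (h * ((n : ℝ) - (p + 1) * m')) +
      (4 * (idx : ℝ) + 1) * ((2 * CW + 2) * (h : ℝ) ^ 2)) :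
    (r : ℝ) ≤ (idx : ℝ) / 6 * ((n : ℝ) - (p + 1) * m) +
      ((idx : ℝ) / 6 * (p + 1) * 4 + (4 * (idx : ℝ) + 1) * (2 * CW + 2)) *
        (n : ℝ) ^ (3 / 4 : ℝ) +
      ((idx : ℝ) / 6 * (p + 1) * 4 + (4 * (idx : ℝ) + 1) * (2 * CW + 2)) := by
  have hh0 : (0 : ℝ) < h := by rw [hh]; positivity
  have h1 : (r : ℝ) ≤ (idx : ℝ) / 6 * ((n : ℝ) - (p + 1) * m') +
      (4 * (idx : ℝ) + 1) * ((2 * CW + 2) * (h : ℝ)) := by
    have : (h : ℝ) * r ≤ h * ((idx : ℝ) / 6 * ((n : ℝ) - (p + 1) * m') +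
      (4 * (idx : ℝ) + 1) * ((2 * CW + 2) * (h : ℝ))) := by
      refine hmain.trans (le_of_eq (by ring))
    exact le_of_mul_le_mul_left this hh0
  -- `h ≤ n^(3/4) + 1`
  have h2 : (h : ℝ) ≤ (n : ℝ) ^ (3 / 4 : ℝ) + 1 := by
    rw [hh]
    push_cast
    have h3 : (Nat.sqrt n : ℝ) ≤ √(n : ℝ) := Real.nat_sqrt_le_real_sqrt
    have h4 : √(n : ℝ) ≤ (n : ℝ) ^ (3 / 4 : ℝ) := by
      rcases Nat.eq_zero_or_pos n with h0 | hpos
      · rw [h0]
        norm_num
      · rw [Real.sqrt_eq_rpow]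
        exact Real.rpow_le_rpow_of_exponent_le (by exact_mod_cast hpos) (by norm_num)
    linarith
  have h5 : (m : ℝ) ≤ m' + e := by exact_mod_cast hm'
  have hidx : (0 : ℝ) ≤ idx := Nat.cast_nonneg _
  have hp0 : (0 : ℝ) ≤ p := Nat.cast_nonneg _
  have hx : 0 ≤ (n : ℝ) ^ (3 / 4 : ℝ) := by positivity
  set x : ℝ := (n : ℝ) ^ (3 / 4 : ℝ) with hxdef
  have h6 : (n : ℝ) - (p + 1) * m' ≤ (n : ℝ) - (p + 1) * m + (p + 1) * (4 * x) := by
    have : ((p : ℝ) + 1) * m ≤ (p + 1) * (m' + 4 * x) :=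
      mul_le_mul_of_nonneg_left (by linarith) (by linarith)
    linarith
  have h7 : (idx : ℝ) / 6 * ((n : ℝ) - (p + 1) * m') ≤
      (idx : ℝ) / 6 * ((n : ℝ) - (p + 1) * m + (p + 1) * (4 * x)) :=
    mul_le_mul_of_nonneg_left h6 (by positivity)
  have h8 : (4 * (idx : ℝ) + 1) * ((2 * CW + 2) * (h : ℝ)) ≤
      (4 * (idx : ℝ) + 1) * ((2 * CW + 2) * (x + 1)) := by
    have : (2 * CW + 2) * (h : ℝ) ≤ (2 * CW + 2) * (x + 1) :=
      mul_le_mul_of_nonneg_left h2 (by linarith)
    exact mul_le_mul_of_nonneg_left this (by linarith)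
  have h9 : 0 ≤ (idx : ℝ) / 6 * (p + 1) * 4 := by positivity
  linarith

theorem bHodge (h1 : BCountJK) (h2 : BWW) (h3 : BKerT) (h4 : BProd) (h5 : BTp) (h6 : BDiv)
    (h7 : BReps) (_h8 : BComp) (h9 : BMap) : BHodge := by
  intro p N hp hN hpN hdual
  obtain ⟨CW, hCW, hW⟩ := h2 p
  obtain ⟨-, -, -, hStI, -, -, hStP, -⟩ := h4 p
  obtain ⟨g, hg⟩ := h7 N hN
  have hp2 : 2 ≤ p := hp.out.two_le
  refine ⟨((Gamma0 N).index : ℝ) / 6 * (p + 1) * 4 +
    (4 * ((Gamma0 N).index : ℝ) + 1) * (2 * CW + 2), ?_⟩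
  intro n hn m hm r φ hφ hT
  obtain ⟨m', hm'⟩ : ∃ m', m' = m - e0 p n := ⟨_, rfl⟩
  obtain ⟨h, hh⟩ : ∃ h, h = Nat.sqrt n + 1 := ⟨_, rfl⟩
  have hh1 : 1 ≤ h := by omega
  have hmm : m' ≤ m := by omega
  have hm'n : (p + 1) * m' ≤ n := (Nat.mul_le_mul_left _ hmm).trans hm
  have hnh : n + 1 ≤ h ^ 2 := by
    have := Nat.lt_succ_sqrt n
    rw [hh, pow_two]
    exact this
  -- the modules
  set K := Ip p n m' with hK
  set J := K ⊓ pPn p n h with hJ
  have hKP : K ≤ Pn p n := fun f hf => hf.1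
  have hStK : Stab n K := hStI n m'
  have hStJ : Stab n J := fun γ f hf => ⟨hStK γ f hf.1, hStP n h γ f hf.2⟩
  obtain ⟨w1, w2, w3, w4⟩ := hW n m' h hn hh1 hm'n
  have w5 := (h3 p n h).2 K hKP hStK
  set L : ℝ := h * ((n : ℝ) - (p + 1) * m') with hL
  set E : ℝ := (2 * CW + 2) * (h : ℝ) ^ 2 with hE
  have hnh' : (n : ℝ) + 1 ≤ (h : ℝ) ^ 2 := by exact_mod_cast hnh
  have hh1' : (1 : ℝ) ≤ h := by exact_mod_cast hh1
  have hL0 : 0 ≤ L := by
    have : ((p : ℝ) + 1) * m' ≤ n := by exact_mod_cast hm'n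
    rw [hL]
    exact mul_nonneg (by linarith) (by linarith)
  have hE0 : 0 ≤ E := by rw [hE]; positivity
  have hE1 : CW * ((h : ℝ) ^ 2 + n + 1) ≤ E := by
    have : CW * ((h : ℝ) ^ 2 + n + 1) ≤ CW * (2 * (h : ℝ) ^ 2) :=
      mul_le_mul_of_nonneg_left (by linarith) hCW
    rw [hE]
    nlinarith [sq_nonneg (h : ℝ)]
  have hE2 : (h : ℝ) + n ≤ E := by
    have : (h : ℝ) ≤ (h : ℝ) ^ 2 := by nlinarith
    rw [hE]
    nlinarith [sq_nonneg (h : ℝ), mul_nonneg hCW (sq_nonneg (h : ℝ))]
  -- the values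
  have hval : ∀ i a b, InI p n m' (φ i a b) := by
    intro i a b
    rw [hm']
    exact h5 p N hdual hN hpN n m (φ i) (hφ.1 i) (by omega) (hT i) a b
  have hval' : ∀ i a b, (φ i a b).map (Int.castRingHom ℤ_[p]) ∈ K := fun i a b =>
    inI_map h9 p n m' _ (hval i a b)
  -- the family
  let ι := Fin r → Fin (p ^ h)
  let e := Fintype.equivFin ι
  let Ψ : ι → Vec → Vec → ℤ[X] := fun c => ∑ i, ((c i : ℕ) : ℤ) • φ i
  have hΨmem : ∀ c, Ψ c ∈ Symb N n ℤ := fun c =>
    Submodule.sum_mem _ fun i _ => Submodule.smul_mem _ _ (hφ.1 i)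
  have hfam := h1 p N n K J L E hN hn inf_le_left hKP hStK hStJ w2 hL0 hE0 (w1.trans hE1)
    (by have := w3.trans (add_le_add_right hE1 _); linarith)
    (by have := w4.trans (add_le_add_right hE1 _); linarith) (w5.trans hE2)
    (Fintype.card ι) (fun k => castSymb ℤ_[p] (Ψ (e.symm k)))
    (fun k => castSymb_mem h9 p N n _ (hΨmem _)) ?_ ?_
  · -- conclusion
    have hcard : Real.logb p (Fintype.card ι) = h * r := by
      have : Fintype.card ι = p ^ (h * r) := by
        change Fintype.card (Fin r → Fin (p ^ h)) = _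
        rw [Fintype.card_fun, Fintype.card_fin, Fintype.card_fin, ← pow_mul]
      rw [this]
      push_cast
      rw [← Real.rpow_natCast, Real.logb_rpow (by positivity)
        (by exact_mod_cast hp.out.one_lt.ne')]
      push_cast
      rfl
    rw [hcard] at hfam
    refine hodge_num p n m m' (e0 p n) h r (Gamma0 N).index CW hCW (by omega) hh ?_ hfam
    rcases Nat.eq_zero_or_pos n with h0 | hpos
    · have : e0 p n = 0 := by rw [h0]; simp [e0]
      rw [this]
      push_cast
      positivity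
    · exact nat_log_le p n hp2 hpos
  · intro k a b
    change ((Ψ (e.symm k)) a b).map _ ∈ K
    have : ((Ψ (e.symm k)) a b).map (Int.castRingHom ℤ_[p]) =
        ∑ i, (((e.symm k) i : ℕ) : ℤ) • (φ i a b).map (Int.castRingHom ℤ_[p]) := by
      change ((∑ i, (((e.symm k) i : ℕ) : ℤ) • φ i) a b).map _ = _
      rw [Finset.sum_apply, Finset.sum_apply, Polynomial.map_sum]
      refine Finset.sum_congr rfl fun i _ => ?_
      rw [Pi.smul_apply, Pi.smul_apply]
      ext t
      simp
    rw [this]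
    exact K.sum_mem fun i _ => K.zsmul_mem (hval' i a b) _
  · intro k l hkl
    have hdiff : ∀ a b, dvdP ((p : ℤ) ^ h) ((Ψ (e.symm k) - Ψ (e.symm l)) a b) := by
      intro a b t
      have := (hkl a b).2.2 t
      change (p : ℤ_[p]) ^ h ∣ Polynomial.coeff (((Ψ (e.symm k)) a b).map (Int.castRingHom ℤ_[p]) -
        ((Ψ (e.symm l)) a b).map (Int.castRingHom ℤ_[p])) t at this
      rw [← Polynomial.map_sub, Polynomial.coeff_map] at this
      have h10 := (PadicInt.pow_p_dvd_int_iff h _).1 this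
      exact_mod_cast h10
    obtain ⟨ψ, hψ, he⟩ := h6 N n ((p : ℤ) ^ h) (Ψ (e.symm k) - Ψ (e.symm l)) _ g hg
      (pow_ne_zero _ (by exact_mod_cast hp.out.ne_zero))
      (Submodule.sub_mem _ (hΨmem _) (hΨmem _)) (fun j => hdiff _ _)
    have h11 := pIndep_pow p N n r hp.out.ne_zero φ hφ h
      (fun i => (((e.symm k) i : ℕ) : ℤ) - (((e.symm l) i : ℕ) : ℤ)) ⟨ψ, hψ, by
        rw [← he]
        change _ = (∑ i, (((e.symm k) i : ℕ) : ℤ) • φ i) - (∑ i, (((e.symm l) i : ℕ) : ℤ) • φ i)
        rw [← Finset.sum_sub_distrib]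
        exact Finset.sum_congr rfl fun i _ => sub_smul _ _ _⟩
    apply e.symm.injective
    ext i
    have h12 := h11 i
    have b1 := ((e.symm k) i).2
    have b2 := ((e.symm l) i).2
    by_contra hne
    have h13 : ((((e.symm k) i : ℕ) : ℤ) - (((e.symm l) i : ℕ) : ℤ)) ≠ 0 := by
      intro h0
      apply hne
      exact_mod_cast (sub_eq_zero.1 h0)
    have h14 := Int.le_of_dvd (abs_pos.2 h13) ((dvd_abs _ _).2 h12)
    have b1' : (((e.symm k) i : ℕ) : ℤ) < (p : ℤ) ^ h := by exact_mod_cast b1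
    have b2' : (((e.symm l) i : ℕ) : ℤ) < (p : ℤ) ^ h := by exact_mod_cast b2
    have b3 : (0 : ℤ) ≤ (((e.symm k) i : ℕ) : ℤ) := Int.natCast_nonneg _
    have b4 : (0 : ℤ) ≤ (((e.symm l) i : ℕ) : ℤ) := Int.natCast_nonneg _
    have h15 : |((((e.symm k) i : ℕ) : ℤ) - (((e.symm l) i : ℕ) : ℤ))| < (p : ℤ) ^ h := by
      rw [abs_lt]
      constructor <;> linarith
    linarith

end Gou

end
end

section

/-!
Module B, item BKK: ranks of the kernels of the norm operators.
-/

open scoped MatrixGroups Polynomial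
open CongruenceSubgroup

noncomputable section

namespace Gou

namespace KK

/-! ### Linear algebra -/

section lin

variable {R : Type} [CommRing R] [IsDomain R]

theorem range_add_ker {A B : Type} [AddCommGroup A] [Module R A] [AddCommGroup B] [Module R B]
    [Module.Finite R A] (f : A →ₗ[R] B) :
    Module.finrank R (LinearMap.range f) + Module.finrank R (LinearMap.ker f) =
      Module.finrank R A := by
  have h := Submodule.finrank_quotient_add_finrank (LinearMap.ker f)
  rw [← f.quotKerEquivRange.finrank_eq]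
  exact h

/-- The norm operator. -/
def NN {A : Type} [AddCommGroup A] [Module R A] (d : ℕ) (g : A →ₗ[R] A) : A →ₗ[R] A :=
  ∑ i ∈ Finset.range d, g ^ i

theorem NN_apply {A : Type} [AddCommGroup A] [Module R A] (d : ℕ) (g : A →ₗ[R] A) (x : A) :
    NN d g x = ∑ i ∈ Finset.range d, (g ^ i) x := by
  rw [NN, LinearMap.sum_apply]

theorem g_NN {A : Type} [AddCommGroup A] [Module R A] (d : ℕ) (g : A →ₗ[R] A) (hg : g ^ d = 1) :
    g * NN d g = NN d g := by
  rw [NN, Finset.mul_sum]
  have h1 : ∑ i ∈ Finset.range d, g * g ^ i = ∑ i ∈ Finset.range d, g ^ (i + 1) :=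
    Finset.sum_congr rfl fun i _ => (pow_succ' g i).symm
  have h2 := Finset.sum_range_succ (fun i => g ^ i) d
  have h3 := Finset.sum_range_succ' (fun i => g ^ i) d
  rw [h1]
  rw [h2, hg, pow_zero] at h3
  exact (add_right_cancel h3).symm

theorem NN_NN {A : Type} [AddCommGroup A] [Module R A] (d : ℕ) (g : A →ₗ[R] A) (hg : g ^ d = 1)
    (x : A) : NN d g (NN d g x) = (d : R) • NN d g x := by
  have h1 : ∀ i, g ^ i * NN d g = NN d g := by
    intro i
    induction i with
    | zero => simp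
    | succ i ih => rw [pow_succ, mul_assoc, g_NN d g hg, ih]
  rw [NN_apply d g (NN d g x)]
  have h2 : ∀ i ∈ Finset.range d, (g ^ i) (NN d g x) = NN d g x := fun i _ => by
    conv_rhs => rw [← h1 i]
    rfl
  rw [Finset.sum_congr rfl h2, Finset.sum_const, Finset.card_range, Nat.cast_smul_eq_nsmul]

theorem NN_equiv {A B : Type} [AddCommGroup A] [Module R A] [AddCommGroup B] [Module R B]
    (gA : A →ₗ[R] A) (gB : B →ₗ[R] B) (f : A →ₗ[R] B) (h : ∀ a, f (gA a) = gB (f a)) (d : ℕ)
    (a : A) : f (NN d gA a) = NN d gB (f a) := by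
  have h1 : ∀ i a, f ((gA ^ i) a) = (gB ^ i) (f a) := by
    intro i
    induction i with
    | zero => intro a; simp
    | succ i ih =>
      intro a
      rw [pow_succ, pow_succ]
      change f ((gA ^ i) (gA a)) = (gB ^ i) (gB (f a))
      rw [ih, h]
  rw [NN_apply, NN_apply, map_sum]
  exact Finset.sum_congr rfl fun i _ => h1 i a

/-- Additivity of the rank of the kernel of the norm. -/
theorem add_ker [IsNoetherianRing R] {A B C : Type} [AddCommGroup A] [Module R A]
    [AddCommGroup B] [Module R B] [AddCommGroup C] [Module R C] [Module.Finite R A]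
    [Module.Finite R B] [Module.Finite R C] [Module.IsTorsionFree R C]
    (gA : A →ₗ[R] A) (gB : B →ₗ[R] B) (gC : C →ₗ[R] C) (ι : A →ₗ[R] B) (π : B →ₗ[R] C)
    (hι : Function.Injective ι) (hπ : Function.Surjective π)
    (hex : ∀ b, π b = 0 ↔ ∃ a, ι a = b) (hA : ∀ a, ι (gA a) = gB (ι a))
    (hC : ∀ b, π (gB b) = gC (π b)) (d : ℕ) (hd : (d : R) ≠ 0) (hg : gB ^ d = 1) :
    Module.finrank R (LinearMap.ker (NN d gB)) =
      Module.finrank R (LinearMap.ker (NN d gA)) + Module.finrank R (LinearMap.ker (NN d gC)) := by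
  have e1 := NN_equiv gA gB ι hA d
  have e2 := NN_equiv gB gC π hC d
  have k1 : ∀ x ∈ LinearMap.ker (NN d gB), π x ∈ LinearMap.ker (NN d gC) := by
    intro x hx
    rw [LinearMap.mem_ker] at hx ⊢
    rw [← e2, hx, map_zero]
  have k2 : ∀ x ∈ LinearMap.ker (NN d gA), ι x ∈ LinearMap.ker (NN d gB) := by
    intro x hx
    rw [LinearMap.mem_ker] at hx ⊢
    rw [← e1, hx, map_zero]
  set φ := π.restrict k1 with hφ
  set ψ := ι.restrict k2 with hψ
  have h1 := range_add_ker φ
  have h2 : Module.finrank R (LinearMap.ker φ) = Module.finrank R (LinearMap.ker (NN d gA)) := by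
    have h3 : LinearMap.ker φ = LinearMap.range ψ := by
      ext x
      rw [LinearMap.mem_ker, LinearMap.mem_range]
      constructor
      · intro hx
        have h4 : π x.1 = 0 := congrArg Subtype.val hx
        obtain ⟨a, ha⟩ := (hex x.1).1 h4
        refine ⟨⟨a, ?_⟩, Subtype.ext ha⟩
        rw [LinearMap.mem_ker]
        apply hι
        rw [e1, ha, map_zero]
        exact x.2
      · rintro ⟨y, rfl⟩
        exact Subtype.ext ((hex _).2 ⟨y.1, rfl⟩)
    rw [h3]
    apply LinearMap.finrank_range_of_inj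
    intro x y hxy
    exact Subtype.ext (hι (congrArg Subtype.val hxy))
  have h5 : Module.finrank R (LinearMap.range φ) = Module.finrank R (LinearMap.ker (NN d gC)) := by
    apply le_antisymm
    · exact Submodule.finrank_le _
    · set m : LinearMap.ker (NN d gC) →ₗ[R] LinearMap.ker (NN d gC) :=
        (d : R) • LinearMap.id with hm
      have h6 : Module.finrank R (LinearMap.range m) =
          Module.finrank R (LinearMap.ker (NN d gC)) := by
        apply LinearMap.finrank_range_of_inj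
        intro x y hxy
        have h7 : (d : R) • x.1 = (d : R) • y.1 := congrArg Subtype.val hxy
        exact Subtype.ext (smul_right_injective C hd h7)
      rw [← h6]
      apply Submodule.finrank_mono
      rintro _ ⟨c, rfl⟩
      obtain ⟨b, hb⟩ := hπ c.1
      refine ⟨⟨(d : R) • b - NN d gB b, ?_⟩, ?_⟩
      · rw [LinearMap.mem_ker, map_sub, map_smul, NN_NN d gB hg, sub_self]
      · apply Subtype.ext
        change π ((d : R) • b - NN d gB b) = (d : R) • c.1
        rw [map_sub, map_smul, e2, hb, LinearMap.mem_ker.1 c.2, sub_zero]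
  omega

end lin

/-! ### The modules of polynomials -/

section sy

variable (R : Type) [CommRing R]

/-- Polynomials of degree at most `n`. -/
def Sy (n : ℕ) : Submodule R R[X] where
  carrier := {f | f.natDegree ≤ n}
  add_mem' {a b} ha hb := (Polynomial.natDegree_add_le a b).trans (max_le ha hb)
  zero_mem' := by simp
  smul_mem' c f hf := (Polynomial.natDegree_smul_le c f).trans hf

theorem Sy_eq (n : ℕ) : Sy R n = Polynomial.degreeLT R (n + 1) := by
  ext f
  rw [Polynomial.mem_degreeLT]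
  change f.natDegree ≤ n ↔ _
  rw [Polynomial.natDegree_le_iff_degree_le]
  constructor
  · intro h
    exact lt_of_le_of_lt h (by exact_mod_cast Nat.lt_succ_self n)
  · intro h
    exact Order.le_of_lt_succ (by exact_mod_cast h)

/-- Coordinates. -/
def SyE (n : ℕ) : Sy R n ≃ₗ[R] (Fin (n + 1) → R) :=
  (LinearEquiv.ofEq _ _ (Sy_eq R n)).trans (Polynomial.degreeLTEquiv R (n + 1))

instance (n : ℕ) : Module.Free R (Sy R n) := Module.Free.of_equiv (SyE R n).symm

instance (n : ℕ) : Module.Finite R (Sy R n) := Module.Finite.equiv (SyE R n).symm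

variable {R}

theorem finrank_Sy [IsDomain R] (n : ℕ) : Module.finrank R (Sy R n) = n + 1 := by
  rw [(SyE R n).finrank_eq, Module.finrank_fintype_fun_eq_card, Fintype.card_fin]

theorem act_deg (n : ℕ) (g : Matrix (Fin 2) (Fin 2) ℤ) (f : R[X]) :
    (symAct n g f).natDegree ≤ n := by
  unfold symAct
  refine Polynomial.natDegree_sum_le_of_forall_le _ _ fun i hi => ?_
  have hi' : i ≤ n := Nat.lt_succ_iff.1 (Finset.mem_range.1 hi)
  refine Polynomial.natDegree_mul_le.trans ?_
  have h1 : (Polynomial.C (f.coeff i) *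
      (Polynomial.C (g 0 0 : R) * Polynomial.X + Polynomial.C (g 0 1 : R)) ^ i).natDegree ≤ i := by
    refine (Polynomial.natDegree_C_mul_le _ _).trans ?_
    refine Polynomial.natDegree_pow_le.trans ?_
    have := Polynomial.natDegree_linear_le (a := (g 0 0 : R)) (b := (g 0 1 : R))
    nlinarith
  have h2 : ((Polynomial.C (g 1 0 : R) * Polynomial.X + Polynomial.C (g 1 1 : R)) ^
      (n - i)).natDegree ≤ n - i := by
    refine Polynomial.natDegree_pow_le.trans ?_
    have := Polynomial.natDegree_linear_le (a := (g 1 0 : R)) (b := (g 1 1 : R))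
    nlinarith
  omega

/-- The action as a linear map. -/
def symL (n : ℕ) (g : Matrix (Fin 2) (Fin 2) ℤ) : R[X] →ₗ[R] R[X] where
  toFun := symAct n g
  map_add' := symAct_add n g
  map_smul' := symAct_smul n g

/-- The action on polynomials of degree at most `n`. -/
def actS (n : ℕ) (g : Matrix (Fin 2) (Fin 2) ℤ) : Sy R n →ₗ[R] Sy R n :=
  (symL n g).restrict fun f _ => act_deg n g f

theorem actS_val (n : ℕ) (g : Matrix (Fin 2) (Fin 2) ℤ) (f : Sy R n) :
    ((actS n g f : Sy R n) : R[X]) = symAct n g f.1 := rfl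

theorem actS_pow (h1 : BComp) (n : ℕ) (g : SL(2, ℤ)) (i : ℕ) (f : Sy R n) :
    (((actS n (mx g) ^ i) f : Sy R n) : R[X]) = symAct n (mx (g ^ i)) f.1 := by
  induction i generalizing f with
  | zero =>
    rw [pow_zero, pow_zero]
    change f.1 = _
    have := (h1 R n 1 1 f.1 f.2).2.2
    rw [mx, Matrix.SpecialLinearGroup.coe_one, this]
  | succ i ih =>
    rw [pow_succ', pow_succ]
    change ((actS n (mx g) ((actS n (mx g) ^ i) f) : Sy R n) : R[X]) = _
    rw [actS_val, ih]
    have := (h1 R n (mx (g ^ i)) (mx g) f.1 f.2).1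
    rw [← this]
    congr 1

theorem NN_val (h1 : BComp) (n d : ℕ) (g : SL(2, ℤ)) (f : Sy R n) [IsDomain R] :
    ((NN d (actS n (mx g)) f : Sy R n) : R[X]) =
      ∑ i ∈ Finset.range d, symAct n (mx (g ^ i)) f.1 := by
  rw [NN_apply, Submodule.coe_sum]
  exact Finset.sum_congr rfl fun i _ => actS_pow h1 n g i f

/-! Explicit formulas. -/

theorem act_S (n : ℕ) (f : R[X]) :
    symAct n (mx mS) f =
      ∑ i ∈ Finset.range (n + 1), Polynomial.C (f.coeff i * (-1) ^ i) * Polynomial.X ^ (n - i) := by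
  unfold symAct
  refine Finset.sum_congr rfl fun i _ => ?_
  simp [mx, mS, mul_assoc]

theorem act_S_coeff (n : ℕ) (f : R[X]) (j : ℕ) (hj : j ≤ n) :
    (symAct n (mx mS) f).coeff j = f.coeff (n - j) * (-1) ^ (n - j) := by
  rw [act_S, Polynomial.finsetSum_coeff]
  simp_rw [Polynomial.coeff_C_mul, Polynomial.coeff_X_pow]
  rw [Finset.sum_eq_single (n - j)]
  · have : j = n - (n - j) := by omega
    rw [if_pos this, mul_one]
  · intro i hi hne
    rw [Finset.mem_range] at hi
    rw [if_neg (by omega), mul_zero]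
  · intro h
    exact absurd (Finset.mem_range.2 (by omega)) h

theorem act_V (n : ℕ) (f : R[X]) :
    symAct n (mx mV) f = ∑ i ∈ Finset.range (n + 1),
      Polynomial.C (f.coeff i) * (1 - Polynomial.X) ^ i * (-Polynomial.X) ^ (n - i) := by
  unfold symAct
  refine Finset.sum_congr rfl fun i _ => ?_
  have e1 : (Polynomial.C ((mx mV 0 0 : ℤ) : R) * Polynomial.X + Polynomial.C ((mx mV 0 1 : ℤ) : R))
      = 1 - Polynomial.X := by
    simp [mx, mV]
    ring
  have e2 : (Polynomial.C ((mx mV 1 0 : ℤ) : R) * Polynomial.X + Polynomial.C ((mx mV 1 1 : ℤ) : R))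
      = - Polynomial.X := by
    simp [mx, mV]
  rw [e1, e2]

theorem act_V_coeff0 (n : ℕ) (f : R[X]) : (symAct n (mx mV) f).coeff 0 = f.coeff n := by
  rw [act_V, Polynomial.coeff_zero_eq_eval_zero, Polynomial.eval_finsetSum,
    Finset.sum_eq_single n]
  · simp
  · intro i hi hne
    rw [Finset.mem_range] at hi
    have : n - i ≠ 0 := by omega
    simp [this]
  · intro h
    exact absurd (Finset.mem_range.2 (Nat.lt_succ_self n)) h

theorem act_V_eval1 (n : ℕ) (f : R[X]) :
    (symAct n (mx mV) f).eval 1 = (-1) ^ n * f.coeff 0 := by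
  rw [act_V, Polynomial.eval_finsetSum, Finset.sum_eq_single 0]
  · simp
    ring
  · intro i _ hne
    simp [hne]
  · intro h
    exact absurd (Finset.mem_range.2 (Nat.succ_pos n)) h

theorem act_V_coeffn (n : ℕ) (f : R[X]) (hf : f.natDegree ≤ n) :
    (symAct n (mx mV) f).coeff n = (-1) ^ n * f.eval 1 := by
  rw [act_V, Polynomial.finsetSum_coeff, Polynomial.eval_eq_sum_range' (n := n + 1) (by omega),
    Finset.mul_sum]
  refine Finset.sum_congr rfl fun i hi => ?_
  have hi' : i ≤ n := Nat.lt_succ_iff.1 (Finset.mem_range.1 hi)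
  rw [mul_assoc, Polynomial.coeff_C_mul, neg_pow, ← Polynomial.C_1, ← Polynomial.C_neg,
    ← Polynomial.C_pow, mul_left_comm, Polynomial.coeff_C_mul]
  obtain ⟨k, rfl⟩ := Nat.exists_eq_add_of_le hi'
  rw [Nat.add_sub_cancel_left, Polynomial.coeff_mul_X_pow]
  have h1 : ((Polynomial.C (1 : R) - Polynomial.X) ^ i).coeff (i * 1) =
      (Polynomial.C (1 : R) - Polynomial.X).coeff 1 ^ i := by
    refine Polynomial.coeff_pow_of_natDegree_le ?_
    refine (Polynomial.natDegree_sub_le _ _).trans (max_le ?_ ?_)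
    · simp
    · exact Polynomial.natDegree_X_le
  rw [mul_one] at h1
  rw [h1]
  simp [Polynomial.coeff_one]
  ring

/-! ### Multiplication by an invariant polynomial -/

/-- Multiplication by `Q`. -/
def mulL (Q : R[X]) {k : ℕ} (hQ : Q.natDegree ≤ k) (n' : ℕ) : Sy R n' →ₗ[R] Sy R (k + n') :=
  (LinearMap.mulLeft R Q).restrict fun _ ha =>
    Polynomial.natDegree_mul_le.trans (add_le_add hQ ha)

theorem mulL_val (Q : R[X]) {k : ℕ} (hQ : Q.natDegree ≤ k) (n' : ℕ) (a : Sy R n') :
    ((mulL Q hQ n' a : Sy R (k + n')) : R[X]) = Q * a.1 := rfl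

theorem mulL_inj [IsDomain R] (Q : R[X]) {k : ℕ} (hQ : Q.natDegree ≤ k) (n' : ℕ) (h0 : Q ≠ 0) :
    Function.Injective (mulL Q hQ n') := by
  intro x y hxy
  exact Subtype.ext (mul_left_cancel₀ h0 (congrArg Subtype.val hxy))

theorem mulL_equiv (h2 : BMul) (Q : R[X]) {k : ℕ} (hQ : Q.natDegree ≤ k) (n' : ℕ)
    (g : Matrix (Fin 2) (Fin 2) ℤ) (hg : symAct k g Q = Q) (a : Sy R n') :
    mulL Q hQ n' (actS n' g a) = actS (k + n') g (mulL Q hQ n' a) := by
  apply Subtype.ext
  rw [mulL_val, actS_val, actS_val, mulL_val, h2 R k n' g Q a.1 hQ a.2, hg]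

variable [IsDomain R]

/-- The rank of the kernel of the norm. -/
def kkf (R : Type) [CommRing R] [IsDomain R] (d : ℕ) (g : SL(2, ℤ)) (n : ℕ) : ℕ :=
  Module.finrank R (LinearMap.ker (NN d (actS n (mx g) : Sy R n →ₗ[R] Sy R n)))

theorem gV_pow : mV ^ 3 = 1 := by
  ext i j
  fin_cases i <;> fin_cases j <;> simp [mV, pow_succ, Matrix.mul_apply, Fin.sum_univ_two]

theorem gS_pow : mS ^ 2 = -1 := by
  ext i j
  fin_cases i <;> fin_cases j <;> simp [mS, pow_succ, Matrix.mul_apply, Fin.sum_univ_two]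

theorem pow_V (h1 : BComp) (n : ℕ) : (actS n (mx mV) : Sy R n →ₗ[R] Sy R n) ^ 3 = 1 := by
  apply LinearMap.ext
  intro f
  apply Subtype.ext
  rw [actS_pow h1, gV_pow]
  exact (h1 R n 1 1 f.1 f.2).2.2

theorem pow_S (h1 : BComp) (n : ℕ) (hn : Even n) :
    (actS n (mx mS) : Sy R n →ₗ[R] Sy R n) ^ 2 = 1 := by
  apply LinearMap.ext
  intro f
  apply Subtype.ext
  rw [actS_pow h1, gS_pow]
  change symAct n (mx (-1)) f.1 = f.1
  unfold symAct
  have e1 : ∀ i ∈ Finset.range (n + 1), Polynomial.C (f.1.coeff i) *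
      (Polynomial.C ((mx (-1) 0 0 : ℤ) : R) * Polynomial.X +
        Polynomial.C ((mx (-1) 0 1 : ℤ) : R)) ^ i *
      (Polynomial.C ((mx (-1) 1 0 : ℤ) : R) * Polynomial.X +
        Polynomial.C ((mx (-1) 1 1 : ℤ) : R)) ^ (n - i) =
      Polynomial.C (f.1.coeff i) * Polynomial.X ^ i := by
    intro i hi
    have hi' : i ≤ n := Nat.lt_succ_iff.1 (Finset.mem_range.1 hi)
    have e2 : (Polynomial.C ((mx (-1) 0 0 : ℤ) : R) * Polynomial.X +
        Polynomial.C ((mx (-1) 0 1 : ℤ) : R)) = -Polynomial.X := by simp [mx]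
    have e3 : (Polynomial.C ((mx (-1) 1 0 : ℤ) : R) * Polynomial.X +
        Polynomial.C ((mx (-1) 1 1 : ℤ) : R)) = -1 := by simp [mx]
    rw [e2, e3]
    calc Polynomial.C (f.1.coeff i) * (-Polynomial.X) ^ i * (-1) ^ (n - i)
        = Polynomial.C (f.1.coeff i) * Polynomial.X ^ i * ((-1) ^ i * (-1) ^ (n - i)) := by
          rw [neg_pow (Polynomial.X : R[X]) i]
          ring
      _ = _ := by rw [← pow_add, Nat.add_sub_cancel' hi', hn.neg_one_pow, mul_one]
  rw [Finset.sum_congr rfl e1]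
  have hf : f.1.natDegree < n + 1 := Nat.lt_succ_of_le f.2
  exact (Polynomial.as_sum_range_C_mul_X_pow' f.1 hf).symm

/-! ### The step for `V` -/

/-- Values at the three cusps. -/
def piV (n : ℕ) : Sy R n →ₗ[R] (Fin 3 → R) where
  toFun f := ![f.1.coeff 0, f.1.eval 1, f.1.coeff n]
  map_add' f g := by
    ext i
    fin_cases i <;> simp
  map_smul' c f := by
    ext i
    fin_cases i <;> simp

/-- The action on the values. -/
def gCV (n : ℕ) : (Fin 3 → R) →ₗ[R] (Fin 3 → R) where
  toFun x := ![x 2, (-1) ^ n * x 0, (-1) ^ n * x 1]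
  map_add' f g := by
    ext i
    fin_cases i <;> simp <;> ring
  map_smul' c f := by
    ext i
    fin_cases i <;> simp <;> ring

theorem step_V (h1 : BComp) (h2 : BMul) [IsNoetherianRing R] (h3 : (3 : R) ≠ 0) (n' : ℕ) :
    kkf R 3 mV (3 + n') = kkf R 3 mV n' + 2 := by
  have hQ : (Polynomial.X ^ 2 - Polynomial.X : R[X]).natDegree ≤ 3 := by
    refine (Polynomial.natDegree_sub_le _ _).trans (max_le ?_ ?_)
    · exact (Polynomial.natDegree_X_pow_le _).trans (by norm_num)
    · exact Polynomial.natDegree_X_le.trans (by norm_num)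
  have hQ0 : (Polynomial.X ^ 2 - Polynomial.X : R[X]) ≠ 0 := by
    intro h
    have := congrArg (fun f => Polynomial.coeff f 2) h
    simp [Polynomial.coeff_X] at this
  have hQf : (Polynomial.X ^ 2 - Polynomial.X : R[X]) =
      Polynomial.X * (Polynomial.X - Polynomial.C 1) := by
    rw [Polynomial.C_1]
    ring
  have hinv : symAct 3 (mx mV) (Polynomial.X ^ 2 - Polynomial.X : R[X]) =
      Polynomial.X ^ 2 - Polynomial.X := by
    rw [act_V]
    simp [Finset.sum_range_succ, Polynomial.coeff_X, Polynomial.coeff_X_pow]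
    ring
  rw [kkf, kkf]
  have hk := add_ker (actS n' (mx mV) : Sy R n' →ₗ[R] Sy R n')
    (actS (3 + n') (mx mV) : Sy R (3 + n') →ₗ[R] Sy R (3 + n')) (gCV (3 + n'))
    (mulL _ hQ n') (piV (3 + n')) (mulL_inj _ hQ n' hQ0) ?_ ?_
    (mulL_equiv h2 _ hQ n' _ hinv) ?_ 3 (by exact_mod_cast h3) (pow_V h1 _)
  · rw [hk]
    congr 1
    set σ : (Fin 3 → R) →ₗ[R] R :=
      { toFun := fun x => x 0 + (-1) ^ (3 + n') * x 1 + x 2
        map_add' := fun x y => by simp; ring
        map_smul' := fun c x => by simp; ring } with hσ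
    have hσa : ∀ x, σ x = x 0 + (-1) ^ (3 + n') * x 1 + x 2 := fun _ => rfl
    have hker : LinearMap.ker (NN 3 (gCV (3 + n') : (Fin 3 → R) →ₗ[R] (Fin 3 → R))) =
        LinearMap.ker σ := by
      have hε : ((-1 : R) ^ (3 + n')) * ((-1 : R) ^ (3 + n')) = 1 := by
        rw [← mul_pow]; simp
      have hNN : ∀ x : Fin 3 → R, NN 3 (gCV (3 + n')) x =
          ![σ x, (-1) ^ (3 + n') * σ x, σ x] := by
        intro x
        rw [NN_apply]
        simp only [Finset.sum_range_succ, Finset.sum_range_zero, pow_zero, zero_add,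
          pow_succ, Module.End.mul_apply, Module.End.one_apply, one_mul]
        have a0 : ∀ y : Fin 3 → R, gCV (3 + n') y 0 = y 2 := fun _ => rfl
        have a1 : ∀ y : Fin 3 → R, gCV (3 + n') y 1 = (-1) ^ (3 + n') * y 0 := fun _ => rfl
        have a2 : ∀ y : Fin 3 → R, gCV (3 + n') y 2 = (-1) ^ (3 + n') * y 1 := fun _ => rfl
        ext i
        fin_cases i
        · change x 0 + gCV (3 + n') x 0 + gCV (3 + n') (gCV (3 + n') x) 0 = σ x
          rw [a0, a0, a2, hσa]
          ring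
        · change x 1 + gCV (3 + n') x 1 + gCV (3 + n') (gCV (3 + n') x) 1 =
            (-1) ^ (3 + n') * σ x
          rw [a1, a1, a0, hσa]
          linear_combination (-x 1) * hε
        · change x 2 + gCV (3 + n') x 2 + gCV (3 + n') (gCV (3 + n') x) 2 = σ x
          rw [a2, a2, a1, hσa]
          linear_combination (x 0) * hε
      ext x
      rw [LinearMap.mem_ker, LinearMap.mem_ker, hNN]
      constructor
      · intro h
        exact congrFun h 0
      · intro h
        rw [h]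
        ext i
        fin_cases i <;> simp
    rw [hker]
    have h4 := range_add_ker σ
    have h5 : LinearMap.range σ = ⊤ := by
      rw [LinearMap.range_eq_top]
      intro r
      exact ⟨![r, 0, 0], by simp [hσa]⟩
    rw [h5, finrank_top, Module.finrank_self, Module.finrank_fintype_fun_eq_card,
      Fintype.card_fin] at h4
    omega
  · intro x
    refine ⟨⟨Polynomial.C (x 0) + Polynomial.C (x 1 - x 0 - x 2) * Polynomial.X +
      Polynomial.C (x 2) * Polynomial.X ^ (3 + n'), ?_⟩, ?_⟩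
    · refine (Polynomial.natDegree_add_le _ _).trans (max_le ((Polynomial.natDegree_add_le _ _).trans
        (max_le ?_ ?_)) ?_)
      · simp
      · refine (Polynomial.natDegree_C_mul_le _ _).trans (Polynomial.natDegree_X_le.trans ?_)
        omega
      · exact (Polynomial.natDegree_C_mul_le _ _).trans (Polynomial.natDegree_X_pow_le _)
    · ext i
      have e1 : ¬ (3 + n' = 0) := by omega
      have e2 : ¬ (1 = 3 + n') := by omega
      have e3 : ¬ (0 = 3 + n') := by omega
      fin_cases i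
      · change (Polynomial.C (x 0) + Polynomial.C (x 1 - x 0 - x 2) * Polynomial.X +
          Polynomial.C (x 2) * Polynomial.X ^ (3 + n')).coeff 0 = x 0
        rw [Polynomial.coeff_add, Polynomial.coeff_add, Polynomial.coeff_C_mul,
          Polynomial.coeff_C_mul, Polynomial.coeff_C, Polynomial.coeff_X, Polynomial.coeff_X_pow,
          if_pos rfl, if_neg (by norm_num), if_neg e3]
        ring
      · change (Polynomial.C (x 0) + Polynomial.C (x 1 - x 0 - x 2) * Polynomial.X +
          Polynomial.C (x 2) * Polynomial.X ^ (3 + n')).eval 1 = x 1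
        simp only [Polynomial.eval_add, Polynomial.eval_mul, Polynomial.eval_C,
          Polynomial.eval_X, Polynomial.eval_pow, one_pow]
        ring
      · change (Polynomial.C (x 0) + Polynomial.C (x 1 - x 0 - x 2) * Polynomial.X +
          Polynomial.C (x 2) * Polynomial.X ^ (3 + n')).coeff (3 + n') = x 2
        rw [Polynomial.coeff_add, Polynomial.coeff_add, Polynomial.coeff_C_mul,
          Polynomial.coeff_C_mul, Polynomial.coeff_C, Polynomial.coeff_X, Polynomial.coeff_X_pow,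
          if_neg e1, if_neg e2, if_pos rfl]
        ring
  · intro b
    constructor
    · intro hb
      have hb0 : b.1.coeff 0 = 0 := congrFun hb 0
      have hb1 : b.1.eval 1 = 0 := congrFun hb 1
      have hbn : b.1.coeff (3 + n') = 0 := congrFun hb 2
      obtain ⟨f1, hf1⟩ := Polynomial.X_dvd_iff.2 hb0
      have hr : f1.IsRoot 1 := by
        rw [hf1] at hb1
        simpa using hb1
      obtain ⟨f2, hf2⟩ := Polynomial.dvd_iff_isRoot.2 hr
      have hb2 : b.1 = (Polynomial.X ^ 2 - Polynomial.X) * f2 := by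
        rw [hf1, hf2, hQf, mul_assoc]
      refine ⟨⟨f2, ?_⟩, Subtype.ext hb2.symm⟩
      change f2.natDegree ≤ n'
      by_cases h0 : f2 = 0
      · rw [h0]; simp
      have hd := Polynomial.natDegree_mul hQ0 h0
      rw [← hb2] at hd
      have hd2 : (Polynomial.X ^ 2 - Polynomial.X : R[X]).natDegree = 2 := by
        rw [hQf, Polynomial.natDegree_mul Polynomial.X_ne_zero (Polynomial.X_sub_C_ne_zero 1),
          Polynomial.natDegree_X, Polynomial.natDegree_X_sub_C]
      have hle : b.1.natDegree ≤ 3 + n' := b.2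
      have hne : b.1.natDegree ≠ 3 + n' := by
        intro he
        have hb0' : b.1 ≠ 0 := by
          rw [hb2]; exact mul_ne_zero hQ0 h0
        apply hb0'
        rw [← Polynomial.leadingCoeff_eq_zero, Polynomial.leadingCoeff, he, hbn]
      omega
    · rintro ⟨a, rfl⟩
      have ha : a.1.natDegree ≤ n' := a.2
      ext i
      fin_cases i
      · simp [piV, mulL_val]
      · simp [piV, mulL_val]
      · change ((Polynomial.X ^ 2 - Polynomial.X) * a.1).coeff (3 + n') = 0
        rw [sub_mul, Polynomial.coeff_sub, show 3 + n' = (n' + 1) + 2 by ring,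
          Polynomial.coeff_X_pow_mul, show n' + 1 + 2 = (n' + 2) + 1 by ring,
          Polynomial.coeff_X_mul, Polynomial.coeff_eq_zero_of_natDegree_lt (by omega),
          Polynomial.coeff_eq_zero_of_natDegree_lt (by omega), sub_zero]
  · intro b
    ext i
    fin_cases i
    · exact act_V_coeff0 _ _
    · exact act_V_eval1 _ _
    · exact act_V_coeffn _ _ b.2

end sy

end KK

end Gou

end
end

section

/-!
MP_602313_nt, module B: auxiliary lemmas for the kernels of the norm operators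
(used by BKerI and BWW).
-/

open scoped MatrixGroups Polynomial
open CongruenceSubgroup

noncomputable section

namespace Gou

namespace KerAux

/-! ### Groups -/

section grp

variable {W : Type} [AddCommGroup W]

/-- Kernel of `N` on `K / J` by the size of the cokernel. -/
theorem ker_formula (N : W →+ W) (K J : AddSubgroup W) (hJK : J ≤ K)
    (hNK : K.map N ≤ K) (hNJ : J.map N ≤ J) (hfin : J.relIndex K ≠ 0) :
    J.relIndex (K ⊓ J.comap N) = (K.map N ⊔ J).relIndex K := by
  have hJS : J ≤ K ⊓ J.comap N := by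
    refine le_inf hJK ?_
    rw [← AddSubgroup.map_le_iff_le_comap]
    exact hNJ
  have e1 := AddSubgroup.relIndex_mul_relIndex J (K ⊓ J.comap N) K hJS inf_le_left
  have e2 : (K ⊓ J.comap N).relIndex K = J.relIndex (K.map N) := by
    rw [AddSubgroup.inf_relIndex_left, AddSubgroup.relIndex_comap]
  have e3 := AddSubgroup.relIndex_mul_relIndex J (K.map N ⊔ J) K le_sup_right (sup_le hNK hJK)
  have e4 : J.relIndex (K.map N ⊔ J) = J.relIndex (K.map N) := AddSubgroup.relIndex_sup_right _ _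
  rw [e2] at e1
  rw [e4] at e3
  have h0 : J.relIndex (K.map N) ≠ 0 := by
    intro h
    rw [h, zero_mul] at e3
    exact hfin e3.symm
  have h1 : J.relIndex (K.map N) * J.relIndex (K ⊓ J.comap N)
      = J.relIndex (K.map N) * (K.map N ⊔ J).relIndex K := by
    rw [e3, mul_comm, e1]
  exact Nat.eq_of_mul_eq_mul_left (Nat.pos_of_ne_zero h0) h1

/-- The kernel on a quotient is at most the kernel on the group. -/
theorem ker_quot (N N' μ : W →+ W) (K' J' I J1 : AddSubgroup W) (hJ'K' : J' ≤ K')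
    (hNK : K'.map N' ≤ K') (hNJ : J'.map N' ≤ J') (hfin : J'.relIndex K' ≠ 0)
    (hJ1 : J1 = K'.map μ ⊔ I) (hNI : I.map N ≤ I) (hfin1 : I.relIndex J1 ≠ 0)
    (hcomm : ∀ x ∈ K', N (μ x) = μ (N' x)) (hμ : J'.map μ ≤ I) :
    I.relIndex (J1 ⊓ I.comap N) ≤ J'.relIndex (K' ⊓ J'.comap N') := by
  have hIJ1 : I ≤ J1 := by rw [hJ1]; exact le_sup_right
  have hmJ1 : K'.map μ ≤ J1 := by rw [hJ1]; exact le_sup_left
  have hNJ1 : J1.map N ≤ J1 := by
    rw [AddSubgroup.map_le_iff_le_comap]
    nth_rewrite 1 [hJ1]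
    refine sup_le ?_ ?_
    · rw [AddSubgroup.map_le_iff_le_comap]
      intro x hx
      rw [AddSubgroup.mem_comap, AddSubgroup.mem_comap, hcomm x hx]
      exact hmJ1 (AddSubgroup.mem_map_of_mem _ (hNK (AddSubgroup.mem_map_of_mem _ hx)))
    · intro x hx
      exact hIJ1 (hNI (AddSubgroup.mem_map_of_mem _ hx))
  rw [ker_formula N J1 I hIJ1 hNJ1 hNI hfin1, ker_formula N' K' J' hJ'K' hNK hNJ hfin]
  set X := J1.map N ⊔ I with hX
  have hXJ1 : X ≤ J1 := sup_le hNJ1 hIJ1
  have e1 : X.relIndex J1 = X.relIndex (K'.map μ) := by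
    have h1 : K'.map μ ⊔ X = J1 := by
      apply le_antisymm (sup_le hmJ1 hXJ1)
      nth_rewrite 1 [hJ1]
      exact sup_le le_sup_left (le_sup_right.trans le_sup_right)
    rw [← AddSubgroup.relIndex_sup_right (K'.map μ) X, h1]
  rw [e1, ← AddSubgroup.relIndex_comap]
  refine AddSubgroup.relIndex_le_of_le_left ?_ ?_
  · refine sup_le ?_ ?_
    · rintro _ ⟨x, hx, rfl⟩
      rw [AddSubgroup.mem_comap]
      have h2 := hcomm x hx
      rw [← h2]
      exact (le_sup_left : J1.map N ≤ X)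
        (AddSubgroup.mem_map_of_mem _ (hmJ1 (AddSubgroup.mem_map_of_mem _ hx)))
    · intro x hx
      rw [AddSubgroup.mem_comap]
      exact (le_sup_right : I ≤ X) (hμ (AddSubgroup.mem_map_of_mem _ hx))
  · have h3 := AddSubgroup.relIndex_mul_relIndex J' (K'.map N' ⊔ J') K' le_sup_right
      (sup_le hNK hJ'K')
    intro h4
    rw [h4, mul_zero] at h3
    exact hfin h3.symm

/-- Kernel on `K / I` through the subgroup `J1 / I`. -/
theorem ker_comb (N : W →+ W) (K I J1 : AddSubgroup W) (hI : I ≤ J1) (hJ1 : J1 ≤ K)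
    (hfin : J1.relIndex (K ⊓ J1.comap N) ≠ 0) :
    I.relIndex (K ⊓ I.comap N) ≤
      I.relIndex (J1 ⊓ I.comap N) * J1.relIndex (K ⊓ J1.comap N) := by
  have e1 := AddSubgroup.relIndex_inf_mul_relIndex I J1 (K ⊓ I.comap N)
  have e2 : I ⊓ J1 = I := inf_eq_left.2 hI
  have e3 : J1 ⊓ (K ⊓ I.comap N) = J1 ⊓ I.comap N := by
    rw [← inf_assoc, inf_eq_left.2 hJ1]
  rw [e2, e3] at e1
  rw [← e1]
  refine Nat.mul_le_mul_left _ ?_
  refine AddSubgroup.relIndex_le_of_le_right ?_ hfin
  exact inf_le_inf_left _ (AddSubgroup.comap_mono hI)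

end grp

/-! ### The norm operator as a homomorphism -/

variable {p : ℕ} [Fact p.Prime]

theorem Ng_add (n d : ℕ) (g : SL(2, ℤ)) (a b : ℤ_[p][X]) :
    Ng n d g (a + b) = Ng n d g a + Ng n d g b := by
  simp [Ng, symAct_add, Finset.sum_add_distrib]

/-- `Ng` as a homomorphism. -/
def NgH (n d : ℕ) (g : SL(2, ℤ)) : ℤ_[p][X] →+ ℤ_[p][X] where
  toFun := Ng n d g
  map_zero' := by simp [Ng, symAct_zero]
  map_add' := Ng_add n d g

theorem kerN_eq (n d : ℕ) (g : SL(2, ℤ)) (K J : AddSubgroup ℤ_[p][X]) :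
    kerN n d g K J = K ⊓ J.comap (NgH n d g) := by
  ext x
  rfl

theorem NgH_stab (n d : ℕ) (g : SL(2, ℤ)) (K : AddSubgroup ℤ_[p][X]) (hK : Stab n K) :
    K.map (NgH n d g) ≤ K := by
  rintro _ ⟨x, hx, rfl⟩
  change Ng n d g x ∈ K
  unfold Ng
  exact K.sum_mem fun i _ => hK _ x hx

/-- Invariant polynomials of degree at most `E`. -/
def Inv (E : ℕ) (g : SL(2, ℤ)) (Q : ℤ_[p][X]) : Prop :=
  Q ∈ Pn p E ∧ ∀ i : ℕ, symAct E (mx (g ^ i)) Q = Q

theorem mx_pow_succ (g : SL(2, ℤ)) (i : ℕ) : mx (g ^ (i + 1)) = mx (g ^ i) * mx g := by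
  rw [pow_succ]
  simp [mx]

theorem Inv.of_one (hc : BComp) (E : ℕ) (g : SL(2, ℤ)) (Q : ℤ_[p][X]) (hQ : Q ∈ Pn p E)
    (h : symAct E (mx g) Q = Q) : Inv E g Q := by
  refine ⟨hQ, fun i => ?_⟩
  induction i with
  | zero =>
    have h1 := (hc ℤ_[p] E 1 1 Q hQ).2.2
    simpa [mx] using h1
  | succ i ih =>
    rw [mx_pow_succ, (hc ℤ_[p] E (mx (g ^ i)) (mx g) Q hQ).1, ih, h]

theorem Inv.mul (hm : BMul) {E E' : ℕ} {g : SL(2, ℤ)} {Q Q' : ℤ_[p][X]} (h : Inv E g Q)
    (h' : Inv E' g Q') : Inv (E + E') g (Q * Q') := by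
  refine ⟨?_, fun i => ?_⟩
  · exact Polynomial.natDegree_mul_le.trans (Nat.add_le_add h.1 h'.1)
  · rw [hm ℤ_[p] E E' _ Q Q' h.1 h'.1, h.2 i, h'.2 i]

theorem Inv.one (hc : BComp) (g : SL(2, ℤ)) : Inv 0 g (1 : ℤ_[p][X]) := by
  refine Inv.of_one hc 0 g 1 ?_ ?_
  · change Polynomial.natDegree (1 : ℤ_[p][X]) ≤ 0
    simp
  · simp [symAct]

theorem Inv.pow (hc : BComp) (hm : BMul) {E : ℕ} {g : SL(2, ℤ)} {Q : ℤ_[p][X]} (h : Inv E g Q)
    (i : ℕ) : Inv (i * E) g (Q ^ i) := by
  induction i with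
  | zero => simpa using Inv.one hc g
  | succ i ih =>
    rw [pow_succ, Nat.succ_mul]
    exact ih.mul hm h

/-- Multiplication by an invariant polynomial commutes with the norm operator. -/
theorem Ng_mul (hm : BMul) {E n : ℕ} {g : SL(2, ℤ)} {Q : ℤ_[p][X]} (h : Inv E g Q)
    (d : ℕ) (hE : E ≤ n) (a : ℤ_[p][X]) (ha : a ∈ Pn p (n - E)) :
    Ng n d g (Q * a) = Q * Ng (n - E) d g a := by
  unfold Ng
  rw [Finset.mul_sum]
  refine Finset.sum_congr rfl fun i _ => ?_
  have h1 : n = E + (n - E) := by omega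
  have h2 : symAct n (mx (g ^ i)) (Q * a) = symAct (E + (n - E)) (mx (g ^ i)) (Q * a) := by
    rw [← h1]
  rw [h2, hm ℤ_[p] E (n - E) _ Q a h.1 ha, h.2 i]

theorem mul_mem_Pn {a b n : ℕ} {F G : ℤ_[p][X]} (hF : F ∈ Pn p a) (hG : G ∈ Pn p b)
    (h : a + b ≤ n) : F * G ∈ Pn p n :=
  Polynomial.natDegree_mul_le.trans ((Nat.add_le_add hF hG).trans h)

/-! ### Index of the polynomials divisible by `p^h` -/

theorem toZModPow_eq_zero (h : ℕ) (x : ℤ_[p]) :
    PadicInt.toZModPow (p := p) h x = 0 ↔ (p : ℤ_[p]) ^ h ∣ x := by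
  rw [← RingHom.mem_ker, PadicInt.ker_toZModPow, Ideal.mem_span_singleton]

/-- Reduction of the coefficients `0, ..., n` modulo `p^h`. -/
def redH (p : ℕ) [Fact p.Prime] (n h : ℕ) : ℤ_[p][X] →+ (Fin (n + 1) → ZMod (p ^ h)) where
  toFun f := fun i => PadicInt.toZModPow (p := p) h (f.coeff i)
  map_zero' := by
    funext i
    simp
  map_add' a b := by
    funext i
    simp

theorem pPn_eq (n h : ℕ) : pPn p n h = Pn p n ⊓ (redH p n h).ker := by
  ext f
  constructor
  · intro hf
    refine ⟨hf.1, ?_⟩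
    change redH p n h f = 0
    funext i
    exact (toZModPow_eq_zero h _).2 (hf.2 i)
  · rintro ⟨hf, hk⟩
    refine ⟨hf, fun i => ?_⟩
    by_cases hi : i ≤ n
    · have hk' : redH p n h f = 0 := hk
      have h1 := congrFun hk' ⟨i, Nat.lt_succ_of_le hi⟩
      exact (toZModPow_eq_zero h _).1 h1
    · have h0 : f.coeff i = 0 := Polynomial.coeff_eq_zero_of_natDegree_lt
        (lt_of_le_of_lt hf (not_le.1 hi))
      rw [h0]
      exact dvd_zero _

theorem redH_map (n h : ℕ) : (Pn p n).map (redH p n h) = ⊤ := by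
  rw [eq_top_iff]
  intro v _
  choose x hx using fun i : Fin (n + 1) =>
    ZMod.ringHom_surjective (PadicInt.toZModPow (p := p) h) (v i)
  refine ⟨∑ i : Fin (n + 1), Polynomial.monomial (i : ℕ) (x i), ?_, ?_⟩
  · change (Polynomial.natDegree _) ≤ n
    refine Polynomial.natDegree_sum_le_of_forall_le _ _ fun i _ => ?_
    exact (Polynomial.natDegree_monomial_le _).trans (Nat.lt_succ_iff.1 i.2)
  · funext k
    change PadicInt.toZModPow (p := p) h ((∑ i : Fin (n + 1),
      Polynomial.monomial (i : ℕ) (x i)).coeff (k : ℕ)) = v k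
    rw [Polynomial.finsetSum_coeff, Finset.sum_eq_single k]
    · rw [Polynomial.coeff_monomial, if_pos rfl, hx]
    · intro i _ hi
      rw [Polynomial.coeff_monomial, if_neg]
      intro hh
      exact hi (Fin.ext hh)
    · intro hk
      exact absurd (Finset.mem_univ k) hk

theorem pPn_index (n h : ℕ) : (pPn p n h).relIndex (Pn p n) = p ^ (h * (n + 1)) := by
  rw [pPn_eq, AddSubgroup.inf_relIndex_left, AddSubgroup.relIndex_ker, redH_map]
  have h1 : Nat.card (⊤ : AddSubgroup (Fin (n + 1) → ZMod (p ^ h)))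
      = Nat.card (Fin (n + 1) → ZMod (p ^ h)) :=
    Nat.card_congr AddSubgroup.topEquiv.toEquiv
  rw [h1, Nat.card_pi, Finset.prod_const, Finset.card_univ, Fintype.card_fin, Nat.card_zmod,
    ← pow_mul]

theorem pPn_index_ne (n h : ℕ) : (pPn p n h).relIndex (Pn p n) ≠ 0 := by
  rw [pPn_index]
  exact pow_ne_zero _ (Fact.out : p.Prime).ne_zero

theorem pPn_le (n h : ℕ) : pPn p n h ≤ Pn p n := fun _ hx => hx.1

theorem Ip_le (n m : ℕ) : Ip p n m ≤ Pn p n := fun _ hx => hx.1

theorem relIndex_ne_of_le_right {W : Type} [AddCommGroup W] {J K L : AddSubgroup W} (h : K ≤ L)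
    (h0 : J.relIndex L ≠ 0) : J.relIndex K ≠ 0 :=
  fun h1 => h0 (AddSubgroup.relIndex_eq_zero_of_le_right h h1)

theorem relIndex_ne_of_le_left {W : Type} [AddCommGroup W] {J J' K : AddSubgroup W} (h : J ≤ J')
    (h0 : J.relIndex K ≠ 0) : J'.relIndex K ≠ 0 :=
  fun h1 => h0 (AddSubgroup.relIndex_eq_zero_of_le_left h h1)

end KerAux

end Gou

end
end
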