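import Pool.Agent.Work.MP_602313_nt.Bd.B14
import Pool.Agent.Work.MP_602313_nt.Bd.B04

/-! Bundle of small proof modules (one section per former module). -/

section

/-! BKerT: kernel of `T - 1` on subquotients of `Sym` killed by `p^h` (helper90). -/

open scoped MatrixGroups Polynomial

noncomputable section

namespace Gou.BKerTAux

/-- A finite set of representatives bounds the relative index. -/
theorem relIndex_cover {G : Type*} [AddCommGroup G] (J K : AddSubgroup G) {ι : Type*} [Finite ι]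
    (f : ι → G) (h : ∀ x ∈ K, ∃ i, x - f i ∈ J) :
    J.relIndex K ≠ 0 ∧ J.relIndex K ≤ Nat.card ι := by
  have h' : ∀ x : K, ∃ i, (x : G) - f i ∈ J := fun x => h x x.2
  choose g hg using h'
  let φ : K ⧸ J.addSubgroupOf K → ι := fun q => g q.out
  have hφ : Function.Injective φ := by
    intro a b hab
    have ha := hg a.out
    have hb := hg b.out
    have h1 : ((a.out : K) : G) - (b.out : K) ∈ J := by
      have h3 := J.sub_mem ha hb
      have h4 : g a.out = g b.out := hab
      rw [h4] at h3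
      simpa using h3
    have h2 : (QuotientAddGroup.mk a.out : K ⧸ J.addSubgroupOf K) = QuotientAddGroup.mk b.out := by
      rw [QuotientAddGroup.eq, AddSubgroup.mem_addSubgroupOf]
      have h5 := J.neg_mem h1
      simpa [sub_eq_add_neg, add_comm] using h5
    simpa using h2
  have : Finite (K ⧸ J.addSubgroupOf K) := Finite.of_injective φ hφ
  refine ⟨AddSubgroup.index_ne_zero_of_finite, ?_⟩
  rw [AddSubgroup.relIndex, AddSubgroup.index_eq_card]
  exact Nat.card_le_card_of_injective φ hφ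

variable {p : ℕ} [Fact p.Prime]

theorem symAct_gT (n : ℕ) (f : ℤ_[p][X]) : symAct n (mx mT) f =
    ∑ i ∈ Finset.range (n + 1), Polynomial.C (f.coeff i) * (Polynomial.X + 1) ^ i := by
  have e00 : mx mT 0 0 = 1 := rfl
  have e01 : mx mT 0 1 = 1 := rfl
  have e10 : mx mT 1 0 = 0 := rfl
  have e11 : mx mT 1 1 = 1 := rfl
  simp only [symAct, e00, e01, e10, e11]
  simp

theorem symAct_gT_mem (n : ℕ) (f : ℤ_[p][X]) : (symAct n (mx mT) f).natDegree ≤ n := by
  rw [symAct_gT]
  refine Polynomial.natDegree_sum_le_of_forall_le _ _ fun i hi => ?_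
  rw [Finset.mem_range] at hi
  refine (Polynomial.natDegree_C_mul_le _ _).trans ?_
  refine (Polynomial.natDegree_pow_le).trans ?_
  have : (Polynomial.X + 1 : ℤ_[p][X]).natDegree ≤ 1 := by
    have := Polynomial.natDegree_X_add_C (1 : ℤ_[p])
    rw [map_one] at this
    exact this.le
  nlinarith

theorem symAct_gT_mono (n k : ℕ) (hk : k ≤ n) (c : ℤ_[p]) :
    symAct n (mx mT) (Polynomial.C c * Polynomial.X ^ k) =
      Polynomial.C c * (Polynomial.X + 1) ^ k := by
  rw [symAct_gT, Finset.sum_eq_single k]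
  · simp
  · intro b _ hb
    rw [Polynomial.coeff_C_mul_X_pow, if_neg hb]
    simp
  · intro h
    exact absurd (Finset.mem_range.2 (by omega)) h

/-- `T - 1`. -/
def tmHom (n : ℕ) : ℤ_[p][X] →+ ℤ_[p][X] where
  toFun f := symAct n (mx mT) f - f
  map_zero' := by simp [symAct_zero]
  map_add' a b := by rw [symAct_add]; ring

theorem tmHom_apply (n : ℕ) (f : ℤ_[p][X]) : tmHom n f = symAct n (mx mT) f - f := rfl

theorem padic_dvd_of_val (k : ℕ) (hk : k ≠ 0) (y : ℤ_[p])
    (hy : (p : ℤ_[p]) ^ (padicValNat p k) ∣ y) : ∃ c : ℤ_[p], y = (k : ℤ_[p]) * c := by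
  have hp : p.Prime := Fact.out
  obtain ⟨z, rfl⟩ := hy
  obtain ⟨m, k', hk', hk''⟩ := Nat.exists_eq_pow_mul_and_not_dvd hk p hp.ne_one
  have hk0 : k' ≠ 0 := by rintro rfl; simp at hk'
  have hv : padicValNat p k = m := by
    rw [hk'', padicValNat.mul (pow_ne_zero _ hp.ne_zero) hk0, padicValNat.prime_pow,
      padicValNat.eq_zero_of_not_dvd hk', add_zero]
  have hu : IsUnit ((k' : ℕ) : ℤ_[p]) := by
    rw [PadicInt.isUnit_iff, PadicInt.norm_natCast_eq_one_iff]
    exact (Nat.Prime.coprime_iff_not_dvd hp).2 hk'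
  obtain ⟨u, hu⟩ := hu
  refine ⟨(u⁻¹ : ℤ_[p]ˣ) * z, ?_⟩
  rw [hv, hk'']
  push_cast
  rw [← hu]
  calc (p : ℤ_[p]) ^ m * z = (p : ℤ_[p]) ^ m * ((u : ℤ_[p]) * (u⁻¹ : ℤ_[p]ˣ)) * z := by
        rw [Units.mul_inv, mul_one]
    _ = _ := by ring

/-- Representatives modulo a subgroup containing enough elements. -/
theorem exists_cover (B : AddSubgroup ℤ_[p][X]) (v : ℕ → ℕ) (n : ℕ)
    (hB : ∀ j, j ≤ n → ∀ y : ℤ_[p], (p : ℤ_[p]) ^ v j ∣ y →
      ∃ b ∈ B, (∀ i, j < i → b.coeff i = 0) ∧ b.coeff j = y) :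
    ∀ m, m ≤ n + 1 → ∃ (ι : Type) (_ : Finite ι) (f : ι → ℤ_[p][X]),
      Nat.card ι = p ^ (∑ j ∈ Finset.range m, v j) ∧
      ∀ x : ℤ_[p][X], (∀ i, m ≤ i → x.coeff i = 0) → ∃ i, x - f i ∈ B := by
  intro m
  induction m with
  | zero =>
    intro _
    refine ⟨Unit, inferInstance, fun _ => 0, by simp, ?_⟩
    intro x hx
    refine ⟨(), ?_⟩
    have : x = 0 := by ext i; simpa using hx i (Nat.zero_le _)
    rw [this, sub_zero]
    exact B.zero_mem
  | succ m ih =>
    intro hm
    obtain ⟨ι, hι, f, hc, hf⟩ := ih (by omega)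
    refine ⟨Fin (p ^ v m) × ι, inferInstance, fun a => Polynomial.C ((a.1 : ℕ) : ℤ_[p]) *
      Polynomial.X ^ m + f a.2, ?_, ?_⟩
    · rw [Nat.card_prod, Nat.card_fin, hc, Finset.sum_range_succ, ← pow_add, add_comm]
    · intro x hx
      set c := x.coeff m with hcdef
      have h1 := PadicInt.appr_spec (v m) c
      rw [Ideal.mem_span_singleton] at h1
      obtain ⟨b, hb, hb1, hb2⟩ := hB m (by omega) _ h1
      obtain ⟨i, hi⟩ := hf (x - Polynomial.C ((PadicInt.appr c (v m) : ℕ) : ℤ_[p]) *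
        Polynomial.X ^ m - b) (by
          intro i hi
          rw [Polynomial.coeff_sub, Polynomial.coeff_sub, Polynomial.coeff_C_mul_X_pow]
          rcases Nat.eq_or_lt_of_le hi with h | h
          · subst h
            rw [if_pos rfl, hb2, ← hcdef]
            ring
          · rw [if_neg (by omega), hb1 i h, hx i (by omega)]
            ring)
      refine ⟨(⟨PadicInt.appr c (v m), PadicInt.appr_lt c (v m)⟩, i), ?_⟩
      have h2 := B.add_mem hi hb
      refine (congrArg (· ∈ B) ?_).mp h2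
      ring

theorem sum_padicValNat_le (n : ℕ) : ∑ j ∈ Finset.range n, padicValNat p (j + 1) ≤ n := by
  have hp : p.Prime := Fact.out
  have h1 : ∑ j ∈ Finset.range n, padicValNat p (j + 1) = padicValNat p n.factorial := by
    induction n with
    | zero => simp
    | succ n ih =>
      rw [Finset.sum_range_succ, ih, Nat.factorial_succ,
        padicValNat.mul (Nat.succ_ne_zero n) (Nat.factorial_ne_zero n), add_comm]
  rw [h1]
  have h2 := sub_one_mul_padicValNat_factorial (p := p) n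
  have h3 : 1 ≤ p - 1 := by have := hp.two_le; omega
  have h4 : padicValNat p n.factorial ≤ (p - 1) * padicValNat p n.factorial :=
    Nat.le_mul_of_pos_left _ h3
  omega

/-- The cokernel of `T - 1` modulo `p^h`. -/
theorem coker_le (n h : ℕ) (J : AddSubgroup ℤ_[p][X]) (hJ : pPn p n h ≤ J) :
    (((Pn p n).map (tmHom n)) ⊔ J).relIndex (Pn p n) ≤ p ^ (h + n) := by
  have hp : p.Prime := Fact.out
  obtain ⟨ι, hι, f, hc, hf⟩ := exists_cover (((Pn p n).map (tmHom n)) ⊔ J)
    (fun j => if j < n then padicValNat p (j + 1) else h) n (by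
      intro j hj y hy
      rcases Nat.lt_or_ge j n with hjn | hjn
      · rw [if_pos hjn] at hy
        obtain ⟨c, hc⟩ := padic_dvd_of_val (p := p) (j + 1) (Nat.succ_ne_zero j) y hy
        refine ⟨tmHom n (Polynomial.C c * Polynomial.X ^ (j + 1)), ?_, ?_, ?_⟩
        · refine AddSubgroup.mem_sup_left (AddSubgroup.mem_map_of_mem _ ?_)
          exact (Polynomial.natDegree_C_mul_X_pow_le c (j + 1)).trans hjn
        · intro i hi
          rw [tmHom_apply, symAct_gT_mono n (j + 1) hjn, Polynomial.coeff_sub,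
            Polynomial.coeff_C_mul, Polynomial.coeff_C_mul, Polynomial.coeff_X_add_one_pow,
            Polynomial.coeff_X_pow]
          rcases Nat.eq_or_lt_of_le hi with h1 | h1
          · have h2 : i = j + 1 := h1.symm
            subst h2
            simp
          · rw [Nat.choose_eq_zero_of_lt h1, if_neg (by omega)]
            simp
        · rw [tmHom_apply, symAct_gT_mono n (j + 1) hjn, Polynomial.coeff_sub,
            Polynomial.coeff_C_mul, Polynomial.coeff_C_mul, Polynomial.coeff_X_add_one_pow,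
            Polynomial.coeff_X_pow, if_neg (by omega), Nat.choose_succ_self_right, hc]
          ring
      · rw [if_neg (by omega)] at hy
        refine ⟨Polynomial.C y * Polynomial.X ^ j, ?_, ?_, ?_⟩
        · refine AddSubgroup.mem_sup_right (hJ ⟨?_, ?_⟩)
          · exact (Polynomial.natDegree_C_mul_X_pow_le y j).trans hj
          · intro i
            rw [Polynomial.coeff_C_mul_X_pow]
            split_ifs
            · exact hy
            · exact dvd_zero _
        · intro i hi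
          rw [Polynomial.coeff_C_mul_X_pow, if_neg (by omega)]
        · rw [Polynomial.coeff_C_mul_X_pow, if_pos rfl]) (n + 1) le_rfl
  have h1 := (relIndex_cover (((Pn p n).map (tmHom n)) ⊔ J) (Pn p n) f (fun x hx =>
    hf x (fun i hi => Polynomial.coeff_eq_zero_of_natDegree_lt
      (lt_of_le_of_lt (show x.natDegree ≤ n from hx) (by omega))))).2
  refine h1.trans ?_
  rw [hc]
  refine Nat.pow_le_pow_right hp.pos ?_
  rw [Finset.sum_range_succ, if_neg (by omega)]
  have h2 : ∑ j ∈ Finset.range n, (if j < n then padicValNat p (j + 1) else h) =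
      ∑ j ∈ Finset.range n, padicValNat p (j + 1) :=
    Finset.sum_congr rfl fun j hj => if_pos (Finset.mem_range.1 hj)
  rw [h2]
  have := sum_padicValNat_le (p := p) n
  omega

/-- Finiteness of `P_n / p^h`. -/
theorem pPn_relIndex_ne_zero (n h : ℕ) (J : AddSubgroup ℤ_[p][X]) (hJ : pPn p n h ≤ J) :
    J.relIndex (Pn p n) ≠ 0 := by
  obtain ⟨ι, hι, f, hc, hf⟩ := exists_cover J (fun _ => h) n (by
      intro j hj y hy
      refine ⟨Polynomial.C y * Polynomial.X ^ j, ?_, ?_, ?_⟩
      · refine hJ ⟨?_, ?_⟩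
        · exact (Polynomial.natDegree_C_mul_X_pow_le y j).trans hj
        · intro i
          rw [Polynomial.coeff_C_mul_X_pow]
          split_ifs
          · exact hy
          · exact dvd_zero _
      · intro i hi
        rw [Polynomial.coeff_C_mul_X_pow, if_neg (by omega)]
      · rw [Polynomial.coeff_C_mul_X_pow, if_pos rfl]) (n + 1) le_rfl
  exact (relIndex_cover J (Pn p n) f (fun x hx =>
    hf x (fun i hi => Polynomial.coeff_eq_zero_of_natDegree_lt
      (lt_of_le_of_lt (show x.natDegree ≤ n from hx) (by omega))))).1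

theorem kerT_eq (n : ℕ) (K J : AddSubgroup ℤ_[p][X]) : kerT n K J = J.comap (tmHom n) ⊓ K := by
  ext x
  constructor
  · intro h
    exact ⟨h.2, h.1⟩
  · intro h
    exact ⟨h.2, h.1⟩

/-- The main bound. -/
theorem kerT_bound (n h : ℕ) (J : AddSubgroup ℤ_[p][X]) (hJn : J ≤ Pn p n) (hJ : pPn p n h ≤ J)
    (hT : ∀ f ∈ J, symAct n (mx mT) f ∈ J) :
    J.relIndex (kerT n (Pn p n) J) ≠ 0 ∧ J.relIndex (kerT n (Pn p n) J) ≤ p ^ (h + n) := by
  have hJk : J ≤ kerT n (Pn p n) J := fun x hx => ⟨hJn hx, J.sub_mem (hT x hx) hx⟩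
  have hkP : kerT n (Pn p n) J ≤ Pn p n := fun x hx => hx.1
  have h0 := pPn_relIndex_ne_zero (p := p) n h J hJ
  have h1 := AddSubgroup.relIndex_mul_relIndex _ _ _ hJk hkP
  have hD : ((Pn p n).map (tmHom n)) ⊔ J ≤ Pn p n := by
    refine sup_le ?_ hJn
    rintro _ ⟨x, hx, rfl⟩
    exact (Pn p n).sub_mem (symAct_gT_mem n x) hx
  have h2 := AddSubgroup.relIndex_mul_relIndex J (((Pn p n).map (tmHom n)) ⊔ J) (Pn p n)
    le_sup_right hD
  rw [AddSubgroup.relIndex_sup_right] at h2
  have h3 : (kerT n (Pn p n) J).relIndex (Pn p n) = J.relIndex ((Pn p n).map (tmHom n)) := by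
    rw [kerT_eq, AddSubgroup.inf_relIndex_right, AddSubgroup.relIndex_comap]
  rw [h3, mul_comm] at h1
  have h4 : J.relIndex ((Pn p n).map (tmHom n)) ≠ 0 := by
    intro h5
    rw [h5, zero_mul] at h1
    exact h0 h1.symm
  have h5 : J.relIndex (kerT n (Pn p n) J) =
      (((Pn p n).map (tmHom n)) ⊔ J).relIndex (Pn p n) :=
    Nat.eq_of_mul_eq_mul_left (Nat.pos_of_ne_zero h4) (h1.trans h2.symm)
  refine ⟨?_, ?_⟩
  · intro h6
    rw [h6, mul_zero] at h1
    exact h0 h1.symm
  · rw [h5]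
    exact coker_le n h J hJ

theorem logb_relIndex_le (p : ℕ) [Fact p.Prime] (r m : ℕ) (h : r ≤ p ^ m) :
    Real.logb p r ≤ m := by
  have hp : p.Prime := Fact.out
  have hp1 : (1 : ℝ) < p := by exact_mod_cast hp.one_lt
  rcases Nat.eq_zero_or_pos r with h0 | h0
  · subst h0
    simp
  · rw [Real.logb_le_iff_le_rpow hp1 (by exact_mod_cast h0), Real.rpow_natCast]
    exact_mod_cast h

end Gou.BKerTAux

namespace Gou

open BKerTAux in
theorem bKerT : BKerT := by
  intro p _ n h
  refine ⟨?_, ?_⟩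
  · intro J hJn hJ hS
    have h1 := (kerT_bound n h J hJn hJ (hS mT)).2
    have h2 := logb_relIndex_le p _ _ h1
    push_cast at h2
    exact h2
  · intro K hK hS
    have hJT : ∀ f ∈ pPn p n h, symAct n (mx mT) f ∈ pPn p n h := by
      rintro f ⟨hf1, hf2⟩
      refine ⟨symAct_gT_mem n f, ?_⟩
      intro i
      rw [symAct_gT, Polynomial.finsetSum_coeff]
      refine Finset.dvd_sum fun j _ => ?_
      rw [Polynomial.coeff_C_mul]
      exact Dvd.dvd.mul_right (hf2 j) _
    have h1 := kerT_bound n h (pPn p n h) (fun x hx => hx.1) le_rfl hJT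
    have h2 : (K ⊓ pPn p n h).relIndex (kerT n K (K ⊓ pPn p n h)) =
        (pPn p n h).relIndex (kerT n K (K ⊓ pPn p n h)) := by
      have h3 : K ⊓ pPn p n h ⊓ kerT n K (K ⊓ pPn p n h) =
          pPn p n h ⊓ kerT n K (K ⊓ pPn p n h) := by
        ext x
        constructor
        · intro hx
          exact ⟨hx.1.2, hx.2⟩
        · intro hx
          exact ⟨⟨hx.2.1, hx.1⟩, hx.2⟩
      rw [← AddSubgroup.inf_relIndex_right, h3, AddSubgroup.inf_relIndex_right]
    have h4 : kerT n K (K ⊓ pPn p n h) ≤ kerT n (Pn p n) (pPn p n h) :=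
      fun x hx => ⟨hK hx.1, hx.2.2⟩
    have h5 := AddSubgroup.relIndex_le_of_le_right h4 h1.1
    rw [h2]
    have h6 := logb_relIndex_le p _ _ (h5.trans h1.2)
    push_cast at h6
    exact h6

end Gou

end
end

section

/-!
Module B, item BLat: the kernel of the norm on a lattice modulo `p^j`.
-/

open Finset

noncomputable section

namespace Gou

/-- The subgroup `p^j W`. -/
def pW (p : ℕ) [Fact p.Prime] (W : Type) [AddCommGroup W] [Module ℤ_[p] W] (j : ℕ) :
    AddSubgroup W where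
  carrier := {x | ∃ y : W, x = ((p : ℤ_[p]) ^ j) • y}
  add_mem' := by
    rintro _ _ ⟨a, rfl⟩ ⟨b, rfl⟩
    exact ⟨a + b, by rw [smul_add]⟩
  zero_mem' := ⟨0, by rw [smul_zero]⟩
  neg_mem' := by
    rintro _ ⟨a, rfl⟩
    exact ⟨-a, by rw [smul_neg]⟩

theorem mem_pW {p : ℕ} [Fact p.Prime] {W : Type} [AddCommGroup W] [Module ℤ_[p] W] {j : ℕ}
    {x : W} : x ∈ pW p W j ↔ ∃ y : W, x = ((p : ℤ_[p]) ^ j) • y := Iff.rfl

/-- The index of `p^j W` in `W`. -/
theorem index_pW (p : ℕ) [Fact p.Prime] (W : Type) [AddCommGroup W] [Module ℤ_[p] W]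
    [Module.Free ℤ_[p] W] [Module.Finite ℤ_[p] W] (j : ℕ) :
    (pW p W j).index = p ^ (j * Module.finrank ℤ_[p] W) := by
  classical
  let b := Module.finBasis ℤ_[p] W
  let f : W →+ (Fin (Module.finrank ℤ_[p] W) → ZMod (p ^ j)) :=
    { toFun := fun w i => PadicInt.toZModPow j (b.repr w i)
      map_zero' := by ext i; simp
      map_add' := fun x y => by ext i; simp }
  have hker : f.ker = pW p W j := by
    ext w
    rw [AddMonoidHom.mem_ker, mem_pW]
    constructor
    · intro h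
      have h1 : ∀ i, ∃ c : ℤ_[p], b.repr w i = (p : ℤ_[p]) ^ j * c := by
        intro i
        have h2 : PadicInt.toZModPow j (b.repr w i) = 0 := congrFun h i
        rw [← RingHom.mem_ker, PadicInt.ker_toZModPow, Ideal.mem_span_singleton] at h2
        exact h2
      choose c hc using h1
      refine ⟨∑ i, c i • b i, ?_⟩
      rw [Finset.smul_sum]
      conv_lhs => rw [← b.sum_repr w]
      refine Finset.sum_congr rfl fun i _ => ?_
      rw [hc, smul_smul]
    · rintro ⟨y, rfl⟩
      ext i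
      change PadicInt.toZModPow j (b.repr ((p : ℤ_[p]) ^ j • y) i) = 0
      rw [← RingHom.mem_ker, PadicInt.ker_toZModPow, Ideal.mem_span_singleton, map_smul,
        Finsupp.smul_apply, smul_eq_mul]
      exact dvd_mul_right _ _
  have hsurj : Function.Surjective f := by
    intro z
    have : ∀ i, ∃ c : ℤ_[p], PadicInt.toZModPow j c = z i := by
      intro i
      have : NeZero (p ^ j) := ⟨pow_ne_zero j (Fact.out : p.Prime).ne_zero⟩
      refine ⟨(((z i).val : ℕ) : ℤ_[p]), ?_⟩
      rw [map_natCast]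
      exact ZMod.natCast_zmod_val (z i)
    choose c hc using this
    refine ⟨∑ i, c i • b i, ?_⟩
    ext i
    change PadicInt.toZModPow j (b.repr (∑ i, c i • b i) i) = z i
    rw [b.repr_sum_self, hc]
  rw [← hker, AddSubgroup.index_ker, AddMonoidHom.range_eq_top.2 hsurj, AddSubgroup.card_top,
    Nat.card_fun, Nat.card_zmod, Nat.card_fin, ← pow_mul]

theorem bLat : BLat := by
  intro p hp W _ _ _ _ g d j hd hg Kj Pj hPj hKj
  classical
  have hp0 : p ≠ 0 := hp.out.ne_zero
  have hPjW : Pj = pW p W j := by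
    ext x
    exact hPj x
  set N : W →ₗ[ℤ_[p]] W := ∑ i ∈ range d, g ^ i with hNdef
  have hNx : ∀ x, (∑ i ∈ range d, (g ^ i) x) = N x := by
    intro x
    rw [hNdef, LinearMap.sum_apply]
  -- `N * g = N`, `N * N = d N`
  have hNg : N * g = N := by
    rw [hNdef, Finset.sum_mul]
    have h1 := Finset.sum_range_succ' (fun i => g ^ i) d
    have h2 := Finset.sum_range_succ (fun i => g ^ i) d
    rw [h2, hg, pow_zero] at h1
    have h3 : ∑ i ∈ range d, g ^ i = ∑ i ∈ range d, g ^ (i + 1) := add_right_cancel h1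
    rw [h3]
    exact Finset.sum_congr rfl fun i _ => (pow_succ g i).symm.trans rfl |>.trans (by rw [pow_succ])
  have hNgi : ∀ i : ℕ, N * g ^ i = N := by
    intro i
    induction i with
    | zero => rw [pow_zero, mul_one]
    | succ i ih => rw [pow_succ, ← mul_assoc, ih, hNg]
  have hNN : N * N = d • N := by
    nth_rw 2 [hNdef]
    rw [Finset.mul_sum, Finset.sum_congr rfl (fun i _ => hNgi i), Finset.sum_const,
      Finset.card_range]
  have hPK : Pj ≤ Kj := by
    intro x hx
    obtain ⟨y, rfl⟩ := (hPj x).1 hx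
    rw [hKj, hNx, hPj]
    exact ⟨N y, by rw [map_smul]⟩
  have hindP : Pj.index ≠ 0 := by
    rw [hPjW, index_pW]
    exact pow_ne_zero _ hp0
  have hrel0 : ∀ L : AddSubgroup W, Pj ≤ L → Pj.relIndex L ≠ 0 := by
    intro L hL h0
    have := AddSubgroup.relIndex_dvd_index_of_le hL
    rw [h0, zero_dvd_iff] at this
    exact hindP this
  refine ⟨hrel0 Kj hPK, ?_⟩
  have hfinQ : Finite (W ⧸ Pj) := AddSubgroup.index_ne_zero_iff_finite.1 hindP
  -- multiplication by `d`
  let md : W →+ W := nsmulAddMonoidHom d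
  let π : W →+ W ⧸ Pj := QuotientAddGroup.mk' Pj
  have hπker : π.ker = Pj := QuotientAddGroup.ker_mk' Pj
  let f : W →+ W ⧸ Pj := π.comp md
  set D : AddSubgroup W := f.ker with hD
  have hmemD : ∀ x, x ∈ D ↔ d • x ∈ Pj := by
    intro x
    rw [hD, AddMonoidHom.mem_ker]
    change ((d • x : W) : W ⧸ Pj) = 0 ↔ _
    rw [QuotientAddGroup.eq_zero_iff]
  have hPD : Pj ≤ D := by
    intro x hx
    rw [hmemD]
    exact Pj.nsmul_mem hx d
  have hchain : Pj.relIndex (D ⊓ Kj) * (D ⊓ Kj).relIndex Kj = Pj.relIndex Kj :=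
    AddSubgroup.relIndex_mul_relIndex _ _ _ (le_inf hPD hPK) inf_le_right
  -- first factor
  have hfac2 : (D ⊓ Kj).relIndex Kj ≤
      p ^ (j * Module.finrank ℤ_[p] (LinearMap.ker N)) := by
    rw [AddSubgroup.inf_relIndex_right, hD, AddSubgroup.relIndex_ker]
    have hle : Kj.map f ≤ (LinearMap.ker N).toAddSubgroup.map π := by
      rintro _ ⟨x, hx, rfl⟩
      have hNP : N x ∈ Pj := by
        have := (hKj x).1 hx
        rwa [hNx] at this
      refine ⟨d • x - N x, ?_, ?_⟩
      · change N (d • x - N x) = 0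
        rw [map_sub, map_nsmul]
        have : N (N x) = d • N x := by
          have := congrArg (fun T : W →ₗ[ℤ_[p]] W => T x) hNN
          exact this
        rw [this, sub_self]
      · change π (d • x - N x) = π (d • x)
        rw [map_sub]
        have : π (N x) = 0 := by
          rw [← AddMonoidHom.mem_ker, hπker]
          exact hNP
        rw [this, sub_zero]
    refine (AddSubgroup.card_le_of_le hle).trans ?_
    rw [← AddSubgroup.relIndex_ker, hπker]
    -- index of `Pj` in `ker N`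
    have hsub : pW p (LinearMap.ker N) j ≤ Pj.addSubgroupOf (LinearMap.ker N).toAddSubgroup := by
      rintro x ⟨y, rfl⟩
      rw [AddSubgroup.mem_addSubgroupOf, hPj]
      exact ⟨(y : W), rfl⟩
    have h5 := AddSubgroup.index_dvd_of_le hsub
    have h6 : (pW p (LinearMap.ker N) j).index ≠ 0 := by
      rw [index_pW]
      exact pow_ne_zero _ hp0
    rw [← index_pW p (LinearMap.ker N) j]
    exact Nat.le_of_dvd (Nat.pos_of_ne_zero h6) h5
  have hfac1 : Pj.relIndex (D ⊓ Kj) ≤ p ^ (padicValNat p d * Module.finrank ℤ_[p] W) := by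
    have h1 : Pj.relIndex (D ⊓ Kj) ≤ Pj.relIndex D := by
      have h2 := AddSubgroup.relIndex_mul_relIndex Pj (D ⊓ Kj) D (le_inf hPD hPK) inf_le_left
      exact Nat.le_of_dvd (Nat.pos_of_ne_zero (hrel0 D hPD)) ⟨_, h2.symm⟩
    refine h1.trans ?_
    -- `[D : Pj]` is the cardinality of the kernel of multiplication by `d` on `W / Pj`
    let φ : (W ⧸ Pj) →+ (W ⧸ Pj) := nsmulAddMonoidHom d
    have h3 : Pj.relIndex D = Nat.card φ.ker := by
      have h4 := AddSubgroup.relIndex_ker D π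
      rw [hπker] at h4
      rw [h4]
      have h5 : D.map π = φ.ker := by
        ext q
        constructor
        · rintro ⟨x, hx, rfl⟩
          rw [AddMonoidHom.mem_ker]
          change d • π x = 0
          rw [← map_nsmul, ← AddMonoidHom.mem_ker, hπker]
          exact (hmemD x).1 hx
        · intro hq
          obtain ⟨x, rfl⟩ := QuotientAddGroup.mk'_surjective Pj q
          refine ⟨x, ?_, rfl⟩
          have hq' : d • π x = 0 := hq
          rw [← map_nsmul, ← AddMonoidHom.mem_ker, hπker] at hq'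
          exact (hmemD x).2 hq'
      rw [h5]
    rw [h3, ← AddSubgroup.index_range,
      ← AddSubgroup.index_comap_of_surjective (f := π) _ (QuotientAddGroup.mk'_surjective Pj)]
    have h6 : pW p W (padicValNat p d) ≤ φ.range.comap π := by
      rintro x ⟨y, rfl⟩
      rw [AddSubgroup.mem_comap]
      -- `p^v y = d (u⁻¹ y)`
      have hd0 : d ≠ 0 := by omega
      have hdec : p ^ padicValNat p d * (d / p ^ padicValNat p d) = d := by
        have := Nat.ordProj_mul_ordCompl_eq_self d p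
        rwa [Nat.factorization_def d hp.out] at this
      have hcop : p.Coprime (d / p ^ padicValNat p d) := by
        have := Nat.coprime_ordCompl hp.out hd0
        rwa [Nat.factorization_def d hp.out] at this
      have hunit : IsUnit (((d / p ^ padicValNat p d : ℕ) : ℤ_[p])) :=
        PadicInt.isUnit_iff.2 (PadicInt.norm_natCast_eq_one_iff.2 hcop)
      obtain ⟨u, hu⟩ := hunit
      refine ⟨π ((u⁻¹ : ℤ_[p]ˣ) • y), ?_⟩
      change d • π _ = π _
      rw [← map_nsmul]
      congr 1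
      have h7 : ((d : ℕ) : ℤ_[p]) = (p : ℤ_[p]) ^ padicValNat p d * (u : ℤ_[p]) := by
        rw [hu, ← Nat.cast_pow, ← Nat.cast_mul, hdec]
      rw [← Nat.cast_smul_eq_nsmul ℤ_[p] d, h7, mul_smul]
      congr 1
      exact smul_inv_smul u y
    have h8 := AddSubgroup.index_dvd_of_le h6
    have h9 : (pW p W (padicValNat p d)).index ≠ 0 := by
      rw [index_pW]
      exact pow_ne_zero _ hp0
    rw [← index_pW p W (padicValNat p d)]
    exact Nat.le_of_dvd (Nat.pos_of_ne_zero h9) h8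
  rw [← hchain, pow_add, mul_comm]
  exact Nat.mul_le_mul hfac2 hfac1

end Gou

end
end

section

/-!
B5b. Products and easy facts about `I_m`.
-/

open scoped MatrixGroups Polynomial
open CongruenceSubgroup

noncomputable section

namespace Gou

theorem bprod_dvdP_iff {R : Type*} [CommRing R] (q : R) (f : R[X]) :
    dvdP q f ↔ Polynomial.C q ∣ f := (Polynomial.C_dvd_iff_dvd_coeff q f).symm

theorem bprod_dvdP_symAct {R : Type*} [CommRing R] (q : R) (f : R[X]) (n : ℕ)
    (g : Matrix (Fin 2) (Fin 2) ℤ) (h : dvdP q f) : dvdP q (symAct n g f) := by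
  rw [bprod_dvdP_iff] at h ⊢
  obtain ⟨f1, rfl⟩ := h
  rw [← Polynomial.smul_eq_C_mul, symAct_smul, Polynomial.smul_eq_C_mul]
  exact dvd_mul_right _ _

theorem bprod_theta_deg (p : ℕ) [Fact p.Prime] : (Theta p).natDegree ≤ p := by
  rw [Theta]
  refine (Polynomial.natDegree_sub_le _ _).trans (max_le ?_ ?_)
  · exact Polynomial.natDegree_X_pow_le p
  · exact Polynomial.natDegree_X_le.trans (Fact.out : p.Prime).one_le

/-- Values of the action on `X^p - X` (degree `p + 1`). -/
theorem bprod_symAct_theta (p : ℕ) [Fact p.Prime] (g : Matrix (Fin 2) (Fin 2) ℤ) :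
    symAct (p + 1) g (Theta p) =
      (Polynomial.C (g 0 0 : ℤ_[p]) * Polynomial.X + Polynomial.C (g 0 1 : ℤ_[p])) ^ p *
        (Polynomial.C (g 1 0 : ℤ_[p]) * Polynomial.X + Polynomial.C (g 1 1 : ℤ_[p])) -
      (Polynomial.C (g 0 0 : ℤ_[p]) * Polynomial.X + Polynomial.C (g 0 1 : ℤ_[p])) *
        (Polynomial.C (g 1 0 : ℤ_[p]) * Polynomial.X + Polynomial.C (g 1 1 : ℤ_[p])) ^ p := by
  have hp2 : 2 ≤ p := (Fact.out : p.Prime).two_le
  have hcoef : ∀ i, (Theta p).coeff i = (if i = p then 1 else 0) - (if i = 1 then 1 else 0) := by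
    intro i
    rw [Theta, Polynomial.coeff_sub, Polynomial.coeff_X_pow, Polynomial.coeff_X]
    simp only [eq_comm (a := (1 : ℕ))]
  rw [symAct]
  set A := (Polynomial.C (g 0 0 : ℤ_[p]) * Polynomial.X + Polynomial.C (g 0 1 : ℤ_[p])) with hA
  set D := (Polynomial.C (g 1 0 : ℤ_[p]) * Polynomial.X + Polynomial.C (g 1 1 : ℤ_[p])) with hD
  have hterm : ∀ i ∈ Finset.range (p + 1 + 1),
      Polynomial.C ((Theta p).coeff i) * A ^ i * D ^ (p + 1 - i) =
        (if i = p then A ^ p * D else 0) - (if i = 1 then A * D ^ p else 0) := by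
    intro i _
    rw [hcoef i]
    by_cases h1 : i = p
    · have h2 : i ≠ 1 := by omega
      rw [if_pos h1, if_neg h2, if_pos h1, if_neg h2, h1]
      simp
    · by_cases h2 : i = 1
      · rw [if_neg h1, if_pos h2, if_neg h1, if_pos h2, h2]
        simp
      · rw [if_neg h1, if_neg h2, if_neg h1, if_neg h2]
        simp
  rw [Finset.sum_congr rfl hterm, Finset.sum_sub_distrib, Finset.sum_ite_eq',
    Finset.sum_ite_eq', if_pos (by simp), if_pos (by simp)]

theorem bprod_theta_mem (p : ℕ) [Fact p.Prime] : Theta p ∈ Ip p (p + 1) 1 := by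
  refine ⟨(bprod_theta_deg p).trans (by omega), fun γ => ?_⟩
  rw [bprod_symAct_theta, pow_one, bprod_dvdP_iff]
  set a : ℤ := γ 0 0 with ha
  set b : ℤ := γ 0 1 with hb
  set c : ℤ := γ 1 0 with hc
  set d : ℤ := γ 1 1 with hd
  have e00 : (mx γ * dp p) 0 0 = a := by simp [Matrix.mul_apply, Fin.sum_univ_two, dp, mx, ha]
  have e01 : (mx γ * dp p) 0 1 = b * p := by simp [Matrix.mul_apply, Fin.sum_univ_two, dp, mx, hb]
  have e10 : (mx γ * dp p) 1 0 = c := by simp [Matrix.mul_apply, Fin.sum_univ_two, dp, mx, hc]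
  have e11 : (mx γ * dp p) 1 1 = d * p := by simp [Matrix.mul_apply, Fin.sum_univ_two, dp, mx, hd]
  rw [e00, e01, e10, e11]
  set I : Ideal ℤ_[p][X] := Ideal.span {Polynomial.C (p : ℤ_[p])} with hI
  rw [← Ideal.mem_span_singleton, ← hI, ← Ideal.Quotient.eq_zero_iff_mem]
  have hp0 : Ideal.Quotient.mk I (Polynomial.C (p : ℤ_[p])) = 0 := by
    rw [Ideal.Quotient.eq_zero_iff_mem, hI]
    exact Ideal.mem_span_singleton_self _
  have hfer : ∀ z : ℤ, Ideal.Quotient.mk I (Polynomial.C ((z : ℤ) : ℤ_[p])) ^ p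
      = Ideal.Quotient.mk I (Polynomial.C ((z : ℤ) : ℤ_[p])) := by
    intro z
    rw [← map_pow, ← map_pow, ← sub_eq_zero, ← map_sub, ← map_sub]
    have h1 : ((p : ℤ)) ∣ z ^ p - z := by
      have h2 : ((z ^ p - z : ℤ) : ZMod p) = 0 := by
        push_cast
        rw [ZMod.pow_card, sub_self]
      exact (ZMod.intCast_zmod_eq_zero_iff_dvd _ _).1 h2
    obtain ⟨k, hk⟩ := h1
    have h3 : (z : ℤ_[p]) ^ p - (z : ℤ_[p]) = (p : ℤ_[p]) * (k : ℤ_[p]) := by
      exact_mod_cast congrArg (fun t : ℤ => (t : ℤ_[p])) hk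
    rw [h3, map_mul, map_mul, hp0, zero_mul]
  have hbp : Ideal.Quotient.mk I (Polynomial.C ((b * p : ℤ) : ℤ_[p])) = 0 := by
    push_cast
    rw [map_mul, map_mul, hp0, mul_zero]
  have hdp : Ideal.Quotient.mk I (Polynomial.C ((d * p : ℤ) : ℤ_[p])) = 0 := by
    push_cast
    rw [map_mul, map_mul, hp0, mul_zero]
  simp only [map_sub, map_mul, map_add, map_pow, hbp, hdp, add_zero]
  rw [mul_pow, mul_pow, hfer, hfer]
  ring

theorem bprod_stab (h1 : BComp) (p : ℕ) [Fact p.Prime] (n m : ℕ) : Stab n (Ip p n m) := by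
  intro γ' f hf
  refine ⟨(h1 _ n (mx γ') 1 f hf.1).2.1, fun γ => ?_⟩
  have h2 := (h1 _ n (mx γ') (mx γ * dp p) f hf.1).1
  rw [← h2, ← mul_assoc]
  have h3 : mx γ' * mx γ = mx (γ' * γ) := by simp [mx]
  rw [h3]
  exact hf.2 (γ' * γ)

theorem bProd (h1 : BComp) (h2 : BMul) : BProd := by
  intro p _
  refine ⟨?_, bprod_theta_mem p, ?_, bprod_stab h1 p, ?_, ?_, ?_, ?_⟩
  · intro n n' a b F G hF hG
    refine ⟨Polynomial.natDegree_mul_le.trans (Nat.add_le_add hF.1 hG.1), fun γ => ?_⟩
    have h3 := hF.2 γ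
    have h4 := hG.2 γ
    rw [h2 _ n n' _ F G hF.1 hG.1]
    rw [bprod_dvdP_iff] at h3 h4 ⊢
    rw [pow_add, map_mul]
    exact mul_dvd_mul h3 h4
  · intro n m F hF
    exact ⟨hF.1, fun γ => bprod_dvdP_symAct _ _ _ _ hF.2⟩
  · intro n m m' hm F hF
    exact ⟨hF.1, fun γ i => (pow_dvd_pow _ hm).trans (hF.2 γ i)⟩
  · intro n
    ext F
    constructor
    · intro hF
      exact hF.1
    · intro hF
      refine ⟨hF, fun γ i => ?_⟩
      rw [pow_zero]
      exact one_dvd _
  · intro n h γ f hf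
    exact ⟨(h1 _ n (mx γ) 1 f hf.1).2.1, bprod_dvdP_symAct _ _ _ _ hf.2⟩
  · intro n γ f hf
    exact (h1 _ n (mx γ) 1 f hf).2.1

end Gou

end
end

section

/-!
B5a for MP_602313_nt: one step of the division by `Θ`.
-/

open scoped MatrixGroups Polynomial
open CongruenceSubgroup

noncomputable section

namespace Gou

namespace StepAux

variable {p : ℕ} [Fact p.Prime]

theorem theta_monic : (Theta p).Monic := by
  unfold Theta
  apply Polynomial.monic_X_pow_sub
  rw [Polynomial.degree_X]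
  exact_mod_cast (Fact.out : p.Prime).one_lt

theorem theta_natDegree : (Theta p).natDegree = p := by
  unfold Theta
  rw [Polynomial.natDegree_sub_eq_left_of_natDegree_lt, Polynomial.natDegree_X_pow]
  rw [Polynomial.natDegree_X_pow, Polynomial.natDegree_X]
  exact (Fact.out : p.Prime).one_lt

/-- Division. -/
theorem divide (n : ℕ) (hn : p + 1 ≤ n) (F : ℤ_[p][X]) (hF : F.natDegree ≤ n) :
    ∃ R G : ℤ_[p][X], F = R + Theta p * G ∧ G.natDegree ≤ n - (p + 1) ∧ R.natDegree ≤ n ∧
    (∀ i, p ≤ i → i ≠ n → R.coeff i = 0) := by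
  set f : ℤ_[p][X] := F - Polynomial.C (F.coeff n) * Polynomial.X ^ n with hf
  have hfdeg : f.natDegree ≤ n - 1 := by
    rw [Polynomial.natDegree_le_iff_coeff_eq_zero]
    intro i hi
    rw [hf, Polynomial.coeff_sub, Polynomial.coeff_C_mul_X_pow]
    by_cases h : i = n
    · rw [if_pos h, h, sub_self]
    · rw [if_neg h, sub_zero]
      exact Polynomial.coeff_eq_zero_of_natDegree_lt (by omega)
  have hdiv := Polynomial.modByMonic_add_div f (Theta p)
  have hr : (f %ₘ Theta p).natDegree < p := by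
    have h1 : Theta p ≠ 1 := by
      intro h
      have := theta_natDegree (p := p)
      rw [h, Polynomial.natDegree_one] at this
      exact (Fact.out : p.Prime).ne_zero this.symm
    have := Polynomial.natDegree_modByMonic_lt f (theta_monic (p := p)) h1
    rwa [theta_natDegree] at this
  refine ⟨f %ₘ Theta p + Polynomial.C (F.coeff n) * Polynomial.X ^ n, f /ₘ Theta p, ?_, ?_, ?_, ?_⟩
  · calc F = f + Polynomial.C (F.coeff n) * Polynomial.X ^ n := by rw [hf]; ring
      _ = (f %ₘ Theta p + Theta p * (f /ₘ Theta p)) +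
          Polynomial.C (F.coeff n) * Polynomial.X ^ n := by rw [hdiv]
      _ = _ := by ring
  · rw [Polynomial.natDegree_divByMonic _ theta_monic, theta_natDegree]
    omega
  · refine (Polynomial.natDegree_add_le _ _).trans (max_le ?_ ?_)
    · omega
    · exact Polynomial.natDegree_C_mul_X_pow_le _ _
  · intro i hpi hin
    rw [Polynomial.coeff_add, Polynomial.coeff_C_mul_X_pow, if_neg hin, add_zero]
    exact Polynomial.coeff_eq_zero_of_natDegree_lt (by omega)

/-- A polynomial of degree less than `p` whose values at `p` points, distinct modulo `p`, are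
divisible by `p^k` is divisible by `p^k`. -/
theorem vandermonde (β : Fin p → ℤ_[p])
    (hβ : Function.Injective fun b => PadicInt.toZMod (p := p) (β b)) (k : ℕ) :
    ∀ r : ℤ_[p][X], r.natDegree < p → (∀ b, (p : ℤ_[p]) ^ k ∣ r.eval (β b)) →
      dvdP ((p : ℤ_[p]) ^ k) r := by
  have hp0 : (p : ℤ_[p]) ≠ 0 := by exact_mod_cast (Fact.out : p.Prime).ne_zero
  induction k with
  | zero => intro r _ _ i; simp
  | succ k ih =>
    intro r hr h
    have h1 : r.map (PadicInt.toZMod (p := p)) = 0 := by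
      apply Polynomial.eq_zero_of_natDegree_lt_card_of_eval_eq_zero _ hβ
      · intro b
        rw [Polynomial.eval_map, Polynomial.eval₂_at_apply]
        obtain ⟨c, hc⟩ := h b
        rw [hc, pow_succ, mul_assoc, mul_comm, map_mul, map_mul, map_natCast, ZMod.natCast_self]
        simp
      · rw [Fintype.card_fin]
        exact lt_of_le_of_lt Polynomial.natDegree_map_le hr
    have h2 : dvdP (p : ℤ_[p]) r := by
      intro i
      have := congrArg (fun q => Polynomial.coeff q i) h1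
      simp only [Polynomial.coeff_map, Polynomial.coeff_zero] at this
      have h3 : r.coeff i ∈ RingHom.ker (PadicInt.toZMod (p := p)) := this
      rw [PadicInt.ker_toZMod, PadicInt.maximalIdeal_eq_span_p] at h3
      exact Ideal.mem_span_singleton.1 h3
    obtain ⟨r', hr'⟩ := (Polynomial.C_dvd_iff_dvd_coeff _ r).2 h2
    have hdeg : r'.natDegree < p := by
      rw [hr', Polynomial.natDegree_C_mul hp0] at hr
      exact hr
    have h4 := ih r' hdeg (fun b => by
      have h5 := h b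
      rw [hr', Polynomial.eval_mul, Polynomial.eval_C, pow_succ'] at h5
      exact (mul_dvd_mul_iff_left hp0).1 h5)
    intro i
    rw [hr', Polynomial.coeff_C_mul, pow_succ']
    exact mul_dvd_mul_left _ (h4 i)

/-- Values of the elements of `I_m` at integers. -/
theorem value (h : BComp) (n m : ℕ) (F : ℤ_[p][X]) (hF : InI p n m F) (β : ℤ) :
    (p : ℤ_[p]) ^ m ∣ F.eval (β : ℤ_[p]) := by
  obtain ⟨hdeg, hγ⟩ := hF
  let γ : SL(2, ℤ) := ⟨!![β, -1; 1, 0], by simp [Matrix.det_fin_two]⟩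
  have h1 := hγ γ (n - 0)
  have e1 : mx γ * dp p = !![1, β; 0, 1] * !![0, -(p : ℤ); 1, 0] := by
    show !![β, -1; 1, 0] * dp p = _
    unfold dp
    ext i j
    fin_cases i <;> fin_cases j <;> simp [Matrix.mul_apply, Fin.sum_univ_two]
  rw [e1, (h ℤ_[p] n _ _ F hdeg).1, JetAux.symAct_shift n _ F hdeg,
    JetAux.coeff_anti n _ _ 0 (by omega), pow_zero, one_mul, Polynomial.taylor_coeff_zero] at h1
  exact h1

/-- The leading coefficient of an element of `I_m`. -/
theorem lead (n m : ℕ) (F : ℤ_[p][X]) (hF : InI p n m F) : (p : ℤ_[p]) ^ m ∣ F.coeff n := by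
  have h1 := hF.2 1 n
  have e1 : mx 1 * dp p = dp p := by
    show (1 : Matrix (Fin 2) (Fin 2) ℤ) * dp p = dp p
    rw [one_mul]
  rw [e1, JetAux.coeff_dp n p F n le_rfl, Nat.sub_self, pow_zero, mul_one] at h1
  exact h1

theorem fermat (b : ℤ) : (p : ℤ) ∣ b ^ p - b := by
  have h : ((b ^ p - b : ℤ) : ZMod p) = 0 := by
    push_cast
    rw [ZMod.pow_card, sub_self]
  exact (ZMod.intCast_zmod_eq_zero_iff_dvd _ _).1 h

theorem fermat' (b : ℤ) : ∃ k : ℤ, b ^ p = b + p * k := by
  obtain ⟨k, hk⟩ := fermat (p := p) b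
  exact ⟨k, by linarith⟩

theorem theta_value (m : ℕ) (b : ℤ) :
    (p : ℤ_[p]) ^ m ∣ (Theta p).eval ((b ^ (p ^ m) : ℤ) : ℤ_[p]) := by
  have h1 : (p : ℤ) ^ (m + 1) ∣ (b ^ p) ^ p ^ m - b ^ p ^ m :=
    dvd_sub_pow_of_dvd_sub (fermat (p := p) b) m
  have h2 : (p : ℤ) ^ m ∣ (b ^ p) ^ p ^ m - b ^ p ^ m := (pow_dvd_pow _ (Nat.le_succ m)).trans h1
  have h3 : (Theta p).eval ((b ^ (p ^ m) : ℤ) : ℤ_[p]) = (((b ^ p) ^ p ^ m - b ^ p ^ m : ℤ) : ℤ_[p]) := by
    unfold Theta
    rw [Polynomial.eval_sub, Polynomial.eval_pow, Polynomial.eval_X]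
    push_cast
    ring
  rw [h3]
  obtain ⟨c, hc⟩ := h2
  exact ⟨(c : ℤ_[p]), by rw [hc]; push_cast; ring⟩

theorem nodes_inj (m : ℕ) : Function.Injective fun b : Fin p =>
    PadicInt.toZMod (p := p) (((((b : ℕ) : ℤ) ^ (p ^ m) : ℤ) : ℤ_[p])) := by
  intro b b' h
  have h1 : ∀ b : Fin p, PadicInt.toZMod (p := p) (((((b : ℕ) : ℤ) ^ (p ^ m) : ℤ) : ℤ_[p])) =
      ((b : ℕ) : ZMod p) := by
    intro b
    push_cast
    rw [map_pow, map_natCast, ZMod.pow_card_pow]
  simp only [h1] at h
  have h2 := (ZMod.natCast_eq_natCast_iff' _ _ _).1 h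
  rw [Nat.mod_eq_of_lt b.2, Nat.mod_eq_of_lt b'.2] at h2
  exact Fin.ext h2

theorem symAct_X_pow (n : ℕ) (g : Matrix (Fin 2) (Fin 2) ℤ) (i : ℕ) (hi : i ≤ n) :
    symAct n g (Polynomial.X ^ i : ℤ_[p][X]) =
      (Polynomial.C (g 0 0 : ℤ_[p]) * Polynomial.X + Polynomial.C (g 0 1 : ℤ_[p])) ^ i *
      (Polynomial.C (g 1 0 : ℤ_[p]) * Polynomial.X + Polynomial.C (g 1 1 : ℤ_[p])) ^ (n - i) := by
  unfold symAct
  rw [Finset.sum_eq_single i]
  · rw [Polynomial.coeff_X_pow, if_pos rfl, Polynomial.C_1, one_mul]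
  · intro j _ hji
    rw [Polynomial.coeff_X_pow, if_neg hji, Polynomial.C_0, zero_mul, zero_mul]
  · intro h
    exact absurd (Finset.mem_range.2 (by omega)) h

theorem pow_approx (a b : ℤ) : ∃ A : ℤ_[p][X],
    (Polynomial.C (a : ℤ_[p]) * Polynomial.X + Polynomial.C ((p : ℤ_[p]) * b)) ^ p =
      Polynomial.C ((a : ℤ_[p]) ^ p) * Polynomial.X ^ p + Polynomial.C ((p : ℤ_[p]) ^ 2) * A := by
  have h1 : ((p : ℕ) : ℤ_[p][X]) ∣ (Polynomial.C (a : ℤ_[p]) * Polynomial.X +
      Polynomial.C ((p : ℤ_[p]) * b)) - Polynomial.C (a : ℤ_[p]) * Polynomial.X := by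
    refine ⟨Polynomial.C (b : ℤ_[p]), ?_⟩
    rw [add_sub_cancel_left, Polynomial.C_mul, ← Polynomial.C_eq_natCast]
  have h2 := dvd_sub_pow_of_dvd_sub h1 1
  rw [pow_one] at h2
  obtain ⟨A, hA⟩ := h2
  refine ⟨A, ?_⟩
  have h3 : ((p : ℕ) : ℤ_[p][X]) ^ (1 + 1) = Polynomial.C ((p : ℤ_[p]) ^ 2) := by
    rw [← Polynomial.C_eq_natCast, ← Polynomial.C_pow]
  rw [h3] at hA
  rw [sub_eq_iff_eq_add] at hA
  rw [hA, mul_pow, ← Polynomial.C_pow, add_comm]

/-- `Θ · γ · diag(1,p) = p P` with `P` primitive. -/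
theorem theta_act (γ : SL(2, ℤ)) : ∃ P : ℤ_[p][X],
    symAct (p + 1) (mx γ * dp p) (Theta p) = Polynomial.C (p : ℤ_[p]) * P ∧
      ¬ (p : ℤ_[p]) ∣ P.coeff p := by
  have hp2 := (Fact.out : p.Prime).two_le
  obtain ⟨a, b, c, d, hg, hdet⟩ : ∃ a b c d : ℤ, mx γ * dp p = !![a, b * p; c, d * p] ∧
      a * d - b * c = 1 := by
    refine ⟨γ 0 0, γ 0 1, γ 1 0, γ 1 1, ?_, ?_⟩
    · unfold dp
      ext i j
      fin_cases i <;> fin_cases j <;> simp [Matrix.mul_apply, Fin.sum_univ_two]
    · have := γ.det_coe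
      rw [Matrix.det_fin_two] at this
      linarith
  obtain ⟨ka, hka⟩ := fermat' (p := p) a
  obtain ⟨kc, hkc⟩ := fermat' (p := p) c
  obtain ⟨A, hA⟩ := pow_approx (p := p) a b
  obtain ⟨B, hB⟩ := pow_approx (p := p) c d
  set U : ℤ_[p][X] := Polynomial.C (a : ℤ_[p]) * Polynomial.X + Polynomial.C ((p : ℤ_[p]) * b) with hU
  set V : ℤ_[p][X] := Polynomial.C (c : ℤ_[p]) * Polynomial.X + Polynomial.C ((p : ℤ_[p]) * d) with hV
  have h1 : symAct (p + 1) (mx γ * dp p) (Theta p) = U ^ p * V - U * V ^ p := by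
    have e1 : Theta p = Polynomial.X ^ p + (-1 : ℤ_[p]) • Polynomial.X ^ 1 := by
      unfold Theta
      rw [pow_one, neg_one_smul, sub_eq_add_neg]
    rw [e1, symAct_add, symAct_smul, symAct_X_pow _ _ _ (by omega), symAct_X_pow _ _ _ (by omega),
      hg]
    have e2 : p + 1 - p = 1 := by omega
    have e3 : p + 1 - 1 = p := by omega
    rw [e2, e3]
    simp only [Matrix.of_apply, Matrix.cons_val', Matrix.cons_val_zero, Matrix.cons_val_one,
      Matrix.cons_val_fin_one, pow_one, neg_one_smul]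
    have e4 : ((b * (p : ℤ) : ℤ) : ℤ_[p]) = (p : ℤ_[p]) * b := by push_cast; ring
    have e5 : ((d * (p : ℤ) : ℤ) : ℤ_[p]) = (p : ℤ_[p]) * d := by push_cast; ring
    rw [e4, e5, ← sub_eq_add_neg]
  set K : ℤ := ka * c - a * kc with hK
  set D : ℤ := a ^ p * d - b * c ^ p with hD
  refine ⟨Polynomial.C (K : ℤ_[p]) * Polynomial.X ^ (p + 1) +
    Polynomial.C (D : ℤ_[p]) * Polynomial.X ^ p + Polynomial.C (p : ℤ_[p]) * (A * V - U * B), ?_, ?_⟩
  · rw [h1, hA, hB]
    have e1 : (a : ℤ_[p]) ^ p = (a : ℤ_[p]) + p * ka := by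
      have := congrArg (fun x : ℤ => (x : ℤ_[p])) hka
      push_cast at this
      exact this
    have e2 : (c : ℤ_[p]) ^ p = (c : ℤ_[p]) + p * kc := by
      have := congrArg (fun x : ℤ => (x : ℤ_[p])) hkc
      push_cast at this
      exact this
    have e3 : (K : ℤ_[p]) = ka * c - a * kc := by rw [hK]; push_cast; ring
    have e4 : (D : ℤ_[p]) = (a : ℤ_[p]) ^ p * d - b * (c : ℤ_[p]) ^ p := by
      rw [hD]; push_cast; ring
    rw [e3, e4, e1, e2, hU, hV]
    simp only [Polynomial.C_add, Polynomial.C_mul, Polynomial.C_sub, Polynomial.C_pow]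
    ring
  · rw [Polynomial.coeff_add, Polynomial.coeff_add, Polynomial.coeff_C_mul_X_pow,
      Polynomial.coeff_C_mul_X_pow, if_neg (by omega), if_pos rfl, zero_add,
      Polynomial.coeff_C_mul]
    intro h
    have h2 : (p : ℤ_[p]) ∣ (D : ℤ_[p]) := (dvd_add_left (dvd_mul_right _ _)).1 h
    have h3 : (D : ℤ_[p]) = 1 + p * ((ka * d - b * kc : ℤ) : ℤ_[p]) := by
      have : D = 1 + p * (ka * d - b * kc) := by
        rw [hD, hka, hkc, ← hdet]
        ring
      rw [this]
      push_cast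
      ring
    rw [h3] at h2
    have h4 : (p : ℤ_[p]) ∣ 1 := (dvd_add_left (dvd_mul_right _ _)).1 h2
    exact PadicInt.prime_p.not_isUnit (isUnit_of_dvd_one h4)

end StepAux

theorem bStep (h1 : BComp) (h2 : BMul) : BStep := by
  intro p _ n hn
  have hp0 : (p : ℤ_[p]) ≠ 0 := by exact_mod_cast (Fact.out : p.Prime).ne_zero
  refine ⟨fun F hF => StepAux.divide n hn F hF, ?_⟩
  intro R G m hG hR hRi
  have hG' : G.natDegree ≤ n - (p + 1) := hG
  have hR' : R.natDegree ≤ n := hR
  have hΘG : (Theta p * G).natDegree ≤ n - 1 := by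
    refine Polynomial.natDegree_mul_le.trans ?_
    rw [StepAux.theta_natDegree]
    omega
  have hΘdeg : (Theta p).natDegree ≤ p + 1 := by rw [StepAux.theta_natDegree]; omega
  have hact : ∀ g : Matrix (Fin 2) (Fin 2) ℤ, symAct n g (Theta p * G) =
      symAct (p + 1) g (Theta p) * symAct (n - (p + 1)) g G := by
    intro g
    have := h2 ℤ_[p] (p + 1) (n - (p + 1)) g (Theta p) G hΘdeg hG'
    rwa [Nat.add_sub_cancel' hn] at this
  -- elements divisible by p^m
  have hRact : dvdP ((p : ℤ_[p]) ^ m) R → ∀ g : Matrix (Fin 2) (Fin 2) ℤ,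
      Polynomial.C ((p : ℤ_[p]) ^ m) ∣ symAct n g R := by
    intro hd g
    obtain ⟨R₁, hR₁⟩ := (Polynomial.C_dvd_iff_dvd_coeff _ R).2 hd
    rw [hR₁, ← Polynomial.smul_eq_C_mul, symAct_smul, Polynomial.smul_eq_C_mul]
    exact dvd_mul_right _ _
  constructor
  · intro hF
    have hF' : InI p n m (R + Theta p * G) := hF
    have hlead : (p : ℤ_[p]) ^ m ∣ R.coeff n := by
      have := StepAux.lead n m _ hF'
      rw [Polynomial.coeff_add, Polynomial.coeff_eq_zero_of_natDegree_lt
        (lt_of_le_of_lt hΘG (by omega)), add_zero] at this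
      exact this
    have hRd : dvdP ((p : ℤ_[p]) ^ m) R := by
      set r : ℤ_[p][X] := R - Polynomial.C (R.coeff n) * Polynomial.X ^ n with hr
      have hri : ∀ i, p ≤ i → r.coeff i = 0 := by
        intro i hi
        rw [hr, Polynomial.coeff_sub, Polynomial.coeff_C_mul_X_pow]
        by_cases hin : i = n
        · rw [if_pos hin, hin, sub_self]
        · rw [if_neg hin, sub_zero]
          exact hRi i hi hin
      have hrdeg : r.natDegree < p := by
        have hp := (Fact.out : p.Prime).pos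
        have : r.natDegree ≤ p - 1 := by
          rw [Polynomial.natDegree_le_iff_coeff_eq_zero]
          intro i hi
          exact hri i (by omega)
        omega
      have hrd := StepAux.vandermonde (p := p)
        (fun b : Fin p => (((((b : ℕ) : ℤ) ^ (p ^ m) : ℤ) : ℤ_[p])))
        (StepAux.nodes_inj m) m r hrdeg (fun b => by
          have e1 : r.eval (((((b : ℕ) : ℤ) ^ (p ^ m) : ℤ) : ℤ_[p])) =
              (R + Theta p * G).eval (((((b : ℕ) : ℤ) ^ (p ^ m) : ℤ) : ℤ_[p])) -
              (Theta p).eval (((((b : ℕ) : ℤ) ^ (p ^ m) : ℤ) : ℤ_[p])) *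
                G.eval (((((b : ℕ) : ℤ) ^ (p ^ m) : ℤ) : ℤ_[p])) -
              R.coeff n * (((((b : ℕ) : ℤ) ^ (p ^ m) : ℤ) : ℤ_[p])) ^ n := by
            rw [hr, Polynomial.eval_sub, Polynomial.eval_add, Polynomial.eval_mul,
              Polynomial.eval_mul, Polynomial.eval_C, Polynomial.eval_pow, Polynomial.eval_X]
            ring
          show (p : ℤ_[p]) ^ m ∣ r.eval (((((b : ℕ) : ℤ) ^ (p ^ m) : ℤ) : ℤ_[p]))
          rw [e1]
          exact dvd_sub (dvd_sub (StepAux.value h1 n m _ hF' _)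
            ((StepAux.theta_value m _).mul_right _)) (hlead.mul_right _))
      intro i
      by_cases hin : i = n
      · rw [hin]; exact hlead
      · have := hrd i
        rw [hr, Polynomial.coeff_sub, Polynomial.coeff_C_mul_X_pow, if_neg hin, sub_zero] at this
        exact this
    refine ⟨hRd, hG', ?_⟩
    intro γ
    rcases m with _ | m
    · intro i; simp
    · obtain ⟨P, hP, hPp⟩ := StepAux.theta_act (p := p) γ
      have h3 := (Polynomial.C_dvd_iff_dvd_coeff _ _).2 (hF'.2 γ)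
      rw [symAct_add, hact, hP] at h3
      have h4 := (dvd_add_right (hRact hRd (mx γ * dp p))).1 h3
      rw [pow_succ', Polynomial.C_mul, mul_assoc] at h4
      have hC0 : Polynomial.C (p : ℤ_[p]) ≠ 0 := Polynomial.C_ne_zero.2 hp0
      have h5 := (mul_dvd_mul_iff_left hC0).1 h4
      rw [Polynomial.C_pow] at h5
      have hprime : Prime (Polynomial.C (p : ℤ_[p])) := Polynomial.prime_C_iff.2 PadicInt.prime_p
      have hnd : ¬ Polynomial.C (p : ℤ_[p]) ∣ P := fun hh =>
        hPp ((Polynomial.C_dvd_iff_dvd_coeff _ _).1 hh p)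
      have h6 := Prime.pow_dvd_of_dvd_mul_left hprime m hnd h5
      rw [← Polynomial.C_pow] at h6
      exact (Polynomial.C_dvd_iff_dvd_coeff _ _).1 h6
  · rintro ⟨hRd, hGI⟩
    refine ⟨(Polynomial.natDegree_add_le _ _).trans (max_le hR' (by omega)), ?_⟩
    intro γ
    refine (Polynomial.C_dvd_iff_dvd_coeff _ _).1 ?_
    rw [symAct_add]
    refine dvd_add (hRact hRd _) ?_
    rcases m with _ | m
    · simp
    · obtain ⟨P, hP, -⟩ := StepAux.theta_act (p := p) γ
      rw [hact, hP, pow_succ', Polynomial.C_mul, mul_assoc]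
      apply mul_dvd_mul_left
      exact ((Polynomial.C_dvd_iff_dvd_coeff _ _).2 (hGI.2 γ)).mul_left _

end Gou

end
end

section

/-!
B5d for MP_602313_nt: generators of `I_m`.
-/

open scoped MatrixGroups Polynomial
open CongruenceSubgroup

noncomputable section

namespace Gou

theorem bTheta (h : BStep) : BTheta := by
  intro p _ n m
  induction m generalizing n with
  | zero =>
    intro _ F hF
    refine ⟨fun _ => F, ?_, ?_⟩
    · intro i hi
      have : i = 0 := by omega
      subst this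
      show F.natDegree ≤ n - (p + 1) * 0
      rw [mul_zero, Nat.sub_zero]
      exact hF.1
    · rw [Finset.sum_range_succ, Finset.sum_range_zero, pow_zero, pow_zero, Polynomial.C_1, one_mul,
        one_mul, zero_add]
  | succ m ih =>
    intro hn F hF
    have hn1 : p + 1 ≤ n := le_trans (by rw [mul_add, mul_one]; omega) hn
    obtain ⟨h1, h2⟩ := h p n hn1
    obtain ⟨R, G, hFRG, hG, hR, hRi⟩ := h1 F hF.1
    rw [hFRG] at hF
    obtain ⟨hRd, hGI⟩ := (h2 R G (m + 1) hG hR hRi).1 hF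
    have hn2 : (p + 1) * m ≤ n - (p + 1) := by
      rw [mul_add, mul_one] at hn
      omega
    obtain ⟨G', hG'1, hG'2⟩ := ih (n - (p + 1)) hn2 G hGI
    obtain ⟨R', hR'⟩ := (Polynomial.C_dvd_iff_dvd_coeff _ R).2 hRd
    have hp0 : (p : ℤ_[p]) ^ (m + 1) ≠ 0 :=
      pow_ne_zero _ (by exact_mod_cast (Fact.out : p.Prime).ne_zero)
    have hR'deg : R'.natDegree ≤ n := by
      have : R.natDegree = R'.natDegree := by
        rw [hR', Polynomial.natDegree_C_mul hp0]
      rw [← this]
      exact hR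
    refine ⟨fun i => Nat.casesOn i R' G', ?_, ?_⟩
    · intro i hi
      rcases i with _ | i
      · show R'.natDegree ≤ n - (p + 1) * 0
        rw [mul_zero, Nat.sub_zero]
        exact hR'deg
      · have := hG'1 i (by omega)
        have e : n - (p + 1) * (i + 1) = n - (p + 1) - (p + 1) * i := by
          rw [mul_add, mul_one]
          omega
        rw [e]
        exact this
    · rw [hFRG, Finset.sum_range_succ', hR', hG'2, Finset.mul_sum, add_comm]
      congr 1
      · refine Finset.sum_congr rfl fun i _ => ?_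
        have e : m + 1 - (i + 1) = m - i := by omega
        show Theta p * (Polynomial.C ((p : ℤ_[p]) ^ (m - i)) * Theta p ^ i * G' i) =
          Polynomial.C ((p : ℤ_[p]) ^ (m + 1 - (i + 1))) * Theta p ^ (i + 1) * G' i
        rw [e]
        ring
      · show Polynomial.C ((p : ℤ_[p]) ^ (m + 1)) * R' =
          Polynomial.C ((p : ℤ_[p]) ^ (m + 1 - 0)) * Theta p ^ 0 * R'
        rw [pow_zero, mul_one, Nat.sub_zero]

end Gou

end
end

section

/-!
Module B: auxiliary lemmas for BRank and BImage (helper30).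
-/

open scoped MatrixGroups Polynomial
open CongruenceSubgroup

noncomputable section

namespace Gou.H30

theorem castSymb_mem (hM : BMap) {N n : ℕ} {φ : Vec → Vec → ℤ[X]} (hφ : φ ∈ Symb N n ℤ)
    (R : Type) [CommRing R] : castSymb R φ ∈ Symb N n R := by
  obtain ⟨h1, h2, h3, h4, h5⟩ := hφ
  refine ⟨?_, ?_, ?_, ?_, ?_⟩
  · intro r s
    exact Polynomial.natDegree_map_le.trans (h1 r s)
  · intro r s h
    simp [castSymb, h2 r s h]
  · intro r s t hr hs ht
    simp only [castSymb]
    rw [← h3 r s t hr hs ht, Polynomial.map_add]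
  · intro c r s hc
    simp only [castSymb]
    rw [h4 c r s hc]
  · intro γ hγ r s
    simp only [castSymb]
    rw [← (hM ℤ R (Int.castRingHom R) n _ _).1, h5 γ hγ r s]

theorem dvdP_cast {p : ℕ} [Fact p.Prime] {m : ℕ} {f : ℤ[X]}
    (h : dvdP ((p : ℤ_[p]) ^ m) (f.map (Int.castRingHom ℤ_[p]))) : dvdP ((p : ℤ) ^ m) f := by
  intro i
  have h1 := h i
  rw [Polynomial.coeff_map] at h1
  have h2 : (p : ℤ_[p]) ^ m ∣ ((f.coeff i : ℤ) : ℤ_[p]) := by simpa using h1
  have := (PadicInt.pow_p_dvd_int_iff m (f.coeff i)).mp h2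
  exact_mod_cast this

theorem relIndex_pPn (p : ℕ) [Fact p.Prime] (n j : ℕ) :
    (pPn p n j).relIndex (Pn p n) = p ^ (j * (n + 1)) := by
  let F : Pn p n →+ (Fin (n + 1) → ZMod (p ^ j)) :=
    { toFun := fun f i => PadicInt.toZModPow j ((f : ℤ_[p][X]).coeff i)
      map_zero' := by ext i; simp
      map_add' := by intro f g; ext i; simp }
  have hker : F.ker = (pPn p n j).addSubgroupOf (Pn p n) := by
    ext f
    rw [AddMonoidHom.mem_ker, AddSubgroup.mem_addSubgroupOf]
    constructor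
    · intro h
      refine ⟨f.2, ?_⟩
      intro i
      by_cases hi : i ≤ n
      · have h1 := congrFun h ⟨i, by omega⟩
        have h2 : PadicInt.toZModPow j ((f : ℤ_[p][X]).coeff i) = 0 := h1
        rw [← RingHom.mem_ker, PadicInt.ker_toZModPow, Ideal.mem_span_singleton] at h2
        exact h2
      · have : (f : ℤ_[p][X]).coeff i = 0 := by
          apply Polynomial.coeff_eq_zero_of_natDegree_lt
          have : (f : ℤ_[p][X]).natDegree ≤ n := f.2
          omega
        rw [this]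
        exact dvd_zero _
    · intro h
      ext i
      have h1 := h.2 i
      show PadicInt.toZModPow j ((f : ℤ_[p][X]).coeff i) = 0
      rw [← RingHom.mem_ker, PadicInt.ker_toZModPow, Ideal.mem_span_singleton]
      exact h1
  have hsurj : Function.Surjective F := by
    intro v
    have hs : ∀ i, ∃ x : ℤ_[p], PadicInt.toZModPow j x = v i := fun i =>
      ZMod.ringHom_surjective (PadicInt.toZModPow j) (v i)
    choose x hx using hs
    refine ⟨⟨∑ i : Fin (n + 1), Polynomial.monomial (i : ℕ) (x i), ?_⟩, ?_⟩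
    · show (∑ i : Fin (n + 1), Polynomial.monomial (i : ℕ) (x i)).natDegree ≤ n
      apply Polynomial.natDegree_sum_le_of_forall_le
      intro i _
      exact (Polynomial.natDegree_monomial_le _).trans (Nat.lt_succ_iff.mp i.2)
    · ext i
      show PadicInt.toZModPow j ((∑ i : Fin (n + 1), Polynomial.monomial (i : ℕ) (x i)).coeff i)
        = v i
      rw [Polynomial.finsetSum_coeff, Finset.sum_eq_single i]
      · rw [Polynomial.coeff_monomial, if_pos rfl, hx]
      · intro k _ hk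
        rw [Polynomial.coeff_monomial, if_neg]
        exact fun h => hk (Fin.ext h)
      · intro h
        exact absurd (Finset.mem_univ _) h
  rw [AddSubgroup.relIndex, ← hker, AddSubgroup.index_ker, AddMonoidHom.range_eq_top.mpr hsurj]
  rw [AddSubgroup.card_top, Nat.card_eq_fintype_card]
  have : NeZero (p ^ j) := ⟨pow_ne_zero _ (Fact.out : p.Prime).ne_zero⟩
  simp [ZMod.card, pow_mul]

end Gou.H30

end
end

section

/-!
MP_602313_nt, module C1 (helper5): separation of the eigencharacters.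
-/

open scoped MatrixGroups ModularForm UpperHalfPlane Manifold Pointwise
open CongruenceSubgroup UpperHalfPlane Matrix Matrix.SpecialLinearGroup ConjAct OnePoint

noncomputable section

namespace Gou

theorem f2_per {N : ℕ} {k : ℤ} (f : SN N k) (z : ℍ) : f (shPt 1 1 z) = f z := by
  have hT : ModularGroup.T ∈ Gamma0 N := by
    rw [Gamma0_mem]
    simp [ModularGroup.T]
  have h := congrFun (slash_of_mem f hT) z
  rw [ModularForm.SL_slash_apply] at h
  have h1 : ModularGroup.T • z = shPt 1 1 z := by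
    ext
    rw [UpperHalfPlane.modular_T_smul]
    simp [shPt, add_comm]
  have h2 : denom (ModularGroup.T : GL (Fin 2) ℝ) z = 1 := by
    change (((ModularGroup.T 1 0 : ℤ) : ℝ) : ℂ) * (z : ℂ) + (((ModularGroup.T 1 1 : ℤ) : ℝ) : ℂ) = 1
    simp [ModularGroup.T]
  rw [h1] at h
  rw [← h]
  have : (denom ((ModularGroup.T : SL(2, ℤ)) : GL (Fin 2) ℝ) (z : ℂ)) ^ (-k) = 1 := by
    rw [h2, _root_.one_zpow]
  rw [this, mul_one]

theorem f2_hasQ (q1 : Q1Exp) {N : ℕ} (hN : N ≠ 0) {k : ℤ} (f : SN N k) :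
    HasQ f (aq f) ∧ aq f 0 = 0 := by
  have : NeZero N := ⟨hN⟩
  exact q1 k f (isCuspFun_of_cuspForm f) (f2_per f)

theorem HasQ.f2_smul {F : ℍ → ℂ} {a : ℕ → ℂ} (h : HasQ F a) (c : ℂ) :
    HasQ (fun z => c * F z) (fun m => c * a m) := by
  intro z
  simpa only [mul_assoc] using (h z).mul_left c

theorem HasQ.f2_sum {ι : Type*} (s : Finset ι) {F : ι → ℍ → ℂ} {a : ι → ℕ → ℂ}
    (h : ∀ i ∈ s, HasQ (F i) (a i)) :
    HasQ (fun z => ∑ i ∈ s, F i z) (fun m => ∑ i ∈ s, a i m) := by
  intro z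
  simpa only [Finset.sum_mul] using hasSum_sum (fun i hi => h i hi z)

theorem f2_eigen (q1 : Q1Exp) (q2 : Q2Uniq) (h1 : H1Hecke) (h5 : H5Coeff) {N : ℕ} (hN : N ≠ 0)
    {k : ℤ} {χ : ℕ → ℂ} {f : SN N k} (hf : IsEigen N k χ f) (l : ℕ) (hl : l.Prime)
    (hlN : ¬ l ∣ N) (j : ℕ) :
    aq f (l * j) + (l : ℂ) ^ (k - 1) * (if l ∣ j then aq f (j / l) else 0) = χ l * aq f j := by
  obtain ⟨T, hT⟩ := h1 N hN k l hl hlN
  rw [← h5 N hN k l hl hlN T hT f j, hf l hl hlN T hT]
  have e1 := (f2_hasQ q1 hN (χ l • f)).1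
  have e2 := (f2_hasQ q1 hN f).1.f2_smul (χ l)
  have e3 : HasQ (⇑(χ l • f)) (fun m => χ l * aq f m) := e2
  exact congrFun (q2 _ _ _ e1 e3) j

/-- Sturm bound for the depleted forms. -/
theorem f2_core (q1 : Q1Exp) (q2 : Q2Uniq) (q5 : Q5Shift) (q6 : Q6Decay) (s2 : S2Sturm)
    (h3 : H3B) (r6 : R6Dep) {N : ℕ} (hN : N ≠ 0) :
    ∃ C : ℕ, ∀ (k : ℕ) (G : SN N (k : ℤ)),
      (∀ m ≤ C * k, m ≠ 0 → m.Coprime N → aq G m = 0) →
      ∀ m : ℕ, m ≠ 0 → m.Coprime N → aq G m = 0 := by
  have hN2 : NeZero (N ^ 2) := ⟨pow_ne_zero 2 hN⟩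
  obtain ⟨C, hC⟩ := s2 (Gamma (N ^ 2))
  refine ⟨C, fun k G hG m hm hmN => ?_⟩
  choose g hg using fun j : ℕ => h3 N hN k G j
  have hQ := f2_hasQ q1 hN G
  let Gs : CuspForm (Gamma (N ^ 2)) (k : ℤ) := ∑ j ∈ Finset.range N, wdep N j • g j
  have hcoe : ∀ z, Gs z = ∑ j ∈ Finset.range N, wdep N j * G (shPt N j z) := by
    intro z
    have : ∀ s : Finset ℕ, (∑ j ∈ s, wdep N j • g j) z = ∑ j ∈ s, wdep N j * G (shPt N j z) := by
      intro s
      induction s using Finset.induction_on with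
      | empty => simp
      | insert a s ha ih =>
        rw [Finset.sum_insert ha, Finset.sum_insert ha, ← ih]
        change (wdep N a • g a) z + _ = _
        rw [← hg a z]
        rfl
    exact this _
  have hQs : HasQ Gs (fun m => if m.Coprime N then aq G m else 0) := by
    have h1 := HasQ.f2_sum (Finset.range N) (F := fun j z => wdep N j * G (shPt N j z))
      (a := fun j m => wdep N j * (aq G m * Complex.exp (2 * Real.pi * Complex.I * m * j / N)))
      (fun j _ => (q5 _ _ N j hQ.1).f2_smul (wdep N j))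
    have h2 : (fun m => ∑ j ∈ Finset.range N, wdep N j *
        (aq G m * Complex.exp (2 * Real.pi * Complex.I * m * j / N))) =
        (fun m => if m.Coprime N then aq G m else 0) := by
      funext m
      have := r6 N hN m
      calc ∑ j ∈ Finset.range N, wdep N j *
          (aq G m * Complex.exp (2 * Real.pi * Complex.I * m * j / N))
          = aq G m * ∑ j ∈ Finset.range N, wdep N j *
              Complex.exp (2 * Real.pi * Complex.I * m * j / N) := by
            rw [Finset.mul_sum]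
            refine Finset.sum_congr rfl fun j _ => ?_
            ring
        _ = _ := by
            rw [this]
            split_ifs <;> simp
    rw [← h2]
    intro z
    rw [hcoe z]
    exact h1 z
  have hz : ∀ m ≤ C * k, (if m.Coprime N then aq G m else 0) = 0 := by
    intro m hm
    by_cases h0 : m = 0
    · subst h0
      rw [hQ.2]; simp
    · split_ifs with h
      · exact hG m hm h0 h
      · rfl
  have hdec := q6 _ _ (C * k) hQs hz
  have hzero : Gs = 0 := by
    refine hC k Gs ((C * k : ℕ) + 1 : ℝ) ?_ hdec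
    push_cast
    linarith
  have hzq : HasQ Gs (fun _ => 0) := by
    intro z
    rw [hzero]
    simp
  have := congrFun (q2 _ _ _ hQs hzq) m
  simp only [if_pos hmN] at this
  exact this

theorem f2_bound (C : ℕ) : ∃ A : ℕ, ∀ k : ℕ, 2 ≤ k → C * k ≤ k ^ A := by
  refine ⟨C + 1, fun k hk => ?_⟩
  rw [pow_succ]
  refine Nat.mul_le_mul_right k ?_
  calc C ≤ 2 ^ C := Nat.lt_two_pow_self.le
    _ ≤ k ^ C := Nat.pow_le_pow_left hk C

theorem f2Sep (q1 : Q1Exp) (q2 : Q2Uniq) (q3 : Q3U) (q5 : Q5Shift) (q6 : Q6Decay) (s2 : S2Sturm)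
    (h1 : H1Hecke) (h2 : H2U) (h3 : H3B) (h5 : H5Coeff) (r1 : R1Eigen) (r2 : R2Conv)
    (r3 : R3Fact) (r5 : R5Ded) (r6 : R6Dep) : F2Sep := by
  intro N hN
  obtain ⟨C, hC⟩ := f2_core q1 q2 q5 q6 s2 h3 r6 hN
  obtain ⟨A, hA⟩ := f2_bound C
  refine ⟨A, fun k hk r χ f hf0 hf hχ => ?_⟩
  rw [Fintype.linearIndependent_iff]
  intro c hc
  obtain ⟨b, b', hb⟩ := r2 (k : ℤ)
  -- the linear relation for `cmul`
  have hc1 : ∀ m : ℕ, m ≤ k ^ A → m.Coprime N → ∑ i, c i * cmul (χ i) m = 0 := by
    intro m hm hmN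
    have := congrFun hc ⟨m, hm, hmN⟩
    simpa [Finset.sum_apply] using this
  have hc2 : ∀ m : ℕ, m ≠ 0 → m ≤ k ^ A → m.Coprime N → ∑ i, c i * lamC k (χ i) m = 0 := by
    intro m hm0 hm hmN
    have h3 : ∀ i, lamC k (χ i) m = ∑ m' ∈ m.divisors, b' m m' * cmul (χ i) m' :=
      fun i => (hb (χ i) m hm0).2
    simp_rw [h3, Finset.mul_sum]
    rw [Finset.sum_comm]
    refine Finset.sum_eq_zero fun m' hm' => ?_
    have hd := Nat.dvd_of_mem_divisors hm'
    have : ∑ i, c i * (b' m m' * cmul (χ i) m') = b' m m' * ∑ i, c i * cmul (χ i) m' := by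
      rw [Finset.mul_sum]
      refine Finset.sum_congr rfl fun i _ => ?_
      ring
    rw [this, hc1 m' ((Nat.le_of_dvd (Nat.pos_of_ne_zero hm0) hd).trans hm)
      (Nat.Coprime.coprime_dvd_left hd hmN), mul_zero]
  -- a nonzero coefficient at a level index
  have hd : ∀ i, ∃ d : ℕ, d ≠ 0 ∧ (∀ q : ℕ, q.Prime → q ∣ d → q ∣ N) ∧ aq (f i) d ≠ 0 := by
    intro i
    by_contra hcon
    push Not at hcon
    apply hf0 i
    have hz : aq (f i) = fun _ => 0 := by
      funext m
      by_cases hm : m = 0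
      · subst hm
        exact (f2_hasQ q1 hN (f i)).2
      · obtain ⟨d, e, hd0, he0, hme, hdN, heN⟩ := r3 N hN m hm
        rw [hme, r1 N k (χ i) (aq (f i)) (fun l hl hlN j => f2_eigen q1 q2 h1 h5 hN (hf i) l hl hlN j)
          d e he0 hd0 hdN heN, hcon d hd0 hdN, mul_zero]
    ext z
    have := (f2_hasQ q1 hN (f i)).1 z
    rw [hz] at this
    have h0 : HasSum (fun m : ℕ => (0 : ℂ) *
        Complex.exp (2 * Real.pi * Complex.I * m * (z : ℂ))) 0 := by
      simp
    exact this.unique h0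
  choose d hd0 hdN hda using hd
  choose g hg using fun i => h2 N hN k (d i) (Nat.pos_of_ne_zero (hd0 i)) (hdN i) (f i)
  have hgq : ∀ i m, aq (g i) m = aq (f i) (d i * m) := by
    intro i m
    have e1 := (f2_hasQ q1 hN (g i)).1
    have e2 := q3 _ _ (d i) (Nat.pos_of_ne_zero (hd0 i)) (f2_hasQ q1 hN (f i)).1
    have e3 : HasQ (g i) (fun m => aq (f i) (d i * m)) := by
      intro z
      rw [hg i z]
      exact e2 z
    exact congrFun (q2 _ _ _ e1 e3) m
  have hgl : ∀ i m, m ≠ 0 → m.Coprime N → aq (g i) m = lamC k (χ i) m * aq (f i) (d i) := by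
    intro i m hm hmN
    rw [hgq]
    exact r1 N k (χ i) (aq (f i)) (fun l hl hlN j => f2_eigen q1 q2 h1 h5 hN (hf i) l hl hlN j)
      (d i) m hm (hd0 i) (hdN i) hmN
  let G : SN N (k : ℤ) := ∑ i, (c i / aq (f i) (d i)) • g i
  have hGz : ∀ z, G z = ∑ i, (c i / aq (f i) (d i)) * g i z := by
    intro z
    have : ∀ s : Finset (Fin r), (∑ i ∈ s, (c i / aq (f i) (d i)) • g i) z
        = ∑ i ∈ s, (c i / aq (f i) (d i)) * g i z := by
      intro s
      induction s using Finset.induction_on with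
      | empty => simp
      | insert a s ha ih =>
        rw [Finset.sum_insert ha, Finset.sum_insert ha, ← ih]
        rfl
    exact this _
  have hGq : ∀ m, aq G m = ∑ i, (c i / aq (f i) (d i)) * aq (g i) m := by
    have e1 := (f2_hasQ q1 hN G).1
    have e2 := HasQ.f2_sum Finset.univ (F := fun i z => (c i / aq (f i) (d i)) * g i z)
      (a := fun i m => (c i / aq (f i) (d i)) * aq (g i) m)
      (fun i _ => (f2_hasQ q1 hN (g i)).1.f2_smul _)
    have e3 : HasQ G (fun m => ∑ i, (c i / aq (f i) (d i)) * aq (g i) m) := by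
      intro z
      rw [hGz z]
      exact e2 z
    exact fun m => congrFun (q2 _ _ _ e1 e3) m
  have hGl : ∀ m, m ≠ 0 → m.Coprime N → aq G m = ∑ i, c i * lamC k (χ i) m := by
    intro m hm hmN
    rw [hGq]
    refine Finset.sum_congr rfl fun i _ => ?_
    rw [hgl i m hm hmN]
    field_simp [hda i]
  have hG0 := hC k G (fun m hm hm0 hmN => by
    rw [hGl m hm0 hmN]
    exact hc2 m hm0 (hm.trans (hA k hk)) hmN)
  have hc3 : ∀ m : ℕ, m ≠ 0 → m.Coprime N → ∑ i, c i * lamC k (χ i) m = 0 := by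
    intro m hm hmN
    rw [← hGl m hm hmN]
    exact hG0 m hm hmN
  have hc4 : ∀ m : ℕ, m ≠ 0 → m.Coprime N → ∑ i, c i * cmul (χ i) m = 0 := by
    intro m hm0 hmN
    have h3 : ∀ i, cmul (χ i) m = ∑ m' ∈ m.divisors, b m m' * lamC k (χ i) m' :=
      fun i => (hb (χ i) m hm0).1
    simp_rw [h3, Finset.mul_sum]
    rw [Finset.sum_comm]
    refine Finset.sum_eq_zero fun m' hm' => ?_
    have hd := Nat.dvd_of_mem_divisors hm'
    have hm'0 : m' ≠ 0 := fun h => hm0 (by rw [h] at hd; exact Nat.eq_zero_of_zero_dvd hd)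
    have : ∑ i, c i * (b m m' * lamC k (χ i) m') = b m m' * ∑ i, c i * lamC k (χ i) m' := by
      rw [Finset.mul_sum]
      refine Finset.sum_congr rfl fun i _ => ?_
      ring
    rw [this, hc3 m' hm'0 (Nat.Coprime.coprime_dvd_left hd hmN), mul_zero]
  have := r5 N r χ hχ c hc4
  intro i
  exact congrFun this i

end Gou

end
end

section

/-!
MP_602313_nt, module C1 (helper5): the Hecke operators `T_l` on `S_k(Gamma0 N)`.
-/

open scoped MatrixGroups ModularForm UpperHalfPlane Manifold Pointwise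
open CongruenceSubgroup UpperHalfPlane Matrix Matrix.SpecialLinearGroup ConjAct OnePoint

noncomputable section

namespace Gou

/-- The function `T_l f`. -/
def h1Fun (k : ℤ) (l : ℕ) (hl : 0 < l) (f : ℍ → ℂ) (z : ℍ) : ℂ :=
  (l : ℂ) ^ (k - 1) * f (mulPt l hl z) + (l : ℂ)⁻¹ * ∑ j ∈ Finset.range l, f (divPt l j hl z)

theorem h1Fun_eq (k : ℤ) (l : ℕ) (hl : 0 < l) (f : ℍ → ℂ) :
    h1Fun k l hl f = ∑ i : Option (Fin l), f ∣[k] gR (alphaT l hl.ne' i) := by
  funext z
  rw [Fintype.sum_option]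
  simp only [alphaT, Pi.add_apply, Finset.sum_apply, slash_gU, slash_gV]
  rw [h1Fun, Finset.mul_sum, Finset.sum_range]

theorem h1Fun_add (k : ℤ) (l : ℕ) (hl : 0 < l) (f g : ℍ → ℂ) :
    h1Fun k l hl (f + g) = h1Fun k l hl f + h1Fun k l hl g := by
  funext z
  simp only [h1Fun, Pi.add_apply, Finset.sum_add_distrib]
  ring

theorem h1Fun_smul (k : ℤ) (l : ℕ) (hl : 0 < l) (c : ℂ) (f : ℍ → ℂ) :
    h1Fun k l hl (c • f) = c • h1Fun k l hl f := by
  funext z
  simp only [h1Fun, Pi.smul_apply, smul_eq_mul, ← Finset.mul_sum]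
  ring

theorem h1Hecke (k0 : K0Sum) (k2 : K2T) : H1Hecke := by
  intro N hN k l hl hlN
  have : NeZero N := ⟨hN⟩
  have hl0 : 0 < l := hl.pos
  obtain ⟨ha, hb⟩ := k2 N l hl0.ne' hl hlN
  have h1 : ∀ f : SN N k, IsCuspFun k (h1Fun k l hl0 f) := by
    intro f
    rw [h1Fun_eq]
    exact IsCuspFun.sum _ _ fun i _ => (isCuspFun_of_cuspForm f).slash _
  have h2 : ∀ f : SN N k, ∀ γ ∈ Gamma0 N, h1Fun k l hl0 f ∣[k] γ = h1Fun k l hl0 f := by
    intro f γ hγ
    rw [h1Fun_eq]
    exact k0 (Gamma0 N) k f (fun γ hγ => slash_of_mem f hγ) _ (alphaT l hl0.ne') ha hb γ hγ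
  refine ⟨{ toFun := fun f => mkCusp (Gamma0 N) (h1Fun k l hl0 f) (h1 f) (h2 f)
            map_add' := ?_
            map_smul' := ?_ }, ?_⟩
  · intro f g
    ext z
    exact congrFun (h1Fun_add k l hl0 f g) z
  · intro c f
    ext z
    exact congrFun (h1Fun_smul k l hl0 c f) z
  · intro hl' f z
    rfl

end Gou

end
end

section

/-!
MP_602313_nt, module C1 (helper5): the operators `U_d` on `S_k(Gamma0 N)`.
-/

open scoped MatrixGroups ModularForm UpperHalfPlane Manifold Pointwise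
open CongruenceSubgroup UpperHalfPlane Matrix Matrix.SpecialLinearGroup ConjAct OnePoint

noncomputable section

namespace Gou

theorem h2U (k0 : K0Sum) (k1 : K1U) : H2U := by
  intro N hN k d hd hdN f
  have : NeZero N := ⟨hN⟩
  obtain ⟨ha, hb⟩ := k1 N d hd.ne' hdN
  have he : (fun z : ℍ => (d : ℂ)⁻¹ * ∑ j ∈ Finset.range d, f (divPt d j hd z)) =
      ∑ i : Fin d, (⇑f) ∣[k] gR (gU d hd.ne' i) := by
    funext z
    simp only [Finset.sum_apply, slash_gU]
    rw [Finset.mul_sum, Finset.sum_range]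
  have h1 : IsCuspFun k (fun z : ℍ => (d : ℂ)⁻¹ * ∑ j ∈ Finset.range d, f (divPt d j hd z)) := by
    rw [he]
    exact IsCuspFun.sum _ _ fun i _ => (isCuspFun_of_cuspForm f).slash _
  refine ⟨mkCusp (Gamma0 N) _ h1 ?_, fun z => rfl⟩
  intro γ hγ
  rw [he]
  exact k0 (Gamma0 N) k f (fun γ hγ => slash_of_mem f hγ) _ (fun i : Fin d => gU d hd.ne' i)
    ha hb γ hγ

end Gou

end
end

section

/-!
MP_602313_nt, module C1 (helper5): translations of cusp forms.
-/

open scoped MatrixGroups ModularForm UpperHalfPlane Manifold Pointwise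
open CongruenceSubgroup UpperHalfPlane Matrix Matrix.SpecialLinearGroup ConjAct OnePoint

noncomputable section

namespace Gou

theorem h3_gR_mapGL (γ : SL(2, ℤ)) : gR (mapGL ℚ γ) = mapGL ℝ γ := by
  ext i j
  simp [gR, mapGL]

theorem h3B (k3 : K3B) : H3B := by
  intro N hN k f j
  have : NeZero N := ⟨hN⟩
  have : NeZero (N ^ 2) := ⟨pow_ne_zero 2 hN⟩
  have he : (fun z : ℍ => f (shPt N j z)) = (⇑f) ∣[k] gR (gB N j) := by
    funext z
    rw [slash_gB]
  have h1 : IsCuspFun k (fun z : ℍ => f (shPt N j z)) := by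
    rw [he]
    exact (isCuspFun_of_cuspForm f).slash _
  refine ⟨mkCusp (Gamma (N ^ 2)) _ h1 ?_, fun z => rfl⟩
  intro γ hγ
  obtain ⟨γ', hγ', h⟩ := k3 N j hN γ hγ
  rw [he, ModularForm.SL_slash, ← SlashAction.slash_mul]
  have h2 : gR (gB N j) * (mapGL ℝ γ) = mapGL ℝ γ' * gR (gB N j) := by
    rw [← h3_gR_mapGL, ← h3_gR_mapGL, ← map_mul, ← map_mul, h]
  change (⇑f) ∣[k] (gR (gB N j) * (mapGL ℝ γ)) = _
  rw [h2, SlashAction.slash_mul]
  congr 1
  exact slash_of_mem f hγ'

end Gou

end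
end

section

/-!
H4: coefficient form of the Sturm bound at level `Gamma0 N`.
-/

open scoped MatrixGroups ModularForm UpperHalfPlane Manifold Pointwise
open CongruenceSubgroup UpperHalfPlane Matrix Matrix.SpecialLinearGroup ConjAct OnePoint

noncomputable section

namespace Gou

namespace H4S

theorem per {N : ℕ} {k : ℤ} (f : SN N k) (z : ℍ) : f (shPt 1 1 z) = f z := by
  have hT : ModularGroup.T ∈ Gamma0 N := by
    rw [Gamma0_mem]; simp [ModularGroup.T]
  have h := slash_of_mem f hT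
  have h2 : (⇑f) ∣[k] ModularGroup.T = (⇑f) ∣[k] gR (gB 1 1) := by
    rw [ModularForm.SL_slash]
    congr 1
    ext i j
    fin_cases i <;> fin_cases j <;>
      simp [gR, gB, ModularGroup.T, GeneralLinearGroup.mkOfDetNeZero]
    all_goals first
      | exact map_one (Int.castRingHom ℝ)
      | exact map_zero (Int.castRingHom ℝ)
  rw [h2] at h
  have h3 := congrFun h z
  rw [slash_gB] at h3
  exact h3

end H4S

theorem h4Sturm (q1 : Q1Exp) (q6 : Q6Decay) (s2 : S2Sturm) : H4Sturm := by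
  intro N hN
  haveI : NeZero N := ⟨hN⟩
  obtain ⟨C, hC⟩ := s2 (Gamma0 N)
  refine ⟨C, fun k f hf => ?_⟩
  refine hC k f (((C * k : ℕ) : ℝ) + 1) ?_ ?_
  · push_cast; linarith
  · exact q6 f (aq f) (C * k) (q1 k f (isCuspFun_of_cuspForm f) (H4S.per f)).1 hf

end Gou

end
end

section

/-!
MP_602313_nt, item H5: the coefficients of `T_l f`.
-/

open scoped MatrixGroups ModularForm UpperHalfPlane Manifold Pointwise
open CongruenceSubgroup UpperHalfPlane Matrix Matrix.SpecialLinearGroup ConjAct OnePoint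

noncomputable section

namespace Gou

namespace H5

theorem T_mem (N : ℕ) : ModularGroup.T ∈ Gamma0 N := by
  rw [Gamma0_mem]
  simp [ModularGroup.T]

/-- Periodicity of cusp forms of level `N`. -/
theorem periodic {N : ℕ} {k : ℤ} (f : SN N k) (z : ℍ) : f (shPt 1 1 z) = f z := by
  have h := congrFun (slash_of_mem f (T_mem N)) z
  rw [ModularForm.SL_slash_apply] at h
  have h1 : ModularGroup.T • z = shPt 1 1 z := by
    rw [modular_T_smul]
    ext
    simp [shPt, add_comm]
  have h2 : denom ModularGroup.T z = 1 := by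
    simp [denom, ModularGroup.T]
  rw [h1, h2, _root_.one_zpow, mul_one] at h
  exact h

theorem hasQ_add {F G : ℍ → ℂ} {a b : ℕ → ℂ} (hF : HasQ F a) (hG : HasQ G b) :
    HasQ (fun z => F z + G z) (fun m => a m + b m) := by
  intro z
  have h := (hF z).add (hG z)
  have e : (fun m : ℕ => (a m + b m) * Complex.exp (2 * Real.pi * Complex.I * m * (z : ℂ))) =
      fun m : ℕ => a m * Complex.exp (2 * Real.pi * Complex.I * m * (z : ℂ)) +
        b m * Complex.exp (2 * Real.pi * Complex.I * m * (z : ℂ)) := by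
    funext m
    ring
  rw [e]
  exact h

theorem hasQ_smul {F : ℍ → ℂ} {a : ℕ → ℂ} (c : ℂ) (hF : HasQ F a) :
    HasQ (fun z => c * F z) (fun m => c * a m) := by
  intro z
  have := (hF z).mul_left c
  simpa only [mul_assoc] using this

end H5

theorem h5Coeff (q1 : Q1Exp) (q2 : Q2Uniq) (q3 : Q3U) (q4 : Q4V) : H5Coeff := by
  intro N hN k l hl hlN T hT f m
  have : NeZero N := ⟨hN⟩
  have hf := (q1 k f (isCuspFun_of_cuspForm f) (H5.periodic f)).1
  have hTf := (q1 k (T f) (isCuspFun_of_cuspForm (T f)) (H5.periodic (T f))).1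
  have h3 := q3 f (aq f) l hl.pos hf
  have h4 := H5.hasQ_smul ((l : ℂ) ^ (k - 1)) (q4 f (aq f) l hl.pos hf)
  have h5 := H5.hasQ_add h3 h4
  have e : (fun z : ℍ => (l : ℂ)⁻¹ * ∑ j ∈ Finset.range l, f (divPt l j hl.pos z) +
      (l : ℂ) ^ (k - 1) * f (mulPt l hl.pos z)) = ⇑(T f) := by
    funext z
    rw [hT hl.pos f z]
    ring
  rw [e] at h5
  exact congrFun (q2 _ _ _ hTf h5) m

end Gou

end
end

section

/-!
H6: finite dimension of the space of cusp forms of level `Gamma0 N`.
-/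

open scoped MatrixGroups ModularForm UpperHalfPlane Manifold Pointwise
open CongruenceSubgroup UpperHalfPlane Matrix Matrix.SpecialLinearGroup ConjAct OnePoint

noncomputable section

namespace Gou

namespace H6F

theorem per {N : ℕ} {k : ℤ} (f : SN N k) (z : ℍ) : f (shPt 1 1 z) = f z := by
  have hT : ModularGroup.T ∈ Gamma0 N := by
    rw [Gamma0_mem]; simp [ModularGroup.T]
  have h := slash_of_mem f hT
  have h2 : (⇑f) ∣[k] ModularGroup.T = (⇑f) ∣[k] gR (gB 1 1) := by
    rw [ModularForm.SL_slash]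
    congr 1
    ext i j
    fin_cases i <;> fin_cases j <;>
      simp [gR, gB, ModularGroup.T, GeneralLinearGroup.mkOfDetNeZero]
    all_goals first
      | exact map_one (Int.castRingHom ℝ)
      | exact map_zero (Int.castRingHom ℝ)
  rw [h2] at h
  have h3 := congrFun h z
  rw [slash_gB] at h3
  exact h3

theorem hasQ {N : ℕ} [NeZero N] {k : ℤ} (q1 : Q1Exp) (f : SN N k) : HasQ f (aq f) :=
  (q1 k f (isCuspFun_of_cuspForm f) (per f)).1

theorem aq_add {N : ℕ} [NeZero N] {k : ℤ} (q1 : Q1Exp) (q2 : Q2Uniq) (f g : SN N k) :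
    aq (f + g : SN N k) = aq f + aq g := by
  refine q2 (⇑(f + g)) _ _ (hasQ q1 (f + g)) ?_
  intro z
  have h := (hasQ q1 f z).add (hasQ q1 g z)
  simp only [← add_mul] at h
  exact h

theorem aq_smul {N : ℕ} [NeZero N] {k : ℤ} (q1 : Q1Exp) (q2 : Q2Uniq) (c : ℂ) (f : SN N k) :
    aq (c • f : SN N k) = c • aq f := by
  refine q2 (⇑(c • f)) _ _ (hasQ q1 (c • f)) ?_
  intro z
  have h := (hasQ q1 f z).mul_left c
  simp only [← mul_assoc] at h
  exact h

/-- The first coefficients as a linear map. -/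
def co {N : ℕ} [NeZero N] {k : ℤ} (q1 : Q1Exp) (q2 : Q2Uniq) (M : ℕ) :
    SN N k →ₗ[ℂ] (Fin (M + 1) → ℂ) where
  toFun f := fun m => aq f m
  map_add' f g := by
    funext m
    rw [aq_add q1 q2 f g]
    rfl
  map_smul' c f := by
    funext m
    rw [aq_smul q1 q2 c f]
    rfl

end H6F

theorem h6Fin (h4 : H4Sturm) (q1 : Q1Exp) (q2 : Q2Uniq) : H6Fin := by
  intro N hN k
  haveI : NeZero N := ⟨hN⟩
  rcases lt_or_ge k 0 with hk | hk
  · have : ∀ f : SN N k, f = 0 := by
      intro f
      let F : ModularForm (Gamma0 N) k :=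
        { toFun := f
          slash_action_eq' := f.slash_action_eq'
          holo' := f.holo'
          bdd_at_cusps' := fun hc => ModularFormClass.bdd_at_cusps f hc }
      have hF : F = 0 := ModularForm.isZero_of_neg_weight hk F
      ext z
      have := DFunLike.congr_fun hF z
      exact this
    haveI : Subsingleton (SN N k) := ⟨fun a b => by rw [this a, this b]⟩
    infer_instance
  · obtain ⟨n, rfl⟩ := Int.eq_ofNat_of_zero_le hk
    obtain ⟨C, hC⟩ := h4 N hN
    refine Module.Finite.of_injective (H6F.co (k := (n : ℤ)) q1 q2 (C * n)) ?_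
    rw [← LinearMap.ker_eq_bot, LinearMap.ker_eq_bot']
    intro f hf
    refine hC n f fun m hm => ?_
    exact congrFun hf ⟨m, by omega⟩

end Gou

end
end

section

/-! MP_602313_nt, item C-H7Comm. -/

open scoped MatrixGroups ModularForm UpperHalfPlane Manifold Pointwise
open CongruenceSubgroup UpperHalfPlane Matrix Matrix.SpecialLinearGroup ConjAct OnePoint

noncomputable section

namespace Gou

namespace H7

theorem periodic (N : ℕ) (k : ℤ) (f : SN N k) (z : ℍ) : f (shPt 1 1 z) = f z := by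
  have hT : ModularGroup.T ∈ Gamma0 N := by
    rw [Gamma0_mem]
    simp [ModularGroup.T]
  have h1 := congrFun (slash_of_mem f hT) z
  rw [ModularForm.SL_slash_apply] at h1
  have h2 : ModularGroup.T • z = shPt 1 1 z := by
    rw [UpperHalfPlane.modular_T_smul]
    ext
    simp [shPt, UpperHalfPlane.coe_vadd, add_comm]
  have h3 : denom ((ModularGroup.T : SL(2, ℤ)) : GL (Fin 2) ℝ) z = 1 := by
    simp [denom, ModularGroup.T]
  rw [h2, h3, _root_.one_zpow, mul_one] at h1
  exact h1

theorem ext_aq (q1 : Q1Exp) (N : ℕ) [(Gamma0 N).FiniteIndex] (k : ℤ) (f g : SN N k)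
    (h : ∀ m, aq f m = aq g m) : f = g := by
  have hf := (q1 k f (isCuspFun_of_cuspForm f) (periodic N k f)).1
  have hg := (q1 k g (isCuspFun_of_cuspForm g) (periodic N k g)).1
  have h1 : aq f = aq g := funext h
  rw [h1] at hf
  ext z
  exact (hf z).unique (hg z)

end H7

theorem h7Comm (q1 : Q1Exp) (_q2 : Q2Uniq) (h5 : H5Coeff) : H7Comm := by
  intro N hN k l l' hl hl' hlN hl'N T T' hT hT'
  haveI : NeZero N := ⟨hN⟩
  refine LinearMap.ext fun f => ?_
  refine H7.ext_aq q1 N k _ _ fun m => ?_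
  simp only [LinearMap.comp_apply]
  rw [h5 N hN k l hl hlN T hT, h5 N hN k l' hl' hl'N T' hT' f (l * m),
    h5 N hN k l' hl' hl'N T' hT' f (m / l), h5 N hN k l' hl' hl'N T' hT',
    h5 N hN k l hl hlN T hT f (l' * m), h5 N hN k l hl hlN T hT f (m / l')]
  by_cases hll : l = l'
  · subst hll
    rfl
  · have hc : l.Coprime l' := (Nat.coprime_primes hl hl').2 hll
    have h1 : l' ∣ l * m ↔ l' ∣ m := ⟨fun h => hc.symm.dvd_of_dvd_mul_left h, fun h => h.mul_left l⟩
    have h2 : l ∣ l' * m ↔ l ∣ m := ⟨fun h => hc.dvd_of_dvd_mul_left h, fun h => h.mul_left l'⟩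
    have h3 : l' * (l * m) = l * (l' * m) := by ring
    simp only [h1, h2, h3]
    by_cases ha : l ∣ m
    · obtain ⟨m1, rfl⟩ := ha
      have h4 : l' ∣ l * m1 ↔ l' ∣ m1 :=
        ⟨fun h => hc.symm.dvd_of_dvd_mul_left h, fun h => h.mul_left l⟩
      have h5 : l' * (l * m1) / l = l' * m1 := by
        rw [mul_left_comm, Nat.mul_div_cancel_left _ hl.pos]
      simp only [h4, Nat.mul_div_cancel_left _ hl.pos, if_pos (Dvd.intro m1 rfl), h5]
      by_cases hb : l' ∣ m1
      · obtain ⟨m2, rfl⟩ := hb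
        have h6 : l * (l * (l' * m2)) / l' = l * (l * m2) := by
          rw [show l * (l * (l' * m2)) = l' * (l * (l * m2)) by ring,
            Nat.mul_div_cancel_left _ hl'.pos]
        have h7 : l * (l' * m2) / l' = l * m2 := by
          rw [mul_left_comm, Nat.mul_div_cancel_left _ hl'.pos]
        simp only [if_pos (Dvd.intro m2 rfl), h6, h7, Nat.mul_div_cancel_left _ hl.pos,
          Nat.mul_div_cancel_left _ hl'.pos]
        ring
      · simp only [if_neg hb]
        ring
    · simp only [if_neg ha]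
      by_cases hb : l' ∣ m
      · obtain ⟨m2, rfl⟩ := hb
        have h8 : ¬ l ∣ m2 := fun h => ha (h.mul_left l')
        have h6 : l * (l' * m2) / l' = l * m2 := by
          rw [mul_left_comm, Nat.mul_div_cancel_left _ hl'.pos]
        simp only [if_pos (Dvd.intro m2 rfl), h6, Nat.mul_div_cancel_left _ hl'.pos, if_neg h8]
        ring
      · simp only [if_neg hb]
        ring

end Gou

end
end

section

/-!
MP_602313_nt, item K0: sums over representatives are invariant.
-/

open scoped MatrixGroups ModularForm UpperHalfPlane Manifold Pointwise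
open CongruenceSubgroup UpperHalfPlane Matrix Matrix.SpecialLinearGroup ConjAct OnePoint

noncomputable section

namespace Gou

theorem K0Sum_gR_mapGL (γ : SL(2, ℤ)) : gR (mapGL ℚ γ) = mapGL ℝ γ := by
  ext i j
  simp [gR]

theorem K0Sum_gR_mul (g h : GL (Fin 2) ℚ) : gR (g * h) = gR g * gR h := map_mul _ g h

theorem k0Sum : K0Sum := by
  intro Γ k f hf ι _ α h1 h2 γ hγ
  classical
  choose σ' γ' hγ' hσ using h1 γ hγ
  have hinj : Function.Injective σ' := by
    intro i i' h
    refine h2 i i' (γ' i * (γ' i')⁻¹) (Γ.mul_mem (hγ' i) (Γ.inv_mem (hγ' i'))) ?_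
    have e1 := hσ i
    have e2 := hσ i'
    rw [h] at e1
    have e3 : α (σ' i') = (mapGL ℚ (γ' i'))⁻¹ * (α i' * mapGL ℚ γ) := by
      rw [e2, inv_mul_cancel_left]
    rw [e3] at e1
    rw [map_mul, map_inv]
    have e4 : α i * mapGL ℚ γ = (mapGL ℚ (γ' i) * (mapGL ℚ (γ' i'))⁻¹ * α i') * mapGL ℚ γ := by
      rw [e1]
      group
    exact mul_right_cancel e4
  have hbij : Function.Bijective σ' := Finite.injective_iff_bijective.mp hinj
  have key : ∀ i, (f ∣[k] gR (α i)) ∣[k] γ = f ∣[k] gR (α (σ' i)) := by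
    intro i
    show (f ∣[k] gR (α i)) ∣[k] (mapGL ℝ γ) = f ∣[k] gR (α (σ' i))
    rw [← SlashAction.slash_mul, ← K0Sum_gR_mapGL, ← K0Sum_gR_mul, hσ i, K0Sum_gR_mul,
      SlashAction.slash_mul, K0Sum_gR_mapGL]
    congr 1
    exact hf _ (hγ' i)
  have hsum : (∑ i, f ∣[k] gR (α i)) ∣[k] γ = ∑ i, (f ∣[k] gR (α i)) ∣[k] γ := by
    show (∑ i, f ∣[k] gR (α i)) ∣[k] (mapGL ℝ γ) = ∑ i, (f ∣[k] gR (α i)) ∣[k] (mapGL ℝ γ)
    exact SlashAction.sum_slash _ _
  rw [hsum, Finset.sum_congr rfl fun i _ => key i]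
  exact (Equiv.ofBijective σ' hbij).sum_comp fun i => f ∣[k] gR (α i)

end Gou

end
end
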