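import Pool.Agent.Work.MP_602313_nt.Bd.B04

/-! Bundle of small proof modules (one section per former module). -/

section

/-!
MP_602313_nt, module C1, item K1 (helper30): coset representatives of `U_d`.
-/

open scoped MatrixGroups ModularForm UpperHalfPlane Manifold Pointwise Topology
open CongruenceSubgroup UpperHalfPlane Matrix Matrix.SpecialLinearGroup ConjAct OnePoint

noncomputable section

namespace Gou

theorem k1_eq_iff (d : ℕ) (hd : d ≠ 0) (i j : ℕ) (γ γ' : SL(2, ℤ)) :
    gU d hd i * mapGL ℚ γ = mapGL ℚ γ' * gU d hd j ↔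
      (γ 0 0 + i * γ 1 0 = γ' 0 0 ∧ γ 0 1 + i * γ 1 1 = γ' 0 0 * j + γ' 0 1 * d ∧
        d * γ 1 0 = γ' 1 0 ∧ d * γ 1 1 = γ' 1 0 * j + γ' 1 1 * d) := by
  rw [Units.ext_iff, ← Matrix.ext_iff]
  simp only [Fin.forall_fin_two]
  simp only [gU, GeneralLinearGroup.mkOfDetNeZero, Units.val_mul, Matrix.mul_apply,
    Fin.sum_univ_two]
  simp
  constructor
  · rintro ⟨⟨h1, h2⟩, h3, h4⟩
    exact ⟨by exact_mod_cast h1, by exact_mod_cast h2, by exact_mod_cast h3,
      by exact_mod_cast h4⟩
  · rintro ⟨h1, h2, h3, h4⟩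
    exact ⟨⟨by exact_mod_cast h1, by exact_mod_cast h2⟩, by exact_mod_cast h3,
      by exact_mod_cast h4⟩

theorem k1U : K1U := by
  intro N d hd hq
  constructor
  · intro γ hγ i
    have hN : (N : ℤ) ∣ γ 1 0 := by
      rw [Gamma0_mem] at hγ
      exact (ZMod.intCast_zmod_eq_zero_iff_dvd _ _).mp hγ
    have hdet : γ 0 0 * γ 1 1 - γ 0 1 * γ 1 0 = 1 := by
      have := γ.det_coe
      rwa [Matrix.det_fin_two] at this
    set a := γ 0 0 with ha
    set b := γ 0 1 with hb
    set c := γ 1 0 with hc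
    set e := γ 1 1 with he
    have hcop : IsCoprime (a + (i : ℕ) * c) (d : ℤ) := by
      rw [Int.isCoprime_iff_nat_coprime]
      rw [Nat.coprime_iff_gcd_eq_one]
      by_contra hne
      obtain ⟨q, hqp, hqd⟩ := Nat.exists_prime_and_dvd hne
      have h1 : q ∣ (a + (i : ℕ) * c).natAbs := hqd.trans (Nat.gcd_dvd_left _ _)
      have h2 : q ∣ (d : ℤ).natAbs := hqd.trans (Nat.gcd_dvd_right _ _)
      have h3 : q ∣ d := by simpa using h2
      have h4 : (q : ℤ) ∣ c := (Int.natCast_dvd_natCast.mpr (hq q hqp h3)).trans hN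
      have h5 : (q : ℤ) ∣ a + (i : ℕ) * c := Int.natCast_dvd.mpr h1
      have h6 : (q : ℤ) ∣ a := by
        have := dvd_sub h5 (Dvd.dvd.mul_left h4 ((i : ℕ) : ℤ))
        simpa using this
      have h7 : (q : ℤ) ∣ 1 := by
        rw [← hdet]
        exact dvd_sub (Dvd.dvd.mul_right h6 _) (Dvd.dvd.mul_left h4 _)
      have h8 : q ∣ 1 := by exact_mod_cast h7
      exact hqp.one_lt.ne' (Nat.dvd_one.mp h8)
    obtain ⟨x, y, hxy⟩ := hcop
    have hdpos : (0 : ℤ) < d := by exact_mod_cast Nat.pos_of_ne_zero hd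
    set j0 : ℤ := (x * (b + (i : ℕ) * e)) % d with hj0
    have hj0n : 0 ≤ j0 := Int.emod_nonneg _ hdpos.ne'
    have hj0l : j0 < d := Int.emod_lt_of_pos _ hdpos
    have hdvd : (d : ℤ) ∣ (b + (i : ℕ) * e) - (a + (i : ℕ) * c) * j0 := by
      have h1 : (d : ℤ) ∣ x * (b + (i : ℕ) * e) - j0 := Int.dvd_self_sub_emod
      obtain ⟨t, ht⟩ := h1
      refine ⟨y * (b + (i : ℕ) * e) + (a + (i : ℕ) * c) * t, ?_⟩
      have h2 : j0 = x * (b + (i : ℕ) * e) - d * t := by linarith
      rw [h2]
      linear_combination (-(b + (i : ℕ) * e)) * hxy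
    obtain ⟨t, ht⟩ := hdvd
    obtain ⟨γ', g1, g2, g3, g4⟩ : ∃ γ' : SL(2, ℤ), γ' 0 0 = a + (i : ℕ) * c ∧ γ' 0 1 = t ∧
        γ' 1 0 = d * c ∧ γ' 1 1 = e - c * j0 := by
      refine ⟨⟨!![a + (i : ℕ) * c, t; d * c, e - c * j0], ?_⟩, rfl, rfl, rfl, rfl⟩
      rw [Matrix.det_fin_two_of]
      linear_combination hdet + c * ht
    refine ⟨⟨j0.toNat, by omega⟩, γ', ?_, ?_⟩
    · rw [Gamma0_mem, g3, ZMod.intCast_zmod_eq_zero_iff_dvd]
      exact Dvd.dvd.mul_left hN _
    · rw [k1_eq_iff]
      have hj : (((⟨j0.toNat, by omega⟩ : Fin d) : ℕ) : ℤ) = j0 := Int.toNat_of_nonneg hj0n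
      rw [hj, g1, g2, g3, g4]
      refine ⟨rfl, ?_, rfl, ?_⟩
      · linarith
      · ring
  · intro i j γ' _ h
    have h' : gU d hd i * mapGL ℚ (1 : SL(2, ℤ)) = mapGL ℚ γ' * gU d hd j := by
      rw [map_one, mul_one]
      exact h
    rw [k1_eq_iff] at h'
    obtain ⟨h1, h2, h3, h4⟩ := h'
    simp at h1 h2 h3 h4
    have hdpos : (0 : ℤ) < d := by exact_mod_cast Nat.pos_of_ne_zero hd
    have hi : ((i : ℕ) : ℤ) < d := by exact_mod_cast i.2
    have hj : ((j : ℕ) : ℤ) < d := by exact_mod_cast j.2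
    rw [← h1, one_mul] at h2
    have h5 : ((i : ℕ) : ℤ) = ((j : ℕ) : ℤ) := by
      have h6 : (d : ℤ) ∣ ((i : ℕ) : ℤ) - ((j : ℕ) : ℤ) := ⟨γ' 0 1, by linarith⟩
      have h7 : ((i : ℕ) : ℤ) - ((j : ℕ) : ℤ) = 0 := by
        apply Int.eq_zero_of_abs_lt_dvd h6
        rw [abs_lt]
        constructor <;> omega
      linarith
    exact Fin.ext (by exact_mod_cast h5)

end Gou

end
end

section

/-!
K2. Representatives of `T_l`, `l` a prime not dividing `N`.
-/

open scoped MatrixGroups ModularForm UpperHalfPlane Manifold Pointwise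
open CongruenceSubgroup UpperHalfPlane Matrix Matrix.SpecialLinearGroup ConjAct OnePoint

noncomputable section

namespace Gou

namespace K2TAux

/-- The integral matrix of `alphaT`. -/
def AI (l : ℕ) : Option (Fin l) → Matrix (Fin 2) (Fin 2) ℤ
  | Option.some j => !![1, (j : ℤ); 0, (l : ℤ)]
  | Option.none => !![(l : ℤ), 0; 0, 1]

lemma alphaT_coe (l : ℕ) (hl : l ≠ 0) (i : Option (Fin l)) :
    ((alphaT l hl i : GL (Fin 2) ℚ) : Matrix (Fin 2) (Fin 2) ℚ) =
      (AI l i).map (Int.castRingHom ℚ) := by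
  rcases i with _ | j
  · ext a b
    fin_cases a <;> fin_cases b <;> simp [alphaT, AI, gV, GeneralLinearGroup.mkOfDetNeZero]
  · ext a b
    fin_cases a <;> fin_cases b <;> simp [alphaT, AI, gU, GeneralLinearGroup.mkOfDetNeZero]

lemma AI_det (l : ℕ) (i : Option (Fin l)) : (AI l i).det = (l : ℤ) := by
  rcases i with _ | j <;> simp [AI, Matrix.det_fin_two]

/-- An integer `k` in `[0, l)` with `l ∣ b - a k`. -/
lemma exists_k (l : ℕ) (hl : l.Prime) (a b : ℤ) (ha : ¬ (l : ℤ) ∣ a) :
    ∃ j : Fin l, (l : ℤ) ∣ b - a * (j : ℤ) := by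
  haveI : Fact l.Prime := ⟨hl⟩
  refine ⟨⟨((b : ZMod l) * (a : ZMod l)⁻¹).val, ZMod.val_lt _⟩, ?_⟩
  rw [← ZMod.intCast_zmod_eq_zero_iff_dvd]
  have ha' : (a : ZMod l) ≠ 0 := by
    intro h
    exact ha ((ZMod.intCast_zmod_eq_zero_iff_dvd _ _).1 h)
  push_cast
  rw [ZMod.natCast_val, ZMod.cast_id, mul_comm (b : ZMod l), ← mul_assoc, mul_inv_cancel₀ ha',
    one_mul, sub_self]

lemma factor (N l : ℕ) (hl : l.Prime) (hN : ¬ l ∣ N) (A : Matrix (Fin 2) (Fin 2) ℤ)
    (hdet : A.det = (l : ℤ)) (h10 : (N : ℤ) ∣ A 1 0) :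
    ∃ (j : Option (Fin l)) (γ : SL(2, ℤ)), γ ∈ Gamma0 N ∧
      A = (γ : Matrix (Fin 2) (Fin 2) ℤ) * AI l j := by
  rw [Matrix.det_fin_two] at hdet
  have hl0 : (l : ℤ) ≠ 0 := by exact_mod_cast hl.ne_zero
  have hpl : Prime (l : ℤ) := Nat.prime_iff_prime_int.mp hl
  set a := A 0 0 with ha
  set b := A 0 1 with hb
  set c := A 1 0 with hc
  set d := A 1 1 with hd
  have key : ∀ j : Fin l, (l : ℤ) ∣ b - a * (j : ℤ) → (l : ℤ) ∣ d - c * (j : ℤ) →
      ∃ (j : Option (Fin l)) (γ : SL(2, ℤ)), γ ∈ Gamma0 N ∧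
      A = (γ : Matrix (Fin 2) (Fin 2) ℤ) * AI l j := by
    rintro j ⟨y, hy⟩ ⟨w, hw⟩
    refine ⟨Option.some j, ⟨!![a, y; c, w], ?_⟩, ?_, ?_⟩
    · rw [Matrix.det_fin_two_of]
      have h1 : (l : ℤ) * (a * w - y * c) = l * 1 := by
        linear_combination (-a) * hw + c * hy + hdet
      exact mul_left_cancel₀ hl0 h1
    · refine Gamma0_mem.2 ?_
      exact (ZMod.intCast_zmod_eq_zero_iff_dvd _ _).2 (by simpa using h10)
    · ext p q
      fin_cases p <;> fin_cases q <;>
        simp [AI, Matrix.mul_apply, Fin.sum_univ_two] <;> linarith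
  by_cases h1 : (l : ℤ) ∣ a
  · by_cases h2 : (l : ℤ) ∣ c
    · obtain ⟨x, hx⟩ := h1
      obtain ⟨z, hz⟩ := h2
      refine ⟨Option.none, ⟨!![x, b; z, d], ?_⟩, ?_, ?_⟩
      · rw [Matrix.det_fin_two_of]
        have h1 : (l : ℤ) * (x * d - b * z) = l * 1 := by
          rw [hx, hz] at hdet
          linear_combination hdet
        exact mul_left_cancel₀ hl0 h1
      · refine Gamma0_mem.2 ?_
        refine (ZMod.intCast_zmod_eq_zero_iff_dvd _ _).2 ?_
        have h3 : (N : ℤ) ∣ l * z := by rw [← hz]; exact h10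
        have h4 : IsCoprime (N : ℤ) (l : ℤ) := by
          rw [Nat.isCoprime_iff_coprime]
          exact ((Nat.Prime.coprime_iff_not_dvd hl).2 hN).symm
        simpa using h4.dvd_of_dvd_mul_left h3
      · ext p q
        fin_cases p <;> fin_cases q <;>
          simp [AI, Matrix.mul_apply, Fin.sum_univ_two] <;> linarith
    · obtain ⟨j, hj⟩ := exists_k l hl c d h2
      refine key j ?_ hj
      have h3 : (l : ℤ) ∣ c * (b - a * (j : ℤ)) := by
        obtain ⟨w, hw⟩ := hj
        refine ⟨a * w - 1, ?_⟩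
        linear_combination a * hw - hdet
      exact (hpl.dvd_or_dvd h3).resolve_left h2
  · obtain ⟨j, hj⟩ := exists_k l hl a b h1
    refine key j hj ?_
    have h3 : (l : ℤ) ∣ a * (d - c * (j : ℤ)) := by
      obtain ⟨w, hw⟩ := hj
      refine ⟨c * w + 1, ?_⟩
      linear_combination c * hw + hdet
    exact (hpl.dvd_or_dvd h3).resolve_left h1

lemma GL_iff (l : ℕ) (hl : l ≠ 0) (i j : Option (Fin l)) (γ γ' : SL(2, ℤ)) :
    alphaT l hl i * mapGL ℚ γ = mapGL ℚ γ' * alphaT l hl j ↔
      AI l i * (γ : Matrix (Fin 2) (Fin 2) ℤ) = (γ' : Matrix (Fin 2) (Fin 2) ℤ) * AI l j := by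
  have hinj : Function.Injective (fun M : Matrix (Fin 2) (Fin 2) ℤ => M.map (Int.castRingHom ℚ)) := by
    intro M M' h
    ext p q
    have := congrFun (congrFun h p) q
    simpa using this
  rw [Units.ext_iff]
  simp only [Units.val_mul, mapGL_coe_matrix, alphaT_coe]
  have h1 : ∀ g : SL(2, ℤ), ((g : SL(2, ℤ)).map (algebraMap ℤ ℚ) : SL(2, ℚ)).val =
      ((g : Matrix (Fin 2) (Fin 2) ℤ)).map (Int.castRingHom ℚ) := by
    intro g
    rfl
  rw [← hinj.eq_iff]
  simp only [Matrix.map_mul]
  rfl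

end K2TAux

open K2TAux

theorem k2T : K2T := by
  intro N l hl hlp hN
  constructor
  · intro γ hγ i
    have h10 : (N : ℤ) ∣ (AI l i * (γ : Matrix (Fin 2) (Fin 2) ℤ)) 1 0 := by
      have h1 : (N : ℤ) ∣ (γ : Matrix (Fin 2) (Fin 2) ℤ) 1 0 := by
        rw [Gamma0_mem] at hγ
        exact (ZMod.intCast_zmod_eq_zero_iff_dvd _ _).1 hγ
      rcases i with _ | j
      · simpa [AI, Matrix.mul_apply, Fin.sum_univ_two] using h1
      · simpa [AI, Matrix.mul_apply, Fin.sum_univ_two] using h1.mul_left _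
    obtain ⟨j, γ', h1, h2⟩ := factor N l hlp hN _ (by
      rw [Matrix.det_mul, AI_det]; simp) h10
    exact ⟨j, γ', h1, (GL_iff l hl i j γ γ').2 h2⟩
  · intro i j γ' _ h
    have h1 : AI l i = (γ' : Matrix (Fin 2) (Fin 2) ℤ) * AI l j := by
      have := (GL_iff l hl i j 1 γ').1 (by rw [map_one, mul_one]; exact h)
      simpa using this
    have h2 : 2 ≤ l := hlp.two_le
    have e00 := congrFun (congrFun h1 0) 0
    have e01 := congrFun (congrFun h1 0) 1
    have e10 := congrFun (congrFun h1 1) 0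
    have e11 := congrFun (congrFun h1 1) 1
    rcases i with _ | i <;> rcases j with _ | j
    · rfl
    · exfalso
      simp only [AI, Matrix.mul_apply, Fin.sum_univ_two, Matrix.of_apply, Matrix.cons_val',
        Matrix.cons_val_zero, Matrix.cons_val_one, Matrix.cons_val_fin_one, mul_one, mul_zero,
        add_zero] at e00 e01 e10 e11
      rw [← e10] at e11
      have h3 : (l : ℤ) ∣ 1 := ⟨(γ' : Matrix (Fin 2) (Fin 2) ℤ) 1 1, by linarith⟩
      have h4 := Int.le_of_dvd one_pos h3
      omega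
    · exfalso
      simp only [AI, Matrix.mul_apply, Fin.sum_univ_two, Matrix.of_apply, Matrix.cons_val',
        Matrix.cons_val_zero, Matrix.cons_val_one, Matrix.cons_val_fin_one, mul_one, mul_zero,
        add_zero] at e00 e01 e10 e11
      have h3 : (l : ℤ) ∣ 1 := ⟨(γ' : Matrix (Fin 2) (Fin 2) ℤ) 0 0, by linarith⟩
      have h4 := Int.le_of_dvd one_pos h3
      omega
    · simp only [AI, Matrix.mul_apply, Fin.sum_univ_two, Matrix.of_apply, Matrix.cons_val',
        Matrix.cons_val_zero, Matrix.cons_val_one, Matrix.cons_val_fin_one, mul_one, mul_zero,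
        add_zero] at e00 e01 e10 e11
      rw [← e00, one_mul] at e01
      have h3 : (l : ℤ) ∣ (i : ℤ) - (j : ℤ) :=
        ⟨(γ' : Matrix (Fin 2) (Fin 2) ℤ) 0 1, by linarith⟩
      have hi := i.isLt
      have hj := j.isLt
      have h4 : (i : ℤ) - (j : ℤ) = 0 := by
        apply Int.eq_zero_of_abs_lt_dvd h3
        rw [abs_lt]
        constructor <;> omega
      congr 1
      apply Fin.ext
      omega

end Gou

end
end

section

/-!
MP_602313_nt, module C1, item K3: conjugation by `(1 j/N; 0 1)`.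
-/

open scoped MatrixGroups ModularForm UpperHalfPlane Manifold Pointwise
open CongruenceSubgroup UpperHalfPlane Matrix Matrix.SpecialLinearGroup ConjAct OnePoint

noncomputable section

namespace Gou

theorem k3B : K3B := by
  intro N j hN γ hγ
  rw [Gamma_mem] at hγ
  obtain ⟨ha, hb, hc, hd⟩ := hγ
  have hc' : ((N ^ 2 : ℕ) : ℤ) ∣ γ 1 0 := (ZMod.intCast_zmod_eq_zero_iff_dvd _ _).mp hc
  have hda : ((N ^ 2 : ℕ) : ℤ) ∣ γ 1 1 - γ 0 0 := by
    rw [← ZMod.intCast_zmod_eq_zero_iff_dvd]
    push_cast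
    rw [ha, hd, sub_self]
  obtain ⟨c0, hc0⟩ := hc'
  obtain ⟨e0, he0⟩ := hda
  have hdet : γ 0 0 * γ 1 1 - γ 0 1 * γ 1 0 = 1 := by
    have := γ.det_coe
    rwa [Matrix.det_fin_two] at this
  push_cast at hc0 he0
  let M : Matrix (Fin 2) (Fin 2) ℤ := !![γ 0 0 + N * c0 * j, γ 0 1 + N * e0 * j - c0 * j ^ 2;
    γ 1 0, γ 1 1 - N * c0 * j]
  have hM : M.det = 1 := by
    rw [Matrix.det_fin_two_of]
    have e1 : γ 1 1 = γ 0 0 + (N : ℤ) ^ 2 * e0 := by linarith
    rw [e1, hc0] at hdet ⊢
    linear_combination hdet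
  refine ⟨⟨M, hM⟩, ?_, ?_⟩
  · rw [Gamma0_mem]
    change ((γ 1 0 : ℤ) : ZMod N) = 0
    rw [hc0]
    push_cast
    simp
  · have hNQ : (N : ℚ) ≠ 0 := by exact_mod_cast hN
    have e1 : (γ 1 1 : ℚ) = γ 0 0 + (N : ℚ) ^ 2 * e0 := by
      have : γ 1 1 = γ 0 0 + (N : ℤ) ^ 2 * e0 := by linarith
      exact_mod_cast this
    have e2 : (γ 1 0 : ℚ) = (N : ℚ) ^ 2 * c0 := by exact_mod_cast hc0
    ext a b
    fin_cases a <;> fin_cases b
    · simp [gB, M, GeneralLinearGroup.mkOfDetNeZero, Matrix.mul_apply, Fin.sum_univ_two, e2]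
      field_simp
    · simp [gB, M, GeneralLinearGroup.mkOfDetNeZero, Matrix.mul_apply, Fin.sum_univ_two, e1]
      field_simp
      ring
    · simp [gB, M, GeneralLinearGroup.mkOfDetNeZero, Matrix.mul_apply, Fin.sum_univ_two]
    · simp [gB, M, GeneralLinearGroup.mkOfDetNeZero, Matrix.mul_apply, Fin.sum_univ_two, e2]
      field_simp
      ring

end Gou

end
end

section

/-!
MP_602313_nt, item Q1: the q-expansion of a cusp form of period one.
-/

open scoped MatrixGroups ModularForm UpperHalfPlane Manifold Pointwise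
open CongruenceSubgroup UpperHalfPlane Matrix Matrix.SpecialLinearGroup ConjAct OnePoint

noncomputable section

namespace Gou

theorem Q1Exp_cusp : IsCusp (OnePoint.infty : OnePoint ℝ) 𝒮ℒ :=
  isCusp_SL2Z_iff'.mpr ⟨1, by simp⟩

theorem Q1Exp_periodic {F : ℍ → ℂ} (hF : ∀ z, F (shPt 1 1 z) = F z) :
    Function.Periodic (F ∘ ofComplex) ((1 : ℝ) : ℂ) := by
  intro w
  by_cases hw : 0 < w.im
  · have h2 : 0 < (w + ((1 : ℝ) : ℂ)).im := by simpa using hw
    simp only [Function.comp_apply, ofComplex_apply_of_im_pos h2, ofComplex_apply_of_im_pos hw]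
    rw [← hF ⟨w, hw⟩]
    congr 1
    ext
    show w + ((1 : ℝ) : ℂ) = w + (((((1 : ℕ) : ℝ) / ((1 : ℕ) : ℝ)) : ℝ) : ℂ)
    simp
  · have h1 : w.im ≤ 0 := not_lt.mp hw
    have h2 : (w + ((1 : ℝ) : ℂ)).im ≤ 0 := by simpa using h1
    rw [Function.comp_apply, Function.comp_apply, ofComplex_apply_of_im_nonpos h2,
      ofComplex_apply_of_im_nonpos h1]

theorem q1Exp : Q1Exp := by
  intro k F hF hper
  have hz : IsZeroAtImInfty F := isZeroAt_infty_iff.mp (hF.zero _ Q1Exp_cusp)
  have hb : IsBoundedAtImInfty F := Filter.ZeroAtFilter.boundedAtFilter hz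
  have hp := Q1Exp_periodic hper
  refine ⟨fun z => ?_, ?_⟩
  · have h := UpperHalfPlane.hasSum_qExpansion one_pos hp hF.holo hb z
    convert h using 2 with m
    show aq F m * _ = (qExpansion 1 F).coeff m * Function.Periodic.qParam 1 (z : ℂ) ^ m
    unfold aq
    congr 1
    rw [Function.Periodic.qParam, ← Complex.exp_nat_mul]
    congr 1
    push_cast
    ring
  · show (qExpansion 1 F).coeff 0 = 0
    rw [UpperHalfPlane.qExpansion_coeff_zero one_pos
      (UpperHalfPlane.analyticAt_cuspFunction_zero one_pos hp hF.holo hb) hp]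
    exact UpperHalfPlane.IsZeroAtImInfty.valueAtInfty_eq_zero hz

end Gou

end
end

section

/-!
Q2: uniqueness of the coefficients.
-/

open scoped UpperHalfPlane
open UpperHalfPlane

noncomputable section

namespace Gou

namespace Q2U

theorem fps {c : ℕ → ℂ} {G : ℂ → ℂ}
    (h : ∀ z : ℂ, ‖z‖ < 1 → HasSum (fun n => c n * z ^ n) (G z)) :
    HasFPowerSeriesOnBall G (FormalMultilinearSeries.ofScalars ℂ c) 0 1 := by
  refine ⟨?_, one_pos, ?_⟩
  · apply ENNReal.le_of_forall_nnreal_lt
    intro r hr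
    have hr1 : (r : ℝ) < 1 := by exact_mod_cast hr
    have hr0 : ‖((r : ℝ) : ℂ)‖ = (r : ℝ) := by
      rw [Complex.norm_real, Real.norm_eq_abs]; exact abs_of_nonneg r.coe_nonneg
    have ht := (h ((r : ℝ) : ℂ) (by rw [hr0]; exact hr1)).summable.tendsto_atTop_zero.norm
    rw [norm_zero] at ht
    apply FormalMultilinearSeries.le_radius_of_tendsto _ (l := 0)
    refine ht.congr (fun n => ?_)
    have e : ‖FormalMultilinearSeries.ofScalars ℂ c n‖ = ‖c n‖ := by
      rw [FormalMultilinearSeries.norm_apply_eq_norm_coef,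
        FormalMultilinearSeries.coeff_ofScalars]
    calc ‖c n * ((r : ℝ) : ℂ) ^ n‖ = ‖c n‖ * (r : ℝ) ^ n := by rw [norm_mul, norm_pow, hr0]
      _ = _ := by rw [e]
  · intro y hy
    have hy' : ‖y‖ < 1 := by
      have h1 : ‖y‖ₑ < 1 := by simpa using hy
      rw [enorm_eq_nnnorm] at h1
      have h2 : ‖y‖₊ < 1 := by exact_mod_cast h1
      exact_mod_cast h2
    have := h y hy'
    rw [zero_add]
    convert! this using 2 with n
    rw [FormalMultilinearSeries.apply_eq_pow_smul_coeff,
      FormalMultilinearSeries.coeff_ofScalars, smul_eq_mul, mul_comm]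

/-- Every `q` with `0 < |q| < 1` is `exp (2 π i z)` with `z` in the upper half plane. -/
theorem exists_z (q : ℂ) (hq : q ≠ 0) (hq1 : ‖q‖ < 1) :
    ∃ z : ℍ, Complex.exp (2 * Real.pi * Complex.I * (z : ℂ)) = q := by
  have hpi : (2 * Real.pi * Complex.I : ℂ) ≠ 0 := by
    simp [Real.pi_ne_zero]
  have him : 0 < (Complex.log q / (2 * Real.pi * Complex.I)).im := by
    have h1 : Complex.log q / (2 * Real.pi * Complex.I) =
        ((2 * Real.pi)⁻¹ : ℝ) * (-(Complex.I * Complex.log q)) := by
      have hpi2 : (Real.pi : ℂ) ≠ 0 := by exact_mod_cast Real.pi_ne_zero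
      push_cast
      field_simp
      rw [Complex.I_sq]
      ring
    rw [h1, Complex.im_ofReal_mul]
    have h2 : (-(Complex.I * Complex.log q)).im = -Real.log ‖q‖ := by
      simp [Complex.log_re]
    rw [h2]
    have h3 : Real.log ‖q‖ < 0 := Real.log_neg (norm_pos_iff.2 hq) hq1
    have h4 : 0 < (2 * Real.pi)⁻¹ := by positivity
    exact mul_pos h4 (by linarith)
  refine ⟨⟨Complex.log q / (2 * Real.pi * Complex.I), him⟩, ?_⟩
  change Complex.exp (2 * Real.pi * Complex.I * (Complex.log q / (2 * Real.pi * Complex.I))) = q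
  rw [mul_div_cancel₀ _ hpi, Complex.exp_log hq]

end Q2U

theorem q2Uniq : Q2Uniq := by
  intro F a b ha hb
  classical
  have key : ∀ q : ℂ, ‖q‖ < 1 → HasSum (fun n => (a n - b n) * q ^ n)
      (if q = 0 then a 0 - b 0 else 0) := by
    intro q hq
    by_cases h0 : q = 0
    · subst h0
      rw [if_pos rfl]
      have := hasSum_single (f := fun n => (a n - b n) * (0 : ℂ) ^ n) 0 (by
        intro n hn
        rw [zero_pow hn, mul_zero])
      simpa using this
    · rw [if_neg h0]
      obtain ⟨z, hz⟩ := Q2U.exists_z q h0 hq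
      have h1 := (ha z).sub (hb z)
      rw [sub_self] at h1
      refine h1.congr_fun fun n => ?_
      have h2 : Complex.exp (2 * Real.pi * Complex.I * n * (z : ℂ)) = q ^ n := by
        rw [← hz, ← Complex.exp_nat_mul]
        congr 1
        ring
      rw [h2]
      ring
  have hf := (Q2U.fps key).hasFPowerSeriesAt
  have h0 : a 0 - b 0 = 0 := by
    have hc := hf.continuousAt
    have h1 : Filter.Tendsto (fun q : ℂ => if q = 0 then a 0 - b 0 else 0) (nhdsWithin 0 {0}ᶜ)
        (nhds (if (0 : ℂ) = 0 then a 0 - b 0 else 0)) := hc.tendsto.mono_left nhdsWithin_le_nhds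
    have h2 : Filter.Tendsto (fun q : ℂ => if q = 0 then a 0 - b 0 else 0) (nhdsWithin 0 {0}ᶜ)
        (nhds 0) := by
      refine tendsto_const_nhds.congr' ?_
      filter_upwards [self_mem_nhdsWithin] with q hq
      rw [if_neg (by simpa using hq)]
    rw [if_pos rfl] at h1
    exact tendsto_nhds_unique h1 h2
  have h1 : (fun q : ℂ => if q = 0 then a 0 - b 0 else 0) = 0 := by
    funext q
    rw [h0]
    simp
  rw [h1] at hf
  have h2 := hf.eq_zero
  funext n
  have h3 : (FormalMultilinearSeries.ofScalars ℂ fun n => a n - b n).coeff n = 0 := by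
    rw [h2]; rfl
  rw [FormalMultilinearSeries.coeff_ofScalars] at h3
  exact sub_eq_zero.1 h3

end Gou

end
end

section

/-!
MP_602313_nt, item Q3: the operator `U_d` on q-expansions.
-/

open scoped MatrixGroups ModularForm UpperHalfPlane Manifold Pointwise
open CongruenceSubgroup UpperHalfPlane Matrix Matrix.SpecialLinearGroup ConjAct OnePoint

noncomputable section

namespace Gou

/-- Root of unity sum. -/
theorem Q3U_root (d m : ℕ) (hd : 0 < d) :
    ∑ j ∈ Finset.range d, Complex.exp (2 * Real.pi * Complex.I * m * j / d) =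
      if d ∣ m then (d : ℂ) else 0 := by
  have hd0 : (d : ℂ) ≠ 0 := by exact_mod_cast hd.ne'
  have h1 : ∀ j : ℕ, Complex.exp (2 * Real.pi * Complex.I * m * j / d) =
      Complex.exp (2 * Real.pi * Complex.I * m / d) ^ j := by
    intro j
    rw [← Complex.exp_nat_mul]
    congr 1
    ring
  simp only [h1]
  by_cases h : d ∣ m
  · rw [if_pos h]
    obtain ⟨c, rfl⟩ := h
    have : Complex.exp (2 * Real.pi * Complex.I * ((d * c : ℕ) : ℂ) / d) = 1 := by
      rw [Complex.exp_eq_one_iff]
      refine ⟨c, ?_⟩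
      push_cast
      field_simp
    rw [this]
    simp
  · rw [if_neg h]
    have hne : Complex.exp (2 * Real.pi * Complex.I * m / d) ≠ 1 := by
      intro he
      rw [Complex.exp_eq_one_iff] at he
      obtain ⟨c, hc⟩ := he
      have hpi : (2 * (Real.pi : ℂ) * Complex.I) ≠ 0 := Complex.two_pi_I_ne_zero
      have h2 : (m : ℂ) = d * c := by
        have : 2 * (Real.pi : ℂ) * Complex.I * m = 2 * (Real.pi : ℂ) * Complex.I * (d * c) := by
          rw [div_eq_iff hd0] at hc
          rw [hc]
          ring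
        exact mul_left_cancel₀ hpi this
      have h3 : (m : ℤ) = d * c := by exact_mod_cast h2
      exact h (Int.natCast_dvd_natCast.mp ⟨c, h3⟩)
    have hpow : Complex.exp (2 * Real.pi * Complex.I * m / d) ^ d = 1 := by
      rw [← Complex.exp_nat_mul, Complex.exp_eq_one_iff]
      refine ⟨m, ?_⟩
      push_cast
      field_simp
    rw [geom_sum_eq hne, hpow, sub_self, zero_div]

theorem q3U : Q3U := by
  intro F a d hd hF z
  have hd0 : (d : ℂ) ≠ 0 := by exact_mod_cast hd.ne'
  have h1 : HasSum (fun m : ℕ => (d : ℂ)⁻¹ * ∑ j ∈ Finset.range d,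
      a m * Complex.exp (2 * Real.pi * Complex.I * m * (divPt d j hd z : ℂ)))
      ((d : ℂ)⁻¹ * ∑ j ∈ Finset.range d, F (divPt d j hd z)) :=
    (hasSum_sum fun j _ => hF (divPt d j hd z)).mul_left _
  have h2 : (fun m : ℕ => (d : ℂ)⁻¹ * ∑ j ∈ Finset.range d,
      a m * Complex.exp (2 * Real.pi * Complex.I * m * (divPt d j hd z : ℂ))) =
      fun m : ℕ => if d ∣ m then a m * Complex.exp (2 * Real.pi * Complex.I * m * z / d) else 0 := by
    funext m
    have h3 : ∀ j ∈ Finset.range d,
        a m * Complex.exp (2 * Real.pi * Complex.I * m * (divPt d j hd z : ℂ)) =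
        (a m * Complex.exp (2 * Real.pi * Complex.I * m * z / d)) *
          Complex.exp (2 * Real.pi * Complex.I * m * j / d) := by
      intro j _
      rw [mul_assoc (a m), ← Complex.exp_add]
      congr 2
      show 2 * (Real.pi : ℂ) * Complex.I * m * (((z : ℂ) + j) / d) = _
      ring
    rw [Finset.sum_congr rfl h3, ← Finset.mul_sum, Q3U_root d m hd]
    split_ifs with h
    · field_simp
    · simp
  rw [h2] at h1
  have hinj : Function.Injective (fun m : ℕ => d * m) := fun x y hxy =>
    Nat.eq_of_mul_eq_mul_left hd hxy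
  rw [← hinj.hasSum_iff] at h1
  · convert h1 using 2 with m
    show _ = if d ∣ d * m then a (d * m) *
        Complex.exp (2 * Real.pi * Complex.I * ((d * m : ℕ) : ℂ) * z / d) else 0
    rw [if_pos (dvd_mul_right d m)]
    congr 2
    push_cast
    field_simp
  · intro x hx
    have : ¬ d ∣ x := fun ⟨c, hc⟩ => hx ⟨c, hc.symm⟩
    simp [this]

end Gou

end
end

section

/-!
MP_602313_nt, item Q4: the operator `V_l` on q-expansions.
-/

open scoped MatrixGroups ModularForm UpperHalfPlane Manifold Pointwise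
open CongruenceSubgroup UpperHalfPlane Matrix Matrix.SpecialLinearGroup ConjAct OnePoint

noncomputable section

namespace Gou

theorem q4V : Q4V := by
  intro F a l hl hF z
  have h := hF (mulPt l hl z)
  have hinj : Function.Injective (fun m : ℕ => l * m) := fun x y hxy =>
    Nat.eq_of_mul_eq_mul_left hl hxy
  rw [← hinj.hasSum_iff]
  · convert h using 2 with m
    show (if l ∣ l * m then a (l * m / l) else 0) *
        Complex.exp (2 * Real.pi * Complex.I * ((l * m : ℕ) : ℂ) * (z : ℂ)) = _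
    rw [if_pos (dvd_mul_right l m), Nat.mul_div_cancel_left m hl]
    congr 2
    show _ = 2 * (Real.pi : ℂ) * Complex.I * m * ((l : ℂ) * z)
    push_cast
    ring
  · intro x hx
    have : ¬ l ∣ x := fun ⟨c, hc⟩ => hx ⟨c, hc.symm⟩
    simp [this]

end Gou

end
end

section

/-!
MP_602313_nt, item Q5: translations of `q`-expansions.
-/

open scoped UpperHalfPlane
open UpperHalfPlane

noncomputable section

namespace Gou

theorem q5Shift : Q5Shift := by
  intro F a N j hF z
  have h := hF (shPt N j z)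
  have e : (fun m : ℕ => a m * Complex.exp (2 * Real.pi * Complex.I * m * j / N) *
      Complex.exp (2 * Real.pi * Complex.I * m * (z : ℂ))) =
      fun m : ℕ => a m * Complex.exp (2 * Real.pi * Complex.I * m * ((shPt N j z : ℍ) : ℂ)) := by
    funext m
    rw [mul_assoc, ← Complex.exp_add]
    congr 2
    have h1 : ((shPt N j z : ℍ) : ℂ) = (z : ℂ) + ((j : ℝ) / N : ℝ) := rfl
    rw [h1]
    push_cast
    ring
  show HasSum (fun m : ℕ => a m * Complex.exp (2 * Real.pi * Complex.I * m * j / N) *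
      Complex.exp (2 * Real.pi * Complex.I * m * (z : ℂ))) (F (shPt N j z))
  rw [e]
  exact h

end Gou

end
end

section

/-!
Q6. Decay at infinity from the vanishing of the first coefficients.
-/

open scoped UpperHalfPlane
open UpperHalfPlane

noncomputable section

namespace Gou

theorem q6Decay_norm (z : ℂ) (m : ℕ) :
    ‖Complex.exp (2 * Real.pi * Complex.I * m * z)‖ = Real.exp (-2 * Real.pi * m * z.im) := by
  rw [Complex.norm_exp]
  congr 1
  have h : (2 * Real.pi * Complex.I * m * z : ℂ) =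
      ((2 * Real.pi * m : ℝ) : ℂ) * (Complex.I * z) := by
    push_cast
    ring
  rw [h, Complex.re_ofReal_mul, Complex.I_mul_re]
  ring

theorem q6Decay : Q6Decay := by
  intro F a M hF ha
  have hs : Summable (fun m : ℕ => ‖a m‖ * Real.exp (-2 * Real.pi * m)) := by
    have h1 := (hF UpperHalfPlane.I).summable.norm
    refine h1.congr fun m => ?_
    rw [norm_mul, q6Decay_norm]
    have h2 : (UpperHalfPlane.I : ℂ).im = 1 := by simp
    rw [h2, mul_one]
  set S : ℝ := ∑' m : ℕ, ‖a m‖ * Real.exp (-2 * Real.pi * m) with hS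
  apply Asymptotics.IsBigO.of_bound (Real.exp (2 * Real.pi * ((M : ℝ) + 1)) * S)
  rw [Filter.Eventually, atImInfty_mem]
  refine ⟨1, fun z hz => ?_⟩
  show ‖F z‖ ≤ _
  rw [Real.norm_of_nonneg (Real.exp_pos _).le]
  have hb : ∀ m : ℕ, ‖a m * Complex.exp (2 * Real.pi * Complex.I * m * (z : ℂ))‖ ≤
      (Real.exp (2 * Real.pi * ((M : ℝ) + 1)) * Real.exp (-2 * Real.pi * ((M : ℝ) + 1) * z.im)) *
        (‖a m‖ * Real.exp (-2 * Real.pi * m)) := by
    intro m
    rw [norm_mul, q6Decay_norm]
    rcases Nat.lt_or_ge M m with hm | hm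
    · have h1 : Real.exp (-2 * Real.pi * m * (z : ℂ).im) ≤
          Real.exp (2 * Real.pi * ((M : ℝ) + 1)) * Real.exp (-2 * Real.pi * ((M : ℝ) + 1) * z.im) *
            Real.exp (-2 * Real.pi * m) := by
        rw [← Real.exp_add, ← Real.exp_add, Real.exp_le_exp]
        have h2 : ((M : ℝ) + 1) ≤ m := by exact_mod_cast hm
        have h3 : 0 ≤ ((m : ℝ) - (M + 1)) * (z.im - 1) :=
          mul_nonneg (by linarith) (by linarith)
        have h4 : 0 ≤ 2 * Real.pi * (((m : ℝ) - (M + 1)) * (z.im - 1)) :=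
          mul_nonneg (by positivity) h3
        have h5 : (z : ℂ).im = z.im := rfl
        rw [h5]
        nlinarith
      calc _ ≤ ‖a m‖ * (Real.exp (2 * Real.pi * ((M : ℝ) + 1)) *
            Real.exp (-2 * Real.pi * ((M : ℝ) + 1) * z.im) * Real.exp (-2 * Real.pi * m)) :=
            mul_le_mul_of_nonneg_left h1 (norm_nonneg _)
        _ = _ := by ring
    · rw [ha m hm, norm_zero, zero_mul]
      positivity
  have h1 := (hF z).norm_le_of_bounded (hs.hasSum.mul_left _) hb
  calc ‖F z‖ ≤ _ := h1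
    _ = _ := by rw [← hS]; ring

end Gou

end
end

section

/-! MP_602313_nt, item C-R1Eigen. -/

namespace Gou

theorem r1Eigen : R1Eigen := by
  intro N k χ a h d m
  induction m using Nat.strong_induction_on with
  | _ m ih =>
    intro hm hd hdN hmN
    by_cases hm1 : m ≤ 1
    · have : m = 1 := by omega
      subst this
      rw [lamC, dif_pos (le_refl 1), mul_one, one_mul]
    · have hl : m.minFac.Prime := Nat.minFac_prime (by omega)
      have hlm : m.minFac ∣ m := Nat.minFac_dvd m
      have hlN : ¬ m.minFac ∣ N := fun hN =>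
        hl.one_lt.ne' (Nat.dvd_one.1 (hmN ▸ Nat.dvd_gcd hlm hN))
      have hld : ¬ m.minFac ∣ d := fun hd' => hlN (hdN _ hl hd')
      rw [lamC, dif_neg hm1]
      generalize m.minFac = l at hl hlm hlN hld
      obtain ⟨m', rfl⟩ := hlm
      have hm' : m' ≠ 0 := by
        rintro rfl
        exact hm (by simp)
      have hlt : m' < l * m' := by
        have h1 := hl.one_lt
        have h2 := Nat.pos_of_ne_zero hm'
        nlinarith
      rw [Nat.mul_div_cancel_left m' hl.pos]
      have hm'N : m'.Coprime N := Nat.Coprime.coprime_mul_left hmN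
      have ih1 := ih m' hlt hm' hd hdN hm'N
      have h1 := h l hl hlN (d * m')
      have h2 : d * (l * m') = l * (d * m') := by ring
      rw [h2, eq_sub_of_add_eq h1, ih1]
      by_cases hlm' : l ∣ m'
      · obtain ⟨m'', rfl⟩ := hlm'
        have hm'' : m'' ≠ 0 := by
          rintro rfl
          exact hm' (by simp)
        have hlt' : m'' < l * (l * m'') := by
          have h1 := hl.one_lt
          have h2 := Nat.pos_of_ne_zero hm''
          have h3 : m'' < l * m'' := by nlinarith
          exact h3.trans hlt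
        have hm''N : m''.Coprime N := Nat.Coprime.coprime_mul_left hm'N
        have ih2 := ih m'' hlt' hm'' hd hdN hm''N
        have h3 : d * (l * m'') = l * (d * m'') := by ring
        rw [if_pos (h3 ▸ Dvd.intro _ rfl), if_pos (Dvd.intro _ rfl), h3,
          Nat.mul_div_cancel_left _ hl.pos, Nat.mul_div_cancel_left _ hl.pos, ih2]
        ring
      · rw [if_neg, if_neg hlm']
        · ring
        · intro h'
          rcases (Nat.Prime.dvd_mul hl).1 h' with h'' | h''
          · exact hld h''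
          · exact hlm' h''

end Gou

end

section

/-!
MP_602313_nt, item R2: `cmul` and `lamC` determine each other.
-/

noncomputable section

namespace Gou

namespace R2

/-- The space of functions of `χ`. -/
abbrev W := (ℕ → ℂ) → ℂ

/-- Multiplication by `χ l`. -/
def mulChi (l : ℕ) : W →ₗ[ℂ] W where
  toFun w := fun χ => χ l * w χ
  map_add' u v := by
    funext χ
    simp [mul_add]
  map_smul' c u := by
    funext χ
    simp only [Pi.smul_apply, smul_eq_mul, RingHom.id_apply]
    ring

/-- `cmul` as a function of `χ`. -/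
def cw (m : ℕ) : W := fun χ => cmul χ m

/-- `lamC` as a function of `χ`. -/
def lw (k : ℤ) (m : ℕ) : W := fun χ => lamC k χ m

theorem cmul_mul (χ : ℕ → ℂ) {l m : ℕ} (hl : l.Prime) (hm : m ≠ 0) :
    cmul χ (l * m) = χ l * cmul χ m := by
  unfold cmul
  have h := Nat.perm_primeFactorsList_mul hl.ne_zero hm
  rw [(h.map χ).prod_eq, List.map_append, List.prod_append, Nat.primeFactorsList_prime hl]
  simp

theorem lam_one (k : ℤ) (χ : ℕ → ℂ) : lamC k χ 1 = 1 := by
  rw [lamC]
  simp

theorem cmul_one (χ : ℕ → ℂ) : cmul χ 1 = 1 := by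
  simp [cmul]

theorem lam_mul (k : ℤ) (χ : ℕ → ℂ) {l m : ℕ} (hm : m ≠ 0) (hl : l.Prime)
    (h : (l * m).minFac = l) : lamC k χ (l * m) = χ l * lamC k χ m - (l : ℂ) ^ (k - 1) *
      (if l ∣ m then lamC k χ (m / l) else 0) := by
  have h1 : ¬ l * m ≤ 1 := by
    have := hl.two_le
    have := Nat.mul_le_mul this (Nat.one_le_iff_ne_zero.2 hm)
    omega
  rw [lamC, dif_neg h1, h, Nat.mul_div_cancel_left m hl.pos]

theorem lw_mem (k : ℤ) (m : ℕ) (hm : m ≠ 0) :
    lw k m ∈ Submodule.span ℂ (cw '' (m.divisors : Set ℕ)) := by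
  induction m using Nat.strong_induction_on with
  | _ m ih =>
    by_cases h1 : m = 1
    · subst h1
      refine Submodule.subset_span ⟨1, by simp, ?_⟩
      funext χ
      show cmul χ 1 = lamC k χ 1
      rw [cmul_one, lam_one]
    · have hl : m.minFac.Prime := Nat.minFac_prime h1
      obtain ⟨n, hn⟩ := Nat.minFac_dvd m
      set l := m.minFac with hldef
      have hn0 : n ≠ 0 := by
        rintro rfl
        exact hm (by rw [hn, mul_zero])
      have hnm : n < m := by
        rw [hn]
        exact (Nat.lt_mul_iff_one_lt_left (Nat.pos_of_ne_zero hn0)).2 hl.one_lt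
      have hmin : (l * n).minFac = l := by rw [← hn]
      have hmono : ∀ n', n' ∣ m → Submodule.span ℂ (cw '' (n'.divisors : Set ℕ)) ≤
          Submodule.span ℂ (cw '' (m.divisors : Set ℕ)) := by
        intro n' h'
        refine Submodule.span_mono (Set.image_mono ?_)
        exact_mod_cast Nat.divisors_subset_of_dvd hm h'
      have hmul : Submodule.span ℂ (cw '' (n.divisors : Set ℕ)) ≤
          (Submodule.span ℂ (cw '' (m.divisors : Set ℕ))).comap (mulChi l) := by
        rw [Submodule.span_le]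
        rintro _ ⟨d, hd, rfl⟩
        have hd' : d ∣ n := Nat.dvd_of_mem_divisors (by exact_mod_cast hd)
        have hd0 : d ≠ 0 := fun e => hn0 (by rw [e] at hd'; exact Nat.eq_zero_of_zero_dvd hd')
        refine Submodule.subset_span ⟨l * d, ?_, ?_⟩
        · have : l * d ∈ m.divisors := by
            rw [Nat.mem_divisors]
            exact ⟨by rw [hn]; exact Nat.mul_dvd_mul_left l hd', hm⟩
          exact_mod_cast this
        · funext χ
          exact cmul_mul χ hl hd0
      have e : lw k m = mulChi l (lw k n) - ((l : ℂ) ^ (k - 1)) •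
          (if l ∣ n then lw k (n / l) else 0) := by
        funext χ
        have h2 := lam_mul k χ hn0 hl hmin
        rw [← hn] at h2
        show lamC k χ m = _
        rw [h2]
        by_cases hd : l ∣ n
        · simp [hd, mulChi, lw]
        · simp [hd, mulChi, lw]
      rw [e]
      refine Submodule.sub_mem _ (hmul (ih n hnm hn0)) (Submodule.smul_mem _ _ ?_)
      by_cases hd : l ∣ n
      · rw [if_pos hd]
        have hd' : n / l ∣ n := Nat.div_dvd_of_dvd hd
        have h3 : n / l ≠ 0 := (Nat.div_pos (Nat.le_of_dvd (Nat.pos_of_ne_zero hn0) hd) hl.pos).ne'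
        have h4 : n / l < m := lt_of_le_of_lt (Nat.div_le_self _ _) hnm
        refine hmono _ (hd'.trans ⟨l, by rw [hn, mul_comm]⟩) (ih _ h4 h3)
      · rw [if_neg hd]
        exact Submodule.zero_mem _

theorem cw_mem (k : ℤ) (m : ℕ) (hm : m ≠ 0) :
    cw m ∈ Submodule.span ℂ (lw k '' (m.divisors : Set ℕ)) := by
  induction m using Nat.strong_induction_on with
  | _ m ih =>
    by_cases h1 : m = 1
    · subst h1
      refine Submodule.subset_span ⟨1, by simp, ?_⟩
      funext χ
      show lamC k χ 1 = cmul χ 1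
      rw [cmul_one, lam_one]
    · have hl : m.minFac.Prime := Nat.minFac_prime h1
      obtain ⟨n, hn⟩ := Nat.minFac_dvd m
      set l := m.minFac with hldef
      have hn0 : n ≠ 0 := by
        rintro rfl
        exact hm (by rw [hn, mul_zero])
      have hnm : n < m := by
        rw [hn]
        exact (Nat.lt_mul_iff_one_lt_left (Nat.pos_of_ne_zero hn0)).2 hl.one_lt
      have hmul : Submodule.span ℂ (lw k '' (n.divisors : Set ℕ)) ≤
          (Submodule.span ℂ (lw k '' (m.divisors : Set ℕ))).comap (mulChi l) := by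
        rw [Submodule.span_le]
        rintro _ ⟨d, hd, rfl⟩
        have hd' : d ∣ n := Nat.dvd_of_mem_divisors (by exact_mod_cast hd)
        have hd0 : d ≠ 0 := fun e => hn0 (by rw [e] at hd'; exact Nat.eq_zero_of_zero_dvd hd')
        have hld : l * d ∣ m := by rw [hn]; exact Nat.mul_dvd_mul_left l hd'
        have hmin : (l * d).minFac = l := by
          apply le_antisymm
          · exact Nat.minFac_le_of_dvd hl.two_le (dvd_mul_right l d)
          · have h5 : (l * d).minFac ∣ m := (Nat.minFac_dvd _).trans hld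
            have h6 : (l * d).minFac ≠ 1 := by
              rw [Ne, Nat.minFac_eq_one_iff]
              intro h7
              exact hl.one_lt.ne' (Nat.eq_one_of_mul_eq_one_right h7)
            exact Nat.minFac_le_of_dvd ((Nat.minFac_prime (fun h7 => h6 (by rw [h7]; exact Nat.minFac_one))).two_le) h5
        have e : mulChi l (lw k d) = lw k (l * d) + ((l : ℂ) ^ (k - 1)) •
            (if l ∣ d then lw k (d / l) else 0) := by
          funext χ
          have h2 := lam_mul k χ hd0 hl hmin
          show χ l * lamC k χ d = _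
          by_cases hdd : l ∣ d
          · simp [hdd, lw] at h2 ⊢
            rw [h2]
            ring
          · simp [hdd, lw] at h2 ⊢
            rw [h2]
        rw [SetLike.mem_coe, Submodule.mem_comap, e]
        refine Submodule.add_mem _ (Submodule.subset_span ⟨l * d, ?_, rfl⟩)
          (Submodule.smul_mem _ _ ?_)
        · have : l * d ∈ m.divisors := Nat.mem_divisors.2 ⟨hld, hm⟩
          exact_mod_cast this
        · by_cases hdd : l ∣ d
          · rw [if_pos hdd]
            refine Submodule.subset_span ⟨d / l, ?_, rfl⟩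
            have : d / l ∈ m.divisors := Nat.mem_divisors.2
              ⟨(Nat.div_dvd_of_dvd hdd).trans (hd'.trans ⟨l, by rw [hn, mul_comm]⟩), hm⟩
            exact_mod_cast this
          · rw [if_neg hdd]
            exact Submodule.zero_mem _
      have e : cw m = mulChi l (cw n) := by
        funext χ
        show cmul χ m = χ l * cmul χ n
        rw [hn]
        exact cmul_mul χ hl hn0
      rw [e]
      exact hmul (ih n hnm hn0)

end R2

theorem r2Conv : R2Conv := by
  intro k
  have h1 : ∀ m : ℕ, ∃ c : ℕ → ℂ, m ≠ 0 → ∀ χ, cmul χ m = ∑ m' ∈ m.divisors, c m' * lamC k χ m' := by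
    intro m
    by_cases hm : m = 0
    · exact ⟨0, fun h => absurd hm h⟩
    · obtain ⟨c, hc⟩ := (Submodule.mem_span_image_finset_iff_exists_fun' ℂ).1 (R2.cw_mem k m hm)
      refine ⟨c, fun _ χ => ?_⟩
      have h3 := congrFun hc χ
      rw [Finset.sum_apply] at h3
      exact h3.symm
  have h2 : ∀ m : ℕ, ∃ c : ℕ → ℂ, m ≠ 0 → ∀ χ, lamC k χ m = ∑ m' ∈ m.divisors, c m' * cmul χ m' := by
    intro m
    by_cases hm : m = 0
    · exact ⟨0, fun h => absurd hm h⟩
    · obtain ⟨c, hc⟩ := (Submodule.mem_span_image_finset_iff_exists_fun' ℂ).1 (R2.lw_mem k m hm)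
      refine ⟨c, fun _ χ => ?_⟩
      have h3 := congrFun hc χ
      rw [Finset.sum_apply] at h3
      exact h3.symm
  choose b hb using h1
  choose b' hb' using h2
  exact ⟨b, b', fun χ m hm => ⟨hb m hm χ, hb' m hm χ⟩⟩

end Gou

end
end

section

/-! MP_602313_nt, item C-R3Fact. -/

namespace Gou

theorem r3Fact : R3Fact := by
  intro N hN m
  induction m using Nat.strong_induction_on with
  | _ m ih =>
    intro hm
    by_cases hc : m.Coprime N
    · refine ⟨1, m, one_ne_zero, hm, (one_mul m).symm, ?_, hc⟩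
      intro q hq hq1
      exact absurd (Nat.dvd_one.1 hq1) hq.one_lt.ne'
    · obtain ⟨q, hq, hqm, hqN⟩ := Nat.Prime.not_coprime_iff_dvd.1 hc
      obtain ⟨m', rfl⟩ := hqm
      have hm' : m' ≠ 0 := by
        rintro rfl
        exact hm (by simp)
      have hlt : m' < q * m' := by
        have h1 := hq.one_lt
        have h2 := Nat.pos_of_ne_zero hm'
        nlinarith
      obtain ⟨d, e, hd, he, hde, h1, h2⟩ := ih m' hlt hm'
      refine ⟨q * d, e, Nat.mul_ne_zero hq.ne_zero hd, he, ?_, ?_, h2⟩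
      · rw [hde, mul_assoc]
      · intro r hr hrd
        rcases (Nat.Prime.dvd_mul hr).1 hrd with h | h
        · rw [(Nat.prime_dvd_prime_iff_eq hr hq).1 h]
          exact hqN
        · exact h1 r hr h

end Gou

end

section

/-! MP_602313_nt, item C-R4Count. -/

namespace Gou

theorem r4Count : R4Count := by
  intro N B hN
  classical
  have hv : ∀ d ∈ (Finset.Icc 1 B).filter (fun d => ∀ q ∈ d.primeFactors, q ∣ N),
      ∀ q ∈ N.primeFactors, d.factorization q < Nat.log 2 B + 1 := by
    intro d hd q hq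
    rw [Finset.mem_filter, Finset.mem_Icc] at hd
    have hqp := Nat.prime_of_mem_primeFactors hq
    have h1 : q ^ d.factorization q ≤ d :=
      Nat.le_of_dvd (by omega) (Nat.ordProj_dvd d q)
    have h2 : 2 ^ d.factorization q ≤ B :=
      (Nat.pow_le_pow_left hqp.two_le _).trans (h1.trans hd.1.2)
    have h3 := Nat.le_log_of_pow_le (by norm_num) h2
    omega
  let Φ : ℕ → (N.primeFactors → Fin (Nat.log 2 B + 1)) := fun d q =>
    ⟨min (d.factorization q.1) (Nat.log 2 B), by omega⟩
  have hcard : (Finset.univ : Finset (N.primeFactors → Fin (Nat.log 2 B + 1))).card =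
      (Nat.log 2 B + 1) ^ N.primeFactors.card := by
    rw [Finset.card_univ, Fintype.card_fun, Fintype.card_fin, Fintype.card_coe]
  rw [← hcard]
  refine Finset.card_le_card_of_injOn Φ (fun d _ => Finset.mem_coe.2 (Finset.mem_univ _)) ?_
  intro d hd e he hde
  rw [Finset.mem_coe] at hd he
  have hvd := hv d hd
  have hve := hv e he
  rw [Finset.mem_filter, Finset.mem_Icc] at hd he
  refine Nat.eq_of_factorization_eq (by omega) (by omega) fun q => ?_
  by_cases hq : q ∈ N.primeFactors
  · have h1 := congrArg Fin.val (congrFun hde ⟨q, hq⟩)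
    have h2 := hvd q hq
    have h3 := hve q hq
    simp only [Φ] at h1
    omega
  · have hz : ∀ x : ℕ, (∀ r ∈ x.primeFactors, r ∣ N) → x.factorization q = 0 := by
      intro x hx
      by_contra h
      have hqx : q ∈ x.primeFactors := by
        rw [← Nat.support_factorization, Finsupp.mem_support_iff]
        exact h
      exact hq (Nat.mem_primeFactors.2 ⟨Nat.prime_of_mem_primeFactors hqx, hx q hqx, hN⟩)
    rw [hz d hd.2, hz e he.2]

end Gou

end

section

/-!
MP_602313_nt, R5: Dedekind independence of completely multiplicative functions.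
-/

set_option autoImplicit false

namespace Gou

namespace R5Aux

/-- The monoid of the nonzero integers prime to `N`. -/
def S (N : ℕ) : Submonoid ℕ where
  carrier := {m | m ≠ 0 ∧ m.Coprime N}
  one_mem' := ⟨one_ne_zero, Nat.coprime_one_left N⟩
  mul_mem' := by
    rintro a b ⟨ha, ha'⟩ ⟨hb, hb'⟩
    exact ⟨mul_ne_zero ha hb, Nat.Coprime.mul_left ha' hb'⟩

theorem cmul_one (χ : ℕ → ℂ) : cmul χ 1 = 1 := by
  simp [cmul]

theorem cmul_mul (χ : ℕ → ℂ) {a b : ℕ} (ha : a ≠ 0) (hb : b ≠ 0) :
    cmul χ (a * b) = cmul χ a * cmul χ b := by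
  unfold cmul
  rw [((Nat.perm_primeFactorsList_mul ha hb).map χ).prod_eq, List.map_append, List.prod_append]

theorem cmul_prime (χ : ℕ → ℂ) {l : ℕ} (hl : l.Prime) : cmul χ l = χ l := by
  unfold cmul
  rw [Nat.primeFactorsList_prime hl]
  simp

/-- `cmul χ` as a homomorphism. -/
noncomputable def hom (N : ℕ) (χ : ℕ → ℂ) : S N →* ℂ where
  toFun m := cmul χ m
  map_one' := cmul_one χ
  map_mul' a b := cmul_mul χ a.2.1 b.2.1

end R5Aux

open R5Aux in
theorem r5Ded : R5Ded := by
  intro N r χ hχ c hc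
  have hinj : Function.Injective fun i => hom N (χ i) := by
    intro i j hij
    by_contra hne
    obtain ⟨l, hl, hlN, hne'⟩ := hχ i j hne
    have hmem : l ∈ S N := ⟨hl.ne_zero, (Nat.Prime.coprime_iff_not_dvd hl).2 hlN⟩
    have h1 := DFunLike.congr_fun hij (⟨l, hmem⟩ : S N)
    have h2 : cmul (χ i) l = cmul (χ j) l := h1
    rw [cmul_prime _ hl, cmul_prime _ hl] at h2
    exact hne' h2
  have hli := (linearIndependent_monoidHom (S N) ℂ).comp _ hinj
  have h0 := Fintype.linearIndependent_iff.1 hli c (by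
    funext m
    have h1 := hc m m.2.1 m.2.2
    simpa [Finset.sum_apply, hom] using h1)
  funext i
  exact h0 i

end Gou

end

section

/-! MP_602313_nt, item C-R6Dep. -/

namespace Gou

namespace R6

theorem geom (N : ℕ) (hN : N ≠ 0) (m r : ℕ) :
    ∑ j ∈ Finset.range N, Complex.exp (-(2 * Real.pi * Complex.I * r * j / N)) *
      Complex.exp (2 * Real.pi * Complex.I * m * j / N) = if (m : ZMod N) = r then (N : ℂ) else 0 := by
  have hN' : (N : ℂ) ≠ 0 := by exact_mod_cast hN
  have h1 : ∀ j ∈ Finset.range N, Complex.exp (-(2 * Real.pi * Complex.I * r * j / N)) *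
      Complex.exp (2 * Real.pi * Complex.I * m * j / N) =
      (Complex.exp (2 * Real.pi * Complex.I * ((m : ℂ) - r) / N)) ^ j := by
    intro j _
    rw [← Complex.exp_add, ← Complex.exp_nat_mul]
    congr 1
    field_simp
    ring
  rw [Finset.sum_congr rfl h1]
  by_cases h : (m : ZMod N) = r
  · rw [if_pos h]
    have h2 : (N : ℤ) ∣ (m : ℤ) - r := by
      rw [← ZMod.intCast_zmod_eq_zero_iff_dvd]
      push_cast
      rw [h, sub_self]
    obtain ⟨c, hc⟩ := h2
    have h3 : Complex.exp (2 * Real.pi * Complex.I * ((m : ℂ) - r) / N) = 1 := by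
      rw [Complex.exp_eq_one_iff]
      refine ⟨c, ?_⟩
      have h4 : (m : ℂ) - r = N * c := by exact_mod_cast congrArg (fun x : ℤ => (x : ℂ)) hc
      rw [h4]
      field_simp
    rw [h3]
    simp
  · rw [if_neg h]
    have h3 : Complex.exp (2 * Real.pi * Complex.I * ((m : ℂ) - r) / N) ≠ 1 := by
      intro h3
      rw [Complex.exp_eq_one_iff] at h3
      obtain ⟨c, hc⟩ := h3
      apply h
      have h4 : (m : ℂ) - r = N * c := by
        have hpi : (2 * Real.pi * Complex.I : ℂ) ≠ 0 := Complex.two_pi_I_ne_zero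
        have h5 : (2 * Real.pi * Complex.I : ℂ) * ((m : ℂ) - r) =
            (2 * Real.pi * Complex.I : ℂ) * (N * c) := by
          rw [div_eq_iff hN'] at hc
          rw [hc]
          ring
        exact mul_left_cancel₀ hpi h5
      have h5 : (m : ℤ) - r = N * c := by exact_mod_cast h4
      have h6 := congrArg (fun x : ℤ => (x : ZMod N)) h5
      push_cast at h6
      rw [ZMod.natCast_self, zero_mul] at h6
      exact sub_eq_zero.1 h6
    rw [geom_sum_eq h3, ← Complex.exp_nat_mul]
    have h4 : (N : ℂ) * (2 * Real.pi * Complex.I * ((m : ℂ) - r) / N) =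
        ((m : ℤ) - r : ℤ) * (2 * Real.pi * Complex.I) := by
      push_cast
      field_simp
    rw [h4, Complex.exp_int_mul_two_pi_mul_I, sub_self, zero_div]

end R6

theorem r6Dep : R6Dep := by
  intro N hN m
  have hN' : (N : ℂ) ≠ 0 := by exact_mod_cast hN
  have hNpos : 0 < N := Nat.pos_of_ne_zero hN
  unfold wdep
  have h1 : ∀ j ∈ Finset.range N, ((N : ℂ)⁻¹ * ∑ r ∈ (Finset.range N).filter (fun r => r.Coprime N),
      Complex.exp (-(2 * Real.pi * Complex.I * r * j / N))) *
        Complex.exp (2 * Real.pi * Complex.I * m * j / N) =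
      ∑ r ∈ (Finset.range N).filter (fun r => r.Coprime N), (N : ℂ)⁻¹ *
        (Complex.exp (-(2 * Real.pi * Complex.I * r * j / N)) *
          Complex.exp (2 * Real.pi * Complex.I * m * j / N)) := by
    intro j _
    rw [mul_assoc, Finset.sum_mul, Finset.mul_sum]
  rw [Finset.sum_congr rfl h1, Finset.sum_comm]
  have h2 : ∀ r ∈ (Finset.range N).filter (fun r => r.Coprime N),
      ∑ j ∈ Finset.range N, (N : ℂ)⁻¹ *
        (Complex.exp (-(2 * Real.pi * Complex.I * r * j / N)) *
          Complex.exp (2 * Real.pi * Complex.I * m * j / N)) = if r = m % N then 1 else 0 := by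
    intro r hr
    rw [Finset.mem_filter, Finset.mem_range] at hr
    rw [← Finset.mul_sum, R6.geom N hN m r]
    by_cases h : r = m % N
    · rw [if_pos h, if_pos, inv_mul_cancel₀ hN']
      rw [ZMod.natCast_eq_natCast_iff', h, Nat.mod_mod]
    · rw [if_neg h, if_neg, mul_zero]
      rw [ZMod.natCast_eq_natCast_iff', Nat.mod_eq_of_lt hr.1]
      exact fun h' => h h'.symm
  rw [Finset.sum_congr rfl h2, Finset.sum_ite_eq']
  have hmod : (m % N).Coprime N ↔ m.Coprime N := by
    unfold Nat.Coprime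
    rw [Nat.gcd_comm m N, Nat.gcd_rec N m]
  by_cases hc : m.Coprime N
  · rw [if_pos hc, if_pos]
    rw [Finset.mem_filter, Finset.mem_range]
    exact ⟨Nat.mod_lt _ hNpos, hmod.2 hc⟩
  · rw [if_neg hc, if_neg]
    rw [Finset.mem_filter]
    rintro ⟨-, h⟩
    exact hc (hmod.1 h)

end Gou

end

section

/-!
MP_602313_nt, module C1, item R7: an eigenform with vanishing coefficients `a_d`.
-/

open scoped MatrixGroups ModularForm UpperHalfPlane Manifold Pointwise
open CongruenceSubgroup UpperHalfPlane Matrix Matrix.SpecialLinearGroup ConjAct OnePoint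

noncomputable section

namespace Gou

theorem r7_period (N : ℕ) : (1 : ℝ) ∈ (Gamma0 N : Subgroup (GL (Fin 2) ℝ)).strictPeriods := by
  rw [strictPeriods_Gamma0]
  simp

theorem r7Vanish (q1 : Q1Exp) (h1 : H1Hecke) (h5 : H5Coeff) (r1 : R1Eigen) (r3 : R3Fact) :
    R7Vanish := by
  intro N hN k χ f B hf hd m hm
  have : NeZero N := ⟨hN⟩
  rcases Nat.eq_zero_or_pos m with rfl | hm0
  · refine (q1 k f (isCuspFun_of_cuspForm f) ?_).2
    intro z
    have h := SlashInvariantForm.vAdd_apply_of_mem_strictPeriods f z (r7_period N)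
    rw [← h]
    congr 1
    ext
    simp [shPt, UpperHalfPlane.coe_vadd, add_comm]
  · obtain ⟨d, e, hd0, he0, hme, hdN, heN⟩ := r3 N hN m hm0.ne'
    have h3 : aq f (d * e) = lamC k χ e * aq f d := by
      refine r1 N k χ (aq f) ?_ d e he0 hd0 hdN heN
      intro l hl hlN j
      obtain ⟨T, hT⟩ := h1 N hN k l hl hlN
      rw [← h5 N hN k l hl hlN T hT f j, hf l hl hlN T hT]
      have h4 : aq ⇑(χ l • f) j = χ l * aq f j := by
        unfold aq
        have h6 := ModularForm.qExpansion_smul one_pos (r7_period N) (χ l) f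
        have h7 : (⇑(χ l • f) : ℍ → ℂ) = χ l • ⇑f := rfl
        rw [h7, h6]
        simp
      rw [h4]
    rw [hme, h3, hd d ?_ hd0 hdN, mul_zero]
    refine le_trans ?_ hm
    rw [hme]
    exact Nat.le_mul_of_pos_right d (Nat.pos_of_ne_zero he0)

end Gou

end
end
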