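import Pool.Agent.Work.MP_602313_nt.StatementDefs

/-! Bundle of small proof modules (one section per former module). -/

section

/-!
Shared definitions for MP_602313_nt (Gouvea's conjecture on the slopes of p-oldforms).
-/

open scoped MatrixGroups ModularForm UpperHalfPlane Polynomial
open CongruenceSubgroup UpperHalfPlane

noncomputable section

namespace Gou

/-! ### Polynomials of degree at most n and matrices -/

/-- The right action of integer matrices on polynomials of degree at most `n`: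
`(F * g)(X) = sum_i f_i (aX+b)^i (cX+d)^(n-i)`, `g = (a b; c d)`. -/
def symAct {R : Type*} [CommRing R] (n : ℕ) (g : Matrix (Fin 2) (Fin 2) ℤ) (f : R[X]) : R[X] :=
  ∑ i ∈ Finset.range (n + 1), Polynomial.C (f.coeff i) *
    (Polynomial.C (g 0 0 : R) * Polynomial.X + Polynomial.C (g 0 1 : R)) ^ i *
    (Polynomial.C (g 1 0 : R) * Polynomial.X + Polynomial.C (g 1 1 : R)) ^ (n - i)

theorem symAct_add {R : Type*} [CommRing R] (n : ℕ) (g : Matrix (Fin 2) (Fin 2) ℤ) (f f' : R[X]) :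
    symAct n g (f + f') = symAct n g f + symAct n g f' := by
  simp only [symAct, Polynomial.coeff_add, Polynomial.C_add, add_mul, Finset.sum_add_distrib]

theorem symAct_zero {R : Type*} [CommRing R] (n : ℕ) (g : Matrix (Fin 2) (Fin 2) ℤ) :
    symAct n g (0 : R[X]) = 0 := by
  simp [symAct]

theorem symAct_smul {R : Type*} [CommRing R] (n : ℕ) (g : Matrix (Fin 2) (Fin 2) ℤ) (c : R)
    (f : R[X]) : symAct n g (c • f) = c • symAct n g f := by
  simp only [symAct, Polynomial.coeff_smul, smul_eq_mul, Polynomial.C_mul, Finset.smul_sum]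
  refine Finset.sum_congr rfl fun i _ => ?_
  rw [Polynomial.smul_eq_C_mul]
  ring

/-- The representatives `(1 j; 0 l)` of the Hecke operator `T_l`. -/
def repU (l : ℕ) (j : ℕ) : Matrix (Fin 2) (Fin 2) ℤ := !![1, (j : ℤ); 0, (l : ℤ)]

/-- The representative `(l 0; 0 1)` of the Hecke operator `T_l`. -/
def repV (l : ℕ) : Matrix (Fin 2) (Fin 2) ℤ := !![(l : ℤ), 0; 0, 1]

/-! ### Modular symbols -/

/-- Pairs of nonzero integer vectors; a nonzero vector `r = (a, c)` is the cusp `a / c`. -/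
abbrev Vec := Fin 2 → ℤ

/-- Modular symbols for `Gamma0 N` with values in the polynomials of degree at most `n` over `R`:
functions `phi (r, s)` on pairs of cusps (`r`, `s` nonzero integer vectors, up to scaling),
zero by convention if `r = 0` or `s = 0`. -/
def Symb (N n : ℕ) (R : Type*) [CommRing R] : Submodule R (Vec → Vec → R[X]) where
  carrier := {φ | (∀ r s, (φ r s).natDegree ≤ n) ∧
    (∀ r s, (r = 0 ∨ s = 0) → φ r s = 0) ∧
    (∀ r s t, r ≠ 0 → s ≠ 0 → t ≠ 0 → φ r s + φ s t = φ r t) ∧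
    (∀ (c : ℤ) r s, c ≠ 0 → φ (c • r) s = φ r s) ∧
    (∀ γ ∈ Gamma0 N, ∀ r s, symAct n (γ : Matrix (Fin 2) (Fin 2) ℤ)
      (φ ((γ : Matrix (Fin 2) (Fin 2) ℤ).mulVec r) ((γ : Matrix (Fin 2) (Fin 2) ℤ).mulVec s))
        = φ r s)}
  add_mem' := by
    rintro φ φ' ⟨h1, h2, h3, h4, h5⟩ ⟨h1', h2', h3', h4', h5'⟩
    refine ⟨?_, ?_, ?_, ?_, ?_⟩
    · intro r s
      exact (Polynomial.natDegree_add_le _ _).trans (max_le (h1 r s) (h1' r s))
    · intro r s h
      simp [h2 r s h, h2' r s h]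
    · intro r s t hr hs ht
      simp only [Pi.add_apply]
      rw [← h3 r s t hr hs ht, ← h3' r s t hr hs ht]
      ring
    · intro c r s hc
      simp only [Pi.add_apply]
      rw [h4 c r s hc, h4' c r s hc]
    · intro γ hγ r s
      simp only [Pi.add_apply]
      rw [symAct_add, h5 γ hγ r s, h5' γ hγ r s]
  zero_mem' := by
    refine ⟨?_, ?_, ?_, ?_, ?_⟩ <;> simp [symAct_zero]
  smul_mem' := by
    rintro c φ ⟨h1, h2, h3, h4, h5⟩
    refine ⟨?_, ?_, ?_, ?_, ?_⟩
    · intro r s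
      exact (Polynomial.natDegree_smul_le _ _).trans (h1 r s)
    · intro r s h
      simp [h2 r s h]
    · intro r s t hr hs ht
      simp only [Pi.smul_apply]
      rw [← h3 r s t hr hs ht, smul_add]
    · intro d r s hd
      simp only [Pi.smul_apply]
      rw [h4 d r s hd]
    · intro γ hγ r s
      simp only [Pi.smul_apply]
      rw [symAct_smul, h5 γ hγ r s]

/-- The Hecke operator `T_l` on modular symbols (for a prime `l` not dividing `N`), as a formula. -/
def heckeSymbFun {R : Type*} [CommRing R] (n l : ℕ) (φ : Vec → Vec → R[X]) : Vec → Vec → R[X] :=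
  fun r s => ∑ j ∈ Finset.range l, symAct n (repU l j) (φ ((repU l j).mulVec r) ((repU l j).mulVec s))
    + symAct n (repV l) (φ ((repV l).mulVec r) ((repV l).mulVec s))

end Gou

end
end

section

/-!
Definitions for the final statement.
-/

open scoped MatrixGroups ModularForm UpperHalfPlane Polynomial ENNReal
open CongruenceSubgroup UpperHalfPlane MeasureTheory Filter

noncomputable section

namespace Gou

/-- The conclusion: weak convergence of `μ_k` to `ν_p`, `k` running through the weights with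
`S_k(Gamma0 N) ≠ 0`. -/
def Conclusion (p N : ℕ) [Fact p.Prime] : Prop :=
  ∀ (ι : ℂ ≃+* PadicAlgCl p) (g : ℝ → ℝ), Continuous g →
    Tendsto (fun k : ℕ => ∫ x, g x ∂(muK p N k ι))
      (atTop ⊓ 𝓟 {k : ℕ | 0 < Module.finrank ℂ (SN N k)}) (nhds (∫ x, g x ∂(nuP p)))

end Gou

end
end

section

/-!
Interface statements between the modules of MP_602313_nt.

Module A (p-adic interpolation matrices) proves `DualStep`, `DeepBound`.
Module B (modular symbols) proves, from `DualStep`, `DeepBound`, the statements `Symb...`.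
Module C (cusp forms) proves `HeckeExists`, `FinDim`, `HeckeComm`, `PetSelfAdj`, `EichlerEmb`,
  `DimLower`, `CharSep`, `MultBound`.
Module D/E deduce the theorem.
-/

open scoped MatrixGroups ModularForm UpperHalfPlane Polynomial
open CongruenceSubgroup UpperHalfPlane

noncomputable section

namespace Gou

/-! ### Module A -/

/-- Nodes: `some b` stands for the point `-b`, `none` for infinity. -/
abbrev Node (p : ℕ) := Option (Fin p)

/-- The polynomial `v_{b,a}`: `(X + b)^(n-a)` for a finite node, `X^a` at infinity. -/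
def vv (p n : ℕ) (R : Type*) [CommRing R] (b : Node p) (a : ℕ) : R[X] :=
  match b with
  | some b => (Polynomial.X + Polynomial.C ((b : ℕ) : R)) ^ (n - a)
  | none => Polynomial.X ^ a

/-- The jet `J_{b,a}(f)`: the `a`-th Taylor coefficient at `-b`, the coefficient of `X^(n-a)` at
infinity. -/
def jet {p : ℕ} (n : ℕ) {R : Type*} [CommRing R] (b : Node p) (a : ℕ) (f : R[X]) : R :=
  match b with
  | some b => (Polynomial.taylor (-((b : ℕ) : R)) f).coeff a
  | none => f.coeff (n - a)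

/-- `e_0 = floor (log_p n)`. -/
def e0 (p n : ℕ) : ℕ := Nat.log p n

/-- M0: if `sum_b z_b` is divisible by `p^s`, `z_b = sum_a p^a c_{b,a} v_{b,a}`, then every
`p^a c_{b,a}` is divisible by `p^(s - e0)`. -/
def DualStep (p : ℕ) [Fact p.Prime] : Prop :=
  ∀ n s : ℕ, (p + 1) * s ≤ n + 1 → ∀ c : Node p → ℕ → ℤ_[p],
    (∃ G : ℤ_[p][X], G.natDegree ≤ n ∧
      ∑ b : Node p, ∑ a ∈ Finset.range (n + 1),
        Polynomial.C ((p : ℤ_[p]) ^ a * c b a) * vv p n ℤ_[p] b a
          = Polynomial.C ((p : ℤ_[p]) ^ s) * G) →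
    ∀ (b : Node p) (a : ℕ), a ≤ n → (p : ℤ_[p]) ^ (s - e0 p n) ∣ (p : ℤ_[p]) ^ a * c b a

/-- The main result of module A. If `y_1, ..., y_ν` are polynomials of degree at most `n` over
`ℤ_p`, linearly independent mod `p`, such that the jets of order `a < s - e0` are divisible by
`p^(s - e0 - a)`, and `p^e0 y_i` lies in `V_(s+h) + p^(h+e0) Sym`, then `ν ≤ C h`, provided
`h ≥ C n^(3/4)` (as `C n^3 ≤ h^4`) and `(p+1)(s+h) ≤ n`. -/
def DeepBound (p : ℕ) [Fact p.Prime] : Prop :=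
  ∃ C n0 : ℕ, ∀ n ≥ n0, ∀ s h : ℕ, C * n ^ 3 ≤ h ^ 4 → (p + 1) * (s + h) ≤ n →
    ∀ (ν : ℕ) (y : Fin ν → ℤ_[p][X]),
      (∀ i, (y i).natDegree ≤ n) →
      LinearIndependent (ZMod p) (fun i => (y i).map (PadicInt.toZMod (p := p))) →
      (∀ (i : Fin ν) (b : Node p) (a : ℕ), a < s - e0 p n →
        (p : ℤ_[p]) ^ (s - e0 p n - a) ∣ jet n b a (y i)) →
      (∀ i : Fin ν, ∃ (c : Node p → ℕ → ℤ_[p]) (G : ℤ_[p][X]), G.natDegree ≤ n ∧
        Polynomial.C ((p : ℤ_[p]) ^ e0 p n) * y i =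
          ∑ b : Node p, ∑ a ∈ Finset.range (s + h), Polynomial.C (c b a) * vv p n ℤ_[p] b a
            + Polynomial.C ((p : ℤ_[p]) ^ (h + e0 p n)) * G) →
      ν ≤ C * h

/-! ### Module B: modular symbols -/

/-- Change of coefficients `ℤ → R`. -/
def castSymb (R : Type*) [CommRing R] (φ : Vec → Vec → ℤ[X]) : Vec → Vec → R[X] :=
  fun r s => (φ r s).map (Int.castRingHom R)

/-- `b` is a `ℤ`-basis of the integral modular symbols and a `ℂ`-basis of the complex ones. -/
def IsSymbBasis (N n r : ℕ) (b : Fin r → Vec → Vec → ℤ[X]) : Prop :=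
  (∀ i, b i ∈ Symb N n ℤ) ∧
  (∀ φ ∈ Symb N n ℤ, ∃! c : Fin r → ℤ, φ = ∑ i, c i • b i) ∧
  (∀ φ ∈ Symb N n ℂ, ∃! c : Fin r → ℂ, φ = ∑ i, c i • castSymb ℂ (b i))

/-- Existence of a basis. -/
def SymbBasisExists (N : ℕ) : Prop :=
  ∀ n : ℕ, Even n → ∃ (r : ℕ) (b : Fin r → Vec → Vec → ℤ[X]), IsSymbBasis N n r b

/-- The rank is at most `(psi/6) n + C`, `psi = [SL2(ℤ) : Gamma0 N]`. -/
def SymbRank (N : ℕ) : Prop :=
  ∃ C : ℕ, ∀ n : ℕ, Even n → ∀ (r : ℕ) (b : Fin r → Vec → Vec → ℤ[X]), IsSymbBasis N n r b →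
    6 * r ≤ (Gamma0 N).index * n + C

/-- The Hecke operators preserve modular symbols. -/
def SymbHecke (N : ℕ) : Prop :=
  ∀ (n l : ℕ), l.Prime → ¬ l ∣ N → ∀ φ ∈ Symb N n ℤ, heckeSymbFun n l φ ∈ Symb N n ℤ

/-- The Hecke operators commute on integral modular symbols. -/
def SymbComm (N : ℕ) : Prop :=
  ∀ (n l l' : ℕ), l.Prime → l'.Prime → ¬ l ∣ N → ¬ l' ∣ N → ∀ φ ∈ Symb N n ℤ,
    heckeSymbFun n l (heckeSymbFun n l' φ) = heckeSymbFun n l' (heckeSymbFun n l φ)

/-- `φ_1, ..., φ_r` are independent modulo `p Λ`, `Λ = Symb N n ℤ`. -/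
def PIndep (p N n r : ℕ) (φ : Fin r → Vec → Vec → ℤ[X]) : Prop :=
  (∀ i, φ i ∈ Symb N n ℤ) ∧
  ∀ c : Fin r → ℤ, (∃ ψ ∈ Symb N n ℤ, ∑ i, c i • φ i = (p : ℤ) • ψ) → ∀ i, (p : ℤ) ∣ c i

/-- Hodge type bound: at most `(psi/6)(n - (p+1) m) + C n^(3/4)` independent vectors with
`T_p φ ∈ p^m Λ`. -/
def SymbHodge (p N : ℕ) : Prop :=
  ∃ C : ℝ, ∀ n : ℕ, Even n → ∀ m : ℕ, (p + 1) * m ≤ n → ∀ (r : ℕ) (φ : Fin r → Vec → Vec → ℤ[X]),
    PIndep p N n r φ →
    (∀ i, ∃ ψ ∈ Symb N n ℤ, heckeSymbFun n p (φ i) = ((p : ℤ) ^ m) • ψ) →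
    (r : ℝ) ≤ ((Gamma0 N).index : ℝ) / 6 * ((n : ℝ) - (p + 1) * m) + C * (n : ℝ) ^ (3 / 4 : ℝ) + C

/-- Deep bound: at most `C h` independent vectors with `(T_p - μ) φ ∈ p^(s+h) Λ`, where
`μ = p^s u`, `u` prime to `p`. -/
def SymbDeep (p N : ℕ) : Prop :=
  ∃ C n0 : ℕ, ∀ n ≥ n0, Even n → ∀ s h : ℕ, C * n ^ 3 ≤ h ^ 4 → (p + 1) * (s + h) ≤ n →
    ∀ u : ℤ, ¬ (p : ℤ) ∣ u → ∀ (r : ℕ) (φ : Fin r → Vec → Vec → ℤ[X]),
    PIndep p N n r φ →
    (∀ i, ∃ ψ ∈ Symb N n ℤ,
      heckeSymbFun n p (φ i) - ((p : ℤ) ^ s * u) • φ i = ((p : ℤ) ^ (s + h)) • ψ) →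
    r ≤ C * h

/-- The image of `T_p` modulo `p^s`: every family of integral symbols `φ_i` such that no two of
them have `T_p φ_i ≡ T_p φ_j mod p^s Λ` has at most `p^((psi/6)(p+1) s²/2 + C n)` elements. -/
def SymbImage (p N : ℕ) : Prop :=
  ∃ C : ℝ, ∀ n : ℕ, Even n → ∀ s : ℕ, (p + 1) * s ≤ n → ∀ (r : ℕ) (φ : Fin r → Vec → Vec → ℤ[X]),
    (∀ i, φ i ∈ Symb N n ℤ) →
    (∀ i j, (∃ ψ ∈ Symb N n ℤ,
      heckeSymbFun n p (φ i) - heckeSymbFun n p (φ j) = ((p : ℤ) ^ s) • ψ) → i = j) →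
    Real.logb p r ≤ ((Gamma0 N).index : ℝ) / 6 * ((p + 1) * (s : ℝ) ^ 2 / 2) + C * n + C

/-- Norm bound: there is a norm on the complex symbols for which `‖T_l‖ ≤ l^(C (n+1))`. -/
def SymbNorm (N : ℕ) : Prop :=
  ∃ C : ℕ, ∀ n : ℕ, Even n → ∃ nrm : (Vec → Vec → ℂ[X]) → ℝ,
    (∀ φ ∈ Symb N n ℂ, 0 ≤ nrm φ ∧ (nrm φ = 0 → φ = 0)) ∧
    (∀ (c : ℂ), ∀ φ ∈ Symb N n ℂ, nrm (c • φ) = ‖c‖ * nrm φ) ∧
    (∀ φ ∈ Symb N n ℂ, ∀ φ' ∈ Symb N n ℂ, nrm (φ + φ') ≤ nrm φ + nrm φ') ∧
    (∀ l : ℕ, l.Prime → ¬ l ∣ N → ∀ φ ∈ Symb N n ℂ,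
      nrm (heckeSymbFun n l φ) ≤ (l : ℝ) ^ (C * (n + 1)) * nrm φ)

/-! ### Module C: cusp forms -/

/-- The Hecke operator `T_l` exists on `S_k(Gamma0 N)`. -/
def HeckeExists (N : ℕ) : Prop :=
  ∀ (k : ℤ) (l : ℕ), l.Prime → ¬ l ∣ N → ∃ T : SN N k →ₗ[ℂ] SN N k, IsHecke N k l T

/-- Finite dimensionality. -/
def FinDim (N : ℕ) : Prop := ∀ k : ℤ, Module.Finite ℂ (SN N k)

/-- The Hecke operators commute. -/
def HeckeComm (N : ℕ) : Prop :=
  ∀ (k : ℤ) (l l' : ℕ), l.Prime → l'.Prime → ¬ l ∣ N → ¬ l' ∣ N →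
    ∀ T T' : SN N k →ₗ[ℂ] SN N k, IsHecke N k l T → IsHecke N k l' T' → T ∘ₗ T' = T' ∘ₗ T

/-- The Hecke operators `T_l` are self-adjoint for a positive definite Hermitian form. -/
def PetSelfAdj (N : ℕ) : Prop :=
  ∀ k : ℤ, ∃ B : SN N k → SN N k → ℂ,
    (∀ f g h, B f (g + h) = B f g + B f h) ∧
    (∀ (c : ℂ) f g, B f (c • g) = c * B f g) ∧
    (∀ f g, B g f = (starRingEnd ℂ) (B f g)) ∧
    (∀ f, f ≠ 0 → 0 < (B f f).re) ∧
    (∀ l : ℕ, l.Prime → ¬ l ∣ N → ∀ T : SN N k →ₗ[ℂ] SN N k, IsHecke N k l T →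
      ∀ f g, B (T f) g = B f (T g))

/-- Two copies of `S_{n+2}(Gamma0 N)` inside the complex modular symbols, equivariantly for all
`T_l`, `l` prime to `N`. -/
def EichlerEmb (N : ℕ) : Prop :=
  ∃ n0 : ℕ, ∀ n ≥ n0, Even n →
    ∃ Φ : (SN N ((n : ℤ) + 2) × SN N ((n : ℤ) + 2)) →ₗ[ℂ] (Vec → Vec → ℂ[X]),
      Function.Injective Φ ∧ (∀ x, Φ x ∈ Symb N n ℂ) ∧
      ∀ l : ℕ, l.Prime → ¬ l ∣ N → ∀ T : SN N ((n : ℤ) + 2) →ₗ[ℂ] SN N ((n : ℤ) + 2),
        IsHecke N ((n : ℤ) + 2) l T → ∀ f g, Φ (T f, T g) = heckeSymbFun n l (Φ (f, g))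

/-- `12 dim S_k(Gamma0 N) ≥ psi k - C` for even `k`. -/
def DimLower (N : ℕ) : Prop :=
  ∃ C : ℕ, ∀ k : ℕ, Even k → (Gamma0 N).index * k ≤ 12 * Module.finrank ℂ (SN N k) + C

/-- The completely multiplicative extension of a function on the primes. -/
def cmul (χ : ℕ → ℂ) (m : ℕ) : ℂ := (m.primeFactorsList.map χ).prod

/-- `f` is an eigenform of all `T_l` (`l` prime to `N`) with eigenvalues `χ l`. -/
def IsEigen (N : ℕ) (k : ℤ) (χ : ℕ → ℂ) (f : SN N k) : Prop :=
  ∀ l : ℕ, l.Prime → ¬ l ∣ N → ∀ T : SN N k →ₗ[ℂ] SN N k, IsHecke N k l T → T f = χ l • f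

/-- Separation of eigencharacters by the first `k^A` Hecke operators: if pairwise distinct
characters `χ_i` occur in `S_k`, then the vectors `(cmul χ_i m)_{m ≤ k^A, (m, N) = 1}` are linearly
independent. -/
def CharSep (N : ℕ) : Prop :=
  ∃ A : ℕ, ∀ k : ℕ, 2 ≤ k → ∀ (r : ℕ) (χ : Fin r → ℕ → ℂ) (f : Fin r → SN N k),
    (∀ i, f i ≠ 0) → (∀ i, IsEigen N k (χ i) (f i)) →
    (∀ i j, i ≠ j → ∃ l : ℕ, l.Prime ∧ ¬ l ∣ N ∧ χ i l ≠ χ j l) →
    LinearIndependent ℂ (fun (i : Fin r) (m : {m : ℕ // m ≤ k ^ A ∧ m.Coprime N}) => cmul (χ i) m)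

/-- Multiplicities of the eigencharacters are at most `(A log k)^A`. -/
def MultBound (N : ℕ) : Prop :=
  ∃ A : ℝ, ∀ k : ℕ, 2 ≤ k → ∀ (χ : ℕ → ℂ) (r : ℕ) (f : Fin r → SN N k),
    (∀ i, IsEigen N k χ (f i)) → LinearIndependent ℂ f → (r : ℝ) ≤ (A * Real.log k + A) ^ A

end Gou

end
end

section

/-!
Module A of MP_602313_nt (p-adic interpolation matrices): definitions and statements.
Captain: helper46. Target: `DualStep p` and `DeepBound p` of `Iface.lean`.
-/

open scoped Polynomial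
open Finset

noncomputable section

namespace Gou

/-! ### Definitions -/

/-- The step of the arithmetic progression of weights. -/
def qq (p : ℕ) : ℕ := if p = 2 then 2 else p - 1

/-- The slope of the Mahler coefficients. -/
def kap (p : ℕ) : ℕ := if p = 2 then 2 else 1

/-- Entry of the interpolation matrix in weight `x`: row `(b, i)`, column `(c, a)`. -/
def ent {p : ℕ} (x : ℕ) : Node p → ℕ → Node p → ℕ → ℤ
  | some b, i, some c, a =>
      if b = c then 0 else ((x - a).choose i : ℤ) * (((c : ℕ) : ℤ) - ((b : ℕ) : ℤ)) ^ (x - a - i)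
  | some b, i, none, a => (a.choose i : ℤ) * (-((b : ℕ) : ℤ)) ^ (a - i)
  | none, i, some c, a =>
      if a ≤ i then ((x - a).choose (i - a) : ℤ) * ((c : ℕ) : ℤ) ^ (i - a) else 0
  | none, _, none, _ => 0

/-- Rows and columns `(b, a)`, `a < s`. -/
abbrev Idx (p s : ℕ) := Node p × Fin s

/-- The interpolation matrix `N_s(x)`. -/
def NM (p s x : ℕ) : Matrix (Idx p s) (Idx p s) ℤ := fun r c => ent x r.1 r.2 c.1 c.2

/-- Its determinant. -/
def DD (p s x : ℕ) : ℤ := (NM p s x).det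

/-- The interpolation matrix over `ℤ_p`. -/
def NMp (p : ℕ) [Fact p.Prime] (s x : ℕ) : Matrix (Idx p s) (Idx p s) ℤ_[p] :=
  fun r c => ((NM p s x r c : ℤ) : ℤ_[p])

def lam (p s : ℕ) : ℕ := (p + 1) * ∑ i ∈ range s, (i - i / p)

def rr (p s x : ℕ) : ℕ := min ((p + 1) * s - (x + 1)) (p * (x + 1) - (p + 1) * s)

/-- `gg p s t = rr p s ((p+1) s - 1 - q t)`. -/
def gg (p s t : ℕ) : ℕ := min (qq p * t) ((p ^ 2 - 1) * s - p * qq p * t)

/-- Linear independence mod `p` of vectors over `ℤ_p`. -/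
def IndepMod (p : ℕ) [Fact p.Prime] {γ : Type} {ν : ℕ} (v : Fin ν → γ → ℤ_[p]) : Prop :=
  LinearIndependent (ZMod p) (fun i k => PadicInt.toZMod (p := p) (v i k))

/-- `nu_h(A) ≥ ν`: there are `ν` vectors, independent mod `p`, with `A v` divisible by `p^h`. -/
def NuGe (p : ℕ) [Fact p.Prime] {ρ γ : Type} [Fintype γ] (A : Matrix ρ γ ℤ_[p]) (h ν : ℕ) : Prop :=
  ∃ v : Fin ν → γ → ℤ_[p], IndepMod p v ∧ ∀ i r, (p : ℤ_[p]) ^ h ∣ A.mulVec (v i) r

/-- Functions whose `l`-th differences are divisible by `p^(κ l - L)`. -/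
def MC (p κ L : ℕ) {R : Type} [CommRing R] (f : ℕ → R) : Prop :=
  ∀ l m, (p : R) ^ (κ * l - L) ∣ (fwdDiff (1 : ℕ))^[l] f m

/-! ### L. Linear algebra over `ℤ_p` -/

/-- L1: a `k × ν` system of linear equations over `ℤ_p` has `ν - k` solutions independent mod
`p`. -/
def L1 (p : ℕ) [Fact p.Prime] : Prop :=
  ∀ (κ : Type) [Fintype κ] (ν : ℕ) (B : Matrix κ (Fin ν) ℤ_[p]),
    ∃ c : Fin (ν - Fintype.card κ) → Fin ν → ℤ_[p], IndepMod p c ∧ ∀ i, B.mulVec (c i) = 0

/-- L2: imposing `k` linear conditions on the span of `ν` vectors independent mod `p`. -/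
def L2 (p : ℕ) [Fact p.Prime] : Prop :=
  ∀ (κ γ : Type) [Fintype κ] [Fintype γ] (ν : ℕ) (v : Fin ν → γ → ℤ_[p]) (F : κ → γ → ℤ_[p]),
    IndepMod p v → ∃ v' : Fin (ν - Fintype.card κ) → γ → ℤ_[p], IndepMod p v' ∧
      (∀ i, v' i ∈ Submodule.span ℤ_[p] (Set.range v)) ∧ ∀ i j, ∑ k, F j k * v' i k = 0

/-- L3: `nu_h(A) ≥ r` implies `p^(h r) ∣ det A`. -/
def L3 (p : ℕ) [Fact p.Prime] : Prop :=
  ∀ (γ : Type) [Fintype γ] [DecidableEq γ] (A : Matrix γ γ ℤ_[p]) (h r : ℕ),
    NuGe p A h r → (p : ℤ_[p]) ^ (h * r) ∣ A.det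

/-- L4: if `A c ∈ p^t` implies `c ∈ p^(t-e)` then `v(det A) ≤ e * size`. -/
def L4 (p : ℕ) [Fact p.Prime] : Prop :=
  ∀ (γ : Type) [Fintype γ] [DecidableEq γ] (A : Matrix γ γ ℤ_[p]) (e : ℕ),
    (∀ (t : ℕ) (c : γ → ℤ_[p]), (∀ r, (p : ℤ_[p]) ^ t ∣ A.mulVec c r) →
      ∀ k, (p : ℤ_[p]) ^ (t - e) ∣ c k) →
    ¬ (p : ℤ_[p]) ^ (e * Fintype.card γ + 1) ∣ A.det

/-- L5: if `R v_i ∈ p^(h+e)` for `ν` vectors of which no primitive combination lies in `p^(e+1)`,
then `nu_h(R) ≥ ν`. -/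
def L5 (p : ℕ) [Fact p.Prime] : Prop :=
  ∀ (ρ γ : Type) [Fintype ρ] [Fintype γ] (A : Matrix ρ γ ℤ_[p]) (h e ν : ℕ)
    (v : Fin ν → γ → ℤ_[p]),
    (∀ i r, (p : ℤ_[p]) ^ (h + e) ∣ A.mulVec (v i) r) →
    (∀ c : Fin ν → ℤ_[p], (∀ k, (p : ℤ_[p]) ^ (e + 1) ∣ ∑ i, c i * v i k) →
      ∀ i, (p : ℤ_[p]) ∣ c i) →
    NuGe p A h ν

/-! ### J. Jets and duality -/

/-- J1: the entries are the jets of the `v_{c,a}`. -/
def J1 (p : ℕ) [Fact p.Prime] : Prop :=
  ∀ (n : ℕ) (b c : Node p) (i a : ℕ), a ≤ n → i ≤ n → (b ≠ c ∨ i + a < n) →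
    jet n b i (vv p n ℤ_[p] c a) = ((ent n b i c a : ℤ) : ℤ_[p])

/-- J2: jets of order `< s` are onto. -/
def J2 (p : ℕ) [Fact p.Prime] : Prop :=
  ∀ n s : ℕ, (p + 1) * s ≤ n + 1 → ∀ tgt : Node p → ℕ → ℤ_[p],
    ∃ g : ℤ_[p][X], g.natDegree ≤ n ∧ ∀ (b : Node p) (a : ℕ), a < s → jet n b a g = tgt b a

/-- J3: in the square case the jets of order `< s` detect divisibility by `p^t`. -/
def J3 (p : ℕ) [Fact p.Prime] : Prop :=
  ∀ n s t : ℕ, (p + 1) * s = n + 1 → ∀ F : ℤ_[p][X], F.natDegree ≤ n →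
    (∀ (b : Node p) (a : ℕ), a < s → (p : ℤ_[p]) ^ t ∣ jet n b a F) →
    ∃ G : ℤ_[p][X], G.natDegree ≤ n ∧ F = Polynomial.C ((p : ℤ_[p]) ^ t) * G

/-- The invariant pairing. -/
def pairG {p : ℕ} [Fact p.Prime] (n : ℕ) (g f : ℤ_[p][X]) : ℚ_[p] :=
  ∑ m ∈ range (n + 1), (-1 : ℚ_[p]) ^ m * ((f.coeff m : ℤ_[p]) : ℚ_[p]) *
    ((g.coeff (n - m) : ℤ_[p]) : ℚ_[p]) / (n.choose m : ℚ_[p])

/-- J4: the pairing with `v_{b,a}` is the jet `J_{b,a}`, up to sign and the binomial. -/
def J4 (p : ℕ) [Fact p.Prime] : Prop :=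
  ∀ (n a : ℕ) (b : Node p) (g : ℤ_[p][X]), a ≤ n → g.natDegree ≤ n →
    ∃ ε : ℚ_[p], (ε = 1 ∨ ε = -1) ∧
      pairG n g (vv p n ℤ_[p] b a) = ε * ((jet n b a g : ℤ_[p]) : ℚ_[p]) / (n.choose a : ℚ_[p])

/-- J5: injectivity of `iota` with bounded denominators. -/
def DualInj (p : ℕ) [Fact p.Prime] : Prop :=
  ∀ n s t : ℕ, (p + 1) * s ≤ n + 1 → ∀ (c : Node p → ℕ → ℤ_[p]) (G : ℤ_[p][X]), G.natDegree ≤ n →
    ∑ b : Node p, ∑ a ∈ range s, Polynomial.C (c b a) * vv p n ℤ_[p] b a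
        = Polynomial.C ((p : ℤ_[p]) ^ t) * G →
    ∀ (b : Node p) (a : ℕ), a < s → (p : ℤ_[p]) ^ (t - e0 p n) ∣ c b a

/-- J7: the determinant in the weight `n0 = (p+1) s - 1`. -/
def DetN0 (p : ℕ) [Fact p.Prime] : Prop :=
  ∀ s : ℕ, 1 ≤ s → ¬ (p : ℤ_[p]) ^ (e0 p ((p + 1) * s - 1) * ((p + 1) * s) + 1) ∣
    ((DD p s ((p + 1) * s - 1) : ℤ) : ℤ_[p])

/-! ### M. The determinant as a function of the weight -/

def M1 (p : ℕ) : Prop :=
  ∀ (R : Type) [CommRing R] (κ L L' : ℕ) (f g : ℕ → R), MC p κ L f → MC p κ L' g →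
    MC p κ (L + L') (fun m => f m * g m)

def M2 (p : ℕ) : Prop :=
  ∀ (R : Type) [CommRing R] (κ : ℕ),
    (∀ (c : R), MC p κ 0 (fun _ => c)) ∧
    (∀ (L L' : ℕ) (f : ℕ → R), L ≤ L' → MC p κ L f → MC p κ L' f) ∧
    (∀ (L : ℕ) (c : R) (f : ℕ → R), MC p κ L f → MC p κ L (fun m => c * f m)) ∧
    (∀ (L : ℕ) (ι : Type) (S : Finset ι) (f : ι → ℕ → R), (∀ i ∈ S, MC p κ L (f i)) →
      MC p κ L (fun m => ∑ i ∈ S, f i m))

def M3 (p : ℕ) : Prop :=
  ∀ (R : Type) [CommRing R] (κ : ℕ) (ι : Type) (S : Finset ι) (L : ι → ℕ) (f : ι → ℕ → R),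
    (∀ i ∈ S, MC p κ (L i) (f i)) → MC p κ (∑ i ∈ S, L i) (fun m => ∏ i ∈ S, f i m)

/-- M4: powers of a unit. -/
def M4 (p : ℕ) [Fact p.Prime] : Prop :=
  ∀ (u : ℤ) (x0 : ℕ), ¬ (p : ℤ) ∣ u →
    MC p (kap p) 0 (fun m => ((u : ℤ) : ℤ_[p]) ^ (x0 + qq p * m))

/-- M5: binomial coefficients. -/
def M5 (p : ℕ) [Fact p.Prime] : Prop :=
  ∀ (x0 r : ℕ), MC p (kap p) r (fun m => (((x0 + qq p * m).choose r : ℕ) : ℤ_[p]))

/-- M6: decomposition of the entries. -/
def M6 (p : ℕ) [Fact p.Prime] : Prop :=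
  ∃ G W : Node p → Node p → ℕ → ℕ → ℤ_[p],
    (∀ b c r x0, MC p (kap p) r (fun m => G b c r (x0 + qq p * m))) ∧
    ∀ (x i a : ℕ) (b c : Node p), b ≠ c → a ≤ x →
      ((ent x b i c a : ℤ) : ℤ_[p]) = ∑ r ∈ range (i + 1), G b c r x * W b c (i - r) a

/-- M7: the sum of the second components of `s` distinct pairs. -/
def M7 : Prop :=
  ∀ (p s : ℕ) (X : Type) [Fintype X], Fintype.card X ≤ p →
    ∀ (c : Fin s → X) (j : Fin s → ℕ), Function.Injective (fun i => (c i, j i)) →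
    ∑ i ∈ range s, i / p ≤ ∑ i, j i

/-- M8: Mahler coefficients of the determinant. -/
def DetMC (p : ℕ) [Fact p.Prime] : Prop :=
  ∀ s x0 : ℕ, s ≤ x0 →
    MC p (kap p) (lam p s) (fun m => ((DD p s (x0 + qq p * m) : ℤ) : ℤ_[p]))

/-! ### K. Coranks -/

/-- K1: the natural kernel. -/
def K1 (p : ℕ) [Fact p.Prime] : Prop :=
  ∀ s x : ℕ, 1 ≤ s → s ≤ x → ∃ v : Fin (rr p s x) → Idx p s → ℤ_[p],
    IndepMod p v ∧ ∀ i, (NMp p s x).mulVec (v i) = 0

/-- K2: the sum of the coranks. -/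
def K2 (p : ℕ) [Fact p.Prime] : Prop :=
  ∀ s : ℕ, lam p s ≤ kap p * ∑ t ∈ Icc 1 ((p + 1) * s), gg p s t

/-- K3: `gg` and `rr`. -/
def K3 (p : ℕ) [Fact p.Prime] : Prop :=
  ∀ s t : ℕ, 0 < gg p s t → qq p * t < (p + 1) * s ∧ s ≤ (p + 1) * s - 1 - qq p * t ∧
    rr p s ((p + 1) * s - 1 - qq p * t) = gg p s t ∧ gg p s t ≤ (p + 1) * s

/-! ### E. Continuity in the weight -/

/-- E1: congruences between the entries. -/
def E1 (p : ℕ) [Fact p.Prime] : Prop :=
  ∀ (s x B t : ℕ) (b c : Node p) (i a : ℕ), a < s → i < s → s ≤ x →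
    (p : ℤ) ^ (B - Nat.log p s) ∣ ent (x + qq p * p ^ B * t) b i c a - ent x b i c a

/-- E2: divisibility of the determinant near a bad weight. -/
def E2 (p : ℕ) [Fact p.Prime] : Prop :=
  ∀ (s x B t h b : ℕ), s ≤ x → NuGe p (NMp p s x) h b →
    (p : ℤ_[p]) ^ (min h (B - Nat.log p s) * b) ∣ ((DD p s (x + qq p * p ^ B * t) : ℤ) : ℤ_[p])

/-! ### I. Interpolation -/

/-- I1: valuation of a divided difference. -/
def I1 (p : ℕ) [Fact p.Prime] : Prop :=
  ∀ (κ L : ℕ) (f : ℕ → ℤ_[p]), 1 ≤ κ → MC p κ L f →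
    ∀ (ι : Type) [Fintype ι] [DecidableEq ι] (node : ι → ℕ), Function.Injective node → ∀ z : ℤ,
    ((p : ℤ) - 1) * z ≤
      ((κ : ℤ) * ((p : ℤ) - 1) - 1) * ((Fintype.card ι : ℤ) - 1) - ((p : ℤ) - 1) * L →
    ‖∑ i, ((f (node i) : ℤ_[p]) : ℚ_[p]) /
      ∏ j ∈ univ.erase i, ((node i : ℚ_[p]) - (node j : ℚ_[p]))‖ ≤ (p : ℝ) ^ (-z)

/-- I2: the inequality between the nodes. -/
def I2 (p : ℕ) [Fact p.Prime] : Prop :=
  ∀ (κ L : ℕ) (f : ℕ → ℤ_[p]), 1 ≤ κ → MC p κ L f →
    ∀ (ι : Type) [Fintype ι] [DecidableEq ι] (node : ι → ℕ), Function.Injective node →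
    ∀ (i0 : ι) (e : ι → ℕ) (U : ℤ),
    ¬ (p : ℤ_[p]) ^ (e i0 + 1) ∣ f (node i0) →
    (e i0 : ℤ) - ∑ j ∈ univ.erase i0, (padicValInt p ((node i0 : ℤ) - node j) : ℤ) ≤ U →
    (∀ i, i ≠ i0 → (p : ℤ_[p]) ^ (e i) ∣ f (node i) ∧
      U + 1 ≤ (e i : ℤ) - ∑ j ∈ univ.erase i, (padicValInt p ((node i : ℤ) - node j) : ℤ)) →
    ((κ : ℤ) * ((p : ℤ) - 1) - 1) * ((Fintype.card ι : ℤ) - 1) - ((p : ℤ) - 1) * L
      < ((p : ℤ) - 1) * (U + 1)

/-- Z1: comparison of the ghost sums. -/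
def Z1 (p : ℕ) [Fact p.Prime] : Prop :=
  ∀ s u l : ℕ, 1 ≤ u → (p + 1) * s + u < p ^ l →
    ∑ t ∈ Icc 1 ((p + 1) * s), gg p s t * padicValNat p (t + u) ≤
      ∑ t ∈ Icc 1 ((p + 1) * s), gg p s t * padicValNat p t + p ^ 2 * s * l

/-- Z2: lower bound of the ghost sum. -/
def Z2 (p : ℕ) [Fact p.Prime] : Prop :=
  ∀ s l : ℕ, (p + 1) * s < p ^ l →
    ∑ t ∈ Icc 1 ((p + 1) * s), gg p s t ≤
      (p - 1) * ∑ t ∈ Icc 1 ((p + 1) * s), gg p s t * padicValNat p t + (p - 1) * (p ^ 2 * s * l)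

/-- I3: the number of bad weights. -/
def CountBad (p : ℕ) [Fact p.Prime] : Prop :=
  ∀ (s l h b M : ℕ) (t : Fin M → ℕ), 1 ≤ s → Function.Injective t → (∀ i, 1 ≤ t i) →
    (∀ i, (p + 1) * s + qq p * t i < p ^ l) → (p + 1) * s < p ^ l → l ≤ h →
    (∀ i, NuGe p (NMp p s ((p + 1) * s - 1 + qq p * t i)) h b) →
    l * ((p + 1) * s) + ((b + 1) / 2 - 1) * (h + l) + M * ((b + 1) / 2) * l + l + p ^ 2 * s * l
      < b * (h - l) →
    M * ((b + 1) / 2) ≤ 2 * (l * ((p + 1) * s) + p ^ 2 * s * l + 1)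

/-! ### T. Transfer and conclusion -/

/-- T1: transfer to the next weight. -/
def T1 (p : ℕ) [Fact p.Prime] : Prop :=
  ∀ s x h ν : ℕ, NuGe p (NMp p s (x + 1)) h ν → NuGe p (NMp p s x) h (ν - (p + 1))

/-- T2: the bound for `nu_h(N_s(n))`. -/
def DeepNu (p : ℕ) [Fact p.Prime] : Prop :=
  ∃ n0 : ℕ, ∀ n ≥ n0, ∀ s h ν : ℕ, n ^ 3 ≤ h ^ 4 → (p + 1) * (s + h) ≤ n →
    NuGe p (NMp p s n) h ν → ν ≤ h

end Gou

end
end

section

/-!
Module B: modular symbols. First part: the action, the Manin trick, the Hecke operators, DeepBound.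
-/

open scoped MatrixGroups Polynomial
open CongruenceSubgroup

noncomputable section

namespace Gou

/-- The matrix of an element of `SL(2, ℤ)`. -/
abbrev mx (g : SL(2, ℤ)) : Matrix (Fin 2) (Fin 2) ℤ := (g : Matrix (Fin 2) (Fin 2) ℤ)

/-- The cusp `0`. -/
def c0 : Vec := ![0, 1]

/-- The cusp `∞`. -/
def cI : Vec := ![1, 0]

/-- B0a. Composition law of the action. -/
def BComp : Prop := ∀ (R : Type) [CommRing R] (n : ℕ) (g h : Matrix (Fin 2) (Fin 2) ℤ) (f : R[X]),
  f.natDegree ≤ n → symAct n (g * h) f = symAct n h (symAct n g f) ∧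
    (symAct n g f).natDegree ≤ n ∧ symAct n 1 f = f

/-- B0b. Multiplicativity. -/
def BMul : Prop := ∀ (R : Type) [CommRing R] (a b : ℕ) (g : Matrix (Fin 2) (Fin 2) ℤ) (f f' : R[X]),
  f.natDegree ≤ a → f'.natDegree ≤ b →
    symAct (a + b) g (f * f') = symAct a g f * symAct b g f'

/-- B0c. Change of rings and scalar matrices. -/
def BMap : Prop := ∀ (R R' : Type) [CommRing R] [CommRing R'] (φ : R →+* R') (n : ℕ)
  (g : Matrix (Fin 2) (Fin 2) ℤ) (f : R[X]),
    (symAct n g f).map φ = symAct n g (f.map φ) ∧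
    (f.natDegree ≤ n → ∀ c : ℤ, symAct n (c • g) f = (c : R) ^ n • symAct n g f)

/-- B0d. Hecke operators preserve modular symbols (every coefficient ring). -/
def BHecke : Prop := ∀ (N n l : ℕ) (R : Type) [CommRing R], l.Prime → ¬ l ∣ N →
  ∀ φ ∈ Symb N n R, heckeSymbFun n l φ ∈ Symb N n R

/-- B0e. Hecke operators commute. -/
def BComm : Prop := ∀ (N n l l' : ℕ) (R : Type) [CommRing R], l.Prime → l'.Prime → ¬ l ∣ N →
  ¬ l' ∣ N → ∀ φ ∈ Symb N n R,
    heckeSymbFun n l (heckeSymbFun n l' φ) = heckeSymbFun n l' (heckeSymbFun n l φ)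

/-- B1a. Manin's trick. -/
def BManin : Prop := ∀ r s : Vec, r ≠ 0 → s ≠ 0 → ∃ L : List SL(2, ℤ),
  ∀ (M : Type) [AddCommGroup M] (φ : Vec → Vec → M),
    (∀ r s t, r ≠ 0 → s ≠ 0 → t ≠ 0 → φ r s + φ s t = φ r t) →
    (∀ (c : ℤ) r s, c ≠ 0 → φ (c • r) s = φ r s) →
    φ r s = (L.map fun g => φ ((mx g).mulVec c0) ((mx g).mulVec cI)).sum

/-- B1b. Coset representatives. -/
def BReps : Prop := ∀ N : ℕ, N ≠ 0 → ∃ g : Fin (Gamma0 N).index → SL(2, ℤ),
  ∀ h : SL(2, ℤ), ∃ (j : Fin (Gamma0 N).index) (γ : SL(2, ℤ)), γ ∈ Gamma0 N ∧ h = γ * g j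

/-- The polynomial `q` divides all coefficients. -/
def dvdP {R : Type*} [CommRing R] (q : R) (f : R[X]) : Prop := ∀ i, q ∣ f.coeff i

/-- B1c. Divisibility of a symbol can be tested on the coset representatives. -/
def BDiv : Prop := ∀ (N n : ℕ) (q : ℤ) (φ : Vec → Vec → ℤ[X]) (m : ℕ) (g : Fin m → SL(2, ℤ)),
  (∀ h : SL(2, ℤ), ∃ (j : Fin m) (γ : SL(2, ℤ)), γ ∈ Gamma0 N ∧ h = γ * g j) → q ≠ 0 →
  φ ∈ Symb N n ℤ → (∀ j, dvdP q (φ ((mx (g j)).mulVec c0) ((mx (g j)).mulVec cI))) →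
  ∃ ψ ∈ Symb N n ℤ, φ = q • ψ

/-- B2. The matrix `diag(1, p)`. -/
def dp (p : ℕ) : Matrix (Fin 2) (Fin 2) ℤ := !![1, 0; 0, (p : ℤ)]

/-- The module `I_m`: `F · γ · diag(1,p)` is divisible by `p^m` for all `γ ∈ SL(2, ℤ)`. -/
def InI {R : Type*} [CommRing R] (p n m : ℕ) (F : R[X]) : Prop :=
  F.natDegree ≤ n ∧ ∀ γ : SL(2, ℤ), dvdP ((p : R) ^ m) (symAct n (mx γ * dp p) F)

/-- B2a. Elements of `I_m` have the jets in `p^(m-a)`. -/
def BJet : Prop := ∀ (p : ℕ) [Fact p.Prime] (n m : ℕ) (F : ℤ_[p][X]), m ≤ n → InI p n m F →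
  ∀ (b : Node p) (a : ℕ), a < m → (p : ℤ_[p]) ^ (m - a) ∣ jet n b a F

/-- B2b. `Gamma0 N` acts transitively on `P^1(F_p)`: every `γ` can be written `γ' δ` with
`γ' ∈ Gamma0 N` and `p ∣ δ_{10}`. -/
def BTrans : Prop := ∀ (p N : ℕ) [Fact p.Prime], N ≠ 0 → ¬ p ∣ N → ∀ γ : SL(2, ℤ),
  ∃ γ' δ : SL(2, ℤ), γ' ∈ Gamma0 N ∧ (p : ℤ) ∣ δ 1 0 ∧ γ = γ' * δ

/-- B2c. Elements of a symbol divisible by `p^m` under `T_p`: if the individual terms of
`T_p φ` are divisible by `p^m'` then all values lie in `I_m'`. -/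
def BVal : Prop := ∀ (p N : ℕ) [Fact p.Prime], N ≠ 0 → ¬ p ∣ N → ∀ (n m' : ℕ)
  (φ : Vec → Vec → ℤ[X]), φ ∈ Symb N n ℤ →
  (∀ r s, dvdP ((p : ℤ) ^ m') (symAct n (dp p) (φ r s))) → ∀ r s, InI p n m' (φ r s)

/-- B2d. From `DualStep`: if `T_p φ ∈ p^s Λ` then all values lie in `I_(s-e0)`. -/
def BTp : Prop := ∀ (p N : ℕ) [Fact p.Prime], DualStep p → N ≠ 0 → ¬ p ∣ N → ∀ (n s : ℕ)
  (φ : Vec → Vec → ℤ[X]), φ ∈ Symb N n ℤ → (p + 1) * s ≤ n + 1 →
  (∃ ψ ∈ Symb N n ℤ, heckeSymbFun n p φ = ((p : ℤ) ^ s) • ψ) → ∀ r s', InI p n (s - e0 p n) (φ r s')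

/-- B2e. From `DualStep`: values of a symbol with `(T_p - p^s u) φ ∈ p^(s+h) Λ`, times `p^e0`, lie
in `V_(s+h) + p^(h+e0)`. -/
def BVmod : Prop := ∀ (p N : ℕ) [Fact p.Prime], DualStep p → N ≠ 0 → ¬ p ∣ N → ∀ (n s h : ℕ)
  (u : ℤ) (φ : Vec → Vec → ℤ[X]), φ ∈ Symb N n ℤ → (p + 1) * (s + h) ≤ n → ¬ (p : ℤ) ∣ u →
  (∃ ψ ∈ Symb N n ℤ, heckeSymbFun n p φ - ((p : ℤ) ^ s * u) • φ = ((p : ℤ) ^ (s + h)) • ψ) →
  ∀ r s', (∃ (c : Node p → ℕ → ℤ_[p]) (G : ℤ_[p][X]), G.natDegree ≤ n ∧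
    Polynomial.C ((p : ℤ_[p]) ^ e0 p n) * (φ r s').map (Int.castRingHom ℤ_[p]) =
      ∑ b : Node p, ∑ a ∈ Finset.range (s + h), Polynomial.C (c b a) * vv p n ℤ_[p] b a
        + Polynomial.C ((p : ℤ_[p]) ^ (h + e0 p n)) * G)

/-- B2f. The deep bound for modular symbols. -/
def BDeep : Prop := ∀ (p N : ℕ) [Fact p.Prime], N ≠ 0 → ¬ p ∣ N → DualStep p → DeepBound p →
  SymbDeep p N

/-- B1d. Descent: existence of a basis. -/
def BBasis : Prop := ∀ N : ℕ, N ≠ 0 → SymbBasisExists N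

/-- B7. The norm bound. -/
def BNorm : Prop := ∀ N : ℕ, N ≠ 0 → SymbNorm N

end Gou

end
end

section

/-!
MP_602313_nt, module C1: functions on the upper half plane which are holomorphic and zero at all
rational cusps; slash action of rational matrices.
-/

open scoped MatrixGroups ModularForm UpperHalfPlane Manifold Pointwise
open CongruenceSubgroup UpperHalfPlane Matrix Matrix.SpecialLinearGroup ConjAct OnePoint

noncomputable section

namespace Gou

/-- The real matrix of a rational matrix. -/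
abbrev gR (g : GL (Fin 2) ℚ) : GL (Fin 2) ℝ := g.map (Rat.castHom ℝ)

/-- Holomorphic functions of weight `k` on the upper half plane, zero at all rational cusps. -/
structure IsCuspFun (k : ℤ) (F : ℍ → ℂ) : Prop where
  holo : MDiff F
  zero : ∀ c : OnePoint ℝ, IsCusp c 𝒮ℒ → c.IsZeroAt F k

theorem isCusp_gR {c : OnePoint ℝ} (hc : IsCusp c 𝒮ℒ) (g : GL (Fin 2) ℚ) :
    IsCusp (gR g • c) 𝒮ℒ := by
  have h := hc.smul (gR g)
  have := isArithmetic_conj_SL2Z g
  exact (Subgroup.IsArithmetic.isCusp_iff_isCusp_SL2Z _).mp h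

theorem IsCuspFun.slash {k : ℤ} {F : ℍ → ℂ} (hF : IsCuspFun k F) (g : GL (Fin 2) ℚ) :
    IsCuspFun k (F ∣[k] gR g) where
  holo := hF.holo.slash k _
  zero c hc := by
    rw [← OnePoint.IsZeroAt.smul_iff]
    exact hF.zero _ (isCusp_gR hc g)

theorem IsCuspFun.add {k : ℤ} {F G : ℍ → ℂ} (hF : IsCuspFun k F) (hG : IsCuspFun k G) :
    IsCuspFun k (F + G) where
  holo := hF.holo.add hG.holo
  zero c hc := (hF.zero c hc).add (hG.zero c hc)

theorem IsCuspFun.zero' (k : ℤ) : IsCuspFun k (0 : ℍ → ℂ) where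
  holo := mdifferentiable_const
  zero _ _ _ _ := by simpa using! Filter.zero_zeroAtFilter _

theorem IsCuspFun.smul {k : ℤ} {F : ℍ → ℂ} (hF : IsCuspFun k F) (a : ℂ) :
    IsCuspFun k (a • F) where
  holo := by
    have := (mdifferentiable_const (I := 𝓘(ℂ)) (M := ℍ) (I' := 𝓘(ℂ)) (c := a)).mul hF.holo
    exact this
  zero c hc g hg := by
    rw [ModularForm.smul_slash]
    exact (hF.zero c hc g hg).smul _

theorem IsCuspFun.sum {k : ℤ} {ι : Type*} (s : Finset ι) (F : ι → ℍ → ℂ)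
    (h : ∀ i ∈ s, IsCuspFun k (F i)) : IsCuspFun k (∑ i ∈ s, F i) := by
  classical
  induction s using Finset.induction_on with
  | empty => simpa using IsCuspFun.zero' k
  | insert a s ha ih =>
    rw [Finset.sum_insert ha]
    exact (h a (Finset.mem_insert_self _ _)).add (ih fun i hi => h i (Finset.mem_insert_of_mem hi))

theorem isCuspFun_of_cuspForm {Γ : Subgroup SL(2, ℤ)} [Γ.FiniteIndex] {k : ℤ}
    (f : CuspForm Γ k) : IsCuspFun k f where
  holo := f.holo'
  zero c hc := f.zero_at_cusps' ((Subgroup.IsArithmetic.isCusp_iff_isCusp_SL2Z _).mpr hc)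

/-- Cusp forms from functions. -/
def mkCusp (Γ : Subgroup SL(2, ℤ)) [Γ.FiniteIndex] {k : ℤ} (F : ℍ → ℂ) (h1 : IsCuspFun k F)
    (h2 : ∀ γ ∈ Γ, F ∣[k] γ = F) : CuspForm Γ k where
  toFun := F
  slash_action_eq' := by
    rintro _ ⟨γ, hγ, rfl⟩
    exact h2 γ hγ
  holo' := h1.holo
  zero_at_cusps' hc := h1.zero _ ((Subgroup.IsArithmetic.isCusp_iff_isCusp_SL2Z _).mp hc)

@[simp] theorem mkCusp_coe (Γ : Subgroup SL(2, ℤ)) [Γ.FiniteIndex] {k : ℤ} (F : ℍ → ℂ)
    (h1 : IsCuspFun k F) (h2 : ∀ γ ∈ Γ, F ∣[k] γ = F) : ⇑(mkCusp Γ F h1 h2) = F := rfl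

theorem slash_of_mem {Γ : Subgroup SL(2, ℤ)} {k : ℤ} (f : CuspForm Γ k) {γ : SL(2, ℤ)}
    (hγ : γ ∈ Γ) : (⇑f) ∣[k] γ = ⇑f :=
  f.slash_action_eq' _ ⟨γ, hγ, rfl⟩

/-- `(1 j; 0 d)`. -/
def gU (d : ℕ) (hd : d ≠ 0) (j : ℕ) : GL (Fin 2) ℚ :=
  GeneralLinearGroup.mkOfDetNeZero !![1, (j : ℚ); 0, (d : ℚ)]
    (by simp [Matrix.det_fin_two, hd])

/-- `(l 0; 0 1)`. -/
def gV (l : ℕ) (hl : l ≠ 0) : GL (Fin 2) ℚ :=
  GeneralLinearGroup.mkOfDetNeZero !![(l : ℚ), 0; 0, 1]
    (by simp [Matrix.det_fin_two, hl])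

/-- `(1 j/N; 0 1)`. -/
def gB (N : ℕ) (j : ℕ) : GL (Fin 2) ℚ :=
  GeneralLinearGroup.mkOfDetNeZero !![1, (j : ℚ) / N; 0, 1]
    (by simp [Matrix.det_fin_two])

/-- The point `z + j / N`. -/
def shPt (N j : ℕ) (z : ℍ) : ℍ := ⟨(z : ℂ) + ((j : ℝ) / N : ℝ), by
  rw [Complex.add_im, Complex.ofReal_im, add_zero]; exact z.im_pos⟩

theorem slash_pos {k : ℤ} (F : ℍ → ℂ) (g : GL (Fin 2) ℝ) (hg : 0 < g.det.val) (z : ℍ) :
    (F ∣[k] g) z = F (g • z) * ((g.det.val : ℝ) : ℂ) ^ (k - 1) * denom g z ^ (-k) := by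
  rw [ModularForm.slash_apply]
  simp only [σ, hg, ↓reduceIte, ContinuousAlgEquiv.refl_apply]
  rw [abs_of_pos hg]

theorem slash_gU {k : ℤ} (F : ℍ → ℂ) (d : ℕ) (hd : d ≠ 0) (j : ℕ) (z : ℍ) :
    (F ∣[k] gR (gU d hd j)) z = (d : ℂ)⁻¹ * F (divPt d j (Nat.pos_of_ne_zero hd) z) := by
  have hdet : (gR (gU d hd j)).det.val = (d : ℝ) := by
    simp [gR, gU, GeneralLinearGroup.mkOfDetNeZero, Matrix.det_fin_two]
  have hpos : 0 < (gR (gU d hd j)).det.val := by
    rw [hdet]; exact_mod_cast Nat.pos_of_ne_zero hd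
  rw [slash_pos F _ hpos, hdet]
  have h1 : gR (gU d hd j) • z = divPt d j (Nat.pos_of_ne_zero hd) z := by
    ext
    rw [UpperHalfPlane.coe_smul_of_det_pos hpos]
    simp [gR, gU, GeneralLinearGroup.mkOfDetNeZero, divPt, num, denom]
  have h2 : denom (gR (gU d hd j)) z = (d : ℂ) := by
    simp [gR, gU, GeneralLinearGroup.mkOfDetNeZero, denom]
  rw [h1, h2]
  have h3 : (d : ℂ) ≠ 0 := by exact_mod_cast hd
  rw [mul_assoc, Complex.ofReal_natCast, ← zpow_add₀ h3]
  rw [show k - 1 + -k = -1 by ring, _root_.zpow_neg_one, mul_comm]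

theorem slash_gV {k : ℤ} (F : ℍ → ℂ) (l : ℕ) (hl : l ≠ 0) (z : ℍ) :
    (F ∣[k] gR (gV l hl)) z = (l : ℂ) ^ (k - 1) * F (mulPt l (Nat.pos_of_ne_zero hl) z) := by
  have hdet : (gR (gV l hl)).det.val = (l : ℝ) := by
    simp [gR, gV, GeneralLinearGroup.mkOfDetNeZero, Matrix.det_fin_two]
  have hpos : 0 < (gR (gV l hl)).det.val := by
    rw [hdet]; exact_mod_cast Nat.pos_of_ne_zero hl
  rw [slash_pos F _ hpos, hdet]
  have h1 : gR (gV l hl) • z = mulPt l (Nat.pos_of_ne_zero hl) z := by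
    ext
    rw [UpperHalfPlane.coe_smul_of_det_pos hpos]
    simp [gR, gV, GeneralLinearGroup.mkOfDetNeZero, mulPt, num, denom]
  have h2 : denom (gR (gV l hl)) z = 1 := by
    simp [gR, gV, GeneralLinearGroup.mkOfDetNeZero, denom]
  rw [h1, h2]
  simp [mul_comm]

theorem slash_gB {k : ℤ} (F : ℍ → ℂ) (N j : ℕ) (z : ℍ) :
    (F ∣[k] gR (gB N j)) z = F (shPt N j z) := by
  have hdet : (gR (gB N j)).det.val = (1 : ℝ) := by
    simp [gR, gB, GeneralLinearGroup.mkOfDetNeZero, Matrix.det_fin_two]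
  have hpos : 0 < (gR (gB N j)).det.val := by
    rw [hdet]; norm_num
  rw [slash_pos F _ hpos, hdet]
  have h1 : gR (gB N j) • z = shPt N j z := by
    ext
    rw [UpperHalfPlane.coe_smul_of_det_pos hpos]
    simp [gR, gB, GeneralLinearGroup.mkOfDetNeZero, shPt, num, denom]
  have h2 : denom (gR (gB N j)) z = 1 := by
    simp [gR, gB, GeneralLinearGroup.mkOfDetNeZero, denom]
  rw [h1, h2]
  simp

end Gou

end
end

section

/-!
Module D: linear algebra over a field with a nonarchimedean absolute value.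
-/

open scoped Polynomial

noncomputable section

namespace Gou

/-- `av` is a nonarchimedean absolute value on `K` with `av p = 1/p`. -/
structure NA (K : Type*) [Field K] (p : ℕ) (av : AbsoluteValue K ℝ) : Prop where
  na : ∀ x y, av (x + y) ≤ max (av x) (av y)
  hp : av (p : K) = (p : ℝ)⁻¹

/-- Integer vectors independent modulo `p`. -/
def PInd (p : ℕ) {r R : ℕ} (x : Fin r → Fin R → ℤ) : Prop :=
  ∀ c : Fin r → ℤ, (∀ k, (p : ℤ) ∣ ∑ i, c i * x i k) → ∀ i, (p : ℤ) ∣ c i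

/-- Cast an integer matrix to `K`. -/
abbrev cm (K : Type*) [Field K] {R : ℕ} (A : Matrix (Fin R) (Fin R) ℤ) : Matrix (Fin R) (Fin R) K :=
  A.map (Int.cast : ℤ → K)

/-- D1. Absolute values of integers. -/
def D1Int : Prop := ∀ (p : ℕ) [Fact p.Prime] (K : Type) [Field K] [CharZero K] (av : AbsoluteValue K ℝ),
  NA K p av → ∀ z : ℤ, av (z : K) ≤ 1 ∧ (z ≠ 0 → ((|z| : ℤ) : ℝ)⁻¹ ≤ av (z : K)) ∧
    (z ≠ 0 → av (z : K) = (p : ℝ) ^ (-(padicValInt p z : ℝ))) ∧ (¬ (p : ℤ) ∣ z → av (z : K) = 1)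

/-- D2. Determinant bound: entries of column `j` bounded by `B j`. -/
def D2Det : Prop := ∀ (p : ℕ) [Fact p.Prime] (K : Type) [Field K] (av : AbsoluteValue K ℝ),
  NA K p av → ∀ (m : ℕ) (A : Matrix (Fin m) (Fin m) K) (B : Fin m → ℝ),
    (∀ i j, av (A i j) ≤ B j) → av A.det ≤ ∏ j, B j

/-- D3. A subspace of `K^R` of dimension `d` has a basis with entries of absolute value `≤ 1` whose
restriction to some `d` coordinates is the identity matrix. -/
def D3Basis : Prop := ∀ (p : ℕ) [Fact p.Prime] (K : Type) [Field K] (av : AbsoluteValue K ℝ),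
  NA K p av → ∀ (R d : ℕ) (W : Submodule K (Fin R → K)), Module.finrank K W = d →
    ∃ (I : Fin d → Fin R) (e : Fin d → Fin R → K), Function.Injective I ∧ (∀ j, e j ∈ W) ∧
      (∀ j k, av (e j k) ≤ 1) ∧ (∀ j i, e j (I i) = if i = j then 1 else 0) ∧
      ∀ w ∈ W, w = ∑ j, w (I j) • e j

/-- D4. Let `b_1, ..., b_r` in `K^d` be integral vectors one of whose `r × r` minors has absolute
value 1, and `A` an integral `d × d` matrix with `av (A b_i) ≤ p^(-δ_i)`, `δ_i ≥ 0`. Then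
`av (det A) ≤ p^(-sum δ_i)`. -/
def D4Vol : Prop := ∀ (p : ℕ) [Fact p.Prime] (K : Type) [Field K] (av : AbsoluteValue K ℝ),
  NA K p av → ∀ (d r : ℕ) (A : Matrix (Fin d) (Fin d) K) (b : Fin r → Fin d → K) (δ : Fin r → ℝ)
    (I : Fin r → Fin d), Function.Injective I → av (Matrix.det (fun i j => b i (I j))) = 1 →
    (∀ i k, av (b i k) ≤ 1) → (∀ i j, av (A i j) ≤ 1) →
    (∀ i k, av (A.mulVec (b i) k) ≤ (p : ℝ) ^ (-(δ i))) →
    av A.det ≤ (p : ℝ) ^ (-(∑ i, δ i))

/-- D5. If `b_i = sum_j β i j e_j` (`e_j, β` integral) and some `r × r` minor of the `b_i` has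
absolute value 1 then some `r × r` minor of `β` has absolute value 1. -/
def D5Minor : Prop := ∀ (p : ℕ) [Fact p.Prime] (K : Type) [Field K] (av : AbsoluteValue K ℝ),
  NA K p av → ∀ (R d r : ℕ) (e : Fin d → Fin R → K) (β : Fin r → Fin d → K) (b : Fin r → Fin R → K)
    (I : Fin r → Fin R), (∀ i k, b i k = ∑ j, β i j * e j k) → (∀ j k, av (e j k) ≤ 1) →
    (∀ i j, av (β i j) ≤ 1) → av (Matrix.det (fun i j => b i (I j))) = 1 →
    ∃ J : Fin r → Fin d, Function.Injective J ∧ av (Matrix.det (fun i j => β i (J j))) = 1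

/-- D6. Integer vectors independent mod `p` have an `r × r` minor prime to `p`; perturbation. -/
def D6Unit : Prop := ∀ (p : ℕ) [Fact p.Prime] (K : Type) [Field K] [CharZero K]
  (av : AbsoluteValue K ℝ), NA K p av → ∀ (R r : ℕ) (x : Fin r → Fin R → ℤ), PInd p x →
    ∃ I : Fin r → Fin R, Function.Injective I ∧
      ∀ b : Fin r → Fin R → K, (∀ i k, av (b i k - (x i k : K)) < 1) →
        (∀ i k, av (b i k) ≤ 1) ∧ av (Matrix.det (fun i j => b i (I j))) = 1

/-- D7 (the `Z`-argument). -/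
def D7Z : Prop := ∀ (p : ℕ) [Fact p.Prime] (K : Type) [Field K] [CharZero K] [IsAlgClosed K]
  (av : AbsoluteValue K ℝ), NA K p av →
  ∀ (R r r2 : ℕ) (A : Matrix (Fin R) (Fin R) ℤ) (P : Matrix (Fin R) (Fin R) K) (ζ : K) (Y σ : ℝ)
    (x : Fin r → Fin R → ℤ) (d : Fin r → ℕ),
    (∀ i j, av (P i j) ≤ 1) → P * cm K A = cm K A * P → 0 < Y → av ζ = (p : ℝ) ^ (-Y) → 0 ≤ σ →
    (P * cm K A - ζ • (1 : Matrix (Fin R) (Fin R) K)).rank ≤ r2 →
    (∀ a : K, (cm K A).charpoly.IsRoot a → (p : ℝ) ^ (-σ) ≤ av a) →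
    PInd p x → (∀ i, 2 * Y ≤ d i) → (∀ i k, (p : ℤ) ^ (d i) ∣ A.mulVec (x i) k) →
    ∑ i, ((d i : ℝ) - Y) ≤ r2 * σ

/-- D8 (Smith normal form). `A` an integer matrix with nonzero determinant: there are bases `x`, `y`
of `ℤ^R` (given by matrices `U`, `V` with determinant a unit) and integers `a_i` with
`A x_i = a_i y_i`. -/
def D8Smith : Prop := ∀ (R : ℕ) (A : Matrix (Fin R) (Fin R) ℤ), A.det ≠ 0 →
  ∃ (U V : Matrix (Fin R) (Fin R) ℤ) (a : Fin R → ℤ), IsUnit U.det ∧ IsUnit V.det ∧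
    A * U = V * Matrix.diagonal a

/-- D9. Upper bound for `v_p(det A)`, `A = M - λ`. -/
def D9Upper : Prop := ∀ (p : ℕ) [Fact p.Prime] (R s h B' : ℕ) (A : Matrix (Fin R) (Fin R) ℤ)
  (Bm : ℕ → ℝ) (Y D : ℝ), A.det ≠ 0 → 0 ≤ Y →
  (∀ m : ℕ, 1 ≤ m → m ≤ s → ∀ (r : ℕ) (x : Fin r → Fin R → ℤ), PInd p x →
    (∀ i k, (p : ℤ) ^ m ∣ A.mulVec (x i) k) → (r : ℝ) ≤ Bm m) →
  (∀ (r : ℕ) (x : Fin r → Fin R → ℤ), PInd p x →
    (∀ i k, (p : ℤ) ^ (s + h) ∣ A.mulVec (x i) k) → r ≤ B') →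
  (∀ (r : ℕ) (x : Fin r → Fin R → ℤ) (d : Fin r → ℕ), PInd p x → (∀ i, 2 * Y ≤ d i) →
    (∀ i k, (p : ℤ) ^ (d i) ∣ A.mulVec (x i) k) → ∑ i, ((d i : ℝ) - Y) ≤ D) →
  (padicValInt p A.det : ℝ) ≤ ∑ m ∈ Finset.Icc 1 s, Bm m + R * h + 2 * Y * B' + 2 * D

/-- D10. Lower bound for `v_p(det A)` by the size of the image modulo `p^s`. -/
def D10Lower : Prop := ∀ (p : ℕ) [Fact p.Prime] (R s : ℕ) (A : Matrix (Fin R) (Fin R) ℤ) (L : ℝ),
  A.det ≠ 0 →
  (∀ (r : ℕ) (x : Fin r → Fin R → ℤ),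
    (∀ i j, (∀ k, (p : ℤ) ^ s ∣ A.mulVec (x i) k - A.mulVec (x j) k) → i = j) →
      Real.logb p r ≤ L) →
  (R : ℝ) * s - L ≤ padicValInt p A.det

/-- D11. Choice of `u`: there is `u` prime to `p` such that `λ = p^s u` is at distance at least
`p^(-(s+c))` from all the roots of a polynomial of degree at most `D`, if `p * (D+1) < p^c`. -/
def D11Gen : Prop := ∀ (p : ℕ) [Fact p.Prime] (K : Type) [Field K] [CharZero K]
  (av : AbsoluteValue K ℝ), NA K p av → ∀ (s c D : ℕ) (roots : Multiset K),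
    Multiset.card roots ≤ D → p * (D + 1) < p ^ c →
    ∃ u : ℤ, ¬ (p : ℤ) ∣ u ∧ ∀ a ∈ roots, (p : ℝ) ^ (-((s + c : ℕ) : ℝ)) ≤ av (a - (p : K) ^ s * (u : K))

/-- D12. Simultaneous generalised eigenspaces: a commuting family of matrices over an algebraically
closed field, indexed by a finite type. There are finitely many characters `χ_j` (pairwise distinct),
multiplicities `μ_j ≥ 1` with sum `R`, such that every product of matrices of the family has trace
`sum_j μ_j * (product of the values of χ_j)`; every joint eigenvector has one of the `χ_j` as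
character, and linearly independent joint eigenvectors with character `χ_j` are at most `μ_j`. -/
def D12Char : Prop := ∀ (K : Type) [Field K] [IsAlgClosed K] [CharZero K] (L : Type) [Finite L]
  (R : ℕ) (M : L → Matrix (Fin R) (Fin R) K), (∀ l l', M l * M l' = M l' * M l) →
  ∃ (q : ℕ) (χ : Fin q → L → K) (μ : Fin q → ℕ), Function.Injective χ ∧ (∀ j, 1 ≤ μ j) ∧
    ∑ j, μ j = R ∧
    (∀ w : List L, Matrix.trace (w.map M).prod = ∑ j, (μ j : K) * (w.map (χ j)).prod) ∧
    (∀ j l, ((M l).charpoly.IsRoot (χ j l))) ∧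
    (∀ (ψ : L → K) (r : ℕ) (v : Fin r → Fin R → K), (∀ i l, (M l).mulVec (v i) = ψ l • v i) →
      LinearIndependent K v → 1 ≤ r → ∃ j, ψ = χ j ∧ r ≤ μ j)

/-- D13. Chain argument. `χ_1, ..., χ_q` pairwise distinct functions on a finite set `L`; the
vectors `(eval of words in S)` where `S` is a set of words containing all one-letter words and the
empty word; if the evaluations at words of `S` span a subspace of dimension at least `q - c` of
`K^q`, then the evaluations at products of at most `c+1` words of `S` span `K^q`. -/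
def D13Chain : Prop := ∀ (K : Type) [Field K] (L : Type) (q c : ℕ) (χ : Fin q → L → K)
  (S : Set (List L)), Function.Injective χ → [] ∈ S → (∀ l : L, [l] ∈ S) →
  (q : ℕ) ≤ Module.finrank K (Submodule.span K
    {v : Fin q → K | ∃ w ∈ S, v = fun j => (w.map (χ j)).prod}) + c →
  ∃ w : Fin q → List L, (∀ i, ∃ W : List (List L), W.length ≤ c + 1 ∧ (∀ u ∈ W, u ∈ S) ∧
      w i = W.flatten) ∧
    Matrix.det (fun i j : Fin q => ((w i).map (χ j)).prod) ≠ 0

/-- D14. Minors and Cramer: `A` an integral `q × q` matrix with `p^(-E) ≤ av (det A)`, `h1 ≥ 1`: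
there is a set `J` of columns with complement of size at most `E / h1` such that every integral
vector `y` on `J`, times `p^h1`, is an integral combination of the rows of `A` on `J`. -/
def D14Cramer : Prop := ∀ (p : ℕ) [Fact p.Prime] (K : Type) [Field K] [CharZero K]
  (av : AbsoluteValue K ℝ), NA K p av → ∀ (q h1 : ℕ) (E : ℝ) (A : Matrix (Fin q) (Fin q) K),
    1 ≤ h1 → (∀ i j, av (A i j) ≤ 1) → (p : ℝ) ^ (-E) ≤ av A.det →
    ∃ J : Finset (Fin q), ((Jᶜ.card : ℝ) * h1 ≤ E) ∧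
      ∀ y : Fin q → K, (∀ j, av (y j) ≤ 1) →
        ∃ c : Fin q → K, (∀ i, av (c i) ≤ 1) ∧
          ∀ j ∈ J, ∑ i, c i * A i j = (p : K) ^ h1 * y j

/-- D15. Gram determinant bound: integer matrix `G = A diag(μ) A^t`, entries of `G` at most `X` in
absolute value, `X ≥ 1`: `av (det A)^2 ≥ (q! X^q)^(-1)`. -/
def D15Gram : Prop := ∀ (p : ℕ) [Fact p.Prime] (K : Type) [Field K] [CharZero K]
  (av : AbsoluteValue K ℝ), NA K p av → ∀ (q : ℕ) (A : Matrix (Fin q) (Fin q) K) (μ : Fin q → ℕ)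
    (G : Matrix (Fin q) (Fin q) ℤ) (X : ℝ), 1 ≤ X → (∀ j, 1 ≤ μ j) → A.det ≠ 0 →
    (∀ i j, (G i j : K) = ∑ l, A i l * (μ l : K) * A j l) → (∀ i j, ((|G i j| : ℤ) : ℝ) ≤ X) →
    ((q.factorial : ℝ) * X ^ q)⁻¹ ≤ av A.det ^ 2

end Gou

end
end

section

/-!
E1: congruences between the entries.
-/

open Finset

noncomputable section

namespace Gou

namespace PE1

theorem dvd_of_mul {p : ℕ} (hp : p.Prime) {B L l C : ℕ} (hl : 0 < l) (hlt : l < p ^ (L + 1))
    (h : p ^ B ∣ l * C) : p ^ (B - L) ∣ C := by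
  obtain ⟨e, n, hn, rfl⟩ := Nat.exists_eq_pow_mul_and_not_dvd hl.ne' p hp.ne_one
  have hn0 : 0 < n := Nat.pos_of_ne_zero fun h0 => hn (h0 ▸ dvd_zero p)
  have he : e < L + 1 := by
    rw [← Nat.pow_lt_pow_iff_right hp.one_lt]
    exact lt_of_le_of_lt (Nat.le_mul_of_pos_right _ hn0) hlt
  by_cases hB : B ≤ L
  · rw [Nat.sub_eq_zero_of_le hB, pow_zero]
    exact one_dvd _
  have h1 : p ^ B = p ^ e * p ^ (B - e) := by
    rw [← pow_add]; congr 1; omega
  rw [h1, mul_assoc] at h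
  have h2 : p ^ (B - e) ∣ n * C := Nat.dvd_of_mul_dvd_mul_left (pow_pos hp.pos e) h
  have h3 : p ^ (B - e) ∣ C := (Nat.prime_iff.1 hp).pow_dvd_of_dvd_mul_left _ hn h2
  exact (pow_dvd_pow p (by omega)).trans h3

theorem dvd_choose {p : ℕ} (hp : p.Prime) {s B z l : ℕ} (hz : p ^ B ∣ z) (hl : 0 < l)
    (hls : l < s) : p ^ (B - Nat.log p s) ∣ z.choose l := by
  refine dvd_of_mul hp hl (hls.trans (Nat.lt_pow_succ_log_self hp.one_lt s)) ?_
  rcases Nat.eq_zero_or_pos z with rfl | hz0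
  · rw [Nat.choose_eq_zero_of_lt hl, mul_zero]
    exact dvd_zero _
  · obtain ⟨z, rfl⟩ : ∃ z', z = z' + 1 := ⟨z - 1, by omega⟩
    obtain ⟨l, rfl⟩ : ∃ l', l = l' + 1 := ⟨l - 1, by omega⟩
    rw [mul_comm, ← Nat.add_one_mul_choose_eq]
    exact hz.mul_right _

theorem choose_congr {p : ℕ} (hp : p.Prime) {s B z : ℕ} (hz : p ^ B ∣ z) (y : ℕ) {i : ℕ}
    (hi : i < s) : ((p : ℤ)) ^ (B - Nat.log p s) ∣ ((y + z).choose i : ℤ) - (y.choose i : ℤ) := by
  have h1 : (z + y).choose i = y.choose i +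
      ∑ l ∈ range i, z.choose (l + 1) * y.choose (i - (l + 1)) := by
    rw [Nat.add_choose_eq, Finset.Nat.sum_antidiagonal_eq_sum_range_succ_mk,
      Finset.sum_range_succ']
    simp [add_comm]
  rw [add_comm y z, h1]
  push_cast
  rw [add_sub_cancel_left]
  refine Finset.dvd_sum fun l hl => ?_
  have h2 : p ^ (B - Nat.log p s) ∣ z.choose (l + 1) :=
    dvd_choose hp hz (Nat.succ_pos l) (by have := Finset.mem_range.1 hl; omega)
  have h3 : ((p ^ (B - Nat.log p s) : ℕ) : ℤ) ∣ ((z.choose (l + 1) : ℕ) : ℤ) :=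
    Int.natCast_dvd_natCast.2 h2
  rw [Nat.cast_pow] at h3
  exact h3.mul_right _

theorem pow_congr {p : ℕ} (hp : p.Prime) (B t : ℕ) {u : ℤ} (hu : ¬ (p : ℤ) ∣ u) :
    ((p : ℤ)) ^ B ∣ u ^ (qq p * p ^ B * t) - 1 := by
  have h1 : (p : ℤ) ∣ u ^ qq p - 1 := by
    unfold qq
    split_ifs with h2
    · subst h2
      have hodd : u % 2 = 1 := by
        rcases Int.emod_two_eq_zero_or_one u with h | h
        · exact absurd (Int.dvd_of_emod_eq_zero h) hu
        · exact h
      have : u ^ 2 % 2 = 1 := by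
        rw [pow_two, Int.mul_emod, hodd]; rfl
      push_cast
      omega
    · have hc : IsCoprime u (p : ℤ) := by
        rw [isCoprime_comm]
        exact (Nat.prime_iff_prime_int.1 hp).irreducible.coprime_iff_not_dvd.2 hu
      exact (Int.ModEq.pow_card_sub_one_eq_one hp hc).symm.dvd
  have h2 := dvd_sub_pow_of_dvd_sub (R := ℤ) (p := p) (a := u ^ qq p) (b := 1) (by simpa using h1) B
  rw [one_pow] at h2
  have h3 : (u ^ qq p) ^ p ^ B - 1 ∣ u ^ (qq p * p ^ B * t) - 1 := by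
    rw [pow_mul, pow_mul]
    have := sub_dvd_pow_sub_pow ((u ^ qq p) ^ p ^ B) 1 t
    rwa [one_pow] at this
  exact ((pow_dvd_pow (p : ℤ) (Nat.le_succ B)).trans (by simpa using h2)).trans h3

theorem not_dvd_sub {p : ℕ} (b c : Fin p) (h : b ≠ c) :
    ¬ (p : ℤ) ∣ ((c : ℕ) : ℤ) - ((b : ℕ) : ℤ) := by
  intro hd
  have h1 : |((c : ℕ) : ℤ) - ((b : ℕ) : ℤ)| < p := by
    rw [abs_lt]
    have := b.2
    have := c.2
    omega
  have h2 := Int.eq_zero_of_abs_lt_dvd hd h1
  exact h (Fin.ext (by omega))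

theorem pow_dvd_pow_B (p : ℕ) (B L : ℕ) : ((p : ℤ)) ^ (B - L) ∣ (p : ℤ) ^ B :=
  pow_dvd_pow _ (Nat.sub_le _ _)

end PE1

open PE1

theorem prf_E1 (p : ℕ) [hp : Fact p.Prime] : E1 p := by
  intro s x B t b c i a ha hi hx
  have hz : p ^ B ∣ qq p * p ^ B * t := ⟨qq p * t, by ring⟩
  have hxa : x + qq p * p ^ B * t - a = (x - a) + qq p * p ^ B * t := by omega
  rcases b with _ | b <;> rcases c with _ | c
  · simp [ent]
  · simp only [ent]
    split_ifs with h1
    · rw [hxa, ← sub_mul]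
      exact (choose_congr hp.out hz _ (by omega)).mul_right _
    · simp
  · simp [ent]
  · simp only [ent]
    split_ifs with h1
    · simp
    · rw [hxa]
      set y := x - a
      set z := qq p * p ^ B * t
      have hc := choose_congr hp.out hz y hi
      by_cases hy : i ≤ y
      · have e1 : y + z - i = (y - i) + z := by omega
        rw [e1, pow_add]
        have e2 : ((y + z).choose i : ℤ) * ((((c : ℕ) : ℤ) - ((b : ℕ) : ℤ)) ^ (y - i) *
            (((c : ℕ) : ℤ) - ((b : ℕ) : ℤ)) ^ z) -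
            (y.choose i : ℤ) * (((c : ℕ) : ℤ) - ((b : ℕ) : ℤ)) ^ (y - i) =
            (((y + z).choose i : ℤ) - (y.choose i : ℤ)) *
              ((((c : ℕ) : ℤ) - ((b : ℕ) : ℤ)) ^ (y - i) * (((c : ℕ) : ℤ) - ((b : ℕ) : ℤ)) ^ z) +
            ((((c : ℕ) : ℤ) - ((b : ℕ) : ℤ)) ^ z - 1) *
              ((y.choose i : ℤ) * (((c : ℕ) : ℤ) - ((b : ℕ) : ℤ)) ^ (y - i)) := by ring
        rw [e2]
        refine dvd_add (hc.mul_right _) (Dvd.dvd.mul_right ?_ _)
        exact (pow_dvd_pow_B p B _).trans (pow_congr hp.out B t (not_dvd_sub b c h1))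
      · have e1 : y.choose i = 0 := Nat.choose_eq_zero_of_lt (not_le.1 hy)
        rw [e1] at hc ⊢
        rw [Nat.cast_zero, sub_zero] at hc
        rw [Nat.cast_zero, zero_mul, sub_zero]
        exact hc.mul_right _

end Gou

end
end

section

/-!
E2: divisibility of the determinant near a bad weight.
-/

open Finset

namespace Gou

theorem prf_E2 (p : ℕ) [Fact p.Prime] (l3 : L3 p) (e1 : E1 p) : E2 p := by
  intro s x B t h b hsx ⟨v, hv, hdiv⟩
  set x' : ℕ := x + qq p * p ^ B * t with hx'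
  have hdet : ((DD p s x' : ℤ) : ℤ_[p]) = (NMp p s x').det := by
    have h1 := (Int.castRingHom ℤ_[p]).map_det (NM p s x')
    exact h1
  rw [hdet]
  apply l3 (Idx p s) (NMp p s x') (min h (B - Nat.log p s)) b
  refine ⟨v, hv, ?_⟩
  intro i r
  have h1 : (NMp p s x').mulVec (v i) r = (NMp p s x).mulVec (v i) r +
      ∑ c, (NMp p s x' r c - NMp p s x r c) * v i c := by
    unfold Matrix.mulVec dotProduct
    rw [← Finset.sum_add_distrib]
    apply Finset.sum_congr rfl
    intro c _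
    ring
  rw [h1]
  apply dvd_add
  · exact (pow_dvd_pow _ (min_le_left _ _)).trans (hdiv i r)
  · apply Finset.dvd_sum
    intro c _
    apply Dvd.dvd.mul_right
    refine (pow_dvd_pow _ (min_le_right _ _)).trans ?_
    have h2 := e1 s x B t r.1 c.1 r.2 c.2 c.2.2 r.2.2 hsx
    have h3 : NMp p s x' r c - NMp p s x r c =
        ((ent x' r.1 r.2 c.1 c.2 - ent x r.1 r.2 c.1 c.2 : ℤ) : ℤ_[p]) := by
      unfold NMp NM
      push_cast
      rfl
    rw [h3]
    have h4 := map_dvd (Int.castRingHom ℤ_[p]) h2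
    simpa using h4

end Gou

end

section

/-! I1: valuation of a divided difference (MP_602313_nt). -/

open scoped Polynomial
open Finset

noncomputable section

namespace Gou

theorem pi1_poly (p : ℕ) [hp : Fact p.Prime] {ι : Type} [Fintype ι] [DecidableEq ι] (node : ι → ℕ)
    (hinj : Function.Injective node) (hι : 0 < Fintype.card ι) (P : ℤ[X]) :
    ∃ z : ℤ, ∑ i, ((P.eval ((node i : ℕ) : ℤ) : ℤ) : ℚ_[p]) /
        ∏ j ∈ univ.erase i, ((node i : ℚ_[p]) - (node j : ℚ_[p])) = (z : ℚ_[p]) ∧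
      (P.natDegree < Fintype.card ι - 1 → z = 0) := by
  let Q : ℤ[X] := ∏ i, (Polynomial.X - Polynomial.C ((node i : ℕ) : ℤ))
  have hQm : Q.Monic := Polynomial.monic_prod_of_monic _ _ fun i _ => Polynomial.monic_X_sub_C _
  have hQd : Q.natDegree = Fintype.card ι := by
    simp only [Q]
    rw [Polynomial.natDegree_prod_of_monic _ _ fun i _ => Polynomial.monic_X_sub_C _]
    simp only [Polynomial.natDegree_X_sub_C, Finset.sum_const, Finset.card_univ, smul_eq_mul, mul_one]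
  have hQ1 : Q ≠ 1 := by
    intro h
    rw [h, Polynomial.natDegree_one] at hQd
    omega
  set r := P %ₘ Q with hr
  have hrd : r.degree < Fintype.card ι := by
    have h := Polynomial.degree_modByMonic_lt P hQm
    rwa [Polynomial.degree_eq_natDegree hQm.ne_zero, hQd] at h
  have hv : Set.InjOn (fun i => (node i : ℚ_[p])) (univ : Finset ι) := by
    intro i _ j _ hij
    have hij' : (node i : ℚ_[p]) = (node j : ℚ_[p]) := hij
    exact hinj (by exact_mod_cast hij')
  have heval : ∀ i, r.eval ((node i : ℕ) : ℤ) = P.eval ((node i : ℕ) : ℤ) := by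
    intro i
    have h1 := Polynomial.modByMonic_add_div P Q
    have h2 := congrArg (Polynomial.eval ((node i : ℕ) : ℤ)) h1
    have h3 : Q.eval ((node i : ℕ) : ℤ) = 0 := by
      simp only [Q]
      rw [Polynomial.eval_prod]
      apply Finset.prod_eq_zero (mem_univ i)
      simp
    rw [Polynomial.eval_add, Polynomial.eval_mul, h3, zero_mul, add_zero] at h2
    exact h2
  refine ⟨r.coeff (Fintype.card ι - 1), ?_, ?_⟩
  · have hRd : (r.map (Int.castRingHom ℚ_[p])).degree < ((univ : Finset ι).card : ℕ) := by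
      refine lt_of_le_of_lt (Polynomial.degree_map_le) ?_
      rwa [Finset.card_univ]
    have h := Lagrange.coeff_eq_sum hv hRd
    rw [Finset.card_univ, Polynomial.coeff_map] at h
    rw [eq_intCast] at h
    rw [h]
    refine Finset.sum_congr rfl fun i _ => ?_
    rw [Polynomial.eval_natCast_map, heval i, eq_intCast]
  · intro hlt
    have hPr : r = P := by
      rw [hr, Polynomial.modByMonic_eq_self_iff hQm]
      rw [Polynomial.degree_eq_natDegree hQm.ne_zero, hQd]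
      refine lt_of_le_of_lt Polynomial.degree_le_natDegree ?_
      exact_mod_cast (by omega : P.natDegree < Fintype.card ι)
    rw [hPr]
    exact Polynomial.coeff_eq_zero_of_natDegree_lt hlt

theorem prf_I1 (p : ℕ) [hp : Fact p.Prime] : I1 p := by
  intro κ L f hκ hMC ι _ _ node hinj z hz
  have hp0 : (0 : ℝ) < p := by exact_mod_cast hp.out.pos
  have hp1 : (1 : ℝ) ≤ p := by exact_mod_cast hp.out.one_lt.le
  rcases Nat.eq_zero_or_pos (Fintype.card ι) with hc | hc
  · have : IsEmpty ι := Fintype.card_eq_zero_iff.mp hc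
    simp only [univ_eq_empty, sum_empty, norm_zero]
    positivity
  -- Newton expansion
  set N : ℕ := univ.sup node with hN
  have hnode : ∀ i, node i ≤ N := fun i => Finset.le_sup (mem_univ i)
  let D : ℕ → ℤ_[p] := fun l => (fwdDiff (1 : ℕ))^[l] f 0
  have hnewton : ∀ i, f (node i) = ∑ k ∈ range (N + 1), ((node i).choose k : ℤ_[p]) * D k := by
    intro i
    have h := shift_eq_sum_fwdDiff_iter (1 : ℕ) f (node i) 0
    rw [zero_add, smul_eq_mul, mul_one] at h
    rw [h]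
    have hsub : range (node i + 1) ⊆ range (N + 1) := by
      intro k hk
      rw [mem_range] at hk ⊢
      have := hnode i
      omega
    rw [← Finset.sum_subset hsub]
    · refine Finset.sum_congr rfl fun k _ => ?_
      rw [nsmul_eq_mul]
    · intro k _ hk
      rw [mem_range] at hk
      rw [Nat.choose_eq_zero_of_lt (by omega)]
      simp
  have hchoose : ∀ k, ∃ w : ℤ, ∑ i, (((node i).choose k : ℕ) : ℚ_[p]) /
      ∏ j ∈ univ.erase i, ((node i : ℚ_[p]) - (node j : ℚ_[p])) =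
        (w : ℚ_[p]) / (k.factorial : ℚ_[p]) ∧ (k < Fintype.card ι - 1 → w = 0) := by
    intro k
    obtain ⟨w, hw, hw0⟩ := pi1_poly p node hinj hc (descPochhammer ℤ k)
    refine ⟨w, ?_, ?_⟩
    · have hk : (k.factorial : ℚ_[p]) ≠ 0 := by exact_mod_cast k.factorial_ne_zero
      rw [eq_div_iff hk, Finset.sum_mul, ← hw]
      refine Finset.sum_congr rfl fun i _ => ?_
      rw [descPochhammer_eval_eq_descFactorial, Nat.descFactorial_eq_factorial_mul_choose]
      push_cast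
      ring
    · intro hlt
      apply hw0
      rwa [descPochhammer_natDegree]
  choose w hw hw0 using hchoose
  have hsum : ∑ i, ((f (node i) : ℤ_[p]) : ℚ_[p]) /
      ∏ j ∈ univ.erase i, ((node i : ℚ_[p]) - (node j : ℚ_[p])) =
      ∑ k ∈ range (N + 1), ((D k : ℤ_[p]) : ℚ_[p]) * ((w k : ℚ_[p]) / (k.factorial : ℚ_[p])) := by
    calc ∑ i, ((f (node i) : ℤ_[p]) : ℚ_[p]) /
          ∏ j ∈ univ.erase i, ((node i : ℚ_[p]) - (node j : ℚ_[p]))
        = ∑ i, ∑ k ∈ range (N + 1), ((D k : ℤ_[p]) : ℚ_[p]) * ((((node i).choose k : ℕ) : ℚ_[p]) /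
          ∏ j ∈ univ.erase i, ((node i : ℚ_[p]) - (node j : ℚ_[p]))) := by
          refine Finset.sum_congr rfl fun i _ => ?_
          rw [hnewton i]
          have hcast : ((∑ k ∈ range (N + 1), ((node i).choose k : ℤ_[p]) * D k : ℤ_[p]) : ℚ_[p]) =
              ∑ k ∈ range (N + 1), (((node i).choose k : ℕ) : ℚ_[p]) * ((D k : ℤ_[p]) : ℚ_[p]) := by
            refine (map_sum PadicInt.Coe.ringHom _ _).trans ?_
            refine Finset.sum_congr rfl fun k _ => ?_
            rw [map_mul, map_natCast]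
            rfl
          rw [hcast, Finset.sum_div]
          refine Finset.sum_congr rfl fun k _ => ?_
          ring
      _ = _ := by
          rw [Finset.sum_comm]
          refine Finset.sum_congr rfl fun k _ => ?_
          rw [← Finset.mul_sum, hw k]
  rw [hsum]
  refine IsUltrametricDist.norm_sum_le_of_forall_le_of_nonneg (by positivity) fun k _ => ?_
  by_cases hk : k < Fintype.card ι - 1
  · rw [hw0 k hk]
    simp only [Int.cast_zero, zero_div, mul_zero, norm_zero]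
    positivity
  · push Not at hk
    -- norm of the three factors
    have hD : ‖((D k : ℤ_[p]) : ℚ_[p])‖ ≤ (p : ℝ) ^ (-(((κ * k - L : ℕ)) : ℤ)) := by
      have h := hMC k 0
      have h2 := (PadicInt.norm_le_pow_iff_mem_span_pow (D k) (κ * k - L)).mpr
        (Ideal.mem_span_singleton.mpr h)
      exact h2
    have hwn : ‖(w k : ℚ_[p])‖ ≤ 1 := Padic.norm_int_le_one _
    have hfac : ‖(k.factorial : ℚ_[p])‖ = (p : ℝ) ^ (-(padicValNat p k.factorial : ℤ)) := by
      have h := Padic.norm_eq_zpow_neg_valuation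
        (show (k.factorial : ℚ_[p]) ≠ 0 by exact_mod_cast k.factorial_ne_zero)
      rw [h, Padic.valuation_natCast]
    rw [norm_mul, norm_div, hfac]
    have h3 : ‖((D k : ℤ_[p]) : ℚ_[p])‖ * (‖(w k : ℚ_[p])‖ /
        (p : ℝ) ^ (-(padicValNat p k.factorial : ℤ))) ≤
        (p : ℝ) ^ (-(((κ * k - L : ℕ)) : ℤ)) * (1 / (p : ℝ) ^ (-(padicValNat p k.factorial : ℤ))) := by
      refine mul_le_mul hD ?_ (by positivity) (by positivity)
      exact div_le_div_of_nonneg_right hwn (by positivity)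
    refine h3.trans ?_
    rw [one_div, ← zpow_neg, ← zpow_add₀ hp0.ne']
    apply zpow_le_zpow_right₀ hp1
    -- the exponents
    set v := padicValNat p k.factorial with hv
    have hleg : ((p : ℤ) - 1) * v ≤ k := by
      have h := sub_one_mul_padicValNat_factorial (p := p) k
      have h2 : (p - 1) * padicValNat p k.factorial ≤ k := by
        rw [h]
        exact Nat.sub_le _ _
      have h3 : (((p - 1 : ℕ) : ℤ)) = (p : ℤ) - 1 := by
        rw [Nat.cast_sub hp.out.one_lt.le]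
        simp
      rw [← h3]
      exact_mod_cast h2
    have hsubz : (κ : ℤ) * k - L ≤ ((κ * k - L : ℕ) : ℤ) := by
      have := Int.le_natCast_sub (κ * k) L
      push_cast at this ⊢
      linarith
    have hkc : ((Fintype.card ι : ℤ) - 1) ≤ k := by omega
    have hp2 : (2 : ℤ) ≤ p := by exact_mod_cast hp.out.two_le
    have hκ' : (1 : ℤ) ≤ κ := by exact_mod_cast hκ
    have hco : 0 ≤ (κ : ℤ) * ((p : ℤ) - 1) - 1 := by nlinarith
    have h4 : ((p : ℤ) - 1) * z ≤ ((p : ℤ) - 1) * ((κ : ℤ) * k - L - v) := by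
      calc ((p : ℤ) - 1) * z ≤
          ((κ : ℤ) * ((p : ℤ) - 1) - 1) * ((Fintype.card ι : ℤ) - 1) - ((p : ℤ) - 1) * L := hz
        _ ≤ ((κ : ℤ) * ((p : ℤ) - 1) - 1) * k - ((p : ℤ) - 1) * L := by
            have := mul_le_mul_of_nonneg_left hkc hco
            linarith
        _ ≤ ((p : ℤ) - 1) * ((κ : ℤ) * k - L - v) := by
            linarith
    have h5 : z ≤ (κ : ℤ) * k - L - v := le_of_mul_le_mul_left h4 (by linarith)
    linarith

end Gou

end
end

section

/-!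
Module A of MP_602313_nt: I2, the inequality between the nodes.
-/

open Finset

noncomputable section

namespace Gou

theorem prf_I2 (p : ℕ) [Fact p.Prime] (i1 : I1 p) : I2 p := by
  intro κ L f hκ hf ι _ _ node hnode i0 e U hnd hU hother
  by_contra hcon
  push Not at hcon
  have hpp : p.Prime := Fact.out
  have hp1 : (1 : ℝ) < p := by exact_mod_cast hpp.one_lt
  have hp0 : (0 : ℝ) < p := by positivity
  have htot := i1 κ L f hκ hf ι node hnode (U + 1) hcon
  -- valuation sums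
  set V : ι → ℤ := fun i => ∑ j ∈ univ.erase i, (padicValInt p ((node i : ℤ) - node j) : ℤ)
    with hV
  set T : ι → ℚ_[p] := fun i => ((f (node i) : ℤ_[p]) : ℚ_[p]) /
      ∏ j ∈ univ.erase i, ((node i : ℚ_[p]) - (node j : ℚ_[p])) with hT
  have hfac : ∀ i j : ι, j ≠ i → ‖((node i : ℚ_[p]) - (node j : ℚ_[p]))‖
      = (p : ℝ) ^ (-(padicValInt p ((node i : ℤ) - node j) : ℤ)) := by
    intro i j hij
    have hne : ((node i : ℤ) - node j) ≠ 0 := by
      intro h
      apply hij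
      apply hnode
      have : (node i : ℤ) = node j := by linarith
      exact_mod_cast this.symm
    have e1 : ((node i : ℚ_[p]) - (node j : ℚ_[p])) = (((node i : ℤ) - node j : ℤ) : ℚ_[p]) := by
      push_cast
      ring
    have hne' : (((node i : ℤ) - node j : ℤ) : ℚ_[p]) ≠ 0 := by exact_mod_cast hne
    rw [e1, Padic.norm_eq_zpow_neg_valuation hne', Padic.valuation_intCast]
  have hprod : ∀ i : ι, ‖∏ j ∈ univ.erase i, ((node i : ℚ_[p]) - (node j : ℚ_[p]))‖
      = (p : ℝ) ^ (-(V i)) := by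
    intro i
    rw [norm_prod, Finset.prod_congr rfl (fun j hj => hfac i j (Finset.ne_of_mem_erase hj))]
    rw [hV]
    simp only
    rw [← Finset.sum_neg_distrib]
    induction (univ.erase i) using Finset.induction_on with
    | empty => simp
    | insert a s ha ih =>
      rw [Finset.prod_insert ha, Finset.sum_insert ha, zpow_add₀ hp0.ne', ih]
  have hterm : ∀ i : ι, ‖T i‖ = ‖f (node i)‖ * (p : ℝ) ^ (V i) := by
    intro i
    rw [hT]
    simp only
    rw [norm_div, hprod i, PadicInt.padic_norm_e_of_padicInt, zpow_neg, div_inv_eq_mul]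
  have hle : ∀ i, i ≠ i0 → ‖T i‖ ≤ (p : ℝ) ^ (-(U + 1)) := by
    intro i hi
    obtain ⟨h1, h2⟩ := hother i hi
    have h3 : ‖f (node i)‖ ≤ (p : ℝ) ^ (-(e i : ℤ)) := by
      rw [PadicInt.norm_le_pow_iff_mem_span_pow, Ideal.mem_span_singleton]
      exact h1
    rw [hterm i]
    calc ‖f (node i)‖ * (p : ℝ) ^ (V i) ≤ (p : ℝ) ^ (-(e i : ℤ)) * (p : ℝ) ^ (V i) := by
          apply mul_le_mul_of_nonneg_right h3
          positivity
      _ = (p : ℝ) ^ (-(e i : ℤ) + V i) := by rw [zpow_add₀ hp0.ne']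
      _ ≤ (p : ℝ) ^ (-(U + 1)) := by
          apply zpow_le_zpow_right₀ hp1.le
          linarith
  have hsum : ‖∑ i ∈ univ.erase i0, T i‖ ≤ (p : ℝ) ^ (-(U + 1)) := by
    apply IsUltrametricDist.norm_sum_le_of_forall_le_of_nonneg (by positivity)
    intro i hi
    exact hle i (Finset.ne_of_mem_erase hi)
  have hi0 : ‖T i0‖ ≤ (p : ℝ) ^ (-(U + 1)) := by
    have e1 : T i0 = (∑ i, T i) - ∑ i ∈ univ.erase i0, T i := by
      rw [← Finset.add_sum_erase univ T (Finset.mem_univ i0)]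
      ring
    rw [e1]
    rw [sub_eq_add_neg]
    refine (IsUltrametricDist.norm_add_le_max _ _).trans (max_le htot ?_)
    rw [norm_neg]
    exact hsum
  have hlow : (p : ℝ) ^ (-(e i0 : ℤ)) ≤ ‖f (node i0)‖ := by
    by_contra hlt
    push Not at hlt
    apply hnd
    rw [← Ideal.mem_span_singleton, ← PadicInt.norm_le_pow_iff_mem_span_pow,
      PadicInt.norm_le_pow_iff_norm_lt_pow_add_one]
    have : (-((e i0 + 1 : ℕ) : ℤ)) + 1 = -(e i0 : ℤ) := by push_cast; ring
    rw [this]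
    exact hlt
  have hbig : (p : ℝ) ^ (-U) ≤ ‖T i0‖ := by
    rw [hterm i0]
    calc (p : ℝ) ^ (-U) ≤ (p : ℝ) ^ (-(e i0 : ℤ) + V i0) := by
          apply zpow_le_zpow_right₀ hp1.le
          linarith
      _ = (p : ℝ) ^ (-(e i0 : ℤ)) * (p : ℝ) ^ (V i0) := by rw [zpow_add₀ hp0.ne']
      _ ≤ ‖f (node i0)‖ * (p : ℝ) ^ (V i0) := by
          apply mul_le_mul_of_nonneg_right hlow
          positivity
  have hlt : (p : ℝ) ^ (-(U + 1)) < (p : ℝ) ^ (-U) := by
    apply zpow_lt_zpow_right₀ hp1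
    linarith
  linarith

end Gou

end
end

section

/-! I3: the number of bad weights (`CountBad`). -/

open Finset

noncomputable section

namespace Gou

section val

variable {p : ℕ} [hp : Fact p.Prime]

theorem i3_val_lt {z : ℤ} {l : ℕ} (hz : z ≠ 0) (hl : |z| < (p : ℤ) ^ l) : padicValInt p z < l := by
  by_contra hcon
  push Not at hcon
  have h1 : (p : ℤ) ^ l ∣ z := (padicValInt_dvd_iff l z).2 (Or.inr hcon)
  have h2 := Int.le_of_dvd (abs_pos.2 hz) ((dvd_abs _ _).2 h1)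
  omega

theorem i3_val_add {z : ℤ} {l B : ℕ} (w : ℤ) (hz : z ≠ 0) (hl : |z| < (p : ℤ) ^ l) (hB : l ≤ B) :
    z + (p : ℤ) ^ B * w ≠ 0 ∧ padicValInt p (z + (p : ℤ) ^ B * w) = padicValInt p z := by
  have hv := i3_val_lt hz hl
  have hd : ∀ k, k ≤ l → ((p : ℤ) ^ k ∣ z + (p : ℤ) ^ B * w ↔ (p : ℤ) ^ k ∣ z) := by
    intro k hk
    have : (p : ℤ) ^ k ∣ (p : ℤ) ^ B * w := (pow_dvd_pow _ (hk.trans hB)).mul_right _
    exact (dvd_add_left this)
  have h0 : z + (p : ℤ) ^ B * w ≠ 0 := by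
    intro h
    have : (p : ℤ) ^ l ∣ z := (hd l le_rfl).1 (h ▸ dvd_zero _)
    have := (padicValInt_dvd_iff l z).1 this
    rcases this with h | h
    · exact hz h
    · omega
  refine ⟨h0, ?_⟩
  apply le_antisymm
  · by_contra hcon
    push Not at hcon
    have h1 : (p : ℤ) ^ (padicValInt p z + 1) ∣ z + (p : ℤ) ^ B * w :=
      (padicValInt_dvd_iff _ _).2 (Or.inr hcon)
    have h2 := (hd _ hv).1 h1
    rcases (padicValInt_dvd_iff _ _).1 h2 with h | h
    · exact hz h
    · omega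
  · have h1 : (p : ℤ) ^ (padicValInt p z) ∣ z := (padicValInt_dvd_iff _ _).2 (Or.inr le_rfl)
    have h2 := (hd _ hv.le).2 h1
    rcases (padicValInt_dvd_iff _ _).1 h2 with h | h
    · exact absurd h h0
    · exact h

theorem i3_val_pow {z : ℤ} {l B : ℕ} (hz : z ≠ 0) (hl : |z| < (p : ℤ) ^ l) :
    (p : ℤ) ^ B * z ≠ 0 ∧ padicValInt p ((p : ℤ) ^ B * z) ≤ B + l := by
  have hp0 : (p : ℤ) ≠ 0 := by exact_mod_cast hp.out.ne_zero
  refine ⟨mul_ne_zero (pow_ne_zero _ hp0) hz, ?_⟩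
  rw [padicValInt.mul (pow_ne_zero _ hp0) hz]
  have h1 := i3_val_lt hz hl
  have h2 : padicValInt p ((p : ℤ) ^ B) = B := by
    unfold padicValInt
    rw [Int.natAbs_pow, Int.natAbs_natCast, padicValNat.prime_pow]
  omega

theorem i3_val_neg (z : ℤ) : padicValInt p (-z) = padicValInt p z := by
  unfold padicValInt
  rw [Int.natAbs_neg]

end val

/-- The ghost nodes. -/
def ghostS (p s : ℕ) : Finset ((_ : ℕ) × ℕ) :=
  (Icc 1 ((p + 1) * s)).sigma (fun t => range (gg p s t))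

theorem i3_ghost_sum (p s : ℕ) (F : ℕ → ℕ) :
    ∑ x : {x // x ∈ ghostS p s}, F x.1.1 = ∑ t ∈ Icc 1 ((p + 1) * s), gg p s t * F t := by
  rw [Finset.sum_coe_sort (ghostS p s) (fun x => F x.1), ghostS, Finset.sum_sigma]
  refine Finset.sum_congr rfl fun t _ => ?_
  simp

theorem i3_ghost_cluster (p s t k B : ℕ) (ht : t ∈ Icc 1 ((p + 1) * s)) (hk : k < gg p s t) :
    ∑ x : {x // x ∈ ghostS p s}, (if x.1.1 = t ∧ x.1.2 ≠ k then B else 0) = (gg p s t - 1) * B := by
  rw [Finset.sum_coe_sort (ghostS p s) (fun x => if x.1 = t ∧ x.2 ≠ k then B else 0), ghostS,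
    Finset.sum_sigma]
  rw [Finset.sum_eq_single t]
  · simp only [true_and]
    rw [← Finset.sum_filter, Finset.sum_const, smul_eq_mul]
    congr 1
    have : (range (gg p s t)).filter (fun x => x ≠ k) = (range (gg p s t)).erase k := by
      ext x; simp [Finset.mem_filter, and_comm]
    rw [this, Finset.card_erase_of_mem (mem_range.2 hk), card_range]
  · intro b _ hb
    simp [hb]
  · intro h; exact absurd ht h

theorem i3_bad_cluster (M b' h : ℕ) (i : Fin M) (k : Fin b') :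
    ∑ y : Fin M × Fin b', (if y.1 = i ∧ y.2 ≠ k then h else 0) = (b' - 1) * h := by
  rw [Fintype.sum_prod_type, Finset.sum_eq_single i]
  · simp only [true_and]
    rw [← Finset.sum_filter, Finset.sum_const, smul_eq_mul]
    congr 1
    have : (univ : Finset (Fin b')).filter (fun x => x ≠ k) = (univ : Finset (Fin b')).erase k := by
      ext x; simp [Finset.mem_filter]
    rw [this, Finset.card_erase_of_mem (mem_univ _), card_univ, Fintype.card_fin]
  · intro b _ hb
    simp [hb]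
  · intro h; exact absurd (mem_univ _) h

/-- The nodes. -/
def i3node (p s M b' B h m0 : ℕ) (t : Fin M → ℕ) :
    Option ({x // x ∈ ghostS p s} ⊕ (Fin M × Fin b')) → ℕ
  | none => m0
  | some (Sum.inl x) => (m0 - x.1.1) + p ^ B * (x.1.2 + 1)
  | some (Sum.inr y) => m0 + t y.1 + p ^ h * ((y.2 : ℕ) + 1)

theorem prf_CountBad (p : ℕ) [hp : Fact p.Prime] (mc : DetMC p) (dn : DetN0 p) (k1 : K1 p)
    (k2 : K2 p) (k3 : K3 p) (e2 : E2 p) (i2 : I2 p) (z1 : Z1 p) (z2 : Z2 p) : CountBad p := by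
  intro s l h b M t hs htinj ht1 htl hsl hlh hnu hnum
  classical
  by_cases hM0 : M = 0
  · subst hM0; simp
  by_cases hb0 : b = 0
  · subst hb0; simp
  have hp2 : 2 ≤ p := hp.out.two_le
  obtain ⟨b', hb'⟩ : ∃ b', b' = (b + 1) / 2 := ⟨_, rfl⟩
  have hb'1 : 1 ≤ b' := by omega
  rw [← hb'] at hnum ⊢
  have hq1 : 1 ≤ qq p := by unfold qq; split_ifs <;> omega
  -- size of b
  have hbT : b ≤ (p + 1) * s := by
    obtain ⟨v, hv, -⟩ := hnu ⟨0, Nat.pos_of_ne_zero hM0⟩
    have := LinearIndependent.fintype_card_le_finrank hv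
    simpa [Idx, Node] using this
  obtain ⟨T, hT⟩ : ∃ T, T = (p + 1) * s := ⟨_, rfl⟩
  have hT2 : 3 ≤ T := by rw [hT]; nlinarith
  have hsT : s ≤ T - 1 := by rw [hT]; nlinarith [Nat.sub_add_cancel (show 1 ≤ (p+1)*s by nlinarith)]
  have hpl1 : 1 ≤ p ^ l := Nat.one_le_pow _ _ (by omega)
  -- base point
  obtain ⟨m0, hm0⟩ : ∃ m0, m0 = (T - 1 - s) / qq p := ⟨_, rfl⟩
  have hqm0 : qq p * m0 ≤ T - 1 - s := by rw [hm0]; exact Nat.mul_div_le _ _
  obtain ⟨x0, hx0⟩ : ∃ x0, x0 = T - 1 - qq p * m0 := ⟨_, rfl⟩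
  have hx0s : s ≤ x0 := by omega
  have hn0 : x0 + qq p * m0 = T - 1 := by omega
  -- data on ghosts
  have hg : ∀ x : {x // x ∈ ghostS p s}, (1 ≤ x.1.1 ∧ x.1.1 ≤ T) ∧ x.1.2 < gg p s x.1.1 := by
    rintro ⟨⟨a, k⟩, hx⟩
    rw [ghostS, Finset.mem_sigma] at hx
    simp only [mem_Icc, mem_range] at hx
    rw [hT]
    exact hx
  have hg3 : ∀ x : {x // x ∈ ghostS p s}, qq p * x.1.1 < T ∧ s ≤ T - 1 - qq p * x.1.1 ∧
      rr p s (T - 1 - qq p * x.1.1) = gg p s x.1.1 ∧ gg p s x.1.1 ≤ T := by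
    intro x
    have := k3 s x.1.1 (lt_of_le_of_lt (Nat.zero_le _) (hg x).2)
    rw [← hT] at this
    exact this
  have hgm : ∀ x : {x // x ∈ ghostS p s}, x.1.1 ≤ m0 := by
    intro x
    rw [hm0, Nat.le_div_iff_mul_le (by omega)]
    have h1 := (hg3 x).2.1
    have h2 := (hg3 x).1
    rw [mul_comm]
    omega
  have hgT : ∀ x : {x // x ∈ ghostS p s}, x.1.1 < T := by
    intro x
    have h2 := (hg3 x).1
    calc x.1.1 = 1 * x.1.1 := (one_mul _).symm
      _ ≤ qq p * x.1.1 := Nat.mul_le_mul_right _ hq1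
      _ < T := h2
  obtain ⟨ρ, hρ⟩ : ∃ ρ, ρ = ∑ t ∈ Icc 1 ((p + 1) * s), gg p s t := ⟨_, rfl⟩
  obtain ⟨Z, hZ⟩ : ∃ Z, Z = ∑ t ∈ Icc 1 ((p + 1) * s), gg p s t * padicValNat p t := ⟨_, rfl⟩
  have hcardG : Fintype.card {x // x ∈ ghostS p s} = ρ := by
    have := i3_ghost_sum p s (fun _ => 1)
    simp only [Finset.sum_const, smul_eq_mul, mul_one, card_univ] at this
    rw [this, hρ]
  -- the big exponent
  obtain ⟨B, hB⟩ : ∃ B, B = (T + 1 + ρ + M * b') * l + l * T + 1 + h + l := ⟨_, rfl⟩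
  have hlB : l ≤ B := by omega
  have hhB : h ≤ B := by omega
  -- nodes
  obtain ⟨node, hnode⟩ : ∃ node, node = i3node p s M b' B h m0 t := ⟨_, rfl⟩
  have htl' : ∀ i, T + t i < p ^ l := by
    intro i
    have h1 := htl i
    have h2 : t i ≤ qq p * t i := Nat.le_mul_of_pos_left _ (by omega)
    rw [← hT] at h1
    omega
  have hTl : T < p ^ l := by rw [hT]; exact hsl
  -- values of the differences
  have dNG : ∀ x : {x // x ∈ ghostS p s},
      ((node none : ℤ) - node (some (Sum.inl x)) ≠ 0) ∧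
      padicValInt p ((node none : ℤ) - node (some (Sum.inl x))) = padicValNat p x.1.1 := by
    intro x
    have e : (node none : ℤ) - node (some (Sum.inl x))
        = (x.1.1 : ℤ) + (p : ℤ) ^ B * (-((x.1.2 : ℤ) + 1)) := by
      rw [hnode]
      simp only [i3node]
      push_cast [Nat.cast_sub (hgm x)]
      ring
    rw [e]
    have hz : (x.1.1 : ℤ) ≠ 0 := by have := (hg x).1.1; positivity
    have := i3_val_add (p := p) (l := l) (B := B) (-((x.1.2 : ℤ) + 1)) hz
      (by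
        rw [abs_of_nonneg (by positivity)]
        have := hgT x
        exact_mod_cast this.trans hTl) hlB
    refine ⟨this.1, this.2.trans ?_⟩
    simp [padicValInt]
  have dNB : ∀ y : Fin M × Fin b',
      ((node none : ℤ) - node (some (Sum.inr y)) ≠ 0) ∧
      padicValInt p ((node none : ℤ) - node (some (Sum.inr y))) ≤ l := by
    intro y
    have e : (node none : ℤ) - node (some (Sum.inr y))
        = (-(t y.1 : ℤ)) + (p : ℤ) ^ h * (-((y.2 : ℤ) + 1)) := by
      rw [hnode]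
      simp only [i3node]
      push_cast
      ring
    rw [e]
    have hz : (-(t y.1 : ℤ)) ≠ 0 := by have := ht1 y.1; rw [neg_ne_zero]; positivity
    have hlt : |(-(t y.1 : ℤ))| < (p : ℤ) ^ l := by
      rw [abs_neg, abs_of_nonneg (by positivity)]
      have := htl' y.1
      exact_mod_cast (by omega : t y.1 < p ^ l)
    have := i3_val_add (p := p) (l := l) (B := h) (-((y.2 : ℤ) + 1)) hz hlt hlh
    exact ⟨this.1, this.2.le.trans (i3_val_lt hz hlt).le⟩
  have dGG : ∀ x x' : {x // x ∈ ghostS p s}, x ≠ x' →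
      ((node (some (Sum.inl x)) : ℤ) - node (some (Sum.inl x')) ≠ 0) ∧
      padicValInt p ((node (some (Sum.inl x)) : ℤ) - node (some (Sum.inl x'))) ≤
        l + (if x'.1.1 = x.1.1 ∧ x'.1.2 ≠ x.1.2 then B else 0) := by
    intro x x' hne
    have e : (node (some (Sum.inl x)) : ℤ) - node (some (Sum.inl x'))
        = ((x'.1.1 : ℤ) - x.1.1) + (p : ℤ) ^ B * ((x.1.2 : ℤ) - x'.1.2) := by
      rw [hnode]
      simp only [i3node]
      push_cast [Nat.cast_sub (hgm x), Nat.cast_sub (hgm x')]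
      ring
    rw [e]
    by_cases h1 : x'.1.1 = x.1.1
    · have h2 : x'.1.2 ≠ x.1.2 := by
        intro h2
        apply hne
        apply Subtype.ext
        rcases x with ⟨⟨a, c⟩, hx⟩
        rcases x' with ⟨⟨a', c'⟩, hx'⟩
        simp only at h1 h2 ⊢
        subst h1; subst h2; rfl
      rw [if_pos ⟨h1, h2⟩, h1, sub_self, zero_add]
      have hz : ((x.1.2 : ℤ) - x'.1.2) ≠ 0 := by
        intro h3; apply h2; omega
      have hlt : |((x.1.2 : ℤ) - x'.1.2)| < (p : ℤ) ^ l := by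
        have a1 := (hg x).2
        have a2 := (hg x').2
        have a3 := (hg3 x).2.2.2
        have a4 := (hg3 x').2.2.2
        have a5 : (T : ℤ) < (p : ℤ) ^ l := by exact_mod_cast hTl
        rw [abs_lt]
        constructor <;> omega
      have := i3_val_pow (p := p) (l := l) (B := B) hz hlt
      exact ⟨this.1, by omega⟩
    · rw [if_neg (fun h => h1 h.1), add_zero]
      have hz : ((x'.1.1 : ℤ) - x.1.1) ≠ 0 := by intro h3; apply h1; omega
      have hlt : |((x'.1.1 : ℤ) - x.1.1)| < (p : ℤ) ^ l := by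
        have a1 := hgT x
        have a2 := hgT x'
        have a5 : (T : ℤ) < (p : ℤ) ^ l := by exact_mod_cast hTl
        rw [abs_lt]
        constructor <;> omega
      have := i3_val_add (p := p) (l := l) (B := B) ((x.1.2 : ℤ) - x'.1.2) hz hlt hlB
      exact ⟨this.1, this.2.le.trans (i3_val_lt hz hlt).le⟩
  have dBG : ∀ (y : Fin M × Fin b') (x : {x // x ∈ ghostS p s}),
      ((node (some (Sum.inr y)) : ℤ) - node (some (Sum.inl x)) ≠ 0) ∧
      padicValInt p ((node (some (Sum.inr y)) : ℤ) - node (some (Sum.inl x)))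
        = padicValNat p (x.1.1 + t y.1) := by
    intro y x
    obtain ⟨d, hd⟩ := Nat.exists_eq_add_of_le hhB
    have e : (node (some (Sum.inr y)) : ℤ) - node (some (Sum.inl x))
        = (((x.1.1 + t y.1 : ℕ)) : ℤ)
          + (p : ℤ) ^ h * (((y.2 : ℕ) : ℤ) + 1 - (p : ℤ) ^ d * ((x.1.2 : ℤ) + 1)) := by
      rw [hnode]
      simp only [i3node]
      push_cast [Nat.cast_sub (hgm x)]
      rw [hd, pow_add]
      ring
    rw [e]
    have hz : (((x.1.1 + t y.1 : ℕ)) : ℤ) ≠ 0 := by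
      have := (hg x).1.1
      have : x.1.1 + t y.1 ≠ 0 := by omega
      exact_mod_cast this
    have hlt : |(((x.1.1 + t y.1 : ℕ)) : ℤ)| < (p : ℤ) ^ l := by
      rw [abs_of_nonneg (by positivity)]
      have a1 := hgT x
      have a2 := htl' y.1
      exact_mod_cast (by omega : x.1.1 + t y.1 < p ^ l)
    have := i3_val_add (p := p) (l := l) (B := h)
      (((y.2 : ℕ) : ℤ) + 1 - (p : ℤ) ^ d * ((x.1.2 : ℤ) + 1)) hz hlt hlh
    refine ⟨this.1, this.2.trans ?_⟩
    simp only [padicValInt, Int.natAbs_natCast]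
  have dBB : ∀ y y' : Fin M × Fin b', y ≠ y' →
      ((node (some (Sum.inr y)) : ℤ) - node (some (Sum.inr y')) ≠ 0) ∧
      padicValInt p ((node (some (Sum.inr y)) : ℤ) - node (some (Sum.inr y'))) ≤
        l + (if y'.1 = y.1 ∧ y'.2 ≠ y.2 then h else 0) := by
    intro y y' hne
    have e : (node (some (Sum.inr y)) : ℤ) - node (some (Sum.inr y'))
        = ((t y.1 : ℤ) - t y'.1) + (p : ℤ) ^ h * (((y.2 : ℕ) : ℤ) - ((y'.2 : ℕ) : ℤ)) := by
      rw [hnode]
      simp only [i3node]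
      push_cast
      ring
    rw [e]
    by_cases h1 : y'.1 = y.1
    · have h2 : y'.2 ≠ y.2 := by
        intro h2
        exact hne (Prod.ext h1.symm h2.symm)
      rw [if_pos ⟨h1, h2⟩, h1, sub_self, zero_add]
      have hz : (((y.2 : ℕ) : ℤ) - ((y'.2 : ℕ) : ℤ)) ≠ 0 := by
        intro h3; apply h2; apply Fin.ext; omega
      have hlt : |(((y.2 : ℕ) : ℤ) - ((y'.2 : ℕ) : ℤ))| < (p : ℤ) ^ l := by
        have a1 := y.2.2
        have a2 := y'.2.2
        have a3 : b' ≤ T := by omega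
        have a5 : (T : ℤ) < (p : ℤ) ^ l := by exact_mod_cast hTl
        rw [abs_lt]
        constructor <;> omega
      have := i3_val_pow (p := p) (l := l) (B := h) hz hlt
      exact ⟨this.1, by omega⟩
    · rw [if_neg (fun h => h1 h.1), add_zero]
      have hz : ((t y.1 : ℤ) - t y'.1) ≠ 0 := by
        intro h3
        apply h1
        apply htinj
        omega
      have hlt : |((t y.1 : ℤ) - t y'.1)| < (p : ℤ) ^ l := by
        have a1 : ((T + t y.1 : ℕ) : ℤ) < (p : ℤ) ^ l := by exact_mod_cast htl' y.1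
        have a2 : ((T + t y'.1 : ℕ) : ℤ) < (p : ℤ) ^ l := by exact_mod_cast htl' y'.1
        push_cast at a1 a2
        rw [abs_lt]
        constructor <;> omega
      have := i3_val_add (p := p) (l := l) (B := h) (((y.2 : ℕ) : ℤ) - ((y'.2 : ℕ) : ℤ)) hz hlt hlh
      exact ⟨this.1, this.2.le.trans (i3_val_lt hz hlt).le⟩
  have sym : ∀ a a' : ℕ, padicValInt p ((a : ℤ) - a') = padicValInt p ((a' : ℤ) - a) := by
    intro a a'
    rw [← i3_val_neg, neg_sub]
  -- injectivity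
  have hinj : Function.Injective node := by
    intro i j hij
    by_contra hne
    have hz : (node i : ℤ) - node j = 0 := by rw [hij]; ring
    rcases i with _ | (x | y) <;> rcases j with _ | (x' | y')
    · exact hne rfl
    · exact (dNG x').1 hz
    · exact (dNB y').1 hz
    · apply (dNG x).1
      rw [hij]; ring
    · exact (dGG x x' (fun h => hne (by rw [h]))).1 hz
    · apply (dBG y' x).1
      rw [hij]; ring
    · apply (dNB y).1
      rw [hij]; ring
    · exact (dBG y x').1 hz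
    · exact (dBB y y' (fun h => hne (by rw [h]))).1 hz
  -- the function
  obtain ⟨f, hf⟩ : ∃ f : ℕ → ℤ_[p], f = fun m => ((DD p s (x0 + qq p * m) : ℤ) : ℤ_[p]) := ⟨_, rfl⟩
  have hfmc : MC p (kap p) (lam p s) f := by rw [hf]; exact mc s x0 hx0s
  have hlog : Nat.log p s ≤ l := by
    have : s < p ^ l := by omega
    exact (Nat.log_lt_of_lt_pow (by omega) this).le
  have he0 : e0 p (T - 1) ≤ l := by
    unfold e0
    exact (Nat.log_lt_of_lt_pow (by omega) (by omega)).le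
  -- exponents
  obtain ⟨e, he⟩ : ∃ e : Option ({x // x ∈ ghostS p s} ⊕ (Fin M × Fin b')) → ℕ,
      e = fun i => match i with
        | none => e0 p (T - 1) * T
        | some (Sum.inl x) => (B - Nat.log p s) * gg p s x.1.1
        | some (Sum.inr _) => (h - Nat.log p s) * b := ⟨_, rfl⟩
  have herase : ∀ (i : Option ({x // x ∈ ghostS p s} ⊕ (Fin M × Fin b')))
      (F : Option ({x // x ∈ ghostS p s} ⊕ (Fin M × Fin b')) → ℕ),
      ∑ j ∈ univ.erase i, (F j : ℤ) = ((∑ j, if j = i then 0 else F j : ℕ) : ℤ) := by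
    intro i F
    push_cast
    rw [← Finset.add_sum_erase univ _ (mem_univ i)]
    simp only [if_true, Nat.cast_zero, zero_add]
    refine Finset.sum_congr rfl fun j hj => ?_
    rw [if_neg (Finset.ne_of_mem_erase hj)]
  have key := i2 (kap p) (lam p s) f (by unfold kap; split_ifs <;> omega) hfmc
    (Option ({x // x ∈ ghostS p s} ⊕ (Fin M × Fin b'))) node hinj none e
    ((l * T : ℕ) - (Z : ℤ)) ?_ ?_ ?_
  rotate_left
  · -- main value
    rw [he, hf, hnode]
    simp only [i3node]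
    rw [hn0, hT]
    exact dn s hs
  · -- main inequality
    rw [herase none (fun j => padicValInt p ((node none : ℤ) - node j))]
    have h1 : Z ≤ ∑ j, if j = none then 0 else padicValInt p ((node none : ℤ) - node j) := by
      rw [Fintype.sum_option, Fintype.sum_sum_type]
      simp only [if_true, zero_add, reduceCtorEq, if_false]
      have : ∑ x : {x // x ∈ ghostS p s},
          padicValInt p ((node none : ℤ) - node (some (Sum.inl x))) = Z := by
        rw [hZ, ← i3_ghost_sum]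
        exact Finset.sum_congr rfl fun x _ => (dNG x).2
      omega
    have h2 : e none ≤ l * T := by
      rw [he]
      exact Nat.mul_le_mul_right _ he0
    push_cast at h2 ⊢
    have h1' : (Z : ℤ) ≤ ((∑ j, if j = none then 0 else
      padicValInt p ((node none : ℤ) - node j) : ℕ) : ℤ) := by exact_mod_cast h1
    have h2' : (e none : ℤ) ≤ (l : ℤ) * T := by exact_mod_cast h2
    push_cast at h1'
    linarith
  · -- the others
    rintro (_ | (x | y)) hne
    · exact absurd rfl hne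
    · -- ghosts
      refine ⟨?_, ?_⟩
      · obtain ⟨v, hv, hv0⟩ := k1 s (T - 1 - qq p * x.1.1) hs (hg3 x).2.1
        have hnuG : NuGe p (NMp p s (T - 1 - qq p * x.1.1)) B (rr p s (T - 1 - qq p * x.1.1)) := by
          refine ⟨v, hv, ?_⟩
          intro i r
          rw [hv0 i]
          exact dvd_zero _
        have := e2 s (T - 1 - qq p * x.1.1) B (x.1.2 + 1) B _ (hg3 x).2.1 hnuG
        rw [(hg3 x).2.2.1, min_eq_right (Nat.sub_le _ _)] at this
        have e1 : x0 + qq p * node (some (Sum.inl x))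
            = T - 1 - qq p * x.1.1 + qq p * p ^ B * (x.1.2 + 1) := by
          rw [hnode]
          simp only [i3node]
          rw [mul_add, ← mul_assoc, ← add_assoc]
          congr 1
          rw [Nat.mul_sub]
          have h3 : qq p * x.1.1 ≤ qq p * m0 := Nat.mul_le_mul_left _ (hgm x)
          omega
        rw [he, hf]
        simp only
        rw [e1]
        exact this
      · rw [herase (some (Sum.inl x)) (fun j => padicValInt p ((node (some (Sum.inl x)) : ℤ) - node j))]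
        have hsum : (∑ j, if j = some (Sum.inl x) then 0 else
            padicValInt p ((node (some (Sum.inl x)) : ℤ) - node j)) ≤
            l + ((ρ * l + (gg p s x.1.1 - 1) * B) + M * b' * l) := by
          rw [Fintype.sum_option, Fintype.sum_sum_type]
          refine add_le_add ?_ (add_le_add ?_ ?_)
          · rw [if_neg (by simp), sym, (dNG x).2]
            have := i3_val_lt (p := p) (z := (x.1.1 : ℤ)) (l := l)
              (by have := (hg x).1.1; positivity)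
              (by
                rw [abs_of_nonneg (by positivity)]
                exact_mod_cast (hgT x).trans hTl)
            simp only [padicValInt, Int.natAbs_natCast] at this
            exact this.le
          · calc ∑ x' : {x // x ∈ ghostS p s}, (if some (Sum.inl x') = some (Sum.inl x) then 0 else
                padicValInt p ((node (some (Sum.inl x)) : ℤ) - node (some (Sum.inl x'))))
                ≤ ∑ x' : {x // x ∈ ghostS p s},
                  (l + (if x'.1.1 = x.1.1 ∧ x'.1.2 ≠ x.1.2 then B else 0)) := by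
                  refine Finset.sum_le_sum fun x' _ => ?_
                  by_cases hxx : x' = x
                  · rw [if_pos (by rw [hxx])]; exact Nat.zero_le _
                  · rw [if_neg (fun h => hxx (Sum.inl.inj (Option.some.inj h)))]
                    exact (dGG x x' (fun h => hxx h.symm)).2
              _ = ρ * l + (gg p s x.1.1 - 1) * B := by
                  rw [Finset.sum_add_distrib, i3_ghost_cluster p s x.1.1 x.1.2 B
                    (by rw [mem_Icc, ← hT]; exact (hg x).1) (hg x).2]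
                  rw [Finset.sum_const, card_univ, hcardG, smul_eq_mul]
          · calc ∑ y : Fin M × Fin b', (if some (Sum.inr y) = some (Sum.inl x) then 0 else
                padicValInt p ((node (some (Sum.inl x)) : ℤ) - node (some (Sum.inr y))))
                ≤ ∑ y : Fin M × Fin b', l := by
                  refine Finset.sum_le_sum fun y _ => ?_
                  rw [if_neg (by simp), sym, (dBG y x).2]
                  have := i3_val_lt (p := p) (z := ((x.1.1 + t y.1 : ℕ) : ℤ)) (l := l)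
                    (by
                      have := (hg x).1.1
                      have : x.1.1 + t y.1 ≠ 0 := by omega
                      exact_mod_cast this)
                    (by
                      rw [abs_of_nonneg (by positivity)]
                      have a1 := hgT x
                      have a2 := htl' y.1
                      exact_mod_cast (by omega : x.1.1 + t y.1 < p ^ l))
                  simp only [padicValInt, Int.natAbs_natCast] at this
                  exact this.le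
              _ = M * b' * l := by simp
        have hg1 : 1 ≤ gg p s x.1.1 := lt_of_le_of_lt (Nat.zero_le _) (hg x).2
        have hgT' := (hg3 x).2.2.2
        have hee : e (some (Sum.inl x)) = (B - Nat.log p s) * gg p s x.1.1 := by rw [he]
        rw [hee]
        have hfin : l * T + 1 + (l + ((ρ * l + (gg p s x.1.1 - 1) * B) + M * b' * l))
            ≤ (B - Nat.log p s) * gg p s x.1.1 := by
          obtain ⟨g', hg'⟩ := Nat.exists_eq_add_of_le hg1
          obtain ⟨B', hB'⟩ := Nat.exists_eq_add_of_le hlB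
          have c1 : B' ≤ B - Nat.log p s := by omega
          calc l * T + 1 + (l + ((ρ * l + (gg p s x.1.1 - 1) * B) + M * b' * l))
              ≤ B' * gg p s x.1.1 := by
                rw [hg']
                have c2 : 1 + g' - 1 = g' := by omega
                rw [c2]
                have c3 : g' + 1 ≤ T := by omega
                have c4 : B' = (T + 1 + ρ + M * b') * l + l * T + 1 + h := by omega
                have c5 : g' * B = g' * l + g' * B' := by rw [hB']; ring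
                rw [c5]
                have c6 : B' * (1 + g') = B' + g' * B' := by ring
                rw [c6]
                have c7 : g' * l ≤ T * l := Nat.mul_le_mul_right _ (by omega)
                have c8 : (T + 1 + ρ + M * b') * l = T * l + l + ρ * l + M * b' * l := by ring
                omega
            _ ≤ (B - Nat.log p s) * gg p s x.1.1 := Nat.mul_le_mul_right _ c1
        have hsum' : ((∑ j, if j = some (Sum.inl x) then 0 else
            padicValInt p ((node (some (Sum.inl x)) : ℤ) - node j) : ℕ) : ℤ) ≤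
            ((l + ((ρ * l + (gg p s x.1.1 - 1) * B) + M * b' * l) : ℕ) : ℤ) := by
          exact_mod_cast hsum
        have hfin' : ((l * T + 1 + (l + ((ρ * l + (gg p s x.1.1 - 1) * B) + M * b' * l)) : ℕ) : ℤ)
            ≤ (((B - Nat.log p s) * gg p s x.1.1 : ℕ) : ℤ) := by exact_mod_cast hfin
        have hZ0 : (0 : ℤ) ≤ Z := by positivity
        have e3 : ((l * T + 1 + (l + ((ρ * l + (gg p s x.1.1 - 1) * B) + M * b' * l)) : ℕ) : ℤ)
          = ((l * T : ℕ) : ℤ) + 1
            + ((l + ((ρ * l + (gg p s x.1.1 - 1) * B) + M * b' * l) : ℕ) : ℤ) := by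
          push_cast; ring
        rw [e3] at hfin'
        linarith
    · -- bad nodes
      refine ⟨?_, ?_⟩
      · have := e2 s (T - 1 + qq p * t y.1) h ((y.2 : ℕ) + 1) h b (by omega)
          (by rw [hT]; exact hnu y.1)
        rw [min_eq_right (Nat.sub_le _ _)] at this
        have e1 : x0 + qq p * node (some (Sum.inr y))
            = T - 1 + qq p * t y.1 + qq p * p ^ h * ((y.2 : ℕ) + 1) := by
          rw [hnode]
          simp only [i3node]
          rw [← hn0]
          ring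
        rw [he, hf]
        simp only
        rw [e1]
        exact this
      · rw [herase (some (Sum.inr y)) (fun j => padicValInt p ((node (some (Sum.inr y)) : ℤ) - node j))]
        have hsum : (∑ j, if j = some (Sum.inr y) then 0 else
            padicValInt p ((node (some (Sum.inr y)) : ℤ) - node j)) ≤
            l + ((Z + p ^ 2 * s * l) + (M * b' * l + (b' - 1) * h)) := by
          rw [Fintype.sum_option, Fintype.sum_sum_type]
          refine add_le_add ?_ (add_le_add ?_ ?_)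
          · rw [if_neg (by simp), sym]
            exact (dNB y).2
          · calc ∑ x : {x // x ∈ ghostS p s}, (if some (Sum.inl x) = some (Sum.inr y) then 0 else
                padicValInt p ((node (some (Sum.inr y)) : ℤ) - node (some (Sum.inl x))))
                = ∑ x : {x // x ∈ ghostS p s}, padicValNat p (x.1.1 + t y.1) := by
                  refine Finset.sum_congr rfl fun x _ => ?_
                  rw [if_neg (by simp), (dBG y x).2]
              _ = ∑ u ∈ Icc 1 ((p + 1) * s), gg p s u * padicValNat p (u + t y.1) :=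
                  i3_ghost_sum p s (fun u => padicValNat p (u + t y.1))
              _ ≤ Z + p ^ 2 * s * l := by
                  rw [hZ]
                  exact z1 s (t y.1) l (ht1 y.1) (by rw [← hT]; exact htl' y.1)
          · calc ∑ y' : Fin M × Fin b', (if some (Sum.inr y') = some (Sum.inr y) then 0 else
                padicValInt p ((node (some (Sum.inr y)) : ℤ) - node (some (Sum.inr y'))))
                ≤ ∑ y' : Fin M × Fin b', (l + (if y'.1 = y.1 ∧ y'.2 ≠ y.2 then h else 0)) := by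
                  refine Finset.sum_le_sum fun y' _ => ?_
                  by_cases hyy : y' = y
                  · rw [if_pos (by rw [hyy])]; exact Nat.zero_le _
                  · rw [if_neg (fun h => hyy (Sum.inr.inj (Option.some.inj h)))]
                    exact (dBB y y' (fun h => hyy h.symm)).2
              _ = M * b' * l + (b' - 1) * h := by
                  rw [Finset.sum_add_distrib, i3_bad_cluster M b' h y.1 y.2]
                  simp
        have hee : e (some (Sum.inr y)) = (h - Nat.log p s) * b := by rw [he]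
        rw [hee]
        have hfin : l * T + 1 + (l + (p ^ 2 * s * l + (M * b' * l + (b' - 1) * h)))
            ≤ (h - Nat.log p s) * b := by
          have c1 : (h - l) * b ≤ (h - Nat.log p s) * b := Nat.mul_le_mul_right _ (by omega)
          have c2 : (b' - 1) * h ≤ (b' - 1) * (h + l) := Nat.mul_le_mul_left _ (by omega)
          rw [← hT, mul_comm b (h - l)] at hnum
          omega
        have hsum' : ((∑ j, if j = some (Sum.inr y) then 0 else
            padicValInt p ((node (some (Sum.inr y)) : ℤ) - node j) : ℕ) : ℤ) ≤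
            ((l + ((Z + p ^ 2 * s * l) + (M * b' * l + (b' - 1) * h)) : ℕ) : ℤ) := by
          exact_mod_cast hsum
        have hfin' : ((l * T + 1 + (l + (p ^ 2 * s * l + (M * b' * l + (b' - 1) * h))) : ℕ) : ℤ)
            ≤ (((h - Nat.log p s) * b : ℕ) : ℤ) := by exact_mod_cast hfin
        have e3 : ((l * T + 1 + (l + (p ^ 2 * s * l + (M * b' * l + (b' - 1) * h))) : ℕ) : ℤ)
          = ((l * T : ℕ) : ℤ) + 1 - Z
            + ((l + ((Z + p ^ 2 * s * l) + (M * b' * l + (b' - 1) * h)) : ℕ) : ℤ) := by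
          push_cast; ring
        rw [e3] at hfin'
        linarith
  -- conclusion
  have hcard : (Fintype.card (Option ({x // x ∈ ghostS p s} ⊕ (Fin M × Fin b'))) : ℤ) - 1
      = (ρ : ℤ) + M * b' := by
    rw [Fintype.card_option, Fintype.card_sum, hcardG, Fintype.card_prod, Fintype.card_fin,
      Fintype.card_fin]
    push_cast; ring
  rw [hcard] at key
  have hz2 := z2 s l hsl
  rw [← hρ, ← hZ] at hz2
  have hk2 := k2 s
  rw [← hρ] at hk2
  obtain ⟨P1, hP1⟩ : ∃ P1, p = P1 + 1 := ⟨p - 1, by omega⟩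
  have hP1' : (p : ℤ) - 1 = P1 := by rw [hP1]; push_cast; ring
  rw [hP1'] at key
  have hz2' : (ρ : ℤ) ≤ P1 * Z + P1 * (p ^ 2 * s * l) := by
    have : p - 1 = P1 := by omega
    rw [this] at hz2
    exact_mod_cast hz2
  have hk2' : (lam p s : ℤ) ≤ kap p * ρ := by exact_mod_cast hk2
  have hk3 : (P1 : ℤ) * lam p s ≤ P1 * (kap p * ρ) := mul_le_mul_of_nonneg_left hk2' (by positivity)
  have hmain : ((kap p : ℤ) * P1 - 1) * (M * b') < P1 * ((l * T : ℕ) + p ^ 2 * s * l + 1) := by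
    push_cast at key ⊢
    nlinarith
  rw [hT] at hmain
  have hgoal : ((M * b' : ℕ) : ℤ) ≤ 2 * (l * ((p + 1) * s) + p ^ 2 * s * l + 1) := by
    push_cast at hmain ⊢
    have hX : (0 : ℤ) ≤ l * ((p + 1) * s) + p ^ 2 * s * l + 1 := by positivity
    have hMb : (0 : ℤ) ≤ (M : ℤ) * b' := by positivity
    by_cases hpp : p = 2
    · have hk : kap p = 2 := by simp [kap, hpp]
      have hP : P1 = 1 := by omega
      rw [hk, hP] at hmain
      push_cast at hmain
      linarith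
    · have hk : kap p = 1 := by simp [kap, hpp]
      rw [hk] at hmain
      push_cast at hmain
      have hP : 2 ≤ P1 := by omega
      obtain ⟨P2, hP2⟩ : ∃ P2, P1 = P2 + 2 := ⟨P1 - 2, by omega⟩
      rw [hP2] at hmain
      push_cast at hmain
      by_contra hcon
      push Not at hcon
      have hP20 : (0 : ℤ) ≤ P2 := by positivity
      nlinarith [mul_le_mul_of_nonneg_left hcon.le (by linarith : (0:ℤ) ≤ (P2:ℤ) + 1)]
  exact_mod_cast hgoal

end Gou

end
end

section

/-! J1: the entries of the interpolation matrix are the jets of the polynomials `v_{c,a}`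
(MP_602313_nt). -/

open scoped Polynomial
open Finset

noncomputable section

namespace Gou

theorem prf_J1 (p : ℕ) [Fact p.Prime] : J1 p := by
  intro n b c i a ha hi hbc
  rcases b with _ | b <;> rcases c with _ | c
  · have h1 : i + a < n := by
      rcases hbc with h | h
      · exact absurd rfl h
      · exact h
    change (Polynomial.X ^ a : ℤ_[p][X]).coeff (n - i) = (((0 : ℤ) : ℤ) : ℤ_[p])
    rw [Polynomial.coeff_X_pow, if_neg (by omega), Int.cast_zero]
  · change ((Polynomial.X + Polynomial.C ((c : ℕ) : ℤ_[p])) ^ (n - a)).coeff (n - i) =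
      ((if a ≤ i then ((n - a).choose (i - a) : ℤ) * ((c : ℕ) : ℤ) ^ (i - a) else 0 : ℤ) : ℤ_[p])
    rw [Polynomial.coeff_X_add_C_pow]
    by_cases h : a ≤ i
    · rw [if_pos h]
      have h1 : n - a - (n - i) = i - a := by omega
      have h2 : (n - a).choose (n - i) = (n - a).choose (i - a) := by
        rw [← Nat.choose_symm (show i - a ≤ n - a by omega)]
        congr 1
        omega
      rw [h1, h2]
      push_cast
      ring
    · rw [if_neg h, Nat.choose_eq_zero_of_lt (by omega)]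
      simp
  · change (Polynomial.taylor (-((b : ℕ) : ℤ_[p])) (Polynomial.X ^ a)).coeff i =
      (((a.choose i : ℤ) * (-((b : ℕ) : ℤ)) ^ (a - i) : ℤ) : ℤ_[p])
    rw [Polynomial.taylor_apply, Polynomial.pow_comp, Polynomial.X_comp,
      Polynomial.coeff_X_add_C_pow]
    push_cast
    ring
  · change (Polynomial.taylor (-((b : ℕ) : ℤ_[p]))
        ((Polynomial.X + Polynomial.C ((c : ℕ) : ℤ_[p])) ^ (n - a))).coeff i =
      ((if b = c then 0 else ((n - a).choose i : ℤ) *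
        (((c : ℕ) : ℤ) - ((b : ℕ) : ℤ)) ^ (n - a - i) : ℤ) : ℤ_[p])
    have h1 : ((Polynomial.X + Polynomial.C ((c : ℕ) : ℤ_[p])) ^ (n - a)).comp
        (Polynomial.X + Polynomial.C (-((b : ℕ) : ℤ_[p]))) =
        (Polynomial.X + Polynomial.C (((c : ℕ) : ℤ_[p]) - ((b : ℕ) : ℤ_[p]))) ^ (n - a) := by
      rw [Polynomial.pow_comp, Polynomial.add_comp, Polynomial.X_comp, Polynomial.C_comp,
        Polynomial.C_neg, Polynomial.C_sub]
      ring
    rw [Polynomial.taylor_apply, h1, Polynomial.coeff_X_add_C_pow]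
    by_cases h : b = c
    · have h2 : i + a < n := by
        rcases hbc with h' | h'
        · exact absurd (congrArg some h) h'
        · exact h'
      rw [if_pos h, h, sub_self, zero_pow (by omega)]
      simp
    · rw [if_neg h]
      push_cast
      ring

end Gou

end
end

section

/-! J2: jets of order `< s` are onto if `(p+1) s ≤ n+1` (MP_602313_nt). -/

open scoped Polynomial
open Finset

noncomputable section

namespace Gou

theorem pj2_unit (p : ℕ) [hp : Fact p.Prime] (b c : Fin p) (h : b ≠ c) :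
    IsUnit (((b : ℕ) : ℤ_[p]) - ((c : ℕ) : ℤ_[p])) := by
  rw [PadicInt.isUnit_iff]
  have h1 : (((b : ℕ) : ℤ_[p]) - ((c : ℕ) : ℤ_[p])) = ((((b : ℕ) : ℤ) - ((c : ℕ) : ℤ) : ℤ) : ℤ_[p]) := by
    push_cast
    ring
  rw [h1]
  by_contra hne
  have h2 : ‖((((b : ℕ) : ℤ) - ((c : ℕ) : ℤ) : ℤ) : ℤ_[p])‖ < 1 :=
    lt_of_le_of_ne (PadicInt.norm_le_one _) hne
  rw [PadicInt.norm_int_lt_one_iff_dvd] at h2
  have hb := b.2
  have hc := c.2
  have h3 : (((b : ℕ) : ℤ) - ((c : ℕ) : ℤ)) = 0 := by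
    apply Int.eq_zero_of_abs_lt_dvd h2
    rw [abs_lt]
    constructor <;> omega
  apply h
  apply Fin.ext
  omega

theorem pj2_coprime (p s : ℕ) [hp : Fact p.Prime] (b c : Fin p) (h : b ≠ c) :
    IsCoprime ((Polynomial.X + Polynomial.C ((b : ℕ) : ℤ_[p])) ^ s)
      ((Polynomial.X + Polynomial.C ((c : ℕ) : ℤ_[p])) ^ s) := by
  apply IsCoprime.pow
  obtain ⟨u, hu⟩ := pj2_unit p b c h
  refine ⟨Polynomial.C (↑u⁻¹ : ℤ_[p]), -Polynomial.C (↑u⁻¹ : ℤ_[p]), ?_⟩
  have h1 : Polynomial.C (↑u⁻¹ : ℤ_[p]) * (Polynomial.X + Polynomial.C ((b : ℕ) : ℤ_[p])) +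
      -Polynomial.C (↑u⁻¹ : ℤ_[p]) * (Polynomial.X + Polynomial.C ((c : ℕ) : ℤ_[p])) =
      Polynomial.C ((↑u⁻¹ : ℤ_[p]) * (((b : ℕ) : ℤ_[p]) - ((c : ℕ) : ℤ_[p]))) := by
    rw [Polynomial.C_mul, Polynomial.C_sub]
    ring
  rw [h1, ← hu, Units.inv_mul, Polynomial.C_1]

theorem prf_J2 (p : ℕ) [hp : Fact p.Prime] : J2 p := by
  intro n s hs tgt
  rcases Nat.eq_zero_or_pos s with rfl | hs0
  · exact ⟨0, by simp, fun b a ha => absurd ha (Nat.not_lt_zero _)⟩
  let Q : Fin p → ℤ_[p][X] := fun b => (Polynomial.X + Polynomial.C ((b : ℕ) : ℤ_[p])) ^ s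
  have hQm : ∀ b, (Q b).Monic := fun b => (Polynomial.monic_X_add_C _).pow s
  have hQd : ∀ b, (Q b).natDegree = s := by
    intro b
    simp only [Q]
    rw [Polynomial.natDegree_pow_X_add_C]
  let P : ℤ_[p][X] := ∏ b, Q b
  have hPm : P.Monic := Polynomial.monic_prod_of_monic _ _ fun b _ => hQm b
  have hPd : P.natDegree = p * s := by
    simp only [P]
    rw [Polynomial.natDegree_prod_of_monic _ _ fun b _ => hQm b]
    simp [hQd]
  let T : Fin p → ℤ_[p][X] := fun b => ∑ a ∈ range s, Polynomial.C (tgt (some b) a) *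
    (Polynomial.X + Polynomial.C ((b : ℕ) : ℤ_[p])) ^ a
  -- Chinese remainder theorem
  obtain ⟨g0, hg0⟩ : ∃ g0 : ℤ_[p][X], ∀ b, Q b ∣ g0 - T b := by
    have hE : ∀ b, ∃ E : ℤ_[p][X], Q b ∣ E - 1 ∧ ∀ c, c ≠ b → Q c ∣ E := by
      intro b
      have hcop : IsCoprime (Q b) (∏ c ∈ univ.erase b, Q c) := by
        apply IsCoprime.prod_right
        intro c hc
        exact pj2_coprime p s b c (Finset.ne_of_mem_erase hc).symm
      obtain ⟨u, v, huv⟩ := hcop
      refine ⟨v * ∏ c ∈ univ.erase b, Q c, ⟨-u, ?_⟩, ?_⟩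
      · linear_combination huv
      · intro c hc
        exact Dvd.dvd.mul_left (Finset.dvd_prod_of_mem _ (Finset.mem_erase.mpr ⟨hc, mem_univ _⟩)) _
    choose E hE1 hE2 using hE
    refine ⟨∑ c, T c * E c, fun b => ?_⟩
    have h1 : ∑ c, T c * E c - T b = T b * (E b - 1) + ∑ c ∈ univ.erase b, T c * E c := by
      rw [← Finset.add_sum_erase univ _ (mem_univ b)]
      ring
    rw [h1]
    refine dvd_add (Dvd.dvd.mul_left (hE1 b) _) (Finset.dvd_sum fun c hc => ?_)
    exact Dvd.dvd.mul_left (hE2 c b (Finset.ne_of_mem_erase hc).symm) _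
  let H : ℤ_[p][X] := ∑ a ∈ range s, Polynomial.C (tgt none a) * Polynomial.X ^ (n - a)
  have hsn : s ≤ n + 1 := by
    have : s ≤ (p + 1) * s := Nat.le_mul_of_pos_left s (Nat.succ_pos p)
    omega
  have hHd : H.natDegree ≤ n := by
    apply Polynomial.natDegree_sum_le_of_forall_le
    intro a _
    exact (Polynomial.natDegree_C_mul_X_pow_le _ _).trans (Nat.sub_le _ _)
  have hHc : ∀ a, a < s → H.coeff (n - a) = tgt none a := by
    intro a ha
    simp only [H]
    rw [Polynomial.finsetSum_coeff]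
    rw [Finset.sum_eq_single a]
    · rw [Polynomial.coeff_C_mul, Polynomial.coeff_X_pow, if_pos rfl, mul_one]
    · intro a' ha' hne
      rw [Polynomial.coeff_C_mul, Polynomial.coeff_X_pow, if_neg, mul_zero]
      have := Finset.mem_range.mp ha'
      omega
    · intro h
      exact absurd (Finset.mem_range.mpr ha) h
  have hps : 0 < p * s := Nat.mul_pos hp.out.pos hs0
  have hrem : ((g0 - H) %ₘ P).natDegree < p * s := by
    rw [← hPd]
    apply Polynomial.natDegree_modByMonic_lt _ hPm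
    intro h1
    rw [h1, Polynomial.natDegree_one] at hPd
    omega
  have hps2 : p * s + s ≤ n + 1 := by
    have : (p + 1) * s = p * s + s := by ring
    omega
  refine ⟨H + (g0 - H) %ₘ P, ?_, ?_⟩
  · refine (Polynomial.natDegree_add_le _ _).trans (max_le hHd ?_)
    omega
  · intro b a ha
    cases b with
    | none =>
      show (H + (g0 - H) %ₘ P).coeff (n - a) = tgt none a
      rw [Polynomial.coeff_add, hHc a ha, Polynomial.coeff_eq_zero_of_natDegree_lt, add_zero]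
      omega
    | some b =>
      show (Polynomial.taylor (-((b : ℕ) : ℤ_[p])) (H + (g0 - H) %ₘ P)).coeff a = tgt (some b) a
      have hdvd : Q b ∣ (H + (g0 - H) %ₘ P) - T b := by
        have h1 : (H + (g0 - H) %ₘ P) - T b = (g0 - T b) - P * ((g0 - H) /ₘ P) := by
          have h2 := Polynomial.modByMonic_add_div (g0 - H) P
          linear_combination h2
        rw [h1]
        refine dvd_sub (hg0 b) (Dvd.dvd.mul_right ?_ _)
        exact Finset.dvd_prod_of_mem _ (mem_univ b)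
      obtain ⟨K, hK⟩ := hdvd
      have h3 : H + (g0 - H) %ₘ P = T b + Q b * K := by
        linear_combination hK
      rw [h3, map_add, Polynomial.coeff_add]
      have htX : Polynomial.taylor (-((b : ℕ) : ℤ_[p]))
          (Polynomial.X + Polynomial.C ((b : ℕ) : ℤ_[p])) = Polynomial.X := by
        rw [map_add, Polynomial.taylor_X, Polynomial.taylor_C, Polynomial.C_neg]
        ring
      have h4 : (Polynomial.taylor (-((b : ℕ) : ℤ_[p])) (Q b * K)).coeff a = 0 := by
        rw [Polynomial.taylor_mul]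
        simp only [Q]
        rw [Polynomial.taylor_pow, htX, Polynomial.coeff_X_pow_mul', if_neg (by omega)]
      have h5 : (Polynomial.taylor (-((b : ℕ) : ℤ_[p])) (T b)).coeff a = tgt (some b) a := by
        simp only [T]
        rw [map_sum, Polynomial.finsetSum_coeff, Finset.sum_eq_single a]
        · rw [Polynomial.taylor_mul, Polynomial.taylor_pow, htX, Polynomial.taylor_C,
            Polynomial.coeff_C_mul, Polynomial.coeff_X_pow, if_pos rfl, mul_one]
        · intro a' _ hne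
          rw [Polynomial.taylor_mul, Polynomial.taylor_pow, htX, Polynomial.taylor_C,
            Polynomial.coeff_C_mul, Polynomial.coeff_X_pow, if_neg hne.symm, mul_zero]
        · intro h
          exact absurd (Finset.mem_range.mpr ha) h
      rw [h4, h5, add_zero]

end Gou

end
end

section

/-!
Module A, item J3: in the square case the jets detect divisibility.
-/

open Finset Polynomial

noncomputable section

namespace Gou

/-- The jet as a linear map. -/
def jetL {p : ℕ} (n : ℕ) {R : Type*} [CommRing R] (b : Node p) (a : ℕ) : R[X] →ₗ[R] R :=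
  match b with
  | some b => (Polynomial.lcoeff R a).comp (Polynomial.taylor (-((b : ℕ) : R)))
  | none => Polynomial.lcoeff R (n - a)

theorem jetL_apply {p : ℕ} (n : ℕ) {R : Type*} [CommRing R] (b : Node p) (a : ℕ) (f : R[X]) :
    jetL n b a f = jet n b a f := by
  cases b <;> rfl

theorem jet_sum' {p : ℕ} (n : ℕ) {R : Type*} [CommRing R] (b : Node p) (a : ℕ) {ι : Type*}
    (S : Finset ι) (f : ι → R[X]) : jet n b a (∑ i ∈ S, f i) = ∑ i ∈ S, jet n b a (f i) := by
  simp only [← jetL_apply, map_sum]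

theorem jet_C_mul' {p : ℕ} (n : ℕ) {R : Type*} [CommRing R] (b : Node p) (a : ℕ) (c : R)
    (f : R[X]) : jet n b a (Polynomial.C c * f) = c * jet n b a f := by
  rw [← jetL_apply, ← jetL_apply, ← Polynomial.smul_eq_C_mul, map_smul, smul_eq_mul]

theorem jet_sub' {p : ℕ} (n : ℕ) {R : Type*} [CommRing R] (b : Node p) (a : ℕ) (f g : R[X]) :
    jet n b a (f - g) = jet n b a f - jet n b a g := by
  rw [← jetL_apply, ← jetL_apply, ← jetL_apply, map_sub]

theorem mem_degLT_iff {R : Type*} [CommRing R] (n : ℕ) (f : R[X]) :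
    f ∈ Polynomial.degreeLT R (n + 1) ↔ f.natDegree ≤ n := by
  rw [Polynomial.mem_degreeLT]
  constructor
  · intro h
    by_cases hf : f = 0
    · rw [hf, Polynomial.natDegree_zero]
      exact Nat.zero_le n
    · exact Nat.lt_succ_iff.1 ((Polynomial.natDegree_lt_iff_degree_lt hf).2 h)
  · intro h
    exact (Polynomial.degree_le_natDegree).trans_lt (by exact_mod_cast Nat.lt_succ_of_le h)

theorem prf_J3 (p : ℕ) [Fact p.Prime] (j2 : J2 p) : J3 p := by
  intro n s t hs F hF hdiv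
  -- the linear map of jets on polynomials of degree at most `n`
  let J : Polynomial.degreeLT ℤ_[p] (n + 1) →ₗ[ℤ_[p]] (Node p × Fin s → ℤ_[p]) :=
    LinearMap.pi fun k => (jetL n k.1 (k.2 : ℕ)).comp (Submodule.subtype _)
  have hJ : ∀ (g : Polynomial.degreeLT ℤ_[p] (n + 1)) (k : Node p × Fin s),
      J g k = jet n k.1 (k.2 : ℕ) (g : ℤ_[p][X]) := fun g k => jetL_apply n k.1 _ _
  have hsurj : Function.Surjective J := by
    intro tgt
    obtain ⟨g, hg, hjet⟩ := j2 n s hs.le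
      (fun b a => if h : a < s then tgt (b, ⟨a, h⟩) else 0)
    refine ⟨⟨g, (mem_degLT_iff n g).2 hg⟩, ?_⟩
    ext k
    rw [hJ]
    have := hjet k.1 k.2 k.2.2
    rw [dif_pos k.2.2] at this
    exact this
  have hcard : Fintype.card (Node p × Fin s) = n + 1 := by
    rw [Fintype.card_prod, Fintype.card_option, Fintype.card_fin, Fintype.card_fin, hs]
  let e1 : (Node p × Fin s → ℤ_[p]) ≃ₗ[ℤ_[p]] (Fin (n + 1) → ℤ_[p]) :=
    LinearEquiv.funCongrLeft ℤ_[p] ℤ_[p] (Fintype.equivFinOfCardEq hcard).symm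
  let e2 := Polynomial.degreeLTEquiv ℤ_[p] (n + 1)
  let Φ : (Fin (n + 1) → ℤ_[p]) →ₗ[ℤ_[p]] (Fin (n + 1) → ℤ_[p]) :=
    e1.toLinearMap.comp (J.comp e2.symm.toLinearMap)
  have hΦs : Function.Surjective Φ := e1.surjective.comp (hsurj.comp e2.symm.surjective)
  have hΦi : Function.Injective Φ := OrzechProperty.injective_of_surjective_endomorphism Φ hΦs
  have hinj : Function.Injective J := by
    intro g g' hgg
    have h1 : Φ (e2 g) = Φ (e2 g') := by
      change e1 (J (e2.symm (e2 g))) = e1 (J (e2.symm (e2 g')))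
      rw [e2.symm_apply_apply, e2.symm_apply_apply, hgg]
    exact e2.injective (hΦi h1)
  choose! d hd using hdiv
  obtain ⟨G, hG, hjet⟩ := j2 n s hs.le d
  refine ⟨G, hG, ?_⟩
  have hCG : (Polynomial.C ((p : ℤ_[p]) ^ t) * G).natDegree ≤ n :=
    (Polynomial.natDegree_C_mul_le _ _).trans hG
  have h2 : J ⟨F, (mem_degLT_iff n F).2 hF⟩ =
      J ⟨Polynomial.C ((p : ℤ_[p]) ^ t) * G, (mem_degLT_iff n _).2 hCG⟩ := by
    ext k
    rw [hJ, hJ]
    change jet n k.1 (k.2 : ℕ) F = jet n k.1 (k.2 : ℕ) (Polynomial.C ((p : ℤ_[p]) ^ t) * G)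
    rw [jet_C_mul', hd k.1 k.2 k.2.2, hjet k.1 k.2 k.2.2]
  exact congrArg Subtype.val (hinj h2)

end Gou

end
end

section

/-!
Module A, item J4: the duality pairing.
-/

open Finset Polynomial

noncomputable section

namespace Gou

theorem choose_swap (n a m : ℕ) (ha : a ≤ n) (hm : m ≤ n) :
    (n - a).choose m * n.choose a = (n - m).choose a * n.choose m := by
  by_cases h : a + m ≤ n
  · have h1 := Nat.choose_mul (n := n) (Nat.le_add_right a m)
    have h2 := Nat.choose_mul (n := n) (Nat.le_add_left m a)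
    rw [Nat.add_sub_cancel_left] at h1
    rw [Nat.add_sub_cancel] at h2
    have h3 : (a + m).choose a = (a + m).choose m := Nat.choose_symm_add
    rw [h3] at h1
    rw [mul_comm, mul_comm ((n - m).choose a), ← h1, ← h2]
  · rw [Nat.choose_eq_zero_of_lt (show n - a < m by omega),
      Nat.choose_eq_zero_of_lt (show n - m < a by omega), zero_mul, zero_mul]

theorem jet_some_sum {p : ℕ} {R : Type*} [CommRing R] (n a : ℕ) (b : Fin p) (g : R[X])
    (hg : g.natDegree ≤ n) :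
    jet n (some b : Node p) a g =
      ∑ k ∈ range (n + 1), (k.choose a : R) * g.coeff k * (-((b : ℕ) : R)) ^ (k - a) := by
  change (Polynomial.taylor (-((b : ℕ) : R)) g).coeff a = _
  rw [Polynomial.taylor_coeff, Polynomial.hasseDeriv_apply,
    Polynomial.sum_over_range' g (fun i => by simp) (n + 1) (Nat.lt_succ_of_le hg),
    Polynomial.eval_finsetSum]
  refine Finset.sum_congr rfl fun k _ => ?_
  rw [Polynomial.eval_monomial]

theorem prf_J4 (p : ℕ) [Fact p.Prime] : J4 p := by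
  intro n a b g ha hg
  have hna : ((n.choose a : ℕ) : ℚ_[p]) ≠ 0 := by
    exact_mod_cast (Nat.choose_pos ha).ne'
  match b with
  | none =>
    refine ⟨(-1) ^ a, neg_one_pow_eq_or _ a, ?_⟩
    rw [pairG, Finset.sum_eq_single a]
    · change (-1 : ℚ_[p]) ^ a * (((X ^ a : ℤ_[p][X]).coeff a : ℤ_[p]) : ℚ_[p]) *
        ((g.coeff (n - a) : ℤ_[p]) : ℚ_[p]) / (n.choose a : ℚ_[p]) = _
      rw [coeff_X_pow_self, PadicInt.coe_one, mul_one]
      rfl
    · intro m _ hm
      change (-1 : ℚ_[p]) ^ m * (((X ^ a : ℤ_[p][X]).coeff m : ℤ_[p]) : ℚ_[p]) *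
        ((g.coeff (n - m) : ℤ_[p]) : ℚ_[p]) / (n.choose m : ℚ_[p]) = 0
      rw [coeff_X_pow, if_neg hm, PadicInt.coe_zero, mul_zero, zero_mul, zero_div]
    · intro h
      exact absurd (Finset.mem_range.2 (Nat.lt_succ_of_le ha)) h
  | some b =>
    refine ⟨(-1) ^ (n - a), neg_one_pow_eq_or _ _, ?_⟩
    rw [pairG, jet_some_sum n a b g hg, ← Finset.sum_range_reflect]
    rw [PadicInt.coe_sum, Finset.mul_sum, Finset.sum_div]
    refine Finset.sum_congr rfl fun k hk => ?_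
    have hk' : k ≤ n := Nat.lt_succ_iff.1 (Finset.mem_range.1 hk)
    have e1 : n + 1 - 1 - k = n - k := by omega
    have e2 : n - (n - k) = k := by omega
    rw [e1, e2]
    change (-1 : ℚ_[p]) ^ (n - k) *
      ((((X + C ((b : ℕ) : ℤ_[p])) ^ (n - a) : ℤ_[p][X]).coeff (n - k) : ℤ_[p]) : ℚ_[p]) *
        ((g.coeff k : ℤ_[p]) : ℚ_[p]) / (n.choose (n - k) : ℚ_[p]) = _
    rw [Polynomial.coeff_X_add_C_pow]
    have hnk : ((n.choose (n - k) : ℕ) : ℚ_[p]) ≠ 0 := by
      exact_mod_cast (Nat.choose_pos (Nat.sub_le n k)).ne'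
    rw [div_eq_div_iff hnk hna]
    push_cast
    have hsw := choose_swap n a (n - k) ha (Nat.sub_le n k)
    rw [e2] at hsw
    have hsw' : ((n - a).choose (n - k) : ℚ_[p]) * (n.choose a : ℚ_[p]) =
        (k.choose a : ℚ_[p]) * (n.choose (n - k) : ℚ_[p]) := by exact_mod_cast hsw
    by_cases hka : a ≤ k
    · have e3 : n - a - (n - k) = k - a := by omega
      have e4 : (-1 : ℚ_[p]) ^ (n - k) = (-1) ^ (n - a) * (-1) ^ (k - a) := by
        have : n - a = (n - k) + (k - a) := by omega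
        rw [this, pow_add, mul_assoc, ← mul_pow]
        simp
      rw [e3, e4, neg_pow (((b : ℕ) : ℚ_[p])) (k - a)]
      calc (-1 : ℚ_[p]) ^ (n - a) * (-1) ^ (k - a) *
            ((((b : ℕ) : ℚ_[p])) ^ (k - a) * ((n - a).choose (n - k) : ℚ_[p])) *
            ((g.coeff k : ℤ_[p]) : ℚ_[p]) * (n.choose a : ℚ_[p])
          = (-1 : ℚ_[p]) ^ (n - a) * (-1) ^ (k - a) * (((b : ℕ) : ℚ_[p])) ^ (k - a) *
            ((g.coeff k : ℤ_[p]) : ℚ_[p]) *
              (((n - a).choose (n - k) : ℚ_[p]) * (n.choose a : ℚ_[p])) := by ring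
        _ = _ := by rw [hsw']; ring
    · have z1 : (n - a).choose (n - k) = 0 := Nat.choose_eq_zero_of_lt (by omega)
      have z2 : k.choose a = 0 := Nat.choose_eq_zero_of_lt (by omega)
      rw [z1, z2]
      simp

end Gou

end
end
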