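import Pool.Agent.Work.MP_602313_nt.Bd.B04
import Pool.Agent.Work.MP_602313_nt.Bd.B01

/-! Bundle of small proof modules (one section per former module). -/

section

/-!
MP_602313_nt, module C1, item S1 (helper30): Sturm bound of level one, decay form.
-/

open scoped MatrixGroups ModularForm UpperHalfPlane Manifold Pointwise Topology
open CongruenceSubgroup UpperHalfPlane Matrix Matrix.SpecialLinearGroup ConjAct OnePoint

noncomputable section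

namespace Gou

theorem s1_coeff {K : ℤ} (F : ModularForm 𝒮ℒ K) (c : ℝ)
    (hF : ⇑F =O[atImInfty] fun τ => Real.exp (-2 * Real.pi * c * τ.im)) (n : ℕ)
    (hn : (n : ℝ) < c) : (qExpansion 1 ⇑F).coeff n = 0 := by
  obtain ⟨B, hB⟩ := hF.bound
  obtain ⟨A, hA⟩ := (UpperHalfPlane.atImInfty_mem _).mp hB
  have hA' : ∀ τ : ℍ, A ≤ τ.im → ‖F τ‖ ≤ B * Real.exp (-2 * Real.pi * c * τ.im) := by
    intro τ hτ
    have := hA τ hτ
    simpa [abs_of_pos (Real.exp_pos _)] using this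
  have h1 : (1 : ℝ) ∈ (𝒮ℒ : Subgroup (GL (Fin 2) ℝ)).strictPeriods := by
    simp
  have key : ∀ t : ℝ, max A 1 ≤ t →
      ‖(qExpansion 1 ⇑F).coeff n‖ ≤ |B| * Real.exp (-(2 * Real.pi * (c - n)) * t) := by
    intro t ht
    have htA : A ≤ t := le_trans (le_max_left _ _) ht
    have ht0 : 0 < t := lt_of_lt_of_le one_pos (le_trans (le_max_right _ _) ht)
    rw [ModularFormClass.qExpansion_coeff_eq_intervalIntegral (f := F) one_pos h1 n ht0]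
    simp only [ne_eq, one_ne_zero, not_false_eq_true, div_self, Complex.ofReal_one, one_mul]
    have : ‖∫ u in (0 : ℝ)..1, 1 / Function.Periodic.qParam 1 (u + t * Complex.I) ^ n *
        F ⟨u + t * Complex.I, by simpa using ht0⟩‖
        ≤ |B| * Real.exp (-(2 * Real.pi * (c - n)) * t) * |1 - 0| := by
      apply intervalIntegral.norm_integral_le_of_norm_le_const
      intro u _
      have him : ((u : ℂ) + t * Complex.I).im = t := by simp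
      have h6 : ‖Function.Periodic.qParam 1 ((u : ℂ) + t * Complex.I)‖
          = Real.exp (-2 * Real.pi * t / 1) := by
        rw [Function.Periodic.norm_qParam, him]
      rw [norm_mul, norm_div, norm_one, norm_pow, h6]
      have h2 := hA' ⟨u + t * Complex.I, by simpa using ht0⟩ (by
        show A ≤ ((u : ℂ) + t * Complex.I).im
        rw [him]; exact htA)
      have h3 : (⟨(u : ℂ) + t * Complex.I, by simpa using ht0⟩ : ℍ).im = t := him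
      rw [h3] at h2
      have h4 : 1 / Real.exp (-2 * Real.pi * t / 1) ^ n = Real.exp (2 * Real.pi * n * t) := by
        rw [← Real.exp_nat_mul, one_div, ← Real.exp_neg]
        congr 1
        ring
      rw [h4]
      calc Real.exp (2 * Real.pi * n * t) * ‖F ⟨(u : ℂ) + t * Complex.I, by simpa using ht0⟩‖
          ≤ Real.exp (2 * Real.pi * n * t) * (B * Real.exp (-2 * Real.pi * c * t)) := by
            gcongr
        _ ≤ Real.exp (2 * Real.pi * n * t) * (|B| * Real.exp (-2 * Real.pi * c * t)) := by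
            gcongr
            exact le_abs_self B
        _ = |B| * Real.exp (-(2 * Real.pi * (c - n)) * t) := by
            rw [show -(2 * Real.pi * (c - n)) * t
              = 2 * Real.pi * n * t + -2 * Real.pi * c * t by ring, Real.exp_add]
            ring
    simpa using this
  have hpos : 0 < 2 * Real.pi * (c - n) := by
    have := Real.pi_pos
    have h5 : 0 < c - n := by linarith
    positivity
  have hlim : Filter.Tendsto (fun t : ℝ => |B| * Real.exp (-(2 * Real.pi * (c - n)) * t))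
      Filter.atTop (𝓝 (|B| * 0)) := by
    apply Filter.Tendsto.const_mul
    apply Real.tendsto_exp_atBot.comp
    apply Filter.Tendsto.const_mul_atTop_of_neg (by linarith) Filter.tendsto_id
  rw [mul_zero] at hlim
  have : ‖(qExpansion 1 ⇑F).coeff n‖ ≤ 0 := by
    refine ge_of_tendsto hlim ?_
    filter_upwards [Filter.eventually_ge_atTop (max A 1)] with t ht
    exact key t ht
  exact norm_le_zero_iff.mp this

theorem s1Level : S1Level := by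
  intro K F c hc hF
  rcases lt_or_ge K 0 with hK | hK
  · exact rank_zero_iff_forall_zero.mp (ModularForm.levelOne_neg_weight_rank_zero hK) F
  · apply ModularForm.sturm_bound_levelOne
    lift K to ℕ using hK
    have h : ∀ n : ℕ, n < K / 12 + 1 → (qExpansion 1 ⇑F).coeff n = 0 := by
      intro n hn
      apply s1_coeff F c hF n
      have h1 : n * 12 ≤ K := (Nat.le_div_iff_mul_le (by norm_num)).mp (Nat.lt_succ_iff.mp hn)
      have h2 : (n : ℝ) * 12 ≤ (K : ℝ) := by exact_mod_cast h1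
      have h3 : ((K : ℤ) : ℝ) = (K : ℝ) := by push_cast; rfl
      rw [h3] at hc
      linarith
    have h2 : ((K / 12 + 1 : ℕ) : ℕ∞) ≤ (qExpansion 1 ⇑F).order :=
      PowerSeries.nat_le_order _ _ h
    have h3 : ((K / 12 : ℕ) : ℕ∞) < ((K / 12 + 1 : ℕ) : ℕ∞) := by
      exact_mod_cast Nat.lt_succ_self _
    simpa using lt_of_lt_of_le h3 h2

end Gou

end
end

section

/-!
MP_602313_nt, module C1: the Sturm bound for subgroups of finite index.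
-/

open scoped MatrixGroups ModularForm UpperHalfPlane Manifold Pointwise
open CongruenceSubgroup UpperHalfPlane Matrix Matrix.SpecialLinearGroup ConjAct OnePoint
open Asymptotics

noncomputable section

namespace Gou

namespace S2

theorem isBigO_prod {ι : Type*} (s : Finset ι) (F : ι → ℍ → ℂ) (l : Filter ℍ)
    (h : ∀ i ∈ s, F i =O[l] (fun _ : ℍ => (1 : ℝ))) :
    (∏ i ∈ s, F i) =O[l] (fun _ : ℍ => (1 : ℝ)) := by
  classical
  induction s using Finset.induction_on with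
  | empty =>
    rw [Finset.prod_empty]
    exact isBigO_const_const (1 : ℂ) (one_ne_zero (α := ℝ)) l
  | insert a s ha ih =>
    rw [Finset.prod_insert ha]
    have h1 := (h a (Finset.mem_insert_self _ _)).mul
      (ih fun i hi => h i (Finset.mem_insert_of_mem hi))
    simp only [mul_one] at h1
    exact h1

theorem isBigO_prod' {ι : Type*} (s : Finset ι) (F : ι → ℍ → ℂ) (l : Filter ℍ) (g : ℍ → ℝ)
    (i₀ : ι) (hi₀ : i₀ ∈ s) (h₀ : F i₀ =O[l] g)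
    (h : ∀ i ∈ s, F i =O[l] (fun _ : ℍ => (1 : ℝ))) :
    (∏ i ∈ s, F i) =O[l] g := by
  classical
  rw [← Finset.mul_prod_erase s F hi₀]
  have h1 := h₀.mul (isBigO_prod (s.erase i₀) F l fun i hi => h i (Finset.mem_of_mem_erase hi))
  simp only [mul_one] at h1
  exact h1

end S2

theorem s2Sturm (s1 : S1Level) : S2Sturm := by
  intro Γ hΓ
  set 𝒢 : Subgroup (GL (Fin 2) ℝ) := (Γ : Subgroup (GL (Fin 2) ℝ)) with h𝒢
  refine ⟨Nat.card (𝒮ℒ ⧸ (𝒢.subgroupOf 𝒮ℒ)), fun k f c hc hO => ?_⟩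
  have key : ⇑(ModularForm.norm 𝒮ℒ f) =O[atImInfty]
      fun τ => Real.exp (-2 * Real.pi * c * τ.im) := by
    rw [ModularForm.coe_norm]
    have hbd : ∀ q : 𝒮ℒ ⧸ (𝒢.subgroupOf 𝒮ℒ),
        (SlashInvariantForm.quotientFunc f q) =O[atImInfty] (fun _ : ℍ => (1 : ℝ)) := by
      refine Quotient.forall.mpr fun ⟨r, hr⟩ => ?_
      obtain ⟨s, rfl⟩ := hr
      have h1 := ModularFormClass.bdd_at_infty_slash f s⁻¹
      have h2 : (SlashInvariantForm.quotientFunc f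
          (⟦⟨mapGL ℝ s, ⟨s, rfl⟩⟩⟧ : 𝒮ℒ ⧸ (𝒢.subgroupOf 𝒮ℒ))) = (⇑f) ∣[(k : ℤ)] s⁻¹ := by
        rw [SlashInvariantForm.quotientFunc_mk, ModularForm.SL_slash]
        simp [mapGL]
      have h3 : (SlashInvariantForm.quotientFunc f
          (⟦⟨mapGL ℝ s, ⟨s, rfl⟩⟩⟧ : 𝒮ℒ ⧸ (𝒢.subgroupOf 𝒮ℒ))) =O[atImInfty]
            (fun _ : ℍ => (1 : ℝ)) := by
        rw [h2]
        exact h1
      exact h3
    have hone : (SlashInvariantForm.quotientFunc f (⟦1⟧ : 𝒮ℒ ⧸ (𝒢.subgroupOf 𝒮ℒ))) = ⇑f := by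
      rw [SlashInvariantForm.quotientFunc_mk]
      simp
    refine S2.isBigO_prod' _ (fun q => SlashInvariantForm.quotientFunc f q) atImInfty _
      (⟦1⟧ : 𝒮ℒ ⧸ (𝒢.subgroupOf 𝒮ℒ)) ?_ ?_ (fun q _ => hbd q)
    · let _ := Fintype.ofFinite (𝒮ℒ ⧸ (𝒢.subgroupOf 𝒮ℒ))
      exact Finset.mem_univ _
    rw [hone]
    exact hO
  have h1 := s1 _ (ModularForm.norm 𝒮ℒ f) c ?_ key
  · have h2 := (ModularForm.norm_eq_zero_iff (𝒢 := 𝒢) (k := (k : ℤ)) 𝒮ℒ f).mp h1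
    exact CuspForm.ext fun z => congr_fun h2 z
  · push_cast
    have h0 : (0 : ℝ) ≤ (Nat.card (𝒮ℒ ⧸ (𝒢.subgroupOf 𝒮ℒ)) : ℝ) * k := by positivity
    nlinarith

end Gou

end
end

section

/-!
MP_602313_nt, module C2: Eichler integrals. Statements of the items for `EichlerEmb`.
-/

open scoped MatrixGroups ModularForm UpperHalfPlane Manifold Pointwise Polynomial
open CongruenceSubgroup UpperHalfPlane Matrix Matrix.SpecialLinearGroup Filter Topology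

noncomputable section

namespace Gou

/-- An integer matrix of positive determinant as an element of `GL(2, ℚ)`. -/
def gA (A : Matrix (Fin 2) (Fin 2) ℤ) (hA : 0 < A.det) : GL (Fin 2) ℚ :=
  GeneralLinearGroup.mkOfDetNeZero (A.map (Int.cast : ℤ → ℚ)) (by
    have : (A.map (Int.cast : ℤ → ℚ)).det = (A.det : ℚ) := by
      simp [Matrix.det_fin_two]
    rw [this]
    exact_mod_cast hA.ne')

/-- `(X - z)^n`. -/
def XZ (n : ℕ) (z : ℂ) : ℂ[X] := (Polynomial.X - Polynomial.C z) ^ n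

/-- `P` is a primitive of `F(z) (X - z)^n` on the upper half plane. -/
def IsPrim (n : ℕ) (F : ℍ → ℂ) (P : ℍ → ℂ[X]) : Prop :=
  (∀ z, (P z).natDegree ≤ n) ∧ ∀ (z : ℍ) (i : ℕ),
    HasDerivAt (fun w : ℂ => (P (ofComplex w)).coeff i) (F z * (XZ n z).coeff i) (z : ℂ)

/-- `P` tends to `0` along vertical lines. -/
def VDecay (P : ℍ → ℂ[X]) : Prop := ∀ (x : ℝ) (i : ℕ),
  Tendsto (fun y : ℝ => (P (ofComplex ((x : ℂ) + y * Complex.I))).coeff i) atTop (𝓝 0)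

/-- `G_j(z) = sum_m a_m i^(j+1) j! (h / (2 pi m))^(j+1) e(m z / h)`. -/
def Gj (h : ℕ) (a : ℕ → ℂ) (j : ℕ) (z : ℂ) : ℂ :=
  ∑' m : ℕ, a m * Complex.I ^ (j + 1) * (j.factorial : ℂ) * ((h : ℂ) / (2 * Real.pi * m)) ^ (j + 1) *
    Complex.exp (2 * Real.pi * Complex.I * m * z / h)

/-- The explicit primitive. -/
def PE (n h : ℕ) (a : ℕ → ℂ) (z : ℂ) : ℂ[X] :=
  -∑ j ∈ Finset.range (n + 1),
    Polynomial.C ((n.choose j : ℂ) * (-1) ^ j * Gj h a j z) * XZ (n - j) z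

/-- EA. `q`-expansion of `f ∣ g`, `g ∈ SL(2, ℤ)`, with period `N`. -/
def EPer : Prop := ∀ (N : ℕ), N ≠ 0 → ∀ (k : ℤ) (f : SN N k) (g : SL(2, ℤ)), ∃ a : ℕ → ℂ, a 0 = 0 ∧
  ∀ z : ℍ, HasSum (fun m : ℕ => a m * Complex.exp (2 * Real.pi * Complex.I * m * (z : ℂ) / N))
    ((⇑f ∣[k] g) z)

/-- EB. The explicit primitive is a primitive and decays. -/
def EPrim : Prop := ∀ (n h : ℕ) (F : ℍ → ℂ) (a : ℕ → ℂ), h ≠ 0 → a 0 = 0 →
  (∀ z : ℍ, HasSum (fun m : ℕ => a m * Complex.exp (2 * Real.pi * Complex.I * m * (z : ℂ) / h)) (F z)) →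
  IsPrim n F (fun z => PE n h a z) ∧ VDecay (fun z => PE n h a z)

/-- EC. Two primitives differ by a constant. -/
def EConst : Prop := ∀ (n : ℕ) (F : ℍ → ℂ) (P P' : ℍ → ℂ[X]), IsPrim n F P → IsPrim n F P' →
  ∃ c : ℂ[X], c.natDegree ≤ n ∧ ∀ z, P' z = P z + c

/-- ED. Transformation of primitives. -/
def EChain : Prop := ∀ (n : ℕ) (F : ℍ → ℂ) (P : ℍ → ℂ[X]) (A : Matrix (Fin 2) (Fin 2) ℤ)
  (hA : 0 < A.det), IsPrim n F P →
    IsPrim n (F ∣[((n : ℤ) + 2)] gR (gA A hA)) (fun z => symAct n A (P (gR (gA A hA) • z)))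

/-- ED'. Elements of `SL(2, ℤ)`. -/
def ESL : Prop := ∀ (g : SL(2, ℤ)) (h : 0 < (mx g).det), gR (gA (mx g) h) = (mapGL ℝ g) ∧
  (∀ z : ℍ, gR (gA (mx g) h) • z = g • z) ∧
  (∀ (k : ℤ) (F : ℍ → ℂ), F ∣[k] gR (gA (mx g) h) = F ∣[k] g)

/-- Boundary values of `P` at the cusps. -/
def IsBdry (n : ℕ) (P : ℍ → ℂ[X]) (Pc : Vec → ℂ[X]) : Prop :=
  (∀ r, (Pc r).natDegree ≤ n) ∧ (∀ (c : ℤ) r, c ≠ 0 → Pc (c • r) = Pc r) ∧
  ∀ (g : SL(2, ℤ)) (x : ℝ) (i : ℕ),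
    Tendsto (fun y : ℝ => (symAct n (mx g) (P (g • ofComplex ((x : ℂ) + y * Complex.I)))).coeff i)
      atTop (𝓝 ((symAct n (mx g) (Pc ((mx g).mulVec cI))).coeff i))

/-- EE. Existence of boundary values. -/
def EBdry : Prop := ∀ (N n : ℕ), N ≠ 0 → Even n → ∀ (f : SN N ((n : ℤ) + 2)) (P : ℍ → ℂ[X]),
  IsPrim n f P → ∃ Pc : Vec → ℂ[X], IsBdry n P Pc

/-- EF. Uniqueness of boundary values. -/
def EUniq : Prop := ∀ (n : ℕ) (P P' : ℍ → ℂ[X]) (Pc Pc' : Vec → ℂ[X]) (c : ℂ[X]), c.natDegree ≤ n →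
  IsBdry n P Pc → IsBdry n P' Pc' → (∀ z, P' z = P z + c) → ∀ r, r ≠ 0 → Pc' r = Pc r + c

/-- EG. Transformation of boundary values. -/
def ETrans : Prop := ∀ (n : ℕ) (P : ℍ → ℂ[X]) (Pc : Vec → ℂ[X]) (A : Matrix (Fin 2) (Fin 2) ℤ)
  (hA : 0 < A.det), (∀ z, (P z).natDegree ≤ n) → IsBdry n P Pc →
    IsBdry n (fun z => symAct n A (P (gR (gA A hA) • z))) (fun r => symAct n A (Pc (A.mulVec r)))

/-- EH. The period map. -/
def EPhi : Prop := ∀ (N n : ℕ), N ≠ 0 → Even n →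
  ∃ φ : SN N ((n : ℤ) + 2) →ₗ[ℂ] (Vec → Vec → ℂ[X]),
    (∀ f, φ f ∈ Symb N n ℂ) ∧
    (∀ (f : SN N ((n : ℤ) + 2)) (P : ℍ → ℂ[X]) (Pc : Vec → ℂ[X]), IsPrim n f P → IsBdry n P Pc →
      ∀ r s, r ≠ 0 → s ≠ 0 → φ f r s = Pc s - Pc r) ∧
    (∀ l : ℕ, l.Prime → ¬ l ∣ N → ∀ T : SN N ((n : ℤ) + 2) →ₗ[ℂ] SN N ((n : ℤ) + 2),
      IsHecke N ((n : ℤ) + 2) l T → ∀ f, φ (T f) = heckeSymbFun n l (φ f))

/-- EI. The value at the point itself. -/
def EKappa : Prop := ∀ N : ℕ, N ≠ 0 → ∃ n0 : ℕ, ∀ n ≥ n0, Even n → ∃ κ : ℂ, κ ≠ 0 ∧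
  ∀ f : SN N ((n : ℤ) + 2),
    Summable (fun m : ℕ => ‖aq f m / (m : ℂ) ^ (n + 1)‖) ∧
    ∀ (P : ℍ → ℂ[X]) (Pc : Vec → ℂ[X]), IsPrim n f P → IsBdry n P Pc →
      ∀ a c : ℤ, 0 < c → IsCoprime a c →
        Polynomial.eval ((a : ℂ) / c) (Pc cI - Pc ![a, c]) =
          κ * ∑' m : ℕ, aq f m / (m : ℂ) ^ (n + 1) *
            Complex.exp (2 * Real.pi * Complex.I * m * ((a : ℂ) / c))

/-- EJ. Cosine and sine series. -/
def EFour : Prop := ∀ a : ℕ → ℂ, a 0 = 0 → Summable (fun m => ‖a m‖) →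
  ((∀ θ : ℚ, ∑' m : ℕ, a m * (Complex.exp (2 * Real.pi * Complex.I * m * (θ : ℂ))
      + Complex.exp (2 * Real.pi * Complex.I * m * (-(θ : ℂ)))) = 0) → a = 0) ∧
  ((∀ θ : ℚ, ∑' m : ℕ, a m * (Complex.exp (2 * Real.pi * Complex.I * m * (θ : ℂ))
      - Complex.exp (2 * Real.pi * Complex.I * m * (-(θ : ℂ)))) = 0) → a = 0)

/-- EK. The involution: `φ ↦ φ^ε`, `ε = diag(-1, 1)`. -/
def epsM : Matrix (Fin 2) (Fin 2) ℤ := !![-1, 0; 0, 1]

def epsSymb (n : ℕ) (φ : Vec → Vec → ℂ[X]) : Vec → Vec → ℂ[X] :=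
  fun r s => symAct n epsM (φ (epsM.mulVec r) (epsM.mulVec s))

def EEps : Prop := ∀ (N n : ℕ), N ≠ 0 → Even n → ∀ φ ∈ Symb N n ℂ,
  epsSymb n φ ∈ Symb N n ℂ ∧ epsSymb n (epsSymb n φ) = φ ∧
  ∀ l : ℕ, l.Prime → ¬ l ∣ N → heckeSymbFun n l (epsSymb n φ) = epsSymb n (heckeSymbFun n l φ)

/-- EL. The conclusion. -/
def EEmb : Prop := ∀ N : ℕ, N ≠ 0 → EichlerEmb N

end Gou

end
end

section

/-!
MP_602313_nt, module C2 (helper4): statements of the items for `PetSelfAdj` and `DimLower`.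
-/

open scoped MatrixGroups ModularForm UpperHalfPlane Manifold Pointwise Modular
open CongruenceSubgroup UpperHalfPlane Matrix Matrix.SpecialLinearGroup ConjAct OnePoint
open MeasureTheory

noncomputable section

namespace Gou

/-! ### Weights: a replacement for fundamental domains -/

/-- `w` is an integrable weight for `Γ`: `w ≥ 0` and `∑_{γ ∈ Γ} w (γ z) = 1` for all `z`. -/
structure IsWt (Γ : Subgroup SL(2, ℤ)) (w : ℍ → ℝ) : Prop where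
  meas : Measurable w
  nonneg : ∀ z, 0 ≤ w z
  int : Integrable w
  sum : ∀ z, HasSum (fun γ : Γ => w ((γ : SL(2, ℤ)) • z)) 1

/-- P1a. -/
def FdFinite : Prop := ∀ z : ℍ, {γ : SL(2, ℤ) | γ • z ∈ 𝒟}.Finite

/-- P1b. -/
def FdVol : Prop := MeasurableSet 𝒟 ∧ volume 𝒟 < ⊤

/-- P1c. A weight for `SL(2, ℤ)` (from P1a, P1b). -/
def WtSL : Prop := ∃ w : ℍ → ℝ, Measurable w ∧ (∀ z, 0 ≤ w z) ∧ Integrable w ∧
  ∀ z, HasSum (fun γ : SL(2, ℤ) => w (γ • z)) 1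

/-- P2. A weight for a subgroup of finite index (from P1c). -/
def WtG : Prop := ∀ (Γ : Subgroup SL(2, ℤ)) [Γ.FiniteIndex], ∃ w : ℍ → ℝ, IsWt Γ w

/-- P3. Boundedness of the Petersson function. -/
def PetBdd : Prop := ∀ (Γ : Subgroup SL(2, ℤ)) [Γ.FiniteIndex] (k : ℤ) (f g : CuspForm Γ k)
  (α : GL (Fin 2) ℚ), ∃ C : ℝ, ∀ z : ℍ, ‖petersson k (f ∣[k] gR α) g z‖ ≤ C

/-- P4. Positivity. -/
def PetPos : Prop := ∀ (Γ : Subgroup SL(2, ℤ)) [Γ.FiniteIndex] (w : ℍ → ℝ), IsWt Γ w →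
  ∀ (k : ℤ) (f : CuspForm Γ k), f ≠ 0 → 0 < (∫ z, (w z : ℂ) * petersson k f f z).re

/-- P5. Unfolding. -/
def Unfold : Prop := ∀ (Γ : Subgroup SL(2, ℤ)) (w : ℍ → ℝ), IsWt Γ w →
  ∀ (ι : Type) [Fintype ι] (α : ι → GL (Fin 2) ℚ) (P : ι → ℍ → ℂ),
    (∀ i, Continuous (P i)) → (∀ i, ∃ C : ℝ, ∀ z, ‖P i z‖ ≤ C) →
    HasSum (fun x : Γ × ι =>
      ∫ z, ((w z * w (gR (mapGL ℚ (x.1 : SL(2, ℤ)) * α x.2) • z) : ℝ) : ℂ) * P x.2 z)
      (∫ z, (w z : ℂ) * ∑ i, P i z)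

/-- P6. Substitution. -/
def PetSubst : Prop := ∀ (k : ℤ) (w : ℍ → ℝ) (f g : ℍ → ℂ) (α β : GL (Fin 2) ℚ) (c : ℚ), 0 < c →
  α.det.val = c → (β.val * α.val = c • (1 : Matrix (Fin 2) (Fin 2) ℚ)) →
  ∫ z, ((w z * w (gR β • z) : ℝ) : ℂ) * petersson k f (g ∣[k] gR β) z
    = ∫ z, ((w z * w (gR α • z) : ℝ) : ℂ) * petersson k (f ∣[k] gR α) g z

/-- P7. The adjugate on the integral matrices of determinant `l`. -/
def HeckeEquiv : Prop := ∀ (N l : ℕ) (hl : l ≠ 0), l.Prime → ¬ l ∣ N →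
  ∃ e : (Gamma0 N × Option (Fin l)) ≃ (Gamma0 N × Option (Fin l)), ∀ x,
    (mapGL ℚ ((e x).1 : SL(2, ℤ)) * alphaT l hl (e x).2).val *
      (mapGL ℚ (x.1 : SL(2, ℤ)) * alphaT l hl x.2).val = (l : ℚ) • (1 : Matrix (Fin 2) (Fin 2) ℚ)

/-- P8. The Hecke operator as a sum of slashes. -/
def HeckeSlash : Prop := ∀ (N l : ℕ) (hl : l ≠ 0) (k : ℤ) (T : SN N k →ₗ[ℂ] SN N k),
  IsHecke N k l T → ∀ f : SN N k, (⇑(T f) : ℍ → ℂ) = ∑ i, (⇑f) ∣[k] gR (alphaT l hl i)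

/-- P9. -/
def P9Pet : Prop := ∀ N : ℕ, N ≠ 0 → PetSelfAdj N

/-! ### Dimension -/

/-- `Δ ∣ (N 0; 0 1)`, a multiple of `Δ(N z)`. -/
def DN (N : ℕ) (hN : N ≠ 0) : ℍ → ℂ := ModularForm.discriminant ∣[(12 : ℤ)] gR (gV N hN)

/-- L1. -/
def DeltaInv : Prop := ∀ (N : ℕ) (hN : N ≠ 0), IsCuspFun 12 (DN N hN) ∧
  ∀ γ ∈ Gamma0 N, (DN N hN) ∣[(12 : ℤ)] γ = DN N hN

/-- L2. -/
def MulCusp : Prop := ∀ (k m : ℤ) (F : ℍ → ℂ), IsCuspFun k F → ∀ g : ModularForm 𝒮ℒ m,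
  IsCuspFun (k + m) (F * ⇑g)

/-- L3a. -/
def DeltaGrow : Prop := ∃ c C Y : ℝ, 0 < c ∧ ∀ z : ℍ, Y ≤ z.im →
  c * Real.exp (-(2 * Real.pi * z.im)) ≤ ‖ModularForm.discriminant z‖ ∧
  ‖ModularForm.discriminant z‖ ≤ C * Real.exp (-(2 * Real.pi * z.im))

/-- L3b. -/
def MatRed : Prop := ∀ (N : ℕ), N ≠ 0 → ∀ γ : SL(2, ℤ), ∃ (δ : SL(2, ℤ)) (B : ℤ) (g : ℕ),
  g ≠ 0 ∧ g ∣ N ∧ (g = N → (N : ℤ) ∣ γ 1 0) ∧
  !![(N : ℤ), 0; 0, 1] * (γ : Matrix (Fin 2) (Fin 2) ℤ)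
    = (δ : Matrix (Fin 2) (Fin 2) ℤ) * !![(g : ℤ), B; 0, ((N / g : ℕ) : ℤ)]

/-- L3. The stabiliser of `Δ(N z)` (from L3a, L3b). -/
def DeltaStab : Prop := ∀ (N : ℕ) (hN : N ≠ 0) (γ : SL(2, ℤ)),
  (DN N hN) ∣[(12 : ℤ)] γ = DN N hN → γ ∈ Gamma0 N

/-- L4. Vandermonde. -/
def Vander : Prop := ∀ (n : ℕ) (x g : Fin n → ℍ → ℂ), (∀ j, MDiff (x j)) → (∀ i, MDiff (g i)) →
  (∀ j, x j ≠ 0) → Function.Injective x →
  (∀ j z, ∑ i : Fin n, x j z ^ ((i : ℕ) + 1) * g i z = 0) → g = 0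

/-- L5. -/
def DimOne : Prop := ∀ m : ℤ, Even m → m - 11 ≤ 12 * (Module.finrank ℂ (ModularForm 𝒮ℒ m) : ℤ)

/-- L6. The injection (from L1 - L4). -/
def DimInj : Prop := ∀ N : ℕ, N ≠ 0 → ∀ k : ℤ,
  ∃ Ψ : ((i : Fin (Gamma0 N).index) → ModularForm 𝒮ℒ (k - 12 * ((i : ℕ) + 1))) →ₗ[ℂ] SN N k,
    Function.Injective Ψ

/-- L7. (from L5, L6 and `FinDim N`). -/
def L7Dim : Prop := ∀ N : ℕ, N ≠ 0 → FinDim N → DimLower N

end Gou

end
end
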