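import Pool.Agent.Work.MP_602313_nt.Bd.B06
import Pool.Agent.Work.MP_602313_nt.Bd.B15

/-! Bundle of small proof modules (one section per former module). -/

section

/-!
Module B, item BRank (helper30).
-/

open scoped MatrixGroups Polynomial
open CongruenceSubgroup

noncomputable section

namespace Gou

namespace BRankAux

open H30

theorem castSymb_sum_coeff {R : Type} [CommRing R] {r : ℕ} (c : Fin r → ℤ)
    (b : Fin r → Vec → Vec → ℤ[X]) (a a' : Vec) :
    castSymb R (∑ i, c i • b i) a a' = ((∑ i, c i • b i) a a').map (Int.castRingHom R) := rfl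

theorem pPn_le_Pn (p : ℕ) [Fact p.Prime] (n h : ℕ) : pPn p n h ≤ Pn p n := fun _ hf => hf.1

theorem logb_le_of_le_pow {p : ℕ} (hp : 1 < p) {x e : ℕ} (hx : x ≠ 0) (h : x ≤ p ^ e) :
    Real.logb p x ≤ e := by
  have hp' : (1 : ℝ) < p := by exact_mod_cast hp
  rw [Real.logb_le_iff_le_rpow hp' (by exact_mod_cast Nat.pos_of_ne_zero hx), Real.rpow_natCast]
  exact_mod_cast h

theorem bRank_aux (h1 : BCountJK) (h2 : BKK) (h3 : BKerT) (h4 : BDiv) (h5 : BReps) (h6 : BMap)
    (h7 : BProd) (N : ℕ) (hN : N ≠ 0) (n : ℕ) (hn : Even n) (R : ℕ)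
    (b : Fin R → Vec → Vec → ℤ[X]) (hb : IsSymbBasis N n R b) :
    (((n + 1) * R : ℕ) : ℝ) ≤ ((Gamma0 N).index : ℝ) / 6 * (((n + 1) * (n + 1) : ℕ) : ℝ)
      + (4 * ((Gamma0 N).index : ℝ) + 1) * (2 * (n + 1)) := by
  have : Fact (Nat.Prime 2) := ⟨Nat.prime_two⟩
  obtain ⟨hb1, hb2, -⟩ := hb
  set j := n + 1 with hj
  obtain ⟨-, -, -, -, -, -, hS1, hS2⟩ := h7 2
  obtain ⟨kk2, hk2, hk2', -⟩ := h2 2 2 4 mS (Or.inl ⟨rfl, rfl, rfl⟩)
  obtain ⟨kk3, hk3, hk3', -⟩ := h2 2 3 3 mV (Or.inr ⟨rfl, rfl, rfl⟩)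
  have hrel : (pPn 2 n j).relIndex (Pn 2 n) = 2 ^ (j * (n + 1)) := relIndex_pPn 2 n j
  have e1 := hk2 n (fun _ => hn)
  have e2 := hk2' n j (fun _ => hn)
  have e3 := hk3 n (fun h => absurd h (by norm_num))
  have e4 := hk3' n j (fun h => absurd h (by norm_num))
  have e5 := (h3 2 n j).1 (pPn 2 n j) (pPn_le_Pn 2 n j) le_rfl (hS1 n j)
  have hv2 : padicValNat 2 2 = 1 := by simp
  have hv3 : padicValNat 2 3 = 0 := by
    apply padicValNat.eq_zero_of_not_dvd; norm_num
  rw [hv2] at e2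
  rw [hv3] at e4
  have f2 := logb_le_of_le_pow (p := 2) (by norm_num) e2.1 e2.2
  have f4 := logb_le_of_le_pow (p := 2) (by norm_num) e4.1 e4.2
  -- the family
  let ι := Fin R → Fin (2 ^ j)
  let eι : ι ≃ Fin (Fintype.card ι) := Fintype.equivFin ι
  let Φ : ι → Vec → Vec → ℤ[X] := fun c => ∑ i, ((c i : ℕ) : ℤ) • b i
  have hΦ : ∀ c, Φ c ∈ Symb N n ℤ := fun c =>
    Submodule.sum_mem _ fun i _ => Submodule.smul_mem _ _ (hb1 i)
  have hcard : Fintype.card ι = 2 ^ (j * R) := by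
    simp [ι, pow_mul]
  have key := h1 2 N n (Pn 2 n) (pPn 2 n j) ((j * (n + 1) : ℕ) : ℝ) ((j : ℝ) + n + 1) hN hn
    (pPn_le_Pn 2 n j) le_rfl (hS2 n) (hS1 n j) (by rw [hrel]; positivity) (by positivity)
    (by positivity) (by
      rw [hrel]
      have : Real.logb ((2 : ℕ) : ℝ) ((2 ^ (j * (n + 1)) : ℕ) : ℝ) = ((j * (n + 1) : ℕ) : ℝ) := by
        rw [Nat.cast_pow, Real.logb_pow, Real.logb_self_eq_one (by norm_num), mul_one]
      rw [this, sub_self, abs_zero]
      positivity) (by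
      refine f2.trans ?_
      have h8 := (abs_le.mp e1).2
      push_cast at h8 ⊢
      nlinarith [mul_le_mul_of_nonneg_left h8 (by positivity : (0 : ℝ) ≤ (j : ℝ))]) (by
      refine f4.trans ?_
      have h8 := (abs_le.mp e3).2
      push_cast at h8 ⊢
      nlinarith [mul_le_mul_of_nonneg_left h8 (by positivity : (0 : ℝ) ≤ (j : ℝ)),
        (by positivity : (0 : ℝ) ≤ (n : ℝ))]) (by
      refine e5.trans ?_
      linarith)
    (Fintype.card ι) (fun i => castSymb ℤ_[2] (Φ (eι.symm i)))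
    (fun i => castSymb_mem h6 (hΦ _) _)
    (fun i a a' => by
      show (castSymb ℤ_[2] (Φ (eι.symm i)) a a').natDegree ≤ n
      exact (castSymb_mem h6 (hΦ _) ℤ_[2]).1 a a')
    (by
      intro i i' hii
      obtain ⟨g, hg⟩ := h5 N hN
      have hq : ((2 : ℤ) ^ j) ≠ 0 := by positivity
      obtain ⟨ψ, hψ, hψ'⟩ := h4 N n ((2 : ℤ) ^ j) (Φ (eι.symm i) - Φ (eι.symm i')) _ g hg hq
        (Submodule.sub_mem _ (hΦ _) (hΦ _)) (by
          intro k
          apply dvdP_cast (p := 2)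
          have := (hii ((mx (g k)).mulVec c0) ((mx (g k)).mulVec cI)).2
          simpa [castSymb, Polynomial.map_sub] using this)
      obtain ⟨e, he, -⟩ := hb2 ψ hψ
      have huniq : ∀ c c' : Fin R → ℤ, (∑ i, c i • b i = ∑ i, c' i • b i) → c = c' := by
        intro c c' hcc
        obtain ⟨w, hw, hw'⟩ := hb2 (∑ i, c i • b i)
          (Submodule.sum_mem _ fun i _ => Submodule.smul_mem _ _ (hb1 i))
        rw [hw' c rfl, hw' c' hcc]
      have h9 : (fun k => (((eι.symm i) k : ℕ) : ℤ)) =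
          (fun k => (((eι.symm i') k : ℕ) : ℤ) + (2 : ℤ) ^ j * e k) := by
        apply huniq
        simp only [add_smul, Finset.sum_add_distrib, mul_smul]
        rw [← Finset.smul_sum, ← he, ← hψ']
        simp [Φ]
      apply eι.symm.injective
      funext k
      have h10 := congrFun h9 k
      have h11 : (((eι.symm i) k : ℕ) : ℤ) < 2 ^ j := by exact_mod_cast ((eι.symm i) k).2
      have h12 : (((eι.symm i') k : ℕ) : ℤ) < 2 ^ j := by exact_mod_cast ((eι.symm i') k).2
      have h13 : (2 : ℤ) ^ j ∣ (((eι.symm i) k : ℕ) : ℤ) - (((eι.symm i') k : ℕ) : ℤ) :=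
        ⟨e k, by linarith⟩
      have h14 : (((eι.symm i) k : ℕ) : ℤ) - (((eι.symm i') k : ℕ) : ℤ) = 0 := by
        apply Int.eq_zero_of_abs_lt_dvd h13
        rw [abs_lt]
        constructor <;> omega
      exact Fin.ext (by exact_mod_cast sub_eq_zero.mp h14))
  rw [hcard] at key
  have h20 : Real.logb ((2 : ℕ) : ℝ) ((2 ^ (j * R) : ℕ) : ℝ) = ((j * R : ℕ) : ℝ) := by
    rw [Nat.cast_pow, Real.logb_pow, Real.logb_self_eq_one (by norm_num), mul_one]
  rw [h20] at key
  refine key.trans (le_of_eq ?_)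
  rw [hj]
  push_cast
  ring

end BRankAux

open BRankAux in
theorem bRank (h1 : BCountJK) (h2 : BKK) (h3 : BKerT) (h4 : BDiv) (h5 : BReps) (h6 : BMap)
    (h7 : BProd) : BRank := by
  intro N hN
  refine ⟨49 * (Gamma0 N).index + 12, ?_⟩
  intro n hn R b hb
  have key := bRank_aux h1 h2 h3 h4 h5 h6 h7 N hN n hn R b hb
  have hpos : (0 : ℝ) < (n : ℝ) + 1 := by positivity
  have h8 : (R : ℝ) ≤ ((Gamma0 N).index : ℝ) / 6 * ((n : ℝ) + 1)
      + (4 * ((Gamma0 N).index : ℝ) + 1) * 2 := by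
    have h9 : ((n : ℝ) + 1) * R ≤ ((n : ℝ) + 1) * (((Gamma0 N).index : ℝ) / 6 * ((n : ℝ) + 1)
      + (4 * ((Gamma0 N).index : ℝ) + 1) * 2) := by
      push_cast at key
      nlinarith [key]
    exact le_of_mul_le_mul_left h9 hpos
  have h10 : (6 : ℝ) * R ≤ (Gamma0 N).index * n + (49 * (Gamma0 N).index + 12) := by
    nlinarith [h8]
  exact_mod_cast h10

end Gou

end
end

section

/-!
MP_602313_nt, module C1 (helper5): multiplicities of the eigencharacters.
-/

open scoped MatrixGroups ModularForm UpperHalfPlane Manifold Pointwise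
open CongruenceSubgroup UpperHalfPlane Matrix Matrix.SpecialLinearGroup ConjAct OnePoint

noncomputable section

namespace Gou

theorem f1_num (C w : ℕ) : ∃ A : ℝ, ∀ k : ℕ, 2 ≤ k →
    (((Nat.log 2 (C * k) + 1) ^ w : ℕ) : ℝ) ≤ (A * Real.log k + A) ^ A := by
  have hl2 : 0 < Real.log 2 := Real.log_pos (by norm_num)
  have hl2' : 1 / 2 < Real.log 2 := by
    have := Real.log_two_gt_d9
    linarith
  have hC : 0 ≤ Real.log ((C : ℝ) + 1) := Real.log_nonneg (by
    have : (0 : ℝ) ≤ C := Nat.cast_nonneg _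
    linarith)
  set A : ℝ := 2 + Real.log ((C : ℝ) + 1) / Real.log 2 + w with hA
  have hq : 0 ≤ Real.log ((C : ℝ) + 1) / Real.log 2 := div_nonneg hC hl2.le
  have hw : (0 : ℝ) ≤ w := Nat.cast_nonneg _
  refine ⟨A, fun k hk => ?_⟩
  have hk1 : (1 : ℝ) ≤ k := by exact_mod_cast (by omega : 1 ≤ k)
  have hlk : 0 ≤ Real.log k := Real.log_nonneg hk1
  have hbase : ((Nat.log 2 (C * k) : ℕ) : ℝ) + 1 ≤ A * Real.log k + A := by
    have h1 : ((Nat.log 2 (C * k) : ℕ) : ℝ) ≤ Real.log ((C : ℝ) + 1) / Real.log 2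
        + Real.log k / Real.log 2 := by
      by_cases h0 : C * k = 0
      · rw [h0]
        simp only [Nat.log_zero_right, Nat.cast_zero]
        positivity
      · have h2 : (2 : ℝ) ^ (Nat.log 2 (C * k)) ≤ ((C * k : ℕ) : ℝ) := by
          exact_mod_cast Nat.pow_log_le_self 2 h0
        have h3 := Real.log_le_log (by positivity) h2
        rw [Real.log_pow] at h3
        have h4 : Real.log ((C * k : ℕ) : ℝ) ≤ Real.log ((C : ℝ) + 1) + Real.log k := by
          rw [← Real.log_mul (by positivity) (by positivity)]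
          refine Real.log_le_log (by exact_mod_cast Nat.pos_of_ne_zero h0) ?_
          push_cast
          have : (0 : ℝ) ≤ k := by positivity
          nlinarith
        rw [← add_div, le_div_iff₀ hl2]
        linarith
    have h5 : Real.log k / Real.log 2 ≤ 2 * Real.log k := by
      rw [div_le_iff₀ hl2]
      nlinarith
    have h6 : 2 * Real.log k ≤ A * Real.log k := by
      refine mul_le_mul_of_nonneg_right ?_ hlk
      rw [hA]; linarith
    rw [hA] at h6 ⊢
    linarith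
  have hb1 : 1 ≤ A * Real.log k + A := by
    have : 0 ≤ A * Real.log k := mul_nonneg (by rw [hA]; positivity) hlk
    rw [hA] at this ⊢
    linarith
  calc (((Nat.log 2 (C * k) + 1) ^ w : ℕ) : ℝ) = (((Nat.log 2 (C * k) : ℕ) : ℝ) + 1) ^ w := by
        push_cast; rfl
    _ ≤ (A * Real.log k + A) ^ w := by
        refine pow_le_pow_left₀ (by positivity) hbase w
    _ = (A * Real.log k + A) ^ (w : ℝ) := (Real.rpow_natCast _ _).symm
    _ ≤ (A * Real.log k + A) ^ A := by
        refine Real.rpow_le_rpow_of_exponent_le hb1 ?_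
        rw [hA]; linarith

theorem f1Mult (q1 : Q1Exp) (q2 : Q2Uniq) (h4 : H4Sturm) (r4 : R4Count) (r7 : R7Vanish) :
    F1Mult := by
  intro N hN
  obtain ⟨C, hC⟩ := h4 N hN
  obtain ⟨A, hA⟩ := f1_num C N.primeFactors.card
  refine ⟨A, fun k hk χ r f hf hli => ?_⟩
  refine le_trans ?_ (hA k hk)
  have hr4 := r4 N (C * k) hN
  set D := (Finset.Icc 1 (C * k)).filter (fun d => ∀ q ∈ d.primeFactors, q ∣ N) with hD
  suffices h : r ≤ D.card by exact_mod_cast h.trans hr4
  -- the linear map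
  let L : (Fin r → ℂ) →ₗ[ℂ] (D → ℂ) :=
    { toFun := fun c d => ∑ i, c i * aq (f i) d
      map_add' := by
        intro c c'
        funext d
        simp only [Pi.add_apply, add_mul, Finset.sum_add_distrib]
      map_smul' := by
        intro a c
        funext d
        simp only [Pi.smul_apply, smul_eq_mul, mul_assoc, Finset.mul_sum, RingHom.id_apply] }
  have hinj : Function.Injective L := by
    rw [← LinearMap.ker_eq_bot, LinearMap.ker_eq_bot']
    intro c hc
    let G : SN N (k : ℤ) := ∑ i, c i • f i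
    have hGz : ∀ z, G z = ∑ i, c i * f i z := by
      intro z
      have : ∀ s : Finset (Fin r), (∑ i ∈ s, c i • f i) z = ∑ i ∈ s, c i * f i z := by
        intro s
        induction s using Finset.induction_on with
        | empty => simp
        | insert a s ha ih =>
          rw [Finset.sum_insert ha, Finset.sum_insert ha, ← ih]
          rfl
      exact this _
    have hGq : ∀ m, aq G m = ∑ i, c i * aq (f i) m := by
      have e1 := (f2_hasQ q1 hN G).1
      have e2 := HasQ.f2_sum Finset.univ (F := fun i z => c i * f i z)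
        (a := fun i m => c i * aq (f i) m) (fun i _ => (f2_hasQ q1 hN (f i)).1.f2_smul _)
      have e3 : HasQ G (fun m => ∑ i, c i * aq (f i) m) := by
        intro z
        rw [hGz z]
        exact e2 z
      exact fun m => congrFun (q2 _ _ _ e1 e3) m
    have hGe : IsEigen N k χ G := by
      intro l hl hlN T hT
      change T (∑ i, c i • f i) = χ l • ∑ i, c i • f i
      rw [map_sum, Finset.smul_sum]
      refine Finset.sum_congr rfl fun i _ => ?_
      rw [_root_.map_smul, hf i l hl hlN T hT, smul_comm]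
    have hG0 : G = 0 := by
      refine hC k G (r7 N hN k χ G (C * k) hGe ?_)
      intro d hd hd0 hdN
      rw [hGq]
      have hdD : d ∈ D := by
        rw [hD, Finset.mem_filter, Finset.mem_Icc]
        refine ⟨⟨Nat.pos_of_ne_zero hd0, hd⟩, fun q hq => ?_⟩
        exact hdN q (Nat.prime_of_mem_primeFactors hq) (Nat.dvd_of_mem_primeFactors hq)
      exact congrFun hc ⟨d, hdD⟩
    rw [Fintype.linearIndependent_iff] at hli
    funext i
    exact hli c hG0 i
  have := LinearMap.finrank_le_finrank_of_injective hinj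
  simpa using this

end Gou

end
end

section

/-!
MP_602313_nt, module C2, item L3a: growth of the discriminant at infinity.
-/

open scoped MatrixGroups ModularForm UpperHalfPlane Manifold Pointwise Modular
open CongruenceSubgroup UpperHalfPlane Matrix Matrix.SpecialLinearGroup ConjAct OnePoint
open MeasureTheory

noncomputable section

namespace Gou

theorem deltaGrow : DeltaGrow := by
  obtain ⟨a, ha, h1⟩ := ModularForm.exp_isBigO_discriminant.exists_pos
  obtain ⟨b, hb, h2⟩ := (CuspFormClass.exp_decay_atImInfty (h := 1) CuspForm.discriminant one_pos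
    one_mem_strictPeriods_SL).exists_pos
  rw [Asymptotics.isBigOWith_iff] at h1 h2
  have h3 := h1.and h2
  obtain ⟨Y, hY⟩ := (UpperHalfPlane.atImInfty_mem _).mp h3
  refine ⟨a⁻¹, b, Y, inv_pos.mpr ha, fun z hz => ?_⟩
  obtain ⟨h4, h5⟩ := hY z hz
  have e1 : Real.exp (-2 * Real.pi * z.im) = Real.exp (-(2 * Real.pi * z.im)) := by
    congr 1
    ring
  have e2 : Real.exp (-2 * Real.pi * z.im / 1) = Real.exp (-(2 * Real.pi * z.im)) := by
    congr 1
    ring
  rw [e1, Real.norm_of_nonneg (Real.exp_pos _).le] at h4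
  rw [e2, Real.norm_of_nonneg (Real.exp_pos _).le] at h5
  refine ⟨?_, h5⟩
  rw [inv_mul_le_iff₀ ha]
  exact h4

end Gou

end
end

section

/-!
MP_602313_nt, module C2, item L3: the stabiliser of `Δ(N z)`.
-/

open scoped MatrixGroups ModularForm UpperHalfPlane Manifold Pointwise Modular
open CongruenceSubgroup UpperHalfPlane Matrix Matrix.SpecialLinearGroup ConjAct OnePoint
open MeasureTheory

noncomputable section

namespace Gou

theorem l3_gR_mapGL (γ : SL(2, ℤ)) : gR (mapGL ℚ γ) = mapGL ℝ γ := by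
  ext i j
  simp [gR]

theorem l3_disc (δ : SL(2, ℤ)) :
    ModularForm.discriminant ∣[(12 : ℤ)] (mapGL ℝ δ) = ModularForm.discriminant :=
  CuspForm.discriminant.slash_action_eq' _ ⟨δ, rfl⟩

theorem deltaStab (h1 : DeltaGrow) (h2 : MatRed) : DeltaStab := by
  intro N hN γ h
  obtain ⟨δ, B, g, hg0, hgN, hgc, hmat⟩ := h2 N hN γ
  by_cases hgN' : g = N
  · rw [Gamma0_mem, ZMod.intCast_zmod_eq_zero_iff_dvd]
    exact hgc hgN'
  exfalso
  set M := N / g with hMdef
  have hM : g * M = N := Nat.mul_div_cancel' hgN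
  have hM0 : M ≠ 0 := by
    intro h0
    rw [h0, mul_zero] at hM
    exact hN hM.symm
  have hM1 : M ≠ 1 := by
    intro h0
    rw [h0, mul_one] at hM
    exact hgN' hM
  have hgQ : (g : ℚ) ≠ 0 := by exact_mod_cast hg0
  have hMQ : (M : ℚ) ≠ 0 := by exact_mod_cast hM0
  let A : GL (Fin 2) ℚ := GeneralLinearGroup.mkOfDetNeZero !![(g : ℚ), (B : ℚ); 0, (M : ℚ)]
    (by rw [Matrix.det_fin_two_of]; simp [hgQ, hMQ])
  have hA : gV N hN * mapGL ℚ γ = mapGL ℚ δ * A := by
    ext i j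
    have h3 := congrArg (fun m : Matrix (Fin 2) (Fin 2) ℤ => ((m i j : ℤ) : ℚ)) hmat
    fin_cases i <;> fin_cases j <;>
      simpa [gV, A, GeneralLinearGroup.mkOfDetNeZero, Matrix.mul_apply, Fin.sum_univ_two] using h3
  have e1 : gR (gV N hN) * mapGL ℝ γ = mapGL ℝ δ * gR A := by
    rw [← l3_gR_mapGL, ← l3_gR_mapGL, ← map_mul, hA, map_mul]
  have hs : ModularForm.discriminant ∣[(12 : ℤ)] gR A = DN N hN := by
    calc ModularForm.discriminant ∣[(12 : ℤ)] gR A
        = (ModularForm.discriminant ∣[(12 : ℤ)] (mapGL ℝ δ)) ∣[(12 : ℤ)] gR A := by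
          rw [l3_disc]
      _ = ModularForm.discriminant ∣[(12 : ℤ)] (mapGL ℝ δ * gR A) :=
          (SlashAction.slash_mul _ _ _ _).symm
      _ = ModularForm.discriminant ∣[(12 : ℤ)] (gR (gV N hN) * mapGL ℝ γ) := by rw [e1]
      _ = (DN N hN) ∣[(12 : ℤ)] (mapGL ℝ γ) := SlashAction.slash_mul _ _ _ _
      _ = DN N hN := h
  have hdet : (gR A).det.val = (N : ℝ) := by
    rw [← hM]
    simp [gR, A, GeneralLinearGroup.mkOfDetNeZero, Matrix.det_fin_two]
  have hNR : (0 : ℝ) < N := by exact_mod_cast Nat.pos_of_ne_zero hN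
  have hMR : (0 : ℝ) < M := by exact_mod_cast Nat.pos_of_ne_zero hM0
  have hgR : (0 : ℝ) < g := by exact_mod_cast Nat.pos_of_ne_zero hg0
  have hpos : 0 < (gR A).det.val := by rw [hdet]; exact hNR
  have hden : ∀ z : ℍ, denom (gR A) z = (M : ℂ) := by
    intro z
    simp [gR, A, GeneralLinearGroup.mkOfDetNeZero, denom]
  have him : ∀ z : ℍ, (gR A • z).im = g / M * z.im := by
    intro z
    have h4 : ((gR A • z : ℍ) : ℂ) = ((g : ℂ) * z + B) / M := by
      rw [UpperHalfPlane.coe_smul_of_det_pos hpos]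
      simp [gR, A, GeneralLinearGroup.mkOfDetNeZero, num, denom]
    have h5 : (gR A • z).im = (((g : ℂ) * z + B) / M).im := by
      rw [← h4]
      rfl
    rw [h5, Complex.div_natCast_im]
    simp
    ring
  obtain ⟨c, C, Y, hc, hY⟩ := h1
  have hkey : ∀ z : ℍ, Y ≤ (gR A • z).im → Y ≤ N * z.im →
      c * Real.exp (-(2 * Real.pi * (g / M * z.im))) * ((M : ℝ) ^ (12 : ℕ))⁻¹ ≤
        C * Real.exp (-(2 * Real.pi * (N * z.im))) := by
    intro z hz1 hz2
    have h3 := congrFun hs z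
    unfold DN at h3
    rw [slash_pos _ _ hpos, slash_gV, hdet, hden] at h3
    have h4 := congrArg norm h3
    rw [norm_mul, norm_mul, norm_mul] at h4
    have hN11 : (0 : ℝ) < ‖((N : ℂ)) ^ ((12 : ℤ) - 1)‖ := by
      rw [norm_pos_iff]
      exact zpow_ne_zero _ (by exact_mod_cast hN)
    have h5 : ‖ModularForm.discriminant (gR A • z)‖ * ‖(M : ℂ) ^ (-(12 : ℤ))‖ =
        ‖ModularForm.discriminant (mulPt N (Nat.pos_of_ne_zero hN) z)‖ := by
      have h6 : (((N : ℝ) : ℂ)) = (N : ℂ) := by norm_num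
      rw [h6] at h4
      have h7 : ‖(N : ℂ) ^ ((12 : ℤ) - 1)‖ * (‖ModularForm.discriminant (gR A • z)‖ *
          ‖(M : ℂ) ^ (-(12 : ℤ))‖) = ‖(N : ℂ) ^ ((12 : ℤ) - 1)‖ *
          ‖ModularForm.discriminant (mulPt N (Nat.pos_of_ne_zero hN) z)‖ := by
        rw [← h4]
        ring
      exact mul_left_cancel₀ hN11.ne' h7
    have h6 : ‖(M : ℂ) ^ (-(12 : ℤ))‖ = ((M : ℝ) ^ (12 : ℕ))⁻¹ := by
      rw [_root_.zpow_neg, norm_inv]
      congr 1
      have : ((12 : ℤ)) = ((12 : ℕ) : ℤ) := rfl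
      rw [this, zpow_natCast, norm_pow, Complex.norm_natCast]
    have him2 : (mulPt N (Nat.pos_of_ne_zero hN) z).im = N * z.im := by
      change ((N : ℂ) * z).im = _
      simp
    have h7 := (hY (gR A • z) hz1).1
    have h8 := (hY (mulPt N (Nat.pos_of_ne_zero hN) z) (by rw [him2]; exact hz2)).2
    rw [him2, ← h5, h6] at h8
    rw [him] at h7
    refine le_trans ?_ h8
    exact mul_le_mul_of_nonneg_right h7 (by positivity)
  have hdelta : (0 : ℝ) < N - g / M := by
    have hM2 : (2 : ℝ) ≤ M := by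
      have h12 : 1 < M := Nat.lt_of_le_of_ne (Nat.one_le_iff_ne_zero.mpr hM0) (Ne.symm hM1)
      exact_mod_cast h12
    have e2 : (N : ℝ) = g * M := by exact_mod_cast hM.symm
    have h3 : (g : ℝ) / M < g := by
      rw [div_lt_iff₀ hMR]
      nlinarith
    rw [e2]
    nlinarith
  have hbound : ∀ᶠ y : ℝ in Filter.atTop, c * ((M : ℝ) ^ (12 : ℕ))⁻¹ ≤
      C * Real.exp (-(2 * Real.pi * (N - g / M) * y)) := by
    filter_upwards [Filter.eventually_gt_atTop 0, Filter.eventually_ge_atTop (Y / (g / M)),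
      Filter.eventually_ge_atTop (Y / N)] with y hy0 hy1 hy2
    have hgM : (0 : ℝ) < g / M := by positivity
    have h3 := hkey ⟨⟨0, y⟩, hy0⟩ (by
      rw [him]
      change Y ≤ g / M * y
      rw [div_le_iff₀ hgM] at hy1
      linarith) (by
      change Y ≤ N * y
      rw [div_le_iff₀ hNR] at hy2
      linarith)
    change c * Real.exp (-(2 * Real.pi * (g / M * y))) * ((M : ℝ) ^ (12 : ℕ))⁻¹ ≤
        C * Real.exp (-(2 * Real.pi * (N * y))) at h3
    have h4 := mul_le_mul_of_nonneg_right h3 (Real.exp_pos (2 * Real.pi * (g / M * y))).le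
    have e3 : c * Real.exp (-(2 * Real.pi * (g / M * y))) * ((M : ℝ) ^ (12 : ℕ))⁻¹ *
        Real.exp (2 * Real.pi * (g / M * y)) = c * ((M : ℝ) ^ (12 : ℕ))⁻¹ := by
      rw [Real.exp_neg]
      field_simp
    have e4 : C * Real.exp (-(2 * Real.pi * (N * y))) * Real.exp (2 * Real.pi * (g / M * y)) =
        C * Real.exp (-(2 * Real.pi * (N - g / M) * y)) := by
      rw [mul_assoc, ← Real.exp_add]
      congr 2
      ring
    rw [e3, e4] at h4
    exact h4
  have hlim : Filter.Tendsto (fun y : ℝ => C * Real.exp (-(2 * Real.pi * (N - g / M) * y)))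
      Filter.atTop (nhds (C * 0)) := by
    refine Filter.Tendsto.const_mul _ ?_
    have h3 : Filter.Tendsto (fun y : ℝ => 2 * Real.pi * (N - g / M) * y) Filter.atTop
        Filter.atTop := by
      refine Filter.Tendsto.const_mul_atTop ?_ Filter.tendsto_id
      have := Real.pi_pos
      positivity
    exact Real.tendsto_exp_neg_atTop_nhds_zero.comp h3
  have h9 := ge_of_tendsto hlim hbound
  have h10 : 0 < c * ((M : ℝ) ^ (12 : ℕ))⁻¹ := by positivity
  rw [mul_zero] at h9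
  linarith

end Gou

end
end

section

/-!
MP_602313_nt, module C2, item L6: the injection `DimInj` from L1 - L4.
-/

open scoped MatrixGroups ModularForm UpperHalfPlane Manifold Pointwise Modular
open CongruenceSubgroup UpperHalfPlane Matrix Matrix.SpecialLinearGroup ConjAct OnePoint

noncomputable section

namespace Gou

namespace DimInjP

theorem cfMul {k m : ℤ} {F G : ℍ → ℂ} (hF : IsCuspFun k F) (hG : IsCuspFun m G) :
    IsCuspFun (k + m) (F * G) where
  holo := hF.holo.mul hG.holo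
  zero c hc g hg := by
    rw [ModularForm.mul_slash]
    have h1 := hF.zero c hc g hg
    have h2 := hG.zero c hc g hg
    have h3 : Filter.Tendsto ((F ∣[k] g) * (G ∣[m] g)) atImInfty (nhds 0) := by
      have := Filter.Tendsto.mul h1 h2
      rw [mul_zero] at this
      exact this
    have h4 := h3.const_smul |(g.det : ℝ)|
    rw [smul_zero] at h4
    exact h4

theorem powCusp {F : ℍ → ℂ} (hF : IsCuspFun 12 F) :
    ∀ j : ℕ, IsCuspFun (12 * ((j : ℤ) + 1)) (F ^ (j + 1)) := by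
  intro j
  induction j with
  | zero => simpa using hF
  | succ j ih =>
    have h := cfMul ih hF
    rw [pow_succ]
    have e : (12 * (((j + 1 : ℕ) : ℤ) + 1) : ℤ) = 12 * ((j : ℤ) + 1) + 12 := by push_cast; ring
    rw [e]
    exact h

theorem powSlash (F : ℍ → ℂ) (γ : SL(2, ℤ)) :
    ∀ j : ℕ, (F ^ (j + 1)) ∣[(12 * ((j : ℤ) + 1) : ℤ)] γ = (F ∣[(12 : ℤ)] γ) ^ (j + 1) := by
  intro j
  induction j with
  | zero => simp
  | succ j ih =>
    have e : (12 * (((j + 1 : ℕ) : ℤ) + 1) : ℤ) = 12 * ((j : ℤ) + 1) + 12 := by push_cast; ring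
    rw [e, pow_succ, ModularForm.mul_slash_SL2, ih, pow_succ (F ∣[(12 : ℤ)] γ) (j + 1)]

theorem slash_level_one {m : ℤ} (g : ModularForm 𝒮ℒ m) (γ : SL(2, ℤ)) : (⇑g) ∣[m] γ = ⇑g :=
  g.slash_action_eq' _ ⟨γ, rfl⟩

theorem termSlash (F : ℍ → ℂ) (γ : SL(2, ℤ)) (k : ℤ) (j : ℕ)
    (g : ModularForm 𝒮ℒ (k - 12 * ((j : ℤ) + 1))) :
    (F ^ (j + 1) * ⇑g) ∣[k] γ = (F ∣[(12 : ℤ)] γ) ^ (j + 1) * ⇑g := by
  have h := ModularForm.mul_slash_SL2 (12 * ((j : ℤ) + 1)) (k - 12 * ((j : ℤ) + 1)) γ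
    (F ^ (j + 1)) (⇑g)
  rw [powSlash, slash_level_one] at h
  have e : 12 * ((j : ℤ) + 1) + (k - 12 * ((j : ℤ) + 1)) = k := by ring
  rw [e] at h
  exact h

theorem termCusp (h2 : MulCusp) {F : ℍ → ℂ} (hF : IsCuspFun 12 F) (k : ℤ) (j : ℕ)
    (g : ModularForm 𝒮ℒ (k - 12 * ((j : ℤ) + 1))) :
    IsCuspFun k (F ^ (j + 1) * ⇑g) := by
  have h := h2 _ _ _ (powCusp hF j) g
  have e : 12 * ((j : ℤ) + 1) + (k - 12 * ((j : ℤ) + 1)) = k := by ring
  rw [e] at h
  exact h

end DimInjP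

open DimInjP

theorem dimInj (h1 : DeltaInv) (h2 : MulCusp) (h3 : DeltaStab) (h4 : Vander) : DimInj := by
  intro N hN k
  have : NeZero N := ⟨hN⟩
  obtain ⟨hc, hinv⟩ := h1 N hN
  set x0 := DN N hN with hx0
  -- the sum
  let S : ((i : Fin (Gamma0 N).index) → ModularForm 𝒮ℒ (k - 12 * ((i : ℕ) + 1))) → ℍ → ℂ :=
    fun g => ∑ i : Fin (Gamma0 N).index, (x0 ^ ((i : ℕ) + 1) * ⇑(g i))
  have hSslash : ∀ g, ∀ γ : SL(2, ℤ), (S g) ∣[k] γ
      = ∑ i : Fin (Gamma0 N).index, ((x0 ∣[(12 : ℤ)] γ) ^ ((i : ℕ) + 1) * ⇑(g i)) := by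
    intro g γ
    simp only [S]
    rw [SlashAction.sum_slash]
    exact Finset.sum_congr rfl fun i _ => termSlash x0 γ k i (g i)
  have hScusp : ∀ g, IsCuspFun k (S g) := fun g =>
    IsCuspFun.sum _ _ fun i _ => termCusp h2 hc k i (g i)
  have hSinv : ∀ g, ∀ γ ∈ Gamma0 N, (S g) ∣[k] γ = S g := by
    intro g γ hγ
    rw [hSslash, hinv γ hγ]
  refine ⟨{ toFun := fun g => mkCusp (Gamma0 N) (S g) (hScusp g) (hSinv g)
            map_add' := ?_
            map_smul' := ?_ }, ?_⟩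
  · intro a b
    ext z
    simp [S, mul_add, Finset.sum_add_distrib]
  · intro c a
    ext z
    simp [S, Finset.mul_sum]
  rw [← LinearMap.ker_eq_bot, LinearMap.ker_eq_bot']
  intro g hg
  have hS0 : S g = 0 := by
    have := congrArg (fun f : SN N k => (⇑f : ℍ → ℂ)) hg
    simpa using this
  -- representatives
  have hfin : (Gamma0 N).FiniteIndex := inferInstance
  have hcard : Nat.card (SL(2, ℤ) ⧸ Gamma0 N) = (Gamma0 N).index := rfl
  have : Finite (SL(2, ℤ) ⧸ Gamma0 N) := Subgroup.finite_quotient_of_finiteIndex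
  let e : (SL(2, ℤ) ⧸ Gamma0 N) ≃ Fin (Gamma0 N).index := Finite.equivFinOfCardEq hcard
  let γ : Fin (Gamma0 N).index → SL(2, ℤ) := fun j => ((e.symm j).out)⁻¹
  let x : Fin (Gamma0 N).index → ℍ → ℂ := fun j => x0 ∣[(12 : ℤ)] (γ j)
  have hx0ne : x0 ≠ 0 := by
    intro h
    have h' : (DN N hN) = 0 := h
    unfold DN at h'
    rw [SlashAction.slash_eq_zero_iff] at h'
    exact ModularForm.discriminant_ne_zero UpperHalfPlane.I (congrFun h' _)
  have hxh : ∀ j, MDiff (x j) := fun j => hc.holo.slash 12 _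
  have hxne : ∀ j, x j ≠ 0 := by
    intro j h
    exact hx0ne ((SlashAction.slash_eq_zero_iff (12 : ℤ) (γ j) x0).mp h)
  have hxinj : Function.Injective x := by
    intro a b hab
    have h5 : x0 ∣[(12 : ℤ)] (γ a * (γ b)⁻¹) = x0 := by
      have hab' : x0 ∣[(12 : ℤ)] (γ a) = x0 ∣[(12 : ℤ)] (γ b) := hab
      rw [SlashAction.slash_mul, hab', ← SlashAction.slash_mul, mul_inv_cancel,
        SlashAction.slash_one]
    have h6 := h3 N hN _ h5
    have h7 : (e.symm a).out⁻¹ * (e.symm b).out ∈ Gamma0 N := by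
      simpa [γ] using h6
    have h8 : (e.symm a) = (e.symm b) := by
      rw [← (e.symm a).out_eq', ← (e.symm b).out_eq']
      exact QuotientGroup.eq.mpr h7
    exact e.symm.injective h8
  have hv := h4 (Gamma0 N).index x (fun i => ⇑(g i)) hxh (fun i => (g i).holo') hxne hxinj (by
    intro j z
    have h9 := hSslash g (γ j)
    rw [hS0, SlashAction.zero_slash] at h9
    have h10 := congrFun h9 z
    simp only [Pi.zero_apply, Finset.sum_apply, Pi.mul_apply, Pi.pow_apply] at h10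
    exact h10.symm)
  funext i
  apply DFunLike.coe_injective
  exact congrFun hv i

end Gou

end
end

section

/-!
MP_602313_nt, L5: lower bound for the dimension in level one.
-/

open scoped MatrixGroups ModularForm UpperHalfPlane
open UpperHalfPlane

noncomputable section

namespace Gou

theorem dimOne : DimOne := by
  intro m hm
  rcases lt_or_ge m 0 with h | h
  · have : (0 : ℤ) ≤ 12 * (Module.finrank ℂ (ModularForm 𝒮ℒ m) : ℤ) := by positivity
    omega
  · obtain ⟨k, rfl⟩ := Int.eq_ofNat_of_zero_le h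
    have hk : Even k := by exact_mod_cast hm
    have h1 := ModularForm.dimension_level_one k hk
    have h2 : Module.finrank ℂ (ModularForm 𝒮ℒ (k : ℤ)) =
        if k ≡ 2 [MOD 12] then k / 12 else k / 12 + 1 := by
      apply Module.finrank_eq_of_rank_eq
      rw [h1]
    rw [h2]
    split_ifs with h3
    · push_cast
      unfold Nat.ModEq at h3
      omega
    · push_cast
      omega

end Gou

end
end

section

/-!
MP_602313_nt, item EBdry: existence of boundary values.
-/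

open scoped MatrixGroups ModularForm UpperHalfPlane Manifold Pointwise Polynomial
open CongruenceSubgroup UpperHalfPlane Matrix Matrix.SpecialLinearGroup Filter Topology

noncomputable section

namespace Gou

namespace EBdryAux

/-- Every nonzero vector is `c g cI`. -/
lemma exists_vec (r : Vec) (hr : r ≠ 0) : ∃ (c : ℤ) (g : SL(2, ℤ)), c ≠ 0 ∧
    r = c • (mx g).mulVec cI := by
  have hd : Int.gcd (r 0) (r 1) ≠ 0 := by
    intro h
    apply hr
    have h1 := Int.gcd_eq_zero_iff.mp h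
    ext i
    fin_cases i
    · exact h1.1
    · exact h1.2
  obtain ⟨a, ha⟩ := Int.gcd_dvd_left (r 0) (r 1)
  obtain ⟨b, hb⟩ := Int.gcd_dvd_right (r 0) (r 1)
  have hcop : IsCoprime a b := by
    have hd' : ((Int.gcd (r 0) (r 1) : ℕ) : ℤ) ≠ 0 := by exact_mod_cast hd
    have hbez := Int.gcd_eq_gcd_ab (r 0) (r 1)
    refine ⟨Int.gcdA (r 0) (r 1), Int.gcdB (r 0) (r 1), ?_⟩
    have e : ((Int.gcd (r 0) (r 1) : ℕ) : ℤ) * (Int.gcdA (r 0) (r 1) * a + Int.gcdB (r 0) (r 1) * b)
        = ((Int.gcd (r 0) (r 1) : ℕ) : ℤ) * 1 := by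
      rw [mul_one]
      calc ((Int.gcd (r 0) (r 1) : ℕ) : ℤ) * (Int.gcdA (r 0) (r 1) * a + Int.gcdB (r 0) (r 1) * b)
          = (((Int.gcd (r 0) (r 1) : ℕ) : ℤ) * a) * Int.gcdA (r 0) (r 1)
            + (((Int.gcd (r 0) (r 1) : ℕ) : ℤ) * b) * Int.gcdB (r 0) (r 1) := by ring
        _ = r 0 * Int.gcdA (r 0) (r 1) + r 1 * Int.gcdB (r 0) (r 1) := by rw [← ha, ← hb]
        _ = _ := hbez.symm
    exact mul_left_cancel₀ hd' e
  obtain ⟨u, v, huv⟩ := hcop
  refine ⟨Int.gcd (r 0) (r 1), ⟨!![a, -v; b, u], ?_⟩, by exact_mod_cast hd, ?_⟩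
  · rw [Matrix.det_fin_two_of]
    linarith
  · ext i
    fin_cases i
    · have e : (((Int.gcd (r 0) (r 1) : ℕ) : ℤ) • (!![a, -v; b, u]).mulVec cI) 0
          = ((Int.gcd (r 0) (r 1) : ℕ) : ℤ) * a := by
        simp [cI]
      exact ha.trans e.symm
    · have e : (((Int.gcd (r 0) (r 1) : ℕ) : ℤ) • (!![a, -v; b, u]).mulVec cI) 1
          = ((Int.gcd (r 0) (r 1) : ℕ) : ℤ) * b := by
        simp [cI]
      exact hb.trans e.symm

/-- Coefficients of `symAct` are linear in the coefficients. -/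
lemma coeff_symAct (n : ℕ) (A : Matrix (Fin 2) (Fin 2) ℤ) (F : ℂ[X]) (i : ℕ) :
    (symAct n A F).coeff i = ∑ j ∈ Finset.range (n + 1), F.coeff j *
      ((Polynomial.C (A 0 0 : ℂ) * Polynomial.X + Polynomial.C (A 0 1 : ℂ)) ^ j *
      (Polynomial.C (A 1 0 : ℂ) * Polynomial.X + Polynomial.C (A 1 1 : ℂ)) ^ (n - j)).coeff i := by
  unfold symAct
  rw [Polynomial.finsetSum_coeff]
  apply Finset.sum_congr rfl
  intro j _
  rw [mul_assoc, Polynomial.coeff_C_mul]

lemma tendsto_symAct (n : ℕ) (A : Matrix (Fin 2) (Fin 2) ℤ) (F : ℝ → ℂ[X]) (L : ℂ[X])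
    (h : ∀ j, Tendsto (fun y => (F y).coeff j) atTop (𝓝 (L.coeff j))) (i : ℕ) :
    Tendsto (fun y => (symAct n A (F y)).coeff i) atTop (𝓝 ((symAct n A L).coeff i)) := by
  simp only [coeff_symAct]
  exact tendsto_finsetSum _ fun j _ => (h j).mul_const _

lemma mx_mul (g h : SL(2, ℤ)) : mx (g * h) = mx g * mx h := by
  rw [mx, mx, mx, Matrix.SpecialLinearGroup.coe_mul]

lemma frac_aux (a b w : ℂ) (h : a * a = 1) : (a * w + b) / (0 * w + a) = w + a * b := by
  have ha : a ≠ 0 := by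
    intro h0
    rw [h0] at h
    simp at h
  rw [zero_mul, zero_add, div_eq_iff ha]
  linear_combination (-b) * h

/-- Action of `u` fixing the cusp at infinity. -/
lemma smul_vert (u : SL(2, ℤ)) (h10 : u 1 0 = 0) (x y : ℝ) (hy : 0 < y) :
    u • ofComplex ((x : ℂ) + y * Complex.I) =
      ofComplex (((x + (u 0 0 : ℤ) * (u 0 1 : ℤ) : ℝ) : ℂ) + y * Complex.I) := by
  have hdet : u 0 0 * u 1 1 = 1 := by
    have := u.det_coe
    rw [Matrix.det_fin_two] at this
    rw [h10] at this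
    linarith
  have him : 0 < ((x : ℂ) + y * Complex.I).im := by simpa using hy
  have him' : 0 < (((x + (u 0 0 : ℤ) * (u 0 1 : ℤ) : ℝ) : ℂ) + y * Complex.I).im := by
    simpa using hy
  apply UpperHalfPlane.ext
  rw [coe_specialLinearGroup_apply, ofComplex_apply_of_im_pos him, ofComplex_apply_of_im_pos him']
  have h11 : u 1 1 = u 0 0 := by
    rcases Int.isUnit_iff.1 (IsUnit.of_mul_eq_one _ hdet) with h | h
    · rw [h] at hdet ⊢
      linarith
    · rw [h] at hdet ⊢
      linarith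
  have hsq : u 0 0 * u 0 0 = 1 := by rw [h11] at hdet; exact hdet
  have hsqC : ((u 0 0 : ℤ) : ℂ) * ((u 0 0 : ℤ) : ℂ) = 1 := by exact_mod_cast hsq
  have e1 : ((algebraMap ℤ ℝ (u 1 0) : ℝ) : ℂ) = 0 := by rw [h10]; simp
  have e2 : ((algebraMap ℤ ℝ (u 1 1) : ℝ) : ℂ) = ((u 0 0 : ℤ) : ℂ) := by rw [h11]; simp
  have e3 : ((algebraMap ℤ ℝ (u 0 0) : ℝ) : ℂ) = ((u 0 0 : ℤ) : ℂ) := by simp
  have e4 : ((algebraMap ℤ ℝ (u 0 1) : ℝ) : ℂ) = ((u 0 1 : ℤ) : ℂ) := by simp
  rw [e1, e2, e3, e4, frac_aux _ _ _ hsqC]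
  push_cast
  ring

end EBdryAux

open EBdryAux

theorem eBdry (h1 : EPer) (h2 : EPrim) (h3 : EConst) (h4 : EChain) (h5 : ESL) (h6 : BComp)
    (_h7 : BMap) : EBdry := by
  classical
  intro N n hN _hn f P hP
  -- limits
  have hL : ∀ g : SL(2, ℤ), ∃ L : ℂ[X], L.natDegree ≤ n ∧ ∀ (x : ℝ) (i : ℕ),
      Tendsto (fun y : ℝ => (symAct n (mx g) (P (g • ofComplex ((x : ℂ) + y * Complex.I)))).coeff i)
        atTop (𝓝 (L.coeff i)) := by
    intro g
    have hdet : 0 < (mx g).det := by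
      rw [mx, g.det_coe]
      norm_num
    obtain ⟨a, ha, hsum⟩ := h1 N hN ((n : ℤ) + 2) f g
    obtain ⟨hprim, hdec⟩ := h2 n N (⇑f ∣[((n : ℤ) + 2)] g) a hN ha hsum
    have hch := h4 n f P (mx g) hdet hP
    obtain ⟨-, e2, e3⟩ := h5 g hdet
    rw [e3] at hch
    have e4 : (fun z => symAct n (mx g) (P (gR (gA (mx g) hdet) • z))) =
        fun z => symAct n (mx g) (P (g • z)) := by
      funext z
      rw [e2]
    rw [e4] at hch
    obtain ⟨c, hc, hPc⟩ := h3 n _ _ _ hprim hch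
    refine ⟨c, hc, fun x i => ?_⟩
    have h8 := (hdec x i).add_const (c.coeff i)
    rw [zero_add] at h8
    refine h8.congr fun y => ?_
    rw [← Polynomial.coeff_add, ← hPc]
  choose L hL1 hL2 using hL
  -- independence of the choice
  have hinv : ∀ (g u : SL(2, ℤ)), u 1 0 = 0 → L (g * u) = symAct n (mx u) (L g) := by
    intro g u hu
    ext i
    have t1 := hL2 (g * u) 0 i
    have t2 := tendsto_symAct n (mx u) _ (L g)
      (fun j => hL2 g (0 + (u 0 0 : ℤ) * (u 0 1 : ℤ)) j) i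
    refine tendsto_nhds_unique (t1.congr' ?_) t2
    filter_upwards [eventually_gt_atTop 0] with y hy
    rw [mx_mul, (h6 ℂ n (mx g) (mx u) _ (hP.1 _)).1, mul_smul, smul_vert u hu 0 y hy]
  have hwd : ∀ (g g' : SL(2, ℤ)) (c c' : ℤ), c ≠ 0 → c' ≠ 0 →
      c • (mx g).mulVec cI = c' • (mx g').mulVec cI →
      symAct n (mx g⁻¹) (L g) = symAct n (mx g'⁻¹) (L g') := by
    intro g g' c c' hc hc' heq
    have hu : (g⁻¹ * g') 1 0 = 0 := by
      have h8 : (mx g⁻¹).mulVec (c • (mx g).mulVec cI) =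
          (mx g⁻¹).mulVec (c' • (mx g').mulVec cI) := by rw [heq]
      rw [mulVec_smul, mulVec_smul, mulVec_mulVec, mulVec_mulVec, ← mx_mul, ← mx_mul,
        inv_mul_cancel] at h8
      have h9 := congrFun h8 1
      simp [mx, cI] at h9
      rcases h9 with h9 | h9
      · exact absurd h9 hc'
      · simpa [Matrix.SpecialLinearGroup.coe_mul] using h9
    have h8 := hinv g (g⁻¹ * g') hu
    rw [mul_inv_cancel_left] at h8
    rw [h8, ← (h6 ℂ n (mx (g⁻¹ * g')) (mx g'⁻¹) (L g) (hL1 g)).1, ← mx_mul, mul_inv_cancel_right]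
  -- the boundary values
  have hex : ∀ r : Vec, ∃ F : ℂ[X], F.natDegree ≤ n ∧
      (r = 0 → F = 0) ∧ ∀ (c : ℤ) (g : SL(2, ℤ)), c ≠ 0 → r = c • (mx g).mulVec cI →
        F = symAct n (mx g⁻¹) (L g) := by
    intro r
    by_cases hr : r = 0
    · refine ⟨0, by simp, fun _ => rfl, ?_⟩
      intro c g hc hrg
      exfalso
      rw [hr] at hrg
      have h8 : (mx g).mulVec cI = 0 := by
        rcases smul_eq_zero.1 hrg.symm with h | h
        · exact absurd h hc
        · exact h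
      have h9 : (mx g⁻¹).mulVec ((mx g).mulVec cI) = 0 := by rw [h8, mulVec_zero]
      rw [mulVec_mulVec, ← mx_mul, inv_mul_cancel] at h9
      have h10 := congrFun h9 0
      simp [mx, cI, Matrix.mulVec, dotProduct, Fin.sum_univ_two] at h10
    · obtain ⟨d, g0, hd, hrg0⟩ := exists_vec r hr
      refine ⟨symAct n (mx g0⁻¹) (L g0), (h6 ℂ n (mx g0⁻¹) 1 _ (hL1 g0)).2.1,
        fun h => absurd h hr, ?_⟩
      intro c g hc hrg
      exact hwd g0 g d c hd hc (hrg0.symm.trans hrg)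
  choose Pc hPc1 hPc2 hPc3 using hex
  refine ⟨Pc, hPc1, ?_, ?_⟩
  · intro c r hc
    by_cases hr : r = 0
    · rw [hr, smul_zero]
    · obtain ⟨d, g0, hd, hrg0⟩ := exists_vec r hr
      rw [hPc3 r d g0 hd hrg0, hPc3 (c • r) (c * d) g0 (mul_ne_zero hc hd) (by
        rw [mul_smul, ← hrg0])]
  · intro g x i
    have h8 : symAct n (mx g) (Pc ((mx g).mulVec cI)) = L g := by
      rw [hPc3 ((mx g).mulVec cI) 1 g one_ne_zero (by rw [one_smul]),
        ← (h6 ℂ n (mx g⁻¹) (mx g) (L g) (hL1 g)).1, ← mx_mul, inv_mul_cancel]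
      have h9 : mx (1 : SL(2, ℤ)) = 1 := by rw [mx, Matrix.SpecialLinearGroup.coe_one]
      rw [h9]
      exact (h6 ℂ n 1 1 (L g) (hL1 g)).2.2
    rw [h8]
    exact hL2 g x i

end Gou

end
end

section

/-!
MP_602313_nt, item ED: transformation of primitives.
-/

open scoped MatrixGroups ModularForm UpperHalfPlane Polynomial
open UpperHalfPlane Matrix Filter Topology

noncomputable section

namespace Gou

namespace EChainAux

variable (A : Matrix (Fin 2) (Fin 2) ℤ) (hA : 0 < A.det)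

theorem det_gA : (gR (gA A hA)).det.val = (A.det : ℝ) := by
  simp [gR, gA, GeneralLinearGroup.mkOfDetNeZero, Matrix.det_fin_two]

theorem det_pos : 0 < (gR (gA A hA)).det.val := by
  rw [det_gA]
  exact_mod_cast hA

theorem denom_gA (z : ℂ) : denom (gR (gA A hA)) z = (A 1 0 : ℂ) * z + A 1 1 := by
  simp [gR, gA, GeneralLinearGroup.mkOfDetNeZero, denom]

theorem coe_gA (z : ℍ) : ((gR (gA A hA) • z : ℍ) : ℂ) =
    ((A 0 0 : ℂ) * z + A 0 1) / ((A 1 0 : ℂ) * z + A 1 1) := by
  rw [UpperHalfPlane.coe_smul_of_det_pos (det_pos A hA)]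
  simp [gR, gA, GeneralLinearGroup.mkOfDetNeZero, denom, num]

include hA in
theorem den_ne (z : ℍ) : (A 1 0 : ℂ) * z + A 1 1 ≠ 0 := by
  rw [← denom_gA A hA]
  exact denom_ne_zero _ z

/-- The derivative of the action. -/
theorem hasDeriv_smul (z : ℍ) : HasDerivAt (fun w : ℂ => ((gR (gA A hA) • ofComplex w : ℍ) : ℂ))
    ((A.det : ℂ) / ((A 1 0 : ℂ) * z + A 1 1) ^ 2) (z : ℂ) := by
  have h1 : HasDerivAt (fun w : ℂ => ((A 0 0 : ℂ) * w + A 0 1) / ((A 1 0 : ℂ) * w + A 1 1))
      ((((A 0 0 : ℂ) * 1) * ((A 1 0 : ℂ) * z + A 1 1) -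
        ((A 0 0 : ℂ) * z + A 0 1) * ((A 1 0 : ℂ) * 1)) / ((A 1 0 : ℂ) * z + A 1 1) ^ 2) (z : ℂ) := by
    refine HasDerivAt.div ?_ ?_ (den_ne A hA z)
    · exact ((hasDerivAt_id (z : ℂ)).const_mul _).add_const _
    · exact ((hasDerivAt_id (z : ℂ)).const_mul _).add_const _
  have h2 : (((A 0 0 : ℂ) * 1) * ((A 1 0 : ℂ) * z + A 1 1) -
        ((A 0 0 : ℂ) * z + A 0 1) * ((A 1 0 : ℂ) * 1)) = (A.det : ℂ) := by
    rw [Matrix.det_fin_two]
    push_cast
    ring
  rw [h2] at h1
  refine h1.congr_of_eventuallyEq ?_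
  have ho : {w : ℂ | 0 < w.im} ∈ 𝓝 (z : ℂ) := (isOpen_lt continuous_const Complex.continuous_im).mem_nhds z.im_pos
  filter_upwards [ho] with w hw
  rw [ofComplex_apply_of_im_pos hw, coe_gA]

theorem symAct_coeff {R : Type*} [CommRing R] (n : ℕ) (g : Matrix (Fin 2) (Fin 2) ℤ) (f : R[X])
    (i : ℕ) : (symAct n g f).coeff i = ∑ j ∈ Finset.range (n + 1), f.coeff j *
      ((Polynomial.C (g 0 0 : R) * Polynomial.X + Polynomial.C (g 0 1 : R)) ^ j *
        (Polynomial.C (g 1 0 : R) * Polynomial.X + Polynomial.C (g 1 1 : R)) ^ (n - j)).coeff i := by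
  unfold symAct
  rw [Polynomial.finsetSum_coeff]
  refine Finset.sum_congr rfl fun j _ => ?_
  rw [mul_assoc, Polynomial.coeff_C_mul]

theorem symAct_XZ (n : ℕ) (w : ℂ) : symAct n A (XZ n w) =
    ((Polynomial.C (A 0 0 : ℂ) * Polynomial.X + Polynomial.C (A 0 1 : ℂ)) -
      Polynomial.C w * (Polynomial.C (A 1 0 : ℂ) * Polynomial.X + Polynomial.C (A 1 1 : ℂ))) ^ n := by
  unfold symAct XZ
  rw [sub_eq_add_neg (Polynomial.C (A 0 0 : ℂ) * Polynomial.X + Polynomial.C (A 0 1 : ℂ)), add_pow]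
  refine Finset.sum_congr rfl fun j _ => ?_
  have e : (Polynomial.X - Polynomial.C w : ℂ[X]) = Polynomial.X + Polynomial.C (-w) := by
    rw [Polynomial.C_neg, sub_eq_add_neg]
  rw [e, Polynomial.coeff_X_add_C_pow, Polynomial.C_mul, Polynomial.C_pow, Polynomial.C_neg,
    ← neg_mul, mul_pow, Polynomial.C_eq_natCast]
  ring

theorem symAct_XZ' (n : ℕ) (z : ℍ) : symAct n A (XZ n ((gR (gA A hA) • z : ℍ) : ℂ)) =
    Polynomial.C (((A.det : ℂ) / ((A 1 0 : ℂ) * z + A 1 1)) ^ n) * XZ n z := by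
  rw [symAct_XZ, Polynomial.C_pow, XZ, ← mul_pow]
  congr 1
  have hd := den_ne A hA z
  have e1 : (A 0 0 : ℂ) = (A.det : ℂ) / ((A 1 0 : ℂ) * z + A 1 1) +
      ((gR (gA A hA) • z : ℍ) : ℂ) * (A 1 0 : ℂ) := by
    rw [coe_gA, Matrix.det_fin_two]
    push_cast
    field_simp
    ring
  have e2 : (A 0 1 : ℂ) = -((A.det : ℂ) / ((A 1 0 : ℂ) * z + A 1 1)) * z +
      ((gR (gA A hA) • z : ℍ) : ℂ) * (A 1 1 : ℂ) := by
    rw [coe_gA, Matrix.det_fin_two]
    push_cast
    field_simp
    ring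
  generalize ((gR (gA A hA) • z : ℍ) : ℂ) = w at e1 e2 ⊢
  generalize (A.det : ℂ) / ((A 1 0 : ℂ) * z + A 1 1) = q at e1 e2 ⊢
  rw [e1, e2]
  simp only [Polynomial.C_add, Polynomial.C_mul, Polynomial.C_neg]
  ring

end EChainAux

open EChainAux

theorem eChain (h1 : BComp) : EChain := by
  intro n F P A hA hP
  refine ⟨fun z => (h1 ℂ n A 1 _ (hP.1 _)).2.1, fun z i => ?_⟩
  set g := gR (gA A hA) with hg
  -- derivative of the coefficients
  have hc : ∀ j : ℕ, HasDerivAt (fun w : ℂ => (P (g • ofComplex w)).coeff j)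
      (F (g • z) * (XZ n ((g • z : ℍ) : ℂ)).coeff j *
        ((A.det : ℂ) / ((A 1 0 : ℂ) * z + A 1 1) ^ 2)) (z : ℂ) := by
    intro j
    have h2 := hP.2 (g • z) j
    have h3 := hasDeriv_smul A hA z
    have h4 : ((gR (gA A hA) • ofComplex (z : ℂ) : ℍ) : ℂ) = ((g • z : ℍ) : ℂ) := by
      rw [ofComplex_apply]
    have h5 := HasDerivAt.comp (z : ℂ) (h₂ := fun w : ℂ => (P (ofComplex w)).coeff j)
      (by rw [h4]; exact h2) h3
    have h6 : (fun w : ℂ => (P (ofComplex w)).coeff j) ∘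
        (fun w : ℂ => ((gR (gA A hA) • ofComplex w : ℍ) : ℂ)) =
        fun w : ℂ => (P (g • ofComplex w)).coeff j := by
      funext w
      simp only [Function.comp_apply, ofComplex_apply, hg]
    rwa [h6] at h5
  have hsum := HasDerivAt.fun_sum (u := Finset.range (n + 1)) (fun j _ => (hc j).mul_const
    (((Polynomial.C (A 0 0 : ℂ) * Polynomial.X + Polynomial.C (A 0 1 : ℂ)) ^ j *
        (Polynomial.C (A 1 0 : ℂ) * Polynomial.X + Polynomial.C (A 1 1 : ℂ)) ^ (n - j)).coeff i))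
  have e0 : (fun w : ℂ => (symAct n A (P (g • ofComplex w))).coeff i) =
      fun w : ℂ => ∑ j ∈ Finset.range (n + 1), (P (g • ofComplex w)).coeff j *
        (((Polynomial.C (A 0 0 : ℂ) * Polynomial.X + Polynomial.C (A 0 1 : ℂ)) ^ j *
        (Polynomial.C (A 1 0 : ℂ) * Polynomial.X + Polynomial.C (A 1 1 : ℂ)) ^ (n - j)).coeff i) := by
    funext w
    exact symAct_coeff n A _ i
  show HasDerivAt (fun w : ℂ => (symAct n A (P (g • ofComplex w))).coeff i) _ _
  rw [e0]
  refine HasDerivAt.congr_deriv hsum ?_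
  have e1 : ∑ j ∈ Finset.range (n + 1), F (g • z) * (XZ n ((g • z : ℍ) : ℂ)).coeff j *
        ((A.det : ℂ) / ((A 1 0 : ℂ) * z + A 1 1) ^ 2) *
        (((Polynomial.C (A 0 0 : ℂ) * Polynomial.X + Polynomial.C (A 0 1 : ℂ)) ^ j *
        (Polynomial.C (A 1 0 : ℂ) * Polynomial.X + Polynomial.C (A 1 1 : ℂ)) ^ (n - j)).coeff i) =
      F (g • z) * ((A.det : ℂ) / ((A 1 0 : ℂ) * z + A 1 1) ^ 2) *
        (symAct n A (XZ n ((g • z : ℍ) : ℂ))).coeff i := by
    rw [symAct_coeff, Finset.mul_sum]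
    refine Finset.sum_congr rfl fun j _ => ?_
    ring
  rw [e1, hg, symAct_XZ' A hA, Polynomial.coeff_C_mul, slash_pos F _ (det_pos A hA), det_gA,
    denom_gA]
  have hd := den_ne A hA z
  have e2 : (n : ℤ) + 2 - 1 = ((n + 1 : ℕ) : ℤ) := by push_cast; ring
  have e3 : -((n : ℤ) + 2) = -(((n + 2 : ℕ)) : ℤ) := by push_cast; ring
  rw [e2, e3, _root_.zpow_neg, _root_.zpow_natCast, _root_.zpow_natCast, div_pow,
    Complex.ofReal_intCast]
  generalize (A.det : ℂ) = D
  generalize (A 1 0 : ℂ) * z + A 1 1 = q at hd ⊢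
  field_simp
  ring

end Gou

end
end

section

/-!
MP_602313_nt, item EConst: two primitives differ by a constant.
-/

open scoped MatrixGroups ModularForm UpperHalfPlane Manifold Pointwise Polynomial
open CongruenceSubgroup UpperHalfPlane Matrix Matrix.SpecialLinearGroup Filter Topology

noncomputable section

namespace Gou

namespace EConstAux

lemma isOpen_H : IsOpen {w : ℂ | 0 < w.im} := isOpen_lt continuous_const Complex.continuous_im

lemma preconn_H : IsPreconnected {w : ℂ | 0 < w.im} :=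
  (convex_halfSpace_im_gt 0).isPreconnected

end EConstAux

open EConstAux

theorem eConst : EConst := by
  intro n F P P' hP hP'
  refine ⟨P' UpperHalfPlane.I - P UpperHalfPlane.I, ?_, ?_⟩
  · exact (Polynomial.natDegree_sub_le _ _).trans (max_le (hP'.1 _) (hP.1 _))
  · intro z
    ext i
    have key : ∀ w ∈ {w : ℂ | 0 < w.im}, HasDerivAt
        (fun w : ℂ => (P' (ofComplex w)).coeff i - (P (ofComplex w)).coeff i) 0 w := by
      intro w hw
      have h1 := hP.2 ⟨w, hw⟩ i
      have h2 := hP'.2 ⟨w, hw⟩ i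
      have h3 := h2.sub h1
      rw [sub_self] at h3
      exact h3
    have hd : DifferentiableOn ℂ
        (fun w : ℂ => (P' (ofComplex w)).coeff i - (P (ofComplex w)).coeff i) {w : ℂ | 0 < w.im} :=
      fun w hw => (key w hw).differentiableAt.differentiableWithinAt
    have hc := isOpen_H.is_const_of_deriv_eq_zero preconn_H hd (fun w hw => (key w hw).deriv)
      (x := (z : ℂ)) (y := ((UpperHalfPlane.I : ℍ) : ℂ)) z.im_pos (UpperHalfPlane.I : ℍ).im_pos
    simp only [ofComplex_apply] at hc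
    rw [Polynomial.coeff_add, Polynomial.coeff_sub, ← hc]
    ring

end Gou

end
end

section

/-!
MP_602313_nt, module C2, item EEmb (helper30): the Eichler embedding.
-/

open scoped MatrixGroups ModularForm UpperHalfPlane Manifold Pointwise Polynomial
open CongruenceSubgroup UpperHalfPlane Matrix Matrix.SpecialLinearGroup Filter Topology

noncomputable section

namespace Gou

namespace EEmbAux

theorem epsSymb_add (n : ℕ) (φ φ' : Vec → Vec → ℂ[X]) :
    epsSymb n (φ + φ') = epsSymb n φ + epsSymb n φ' := by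
  funext r s
  simp only [epsSymb, Pi.add_apply, symAct_add]

theorem epsSymb_smul (n : ℕ) (c : ℂ) (φ : Vec → Vec → ℂ[X]) :
    epsSymb n (c • φ) = c • epsSymb n φ := by
  funext r s
  simp only [epsSymb, Pi.smul_apply, symAct_smul]

theorem hecke_add (n l : ℕ) (φ φ' : Vec → Vec → ℂ[X]) :
    heckeSymbFun n l (φ + φ') = heckeSymbFun n l φ + heckeSymbFun n l φ' := by
  funext r s
  simp only [heckeSymbFun, Pi.add_apply, symAct_add, Finset.sum_add_distrib]
  ring

theorem hecke_smul (n l : ℕ) (c : ℂ) (φ : Vec → Vec → ℂ[X]) :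
    heckeSymbFun n l (c • φ) = c • heckeSymbFun n l φ := by
  funext r s
  simp only [heckeSymbFun, Pi.smul_apply, symAct_smul, smul_add, Finset.smul_sum]

/-- `ε` as a linear map. -/
def epsL (n : ℕ) : (Vec → Vec → ℂ[X]) →ₗ[ℂ] (Vec → Vec → ℂ[X]) where
  toFun := epsSymb n
  map_add' := epsSymb_add n
  map_smul' c φ := epsSymb_smul n c φ

/-- `T_l` as a linear map. -/
def heckeL (n l : ℕ) : (Vec → Vec → ℂ[X]) →ₗ[ℂ] (Vec → Vec → ℂ[X]) where
  toFun := heckeSymbFun n l
  map_add' := hecke_add n l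
  map_smul' c φ := hecke_smul n l c φ

theorem eval_eps (n : ℕ) (Q : ℂ[X]) (hQ : Q.natDegree ≤ n) (x : ℂ) :
    Polynomial.eval x (symAct n epsM Q) = Polynomial.eval (-x) Q := by
  rw [symAct, Polynomial.eval_finsetSum,
    Polynomial.eval_eq_sum_range' (Nat.lt_succ_iff.mpr hQ)]
  apply Finset.sum_congr rfl
  intro i _
  simp [epsM]

/-- Evaluation of the period of `f` at a rational point. -/
theorem value (hE : EBdry) (hB : EPrim) (hQ : Q1Exp) {N : ℕ} (hN : N ≠ 0) {n : ℕ} (hn : Even n)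
    (φ : SN N ((n : ℤ) + 2) →ₗ[ℂ] (Vec → Vec → ℂ[X]))
    (hφ : ∀ f, φ f ∈ Symb N n ℂ)
    (hφ2 : ∀ (f : SN N ((n : ℤ) + 2)) (P : ℍ → ℂ[X]) (Pc : Vec → ℂ[X]), IsPrim n f P →
      IsBdry n P Pc → ∀ r s, r ≠ 0 → s ≠ 0 → φ f r s = Pc s - Pc r)
    {κ : ℂ} (hκ : ∀ f : SN N ((n : ℤ) + 2),
      Summable (fun m : ℕ => ‖aq f m / (m : ℂ) ^ (n + 1)‖) ∧
      ∀ (P : ℍ → ℂ[X]) (Pc : Vec → ℂ[X]), IsPrim n f P → IsBdry n P Pc →
      ∀ a c : ℤ, 0 < c → IsCoprime a c →
        Polynomial.eval ((a : ℂ) / c) (Pc cI - Pc ![a, c]) =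
          κ * ∑' m : ℕ, aq f m / (m : ℂ) ^ (n + 1) *
            Complex.exp (2 * Real.pi * Complex.I * m * ((a : ℂ) / c)))
    (f : SN N ((n : ℤ) + 2)) (a c : ℤ) (hc : 0 < c) (hac : IsCoprime a c) :
    Polynomial.eval ((a : ℂ) / c) (φ f ![a, c] cI) = κ * ∑' m : ℕ, aq f m / (m : ℂ) ^ (n + 1) *
            Complex.exp (2 * Real.pi * Complex.I * m * ((a : ℂ) / c)) ∧
    Polynomial.eval ((a : ℂ) / c) (epsSymb n (φ f) ![a, c] cI) =
      κ * ∑' m : ℕ, aq f m / (m : ℂ) ^ (n + 1) *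
            Complex.exp (2 * Real.pi * Complex.I * m * (-((a : ℂ) / c))) := by
  have : NeZero N := ⟨hN⟩
  obtain ⟨hq, hq0⟩ := hQ ((n : ℤ) + 2) f (isCuspFun_of_cuspForm f) (H4S.per f)
  have hP : IsPrim n f (fun z => PE n 1 (aq f) z) :=
    (hB n 1 f (aq f) one_ne_zero hq0 (by
      intro z
      have := hq z
      simpa using this)).1
  obtain ⟨Pc, hPc⟩ := hE N n hN hn f _ hP
  have hr : (![a, c] : Vec) ≠ 0 := by
    intro h
    have := congrFun h 1
    simp at this
    omega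
  have hr' : (![-a, c] : Vec) ≠ 0 := by
    intro h
    have := congrFun h 1
    simp at this
    omega
  have hcI : cI ≠ 0 := by
    intro h
    have := congrFun h 0
    simp [cI] at this
  have hcI' : (![-1, 0] : Vec) ≠ 0 := by
    intro h
    have := congrFun h 0
    simp at this
  have hPcI : Pc ![-1, 0] = Pc cI := by
    have := hPc.2.1 (-1) cI (by norm_num)
    rw [← this]
    congr 1
    simp [cI]
  constructor
  · rw [hφ2 f _ Pc hP hPc _ _ hr hcI]
    exact (hκ f).2 _ Pc hP hPc a c hc hac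
  · have e1 : epsM.mulVec ![a, c] = (![-a, c] : Vec) := by
      ext i; fin_cases i <;> simp [epsM, Matrix.mulVec, dotProduct, Fin.sum_univ_two]
    have e2 : epsM.mulVec cI = (![-1, 0] : Vec) := by
      ext i; fin_cases i <;> simp [epsM, cI, Matrix.mulVec, dotProduct, Fin.sum_univ_two]
    simp only [epsSymb]
    rw [e1, e2, eval_eps n _ ((hφ f).1 _ _), hφ2 f _ Pc hP hPc _ _ hr' hcI', hPcI]
    have h3 := (hκ f).2 _ Pc hP hPc (-a) c hc hac.neg_left
    have h4 : (((-a : ℤ) : ℂ) / c) = -((a : ℂ) / c) := by push_cast; ring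
    rw [h4] at h3
    exact h3

end EEmbAux

open EEmbAux in
theorem eEmb (hH : EPhi) (hI : EKappa) (hJ : EFour) (hK : EEps) (hE : EBdry) (hB : EPrim)
    (hQ : Q1Exp) : EEmb := by
  intro N hN
  have : NeZero N := ⟨hN⟩
  obtain ⟨n0, hn0⟩ := hI N hN
  refine ⟨n0, ?_⟩
  intro n hn hev
  obtain ⟨φ, hφ1, hφ2, hφ3⟩ := hH N n hN hev
  obtain ⟨κ, hκ0, hκ⟩ := hn0 n hn hev
  have hsummable : ∀ (f : SN N ((n : ℤ) + 2)) (θ : ℂ), θ.im = 0 →
      Summable (fun m : ℕ => aq f m / (m : ℂ) ^ (n + 1) *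
        Complex.exp (2 * Real.pi * Complex.I * m * θ)) := by
    intro f θ hθ
    apply Summable.of_norm
    have h1 := (hκ f).1
    refine h1.congr ?_
    intro m
    rw [norm_mul, Complex.norm_exp]
    have : (2 * (Real.pi : ℂ) * Complex.I * m * θ).re = 0 := by
      have h2 : θ = ((θ.re : ℝ) : ℂ) := by
        apply Complex.ext <;> simp [hθ]
      rw [h2]
      simp
    rw [this, Real.exp_zero, mul_one]
  have hzero : ∀ (f : SN N ((n : ℤ) + 2)),
      (fun m : ℕ => aq f m / (m : ℂ) ^ (n + 1)) = 0 → f = 0 := by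
    intro f hf
    obtain ⟨hq, hq0⟩ := hQ ((n : ℤ) + 2) f (isCuspFun_of_cuspForm f) (H4S.per f)
    have ha : ∀ m, aq f m = 0 := by
      intro m
      rcases Nat.eq_zero_or_pos m with rfl | hm
      · exact hq0
      · have h1 := congrFun hf m
        have h2 : ((m : ℂ) ^ (n + 1)) ≠ 0 := pow_ne_zero _ (by exact_mod_cast hm.ne')
        simpa [h2, div_eq_zero_iff] using h1
    apply DFunLike.ext
    intro z
    have h3 := hq z
    simp only [ha, zero_mul] at h3
    exact h3.unique hasSum_zero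
  have hθ : ∀ θ : ℚ, ∃ a c : ℤ, 0 < c ∧ IsCoprime a c ∧ (θ : ℂ) = (a : ℂ) / c := by
    intro θ
    refine ⟨θ.num, θ.den, by exact_mod_cast θ.pos, ?_, ?_⟩
    · rw [Int.isCoprime_iff_nat_coprime]
      simpa using θ.reduced
    · rw [Int.cast_natCast]
      exact Rat.cast_def θ
  have hreal : ∀ a c : ℤ, ((a : ℂ) / c).im = 0 := by
    intro a c
    have : ((a : ℂ) / c) = (((a : ℝ) / c : ℝ) : ℂ) := by push_cast; rfl
    rw [this, Complex.ofReal_im]
  have ha0 : ∀ f : SN N ((n : ℤ) + 2), (fun m : ℕ => aq f m / (m : ℂ) ^ (n + 1)) 0 = 0 := by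
    intro f
    simp
  refine ⟨(φ + (epsL n).comp φ).comp (LinearMap.fst ℂ _ _)
    + (φ - (epsL n).comp φ).comp (LinearMap.snd ℂ _ _), ?_, ?_, ?_⟩
  · rw [injective_iff_map_eq_zero]
    rintro ⟨f, g⟩ h
    have h1 : (φ f + epsSymb n (φ f)) + (φ g - epsSymb n (φ g)) = 0 := h
    have h2 : (φ f + epsSymb n (φ f)) - (φ g - epsSymb n (φ g)) = 0 := by
      have h3 := congrArg (epsL n) h1
      rw [map_zero, map_add, map_add, map_sub] at h3
      have e1 : epsL n (epsSymb n (φ f)) = φ f := (hK N n hN hev _ (hφ1 f)).2.1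
      have e2 : epsL n (epsSymb n (φ g)) = φ g := (hK N n hN hev _ (hφ1 g)).2.1
      rw [e1, e2] at h3
      have e3 : epsL n (φ f) = epsSymb n (φ f) := rfl
      have e4 : epsL n (φ g) = epsSymb n (φ g) := rfl
      rw [e3, e4] at h3
      rw [← h3]
      abel
    have h4 : φ f + epsSymb n (φ f) = 0 := by
      have : (2 : ℂ) • (φ f + epsSymb n (φ f)) = 0 := by
        rw [two_smul]
        calc φ f + epsSymb n (φ f) + (φ f + epsSymb n (φ f))
            = ((φ f + epsSymb n (φ f)) + (φ g - epsSymb n (φ g)))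
              + ((φ f + epsSymb n (φ f)) - (φ g - epsSymb n (φ g))) := by abel
          _ = 0 := by rw [h1, h2, add_zero]
      exact (smul_eq_zero.mp this).resolve_left two_ne_zero
    have h5 : φ g - epsSymb n (φ g) = 0 := by
      rw [h4, zero_add] at h1
      exact h1
    have hf : f = 0 := by
      apply hzero
      apply (hJ _ (ha0 f) (hκ f).1).1
      intro θ
      obtain ⟨a, c, hc, hac, hθe⟩ := hθ θ
      obtain ⟨v1, v2⟩ := value hE hB hQ hN hev φ hφ1 hφ2 hκ f a c hc hac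
      rw [hθe]
      simp only [mul_add]
      rw [(hsummable f _ (hreal a c)).tsum_add (hsummable f _ (by
        rw [Complex.neg_im, hreal, neg_zero]))]
      have h6 := congrArg (Polynomial.eval ((a : ℂ) / c)) (congrFun (congrFun h4 ![a, c]) cI)
      rw [Pi.add_apply, Pi.add_apply, Polynomial.eval_add, v1, v2, ← mul_add] at h6
      have h7 : Polynomial.eval ((a : ℂ) / c) ((0 : Vec → Vec → ℂ[X]) ![a, c] cI) = 0 := by
        simp
      rw [h7] at h6
      exact (mul_eq_zero.mp h6).resolve_left hκ0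
    have hg : g = 0 := by
      apply hzero
      apply (hJ _ (ha0 g) (hκ g).1).2
      intro θ
      obtain ⟨a, c, hc, hac, hθe⟩ := hθ θ
      obtain ⟨v1, v2⟩ := value hE hB hQ hN hev φ hφ1 hφ2 hκ g a c hc hac
      rw [hθe]
      simp only [mul_sub]
      rw [(hsummable g _ (hreal a c)).tsum_sub (hsummable g _ (by
        rw [Complex.neg_im, hreal, neg_zero]))]
      have h6 := congrArg (Polynomial.eval ((a : ℂ) / c)) (congrFun (congrFun h5 ![a, c]) cI)
      rw [Pi.sub_apply, Pi.sub_apply, Polynomial.eval_sub, v1, v2, ← mul_sub] at h6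
      have h7 : Polynomial.eval ((a : ℂ) / c) ((0 : Vec → Vec → ℂ[X]) ![a, c] cI) = 0 := by
        simp
      rw [h7] at h6
      exact (mul_eq_zero.mp h6).resolve_left hκ0
    rw [hf, hg]
    rfl
  · rintro ⟨f, g⟩
    show (φ f + epsSymb n (φ f)) + (φ g - epsSymb n (φ g)) ∈ Symb N n ℂ
    exact Submodule.add_mem _ (Submodule.add_mem _ (hφ1 f) (hK N n hN hev _ (hφ1 f)).1)
      (Submodule.sub_mem _ (hφ1 g) (hK N n hN hev _ (hφ1 g)).1)
  · intro l hl hlN T hT f g
    show (φ (T f) + epsSymb n (φ (T f))) + (φ (T g) - epsSymb n (φ (T g)))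
      = heckeL n l ((φ f + epsSymb n (φ f)) + (φ g - epsSymb n (φ g)))
    rw [map_add, map_add, map_sub]
    have e1 : ∀ f, heckeL n l (epsSymb n (φ f)) = epsSymb n (φ (T f)) := by
      intro f
      rw [hφ3 l hl hlN T hT f]
      exact (hK N n hN hev _ (hφ1 f)).2.2 l hl hlN
    have e2 : ∀ f, heckeL n l (φ f) = φ (T f) := fun f => (hφ3 l hl hlN T hT f).symm
    rw [e1, e1, e2, e2]

end Gou

end
end

section

/-!
MP_602313_nt, module C2, item EEps: the involution `diag(-1, 1)` on modular symbols.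
-/

open scoped MatrixGroups Polynomial
open CongruenceSubgroup

noncomputable section

namespace Gou

namespace EEpsAux

/-- The action of an integer matrix on functions of two cusps. -/
def act (n : ℕ) (A : Matrix (Fin 2) (Fin 2) ℤ) (φ : Vec → Vec → ℂ[X]) : Vec → Vec → ℂ[X] :=
  fun r s => symAct n A (φ (A.mulVec r) (A.mulVec s))

theorem act_mul (h6 : BComp) (n : ℕ) (A B : Matrix (Fin 2) (Fin 2) ℤ) (φ : Vec → Vec → ℂ[X])
    (hφ : ∀ r s, (φ r s).natDegree ≤ n) : act n (A * B) φ = act n B (act n A φ) := by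
  funext r s
  unfold act
  rw [← Matrix.mulVec_mulVec, ← Matrix.mulVec_mulVec]
  exact (h6 ℂ n A B _ (hφ _ _)).1

theorem act_one (h6 : BComp) (n : ℕ) (φ : Vec → Vec → ℂ[X])
    (hφ : ∀ r s, (φ r s).natDegree ≤ n) : act n 1 φ = φ := by
  funext r s
  unfold act
  rw [Matrix.one_mulVec, Matrix.one_mulVec]
  exact (h6 ℂ n 1 1 _ (hφ _ _)).2.2

theorem act_deg (h6 : BComp) (n : ℕ) (A : Matrix (Fin 2) (Fin 2) ℤ) (φ : Vec → Vec → ℂ[X])
    (hφ : ∀ r s, (φ r s).natDegree ≤ n) : ∀ r s, (act n A φ r s).natDegree ≤ n :=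
  fun _ _ => (h6 ℂ n A 1 _ (hφ _ _)).2.1

theorem eps_eq (n : ℕ) (φ : Vec → Vec → ℂ[X]) : epsSymb n φ = act n epsM φ := rfl

theorem hecke_eq (n l : ℕ) (φ : Vec → Vec → ℂ[X]) : heckeSymbFun n l φ =
    fun r s => ∑ j ∈ Finset.range l, act n (repU l j) φ r s + act n (repV l) φ r s := rfl

theorem eps_sq : epsM * epsM = 1 := by
  ext i j
  fin_cases i <;> fin_cases j <;> simp [epsM]

theorem eps_mulVec_eps (r : Vec) : epsM.mulVec (epsM.mulVec r) = r := by
  rw [Matrix.mulVec_mulVec, eps_sq, Matrix.one_mulVec]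

theorem eps_ne (r : Vec) (hr : r ≠ 0) : epsM.mulVec r ≠ 0 := by
  intro h
  apply hr
  rw [← eps_mulVec_eps r, h, Matrix.mulVec_zero]

/-- Conjugation by `epsM` preserves `Gamma0 N`. -/
theorem conj_mem (N : ℕ) (γ : SL(2, ℤ)) (hγ : γ ∈ Gamma0 N) :
    ∃ γ' : SL(2, ℤ), γ' ∈ Gamma0 N ∧ epsM * mx γ = mx γ' * epsM := by
  have hdet := γ.det_coe
  rw [Matrix.det_fin_two] at hdet
  obtain ⟨γ', h00, h01, h10, h11⟩ : ∃ γ' : SL(2, ℤ), γ' 0 0 = γ 0 0 ∧ γ' 0 1 = - γ 0 1 ∧
      γ' 1 0 = - γ 1 0 ∧ γ' 1 1 = γ 1 1 := by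
    refine ⟨⟨!![γ 0 0, - γ 0 1; - γ 1 0, γ 1 1], ?_⟩, rfl, rfl, rfl, rfl⟩
    rw [Matrix.det_fin_two]
    simp only [Matrix.of_apply, Matrix.cons_val', Matrix.cons_val_zero, Matrix.cons_val_one,
      Matrix.cons_val_fin_one]
    linear_combination hdet
  refine ⟨γ', ?_, ?_⟩
  · rw [Gamma0_mem] at hγ ⊢
    rw [h10, Int.cast_neg, hγ, neg_zero]
  · ext i j
    fin_cases i <;> fin_cases j <;>
      simp [epsM, mx, Matrix.mul_apply, Fin.sum_univ_two, h00, h01, h10, h11]

/-- Translations. -/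
theorem trans_mem (N : ℕ) (t : ℤ) : ∃ γ : SL(2, ℤ), γ ∈ Gamma0 N ∧ mx γ = !![1, t; 0, 1] := by
  refine ⟨⟨!![1, t; 0, 1], by simp [Matrix.det_fin_two]⟩, ?_, rfl⟩
  exact Gamma0_mem.mpr (by simp)

theorem repU_eps (l j : ℕ) (hj : j < l) :
    ∃ t : ℤ, epsM * repU l j = !![1, t; 0, 1] * (repU l ((l - j) % l) * epsM) := by
  by_cases h0 : j = 0
  · subst h0
    refine ⟨0, ?_⟩
    ext i k
    fin_cases i <;> fin_cases k <;> simp [epsM, repU]
  · refine ⟨-1, ?_⟩
    have h1 : (l - j) % l = l - j := Nat.mod_eq_of_lt (by omega)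
    rw [h1]
    have h2 : ((l - j : ℕ) : ℤ) = (l : ℤ) - j := by
      rw [Nat.cast_sub hj.le]
    ext i k
    fin_cases i <;> fin_cases k <;> simp [epsM, repU, h2] <;> ring

theorem repV_eps (l : ℕ) : epsM * repV l = repV l * epsM := by
  ext i k
  fin_cases i <;> fin_cases k <;> simp [epsM, repV]

theorem sum_perm (l : ℕ) (f : ℕ → ℂ[X]) :
    ∑ j ∈ Finset.range l, f ((l - j) % l) = ∑ j ∈ Finset.range l, f j := by
  have key : ∀ j ∈ Finset.range l, (l - (l - j) % l) % l = j := by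
    intro j hj
    have hj' := Finset.mem_range.1 hj
    by_cases h0 : j = 0
    · subst h0
      simp
    · rw [Nat.mod_eq_of_lt (show l - j < l by omega), Nat.mod_eq_of_lt (by omega)]
      omega
  have mem : ∀ j ∈ Finset.range l, (l - j) % l ∈ Finset.range l := by
    intro j hj
    have hj' := Finset.mem_range.1 hj
    exact Finset.mem_range.2 (Nat.mod_lt _ (by omega))
  exact Finset.sum_nbij' (fun j => (l - j) % l) (fun j => (l - j) % l) mem mem key key
    (fun _ _ => rfl)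

theorem symAct_sumC (s : Finset ℕ) (n : ℕ) (g : Matrix (Fin 2) (Fin 2) ℤ) (f : ℕ → ℂ[X]) :
    symAct n g (∑ i ∈ s, f i) = ∑ i ∈ s, symAct n g (f i) := by
  classical
  induction s using Finset.induction_on with
  | empty => simp [symAct_zero]
  | insert a s ha ih => rw [Finset.sum_insert ha, Finset.sum_insert ha, symAct_add, ih]

theorem act_add_pt (n : ℕ) (A : Matrix (Fin 2) (Fin 2) ℤ) (s : Finset ℕ)
    (φ : ℕ → Vec → Vec → ℂ[X]) (ψ : Vec → Vec → ℂ[X]) (r t : Vec) :
    act n A (fun r t => ∑ j ∈ s, φ j r t + ψ r t) r t =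
      ∑ j ∈ s, act n A (φ j) r t + act n A ψ r t := by
  unfold act
  rw [symAct_add, symAct_sumC]

end EEpsAux

open EEpsAux in
/-- EK. The involution. -/
theorem eEps (h6 : BComp) : EEps := by
  intro N n _ _ φ hφ
  obtain ⟨hd, hz, hc, hs, hg⟩ := hφ
  have hg' : ∀ γ ∈ Gamma0 N, act n (mx γ) φ = φ := by
    intro γ hγ
    funext r s
    exact hg γ hγ r s
  refine ⟨⟨?_, ?_, ?_, ?_, ?_⟩, ?_, ?_⟩
  · exact act_deg h6 n epsM φ hd
  · intro r s h
    have : φ (epsM.mulVec r) (epsM.mulVec s) = 0 := by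
      apply hz
      rcases h with h | h
      · left; rw [h, Matrix.mulVec_zero]
      · right; rw [h, Matrix.mulVec_zero]
    unfold epsSymb
    rw [this, symAct_zero]
  · intro r s t hr hs' ht
    unfold epsSymb
    rw [← symAct_add, hc _ _ _ (eps_ne r hr) (eps_ne s hs') (eps_ne t ht)]
  · intro c r s hc'
    unfold epsSymb
    rw [Matrix.mulVec_smul, hs c _ _ hc']
  · intro γ hγ r s
    obtain ⟨γ', hγ', e⟩ := conj_mem N γ hγ
    change act n (mx γ) (act n epsM φ) r s = act n epsM φ r s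
    rw [← act_mul h6 n epsM (mx γ) φ hd, e, act_mul h6 n (mx γ') epsM φ hd, hg' γ' hγ']
  · rw [eps_eq, eps_eq, ← act_mul h6 n epsM epsM φ hd, eps_sq, act_one h6 n φ hd]
  · intro l _ _
    have h1 : ∀ j ∈ Finset.range l, act n (repU l j) (act n epsM φ) =
        act n epsM (act n (repU l ((l - j) % l)) φ) := by
      intro j hj
      obtain ⟨t, ht⟩ := repU_eps l j (Finset.mem_range.1 hj)
      obtain ⟨γ, hγ, e⟩ := trans_mem N t
      rw [← act_mul h6 n epsM _ φ hd, ht, ← e, act_mul h6 n (mx γ) _ φ hd, hg' γ hγ,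
        act_mul h6 n _ epsM φ hd]
    have h2 : act n (repV l) (act n epsM φ) = act n epsM (act n (repV l) φ) := by
      rw [← act_mul h6 n epsM _ φ hd, repV_eps, act_mul h6 n _ epsM φ hd]
    funext r s
    have e1 : heckeSymbFun n l (epsSymb n φ) r s =
        ∑ j ∈ Finset.range l, act n (repU l j) (act n epsM φ) r s
          + act n (repV l) (act n epsM φ) r s := rfl
    have e2 : epsSymb n (heckeSymbFun n l φ) r s =
        act n epsM (fun r t => ∑ j ∈ Finset.range l, act n (repU l j) φ r t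
          + act n (repV l) φ r t) r s := rfl
    have e3 := act_add_pt n epsM (Finset.range l) (fun j => act n (repU l j) φ)
      (act n (repV l) φ) r s
    have e4 : ∑ j ∈ Finset.range l, act n (repU l j) (act n epsM φ) r s =
        ∑ j ∈ Finset.range l, act n epsM (act n (repU l j) φ) r s := by
      rw [← sum_perm l (fun j => act n epsM (act n (repU l j) φ) r s)]
      exact Finset.sum_congr rfl fun j hj => by rw [h1 j hj]
    rw [e1, e2, h2, e4]
    exact e3.symm

end Gou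

end
end

section

/-!
MP_602313_nt, item EJ: cosine and sine series vanishing at the rational numbers.
-/

open Filter Topology

noncomputable section

namespace Gou

namespace EFourAux

/-- Orthogonality. -/
theorem orth (M : ℕ) (hM : 0 < M) (n : ℤ) :
    ∑ j ∈ Finset.range M, Complex.exp (2 * Real.pi * Complex.I * n * (j / M)) =
      if (M : ℤ) ∣ n then (M : ℂ) else 0 := by
  have hM0 : (M : ℂ) ≠ 0 := by exact_mod_cast hM.ne'
  set x : ℂ := Complex.exp (2 * Real.pi * Complex.I * n / M) with hx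
  have h1 : ∀ j : ℕ, Complex.exp (2 * Real.pi * Complex.I * n * (j / M)) = x ^ j := by
    intro j
    rw [hx, ← Complex.exp_nat_mul]
    congr 1
    field_simp
  rw [Finset.sum_congr rfl fun j _ => h1 j]
  have hxM : x ^ M = 1 := by
    rw [hx, ← Complex.exp_nat_mul, Complex.exp_eq_one_iff]
    exact ⟨n, by field_simp⟩
  by_cases hd : (M : ℤ) ∣ n
  · rw [if_pos hd]
    obtain ⟨c, hc⟩ := hd
    have hx1 : x = 1 := by
      rw [hx, Complex.exp_eq_one_iff]
      refine ⟨c, ?_⟩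
      rw [hc]
      push_cast
      field_simp
    rw [hx1]
    simp
  · rw [if_neg hd]
    have hx1 : x ≠ 1 := by
      intro h
      rw [hx, Complex.exp_eq_one_iff] at h
      obtain ⟨c, hc⟩ := h
      apply hd
      refine ⟨c, ?_⟩
      have hpi : (2 * Real.pi * Complex.I : ℂ) ≠ 0 := Complex.two_pi_I_ne_zero
      have h2 : (n : ℂ) = M * c := by
        have h3 : (2 * Real.pi * Complex.I : ℂ) * n = (2 * Real.pi * Complex.I) * (M * c) := by
          rw [div_eq_iff hM0] at hc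
          rw [hc]
          ring
        exact mul_left_cancel₀ hpi h3
      exact_mod_cast h2
    rw [geom_sum_eq hx1, hxM, sub_self, zero_div]

theorem norm_exp_one (x : ℂ) (hx : x.im = 0) : ‖Complex.exp (2 * Real.pi * Complex.I * x)‖ = 1 := by
  rw [Complex.norm_exp]
  have : (2 * Real.pi * Complex.I * x).re = 0 := by
    simp [hx]
  rw [this, Real.exp_zero]

theorem core (a : ℕ → ℂ) (ha : Summable fun m => ‖a m‖) (s : ℂ) (hs : ‖s‖ ≤ 1)
    (h : ∀ θ : ℚ, ∑' m : ℕ, a m * (Complex.exp (2 * Real.pi * Complex.I * m * (θ : ℂ))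
      + s * Complex.exp (2 * Real.pi * Complex.I * m * (-(θ : ℂ)))) = 0) (k : ℕ) (hk : 1 ≤ k) :
    a k = 0 := by
  -- the averages
  have key : ∀ M : ℕ, 0 < M → ∑' m : ℕ, a m * ((if (M : ℤ) ∣ (m : ℤ) - k then (1 : ℂ) else 0) +
      s * (if (M : ℤ) ∣ -(m : ℤ) - k then (1 : ℂ) else 0)) = 0 := by
    intro M hM
    have hM0 : (M : ℂ) ≠ 0 := by exact_mod_cast hM.ne'
    have hterm : ∀ (j m : ℕ), Complex.exp (2 * Real.pi * Complex.I * (-(k : ℂ)) * (j / M)) *
        (a m * (Complex.exp (2 * Real.pi * Complex.I * m * (((j / M : ℚ)) : ℂ))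
          + s * Complex.exp (2 * Real.pi * Complex.I * m * (-((j / M : ℚ) : ℂ))))) =
        a m * (Complex.exp (2 * Real.pi * Complex.I * ((m : ℤ) - k : ℤ) * (j / M)) +
          s * Complex.exp (2 * Real.pi * Complex.I * (-(m : ℤ) - k : ℤ) * (j / M))) := by
      intro j m
      have e1 : Complex.exp (2 * Real.pi * Complex.I * ((m : ℤ) - k : ℤ) * (j / M)) =
          Complex.exp (2 * Real.pi * Complex.I * (-(k : ℂ)) * (j / M)) *
            Complex.exp (2 * Real.pi * Complex.I * m * (((j / M : ℚ)) : ℂ)) := by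
        rw [← Complex.exp_add]
        congr 1
        push_cast
        ring
      have e2 : Complex.exp (2 * Real.pi * Complex.I * (-(m : ℤ) - k : ℤ) * (j / M)) =
          Complex.exp (2 * Real.pi * Complex.I * (-(k : ℂ)) * (j / M)) *
            Complex.exp (2 * Real.pi * Complex.I * m * (-((j / M : ℚ) : ℂ))) := by
        rw [← Complex.exp_add]
        congr 1
        push_cast
        ring
      rw [e1, e2]
      ring
    have hsm : ∀ j : ℕ, Summable fun m : ℕ =>
        a m * (Complex.exp (2 * Real.pi * Complex.I * ((m : ℤ) - k : ℤ) * (j / M)) +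
          s * Complex.exp (2 * Real.pi * Complex.I * (-(m : ℤ) - k : ℤ) * (j / M))) := by
      intro j
      refine Summable.of_norm_bounded (ha.mul_right 2) fun m => ?_
      rw [norm_mul]
      refine mul_le_mul_of_nonneg_left ?_ (norm_nonneg _)
      refine (norm_add_le _ _).trans ?_
      have i1 : (((m : ℤ) - k : ℤ) * ((j : ℂ) / M)).im = 0 := by
        have : (((m : ℤ) - k : ℤ) * ((j : ℂ) / M)) = ((((m : ℤ) - k : ℤ) * ((j : ℝ) / M) : ℝ) : ℂ) := by
          push_cast
          ring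
        rw [this, Complex.ofReal_im]
      have i2 : ((-(m : ℤ) - k : ℤ) * ((j : ℂ) / M)).im = 0 := by
        have : ((-(m : ℤ) - k : ℤ) * ((j : ℂ) / M)) = (((-(m : ℤ) - k : ℤ) * ((j : ℝ) / M) : ℝ) : ℂ) := by
          push_cast
          ring
        rw [this, Complex.ofReal_im]
      rw [norm_mul, mul_assoc (2 * (Real.pi : ℂ) * Complex.I), norm_exp_one _ i1,
        mul_assoc (2 * (Real.pi : ℂ) * Complex.I), norm_exp_one _ i2]
      linarith
    have h0 : ∑ j ∈ Finset.range M, ∑' m : ℕ,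
        a m * (Complex.exp (2 * Real.pi * Complex.I * ((m : ℤ) - k : ℤ) * (j / M)) +
          s * Complex.exp (2 * Real.pi * Complex.I * (-(m : ℤ) - k : ℤ) * (j / M))) = 0 := by
      refine Finset.sum_eq_zero fun j _ => ?_
      rw [← tsum_congr (hterm j), tsum_mul_left, h, mul_zero]
    rw [← Summable.tsum_finsetSum fun j _ => hsm j] at h0
    have h1 : ∀ m : ℕ, ∑ j ∈ Finset.range M,
        a m * (Complex.exp (2 * Real.pi * Complex.I * ((m : ℤ) - k : ℤ) * (j / M)) +
          s * Complex.exp (2 * Real.pi * Complex.I * (-(m : ℤ) - k : ℤ) * (j / M))) =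
        (M : ℂ) * (a m * ((if (M : ℤ) ∣ (m : ℤ) - k then (1 : ℂ) else 0) +
          s * (if (M : ℤ) ∣ -(m : ℤ) - k then (1 : ℂ) else 0))) := by
      intro m
      rw [← Finset.mul_sum, Finset.sum_add_distrib, ← Finset.mul_sum, orth M hM, orth M hM]
      by_cases c1 : (M : ℤ) ∣ (m : ℤ) - k <;> by_cases c2 : (M : ℤ) ∣ -(m : ℤ) - k <;>
        simp [c1, c2] <;> ring
    rw [tsum_congr h1, tsum_mul_left] at h0
    exact (mul_eq_zero.1 h0).resolve_left hM0
  have lim : Tendsto (fun M : ℕ => ∑' m : ℕ, a m * ((if (M : ℤ) ∣ (m : ℤ) - k then (1 : ℂ) else 0) +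
      s * (if (M : ℤ) ∣ -(m : ℤ) - k then (1 : ℂ) else 0))) atTop
      (𝓝 (∑' m : ℕ, if m = k then a k else 0)) := by
    refine tendsto_tsum_of_dominated_convergence (bound := fun m => ‖a m‖ * 2) (ha.mul_right 2) ?_ ?_
    · intro m
      refine tendsto_const_nhds.congr' ?_
      filter_upwards [eventually_gt_atTop (m + k)] with M hM
      have c2 : ¬ (M : ℤ) ∣ -(m : ℤ) - k := by
        intro hd
        have h3 : (M : ℤ) ∣ (m : ℤ) + k := by
          have := (dvd_neg).2 hd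
          rwa [show -(-(m : ℤ) - k) = (m : ℤ) + k by ring] at this
        have := Int.le_of_dvd (by omega) h3
        omega
      by_cases hmk : m = k
      · subst hmk
        simp [c2]
      · have c1 : ¬ (M : ℤ) ∣ (m : ℤ) - k := by
          intro hd
          have h3 : (m : ℤ) - k ≠ 0 := by omega
          have h4 := Int.le_of_dvd (by positivity) ((dvd_abs _ _).2 hd)
          rcases abs_cases ((m : ℤ) - k) with h5 | h5 <;> omega
        simp [c1, c2, hmk]
    · refine Eventually.of_forall fun M m => ?_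
      rw [norm_mul]
      refine mul_le_mul_of_nonneg_left ?_ (norm_nonneg _)
      refine (norm_add_le _ _).trans ?_
      rw [norm_mul]
      have j1 : ‖(if (M : ℤ) ∣ (m : ℤ) - k then (1 : ℂ) else 0)‖ ≤ 1 := by
        split_ifs <;> simp
      have j2 : ‖(if (M : ℤ) ∣ -(m : ℤ) - k then (1 : ℂ) else 0)‖ ≤ 1 := by
        split_ifs <;> simp
      have := mul_le_mul hs j2 (norm_nonneg _) zero_le_one
      linarith
  have lim0 : Tendsto (fun M : ℕ => ∑' m : ℕ, a m * ((if (M : ℤ) ∣ (m : ℤ) - k then (1 : ℂ) else 0) +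
      s * (if (M : ℤ) ∣ -(m : ℤ) - k then (1 : ℂ) else 0))) atTop (𝓝 0) := by
    refine tendsto_const_nhds.congr' ?_
    filter_upwards [eventually_gt_atTop 0] with M hM
    exact (key M hM).symm
  have h2 := tendsto_nhds_unique lim lim0
  rwa [tsum_ite_eq] at h2

end EFourAux

theorem eFour : EFour := by
  intro a ha0 ha
  constructor
  · intro h
    funext k
    rcases Nat.eq_zero_or_pos k with hk | hk
    · rw [hk, ha0]
      rfl
    · refine EFourAux.core a ha 1 (by simp) (fun θ => ?_) k hk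
      rw [← h θ]
      simp only [one_mul]
  · intro h
    funext k
    rcases Nat.eq_zero_or_pos k with hk | hk
    · rw [hk, ha0]
      rfl
    · refine EFourAux.core a ha (-1) (by simp) (fun θ => ?_) k hk
      rw [← h θ]
      simp only [neg_mul, one_mul, sub_eq_add_neg]

end Gou

end
end

section

/-!
MP_602313_nt, module C2, item EKappa: the value of the Eichler integral at the cusp itself.
-/

open scoped MatrixGroups ModularForm UpperHalfPlane Manifold Pointwise Polynomial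
open CongruenceSubgroup UpperHalfPlane Matrix Matrix.SpecialLinearGroup Filter Topology

noncomputable section

namespace Gou

namespace EKappaAux

/-- The coefficient of `X^n` of `F * g`. -/
lemma coeff_symAct_top (n : ℕ) (g : Matrix (Fin 2) (Fin 2) ℤ) (F : ℂ[X]) :
    (symAct n g F).coeff n =
      ∑ i ∈ Finset.range (n + 1), F.coeff i * (g 0 0 : ℂ) ^ i * (g 1 0 : ℂ) ^ (n - i) := by
  unfold symAct
  rw [Polynomial.finsetSum_coeff]
  refine Finset.sum_congr rfl fun i hi => ?_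
  have hi' : i ≤ n := Nat.lt_succ_iff.1 (Finset.mem_range.1 hi)
  have h1 : ∀ a b : ℂ, (Polynomial.C a * Polynomial.X + Polynomial.C b).natDegree ≤ 1 :=
    fun a b => Polynomial.natDegree_linear_le
  have h2 : ∀ a b : ℂ, (Polynomial.C a * Polynomial.X + Polynomial.C b).coeff 1 = a := by
    intro a b
    simp [Polynomial.coeff_C]
  have h3 : ∀ (a b : ℂ) (m : ℕ), ((Polynomial.C a * Polynomial.X + Polynomial.C b) ^ m).coeff m
      = a ^ m := by
    intro a b m
    have := Polynomial.coeff_pow_of_natDegree_le (m := m) (h1 a b)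
    simpa [h2] using this
  have h4 : ∀ (a b : ℂ) (m : ℕ),
      ((Polynomial.C a * Polynomial.X + Polynomial.C b) ^ m).natDegree ≤ m := by
    intro a b m
    calc _ ≤ m * (Polynomial.C a * Polynomial.X + Polynomial.C b).natDegree :=
          Polynomial.natDegree_pow_le
      _ ≤ m * 1 := Nat.mul_le_mul_left _ (h1 a b)
      _ = m := mul_one m
  rw [mul_assoc, Polynomial.coeff_C_mul]
  conv_lhs => rw [show n = i + (n - i) by omega]
  rw [show i + (n - i) - i = n - i by omega]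
  rw [Polynomial.coeff_mul_add_eq_of_natDegree_le (h4 _ _ _) (h4 _ _ _), h3, h3, mul_assoc]

lemma coeff_symAct_eval (n : ℕ) (g : Matrix (Fin 2) (Fin 2) ℤ) (F : ℂ[X]) (hF : F.natDegree ≤ n)
    (hg : g 1 0 ≠ 0) :
    (symAct n g F).coeff n = (g 1 0 : ℂ) ^ n * Polynomial.eval ((g 0 0 : ℂ) / (g 1 0 : ℂ)) F := by
  have hc : (g 1 0 : ℂ) ≠ 0 := by exact_mod_cast hg
  rw [coeff_symAct_top, Polynomial.eval_eq_sum_range' (Nat.lt_succ_of_le hF), Finset.mul_sum]
  refine Finset.sum_congr rfl fun i hi => ?_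
  have hi' : i ≤ n := Nat.lt_succ_iff.1 (Finset.mem_range.1 hi)
  have e : (g 1 0 : ℂ) ^ n = (g 1 0 : ℂ) ^ i * (g 1 0 : ℂ) ^ (n - i) := by
    rw [← pow_add]; congr 1; omega
  rw [e, div_pow]
  field_simp

/-- A matrix with first column `(a, c)`. -/
lemma exists_sl (a c : ℤ) (h : IsCoprime a c) : ∃ g : SL(2, ℤ), g 0 0 = a ∧ g 1 0 = c := by
  obtain ⟨u, v, huv⟩ := h
  refine ⟨⟨!![a, -v; c, u], ?_⟩, rfl, rfl⟩
  rw [Matrix.det_fin_two_of]
  linarith

/-- The image of the vertical line. -/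
lemma smul_line (g : SL(2, ℤ)) (hc : 0 < g 1 0) (y : ℝ) (hy : 0 < y) :
    ((g • ofComplex (((-(g 1 1 : ℝ) / (g 1 0 : ℝ) : ℝ) : ℂ) + y * Complex.I) : ℍ) : ℂ) =
      (g 0 0 : ℂ) / (g 1 0 : ℂ) + ((1 / ((g 1 0 : ℝ) ^ 2 * y) : ℝ) : ℂ) * Complex.I := by
  have him : 0 < ((((-(g 1 1 : ℝ) / (g 1 0 : ℝ) : ℝ) : ℂ) + y * Complex.I) : ℂ).im := by
    simp [hy]
  rw [ofComplex_apply_of_im_pos him, coe_specialLinearGroup_apply]
  have hc' : (g 1 0 : ℂ) ≠ 0 := by exact_mod_cast hc.ne'
  have hy' : (y : ℂ) ≠ 0 := by exact_mod_cast hy.ne'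
  have hdet : (g 0 0 : ℂ) * (g 1 1 : ℂ) - (g 0 1 : ℂ) * (g 1 0 : ℂ) = 1 := by
    have := g.det_coe
    rw [Matrix.det_fin_two] at this
    exact_mod_cast this
  simp only [algebraMap_int_eq, eq_intCast, Complex.ofReal_intCast]
  push_cast
  have e1 : (g 1 0 : ℂ) * (-(g 1 1 : ℂ) / (g 1 0 : ℂ) + y * Complex.I) + (g 1 1 : ℂ) =
      (g 1 0 : ℂ) * y * Complex.I := by
    field_simp
    ring
  rw [e1]
  have hI : Complex.I ≠ 0 := Complex.I_ne_zero
  field_simp
  have hI2 : Complex.I ^ 2 = -1 := Complex.I_sq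
  linear_combination (-1 : ℂ) * hdet - hI2

theorem per {N : ℕ} {k : ℤ} (f : SN N k) (z : ℍ) : f (shPt 1 1 z) = f z := by
  have hT : ModularGroup.T ∈ Gamma0 N := by
    rw [Gamma0_mem]; simp [ModularGroup.T]
  have h := slash_of_mem f hT
  have h2 : (⇑f) ∣[k] ModularGroup.T = (⇑f) ∣[k] gR (gB 1 1) := by
    rw [ModularForm.SL_slash]
    congr 1
    ext i j
    fin_cases i <;> fin_cases j <;>
      simp [gR, gB, ModularGroup.T, GeneralLinearGroup.mkOfDetNeZero]
    all_goals first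
      | exact map_one (Int.castRingHom ℝ)
      | exact map_zero (Int.castRingHom ℝ)
  rw [h2] at h
  have h3 := congrFun h z
  rw [slash_gB] at h3
  exact h3

/-- Hecke's bound gives absolute convergence. -/
lemma summable_coeff (N : ℕ) (hN : N ≠ 0) (n : ℕ) (hn : 4 ≤ n) (f : SN N ((n : ℤ) + 2)) :
    Summable (fun m : ℕ => ‖aq f m / (m : ℂ) ^ (n + 1)‖) := by
  have : NeZero N := ⟨hN⟩
  have hO := CuspFormClass.qExpansion_isBigO f
  rw [strictWidthInfty_Gamma0] at hO
  have hO2 : (fun m : ℕ => aq f m / (m : ℂ) ^ (n + 1)) =O[atTop]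
      fun m : ℕ => (m : ℝ) ^ (-((n : ℝ) / 2)) := by
    have h1 : (fun m : ℕ => ((m : ℂ) ^ (n + 1))⁻¹) =O[atTop]
        fun m : ℕ => ((m : ℝ) ^ (n + 1))⁻¹ := by
      refine Asymptotics.isBigO_of_le _ fun m => ?_
      simp
    have h2 := hO.mul h1
    refine (h2.congr' (Eventually.of_forall fun m => ?_) ?_)
    · simp only [aq, div_eq_mul_inv]
    · filter_upwards [eventually_ge_atTop 1] with m hm
      have hm' : (0 : ℝ) < m := by exact_mod_cast hm
      rw [← Real.rpow_natCast, ← Real.rpow_neg hm'.le, ← Real.rpow_add hm']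
      congr 1
      push_cast
      ring
  refine (summable_of_isBigO_nat ?_ hO2).norm
  rw [Real.summable_nat_rpow]
  have : (4 : ℝ) ≤ n := by exact_mod_cast hn
  linarith

/-- The terms of `(-i t)^(n-j) G_j(θ + i t)`. -/
def T (n : ℕ) (a : ℕ → ℂ) (θ : ℝ) (j : ℕ) (t : ℝ) (m : ℕ) : ℂ :=
  (-(t : ℂ) * Complex.I) ^ (n - j) * (a m * Complex.I ^ (j + 1) * (j.factorial : ℂ) *
    (((1 : ℕ) : ℂ) / (2 * Real.pi * m)) ^ (j + 1) *
    Complex.exp (2 * Real.pi * Complex.I * m * ((θ : ℂ) + t * Complex.I) / ((1 : ℕ) : ℂ)))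

lemma norm_T_le (n : ℕ) (a : ℕ → ℂ) (θ : ℝ) (j : ℕ) (hj : j ≤ n) (t : ℝ) (ht : 0 < t) (m : ℕ) :
    ‖T n a θ j t m‖ ≤ (j.factorial * (n - j).factorial : ℝ) * (1 / (2 * Real.pi)) ^ (n + 1) *
      ‖a m / (m : ℂ) ^ (n + 1)‖ := by
  rcases Nat.eq_zero_or_pos m with rfl | hm
  · simp [T]
  have hm' : (0 : ℝ) < m := by exact_mod_cast hm
  have hpi : (0 : ℝ) < 2 * Real.pi := by positivity
  have hx : (0 : ℝ) ≤ 2 * Real.pi * m * t := by positivity
  have hexp : ‖Complex.exp (2 * Real.pi * Complex.I * m * ((θ : ℂ) + t * Complex.I) /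
      ((1 : ℕ) : ℂ))‖ = Real.exp (-(2 * Real.pi * m * t)) := by
    rw [Complex.norm_exp]
    congr 1
    have : (2 * Real.pi * Complex.I * m * ((θ : ℂ) + t * Complex.I) / ((1 : ℕ) : ℂ)) =
        ((-(2 * Real.pi * m * t) : ℝ) : ℂ) + ((2 * Real.pi * m * θ : ℝ) : ℂ) * Complex.I := by
      push_cast
      linear_combination (2 * Real.pi * m * t : ℂ) * Complex.I_sq
    rw [this]
    simp
  have hkey : t ^ (n - j) * Real.exp (-(2 * Real.pi * m * t)) ≤
      (n - j).factorial * (1 / (2 * Real.pi * m)) ^ (n - j) := by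
    have h1 := Real.pow_div_factorial_le_exp (2 * Real.pi * m * t) hx (n - j)
    have h2 : (2 * Real.pi * m * t) ^ (n - j) * Real.exp (-(2 * Real.pi * m * t)) ≤
        (n - j).factorial := by
      rw [div_le_iff₀ (by positivity)] at h1
      calc _ ≤ (Real.exp (2 * Real.pi * m * t) * (n - j).factorial) *
            Real.exp (-(2 * Real.pi * m * t)) :=
            mul_le_mul_of_nonneg_right h1 (Real.exp_pos _).le
        _ = (n - j).factorial * (Real.exp (2 * Real.pi * m * t) *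
            Real.exp (-(2 * Real.pi * m * t))) := by ring
        _ = _ := by rw [← Real.exp_add]; simp
    have h3 : t ^ (n - j) = (1 / (2 * Real.pi * m)) ^ (n - j) * (2 * Real.pi * m * t) ^ (n - j) := by
      rw [← mul_pow]
      congr 1
      field_simp
    rw [h3]
    calc _ = (1 / (2 * Real.pi * m)) ^ (n - j) *
          ((2 * Real.pi * m * t) ^ (n - j) * Real.exp (-(2 * Real.pi * m * t))) := by ring
      _ ≤ (1 / (2 * Real.pi * m)) ^ (n - j) * (n - j).factorial :=
          mul_le_mul_of_nonneg_left h2 (by positivity)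
      _ = _ := by ring
  have hn : ‖T n a θ j t m‖ = ‖a m‖ * j.factorial * (1 / (2 * Real.pi * m)) ^ (j + 1) *
      (t ^ (n - j) * Real.exp (-(2 * Real.pi * m * t))) := by
    unfold T
    rw [norm_mul, norm_mul, norm_mul, norm_mul, norm_mul, hexp]
    have e1 : ‖(-(t : ℂ) * Complex.I) ^ (n - j)‖ = t ^ (n - j) := by
      rw [norm_pow, norm_mul, norm_neg, Complex.norm_I, mul_one, Complex.norm_real,
        Real.norm_of_nonneg ht.le]
    have e2 : ‖Complex.I ^ (j + 1)‖ = 1 := by rw [norm_pow, Complex.norm_I, one_pow]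
    have e3 : ‖(((1 : ℕ) : ℂ) / (2 * Real.pi * m)) ^ (j + 1)‖ =
        (1 / (2 * Real.pi * m)) ^ (j + 1) := by
      rw [norm_pow, norm_div, norm_mul, norm_mul]
      simp [abs_of_pos Real.pi_pos]
    rw [e1, e2, e3]
    simp only [Complex.norm_natCast]
    ring
  rw [hn]
  calc _ ≤ ‖a m‖ * j.factorial * (1 / (2 * Real.pi * m)) ^ (j + 1) *
        ((n - j).factorial * (1 / (2 * Real.pi * m)) ^ (n - j)) :=
        mul_le_mul_of_nonneg_left hkey (by positivity)
    _ = (j.factorial * (n - j).factorial : ℝ) * ‖a m‖ *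
        ((1 / (2 * Real.pi * m)) ^ (j + 1) * (1 / (2 * Real.pi * m)) ^ (n - j)) := by ring
    _ = (j.factorial * (n - j).factorial : ℝ) * ‖a m‖ * (1 / (2 * Real.pi * m)) ^ (n + 1) := by
        rw [← pow_add]
        congr 2
        omega
    _ = _ := by
        rw [norm_div, norm_pow, Complex.norm_natCast]
        rw [one_div, one_div, mul_inv, mul_pow, inv_pow (m : ℝ)]
        rw [div_eq_mul_inv]
        ring

lemma tendsto_T (n : ℕ) (a : ℕ → ℂ) (θ : ℝ) (j : ℕ) (hj : j ≤ n)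
    (hs : Summable (fun m : ℕ => ‖a m / (m : ℂ) ^ (n + 1)‖)) :
    Tendsto (fun t : ℝ => ∑' m, T n a θ j t m) (𝓝[>] 0) (𝓝 (∑' m, T n a θ j 0 m)) := by
  refine tendsto_tsum_of_dominated_convergence
    (bound := fun m => (j.factorial * (n - j).factorial : ℝ) * (1 / (2 * Real.pi)) ^ (n + 1) *
      ‖a m / (m : ℂ) ^ (n + 1)‖) (hs.mul_left _) ?_ ?_
  · intro m
    have hc : Continuous (fun t : ℝ => T n a θ j t m) := by
      unfold T
      fun_prop
    exact (hc.tendsto 0).mono_left nhdsWithin_le_nhds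
  · filter_upwards [self_mem_nhdsWithin] with t ht m
    exact norm_T_le n a θ j hj t ht m

lemma eval_PE (n : ℕ) (a : ℕ → ℂ) (θ t : ℝ) :
    Polynomial.eval (θ : ℂ) (PE n 1 a ((θ : ℂ) + t * Complex.I)) =
      -∑ j ∈ Finset.range (n + 1), ((n.choose j : ℂ) * (-1) ^ j) * ∑' m, T n a θ j t m := by
  unfold PE XZ
  rw [Polynomial.eval_neg, Polynomial.eval_finsetSum]
  congr 1
  refine Finset.sum_congr rfl fun j _ => ?_
  rw [Polynomial.eval_mul, Polynomial.eval_C, Polynomial.eval_pow, Polynomial.eval_sub,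
    Polynomial.eval_X, Polynomial.eval_C]
  have e : ((θ : ℂ) - ((θ : ℂ) + t * Complex.I)) = -(t : ℂ) * Complex.I := by ring
  rw [e, mul_assoc, mul_assoc, mul_assoc]
  congr 2
  unfold T Gj
  rw [tsum_mul_left, mul_comm]

lemma limit_value (n : ℕ) (hn : Even n) (a : ℕ → ℂ) (θ : ℝ)  :
    -∑ j ∈ Finset.range (n + 1), ((n.choose j : ℂ) * (-1) ^ j) * ∑' m, T n a θ j 0 m =
      -((Complex.I ^ (n + 1) * (n.factorial : ℂ) / (2 * Real.pi) ^ (n + 1)) *
        ∑' m : ℕ, a m / (m : ℂ) ^ (n + 1) *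
          Complex.exp (2 * Real.pi * Complex.I * m * (θ : ℂ))) := by
  rw [Finset.sum_range_succ, Finset.sum_eq_zero, zero_add]
  · congr 1
    rw [Nat.choose_self, hn.neg_one_pow, Nat.cast_one, one_mul, one_mul, ← tsum_mul_left]
    refine tsum_congr fun m => ?_
    unfold T
    rw [Nat.sub_self, pow_zero, one_mul]
    have e : (2 * Real.pi * Complex.I * m * ((θ : ℂ) + ((0 : ℝ) : ℂ) * Complex.I) / ((1 : ℕ) : ℂ)) =
        2 * Real.pi * Complex.I * m * (θ : ℂ) := by simp
    rw [e]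
    rw [Nat.cast_one, one_div, inv_pow, mul_pow, mul_inv]
    ring
  · intro j hj
    have hj' : j < n := Finset.mem_range.1 hj
    have : ∀ m, T n a θ j 0 m = 0 := by
      intro m
      unfold T
      have h0 : (-((0 : ℝ) : ℂ) * Complex.I) ^ (n - j) = 0 := by
        rw [Complex.ofReal_zero, neg_zero, zero_mul]
        exact zero_pow (by omega)
      rw [h0, zero_mul]
    simp [this]

end EKappaAux

open EKappaAux in
theorem eKappa (hB : EPrim) (hC : EConst) (h6 : BComp) (hQ : Q1Exp) : EKappa := by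
  intro N hN
  refine ⟨4, fun n hn hev => ?_⟩
  have : NeZero N := ⟨hN⟩
  have hpi : (2 * Real.pi : ℂ) ≠ 0 := by
    have := Real.pi_ne_zero
    simp [this]
  refine ⟨Complex.I ^ (n + 1) * (n.factorial : ℂ) / (2 * Real.pi) ^ (n + 1), ?_, fun f => ?_⟩
  · refine div_ne_zero (mul_ne_zero (pow_ne_zero _ Complex.I_ne_zero) ?_) (pow_ne_zero _ hpi)
    exact_mod_cast n.factorial_ne_zero
  have hs := summable_coeff N hN n hn f
  refine ⟨hs, fun P Pc hP hPc a c hc hac => ?_⟩
  obtain ⟨hq, hq0⟩ := hQ ((n : ℤ) + 2) f (isCuspFun_of_cuspForm f) (per f)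
  have hq' : ∀ z : ℍ, HasSum (fun m : ℕ => aq f m *
      Complex.exp (2 * Real.pi * Complex.I * m * (z : ℂ) / ((1 : ℕ) : ℂ))) (f z) := by
    intro z
    simpa using hq z
  obtain ⟨hP0, hdec⟩ := hB n 1 f (aq f) one_ne_zero hq0 hq'
  obtain ⟨c0, hc0, hPc0⟩ := hC n f _ P hP0 hP
  obtain ⟨hdeg, -, hlim⟩ := hPc
  -- the value at infinity
  have hcI : Pc cI = c0 := by
    ext i
    have h1 := hlim 1 0 i
    have h2 := hdec 0 i
    have e1 : (mx 1).mulVec cI = cI := by simp [mx]
    rw [e1] at h1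
    have e2 : ∀ F : ℂ[X], F.natDegree ≤ n → symAct n (mx 1) F = F := by
      intro F hF
      have := (h6 ℂ n 1 1 F hF).2.2
      simpa [mx] using this
    rw [e2 _ (hdeg cI)] at h1
    have h3 : Tendsto (fun y : ℝ => (PE n 1 (aq f)
        ((ofComplex (((0 : ℝ) : ℂ) + y * Complex.I) : ℍ) : ℂ)).coeff i + c0.coeff i) atTop
        (𝓝 (0 + c0.coeff i)) := h2.add_const _
    have h4 : Tendsto (fun y : ℝ => (symAct n (mx 1)
        (P ((1 : SL(2, ℤ)) • ofComplex (((0 : ℝ) : ℂ) + y * Complex.I)))).coeff i) atTop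
        (𝓝 (0 + c0.coeff i)) := by
      refine h3.congr fun y => ?_
      rw [e2 _ (hP.1 _), one_smul, hPc0, Polynomial.coeff_add]
    have := tendsto_nhds_unique h1 h4
    rw [this, zero_add]
  -- the value at a / c
  obtain ⟨g, hga, hgc⟩ := exists_sl a c hac
  have hgc' : 0 < g 1 0 := by rw [hgc]; exact hc
  have hr : (mx g).mulVec cI = ![a, c] := by
    ext i
    fin_cases i <;> simp [mx, cI, Matrix.mulVec, dotProduct, Fin.sum_univ_two, hga, hgc]
  have hcC : (c : ℂ) ≠ 0 := by exact_mod_cast hc.ne'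
  set θ : ℝ := (a : ℝ) / c with hθ
  have hθC : (θ : ℂ) = (a : ℂ) / c := by rw [hθ]; push_cast; rfl
  have hev0 : ∀ F : ℂ[X], F.natDegree ≤ n →
      (symAct n (mx g) F).coeff n = (c : ℂ) ^ n * Polynomial.eval (θ : ℂ) F := by
    intro F hF
    rw [coeff_symAct_eval n (mx g) F hF hgc'.ne', hθC]
    rw [show mx g 1 0 = c from hgc, show mx g 0 0 = a from hga]
  have h1 := hlim g (-(g 1 1 : ℝ) / (g 1 0 : ℝ)) n
  rw [hr, hev0 _ (hdeg _)] at h1
  have h2 : Tendsto (fun y : ℝ => (c : ℂ) ^ n * Polynomial.eval (θ : ℂ)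
      (P (g • ofComplex (((-(g 1 1 : ℝ) / (g 1 0 : ℝ) : ℝ) : ℂ) + y * Complex.I)))) atTop
      (𝓝 ((c : ℂ) ^ n * Polynomial.eval (θ : ℂ) (Pc ![a, c]))) := by
    refine h1.congr fun y => ?_
    rw [hev0 _ (hP.1 _)]
  have hcn : (c : ℂ) ^ n ≠ 0 := pow_ne_zero _ hcC
  have h3 : Tendsto (fun y : ℝ => Polynomial.eval (θ : ℂ)
      (P (g • ofComplex (((-(g 1 1 : ℝ) / (g 1 0 : ℝ) : ℝ) : ℂ) + y * Complex.I)))) atTop
      (𝓝 (Polynomial.eval (θ : ℂ) (Pc ![a, c]))) := by
    have := h2.const_mul ((c : ℂ) ^ n)⁻¹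
    simpa [← mul_assoc, inv_mul_cancel₀ hcn] using this
  have ht : Tendsto (fun y : ℝ => 1 / ((c : ℝ) ^ 2 * y)) atTop (𝓝[>] 0) := by
    have hcR : (0 : ℝ) < (c : ℝ) ^ 2 := by
      have : (c : ℝ) ≠ 0 := by exact_mod_cast hc.ne'
      positivity
    have := tendsto_inv_atTop_nhdsGT_zero.comp (tendsto_id.const_mul_atTop hcR)
    refine this.congr fun y => ?_
    simp [one_div]
  have h4 : Tendsto (fun t : ℝ => -∑ j ∈ Finset.range (n + 1), ((n.choose j : ℂ) * (-1) ^ j) *
      ∑' m, T n (aq f) θ j t m) (𝓝[>] 0)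
      (𝓝 (-∑ j ∈ Finset.range (n + 1), ((n.choose j : ℂ) * (-1) ^ j) *
      ∑' m, T n (aq f) θ j 0 m)) := by
    refine (tendsto_finsetSum _ fun j hj => ?_).neg
    exact (tendsto_T n (aq f) θ j (Nat.lt_succ_iff.1 (Finset.mem_range.1 hj)) hs).const_mul _
  have h5 := (h4.comp ht).add_const (Polynomial.eval (θ : ℂ) c0)
  have h6' : Tendsto (fun y : ℝ => Polynomial.eval (θ : ℂ)
      (P (g • ofComplex (((-(g 1 1 : ℝ) / (g 1 0 : ℝ) : ℝ) : ℂ) + y * Complex.I)))) atTop
      (𝓝 (-∑ j ∈ Finset.range (n + 1), ((n.choose j : ℂ) * (-1) ^ j) *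
      ∑' m, T n (aq f) θ j 0 m + Polynomial.eval (θ : ℂ) c0)) := by
    refine h5.congr' ?_
    filter_upwards [eventually_gt_atTop 0] with y hy
    rw [hPc0, Polynomial.eval_add, smul_line g hgc' y hy, hgc, hga, ← hθC]
    simp only [Function.comp]
    rw [eval_PE]
  have h7 := tendsto_nhds_unique h3 h6'
  rw [limit_value n hev] at h7
  rw [Polynomial.eval_sub, hcI, ← hθC, h7, hθC]
  ring

end Gou

end
end

section

/-!
MP_602313_nt, item EPer: the expansion of `f ∣ g` with period `N`.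
-/

open scoped MatrixGroups ModularForm UpperHalfPlane Manifold Pointwise Polynomial
open CongruenceSubgroup UpperHalfPlane Matrix Matrix.SpecialLinearGroup Filter Topology

noncomputable section

namespace Gou

namespace EPerAux

theorem cusp_inf : IsCusp (OnePoint.infty : OnePoint ℝ) 𝒮ℒ :=
  isCusp_SL2Z_iff'.mpr ⟨1, by simp⟩

theorem gR_mapGL (g : SL(2, ℤ)) : gR (mapGL ℚ g) = (mapGL ℝ g) := by
  ext i j
  fin_cases i <;> fin_cases j <;> simp [gR]

theorem slash_T_zpow (k : ℤ) (F : ℍ → ℂ) (m : ℤ) (z : ℍ) :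
    (F ∣[k] (ModularGroup.T ^ m)) z = F (ModularGroup.T ^ m • z) := by
  rw [ModularForm.SL_slash_apply]
  have : denom ((ModularGroup.T ^ m : SL(2, ℤ)) : GL (Fin 2) ℝ) z = 1 := by
    simp [denom, ModularGroup.coe_T_zpow, -map_zpow]
  rw [this]
  simp

theorem conj_mem {N : ℕ} (g : SL(2, ℤ)) :
    g * ModularGroup.T ^ (N : ℤ) * g⁻¹ ∈ Gamma0 N := by
  have h1 : ModularGroup.T ^ (N : ℤ) ∈ Gamma N := by
    have := ModularGroup_T_pow_mem_Gamma (N : ℤ) (N : ℤ) dvd_rfl
    simpa using this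
  have h2 : g * ModularGroup.T ^ (N : ℤ) * g⁻¹ ∈ Gamma N :=
    (Gamma_normal N).conj_mem _ h1 g
  rw [Gamma0_mem]
  exact (Gamma_mem.mp h2).2.2.1

end EPerAux

open EPerAux

theorem ePer : EPer := by
  intro N hN k f g
  have hfin : (Gamma0 N).FiniteIndex := by
    haveI : NeZero N := ⟨hN⟩
    infer_instance
  set F : ℍ → ℂ := ⇑f ∣[k] g with hF
  have hcF : IsCuspFun k F := by
    have := (isCuspFun_of_cuspForm f).slash (mapGL ℚ g)
    rw [gR_mapGL] at this
    exact this
  have hz : IsZeroAtImInfty F := OnePoint.isZeroAt_infty_iff.mp (hcF.zero _ cusp_inf)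
  have hb : IsBoundedAtImInfty F := Filter.ZeroAtFilter.boundedAtFilter hz
  have hinv : ∀ z : ℍ, F (ModularGroup.T ^ (N : ℤ) • z) = F z := by
    intro z
    have h1 : F ∣[k] (ModularGroup.T ^ (N : ℤ)) = F := by
      rw [hF, ← SlashAction.slash_mul]
      have : g * ModularGroup.T ^ (N : ℤ) = (g * ModularGroup.T ^ (N : ℤ) * g⁻¹) * g := by
        group
      rw [this, SlashAction.slash_mul, slash_of_mem f (conj_mem g)]
    calc F (ModularGroup.T ^ (N : ℤ) • z) = (F ∣[k] (ModularGroup.T ^ (N : ℤ))) z :=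
          (slash_T_zpow k F _ z).symm
      _ = F z := by rw [h1]
  have hp : Function.Periodic (F ∘ ofComplex) ((N : ℝ) : ℂ) := by
    intro w
    by_cases hw : 0 < w.im
    · have h2 : 0 < (w + ((N : ℝ) : ℂ)).im := by simpa using hw
      simp only [Function.comp_apply, ofComplex_apply_of_im_pos h2, ofComplex_apply_of_im_pos hw]
      rw [← hinv ⟨w, hw⟩]
      congr 1
      ext
      rw [ModularGroup.coe_T_zpow_smul_eq]
      simp
    · have h1 : w.im ≤ 0 := not_lt.mp hw
      have h2 : (w + ((N : ℝ) : ℂ)).im ≤ 0 := by simpa using h1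
      rw [Function.comp_apply, Function.comp_apply, ofComplex_apply_of_im_nonpos h2,
        ofComplex_apply_of_im_nonpos h1]
  have hN' : (0 : ℝ) < N := by exact_mod_cast Nat.pos_of_ne_zero hN
  refine ⟨fun m => (qExpansion (N : ℝ) F).coeff m, ?_, ?_⟩
  · show (qExpansion (N : ℝ) F).coeff 0 = 0
    rw [UpperHalfPlane.qExpansion_coeff_zero hN'
      (UpperHalfPlane.analyticAt_cuspFunction_zero hN' hp hcF.holo hb) hp]
    exact UpperHalfPlane.IsZeroAtImInfty.valueAtInfty_eq_zero hz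
  · intro z
    have h := UpperHalfPlane.hasSum_qExpansion hN' hp hcF.holo hb z
    convert h using 2 with m
    show (qExpansion (N : ℝ) F).coeff m * _ =
      (qExpansion (N : ℝ) F).coeff m * Function.Periodic.qParam (N : ℝ) (z : ℂ) ^ m
    congr 1
    rw [Function.Periodic.qParam, ← Complex.exp_nat_mul]
    congr 1
    push_cast
    ring

end Gou

end
end

section

/-!
MP_602313_nt, item EPhi: the period map.
-/

open scoped MatrixGroups ModularForm UpperHalfPlane Manifold Pointwise Polynomial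
open CongruenceSubgroup UpperHalfPlane Matrix Matrix.SpecialLinearGroup Filter Topology

noncomputable section

namespace Gou

namespace EPhiAux

variable {n : ℕ}

lemma prim_add {F G : ℍ → ℂ} {P Q : ℍ → ℂ[X]} (h1 : IsPrim n F P) (h2 : IsPrim n G Q) :
    IsPrim n (F + G) (fun z => P z + Q z) := by
  refine ⟨fun z => (Polynomial.natDegree_add_le _ _).trans (max_le (h1.1 z) (h2.1 z)), ?_⟩
  intro z i
  have h3 := (h1.2 z i).add (h2.2 z i)
  simp only [Polynomial.coeff_add, Pi.add_apply]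
  refine h3.congr_deriv ?_
  ring

lemma prim_smul {F : ℍ → ℂ} {P : ℍ → ℂ[X]} (c : ℂ) (h1 : IsPrim n F P) :
    IsPrim n (c • F) (fun z => c • P z) := by
  refine ⟨fun z => (Polynomial.natDegree_smul_le _ _).trans (h1.1 z), ?_⟩
  intro z i
  have h3 := (h1.2 z i).const_mul c
  simp only [Polynomial.coeff_smul, Pi.smul_apply, smul_eq_mul]
  refine h3.congr_deriv ?_
  ring

lemma prim_zero : IsPrim n (0 : ℍ → ℂ) (fun _ => 0) := by
  refine ⟨fun z => by simp, ?_⟩
  intro z i
  simp only [Polynomial.coeff_zero, Pi.zero_apply, zero_mul]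
  exact hasDerivAt_const _ _

lemma prim_sum {ι : Type*} (s : Finset ι) {F : ι → ℍ → ℂ} {P : ι → ℍ → ℂ[X]}
    (h : ∀ i, IsPrim n (F i) (P i)) :
    IsPrim n (∑ i ∈ s, F i) (fun z => ∑ i ∈ s, P i z) := by
  classical
  induction s using Finset.induction_on with
  | empty => simpa using prim_zero (n := n)
  | insert a s ha ih =>
    have e : (fun z => ∑ i ∈ insert a s, P i z) = fun z => P a z + ∑ i ∈ s, P i z := by
      ext1 z
      rw [Finset.sum_insert ha]
    rw [Finset.sum_insert ha, e]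
    exact prim_add (h a) ih

lemma bdry_add {P Q : ℍ → ℂ[X]} {Pc Qc : Vec → ℂ[X]} (h1 : IsBdry n P Pc) (h2 : IsBdry n Q Qc) :
    IsBdry n (fun z => P z + Q z) (fun r => Pc r + Qc r) := by
  refine ⟨fun r => (Polynomial.natDegree_add_le _ _).trans (max_le (h1.1 r) (h2.1 r)), ?_, ?_⟩
  · intro c r hc
    simp only [h1.2.1 c r hc, h2.2.1 c r hc]
  · intro g x i
    have h3 := (h1.2.2 g x i).add (h2.2.2 g x i)
    simpa only [symAct_add, Polynomial.coeff_add] using h3

lemma bdry_smul {P : ℍ → ℂ[X]} {Pc : Vec → ℂ[X]} (c : ℂ) (h1 : IsBdry n P Pc) :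
    IsBdry n (fun z => c • P z) (fun r => c • Pc r) := by
  refine ⟨fun r => (Polynomial.natDegree_smul_le _ _).trans (h1.1 r), ?_, ?_⟩
  · intro d r hd
    simp only [h1.2.1 d r hd]
  · intro g x i
    have h3 := (h1.2.2 g x i).const_mul c
    simpa only [symAct_smul, Polynomial.coeff_smul, smul_eq_mul] using h3

lemma bdry_zero : IsBdry n (fun _ => 0) (fun _ => 0) := by
  refine ⟨fun r => by simp, fun _ _ _ => rfl, ?_⟩
  intro g x i
  simp only [symAct_zero, Polynomial.coeff_zero]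
  exact tendsto_const_nhds

lemma bdry_sum {ι : Type*} (s : Finset ι) {P : ι → ℍ → ℂ[X]} {Pc : ι → Vec → ℂ[X]}
    (h : ∀ i, IsBdry n (P i) (Pc i)) :
    IsBdry n (fun z => ∑ i ∈ s, P i z) (fun r => ∑ i ∈ s, Pc i r) := by
  classical
  induction s using Finset.induction_on with
  | empty => simpa using bdry_zero (n := n)
  | insert a s ha ih =>
    have e : (fun z => ∑ i ∈ insert a s, P i z) = fun z => P a z + ∑ i ∈ s, P i z := by
      ext1 z
      rw [Finset.sum_insert ha]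
    have e' : (fun r => ∑ i ∈ insert a s, Pc i r) = fun r => Pc a r + ∑ i ∈ s, Pc i r := by
      ext1 z
      rw [Finset.sum_insert ha]
    rw [e, e']
    exact bdry_add (h a) ih

lemma symAct_sub (n : ℕ) (g : Matrix (Fin 2) (Fin 2) ℤ) (f f' : ℂ[X]) :
    symAct n g (f - f') = symAct n g f - symAct n g f' := by
  have : f = (f - f') + f' := by ring
  conv_rhs => rw [this, symAct_add]
  ring

lemma mulVec_ne {A : Matrix (Fin 2) (Fin 2) ℤ} (hA : 0 < A.det) {r : Vec} (hr : r ≠ 0) :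
    A.mulVec r ≠ 0 := by
  intro h
  exact hr (Matrix.eq_zero_of_mulVec_eq_zero hA.ne' h)

lemma det_repU (l j : ℕ) : (repU l j).det = l := by
  simp [repU, Matrix.det_fin_two]

lemma det_repV (l : ℕ) : (repV l).det = l := by
  simp [repV, Matrix.det_fin_two]

lemma gA_repU (l j : ℕ) (hl : l ≠ 0) (h : 0 < (repU l j).det) : gA (repU l j) h = gU l hl j := by
  ext a b
  fin_cases a <;> fin_cases b <;>
    simp [gA, gU, repU, GeneralLinearGroup.mkOfDetNeZero]

lemma gA_repV (l : ℕ) (hl : l ≠ 0) (h : 0 < (repV l).det) : gA (repV l) h = gV l hl := by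
  ext a b
  fin_cases a <;> fin_cases b <;>
    simp [gA, gV, repV, GeneralLinearGroup.mkOfDetNeZero]

end EPhiAux

open EPhiAux

theorem ePhi (hA : EPer) (hB : EPrim) (hC : EConst) (hD : EChain) (hS : ESL) (hE : EBdry)
    (hF : EUniq) (hG : ETrans) : EPhi := by
  intro N n hN hn
  have hex : ∀ f : SN N ((n : ℤ) + 2), ∃ P : ℍ → ℂ[X], IsPrim n f P := by
    intro f
    obtain ⟨a, ha0, ha⟩ := hA N hN _ f 1
    have h1 : (⇑f ∣[((n : ℤ) + 2)] (1 : SL(2, ℤ))) = ⇑f := SlashAction.slash_one _ _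
    rw [h1] at ha
    exact ⟨_, (hB n N f a hN ha0 ha).1⟩
  choose P hP using hex
  choose Pc hPc using fun f => hE N n hN hn f (P f) (hP f)
  classical
  -- uniqueness
  have key : ∀ (f : SN N ((n : ℤ) + 2)) (Q : ℍ → ℂ[X]) (Qc : Vec → ℂ[X]), IsPrim n f Q →
      IsBdry n Q Qc → ∀ r s, r ≠ 0 → s ≠ 0 → Pc f s - Pc f r = Qc s - Qc r := by
    intro f Q Qc hQ hQc r s hr hs
    obtain ⟨c, hc, hcz⟩ := hC n f (P f) Q (hP f) hQ
    rw [hF n (P f) Q (Pc f) Qc c hc (hPc f) hQc hcz r hr,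
      hF n (P f) Q (Pc f) Qc c hc (hPc f) hQc hcz s hs]
    ring
  set φ0 : SN N ((n : ℤ) + 2) → (Vec → Vec → ℂ[X]) :=
    fun f r s => if r = 0 ∨ s = 0 then 0 else Pc f s - Pc f r with hφ0
  have hφz : ∀ f r s, (r = 0 ∨ s = 0) → φ0 f r s = 0 := fun f r s h => by
    simp only [hφ0, if_pos h]
  have hφn : ∀ f r s, r ≠ 0 → s ≠ 0 → φ0 f r s = Pc f s - Pc f r := fun f r s hr hs => by
    simp only [hφ0]
    rw [if_neg (by tauto)]
  have hφk : ∀ (f : SN N ((n : ℤ) + 2)) (Q : ℍ → ℂ[X]) (Qc : Vec → ℂ[X]), IsPrim n f Q →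
      IsBdry n Q Qc → ∀ r s, r ≠ 0 → s ≠ 0 → φ0 f r s = Qc s - Qc r := by
    intro f Q Qc hQ hQc r s hr hs
    rw [hφn f r s hr hs]
    exact key f Q Qc hQ hQc r s hr hs
  let φ : SN N ((n : ℤ) + 2) →ₗ[ℂ] (Vec → Vec → ℂ[X]) :=
    { toFun := φ0
      map_add' := by
        intro f g
        funext r s
        by_cases h : r = 0 ∨ s = 0
        · rw [Pi.add_apply, Pi.add_apply, hφz _ r s h, hφz _ r s h, hφz _ r s h, add_zero]
        · push Not at h
          rw [Pi.add_apply, Pi.add_apply, hφn f r s h.1 h.2, hφn g r s h.1 h.2,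
            hφk (f + g) _ _ (prim_add (hP f) (hP g)) (bdry_add (hPc f) (hPc g)) r s h.1 h.2]
          ring
      map_smul' := by
        intro c f
        funext r s
        by_cases h : r = 0 ∨ s = 0
        · rw [Pi.smul_apply, Pi.smul_apply, hφz _ r s h, hφz _ r s h, smul_zero]
        · push Not at h
          rw [Pi.smul_apply, Pi.smul_apply, hφn f r s h.1 h.2,
            hφk (c • f) _ _ (prim_smul c (hP f)) (bdry_smul c (hPc f)) r s h.1 h.2]
          rw [RingHom.id_apply, smul_sub] }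
  have hsymb : ∀ f, φ f ∈ Symb N n ℂ := by
    intro f
    refine ⟨?_, hφz f, ?_, ?_, ?_⟩
    · intro r s
      show (φ0 f r s).natDegree ≤ n
      by_cases h : r = 0 ∨ s = 0
      · rw [hφz f r s h]; simp
      · push Not at h
        rw [hφn f r s h.1 h.2]
        exact (Polynomial.natDegree_sub_le _ _).trans (max_le ((hPc f).1 _) ((hPc f).1 _))
    · intro r s t hr hs ht
      show φ0 f r s + φ0 f s t = φ0 f r t
      rw [hφn f r s hr hs, hφn f s t hs ht, hφn f r t hr ht]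
      ring
    · intro c r s hc
      show φ0 f (c • r) s = φ0 f r s
      by_cases h : r = 0 ∨ s = 0
      · rw [hφz f r s h, hφz f (c • r) s]
        rcases h with h | h
        · left; rw [h, smul_zero]
        · right; exact h
      · push Not at h
        have hcr : c • r ≠ 0 := smul_ne_zero hc h.1
        rw [hφn f r s h.1 h.2, hφn f (c • r) s hcr h.2, (hPc f).2.1 c r hc]
    · intro γ hγ r s
      show symAct n (mx γ) (φ0 f ((mx γ).mulVec r) ((mx γ).mulVec s)) = φ0 f r s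
      have hdet : 0 < (mx γ).det := by
        rw [show (mx γ).det = 1 from γ.2]; norm_num
      by_cases h : r = 0 ∨ s = 0
      · rw [hφz f r s h, hφz f _ _, symAct_zero]
        rcases h with h | h
        · left; rw [h, Matrix.mulVec_zero]
        · right; rw [h, Matrix.mulVec_zero]
      · push Not at h
        have h1 := hD n f (P f) (mx γ) hdet (hP f)
        rw [(hS γ hdet).2.2, slash_of_mem f hγ] at h1
        have h2 := hG n (P f) (Pc f) (mx γ) hdet (hP f).1 (hPc f)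
        rw [hφk f _ _ h1 h2 r s h.1 h.2,
          hφn f _ _ (mulVec_ne hdet h.1) (mulVec_ne hdet h.2), symAct_sub]
  refine ⟨φ, hsymb, hφk, ?_⟩
  intro l hl hlN T hT f
  have hl0 : l ≠ 0 := hl.ne_zero
  have hU : ∀ j : ℕ, 0 < (repU l j).det := by
    intro j
    rw [det_repU]
    exact_mod_cast hl.pos
  have hV : 0 < (repV l).det := by
    rw [det_repV]
    exact_mod_cast hl.pos
  funext r s
  show φ0 (T f) r s = heckeSymbFun n l (φ0 f) r s
  by_cases h : r = 0 ∨ s = 0
  · rw [hφz _ r s h, heckeSymbFun]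
    rw [Finset.sum_eq_zero, hφz f, symAct_zero, zero_add]
    · rcases h with h | h
      · left; rw [h, Matrix.mulVec_zero]
      · right; rw [h, Matrix.mulVec_zero]
    · intro j _
      rw [hφz f, symAct_zero]
      rcases h with h | h
      · left; rw [h, Matrix.mulVec_zero]
      · right; rw [h, Matrix.mulVec_zero]
  · push Not at h
    have hTf : (⇑(T f) : ℍ → ℂ) = ∑ j ∈ Finset.range l,
        ((⇑f) ∣[((n : ℤ) + 2)] gR (gA (repU l j) (hU j)))
        + (⇑f) ∣[((n : ℤ) + 2)] gR (gA (repV l) hV) := by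
      funext z
      rw [Pi.add_apply, Finset.sum_apply, gA_repV l hl0, slash_gV, hT hl.pos f z, Finset.mul_sum,
        add_comm]
      congr 1
      refine Finset.sum_congr rfl fun j _ => ?_
      rw [gA_repU l j hl0, slash_gU]
    have h1 : IsPrim n (T f) (fun z => (∑ j ∈ Finset.range l,
        symAct n (repU l j) (P f (gR (gA (repU l j) (hU j)) • z)))
        + symAct n (repV l) (P f (gR (gA (repV l) hV) • z))) := by
      rw [hTf]
      exact prim_add (prim_sum (Finset.range l) fun j => hD n f (P f) (repU l j) (hU j) (hP f))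
        (hD n f (P f) (repV l) hV (hP f))
    have h2 := bdry_add (bdry_sum (Finset.range l) fun j =>
        hG n (P f) (Pc f) (repU l j) (hU j) (hP f).1 (hPc f))
        (hG n (P f) (Pc f) (repV l) hV (hP f).1 (hPc f))
    rw [hφk (T f) _ _ h1 h2 r s h.1 h.2, heckeSymbFun]
    rw [hφn f _ _ (mulVec_ne hV h.1) (mulVec_ne hV h.2), symAct_sub]
    have hj : ∀ j ∈ Finset.range l,
        symAct n (repU l j) (φ0 f ((repU l j).mulVec r) ((repU l j).mulVec s)) =
          symAct n (repU l j) (Pc f ((repU l j).mulVec s))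
            - symAct n (repU l j) (Pc f ((repU l j).mulVec r)) := by
      intro j _
      rw [hφn f _ _ (mulVec_ne (hU j) h.1) (mulVec_ne (hU j) h.2), symAct_sub]
    rw [Finset.sum_congr rfl hj, Finset.sum_sub_distrib]
    ring

end Gou

end
end

section

/-!
MP_602313_nt, C2 EPrim: the explicit primitive of `F(z) (X - z)^n`.
-/

open scoped MatrixGroups ModularForm UpperHalfPlane Manifold Pointwise Polynomial
open CongruenceSubgroup UpperHalfPlane Matrix Matrix.SpecialLinearGroup Filter Topology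

noncomputable section

namespace Gou

namespace EPrimP

/-- `e(m z / h)`. -/
def ee (h m : ℕ) (z : ℂ) : ℂ := Complex.exp (2 * Real.pi * Complex.I * m * z / h)

theorem norm_ee (h m : ℕ) (z : ℂ) :
    ‖ee h m z‖ = Real.exp (-(2 * Real.pi * m * z.im / h)) := by
  rw [ee, Complex.norm_exp]
  congr 1
  have : (2 * Real.pi * Complex.I * m * z / h : ℂ)
      = ((2 * Real.pi * m / h : ℝ) : ℂ) * (Complex.I * z) := by
    push_cast; ring
  rw [this, Complex.re_ofReal_mul]
  simp
  ring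

theorem ee_deriv (h m : ℕ) (z : ℂ) :
    HasDerivAt (ee h m) ((2 * Real.pi * Complex.I * m / h) * ee h m z) z := by
  have h1 : HasDerivAt (fun w : ℂ => 2 * Real.pi * Complex.I * m * w / h)
      (2 * Real.pi * Complex.I * m / h) z := by
    have := ((hasDerivAt_id z).const_mul (2 * Real.pi * Complex.I * m)).div_const (h : ℂ)
    simpa using this
  have h2 := h1.cexp
  have h3 : Complex.exp (2 * Real.pi * Complex.I * m * z / h) * (2 * Real.pi * Complex.I * m / h)
      = (2 * Real.pi * Complex.I * m / h) * ee h m z := by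
    rw [ee]; ring
  rw [h3] at h2
  exact h2

theorem mul_exp_le (X y : ℝ) (hy : 0 < y) :
    X * Real.exp (-(X * y)) ≤ (2 / y) * Real.exp (-(X * (y / 2))) := by
  have h1 : X * y / 2 ≤ Real.exp (X * y / 2) := by
    have := Real.add_one_le_exp (X * y / 2)
    linarith
  have h2 : X ≤ (2 / y) * Real.exp (X * y / 2) := by
    rw [div_mul_eq_mul_div, le_div_iff₀ hy]
    linarith
  have h3 : Real.exp (-(X * y)) = Real.exp (-(X * (y / 2))) * Real.exp (-(X * y / 2)) := by
    rw [← Real.exp_add]; congr 1; ring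
  have h4 : Real.exp (X * y / 2) * Real.exp (-(X * y / 2)) = 1 := by
    rw [← Real.exp_add]; simp
  have h5 := mul_le_mul_of_nonneg_right h2 (Real.exp_pos (-(X * y))).le
  calc X * Real.exp (-(X * y)) ≤ (2 / y) * Real.exp (X * y / 2) * Real.exp (-(X * y)) := h5
    _ = (2 / y) * Real.exp (-(X * (y / 2))) *
        (Real.exp (X * y / 2) * Real.exp (-(X * y / 2))) := by rw [h3]; ring
    _ = _ := by rw [h4, mul_one]

theorem series_deriv (h : ℕ) (hh : h ≠ 0) (b : ℕ → ℂ)
    (hb : ∀ y : ℝ, 0 < y → Summable fun m : ℕ => ‖b m‖ * Real.exp (-(2 * Real.pi * m * y / h)))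
    (z : ℂ) (hz : 0 < z.im) :
    HasDerivAt (fun w => ∑' m : ℕ, b m * ee h m w)
      (∑' m : ℕ, b m * ((2 * Real.pi * Complex.I * m / h) * ee h m z)) z := by
  have hhpos : (0 : ℝ) < h := by exact_mod_cast Nat.pos_of_ne_zero hh
  have hy0 : 0 < z.im / 2 := half_pos hz
  have hu : Summable fun m : ℕ => (2 / (z.im / 2)) *
      (‖b m‖ * Real.exp (-(2 * Real.pi * m * (z.im / 2 / 2) / h))) :=
    (hb _ (half_pos hy0)).mul_left _
  have hopen : IsOpen {w : ℂ | z.im / 2 < w.im} := isOpen_lt continuous_const Complex.continuous_im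
  have hconn : IsPreconnected {w : ℂ | z.im / 2 < w.im} :=
    (convex_halfSpace_im_gt _).isPreconnected
  have hmem : z ∈ {w : ℂ | z.im / 2 < w.im} := by
    simp only [Set.mem_ofPred_eq]; linarith
  refine hasDerivAt_tsum_of_isPreconnected hu hopen hconn
    (fun m w _ => (ee_deriv h m w).const_mul (b m)) ?_ hmem ?_ hmem
  · intro m w hw
    have hw' : z.im / 2 < w.im := hw
    rw [norm_mul, norm_mul, norm_ee]
    have h1 : ‖(2 * Real.pi * Complex.I * m / h : ℂ)‖ = 2 * Real.pi * m / h := by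
      rw [norm_div, norm_mul, norm_mul, norm_mul]
      simp [abs_of_pos Real.pi_pos]
    rw [h1]
    have hX : 0 ≤ 2 * Real.pi * m / h := by positivity
    have h2 := mul_exp_le (2 * Real.pi * m / h) (z.im / 2) hy0
    have h3 : Real.exp (-(2 * Real.pi * m * w.im / h))
        ≤ Real.exp (-(2 * Real.pi * m / h * (z.im / 2))) := by
      apply Real.exp_le_exp.mpr
      have : 2 * Real.pi * m / h * (z.im / 2) ≤ 2 * Real.pi * m / h * w.im :=
        mul_le_mul_of_nonneg_left hw'.le hX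
      have h4 : 2 * Real.pi * m * w.im / h = 2 * Real.pi * m / h * w.im := by ring
      rw [h4]; linarith
    have h5 : 2 * Real.pi * m * (z.im / 2 / 2) / h = 2 * Real.pi * m / h * (z.im / 2 / 2) := by ring
    rw [h5]
    calc ‖b m‖ * (2 * Real.pi * m / h * Real.exp (-(2 * Real.pi * m * w.im / h)))
        ≤ ‖b m‖ * (2 * Real.pi * m / h * Real.exp (-(2 * Real.pi * m / h * (z.im / 2)))) := by
          gcongr
      _ ≤ ‖b m‖ * (2 / (z.im / 2) * Real.exp (-(2 * Real.pi * m / h * (z.im / 2 / 2)))) := by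
          gcongr
      _ = _ := by ring
  · refine Summable.of_norm ?_
    have := hb z.im hz
    refine this.congr fun m => ?_
    rw [norm_mul, norm_ee]

/-- The coefficients of `G_j`. -/
def bj (h : ℕ) (a : ℕ → ℂ) (j : ℕ) (m : ℕ) : ℂ :=
  a m * Complex.I ^ (j + 1) * (j.factorial : ℂ) * ((h : ℂ) / (2 * Real.pi * m)) ^ (j + 1)

theorem Gj_eq (h : ℕ) (a : ℕ → ℂ) (j : ℕ) (z : ℂ) : Gj h a j z = ∑' m : ℕ, bj h a j m * ee h m z :=
  rfl

theorem bj_le (h : ℕ) (a : ℕ → ℂ) (j m : ℕ) :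
    ‖bj h a j m‖ ≤ ((j.factorial : ℝ) * ((h : ℝ) / (2 * Real.pi)) ^ (j + 1)) * ‖a m‖ := by
  have hpi := Real.pi_pos
  have h1 : ‖bj h a j m‖ = ‖a m‖ * (j.factorial : ℝ) * ((h : ℝ) / (2 * Real.pi * m)) ^ (j + 1) := by
    rw [bj, norm_mul, norm_mul, norm_mul, norm_pow, norm_pow, norm_div, norm_mul, norm_mul]
    simp [abs_of_pos hpi]
  rw [h1]
  have h2 : ((h : ℝ) / (2 * Real.pi * m)) ≤ (h : ℝ) / (2 * Real.pi) := by
    rcases Nat.eq_zero_or_pos m with rfl | hm
    · simp; positivity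
    · have : (1 : ℝ) ≤ m := by exact_mod_cast hm
      apply div_le_div_of_nonneg_left (by positivity) (by positivity)
      nlinarith
  have h3 : ((h : ℝ) / (2 * Real.pi * m)) ^ (j + 1) ≤ ((h : ℝ) / (2 * Real.pi)) ^ (j + 1) := by
    gcongr
  calc _ ≤ ‖a m‖ * (j.factorial : ℝ) * ((h : ℝ) / (2 * Real.pi)) ^ (j + 1) := by gcongr
    _ = _ := by ring

theorem bj_summable (h : ℕ) (a : ℕ → ℂ) (j : ℕ)
    (ha : ∀ y : ℝ, 0 < y → Summable fun m : ℕ => ‖a m‖ * Real.exp (-(2 * Real.pi * m * y / h)))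
    (y : ℝ) (hy : 0 < y) :
    Summable fun m : ℕ => ‖bj h a j m‖ * Real.exp (-(2 * Real.pi * m * y / h)) := by
  refine Summable.of_nonneg_of_le (fun m => by positivity) (fun m => ?_)
    ((ha y hy).mul_left ((j.factorial : ℝ) * ((h : ℝ) / (2 * Real.pi)) ^ (j + 1)))
  rw [← mul_assoc]
  exact mul_le_mul_of_nonneg_right (bj_le h a j m) (Real.exp_pos _).le

theorem bj_zero (h : ℕ) (a : ℕ → ℂ) (j : ℕ) (ha0 : a 0 = 0) : bj h a j 0 = 0 := by
  simp [bj, ha0]

theorem bj_succ (h : ℕ) (hh : h ≠ 0) (a : ℕ → ℂ) (j m : ℕ) (ha0 : a 0 = 0) :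
    bj h a (j + 1) m * (2 * Real.pi * Complex.I * m / h) = -((j : ℂ) + 1) * bj h a j m := by
  rcases Nat.eq_zero_or_pos m with rfl | hm
  · simp [bj, ha0]
  · have h1 : (m : ℂ) ≠ 0 := by exact_mod_cast hm.ne'
    have h2 : (h : ℂ) ≠ 0 := by exact_mod_cast hh
    have h3 : (Real.pi : ℂ) ≠ 0 := by exact_mod_cast Real.pi_ne_zero
    simp only [bj, Nat.factorial_succ, pow_succ (_ / _) (j + 1), pow_succ Complex.I (j + 1)]
    push_cast
    have h4 : (h : ℂ) / (2 * Real.pi * m) * (2 * Real.pi * m / h) = 1 := by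
      field_simp
    have h5 := Complex.I_mul_I
    linear_combination (a m * Complex.I ^ (j + 1) * (((j : ℂ) + 1) * (j.factorial : ℂ)) *
      ((h : ℂ) / (2 * Real.pi * m)) ^ (j + 1) * Complex.I * Complex.I) * h4 +
      (a m * Complex.I ^ (j + 1) * (((j : ℂ) + 1) * (j.factorial : ℂ)) *
      ((h : ℂ) / (2 * Real.pi * m)) ^ (j + 1)) * h5

theorem bj_first (h : ℕ) (hh : h ≠ 0) (a : ℕ → ℂ) (m : ℕ) (ha0 : a 0 = 0) :
    bj h a 0 m * (2 * Real.pi * Complex.I * m / h) = -a m := by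
  rcases Nat.eq_zero_or_pos m with rfl | hm
  · simp [bj, ha0]
  · have h1 : (m : ℂ) ≠ 0 := by exact_mod_cast hm.ne'
    have h2 : (h : ℂ) ≠ 0 := by exact_mod_cast hh
    have h3 : (Real.pi : ℂ) ≠ 0 := by exact_mod_cast Real.pi_ne_zero
    simp only [bj, Nat.factorial_zero, zero_add, pow_one, Nat.cast_one, mul_one]
    have h4 : (h : ℂ) / (2 * Real.pi * m) * (2 * Real.pi * m / h) = 1 := by
      field_simp
    have h5 := Complex.I_mul_I
    linear_combination (a m * Complex.I * Complex.I) * h4 + a m * h5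

theorem XZ_coeff (m i : ℕ) (w : ℂ) : (XZ m w).coeff i = (-w) ^ (m - i) * (m.choose i : ℂ) := by
  have : XZ m w = (Polynomial.X + Polynomial.C (-w)) ^ m := by
    rw [XZ, map_neg, sub_eq_add_neg]
  rw [this, Polynomial.coeff_X_add_C_pow]

theorem XZ_deriv (m i : ℕ) (z : ℂ) :
    HasDerivAt (fun w : ℂ => (XZ m w).coeff i) (-(m : ℂ) * (XZ (m - 1) z).coeff i) z := by
  simp only [XZ_coeff]
  have h2 : HasDerivAt (fun w : ℂ => (-w) ^ (m - i)) (((m - i : ℕ) : ℂ) * (-z) ^ (m - i - 1) * -1) z :=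
    (hasDerivAt_neg z).pow (m - i)
  have h3 := h2.mul_const (m.choose i : ℂ)
  have h7 : ((m - i : ℕ) : ℂ) * (-z) ^ (m - i - 1) * -1 * (m.choose i : ℂ)
      = -(m : ℂ) * ((-z) ^ (m - 1 - i) * ((m - 1).choose i : ℂ)) := ?_
  · rw [h7] at h3
    exact h3
  rcases Nat.lt_or_ge i m with him | him
  · have h4 : m - 1 - i = m - i - 1 := by omega
    rw [h4]
    have h5 : ((m - i : ℕ) : ℂ) * (m.choose i : ℂ) = (m : ℂ) * ((m - 1).choose i : ℂ) := by
      have : (m - i) * m.choose i = m * (m - 1).choose i := by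
        obtain ⟨m', rfl⟩ : ∃ m', m = m' + 1 := ⟨m - 1, by omega⟩
        have h7 := Nat.choose_mul_succ_eq m' i
        simp only [Nat.add_sub_cancel]
        rw [mul_comm, ← h7, mul_comm]
      exact_mod_cast this
    linear_combination (-(-z) ^ (m - i - 1)) * h5
  · have h4 : m - i = 0 := by omega
    rw [h4]
    rcases Nat.eq_zero_or_pos m with rfl | hm
    · simp
    · have : (m - 1).choose i = 0 := Nat.choose_eq_zero_of_lt (by omega)
      simp [this]

theorem sum_ident (n : ℕ) (F : ℂ) (g g' c : ℕ → ℂ) (h0 : g' 0 = -F)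
    (h1 : ∀ j, g' (j + 1) = -((j : ℂ) + 1) * g j) :
    -∑ j ∈ Finset.range (n + 1), ((n.choose j : ℂ) * (-1) ^ j * g' j * c (n - j) +
      (n.choose j : ℂ) * (-1) ^ j * g j * (-((n - j : ℕ) : ℂ) * c (n - j - 1))) = F * c n := by
  rw [Finset.sum_add_distrib, Finset.sum_range_succ' _ n, Finset.sum_range_succ _ n]
  simp only [Nat.choose_zero_right, Nat.cast_one, pow_zero, h0, Nat.sub_zero, Nat.choose_self,
    Nat.sub_self, Nat.cast_zero]
  have : ∑ j ∈ Finset.range n, (n.choose (j + 1) : ℂ) * (-1) ^ (j + 1) * g' (j + 1) * c (n - (j + 1))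
      + ∑ j ∈ Finset.range n, (n.choose j : ℂ) * (-1) ^ j * g j *
        (-((n - j : ℕ) : ℂ) * c (n - j - 1)) = 0 := by
    rw [← Finset.sum_add_distrib]
    refine Finset.sum_eq_zero fun j hj => ?_
    have hj' : j < n := Finset.mem_range.mp hj
    have h2 : ((n.choose (j + 1) : ℕ) : ℂ) * ((j : ℂ) + 1) = (n.choose j : ℂ) * ((n - j : ℕ) : ℂ) := by
      exact_mod_cast Nat.choose_succ_right_eq n j
    rw [h1, show n - (j + 1) = n - j - 1 by omega, pow_succ]
    linear_combination ((-1) ^ j * g j * c (n - j - 1)) * h2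
  linear_combination -this

end EPrimP

open EPrimP

theorem ePrim : EPrim := by
  intro n h F a hh ha0 hF
  have hhpos : (0 : ℝ) < h := by exact_mod_cast Nat.pos_of_ne_zero hh
  have ha : ∀ y : ℝ, 0 < y → Summable fun m : ℕ => ‖a m‖ * Real.exp (-(2 * Real.pi * m * y / h)) := by
    intro y hy
    have h1 := (hF ⟨(y : ℂ) * Complex.I, by simpa using hy⟩).summable.norm
    refine h1.congr fun m => ?_
    rw [norm_mul]
    have := norm_ee h m ((y : ℂ) * Complex.I)
    rw [ee] at this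
    simp only [Complex.mul_im, Complex.ofReal_re, Complex.I_im, mul_one, Complex.ofReal_im,
      Complex.I_re, mul_zero, add_zero] at this
    rw [← this]
  have hG0 : ∀ z : ℍ, HasDerivAt (Gj h a 0) (-F z) (z : ℂ) := by
    intro z
    have h1 := series_deriv h hh (bj h a 0) (bj_summable h a 0 ha) z z.im_pos
    have h2 : ∑' m : ℕ, bj h a 0 m * ((2 * Real.pi * Complex.I * m / h) * ee h m z) = -F z := by
      rw [← (hF z).tsum_eq, ← tsum_neg]
      refine tsum_congr fun m => ?_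
      rw [← mul_assoc, bj_first h hh a m ha0, ee]
      ring
    rw [h2] at h1
    exact h1
  have hGj : ∀ (j : ℕ) (z : ℍ), HasDerivAt (Gj h a (j + 1)) (-((j : ℂ) + 1) * Gj h a j z) (z : ℂ) := by
    intro j z
    have h1 := series_deriv h hh (bj h a (j + 1)) (bj_summable h a (j + 1) ha) z z.im_pos
    have h2 : ∑' m : ℕ, bj h a (j + 1) m * ((2 * Real.pi * Complex.I * m / h) * ee h m z)
        = -((j : ℂ) + 1) * Gj h a j z := by
      rw [Gj_eq, ← tsum_mul_left]
      refine tsum_congr fun m => ?_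
      rw [← mul_assoc, bj_succ h hh a j m ha0]
      ring
    rw [h2] at h1
    exact h1
  have hcoeff : ∀ (w : ℂ) (i : ℕ), (PE n h a w).coeff i = -∑ j ∈ Finset.range (n + 1),
      ((n.choose j : ℂ) * (-1) ^ j * Gj h a j w) * (XZ (n - j) w).coeff i := by
    intro w i
    simp only [PE, Polynomial.coeff_neg, Polynomial.finsetSum_coeff, Polynomial.coeff_C_mul]
  refine ⟨⟨?_, ?_⟩, ?_⟩
  · intro z
    simp only [PE, Polynomial.natDegree_neg]
    refine Polynomial.natDegree_sum_le_of_forall_le _ _ fun j _ => ?_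
    refine (Polynomial.natDegree_C_mul_le _ _).trans ?_
    rw [XZ, Polynomial.natDegree_pow, Polynomial.natDegree_X_sub_C]
    omega
  · intro z i
    -- replace ofComplex
    have hev : (fun w : ℂ => (PE n h a (ofComplex w : ℂ)).coeff i) =ᶠ[𝓝 (z : ℂ)]
        (fun w : ℂ => (PE n h a w).coeff i) := by
      have : {w : ℂ | 0 < w.im} ∈ 𝓝 (z : ℂ) :=
        (isOpen_lt continuous_const Complex.continuous_im).mem_nhds z.im_pos
      filter_upwards [this] with w hw
      rw [ofComplex_apply_of_im_pos hw]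
    refine HasDerivAt.congr_of_eventuallyEq ?_ hev
    have hfun : (fun w : ℂ => (PE n h a w).coeff i) = fun w => -∑ j ∈ Finset.range (n + 1),
      ((n.choose j : ℂ) * (-1) ^ j * Gj h a j w) * (XZ (n - j) w).coeff i := by
      funext w
      exact hcoeff w i
    rw [hfun]
    have hd : ∀ j : ℕ, ∃ g' : ℂ, HasDerivAt (Gj h a j) g' (z : ℂ) ∧
        (j = 0 → g' = -F z) ∧ (∀ j', j = j' + 1 → g' = -((j' : ℂ) + 1) * Gj h a j' z) := by
      intro j
      rcases j with _ | j
      · exact ⟨_, hG0 z, fun _ => rfl, fun j' hj' => by omega⟩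
      · refine ⟨_, hGj j z, fun hj => by omega, fun j' hj' => ?_⟩
        have : j' = j := by omega
        rw [this]
    choose g' hg' hg0 hgs using hd
    have hmain := sum_ident n (F z) (fun j => Gj h a j z) g' (fun m => (XZ m (z : ℂ)).coeff i)
      (hg0 0 rfl) (fun j => hgs (j + 1) j rfl)
    rw [← hmain]
    refine HasDerivAt.neg ?_
    refine HasDerivAt.fun_sum fun j _ => ?_
    have h1 := ((hg' j).const_mul ((n.choose j : ℂ) * (-1) ^ j)).mul (XZ_deriv (n - j) i z)
    exact h1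
  · intro x i
    -- decay
    have hc : (0 : ℝ) < 2 * Real.pi / h := by positivity
    have hdec : ∀ (j r : ℕ), Tendsto (fun y : ℝ => Gj h a j ((x : ℂ) + y * Complex.I) *
        (-((x : ℂ) + y * Complex.I)) ^ r) atTop (𝓝 0) := by
      intro j r
      set K : ℝ := ∑' m : ℕ, ‖bj h a j m‖ * Real.exp (-(2 * Real.pi * m * 1 / h)) with hK
      have hbd : ∀ y : ℝ, 1 ≤ y → ‖Gj h a j ((x : ℂ) + y * Complex.I)‖
          ≤ K * Real.exp (2 * Real.pi / h) * Real.exp (-(2 * Real.pi / h) * y) := by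
        intro y hy
        have hypos : 0 < y := by linarith
        have him : ((x : ℂ) + y * Complex.I).im = y := by simp
        have hs1 : Summable fun m : ℕ => ‖bj h a j m * ee h m ((x : ℂ) + y * Complex.I)‖ := by
          refine (bj_summable h a j ha y hypos).congr fun m => ?_
          rw [norm_mul, norm_ee, him]
        have hs2 := (bj_summable h a j ha 1 one_pos).mul_right
          (Real.exp (2 * Real.pi / h) * Real.exp (-(2 * Real.pi / h) * y))
        rw [Gj_eq]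
        refine (norm_tsum_le_tsum_norm hs1).trans ?_
        rw [mul_assoc, hK, ← tsum_mul_right]
        refine hs1.tsum_le_tsum (fun m => ?_) hs2
        rw [norm_mul, norm_ee, him]
        rcases Nat.eq_zero_or_pos m with rfl | hm
        · rw [bj_zero h a j ha0]; simp
        · rw [mul_assoc ‖bj h a j m‖]
          refine mul_le_mul_of_nonneg_left ?_ (norm_nonneg _)
          rw [← Real.exp_add, ← Real.exp_add]
          apply Real.exp_le_exp.mpr
          have hm1 : (1 : ℝ) ≤ m := by exact_mod_cast hm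
          have h1 : 0 ≤ (2 * Real.pi / h) * (((m : ℝ) - 1) * (y - 1)) := by
            apply mul_nonneg hc.le
            apply mul_nonneg <;> linarith
          have h2 : 2 * Real.pi * m * y / h = (2 * Real.pi / h) * (m * y) := by ring
          have h3 : 2 * Real.pi * m * 1 / h = (2 * Real.pi / h) * m := by ring
          rw [h2, h3]
          nlinarith
      have hlim := tendsto_rpow_mul_exp_neg_mul_atTop_nhds_zero (r : ℝ) (2 * Real.pi / h) hc
      have hlim2 := hlim.const_mul (K * Real.exp (2 * Real.pi / h) * 2 ^ r)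
      rw [mul_zero] at hlim2
      refine squeeze_zero_norm' ?_ hlim2
      filter_upwards [eventually_ge_atTop (1 : ℝ), eventually_ge_atTop |x|] with y hy hyx
      rw [norm_mul, norm_pow, norm_neg]
      have h1 : ‖(x : ℂ) + y * Complex.I‖ ≤ 2 * y := by
        refine (norm_add_le _ _).trans ?_
        rw [norm_mul, Complex.norm_real, Complex.norm_real, Complex.norm_I, Real.norm_eq_abs,
          Real.norm_eq_abs, abs_of_nonneg (by linarith : (0 : ℝ) ≤ y)]
        linarith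
      have h2 : ‖(x : ℂ) + y * Complex.I‖ ^ r ≤ (2 * y) ^ r := by gcongr
      have hKnn : 0 ≤ K := tsum_nonneg fun m => by positivity
      calc ‖Gj h a j ((x : ℂ) + y * Complex.I)‖ * ‖(x : ℂ) + y * Complex.I‖ ^ r
          ≤ (K * Real.exp (2 * Real.pi / h) * Real.exp (-(2 * Real.pi / h) * y)) * (2 * y) ^ r := by
            refine mul_le_mul (hbd y hy) h2 (by positivity) ?_
            exact mul_nonneg (mul_nonneg hKnn (Real.exp_pos _).le) (Real.exp_pos _).le
        _ = K * Real.exp (2 * Real.pi / h) * 2 ^ r * (y ^ (r : ℝ) * Real.exp (-(2 * Real.pi / h) * y)) := by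
            rw [Real.rpow_natCast, mul_pow]; ring
    have hev : (fun y : ℝ => (PE n h a (ofComplex ((x : ℂ) + y * Complex.I) : ℂ)).coeff i)
        =ᶠ[atTop] fun y : ℝ => -∑ j ∈ Finset.range (n + 1),
          ((n.choose j : ℂ) * (-1) ^ j * ((n - j).choose i : ℂ)) *
          (Gj h a j ((x : ℂ) + y * Complex.I) * (-((x : ℂ) + y * Complex.I)) ^ (n - j - i)) := by
      filter_upwards [eventually_gt_atTop (0 : ℝ)] with y hy
      have him : 0 < ((x : ℂ) + y * Complex.I).im := by simpa using hy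
      rw [ofComplex_apply_of_im_pos him]
      simp only
      rw [hcoeff]
      congr 1
      refine Finset.sum_congr rfl fun j _ => ?_
      rw [XZ_coeff]
      ring
    refine Tendsto.congr' hev.symm ?_
    have hsum : Tendsto (fun y : ℝ => ∑ j ∈ Finset.range (n + 1),
          ((n.choose j : ℂ) * (-1) ^ j * ((n - j).choose i : ℂ)) *
          (Gj h a j ((x : ℂ) + y * Complex.I) * (-((x : ℂ) + y * Complex.I)) ^ (n - j - i)))
          atTop (𝓝 (∑ j ∈ Finset.range (n + 1),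
          ((n.choose j : ℂ) * (-1) ^ j * ((n - j).choose i : ℂ)) * 0)) :=
      tendsto_finsetSum _ fun j _ => (hdec j (n - j - i)).const_mul _
    simp only [mul_zero, Finset.sum_const_zero] at hsum
    have := hsum.neg
    rwa [neg_zero] at this

end Gou

end
end
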