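import Pool.Agent.Work.MP_602313_nt.Bd.B15

/-! Bundle of small proof modules (one section per former module). -/

section

/-!
MP_602313_nt, item ESL: elements of SL(2, ℤ) as rational and real matrices.
-/

open scoped MatrixGroups ModularForm UpperHalfPlane Manifold Pointwise Polynomial
open CongruenceSubgroup UpperHalfPlane Matrix Matrix.SpecialLinearGroup Filter Topology

noncomputable section

namespace Gou

theorem eSL : ESL := by
  intro g h
  have h1 : gR (gA (mx g) h) = (mapGL ℝ g) := by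
    ext i j
    fin_cases i <;> fin_cases j <;>
      simp [gR, gA, GeneralLinearGroup.mkOfDetNeZero]
  refine ⟨h1, ?_, ?_⟩
  · intro z
    rw [h1]
    rfl
  · intro k F
    rw [h1]
    rfl

end Gou

end
end

section

/-!
MP_602313_nt, module C2, item ETrans (helper30): transformation of boundary values.
-/

open scoped MatrixGroups ModularForm UpperHalfPlane Manifold Pointwise Polynomial
open CongruenceSubgroup UpperHalfPlane Matrix Matrix.SpecialLinearGroup Filter Topology

noncomputable section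

namespace Gou

namespace ETransAux

/-- Hermite form. -/
theorem hermite (M : Matrix (Fin 2) (Fin 2) ℤ) (hM : 0 < M.det) :
    ∃ (g : SL(2, ℤ)) (a b d : ℤ), 0 < a ∧ 0 < d ∧ M = mx g * !![a, b; 0, d] := by
  rw [Matrix.det_fin_two] at hM
  set a : ℤ := (Int.gcd (M 0 0) (M 1 0) : ℤ) with ha
  have ha0 : 0 < a := by
    have h1 : a ≠ 0 := by
      intro h
      rw [ha] at h
      have h2 : Int.gcd (M 0 0) (M 1 0) = 0 := by exact_mod_cast h
      rw [Int.gcd_eq_zero_iff] at h2
      rw [h2.1, h2.2] at hM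
      simp at hM
    have h2 : 0 ≤ a := by rw [ha]; positivity
    omega
  obtain ⟨m, hm⟩ : a ∣ M 0 0 := Int.gcd_dvd_left _ _
  obtain ⟨k, hk⟩ : a ∣ M 1 0 := Int.gcd_dvd_right _ _
  obtain ⟨y, x, hxy⟩ : ∃ y x : ℤ, y * m + x * k = 1 := by
    refine ⟨Int.gcdA (M 0 0) (M 1 0), Int.gcdB (M 0 0) (M 1 0), ?_⟩
    have h1 := Int.gcd_eq_gcd_ab (M 0 0) (M 1 0)
    rw [← ha] at h1
    have h2 : a * (Int.gcdA (M 0 0) (M 1 0) * m + Int.gcdB (M 0 0) (M 1 0) * k) = a * 1 := by
      calc a * (Int.gcdA (M 0 0) (M 1 0) * m + Int.gcdB (M 0 0) (M 1 0) * k)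
          = (a * m) * Int.gcdA (M 0 0) (M 1 0) + (a * k) * Int.gcdB (M 0 0) (M 1 0) := by ring
        _ = a * 1 := by rw [← hm, ← hk, ← h1, mul_one]
    exact mul_left_cancel₀ ha0.ne' h2
  obtain ⟨g, g1, g2, g3, g4⟩ : ∃ g : SL(2, ℤ), g 0 0 = m ∧ g 0 1 = -x ∧ g 1 0 = k ∧ g 1 1 = y := by
    refine ⟨⟨!![m, -x; k, y], ?_⟩, rfl, rfl, rfl, rfl⟩
    rw [Matrix.det_fin_two_of]
    linear_combination hxy
  have hd : 0 < m * M 1 1 - k * M 0 1 := by
    have h1 : 0 < a * (m * M 1 1 - k * M 0 1) := by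
      have : a * (m * M 1 1 - k * M 0 1) = M 0 0 * M 1 1 - M 0 1 * M 1 0 := by
        rw [hm, hk]; ring
      rw [this]; exact hM
    exact (pos_iff_pos_of_mul_pos h1).mp ha0
  refine ⟨g, a, y * M 0 1 + x * M 1 1, m * M 1 1 - k * M 0 1, ha0, hd, ?_⟩
  ext i j
  fin_cases i <;> fin_cases j <;>
    simp only [mx, Matrix.mul_apply, Fin.sum_univ_two, Fin.zero_eta, Fin.isValue, Fin.mk_one,
      Matrix.of_apply, Matrix.cons_val', Matrix.cons_val_zero, Matrix.cons_val_one,
      Matrix.cons_val_fin_one, g1, g2, g3, g4]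
  · rw [hm]; ring
  · linear_combination (-(M 0 1)) * hxy
  · rw [hk]; ring
  · linear_combination (-(M 1 1)) * hxy

/-- Continuity of the action, coefficientwise. -/
theorem tendsto_symAct {ι : Type*} {l : Filter ι} (n : ℕ) (g : Matrix (Fin 2) (Fin 2) ℤ)
    (F : ι → ℂ[X]) (L : ℂ[X]) (h : ∀ i, Tendsto (fun y => (F y).coeff i) l (𝓝 (L.coeff i)))
    (i : ℕ) : Tendsto (fun y => (symAct n g (F y)).coeff i) l (𝓝 ((symAct n g L).coeff i)) := by
  simp only [symAct, Polynomial.finsetSum_coeff]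
  apply tendsto_finsetSum
  intro k _
  simp only [mul_assoc, Polynomial.coeff_C_mul]
  exact (h k).mul_const _

theorem point (A : Matrix (Fin 2) (Fin 2) ℤ) (hA : 0 < A.det) (g g' : SL(2, ℤ)) (a b d : ℤ)
    (ha : 0 < a) (hd : 0 < d) (h : A * mx g = mx g' * !![a, b; 0, d]) (x y : ℝ) (hy : 0 < y) :
    gR (gA A hA) • (g • ofComplex ((x : ℂ) + y * Complex.I))
      = g' • ofComplex ((((a * x + b) / d : ℝ) : ℂ) + ((a / d * y : ℝ) : ℂ) * Complex.I) := by
  have hdu : 0 < (!![a, b; 0, d] : Matrix (Fin 2) (Fin 2) ℤ).det := by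
    rw [Matrix.det_fin_two_of]
    nlinarith
  have e1 : gR (gA A hA) * mapGL ℝ g = mapGL ℝ g' * gR (gA !![a, b; 0, d] hdu) := by
    apply Units.ext
    have h1 := congrArg (fun M : Matrix (Fin 2) (Fin 2) ℤ => M.map (Int.castRingHom ℝ)) h
    simp only [Matrix.map_mul] at h1
    have h2 : ∀ (B : Matrix (Fin 2) (Fin 2) ℤ) (hB : 0 < B.det),
        (gR (gA B hB)).val = B.map (Int.castRingHom ℝ) := by
      intro B hB
      ext i j
      simp [gR, gA, GeneralLinearGroup.mkOfDetNeZero]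
    rw [Units.val_mul, Units.val_mul, h2, h2]
    exact h1
  have hd' : (d : ℝ) ≠ 0 := by exact_mod_cast hd.ne'
  have hdR : (0 : ℝ) < d := by exact_mod_cast hd
  have haR : (0 : ℝ) < a := by exact_mod_cast ha
  have him : 0 < ((x : ℂ) + y * Complex.I).im := by simpa using hy
  have him' : 0 < ((((a * x + b) / d : ℝ) : ℂ) + ((a / d * y : ℝ) : ℂ) * Complex.I).im := by
    have : ((((a * x + b) / d : ℝ) : ℂ) + ((a / d * y : ℝ) : ℂ) * Complex.I).im
      = a / d * y := by simp
    rw [this]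
    positivity
  have e2 : gR (gA !![a, b; 0, d] hdu) • ofComplex ((x : ℂ) + y * Complex.I)
      = ofComplex ((((a * x + b) / d : ℝ) : ℂ) + ((a / d * y : ℝ) : ℂ) * Complex.I) := by
    rw [ofComplex_apply_of_im_pos him, ofComplex_apply_of_im_pos him']
    ext
    rw [UpperHalfPlane.coe_smul_of_det_pos]
    · have hdc : (d : ℂ) ≠ 0 := by exact_mod_cast hd.ne'
      simp [gR, gA, GeneralLinearGroup.mkOfDetNeZero, num, denom]
      field_simp
      ring
    · have : (gR (gA !![a, b; 0, d] hdu)).det.val = (a : ℝ) * d := by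
        simp [gR, gA, GeneralLinearGroup.mkOfDetNeZero, Matrix.det_fin_two]
      rw [this]
      positivity
  rw [← e2]
  show gR (gA A hA) • (mapGL ℝ g • ofComplex ((x : ℂ) + y * Complex.I))
    = mapGL ℝ g' • (gR (gA !![a, b; 0, d] hdu) • ofComplex ((x : ℂ) + y * Complex.I))
  rw [← mul_smul, ← mul_smul, e1]

end ETransAux

open ETransAux in
theorem eTrans (h6 : BComp) : ETrans := by
  intro n P Pc A hA hP hPc
  obtain ⟨h1, h2, h3⟩ := hPc
  refine ⟨?_, ?_, ?_⟩
  · intro r
    exact (h6 ℂ n A 1 _ (h1 _)).2.1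
  · intro c r hc
    show symAct n A (Pc (A.mulVec (c • r))) = symAct n A (Pc (A.mulVec r))
    rw [Matrix.mulVec_smul, h2 c _ hc]
  · intro g x i
    have hM : 0 < (A * mx g).det := by
      rw [Matrix.det_mul]
      have : (mx g).det = 1 := g.det_coe
      rw [this, mul_one]
      exact hA
    obtain ⟨g', a, b, d, ha, hd, hM'⟩ := hermite (A * mx g) hM
    have hcomp : ∀ F : ℂ[X], F.natDegree ≤ n → symAct n (mx g) (symAct n A F)
        = symAct n !![a, b; 0, d] (symAct n (mx g') F) := by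
      intro F hF
      rw [← (h6 ℂ n A (mx g) F hF).1, hM', (h6 ℂ n (mx g') _ F hF).1]
    have hlim := fun j => h3 g' ((a * x + b) / d) j
    have hdR : (0 : ℝ) < d := by exact_mod_cast hd
    have haR : (0 : ℝ) < a := by exact_mod_cast ha
    have hy : Tendsto (fun y : ℝ => (a / d * y : ℝ)) atTop atTop :=
      Tendsto.const_mul_atTop (by positivity) tendsto_id
    have hlim2 := fun j => (hlim j).comp hy
    have hlim3 := tendsto_symAct n !![a, b; 0, d] _ _ hlim2 i
    have hend : symAct n (mx g) (symAct n A (Pc (A.mulVec ((mx g).mulVec cI))))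
        = symAct n !![a, b; 0, d] (symAct n (mx g') (Pc ((mx g').mulVec cI))) := by
      rw [hcomp _ (h1 _)]
      refine congrArg (fun F => symAct n !![a, b; 0, d] (symAct n (mx g') F)) ?_
      rw [Matrix.mulVec_mulVec, hM', ← Matrix.mulVec_mulVec]
      have : (!![a, b; 0, d] : Matrix (Fin 2) (Fin 2) ℤ).mulVec cI = a • cI := by
        ext j; fin_cases j <;> simp [cI, Matrix.mulVec, dotProduct, Fin.sum_univ_two]
      rw [this, Matrix.mulVec_smul]
      exact h2 a _ ha.ne'
    show Tendsto (fun y : ℝ => (symAct n (mx g) (symAct n A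
      (P (gR (gA A hA) • (g • ofComplex ((x : ℂ) + y * Complex.I)))))).coeff i) atTop
      (𝓝 ((symAct n (mx g) (symAct n A (Pc (A.mulVec ((mx g).mulVec cI))))).coeff i))
    rw [hend]
    refine hlim3.congr' ?_
    filter_upwards [eventually_gt_atTop (0 : ℝ)] with y hy0
    rw [hcomp _ (hP _), point A hA g g' a b d ha hd hM' x y hy0]
    rfl

end Gou

end
end

section

/-!
MP_602313_nt, item EUniq: uniqueness of boundary values.
-/

open scoped MatrixGroups ModularForm UpperHalfPlane Manifold Pointwise Polynomial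
open CongruenceSubgroup UpperHalfPlane Matrix Matrix.SpecialLinearGroup Filter Topology

noncomputable section

namespace Gou

namespace EUniqAux

/-- Every nonzero vector is `c g cI`. -/
lemma exists_vec (r : Vec) (hr : r ≠ 0) : ∃ (c : ℤ) (g : SL(2, ℤ)), c ≠ 0 ∧
    r = c • (mx g).mulVec cI := by
  have hd : Int.gcd (r 0) (r 1) ≠ 0 := by
    intro h
    apply hr
    have h1 := Int.gcd_eq_zero_iff.mp h
    ext i
    fin_cases i
    · exact h1.1
    · exact h1.2
  obtain ⟨a, ha⟩ := Int.gcd_dvd_left (r 0) (r 1)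
  obtain ⟨b, hb⟩ := Int.gcd_dvd_right (r 0) (r 1)
  have hcop : IsCoprime a b := by
    have hd' : ((Int.gcd (r 0) (r 1) : ℕ) : ℤ) ≠ 0 := by exact_mod_cast hd
    have hbez := Int.gcd_eq_gcd_ab (r 0) (r 1)
    refine ⟨Int.gcdA (r 0) (r 1), Int.gcdB (r 0) (r 1), ?_⟩
    have e : ((Int.gcd (r 0) (r 1) : ℕ) : ℤ) * (Int.gcdA (r 0) (r 1) * a + Int.gcdB (r 0) (r 1) * b)
        = ((Int.gcd (r 0) (r 1) : ℕ) : ℤ) * 1 := by
      rw [mul_one]
      calc ((Int.gcd (r 0) (r 1) : ℕ) : ℤ) * (Int.gcdA (r 0) (r 1) * a + Int.gcdB (r 0) (r 1) * b)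
          = (((Int.gcd (r 0) (r 1) : ℕ) : ℤ) * a) * Int.gcdA (r 0) (r 1)
            + (((Int.gcd (r 0) (r 1) : ℕ) : ℤ) * b) * Int.gcdB (r 0) (r 1) := by ring
        _ = r 0 * Int.gcdA (r 0) (r 1) + r 1 * Int.gcdB (r 0) (r 1) := by rw [← ha, ← hb]
        _ = _ := hbez.symm
    exact mul_left_cancel₀ hd' e
  obtain ⟨u, v, huv⟩ := hcop
  refine ⟨Int.gcd (r 0) (r 1), ⟨!![a, -v; b, u], ?_⟩, by exact_mod_cast hd, ?_⟩
  · rw [Matrix.det_fin_two_of]
    linarith
  · ext i
    fin_cases i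
    · have e : (((Int.gcd (r 0) (r 1) : ℕ) : ℤ) • (!![a, -v; b, u]).mulVec cI) 0
          = ((Int.gcd (r 0) (r 1) : ℕ) : ℤ) * a := by
        simp [cI, Matrix.mulVec, dotProduct, Fin.sum_univ_two]
      exact ha.trans e.symm
    · have e : (((Int.gcd (r 0) (r 1) : ℕ) : ℤ) • (!![a, -v; b, u]).mulVec cI) 1
          = ((Int.gcd (r 0) (r 1) : ℕ) : ℤ) * b := by
        simp [cI, Matrix.mulVec, dotProduct, Fin.sum_univ_two]
      exact hb.trans e.symm

end EUniqAux

open EUniqAux

theorem eUniq (h6 : BComp) : EUniq := by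
  intro n P P' Pc Pc' c hc hB hB' hP r hr
  obtain ⟨d, g, hd, hrg⟩ := exists_vec r hr
  rw [hrg, hB.2.1 d _ hd, hB'.2.1 d _ hd]
  set s := (mx g).mulVec cI with hs
  have hdeg : (Pc' s).natDegree ≤ n := hB'.1 s
  have hdeg2 : (Pc s + c).natDegree ≤ n :=
    (Polynomial.natDegree_add_le _ _).trans (max_le (hB.1 s) hc)
  have key : symAct n (mx g) (Pc' s) = symAct n (mx g) (Pc s + c) := by
    ext i
    have t1 := hB.2.2 g 0 i
    have t2 := hB'.2.2 g 0 i
    have t3 := t1.add_const ((symAct n (mx g) c).coeff i)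
    have e : (fun y : ℝ => (symAct n (mx g) (P (g • ofComplex (((0 : ℝ) : ℂ) + y * Complex.I)))).coeff i
        + (symAct n (mx g) c).coeff i) =
        fun y : ℝ => (symAct n (mx g) (P' (g • ofComplex (((0 : ℝ) : ℂ) + y * Complex.I)))).coeff i := by
      ext y
      rw [hP, symAct_add, Polynomial.coeff_add]
    rw [e] at t3
    have := tendsto_nhds_unique t2 t3
    rw [this, symAct_add, Polynomial.coeff_add]
  have hinv : ∀ f : ℂ[X], f.natDegree ≤ n → symAct n (mx g⁻¹) (symAct n (mx g) f) = f := by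
    intro f hf
    rw [← (h6 ℂ n (mx g) (mx g⁻¹) f hf).1]
    have : mx g * mx g⁻¹ = 1 := by
      rw [mx, mx, ← Matrix.SpecialLinearGroup.coe_mul, mul_inv_cancel,
        Matrix.SpecialLinearGroup.coe_one]
    rw [this]
    exact (h6 ℂ n 1 1 f hf).2.2
  rw [← hinv _ hdeg, key, hinv _ hdeg2]

end Gou

end
end

section

/-!
MP_602313_nt, module C2, item L7: the lower bound of the dimension.
-/

open scoped MatrixGroups ModularForm UpperHalfPlane Manifold Pointwise Modular
open CongruenceSubgroup UpperHalfPlane Matrix Matrix.SpecialLinearGroup ConjAct OnePoint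
open MeasureTheory

noncomputable section

namespace Gou

theorem l7Dim (h5 : DimOne) (h6 : DimInj) : L7Dim := by
  intro N hN hfd
  refine ⟨(Gamma0 N).index * (12 * (Gamma0 N).index + 11), fun k hk => ?_⟩
  obtain ⟨Ψ, hΨ⟩ := h6 N hN (k : ℤ)
  have hfin : Module.Finite ℂ (SN N (k : ℤ)) := hfd k
  have hfi : ∀ i : Fin (Gamma0 N).index,
      Module.Finite ℂ (ModularForm 𝒮ℒ ((k : ℤ) - 12 * ((i : ℕ) + 1))) := by
    intro i
    have hinj : Function.Injective (Ψ ∘ₗ LinearMap.single ℂ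
        (fun i : Fin (Gamma0 N).index => ModularForm 𝒮ℒ ((k : ℤ) - 12 * ((i : ℕ) + 1))) i) := by
      intro x y hxy
      rw [LinearMap.comp_apply, LinearMap.comp_apply] at hxy
      have h1 := congrFun (hΨ hxy) i
      simpa using h1
    exact Module.Finite.of_injective _ hinj
  have h7 := LinearMap.finrank_le_finrank_of_injective hΨ
  rw [Module.finrank_pi_fintype] at h7
  have h8 : ∀ i : Fin (Gamma0 N).index, (k : ℤ) - (12 * (Gamma0 N).index + 11) ≤
      12 * (Module.finrank ℂ (ModularForm 𝒮ℒ ((k : ℤ) - 12 * ((i : ℕ) + 1))) : ℤ) := by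
    intro i
    have h9 := h5 ((k : ℤ) - 12 * ((i : ℕ) + 1)) (by
      have : Even (k : ℤ) := by exact_mod_cast hk
      refine this.sub ?_
      exact Even.mul_right (by decide) _)
    have h10 : ((i : ℕ) : ℤ) + 1 ≤ (Gamma0 N).index := by
      have := i.isLt
      exact_mod_cast this
    linarith
  have h9 : ∑ _i : Fin (Gamma0 N).index, ((k : ℤ) - (12 * (Gamma0 N).index + 11)) ≤
      ∑ i : Fin (Gamma0 N).index,
        12 * (Module.finrank ℂ (ModularForm 𝒮ℒ ((k : ℤ) - 12 * ((i : ℕ) + 1))) : ℤ) :=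
    Finset.sum_le_sum fun i _ => h8 i
  rw [← Finset.mul_sum, Finset.sum_const, Finset.card_univ, Fintype.card_fin, nsmul_eq_mul] at h9
  have h10 : (∑ i : Fin (Gamma0 N).index,
      (Module.finrank ℂ (ModularForm 𝒮ℒ ((k : ℤ) - 12 * ((i : ℕ) + 1))) : ℤ)) ≤
      (Module.finrank ℂ (SN N (k : ℤ)) : ℤ) := by exact_mod_cast h7
  have h11 : ((Gamma0 N).index * k : ℤ) ≤ 12 * (Module.finrank ℂ (SN N (k : ℤ)) : ℤ) +
      (Gamma0 N).index * (12 * (Gamma0 N).index + 11) := by
    nlinarith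
  exact_mod_cast h11

end Gou

end
end

section

/-! L3b: reduction of the matrix (N 0; 0 1) γ. -/

open scoped MatrixGroups
open Matrix CongruenceSubgroup

namespace Gou

theorem matRed : MatRed := by
  intro N hN γ
  have hNz : (N : ℤ) ≠ 0 := by exact_mod_cast hN
  have hdet : γ 0 0 * γ 1 1 - γ 0 1 * γ 1 0 = 1 := by
    have := γ.2
    rw [Matrix.det_fin_two] at this
    exact this
  set a := γ 0 0 with ha
  set b := γ 0 1 with hb
  set c := γ 1 0 with hc
  set d := γ 1 1 with hd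
  set g : ℕ := Int.gcd (N * a) c with hg
  have hg0 : g ≠ 0 := by
    intro h0
    rw [hg, Int.gcd_eq_zero_iff] at h0
    obtain ⟨h1, h2⟩ := h0
    rcases mul_eq_zero.1 h1 with h | h
    · exact hNz h
    · rw [h, h2] at hdet; simp at hdet
  have hgz : (g : ℤ) ≠ 0 := by exact_mod_cast hg0
  have hgc : (g : ℤ) ∣ c := Int.gcd_dvd_right ..
  have hgNa : (g : ℤ) ∣ N * a := Int.gcd_dvd_left ..
  have hgN : (g : ℤ) ∣ N := by
    have h1 : (N : ℤ) = (N * a) * d - (N * b) * c := by linear_combination (-(N : ℤ)) * hdet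
    rw [h1]
    exact dvd_sub (Dvd.dvd.mul_right hgNa _) (Dvd.dvd.mul_left hgc _)
  have hgN' : g ∣ N := by exact_mod_cast hgN
  obtain ⟨k, hk⟩ := hgN'
  have hgpos : 0 < g := Nat.pos_of_ne_zero hg0
  have hNg : N / g = k := by rw [hk]; exact Nat.mul_div_cancel_left k hgpos
  obtain ⟨c', hc'⟩ := hgc
  obtain ⟨e, he⟩ := hgNa
  -- Bezout
  have hbez : (g : ℤ) = N * a * Int.gcdA (N * a) c + c * Int.gcdB (N * a) c := Int.gcd_eq_gcd_ab _ _
  set u := Int.gcdA (N * a) c
  set v := Int.gcdB (N * a) c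
  have hk' : (N : ℤ) = g * k := by rw [hk]; push_cast; ring
  have hδ : (!![e, -v; c', u]).det = 1 := by
    rw [Matrix.det_fin_two_of]
    apply mul_left_cancel₀ hgz
    rw [he, hc'] at hbez
    linear_combination (-1 : ℤ) * hbez
  refine ⟨⟨_, hδ⟩, u * N * b + v * d, g, hg0, ⟨k, hk⟩, ?_, ?_⟩
  · intro h
    rw [← h]; exact ⟨c', hc'⟩
  · rw [hNg]
    have hγ : (γ : Matrix (Fin 2) (Fin 2) ℤ) = !![a, b; c, d] := by
      rw [ha, hb, hc, hd]; exact Matrix.eta_fin_two _
    rw [hγ]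
    have e1 : (g : ℤ) * (e * u + c' * v) = g * 1 := by
      linear_combination (-u) * he - v * hc' - hbez
    have e1' : e * u + c' * v = 1 := mul_left_cancel₀ hgz e1
    have e2 : (g : ℤ) * (e * d - b * N * c') = g * k := by
      linear_combination (-d) * he + b * N * hc' + N * hdet + hk'
    have e2' : e * d - b * N * c' = k := mul_left_cancel₀ hgz e2
    ext i j
    fin_cases i <;> fin_cases j
    · simp [Matrix.mul_apply, Fin.sum_univ_two]; linear_combination he
    · simp [Matrix.mul_apply, Fin.sum_univ_two]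
      linear_combination (-(N : ℤ) * b) * e1' - v * e2'
    · simp [Matrix.mul_apply, Fin.sum_univ_two]; linear_combination hc'
    · simp [Matrix.mul_apply, Fin.sum_univ_two]
      linear_combination (-d) * e1' + u * e2'

end Gou

end

section

/-!
MP_602313_nt, module C2, item P1a: for every `z` only finitely many `γ` in `SL(2, ℤ)` move `z`
into the standard fundamental domain.
-/

open scoped MatrixGroups ModularForm UpperHalfPlane Manifold Pointwise Modular
open CongruenceSubgroup UpperHalfPlane Matrix Matrix.SpecialLinearGroup ConjAct OnePoint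
open MeasureTheory

noncomputable section

namespace Gou

/-- The imaginary part of `g τ` is at most `max (im τ) (1 / im τ)`. -/
theorem im_smul_le_max (g : SL(2, ℤ)) (τ : ℍ) : (g • τ).im ≤ max τ.im (1 / τ.im) := by
  rw [ModularGroup.im_smul_eq_div_normSq, ModularGroup.denom_apply]
  by_cases hg : g 1 0 = 0
  · have : g 1 1 ≠ 0 := fun hg' ↦ zero_ne_one <| by
      simpa only [Matrix.det_fin_two, hg, hg', mul_zero, mul_zero, sub_zero] using g.det_coe
    have : (1 : ℝ) ≤ g 1 1 ^ 2 := mod_cast (one_le_sq_iff_one_le_abs _).mpr (Int.one_le_abs this)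
    refine le_trans ?_ <| le_max_left _ _
    rw [show Complex.normSq ((g 1 0) * τ + (g 1 1)) = (g 1 1) ^ 2 by simp [hg, sq]]
    exact div_le_self τ.im_pos.le this
  · refine le_trans ?_ <| le_max_right _ _
    have hpos := τ.im_pos
    rw [show 1 / τ.im = τ.im / τ.im ^ 2 by field_simp]
    gcongr
    rw [show Complex.normSq ((g 1 0) * τ + (g 1 1)) =
      ((g 1 0) * τ.re + (g 1 1)) ^ 2 + (g 1 0) ^ 2 * τ.im ^ 2 by simp [Complex.normSq_apply]; ring]
    have : (1 : ℝ) ≤ g 1 0 ^ 2 := mod_cast (one_le_sq_iff_one_le_abs _).mpr (Int.one_le_abs hg)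
    nlinarith

theorem fdFinite : FdFinite := by
  intro z
  have h := (Subgroup.properlyDiscontinuousSMul_iff (S := (𝒮ℒ : Subgroup (GL (Fin 2) ℝ)))
    (α := ℍ)).mp inferInstance (K := {z})
    (L := ModularGroup.truncatedFundamentalDomain (max z.im (1 / z.im)))
    isCompact_singleton (ModularGroup.isCompact_truncatedFundamentalDomain _)
  have h2 := h.preimage (f := fun γ : SL(2, ℤ) => (mapGL ℝ γ : GL (Fin 2) ℝ))
    (mapGL_injective.injOn)
  refine h2.subset ?_
  intro γ hγ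
  refine ⟨⟨γ, rfl⟩, ?_⟩
  refine ⟨γ • z, ?_, hγ, im_smul_le_max γ z⟩
  rw [Set.mem_smul_set]
  exact ⟨z, rfl, rfl⟩

end Gou

end
end

section

/-!
MP_602313_nt, module C2, item P1b: the standard fundamental domain is measurable of finite volume.
-/

open scoped MatrixGroups ModularForm UpperHalfPlane Manifold Pointwise Modular
open CongruenceSubgroup UpperHalfPlane Matrix Matrix.SpecialLinearGroup ConjAct OnePoint
open MeasureTheory

noncomputable section

namespace Gou

theorem isClosed_fd : IsClosed (𝒟 : Set ℍ) := by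
  have h1 : IsClosed {z : ℍ | 1 ≤ Complex.normSq (z : ℂ)} :=
    isClosed_le continuous_const (Complex.continuous_normSq.comp UpperHalfPlane.continuous_coe)
  have h2 : IsClosed {z : ℍ | |z.re| ≤ (1 : ℝ) / 2} :=
    isClosed_le (continuous_abs.comp UpperHalfPlane.continuous_re) continuous_const
  exact h1.inter h2

theorem fdVol : FdVol := by
  refine ⟨isClosed_fd.measurableSet, ?_⟩
  rw [UpperHalfPlane.volume_eq_lintegral]
  have hsub : (UpperHalfPlane.coe '' (𝒟 : Set ℍ)) ⊆
      Complex.measurableEquivRealProd ⁻¹' (Set.Icc (-(1 / 2) : ℝ) (1 / 2) ×ˢ Set.Ioi (1 / 2 : ℝ)) := by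
    rintro _ ⟨z, hz, rfl⟩
    obtain ⟨h1, h2⟩ := hz
    have h3 := abs_le.mp h2
    have hpos := z.im_pos
    rw [Complex.normSq_apply] at h1
    have e1 : (z : ℂ).re = z.re := rfl
    have e2 : (z : ℂ).im = z.im := rfl
    rw [e1, e2] at h1
    refine ⟨⟨h3.1, h3.2⟩, ?_⟩
    change (1 / 2 : ℝ) < z.im
    nlinarith
  refine lt_of_le_of_lt (lintegral_mono_set hsub) ?_
  have hmp := Complex.volume_preserving_equiv_real_prod
  have hmeas : MeasurableSet (Set.Icc (-(1 / 2) : ℝ) (1 / 2) ×ˢ Set.Ioi (1 / 2 : ℝ)) :=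
    measurableSet_Icc.prod measurableSet_Ioi
  have e : ∫⁻ z : ℂ in Complex.measurableEquivRealProd ⁻¹'
      (Set.Icc (-(1 / 2) : ℝ) (1 / 2) ×ˢ Set.Ioi (1 / 2 : ℝ)), ↑((1 / ‖z.im‖₊) ^ 2 : NNReal)
      = ∫⁻ p : ℝ × ℝ in (Set.Icc (-(1 / 2) : ℝ) (1 / 2) ×ˢ Set.Ioi (1 / 2 : ℝ)),
        ((fun y : ℝ => (((1 / ‖y‖₊) ^ 2 : NNReal) : ENNReal)) p.2) :=
    hmp.setLIntegral_comp_preimage_emb Complex.measurableEquivRealProd.measurableEmbedding
      (fun p : ℝ × ℝ => (((1 / ‖p.2‖₊) ^ 2 : NNReal) : ENNReal)) _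
  rw [e, Measure.volume_eq_prod, ← Measure.prod_restrict]
  have hprod : ∫⁻ p : ℝ × ℝ, ((fun y : ℝ => (((1 / ‖y‖₊) ^ 2 : NNReal) : ENNReal)) p.2)
      ∂((volume.restrict (Set.Icc (-(1 / 2) : ℝ) (1 / 2))).prod
        (volume.restrict (Set.Ioi (1 / 2 : ℝ))))
      = ∫⁻ _ in (Set.Icc (-(1 / 2) : ℝ) (1 / 2)), ∫⁻ y in Set.Ioi (1 / 2 : ℝ),
        (((1 / ‖y‖₊) ^ 2 : NNReal) : ENNReal) := by
    refine lintegral_prod _ (Measurable.aemeasurable ?_)
    have : Measurable (fun y : ℝ => (((1 / ‖y‖₊) ^ 2 : NNReal) : ENNReal)) := by fun_prop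
    exact this.comp measurable_snd
  rw [hprod, lintegral_const]
  have hfin : ∫⁻ y in Set.Ioi (1 / 2 : ℝ), (((1 / ‖y‖₊) ^ 2 : NNReal) : ENNReal) < ⊤ := by
    have h1 := (integrableOn_Ioi_rpow_of_lt (by norm_num : (-2 : ℝ) < -1)
      (by norm_num : (0 : ℝ) < 1 / 2)).hasFiniteIntegral
    refine lt_of_le_of_lt (le_of_eq ?_) h1
    refine setLIntegral_congr_fun measurableSet_Ioi ?_
    intro y hy
    have hy0 : (0 : ℝ) < y := lt_trans (by norm_num) hy
    have : ((1 / ‖y‖₊) ^ 2 : NNReal) = ‖y ^ (-2 : ℝ)‖₊ := by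
      apply NNReal.eq
      rw [coe_nnnorm, Real.norm_of_nonneg (Real.rpow_nonneg hy0.le _),
        Real.rpow_neg hy0.le]
      simp [abs_of_pos hy0]
    change (((1 / ‖y‖₊) ^ 2 : NNReal) : ENNReal) = ((‖y ^ (-2 : ℝ)‖₊ : NNReal) : ENNReal)
    rw [this]
  refine ENNReal.mul_lt_top hfin ?_
  simp

end Gou

end
end

section

/-!
MP_602313_nt, module C2, item P1c: an integrable weight for `SL(2, ℤ)`.
-/

open scoped MatrixGroups ModularForm UpperHalfPlane Manifold Pointwise Modular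
open CongruenceSubgroup UpperHalfPlane Matrix Matrix.SpecialLinearGroup ConjAct OnePoint
open MeasureTheory

noncomputable section

namespace Gou

/-- The number of `γ` in `SL(2, ℤ)` which move `z` into the fundamental domain. -/
def fdCount (z : ℍ) : ℕ := {γ : SL(2, ℤ) | γ • z ∈ 𝒟}.ncard

theorem fdCount_pos (h1 : FdFinite) (z : ℍ) : 0 < fdCount z :=
  (Set.ncard_pos (h1 z)).mpr (ModularGroup.exists_smul_mem_fd z)

theorem fdCount_smul (δ : SL(2, ℤ)) (z : ℍ) : fdCount (δ • z) = fdCount z := by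
  have : {γ : SL(2, ℤ) | γ • z ∈ 𝒟} = (fun γ => γ * δ) '' {γ : SL(2, ℤ) | γ • (δ • z) ∈ 𝒟} := by
    ext γ
    constructor
    · intro hγ
      refine ⟨γ * δ⁻¹, ?_, by simp⟩
      change (γ * δ⁻¹) • δ • z ∈ 𝒟
      rwa [smul_smul, inv_mul_cancel_right]
    · rintro ⟨γ', h, rfl⟩
      change (γ' * δ) • z ∈ 𝒟
      rwa [mul_smul]
  rw [fdCount, fdCount, this, Set.ncard_image_of_injective _ (mul_left_injective δ)]

theorem countable_SL2Z : Countable SL(2, ℤ) := by
  have : Countable (Matrix (Fin 2) (Fin 2) ℤ) :=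
    inferInstanceAs (Countable (Fin 2 → Fin 2 → ℤ))
  exact Subtype.countable

theorem fdCount_measurable (h1 : FdFinite) (h2 : MeasurableSet (𝒟 : Set ℍ)) :
    Measurable (fun z : ℍ => (fdCount z : ℝ)) := by
  have e : (fun z : ℍ => (fdCount z : ENNReal)) =
      fun z => ∑' γ : SL(2, ℤ), Set.indicator ((fun z : ℍ => γ • z) ⁻¹' 𝒟) 1 z := by
    funext z
    rw [tsum_eq_sum (s := (h1 z).toFinset)]
    · rw [Finset.sum_congr rfl (g := fun _ => (1 : ENNReal))]
      · rw [Finset.sum_const, nsmul_eq_mul, mul_one, fdCount, Set.ncard_eq_toFinset_card _ (h1 z)]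
      · intro γ hγ
        rw [Set.Finite.mem_toFinset] at hγ
        have hz : z ∈ (fun z : ℍ => γ • z) ⁻¹' (𝒟 : Set ℍ) := hγ
        rw [Set.indicator_of_mem hz, Pi.one_apply]
    · intro γ hγ
      rw [Set.Finite.mem_toFinset] at hγ
      have hz : z ∉ (fun z : ℍ => γ • z) ⁻¹' (𝒟 : Set ℍ) := hγ
      rw [Set.indicator_of_notMem hz]
  have hm : Measurable (fun z : ℍ => (fdCount z : ENNReal)) := by
    rw [e]
    have := countable_SL2Z
    refine Measurable.tsum fun γ => ?_
    refine Measurable.indicator measurable_one ?_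
    have hc : Continuous (fun z : ℍ => γ • z) := by
      change Continuous (fun z : ℍ => (γ : GL (Fin 2) ℝ) • z)
      exact continuous_const_smul _
    exact hc.measurable h2
  have := hm.ennreal_toReal
  simpa using this

theorem wtSL (h1 : FdFinite) (h2 : FdVol) : WtSL := by
  classical
  have hM := fdCount_measurable h1 h2.1
  have hw : Measurable (Set.indicator (𝒟 : Set ℍ) (fun z : ℍ => (1 : ℝ) / (fdCount z : ℝ))) :=
    Measurable.indicator (measurable_const.div hM) h2.1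
  refine ⟨Set.indicator (𝒟 : Set ℍ) (fun z : ℍ => (1 : ℝ) / (fdCount z : ℝ)), hw, ?_, ?_, ?_⟩
  · intro z
    exact Set.indicator_nonneg (fun z _ => by positivity) z
  · have hint : Integrable (Set.indicator (𝒟 : Set ℍ) (fun _ : ℍ => (1 : ℝ))) := by
      rw [integrable_indicator_iff h2.1]
      exact integrableOn_const h2.2.ne
    refine hint.mono' hw.aestronglyMeasurable (Filter.Eventually.of_forall fun z => ?_)
    by_cases hz : z ∈ (𝒟 : Set ℍ)
    · rw [Set.indicator_of_mem hz, Set.indicator_of_mem hz, Real.norm_of_nonneg (by positivity)]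
      have : (1 : ℝ) ≤ fdCount z := by exact_mod_cast fdCount_pos h1 z
      exact div_le_one_of_le₀ this (by positivity)
    · rw [Set.indicator_of_notMem hz, Set.indicator_of_notMem hz]
      simp
  · intro z
    have hs : ∑ γ ∈ (h1 z).toFinset,
        Set.indicator (𝒟 : Set ℍ) (fun z : ℍ => (1 : ℝ) / (fdCount z : ℝ)) (γ • z) = 1 := by
      rw [Finset.sum_congr rfl (g := fun _ => (1 : ℝ) / fdCount z)]
      · rw [Finset.sum_const, nsmul_eq_mul, ← Set.ncard_eq_toFinset_card _ (h1 z)]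
        have : (fdCount z : ℝ) ≠ 0 := by exact_mod_cast (fdCount_pos h1 z).ne'
        change (fdCount z : ℝ) * (1 / (fdCount z : ℝ)) = 1
        field_simp
      · intro γ hγ
        rw [Set.Finite.mem_toFinset] at hγ
        have hz : γ • z ∈ (𝒟 : Set ℍ) := hγ
        rw [Set.indicator_of_mem hz, fdCount_smul]
    have key : HasSum (fun γ : SL(2, ℤ) =>
        Set.indicator (𝒟 : Set ℍ) (fun z : ℍ => (1 : ℝ) / (fdCount z : ℝ)) (γ • z))
        (∑ γ ∈ (h1 z).toFinset,
          Set.indicator (𝒟 : Set ℍ) (fun z : ℍ => (1 : ℝ) / (fdCount z : ℝ)) (γ • z)) := by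
      refine hasSum_sum_of_ne_finset_zero fun γ hγ => ?_
      rw [Set.Finite.mem_toFinset] at hγ
      have hz : γ • z ∉ (𝒟 : Set ℍ) := hγ
      exact Set.indicator_of_notMem hz _
    rwa [hs] at key

end Gou

end
end

section

/-!
MP_602313_nt, module C2, item P2: weights for subgroups of finite index of `SL(2, ℤ)`.
-/

open scoped MatrixGroups ModularForm UpperHalfPlane Manifold Pointwise Modular
open CongruenceSubgroup UpperHalfPlane Matrix Matrix.SpecialLinearGroup ConjAct OnePoint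
open MeasureTheory

noncomputable section

namespace Gou

/-- The bijection `(q, γ) ↦ q.out * γ`. -/
theorem quot_out_mul_bijective {G : Type*} [Group G] (Γ : Subgroup G) :
    Function.Bijective (fun p : Γ × (G ⧸ Γ) => p.2.out * (p.1 : G)) := by
  constructor
  · rintro ⟨γ, q⟩ ⟨γ', q'⟩ h
    have h : q.out * (γ : G) = q'.out * (γ' : G) := h
    have hq : q = q' := by
      have h1 : ((q.out * (γ : G) : G) : G ⧸ Γ) = q := by
        rw [QuotientGroup.mk_mul_of_mem _ γ.2, QuotientGroup.out_eq']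
      have h2 : ((q'.out * (γ' : G) : G) : G ⧸ Γ) = q' := by
        rw [QuotientGroup.mk_mul_of_mem _ γ'.2, QuotientGroup.out_eq']
      rw [← h1, ← h2, h]
    subst hq
    have : (γ : G) = γ' := mul_left_cancel h
    rw [Subtype.ext this]
  · intro g
    have hmem : ((g : G ⧸ Γ).out)⁻¹ * g ∈ Γ := by
      rw [← QuotientGroup.eq, QuotientGroup.out_eq']
    exact ⟨(⟨_, hmem⟩, (g : G ⧸ Γ)), mul_inv_cancel_left _ _⟩

theorem wtG (h : WtSL) : WtG := by
  intro Γ hΓ
  obtain ⟨w, hm, hn, hi, hs⟩ := h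
  have : Fintype (SL(2, ℤ) ⧸ Γ) := Subgroup.fintypeQuotientOfFiniteIndex
  have hcont : ∀ g : SL(2, ℤ), Measurable (fun z : ℍ => g • z) := by
    intro g
    have hc : Continuous (fun z : ℍ => g • z) := by
      change Continuous (fun z : ℍ => (g : GL (Fin 2) ℝ) • z)
      exact continuous_const_smul _
    exact hc.measurable
  refine ⟨fun z => ∑ q : SL(2, ℤ) ⧸ Γ, w (q.out • z), ?_, ?_, ?_, ?_⟩
  · exact Finset.measurable_sum _ fun q _ => hm.comp (hcont _)
  · intro z
    exact Finset.sum_nonneg fun q _ => hn _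
  · refine integrable_finsetSum _ fun q _ => ?_
    have hp : MeasurePreserving (fun z : ℍ => q.out • z) volume volume := by
      change MeasurePreserving (fun z : ℍ => ((q.out : SL(2, ℤ)) : GL (Fin 2) ℝ) • z) volume volume
      exact measurePreserving_smul _ _
    exact (hp.integrable_comp hm.aestronglyMeasurable).mpr hi
  · intro z
    have h1 : HasSum (fun p : Γ × (SL(2, ℤ) ⧸ Γ) => w ((p.2.out * (p.1 : SL(2, ℤ))) • z)) 1 :=
      (Equiv.ofBijective _ (quot_out_mul_bijective Γ)).hasSum_iff.mpr (hs z)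
    refine h1.prod_fiberwise fun γ => ?_
    have e : (fun q : SL(2, ℤ) ⧸ Γ => w ((q.out * (γ : SL(2, ℤ))) • z)) =
        fun q => w (q.out • ((γ : SL(2, ℤ)) • z)) := by
      funext q
      rw [mul_smul]
    rw [show (fun c : SL(2, ℤ) ⧸ Γ =>
      w ((((γ, c) : Γ × (SL(2, ℤ) ⧸ Γ)).2.out * (((γ, c) : Γ × (SL(2, ℤ) ⧸ Γ)).1 : SL(2, ℤ))) • z))
      = fun q => w (q.out • ((γ : SL(2, ℤ)) • z)) from e]
    exact hasSum_fintype _

end Gou

end
end

section

/-!
MP_602313_nt, C2 P5: unfolding with weights.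
-/

open scoped MatrixGroups ModularForm UpperHalfPlane Manifold Pointwise Modular
open CongruenceSubgroup UpperHalfPlane Matrix Matrix.SpecialLinearGroup ConjAct OnePoint
open MeasureTheory

noncomputable section

namespace Gou

namespace P5

theorem gR_mapGL (γ : SL(2, ℤ)) : gR (mapGL ℚ γ) = mapGL ℝ γ := by
  ext i j
  simp [gR, mapGL]

theorem gR_mul_smul (γ : SL(2, ℤ)) (α : GL (Fin 2) ℚ) (z : ℍ) :
    gR (mapGL ℚ γ * α) • z = γ • (gR α • z) := by
  have h1 : gR (mapGL ℚ γ * α) = mapGL ℝ γ * gR α := by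
    rw [← gR_mapGL]
    exact map_mul _ _ _
  rw [h1, mul_smul]
  rfl

theorem wt_le_one {Γ : Subgroup SL(2, ℤ)} {w : ℍ → ℝ} (hw : IsWt Γ w) (z : ℍ) : w z ≤ 1 := by
  have h := hw.sum z
  have h1 := le_hasSum h (1 : Γ) (fun γ _ => hw.nonneg _)
  simpa using h1

theorem meas_comp {Γ : Subgroup SL(2, ℤ)} {w : ℍ → ℝ} (hw : IsWt Γ w) (g : GL (Fin 2) ℝ) :
    Measurable fun z : ℍ => w (g • z) :=
  hw.meas.comp (continuous_const_smul g).measurable

theorem one_index {Γ : Subgroup SL(2, ℤ)} {w : ℍ → ℝ} (hw : IsWt Γ w) (α : GL (Fin 2) ℚ)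
    (P : ℍ → ℂ) (hP : Continuous P) (hC : ∃ C : ℝ, ∀ z, ‖P z‖ ≤ C) :
    HasSum (fun γ : Γ =>
      ∫ z, ((w z * w (gR (mapGL ℚ (γ : SL(2, ℤ)) * α) • z) : ℝ) : ℂ) * P z)
      (∫ z, (w z : ℂ) * P z) := by
  have hcount0 : Countable (Matrix (Fin 2) (Fin 2) ℤ) :=
    inferInstanceAs (Countable (Fin 2 → Fin 2 → ℤ))
  have hcount : Countable SL(2, ℤ) := Subtype.countable
  obtain ⟨C, hC⟩ := hC
  have hC0 : 0 ≤ C := le_trans (norm_nonneg _) (hC UpperHalfPlane.I)
  have hsum : ∀ z : ℍ, HasSum (fun γ : Γ => w (gR (mapGL ℚ (γ : SL(2, ℤ)) * α) • z)) 1 := by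
    intro z
    have := hw.sum (gR α • z)
    simpa only [gR_mul_smul] using this
  refine hasSum_integral_of_dominated_convergence
    (fun (γ : Γ) z => C * w z * w (gR (mapGL ℚ (γ : SL(2, ℤ)) * α) • z)) ?_ ?_ ?_ ?_ ?_
  · intro γ
    refine Measurable.aestronglyMeasurable ?_
    refine Measurable.mul ?_ hP.measurable
    exact (Complex.measurable_ofReal).comp (hw.meas.mul (meas_comp hw _))
  · intro γ
    refine Filter.Eventually.of_forall fun z => ?_
    rw [norm_mul, Complex.norm_real, Real.norm_of_nonneg (mul_nonneg (hw.nonneg _) (hw.nonneg _))]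
    have := mul_le_mul_of_nonneg_left (hC z)
      (mul_nonneg (hw.nonneg z) (hw.nonneg (gR (mapGL ℚ (γ : SL(2, ℤ)) * α) • z)))
    nlinarith
  · refine Filter.Eventually.of_forall fun z => ?_
    exact ((hsum z).mul_left _).summable
  · have : (fun z => ∑' γ : Γ, C * w z * w (gR (mapGL ℚ (γ : SL(2, ℤ)) * α) • z))
        = fun z => C * w z := by
      funext z
      rw [((hsum z).mul_left (C * w z)).tsum_eq, mul_one]
    rw [this]
    exact hw.int.const_mul C
  · refine Filter.Eventually.of_forall fun z => ?_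
    have h1 := (Complex.hasSum_ofReal.mpr ((hsum z).mul_left (w z))).mul_right (P z)
    simpa using h1

end P5

open P5

theorem unfold : Unfold := by
  intro Γ w hw ι _ α P hP hC
  classical
  have hone := fun i => one_index hw (α i) (P i) (hP i) (hC i)
  -- integrability of each term
  have hint : ∀ i, Integrable fun z => (w z : ℂ) * P i z := by
    intro i
    obtain ⟨C, hC⟩ := hC i
    exact hw.int.ofReal.mul_bdd (hP i).aestronglyMeasurable (Filter.Eventually.of_forall hC)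
  have htot : (∫ z, (w z : ℂ) * ∑ i, P i z) = ∑ i, ∫ z, (w z : ℂ) * P i z := by
    rw [← integral_finsetSum _ (fun i _ => hint i)]
    simp only [Finset.mul_sum]
  rw [htot]
  have h1 : ∀ i ∈ (Finset.univ : Finset ι), HasSum (fun x : Γ × ι => if x.2 = i then
      ∫ z, ((w z * w (gR (mapGL ℚ (x.1 : SL(2, ℤ)) * α x.2) • z) : ℝ) : ℂ) * P x.2 z else 0)
      (∫ z, (w z : ℂ) * P i z) := by
    intro i _
    have hinj : Function.Injective (fun γ : Γ => (γ, i)) := fun a b h => (Prod.ext_iff.mp h).1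
    refine (hinj.hasSum_iff ?_).mp ?_
    · rintro ⟨γ, j⟩ hx
      have : j ≠ i := by
        rintro rfl
        exact hx ⟨γ, rfl⟩
      simp [this]
    · convert hone i using 2 with γ
      simp
  have h2 := hasSum_sum h1
  convert h2 using 2 with x
  simp

end Gou

end
end

section

/-!
MP_602313_nt, module C2, item P6 (helper30): change of variables.
-/

open scoped MatrixGroups ModularForm UpperHalfPlane Manifold Pointwise Modular
open CongruenceSubgroup UpperHalfPlane Matrix Matrix.SpecialLinearGroup ConjAct OnePoint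
open MeasureTheory

noncomputable section

namespace Gou

namespace P6Aux

theorem scalar_smul (G : GL (Fin 2) ℝ) (c : ℝ) (hc : 0 < c)
    (hG : G.val = c • (1 : Matrix (Fin 2) (Fin 2) ℝ)) (z : ℍ) :
    G • z = z ∧ denom G z = c ∧ G.det.val = c ^ 2 := by
  have hdet : G.det.val = c ^ 2 := by
    have : G.det.val = G.val.det := rfl
    rw [this, hG]
    simp [sq]
  have hden : denom G z = c := by
    simp [denom, hG]
  refine ⟨?_, hden, hdet⟩
  ext
  rw [UpperHalfPlane.coe_smul_of_det_pos (by rw [hdet]; positivity), hden]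
  have hc' : (c : ℂ) ≠ 0 := by exact_mod_cast hc.ne'
  simp [num, hG, hc']

theorem slash_scalar {k : ℤ} (g : ℍ → ℂ) (G : GL (Fin 2) ℝ) (c : ℝ) (hc : 0 < c)
    (hG : G.val = c • (1 : Matrix (Fin 2) (Fin 2) ℝ)) : g ∣[k] G = ((c : ℂ) ^ (k - 2)) • g := by
  funext z
  obtain ⟨h1, h2, h3⟩ := scalar_smul G c hc hG z
  rw [slash_pos g G (by rw [h3]; positivity), h1, h2, h3, Pi.smul_apply, smul_eq_mul]
  have hc' : (c : ℂ) ≠ 0 := by exact_mod_cast hc.ne'
  rw [mul_assoc, mul_comm (g z)]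
  congr 1
  rw [Complex.ofReal_pow, ← zpow_natCast, ← _root_.zpow_mul, ← zpow_add₀ hc']
  congr 1
  push_cast
  ring

end P6Aux

open P6Aux in
theorem petSubst : PetSubst := by
  intro k w f g α β c hc hα hβα
  have hcR : (0 : ℝ) < (c : ℝ) := by exact_mod_cast hc
  have hdetα : (gR α).det.val = (c : ℝ) := by
    have h1 : (gR α).det.val = ((α.det.val : ℚ) : ℝ) := by
      simp [gR, Matrix.det_fin_two]
    rw [h1, hα]
  have hG : (gR β * gR α).val = (c : ℝ) • (1 : Matrix (Fin 2) (Fin 2) ℝ) := by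
    have h1 : (gR β * gR α).val = (β.val * α.val).map (Rat.castHom ℝ) := by
      rw [Matrix.map_mul]
      rfl
    rw [h1, hβα]
    ext i j
    fin_cases i <;> fin_cases j <;> simp
  have hpos : 0 < (gR α).det.val := by rw [hdetα]; exact hcR
  have hsl : (g ∣[k] gR β) ∣[k] gR α = (((c : ℝ) : ℂ) ^ (k - 2)) • g := by
    rw [← SlashAction.slash_mul]
    exact slash_scalar g _ _ hcR hG
  have hpt : ∀ z, petersson k f (g ∣[k] gR β) (gR α • z) = petersson k (f ∣[k] gR α) g z := by
    intro z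
    have h1 := petersson_slash k f (g ∣[k] gR β) (gR α) z
    rw [hsl, hdetα, abs_of_pos hcR] at h1
    have h2 : σ (gR α) (petersson k f (g ∣[k] gR β) (gR α • z))
        = petersson k f (g ∣[k] gR β) (gR α • z) := by
      simp only [σ, hpos, ↓reduceIte, ContinuousAlgEquiv.refl_apply]
    rw [h2] at h1
    have h3 : petersson k (f ∣[k] gR α) ((((c : ℝ) : ℂ) ^ (k - 2)) • g) z
        = (((c : ℝ) : ℂ) ^ (k - 2)) * petersson k (f ∣[k] gR α) g z := by
      simp only [petersson, Pi.smul_apply, smul_eq_mul]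
      ring
    rw [h3] at h1
    have hc' : (((c : ℝ) : ℂ) ^ (k - 2)) ≠ 0 := zpow_ne_zero _ (by exact_mod_cast hcR.ne')
    exact (mul_left_cancel₀ hc' h1).symm
  have hmp : MeasurePreserving (fun z : ℍ => gR α • z) volume volume :=
    measurePreserving_smul (gR α) volume
  have hme : MeasurableEmbedding (fun z : ℍ => gR α • z) :=
    (Homeomorph.smul (gR α)).measurableEmbedding
  rw [← hmp.integral_comp hme]
  apply integral_congr_ae
  filter_upwards with z
  rw [hpt z]
  have h4 : gR β • gR α • z = z := by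
    rw [← mul_smul]
    exact (scalar_smul _ _ hcR hG z).1
  rw [h4, mul_comm (w (gR α • z))]

end Gou

end
end

section

/-!
MP_602313_nt, module C2, item P7 (helper30): the adjugate on integral matrices of determinant `l`.
-/

open scoped MatrixGroups ModularForm UpperHalfPlane Manifold Pointwise Modular
open CongruenceSubgroup UpperHalfPlane Matrix Matrix.SpecialLinearGroup ConjAct OnePoint
open MeasureTheory

noncomputable section

namespace Gou

namespace P7Aux

/-- Integral version of `alphaT`. -/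
def aZ (l : ℕ) : Option (Fin l) → Matrix (Fin 2) (Fin 2) ℤ
  | Option.some j => !![1, (j : ℕ); 0, (l : ℤ)]
  | Option.none => !![(l : ℤ), 0; 0, 1]

/-- Integral matrices of determinant `l` with `N ∣ c`. -/
def MM (N l : ℕ) : Type :=
  {A : Matrix (Fin 2) (Fin 2) ℤ // A.det = l ∧ (N : ℤ) ∣ A 1 0}

theorem det_aZ (l : ℕ) (i : Option (Fin l)) : (aZ l i).det = l := by
  rcases i with _ | j <;> simp [aZ, Matrix.det_fin_two]

theorem gamma_dvd {N : ℕ} (γ : Gamma0 N) : (N : ℤ) ∣ (γ : SL(2, ℤ)) 1 0 := by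
  have := γ.2
  rw [Gamma0_mem] at this
  exact (ZMod.intCast_zmod_eq_zero_iff_dvd _ _).mp this

/-- The parametrisation. -/
def Phi (N l : ℕ) (x : Gamma0 N × Option (Fin l)) : MM N l :=
  ⟨((x.1 : SL(2, ℤ)) : Matrix (Fin 2) (Fin 2) ℤ) * aZ l x.2, by
    rw [Matrix.det_mul, det_aZ, (x.1 : SL(2, ℤ)).det_coe, one_mul], by
    rw [Matrix.mul_apply, Fin.sum_univ_two]
    have h : aZ l x.2 1 0 = 0 := by rcases x.2 with _ | j <;> simp [aZ]
    rw [h, mul_zero, add_zero]
    exact Dvd.dvd.mul_right (gamma_dvd x.1) _⟩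

theorem inj_aux {l : ℕ} (hl : l.Prime) (δ : Matrix (Fin 2) (Fin 2) ℤ) (hδ : δ.det = 1)
    (i j : Option (Fin l)) (h : δ * aZ l i = aZ l j) : i = j := by
  have hl1 : (1 : ℤ) < l := by exact_mod_cast hl.one_lt
  rw [← Matrix.ext_iff] at h
  simp only [Fin.forall_fin_two, Matrix.mul_apply, Fin.sum_univ_two] at h
  rw [Matrix.det_fin_two] at hδ
  obtain ⟨⟨h1, h2⟩, h3, h4⟩ := h
  rcases i with _ | i <;> rcases j with _ | j
  · rfl
  · exfalso
    simp [aZ] at h1
    have h5 : (l : ℤ) ∣ 1 := ⟨δ 0 0, by rw [← h1]; ring⟩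
    have := Int.le_of_dvd one_pos h5
    omega
  · exfalso
    simp [aZ] at h1 h3
    rw [h1, h3] at hδ
    have h5 : (l : ℤ) ∣ 1 := ⟨δ 1 1, by rw [← hδ]; ring⟩
    have := Int.le_of_dvd one_pos h5
    omega
  · simp [aZ] at h1 h2 h3 h4
    rw [h1] at h2
    have hi : ((i : ℕ) : ℤ) < l := by exact_mod_cast i.2
    have hj : ((j : ℕ) : ℤ) < l := by exact_mod_cast j.2
    have h6 : (l : ℤ) ∣ ((i : ℕ) : ℤ) - ((j : ℕ) : ℤ) := ⟨- δ 0 1, by linarith⟩
    have h7 : ((i : ℕ) : ℤ) - ((j : ℕ) : ℤ) = 0 := by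
      apply Int.eq_zero_of_abs_lt_dvd h6
      rw [abs_lt]
      constructor <;> omega
    congr 1
    exact Fin.ext (by exact_mod_cast sub_eq_zero.mp h7)

theorem Phi_inj (N l : ℕ) (hl : l.Prime) : Function.Injective (Phi N l) := by
  rintro ⟨γ, i⟩ ⟨γ', j⟩ h
  have h1 : ((γ : SL(2, ℤ)) : Matrix (Fin 2) (Fin 2) ℤ) * aZ l i
      = ((γ' : SL(2, ℤ)) : Matrix (Fin 2) (Fin 2) ℤ) * aZ l j := congrArg Subtype.val h
  have h2 : (((γ' : SL(2, ℤ))⁻¹ * (γ : SL(2, ℤ)) : SL(2, ℤ)) : Matrix (Fin 2) (Fin 2) ℤ) * aZ l i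
      = aZ l j := by
    rw [Matrix.SpecialLinearGroup.coe_mul, Matrix.mul_assoc, h1, ← Matrix.mul_assoc,
      ← Matrix.SpecialLinearGroup.coe_mul, inv_mul_cancel, Matrix.SpecialLinearGroup.coe_one,
      Matrix.one_mul]
  have hij : i = j := inj_aux hl _ (Matrix.SpecialLinearGroup.det_coe _) i j h2
  subst hij
  have h3 : ((γ : SL(2, ℤ)) : Matrix (Fin 2) (Fin 2) ℤ)
      = ((γ' : SL(2, ℤ)) : Matrix (Fin 2) (Fin 2) ℤ) := by
    have h4 := congrArg (fun X => X * (aZ l i).adjugate) h1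
    simp only [Matrix.mul_assoc, Matrix.mul_adjugate, det_aZ] at h4
    have hl0 : (l : ℤ) ≠ 0 := by exact_mod_cast hl.ne_zero
    ext a b
    have h5 := congrFun (congrFun h4 a) b
    simp only [Matrix.mul_smul, Matrix.mul_one, Matrix.smul_apply, smul_eq_mul] at h5
    exact mul_left_cancel₀ hl0 h5
  have h4 : (γ : SL(2, ℤ)) = (γ' : SL(2, ℤ)) := Subtype.ext h3
  exact Prod.ext (Subtype.ext h4) rfl

theorem Phi_surj (N l : ℕ) (hl : l.Prime) (hlN : ¬ l ∣ N) : Function.Surjective (Phi N l) := by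
  rintro ⟨A, hA, hN⟩
  have hl0 : (0 : ℤ) < l := by exact_mod_cast hl.pos
  rw [Matrix.det_fin_two] at hA
  by_cases hdiv : (l : ℤ) ∣ A 0 0 ∧ (l : ℤ) ∣ A 1 0
  · obtain ⟨⟨a, ha⟩, ⟨c, hc⟩⟩ := hdiv
    have hdet : a * A 1 1 - A 0 1 * c = 1 := by
      have : (l : ℤ) * (a * A 1 1 - A 0 1 * c) = l * 1 := by
        rw [ha, hc] at hA
        linear_combination hA
      exact mul_left_cancel₀ hl0.ne' this
    have hcop : IsCoprime (N : ℤ) (l : ℤ) := by
      rw [Int.isCoprime_iff_nat_coprime] 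
      simpa using (Nat.Coprime.symm ((Nat.Prime.coprime_iff_not_dvd hl).mpr hlN))
    have hNc : (N : ℤ) ∣ c := hcop.dvd_of_dvd_mul_left (by rw [← hc]; exact hN)
    obtain ⟨γ, g1, g2, g3, g4⟩ : ∃ γ : SL(2, ℤ), γ 0 0 = a ∧ γ 0 1 = A 0 1 ∧ γ 1 0 = c ∧
        γ 1 1 = A 1 1 := by
      refine ⟨⟨!![a, A 0 1; c, A 1 1], ?_⟩, rfl, rfl, rfl, rfl⟩
      rw [Matrix.det_fin_two_of]
      exact hdet
    have hγ : γ ∈ Gamma0 N := by
      rw [Gamma0_mem, g3, ZMod.intCast_zmod_eq_zero_iff_dvd]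
      exact hNc
    refine ⟨(⟨γ, hγ⟩, Option.none), ?_⟩
    apply Subtype.ext
    show (γ : Matrix (Fin 2) (Fin 2) ℤ) * aZ l Option.none = A
    ext i j
    fin_cases i <;> fin_cases j <;>
      simp [aZ, Matrix.mul_apply, Fin.sum_univ_two, g1, g2, g3, g4, ha, hc, mul_comm]
  · have hcop : IsCoprime (A 0 0) (A 1 0) := by
      rw [Int.isCoprime_iff_gcd_eq_one]
      have h1 : ((Int.gcd (A 0 0) (A 1 0) : ℕ) : ℤ) ∣ l := by
        rw [← hA]
        exact dvd_sub (Dvd.dvd.mul_right (Int.gcd_dvd_left _ _) _)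
          (Dvd.dvd.mul_left (Int.gcd_dvd_right _ _) _)
      have h2 : Int.gcd (A 0 0) (A 1 0) ∣ l := by exact_mod_cast h1
      rcases (Nat.dvd_prime hl).mp h2 with h3 | h3
      · exact h3
      · exfalso
        apply hdiv
        rw [← h3]
        exact ⟨Int.gcd_dvd_left _ _, Int.gcd_dvd_right _ _⟩
    obtain ⟨y, x, hxy⟩ := hcop
    set t : ℤ := y * A 0 1 + x * A 1 1 with ht
    set u : ℤ := t / l with hu
    have hmod : t = t % l + l * u := (Int.emod_add_mul_ediv t l).symm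
    have hm0 : 0 ≤ t % l := Int.emod_nonneg _ hl0.ne'
    have hml : t % l < l := Int.emod_lt_of_pos _ hl0
    obtain ⟨γ, g1, g2, g3, g4⟩ : ∃ γ : SL(2, ℤ), γ 0 0 = A 0 0 ∧ γ 0 1 = A 0 0 * u - x ∧
        γ 1 0 = A 1 0 ∧ γ 1 1 = A 1 0 * u + y := by
      refine ⟨⟨!![A 0 0, A 0 0 * u - x; A 1 0, A 1 0 * u + y], ?_⟩, rfl, rfl, rfl, rfl⟩
      rw [Matrix.det_fin_two_of]
      linear_combination hxy
    have hγ : γ ∈ Gamma0 N := by
      rw [Gamma0_mem, g3, ZMod.intCast_zmod_eq_zero_iff_dvd]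
      exact hN
    refine ⟨(⟨γ, hγ⟩, Option.some ⟨(t % l).toNat, by omega⟩), ?_⟩
    apply Subtype.ext
    show (γ : Matrix (Fin 2) (Fin 2) ℤ) * aZ l (Option.some ⟨(t % l).toNat, by omega⟩) = A
    have hcast : ((t % l).toNat : ℤ) = t - l * u := by
      rw [Int.toNat_of_nonneg hm0]
      linarith
    ext i j
    fin_cases i <;> fin_cases j <;>
      simp only [aZ, Matrix.mul_apply, Fin.sum_univ_two, Fin.zero_eta, Fin.isValue, Fin.mk_one,
        Matrix.of_apply, Matrix.cons_val', Matrix.cons_val_zero, Matrix.cons_val_one,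
        Matrix.cons_val_fin_one, g1, g2, g3, g4, hcast]
    · ring
    · rw [ht]
      linear_combination (x : ℤ) * hA + (A 0 1) * hxy
    · ring
    · rw [ht]
      linear_combination (-(y : ℤ)) * hA + (A 1 1) * hxy

/-- The adjugate. -/
def adj (N l : ℕ) (A : MM N l) : MM N l :=
  ⟨A.1.adjugate, by
    have h := A.2.1
    rw [Matrix.det_fin_two] at h
    rw [Matrix.adjugate_fin_two, Matrix.det_fin_two_of]
    linarith, by
    rw [Matrix.adjugate_fin_two]
    simpa using A.2.2⟩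

theorem adj_adj (N l : ℕ) (A : MM N l) : adj N l (adj N l A) = A := by
  apply Subtype.ext
  show A.1.adjugate.adjugate = A.1
  rw [Matrix.adjugate_fin_two, Matrix.adjugate_fin_two]
  ext i j
  fin_cases i <;> fin_cases j <;> simp

/-- The adjugate as an equivalence. -/
def adjE (N l : ℕ) : MM N l ≃ MM N l := ⟨adj N l, adj N l, adj_adj N l, adj_adj N l⟩

theorem val_eq (N l : ℕ) (hl : l ≠ 0) (x : Gamma0 N × Option (Fin l)) :
    (mapGL ℚ (x.1 : SL(2, ℤ)) * alphaT l hl x.2).val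
      = (Phi N l x).1.map (Int.castRingHom ℚ) := by
  rw [Units.val_mul]
  show _ = (((x.1 : SL(2, ℤ)) : Matrix (Fin 2) (Fin 2) ℤ) * aZ l x.2).map (Int.castRingHom ℚ)
  rw [Matrix.map_mul]
  congr 1
  rcases x.2 with _ | j
  · ext i k
    fin_cases i <;> fin_cases k <;>
      simp [alphaT, gV, aZ, GeneralLinearGroup.mkOfDetNeZero]
  · ext i k
    fin_cases i <;> fin_cases k <;>
      simp [alphaT, gU, aZ, GeneralLinearGroup.mkOfDetNeZero]

end P7Aux

open P7Aux in
theorem heckeEquiv : HeckeEquiv := by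
  intro N l hl hlp hlN
  let E : (Gamma0 N × Option (Fin l)) ≃ MM N l :=
    Equiv.ofBijective (Phi N l) ⟨Phi_inj N l hlp, Phi_surj N l hlp hlN⟩
  refine ⟨(E.trans (adjE N l)).trans E.symm, ?_⟩
  intro x
  rw [val_eq, val_eq, ← Matrix.map_mul]
  have h1 : Phi N l (((E.trans (adjE N l)).trans E.symm) x) = adj N l (Phi N l x) := by
    show E (E.symm (adj N l (E x))) = _
    rw [Equiv.apply_symm_apply]
    rfl
  rw [h1]
  show ((Phi N l x).1.adjugate * (Phi N l x).1).map (Int.castRingHom ℚ) = _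
  rw [Matrix.adjugate_mul, (Phi N l x).2.1]
  ext i j
  rw [Matrix.map_apply, Matrix.smul_apply, Matrix.smul_apply]
  fin_cases i <;> fin_cases j <;> simp

end Gou

end
end

section

/-!
MP_602313_nt, module C2, item P8 (helper30): the Hecke operator as a sum of slashes.
-/

open scoped MatrixGroups ModularForm UpperHalfPlane Manifold Pointwise Modular
open CongruenceSubgroup UpperHalfPlane Matrix Matrix.SpecialLinearGroup ConjAct OnePoint
open MeasureTheory

noncomputable section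

namespace Gou

theorem heckeSlash : HeckeSlash := by
  intro N l hl k T hT f
  funext z
  rw [hT (Nat.pos_of_ne_zero hl) f z, Finset.sum_apply, Fintype.sum_option]
  simp only [alphaT]
  rw [slash_gV, Finset.mul_sum, Finset.sum_range]
  congr 1
  apply Finset.sum_congr rfl
  intro j _
  rw [slash_gU]

end Gou

end
end

section

/-!
MP_602313_nt, C2 P9: assembly of `PetSelfAdj`.
-/

open scoped MatrixGroups ModularForm UpperHalfPlane Manifold Pointwise Modular
open CongruenceSubgroup UpperHalfPlane Matrix Matrix.SpecialLinearGroup ConjAct OnePoint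
open MeasureTheory

noncomputable section

namespace Gou

namespace P9

theorem gR_mapGL (γ : SL(2, ℤ)) : gR (mapGL ℚ γ) = mapGL ℝ γ := by
  ext i j
  simp [gR, mapGL]

theorem cont_pet {Γ : Subgroup SL(2, ℤ)} [Γ.FiniteIndex] {k : ℤ} (f g : CuspForm Γ k)
    (α β : GL (Fin 2) ℚ) : Continuous (petersson k (f ∣[k] gR α) (g ∣[k] gR β)) := by
  have h1 := ((isCuspFun_of_cuspForm f).slash α).holo.continuous
  have h2 := ((isCuspFun_of_cuspForm g).slash β).holo.continuous
  exact petersson_continuous k h1 h2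

theorem gR_one : gR 1 = 1 := by
  ext i j
  simp [gR]

theorem pet_add (k : ℤ) (f g h : ℍ → ℂ) (z : ℍ) :
    petersson k f (g + h) z = petersson k f g z + petersson k f h z := by
  simp only [petersson, Pi.add_apply]
  ring

theorem pet_smul (k : ℤ) (f g : ℍ → ℂ) (c : ℂ) (z : ℍ) :
    petersson k f (c • g) z = c * petersson k f g z := by
  simp only [petersson, Pi.smul_apply, smul_eq_mul]
  ring

theorem pet_sum_left (k : ℤ) {ι : Type*} (s : Finset ι) (F : ι → ℍ → ℂ) (g : ℍ → ℂ) (z : ℍ) :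
    petersson k (∑ i ∈ s, F i) g z = ∑ i ∈ s, petersson k (F i) g z := by
  simp only [petersson, Finset.sum_apply, map_sum, Finset.sum_mul]

theorem pet_sum_right (k : ℤ) {ι : Type*} (s : Finset ι) (F : ι → ℍ → ℂ) (g : ℍ → ℂ) (z : ℍ) :
    petersson k g (∑ i ∈ s, F i) z = ∑ i ∈ s, petersson k g (F i) z := by
  simp only [petersson, Finset.sum_apply, Finset.mul_sum, Finset.sum_mul]

end P9

open P9

theorem p9Pet (h2 : WtG) (h3 : PetBdd) (h4 : PetPos) (h5 : Unfold) (h6 : PetSubst)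
    (h7 : HeckeEquiv) (h8 : HeckeSlash) : P9Pet := by
  intro N hN k
  have : NeZero N := ⟨hN⟩
  obtain ⟨w, hw⟩ := h2 (Gamma0 N)
  have hbd : ∀ f g : SN N k, ∃ C : ℝ, ∀ z, ‖petersson k f g z‖ ≤ C := by
    intro f g
    obtain ⟨C, hC⟩ := h3 (Gamma0 N) k f g 1
    refine ⟨C, fun z => ?_⟩
    have := hC z
    rwa [gR_one, SlashAction.slash_one] at this
  have hcont : ∀ f g : SN N k, Continuous (petersson k f g) := fun f g =>
    petersson_continuous k (isCuspFun_of_cuspForm f).holo.continuous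
      (isCuspFun_of_cuspForm g).holo.continuous
  have hint : ∀ f g : SN N k, Integrable fun z => (w z : ℂ) * petersson k f g z := by
    intro f g
    obtain ⟨C, hC⟩ := hbd f g
    have h1 : Integrable fun z => (w z : ℂ) := hw.int.ofReal
    exact h1.mul_bdd (hcont f g).aestronglyMeasurable (Filter.Eventually.of_forall hC)
  refine ⟨fun f g => ∫ z, (w z : ℂ) * petersson k f g z, ?_, ?_, ?_, ?_, ?_⟩
  · intro f g h
    rw [← integral_add (hint f g) (hint f h)]
    refine integral_congr_ae (Filter.Eventually.of_forall fun z => ?_)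
    simp only [FunLike.coe_add, pet_add]
    ring
  · intro c f g
    rw [← integral_const_mul]
    refine integral_congr_ae (Filter.Eventually.of_forall fun z => ?_)
    have : (⇑(c • g) : ℍ → ℂ) = c • ⇑g := rfl
    simp only [this, pet_smul]
    ring
  · intro f g
    rw [← integral_conj]
    refine integral_congr_ae (Filter.Eventually.of_forall fun z => ?_)
    simp only [map_mul, Complex.conj_ofReal, petersson_symm k f g]
  · intro f hf
    exact h4 (Gamma0 N) w hw k f hf
  · intro l hl hlN T hT f g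
    have hl0 : l ≠ 0 := hl.ne_zero
    obtain ⟨e, he⟩ := h7 N l hl0 hl hlN
    have hTf := h8 N l hl0 k T hT f
    have hTg := h8 N l hl0 k T hT g
    -- left side
    have hL := h5 (Gamma0 N) w hw (Option (Fin l)) (alphaT l hl0)
      (fun i => petersson k (f ∣[k] gR (alphaT l hl0 i)) g)
      (fun i => petersson_continuous k ((isCuspFun_of_cuspForm f).slash _).holo.continuous
        (isCuspFun_of_cuspForm g).holo.continuous) (fun i => h3 (Gamma0 N) k f g _)
    have hR := h5 (Gamma0 N) w hw (Option (Fin l)) (alphaT l hl0)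
      (fun i => petersson k f (g ∣[k] gR (alphaT l hl0 i)))
      (fun i => petersson_continuous k (isCuspFun_of_cuspForm f).holo.continuous
        ((isCuspFun_of_cuspForm g).slash _).holo.continuous) (fun i => by
          obtain ⟨C, hC⟩ := h3 (Gamma0 N) k g f (alphaT l hl0 i)
          exact ⟨C, fun z => by rw [petersson_norm_symm]; exact hC z⟩)
    have hL' : (∫ z, (w z : ℂ) * ∑ i, petersson k (f ∣[k] gR (alphaT l hl0 i)) g z)
        = ∫ z, (w z : ℂ) * petersson k (T f) g z := by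
      refine integral_congr_ae (Filter.Eventually.of_forall fun z => ?_)
      simp only [hTf, pet_sum_left]
    have hR' : (∫ z, (w z : ℂ) * ∑ i, petersson k f (g ∣[k] gR (alphaT l hl0 i)) z)
        = ∫ z, (w z : ℂ) * petersson k f (T g) z := by
      refine integral_congr_ae (Filter.Eventually.of_forall fun z => ?_)
      simp only [hTg, pet_sum_right]
    rw [hL'] at hL
    rw [hR'] at hR
    have hslash : ∀ (F : SN N k) (γ : Gamma0 N) (i : Option (Fin l)),
        (⇑F) ∣[k] gR (mapGL ℚ (γ : SL(2, ℤ)) * alphaT l hl0 i) = (⇑F) ∣[k] gR (alphaT l hl0 i) := by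
      intro F γ i
      have h1 : gR (mapGL ℚ (γ : SL(2, ℤ)) * alphaT l hl0 i)
          = mapGL ℝ (γ : SL(2, ℤ)) * gR (alphaT l hl0 i) := by
        rw [← gR_mapGL]
        exact map_mul _ _ _
      rw [h1, SlashAction.slash_mul]
      congr 1
      exact slash_of_mem F γ.2
    have hterm : ∀ x : Gamma0 N × Option (Fin l),
        (∫ z, ((w z * w (gR (mapGL ℚ ((e x).1 : SL(2, ℤ)) * alphaT l hl0 (e x).2) • z) : ℝ) : ℂ)
          * petersson k f (g ∣[k] gR (alphaT l hl0 (e x).2)) z)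
        = ∫ z, ((w z * w (gR (mapGL ℚ (x.1 : SL(2, ℤ)) * alphaT l hl0 x.2) • z) : ℝ) : ℂ)
          * petersson k (f ∣[k] gR (alphaT l hl0 x.2)) g z := by
      intro x
      rw [← hslash g (e x).1 (e x).2, ← hslash f x.1 x.2]
      refine h6 k w f g _ _ (l : ℚ) (by exact_mod_cast hl.pos) ?_ (he x)
      have h1 : (alphaT l hl0 x.2).det.val = (l : ℚ) := by
        rcases x.2 with _ | j
        · simp [alphaT, gV, GeneralLinearGroup.mkOfDetNeZero, Matrix.det_fin_two]
        · simp [alphaT, gU, GeneralLinearGroup.mkOfDetNeZero, Matrix.det_fin_two]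
      rw [map_mul, Units.val_mul, h1]
      simp
    have hR2 := (Equiv.hasSum_iff e).mpr hR
    have hEq : (fun x : Gamma0 N × Option (Fin l) =>
        ∫ z, ((w z * w (gR (mapGL ℚ (x.1 : SL(2, ℤ)) * alphaT l hl0 x.2) • z) : ℝ) : ℂ)
          * petersson k (f ∣[k] gR (alphaT l hl0 x.2)) g z) =
        ((fun x : Gamma0 N × Option (Fin l) =>
        ∫ z, ((w z * w (gR (mapGL ℚ (x.1 : SL(2, ℤ)) * alphaT l hl0 x.2) • z) : ℝ) : ℂ)
          * petersson k f (g ∣[k] gR (alphaT l hl0 x.2)) z) ∘ e) := by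
      funext x
      exact (hterm x).symm
    rw [hEq] at hL
    exact hL.unique hR2

end Gou

end
end

section

/-!
MP_602313_nt, module C2, item L1: `Δ(N z)` is a cusp form for `Γ₀(N)`.
-/

open scoped MatrixGroups ModularForm UpperHalfPlane Manifold Pointwise
open CongruenceSubgroup UpperHalfPlane Matrix Matrix.SpecialLinearGroup ConjAct OnePoint

noncomputable section

namespace Gou

theorem isCuspFun_delta : IsCuspFun 12 ModularForm.discriminant where
  holo := CuspForm.discriminant.holo'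
  zero _ hc := CuspForm.discriminant.zero_at_cusps' hc

theorem delta_slash (γ : SL(2, ℤ)) :
    ModularForm.discriminant ∣[(12 : ℤ)] γ = ModularForm.discriminant :=
  CuspForm.discriminant.slash_action_eq' _ ⟨γ, rfl⟩

/-- The commutation matrix. -/
theorem gV_comm (N : ℕ) (hN : N ≠ 0) (γ : SL(2, ℤ)) (hγ : γ ∈ Gamma0 N) :
    ∃ γ' : SL(2, ℤ), gR (gV N hN) * mapGL ℝ γ = mapGL ℝ γ' * gR (gV N hN) := by
  rw [Gamma0_mem, ZMod.intCast_zmod_eq_zero_iff_dvd] at hγ
  obtain ⟨c, hc⟩ := hγ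
  have hdet := γ.det_coe
  rw [Matrix.det_fin_two] at hdet
  have hc' : ((γ 1 0 : ℤ) : ℝ) = (N : ℝ) * (c : ℝ) := by
    exact_mod_cast congrArg (Int.cast : ℤ → ℝ) hc
  obtain ⟨γ', h00, h01, h10, h11⟩ : ∃ γ' : SL(2, ℤ), γ' 0 0 = γ 0 0 ∧ γ' 0 1 = N * γ 0 1 ∧
      γ' 1 0 = c ∧ γ' 1 1 = γ 1 1 := by
    refine ⟨⟨!![γ 0 0, N * γ 0 1; c, γ 1 1], ?_⟩, rfl, rfl, rfl, rfl⟩
    rw [Matrix.det_fin_two]
    simp only [Matrix.of_apply, Matrix.cons_val', Matrix.cons_val_zero, Matrix.cons_val_one,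
      Matrix.cons_val_fin_one]
    rw [hc] at hdet
    linear_combination hdet
  refine ⟨γ', ?_⟩
  ext i j
  fin_cases i <;> fin_cases j <;>
    simp [gR, gV, GeneralLinearGroup.mkOfDetNeZero, Matrix.mul_apply, Fin.sum_univ_two, hc',
      h00, h01, h10, h11, mul_comm]

/-- L1. -/
theorem deltaInv : DeltaInv := by
  intro N hN
  refine ⟨isCuspFun_delta.slash _, ?_⟩
  intro γ hγ
  obtain ⟨γ', h⟩ := gV_comm N hN γ hγ
  unfold DN
  rw [ModularForm.SL_slash, ← SlashAction.slash_mul]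
  change ModularForm.discriminant ∣[(12 : ℤ)] (gR (gV N hN) * mapGL ℝ γ) = _
  rw [h, SlashAction.slash_mul]
  have := delta_slash γ'
  rw [ModularForm.SL_slash] at this
  change ModularForm.discriminant ∣[(12 : ℤ)] (mapGL ℝ γ') = _ at this
  rw [this]

end Gou

end
end

section

/-!
MP_602313_nt, module C2, item L2: product of a cusp function and a level one modular form.
-/

open scoped MatrixGroups ModularForm UpperHalfPlane Manifold Pointwise
open CongruenceSubgroup UpperHalfPlane Matrix Matrix.SpecialLinearGroup ConjAct OnePoint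

noncomputable section

namespace Gou

/-- L2. Product of a cusp function and a level one modular form. -/
theorem mulCusp : MulCusp := by
  intro k m F hF g
  refine ⟨hF.holo.mul g.holo', ?_⟩
  intro c hc h hh
  simpa [ModularForm.mul_slash] using!
    ((hF.zero c hc h hh).mul_boundedAtFilter (g.bdd_at_cusps' hc h hh)).smul _

end Gou

end
end
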