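import Pool.Agent.Work.MP_602313_nt.Bd.B05
import Pool.Agent.Work.MP_602313_nt.Bd.B01
import Pool.Agent.Work.MP_602313_nt.Bd.B02
import Pool.Agent.Work.MP_602313_nt.Bd.B13

/-! Bundle of small proof modules (one section per former module). -/

section

/-!
D17. Roots of the characteristic polynomial of an integer matrix are integral.
-/

open scoped Polynomial

noncomputable section

namespace Gou

theorem d17Root (h1 : D1Int) : D17Root := by
  intro p _ K _ _ av h R A a ha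
  by_contra hlt
  push Not at hlt
  have hint : IsIntegral ℤ a := by
    refine ⟨A.charpoly, A.charpoly_monic, ?_⟩
    have h2 : (cm K A).charpoly = A.charpoly.map (Int.castRingHom K) := by
      have := Matrix.charpoly_map A (Int.castRingHom K)
      exact this
    rw [h2, Polynomial.IsRoot.def, Polynomial.eval_map] at ha
    exact ha
  obtain ⟨f, hf, hfa⟩ := hint
  have hn : f.natDegree ≠ 0 := by
    intro h0
    have h3 : f = 1 := Polynomial.eq_one_of_monic_natDegree_zero hf h0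
    rw [h3] at hfa
    simp at hfa
  rw [Polynomial.eval₂_eq_sum_range, Finset.sum_range_succ, hf.coeff_natDegree] at hfa
  simp only [map_one, one_mul] at hfa
  have h4 : a ^ f.natDegree = - ∑ i ∈ Finset.range f.natDegree, (algebraMap ℤ K) (f.coeff i) * a ^ i := by
    linear_combination hfa
  have hsum : ∀ (s : Finset ℕ) (g : ℕ → K) (C : ℝ), 0 ≤ C → (∀ i ∈ s, av (g i) ≤ C) →
      av (∑ i ∈ s, g i) ≤ C := by
    intro s g C hC
    induction s using Finset.induction_on with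
    | empty => intro _; simpa using hC
    | insert b s hb ih =>
        intro hg
        rw [Finset.sum_insert hb]
        refine (h.na _ _).trans ?_
        rw [max_le_iff]
        exact ⟨hg b (Finset.mem_insert_self b s), ih fun i hi => hg i (Finset.mem_insert_of_mem hi)⟩
  have h5 : av (a ^ f.natDegree) ≤ av a ^ (f.natDegree - 1) := by
    rw [h4, av.map_neg]
    refine hsum _ _ _ (pow_nonneg (av.nonneg a) _) ?_
    intro i hi
    have hi' := Finset.mem_range.mp hi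
    rw [av.map_mul, av.map_pow]
    have h6 : av ((algebraMap ℤ K) (f.coeff i)) ≤ 1 := (h1 p K av h (f.coeff i)).1
    have h7 : av a ^ i ≤ av a ^ (f.natDegree - 1) := pow_le_pow_right₀ hlt.le (by omega)
    calc av ((algebraMap ℤ K) (f.coeff i)) * av a ^ i ≤ 1 * av a ^ (f.natDegree - 1) :=
          mul_le_mul h6 h7 (pow_nonneg (av.nonneg a) _) zero_le_one
      _ = av a ^ (f.natDegree - 1) := one_mul _
  rw [av.map_pow] at h5
  have h8 : av a ^ (f.natDegree - 1) < av a ^ f.natDegree := pow_lt_pow_right₀ hlt (by omega)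
  linarith

end Gou

end
end

section

/-!
Module D, D18: assembly of D7Z, D9Upper, D16P.
-/

open scoped Polynomial

noncomputable section

namespace Gou

namespace D18

theorem cm_sub_scalar (K : Type*) [Field K] {R : ℕ} (A : Matrix (Fin R) (Fin R) ℤ) (lam : ℤ) :
    cm K (A - Matrix.scalar (Fin R) lam) = cm K A - Matrix.scalar (Fin R) (lam : K) := by
  ext i j
  rw [Matrix.sub_apply, cm, cm, Matrix.map_apply, Matrix.sub_apply, Matrix.map_apply,
    Matrix.scalar_apply, Matrix.scalar_apply, Matrix.diagonal_apply, Matrix.diagonal_apply]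
  split_ifs <;> simp

theorem isRoot_shift (K : Type*) [Field K] {R : ℕ} (A : Matrix (Fin R) (Fin R) K) (lam a : K)
    (h : (A - Matrix.scalar (Fin R) lam).charpoly.IsRoot a) : A.charpoly.IsRoot (a + lam) := by
  rw [Polynomial.IsRoot.def, Matrix.eval_charpoly] at h ⊢
  rw [← h]
  congr 1
  rw [map_add]
  abel

theorem det_ne_zero (K : Type*) [Field K] [CharZero K] {R : ℕ} (A : Matrix (Fin R) (Fin R) ℤ)
    (lam : ℤ) (h : (A - Matrix.scalar (Fin R) lam).det = 0) :
    (cm K A).charpoly.IsRoot (lam : K) := by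
  have h1 : (cm K (A - Matrix.scalar (Fin R) lam)).det = 0 := by
    have h2 : (cm K (A - Matrix.scalar (Fin R) lam)) =
        (Int.castRingHom K).mapMatrix (A - Matrix.scalar (Fin R) lam) := rfl
    rw [h2, ← RingHom.map_det, h, map_zero]
  have h3 : (cm K (A - Matrix.scalar (Fin R) lam)).charpoly.IsRoot 0 := by
    rw [Polynomial.IsRoot.def, Matrix.eval_charpoly, map_zero, zero_sub, Matrix.det_neg, h1,
      mul_zero]
  rw [cm_sub_scalar] at h3
  have h4 := isRoot_shift K (cm K A) (lam : K) 0 h3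
  rwa [zero_add] at h4

end D18

open D18 in
theorem d18Upper (h7 : D7Z) (h9 : D9Upper) (h16 : D16P) : D18Upper := by
  intro p _ K _ _ _ av hav L _ R c0 mx q0 h1 s c h B' M lp S X lam ψ μ' v Bm hcomm hnil hone hX
    hh1 htr hμ hR hv heig hind hroot hlam hlow hhigh
  obtain ⟨P, r2, hP1, hPc, hr2, hrank⟩ := h16 p K av hav L R c0 mx q0 h1 s c M lp S X lam ψ μ' v
    hcomm hnil hone hX hh1 htr hμ hR hv heig hind hroot
  have hp : (0 : ℝ) < (p : ℝ) := by
    exact_mod_cast (Fact.out : p.Prime).pos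
  have hdet : (M lp - Matrix.scalar (Fin R) lam).det ≠ 0 := by
    intro h0
    have h2 := hroot _ (det_ne_zero K (M lp) lam h0)
    rw [sub_self, map_zero] at h2
    exact absurd h2 (not_le.2 (Real.rpow_pos_of_pos hp _))
  refine ⟨hdet, ?_⟩
  have hPc' : P * cm K (M lp - Matrix.scalar (Fin R) lam) =
      cm K (M lp - Matrix.scalar (Fin R) lam) * P := by
    rw [cm_sub_scalar, mul_sub, sub_mul, hPc]
    congr 1
    exact (Matrix.scalar_comm _ (fun r => Commute.all _ _) P).symm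
  have hroot' : ∀ a : K, (cm K (M lp - Matrix.scalar (Fin R) lam)).charpoly.IsRoot a →
      (p : ℝ) ^ (-(((s + c : ℕ) : ℝ))) ≤ av a := by
    intro a ha
    rw [cm_sub_scalar] at ha
    have h2 := hroot _ (isRoot_shift K _ _ a ha)
    rwa [add_sub_cancel_right] at h2
  have hζ : av ((p : K) ^ (h1 + s + c)) = (p : ℝ) ^ (-(((h1 + s + c : ℕ) : ℝ))) := by
    rw [map_pow, hav.hp, inv_pow, Real.rpow_neg hp.le, Real.rpow_natCast]
  have hY : (0 : ℝ) < ((h1 + s + c : ℕ) : ℝ) := by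
    have : 0 < h1 + s + c := by omega
    exact_mod_cast this
  have hσ : (0 : ℝ) ≤ ((s + c : ℕ) : ℝ) := Nat.cast_nonneg _
  have h7' : ∀ (r : ℕ) (x : Fin r → Fin R → ℤ) (d : Fin r → ℕ), PInd p x →
      (∀ i, 2 * ((h1 + s + c : ℕ) : ℝ) ≤ d i) →
      (∀ i k, (p : ℤ) ^ (d i) ∣ (M lp - Matrix.scalar (Fin R) lam).mulVec (x i) k) →
      ∑ i, ((d i : ℝ) - ((h1 + s + c : ℕ) : ℝ)) ≤ r2 * ((s + c : ℕ) : ℝ) := by
    intro r x d hx hd hdvd
    exact h7 p K av hav R r r2 (M lp - Matrix.scalar (Fin R) lam) P ((p : K) ^ (h1 + s + c))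
      ((h1 + s + c : ℕ) : ℝ) ((s + c : ℕ) : ℝ) x d hP1 hPc' hY hζ hσ hrank hroot' hx hd hdvd
  have hfin := h9 p R s h B' (M lp - Matrix.scalar (Fin R) lam) Bm ((h1 + s + c : ℕ) : ℝ)
    (r2 * ((s + c : ℕ) : ℝ)) hdet hY.le (by
      intro m hm1 hms r x hx hdvd
      refine hlow m hm1 hms r x hx ?_
      intro i k
      have h2 := hdvd i k
      have e : (M lp - Matrix.scalar (Fin R) lam).mulVec (x i) k =
          (M lp).mulVec (x i) k - lam * x i k := by
        rw [Matrix.sub_mulVec, Pi.sub_apply, Matrix.scalar_apply, Matrix.mulVec_diagonal]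
      rw [e] at h2
      have h3 : (p : ℤ) ^ m ∣ lam * x i k :=
        Dvd.dvd.mul_right ((pow_dvd_pow _ hms).trans hlam) _
      exact (dvd_sub_left h3).1 h2) hhigh h7'
  refine hfin.trans ?_
  have h5 : (r2 : ℝ) * ((s + c : ℕ) : ℝ) ≤
      ((c0 : ℝ) + mx * ((R * Real.logb p R + R * Real.logb p X) / 2) / h1) * ((s + c : ℕ) : ℝ) :=
    mul_le_mul_of_nonneg_right hr2 hσ
  nlinarith [h5]

end Gou

end
end

section

/-!
D19. The valuation of `det (M - lam)` as a sum over the roots of the characteristic polynomial.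
-/

noncomputable section

namespace Gou

theorem d19Sum (h1 : D1Int) : D19Sum := by
  classical
  intro p hpf K _ _ _ av hna R M lam hdet
  have hp : p.Prime := hpf.out
  have hp0 : (0 : ℝ) < p := by exact_mod_cast hp.pos
  have hp1 : (1 : ℝ) < p := by exact_mod_cast hp.one_lt
  have h2 : (((M - Matrix.scalar (Fin R) lam).det : ℤ) : K) =
      (-1) ^ R * ((cm K M).charpoly.roots.map fun a => (lam : K) - a).prod := by
    rw [← (IsAlgClosed.splits (cm K M).charpoly).eval_eq_prod_roots_of_monic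
      (Matrix.charpoly_monic _), Matrix.eval_charpoly]
    have h3 : (((M - Matrix.scalar (Fin R) lam).det : ℤ) : K) =
        (cm K (M - Matrix.scalar (Fin R) lam)).det := Int.cast_det _
    have h4 : cm K (M - Matrix.scalar (Fin R) lam) =
        -(Matrix.scalar (Fin R) (lam : K) - cm K M) := by
      ext i j
      simp only [cm, Matrix.map_apply, Matrix.sub_apply, Matrix.neg_apply, Matrix.scalar_apply,
        Matrix.diagonal_apply]
      split_ifs <;> push_cast <;> ring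
    rw [h3, h4, Matrix.det_neg, Fintype.card_fin]
  have h3 : av (((M - Matrix.scalar (Fin R) lam).det : ℤ) : K) =
      ((cm K M).charpoly.roots.map fun a => av (a - lam)).prod := by
    rw [h2, map_mul, map_pow, map_neg_eq_map, map_one, one_pow, one_mul,
      map_multiset_prod, Multiset.map_map]
    congr 1
    refine Multiset.map_congr rfl fun a _ => ?_
    simp only [Function.comp]
    rw [← map_neg_eq_map av, neg_sub]
  have h4 := (h1 p K av hna (M - Matrix.scalar (Fin R) lam).det).2.2.1 hdet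
  have h5 : (padicValInt p (M - Matrix.scalar (Fin R) lam).det : ℝ) =
      -Real.logb p (av (((M - Matrix.scalar (Fin R) lam).det : ℤ) : K)) := by
    rw [h4, Real.logb_rpow hp0 hp1.ne', neg_neg]
  have hne : ∀ a ∈ (cm K M).charpoly.roots, av (a - lam) ≠ 0 := by
    intro a ha h
    have h6 : av (((M - Matrix.scalar (Fin R) lam).det : ℤ) : K) = 0 := by
      rw [h3]
      exact Multiset.prod_eq_zero (Multiset.mem_map.2 ⟨a, ha, h⟩)
    rw [h4] at h6
    exact (Real.rpow_pos_of_pos hp0 _).ne' h6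
  rw [h5, h3]
  have key : ∀ s : Multiset K, (∀ a ∈ s, av (a - lam) ≠ 0) →
      -Real.logb p ((s.map fun a => av (a - lam)).prod) =
        (s.map fun a => -Real.logb p (av (a - lam))).sum := by
    intro s
    induction s using Multiset.induction_on with
    | empty => simp
    | cons a s ih =>
      intro hs
      rw [Multiset.map_cons, Multiset.prod_cons, Multiset.map_cons, Multiset.sum_cons,
        Real.logb_mul (hs a (Multiset.mem_cons_self a s)) ?_, neg_add,
        ih fun b hb => hs b (Multiset.mem_cons_of_mem hb)]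
      intro h
      rw [Multiset.prod_eq_zero_iff, Multiset.mem_map] at h
      obtain ⟨b, hb, hb0⟩ := h
      exact hs b (Multiset.mem_cons_of_mem hb) hb0
  exact key _ hne

end Gou

end
end

section

/-!
Module D, item D20: roots of the characteristic polynomial of a matrix with an invariant subspace
`E × E`.
-/

noncomputable section

namespace Gou

open Polynomial

/-- The characteristic polynomial of the restriction to an invariant subspace divides the
characteristic polynomial. -/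
theorem charpoly_restrict_dvd {K V : Type*} [Field K] [AddCommGroup V] [Module K V]
    [FiniteDimensional K V] (f : V →ₗ[K] V) (W : Submodule K V) (hW : ∀ x ∈ W, f x ∈ W) :
    (f.restrict hW).charpoly ∣ f.charpoly := by
  classical
  obtain ⟨C, hC⟩ := W.exists_isCompl
  let bW := Module.finBasis K W
  let bC := Module.finBasis K C
  let b := (bW.prod bC).map (Submodule.prodEquivOfIsCompl W C hC)
  have hbl : ∀ i, b (Sum.inl i) = (bW i : V) := by
    intro i
    change (Submodule.prodEquivOfIsCompl W C hC) (bW.prod bC (Sum.inl i)) = _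
    rw [Module.Basis.prod_apply]
    simp
  have hrepr : ∀ (w : W), b.repr (w : V) = (bW.prod bC).repr (w, 0) := by
    intro w
    change (bW.prod bC).repr ((Submodule.prodEquivOfIsCompl W C hC).symm (w : V)) = _
    rw [Submodule.prodEquivOfIsCompl_symm_apply_left]
  rw [← LinearMap.charpoly_toMatrix f b, ← LinearMap.charpoly_toMatrix (f.restrict hW) bW]
  have hf : ∀ i, f (b (Sum.inl i)) = ((f.restrict hW (bW i) : W) : V) := by
    intro i
    rw [hbl]
    rfl
  have e21 : (LinearMap.toMatrix b b f).toBlocks₂₁ = 0 := by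
    ext j i
    change LinearMap.toMatrix b b f (Sum.inr j) (Sum.inl i) = 0
    rw [LinearMap.toMatrix_apply, hf, hrepr, Module.Basis.prod_repr_inr]
    simp
  have e11 : (LinearMap.toMatrix b b f).toBlocks₁₁ = LinearMap.toMatrix bW bW (f.restrict hW) := by
    ext j i
    change LinearMap.toMatrix b b f (Sum.inl j) (Sum.inl i) = _
    rw [LinearMap.toMatrix_apply, LinearMap.toMatrix_apply, hf, hrepr,
      Module.Basis.prod_repr_inl]
  rw [← Matrix.fromBlocks_toBlocks (LinearMap.toMatrix b b f), e21, e11,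
    Matrix.charpoly_fromBlocks_zero₂₁]
  exact dvd_mul_right _ _

theorem d20Two : D20Two := by
  intro K _ _ E _ _ _ R M T Φ hΦ hint
  have hW : ∀ x ∈ LinearMap.range Φ, M.mulVecLin x ∈ LinearMap.range Φ := by
    rintro _ ⟨⟨f, g⟩, rfl⟩
    exact ⟨(T f, T g), hint f g⟩
  let e : (E × E) ≃ₗ[K] LinearMap.range Φ := LinearEquiv.ofInjective Φ hΦ
  have hconj : M.mulVecLin.restrict hW = e.conj (T.prodMap T) := by
    ext1 ⟨x, hx⟩
    obtain ⟨⟨f, g⟩, rfl⟩ := hx
    apply Subtype.ext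
    have h1 : e.symm ⟨Φ (f, g), ⟨(f, g), rfl⟩⟩ = (f, g) := by
      rw [LinearEquiv.symm_apply_eq]
      rfl
    rw [LinearEquiv.conj_apply_apply, h1]
    exact (hint f g).symm
  have hdvd : T.charpoly * T.charpoly ∣ M.charpoly := by
    rw [← LinearMap.charpoly_prodMap, ← LinearEquiv.charpoly_conj e, ← hconj,
      ← Matrix.charpoly_mulVecLin M]
    exact charpoly_restrict_dvd _ _ hW
  obtain ⟨q, hq⟩ := hdvd
  have hM0 : M.charpoly ≠ 0 := M.charpoly_monic.ne_zero
  have hne : T.charpoly * T.charpoly * q ≠ 0 := hq ▸ hM0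
  have hTT : T.charpoly * T.charpoly ≠ 0 := left_ne_zero_of_mul hne
  refine ⟨q.roots, ?_, ?_⟩
  · rw [hq, roots_mul hne, roots_mul hTT]
  · have hroots : M.charpoly.roots = T.charpoly.roots + T.charpoly.roots + q.roots := by
      rw [hq, roots_mul hne, roots_mul hTT]
    have h1 : Multiset.card M.charpoly.roots = R := by
      rw [IsAlgClosed.card_roots_eq_natDegree, Matrix.charpoly_natDegree_eq_dim, Fintype.card_fin]
    have h2 : Multiset.card T.charpoly.roots = Module.finrank K E := by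
      rw [IsAlgClosed.card_roots_eq_natDegree, LinearMap.charpoly_natDegree]
    rw [hroots, Multiset.card_add, Multiset.card_add, h2] at h1
    omega

end Gou

end
end

section

/-!
Module D, item D21: comparison of `v(a - lam)` with `min (v(a), s)`.
-/

noncomputable section

namespace Gou

theorem d21Cmp (h1 : D1Int) : D21Cmp := by
  intro p hp K _ _ av hav s c u a hu ha hV
  have hp1 : (1 : ℝ) < p := by exact_mod_cast hp.out.one_lt
  have hp0 : (0 : ℝ) < p := lt_trans one_pos hp1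
  set lam : K := (((p : ℤ) ^ s * u : ℤ) : K) with hlam
  have hl : av lam = (p : ℝ) ^ (-(s : ℝ)) := by
    have hu1 : av (u : K) = 1 := (h1 p K av hav u).2.2.2 hu
    rw [hlam]
    push_cast
    rw [map_mul, map_pow, hav.hp, hu1, mul_one, Real.rpow_neg hp0.le, Real.rpow_natCast, inv_pow]
  have hVpos : 0 < av (a - lam) := lt_of_lt_of_le (Real.rpow_pos_of_pos hp0 _) hV
  have hspos : (0 : ℝ) < (p : ℝ) ^ (-(s : ℝ)) := Real.rpow_pos_of_pos hp0 _
  have hMpos : 0 < max (av a) ((p : ℝ) ^ (-(s : ℝ))) := lt_max_of_lt_right hspos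
  have hlogs : Real.logb p ((p : ℝ) ^ (-(s : ℝ))) = -(s : ℝ) := Real.logb_rpow hp0 hp1.ne'
  have hlogc : Real.logb p ((p : ℝ) ^ (-((s + c : ℕ) : ℝ))) = -((s + c : ℕ) : ℝ) :=
    Real.logb_rpow hp0 hp1.ne'
  have hna : av (-lam) = av lam := AbsoluteValue.map_neg av lam
  have hVM : av (a - lam) ≤ max (av a) ((p : ℝ) ^ (-(s : ℝ))) := by
    have h := hav.na a (-lam)
    rwa [← sub_eq_add_neg, hna, hl] at h
  unfold ws
  refine ⟨?_, ?_, ?_, ?_⟩
  · exact neg_le_neg (Real.logb_le_logb_of_le hp1 hVpos hVM)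
  · rcases le_or_gt (av a) ((p : ℝ) ^ (-(s : ℝ))) with h | h
    · rw [max_eq_right h, hlogs]
      have h2 := Real.logb_le_logb_of_le hp1 (Real.rpow_pos_of_pos hp0 _) hV
      rw [hlogc] at h2
      push_cast at h2
      linarith
    · have h2 : av a ≤ av (a - lam) := by
        have h3 := hav.na (a - lam) lam
        rw [sub_add_cancel, hl] at h3
        rcases le_max_iff.1 h3 with h4 | h4
        · exact h4
        · exact absurd h4 (not_le.2 h)
      rw [max_eq_left h.le]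
      have h5 := Real.logb_le_logb_of_le hp1 (lt_trans hspos h) h2
      have h6 : (0 : ℝ) ≤ c := Nat.cast_nonneg c
      linarith
  · have h2 : max (av a) ((p : ℝ) ^ (-(s : ℝ))) ≤ 1 := by
      refine max_le ha ?_
      exact Real.rpow_le_one_of_one_le_of_nonpos hp1.le (neg_nonpos.2 (Nat.cast_nonneg s))
    have h3 := Real.logb_nonpos hp1 hMpos.le h2
    linarith
  · have h2 := Real.logb_le_logb_of_le hp1 hspos (le_max_right (av a) ((p : ℝ) ^ (-(s : ℝ))))
    rw [hlogs] at h2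
    linarith

end Gou

end
end

section

/-!
Module E: final assembly.
-/

open scoped MatrixGroups ModularForm UpperHalfPlane Polynomial ENNReal
open CongruenceSubgroup UpperHalfPlane MeasureTheory Filter

noncomputable section

namespace Gou

/-- The absolute value on `ℂ` induced by `ι : ℂ ≃+* PadicAlgCl p`. -/
def avI {p : ℕ} [Fact p.Prime] (ι : ℂ ≃+* PadicAlgCl p) : AbsoluteValue ℂ ℝ where
  toFun z := ‖ι z‖
  map_mul' x y := by simp
  nonneg' x := norm_nonneg _
  eq_zero' x := by simp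
  add_le' x y := by
    simp only [map_add]
    exact norm_add_le _ _

/-- E0. It is a nonarchimedean absolute value with `av p = 1/p`. -/
def E0NA : Prop := ∀ (p : ℕ) [Fact p.Prime] (ι : ℂ ≃+* PadicAlgCl p), NA ℂ p (avI ι)

/-- E0'. Such isomorphisms exist. -/
def E0Iso : Prop := ∀ (p : ℕ) [Fact p.Prime], Nonempty (ℂ ≃+* PadicAlgCl p)

/-- All the data needed by the linear algebra, in coordinates, for the weight `k = n + 2`. -/
structure CoordAt (p N n C : ℕ) where
  R : ℕ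
  M : ℕ → Matrix (Fin R) (Fin R) ℤ
  comm : ∀ l l' : ℕ, l.Prime → l'.Prime → ¬ l ∣ N → ¬ l' ∣ N → M l * M l' = M l' * M l
  rank : 6 * R ≤ (Gamma0 N).index * n + C
  hodge : ∀ m : ℕ, (p + 1) * m ≤ n → ∀ (r : ℕ) (x : Fin r → Fin R → ℤ), PInd p x →
    (∀ i k, (p : ℤ) ^ m ∣ (M p).mulVec (x i) k) →
    (r : ℝ) ≤ ((Gamma0 N).index : ℝ) / 6 * ((n : ℝ) - (p + 1) * m) + C * (n : ℝ) ^ (3 / 4 : ℝ) + C
  deep : ∀ s h : ℕ, C * n ^ 3 ≤ h ^ 4 → (p + 1) * (s + h) ≤ n → ∀ u : ℤ, ¬ (p : ℤ) ∣ u →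
    ∀ (r : ℕ) (x : Fin r → Fin R → ℤ), PInd p x →
    (∀ i k, (p : ℤ) ^ (s + h) ∣
      (M p - Matrix.scalar (Fin R) ((p : ℤ) ^ s * u)).mulVec (x i) k) → r ≤ C * h
  image : ∀ s : ℕ, (p + 1) * s ≤ n → ∀ (r : ℕ) (x : Fin r → Fin R → ℤ),
    (∀ i j, (∀ k, (p : ℤ) ^ s ∣ (M p).mulVec (x i) k - (M p).mulVec (x j) k) → i = j) →
    Real.logb p r ≤ ((Gamma0 N).index : ℝ) / 6 * ((p + 1) * (s : ℝ) ^ 2 / 2) + C * n + C
  trace : ∀ w : List ℕ, (∀ l ∈ w, l.Prime ∧ ¬ l ∣ N) →
    ((|((w.map M).prod).trace| : ℤ) : ℝ) ≤ R * (w.prod : ℝ) ^ (C * (n + 1))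
  Φ : (SN N ((n : ℤ) + 2) × SN N ((n : ℤ) + 2)) →ₗ[ℂ] (Fin R → ℂ)
  inj : Function.Injective Φ
  equiv : ∀ l : ℕ, l.Prime → ¬ l ∣ N → ∀ T : SN N ((n : ℤ) + 2) →ₗ[ℂ] SN N ((n : ℤ) + 2),
    IsHecke N ((n : ℤ) + 2) l T → ∀ f g, Φ (T f, T g) = (cm ℂ (M l)).mulVec (Φ (f, g))

/-- E1. Coordinates exist, with a constant `C` independent of `n`. -/
def CoordExists (p N : ℕ) : Prop :=
  ∃ C n0 : ℕ, ∀ n ≥ n0, Even n → Nonempty (CoordAt p N n C)

/-- E2. Decomposition of `S_k` into eigenspaces of the operators `T_l`. -/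
def CharDecomp (N : ℕ) : Prop :=
  ∀ k : ℤ, ∃ (q : ℕ) (χ : Fin q → ℕ → ℂ) (μ : Fin q → ℕ) (f : (i : Fin q) → Fin (μ i) → SN N k),
    (∀ i, 1 ≤ μ i) ∧ ∑ i, μ i = Module.finrank ℂ (SN N k) ∧
    (∀ i j, IsEigen N k (χ i) (f i j)) ∧
    (∀ i j, i ≠ j → ∃ l : ℕ, l.Prime ∧ ¬ l ∣ N ∧ χ i l ≠ χ j l) ∧
    LinearIndependent ℂ (fun x : (i : Fin q) × Fin (μ i) => f x.1 x.2)

/-- E3a. Upper bound (I) with explicit error terms. -/
def EUpX (p N : ℕ) [Fact p.Prime] : Prop :=
  ∃ (C : ℝ) (n0 : ℕ), 0 ≤ C ∧ ∀ n ≥ n0, Even n → ∀ s h h1 : ℕ, C * (n : ℝ) ^ 3 ≤ (h : ℝ) ^ 4 →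
    (p + 1) * (s + h) ≤ n → 1 ≤ h1 → ∀ ι : ℂ ≃+* PadicAlgCl p,
      2 * ((heckeEigs N ((n : ℤ) + 2) p).map fun a => ws p (avI ι) s a).sum ≤
        ((Gamma0 N).index : ℝ) / 6 * ((n : ℝ) * s - (p + 1) * (s : ℝ) ^ 2 / 2) +
        C * (s * (n : ℝ) ^ (3 / 4 : ℝ) + n + n * h + (h1 + n) * h
          + n * (1 + Real.log n ^ C * (n : ℝ) ^ 2 / h1))

/-- E3. Upper bound (I). -/
def EUp (p N : ℕ) [Fact p.Prime] : Prop :=
  ∀ ε : ℝ, 0 < ε → ∃ n1 : ℕ, ∀ n ≥ n1, Even n → ∀ s : ℕ, ((p : ℝ) + 1) * s ≤ (1 - ε) * n →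
    ∀ ι : ℂ ≃+* PadicAlgCl p,
      2 * ((heckeEigs N ((n : ℤ) + 2) p).map fun a => ws p (avI ι) s a).sum ≤
        ((Gamma0 N).index : ℝ) / 6 * ((n : ℝ) * s - (p + 1) * (s : ℝ) ^ 2 / 2) + ε * (n : ℝ) ^ 2

/-- E4. Lower bound (II). -/
def ELow (p N : ℕ) [Fact p.Prime] : Prop :=
  ∀ ε : ℝ, 0 < ε → ∃ n1 : ℕ, ∀ n ≥ n1, Even n → ∀ s : ℕ, ((p : ℝ) + 1) * s ≤ (1 - ε) * n →
    ∀ ι : ℂ ≃+* PadicAlgCl p,
      ((Gamma0 N).index : ℝ) / 6 * ((n : ℝ) * s - (p + 1) * (s : ℝ) ^ 2 / 2) - ε * (n : ℝ) ^ 2 ≤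
      2 * ((heckeEigs N ((n : ℤ) + 2) p).map fun a => ws p (avI ι) s a).sum

/-- E5. Dimension asymptotics. -/
def EDim (N : ℕ) : Prop :=
  ∃ C : ℕ, ∀ k : ℕ, Even k → (Gamma0 N).index * k ≤ 12 * Module.finrank ℂ (SN N k) + C ∧
    12 * Module.finrank ℂ (SN N k) ≤ (Gamma0 N).index * k + C

/-- E6a. Valuations of the roots of `x^2 - a x + p^(k-1)`. -/
def ERoots : Prop :=
  ∀ (p : ℕ) [Fact p.Prime] (ι : ℂ ≃+* PadicAlgCl p) (a : ℂ) (k : ℕ), 2 ≤ k → avI ι a ≤ 1 →
    ((Polynomial.X ^ 2 - Polynomial.C (ι a) * Polynomial.X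
      + Polynomial.C ((p : PadicAlgCl p) ^ (k - 1)) : (PadicAlgCl p)[X]).roots).map (vAlg p)
      = {ws p (avI ι) (((k : ℝ) - 1) / 2) a, ((k : ℝ) - 1) - ws p (avI ι) (((k : ℝ) - 1) / 2) a}

/-- E6. The integral of `g` against `μ_k`. The number of eigenvalues is the dimension. -/
def EInt (p N : ℕ) [Fact p.Prime] : Prop :=
  ∃ k0 : ℕ, ∀ k ≥ k0, Even k → ∀ (ι : ℂ ≃+* PadicAlgCl p) (g : ℝ → ℝ), Continuous g →
    Multiset.card (heckeEigs N k p) = Module.finrank ℂ (SN N k) ∧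
    (∀ a ∈ heckeEigs N k p, 0 ≤ ws p (avI ι) (((k : ℝ) - 1) / 2) a ∧
      ws p (avI ι) (((k : ℝ) - 1) / 2) a ≤ ((k : ℝ) - 1) / 2 ∧
      ∀ s : ℝ, 0 ≤ s → s ≤ ((k : ℝ) - 1) / 2 →
        ws p (avI ι) s a = min (ws p (avI ι) (((k : ℝ) - 1) / 2) a) s) ∧
    ∫ x, g x ∂(muK p N k ι) =
      (1 / (2 * (Module.finrank ℂ (SN N k) : ℝ))) *
        ((heckeEigs N k p).map fun a =>
          g (ws p (avI ι) (((k : ℝ) - 1) / 2) a / ((k : ℝ) - 1))
            + g (1 - ws p (avI ι) (((k : ℝ) - 1) / 2) a / ((k : ℝ) - 1))).sum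

/-- E8. Odd weights. -/
def EOdd (N : ℕ) : Prop := ∀ k : ℕ, ¬ Even k → Module.finrank ℂ (SN N k) = 0

/-- E7. Pure analysis. `A n` (`n` even) multisets of numbers in `[0, (n+1)/2]`. -/
def EAna : Prop :=
  ∀ (p : ℕ) (ψ : ℝ) (C : ℝ) (A : ℕ → Multiset ℝ) (G : ℝ → ℝ), 2 ≤ p → 0 < ψ → Continuous G →
    (∀ n, ∀ t ∈ A n, 0 ≤ t ∧ t ≤ ((n : ℝ) + 1) / 2) →
    (∀ n, Even n → |12 * (Multiset.card (A n) : ℝ) - ψ * n| ≤ C) →
    (∀ ε : ℝ, 0 < ε → ∃ n1 : ℕ, ∀ n ≥ n1, Even n → ∀ s : ℕ, ((p : ℝ) + 1) * s ≤ (1 - ε) * n →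
      |2 * ((A n).map fun t => min t (s : ℝ)).sum
        - ψ / 6 * ((n : ℝ) * s - (p + 1) * (s : ℝ) ^ 2 / 2)| ≤ ε * (n : ℝ) ^ 2) →
    Tendsto (fun n : ℕ => (1 / (Multiset.card (A n) : ℝ)) *
        ((A n).map fun t => G (t / ((n : ℝ) + 1))).sum)
      (atTop ⊓ 𝓟 {n : ℕ | Even n}) (nhds (((p : ℝ) + 1) * ∫ x in (0 : ℝ)..(1 / ((p : ℝ) + 1)), G x))

end Gou

end
end

section

/-! Module A of MP_602313_nt: assembly. -/

noncomputable section

namespace Gou

theorem prfA_DualInj (p : ℕ) [Fact p.Prime] : DualInj p := prf_DualInj p (prf_J2 p) (prf_J4 p)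

/-- First target of module A. -/
theorem prfA_DualStep (p : ℕ) [Fact p.Prime] : DualStep p := prf_DualStep p (prfA_DualInj p)

theorem prfA_L2 (p : ℕ) [Fact p.Prime] : L2 p := prf_L2 p (prf_L1 p)

theorem prfA_M6 (p : ℕ) [Fact p.Prime] : M6 p :=
  prf_M6 p (prf_M1 p) (prf_M2 p) (prf_M4 p) (prf_M5 p)

theorem prfA_DetMC (p : ℕ) [Fact p.Prime] : DetMC p :=
  prf_DetMC p (prf_M2 p) (prf_M3 p (prf_M1 p) (prf_M2 p)) (prfA_M6 p) prf_M7 (prf_M1 p)

theorem prfA_DetN0 (p : ℕ) [Fact p.Prime] : DetN0 p :=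
  prf_DetN0 p (prf_J1 p) (prf_J3 p (prf_J2 p)) (prfA_DualInj p) (prf_L4 p)

theorem prfA_CountBad (p : ℕ) [Fact p.Prime] : CountBad p :=
  prf_CountBad p (prfA_DetMC p) (prfA_DetN0 p) (prf_K1 p (prf_L1 p) (prfA_L2 p) (prf_J1 p))
    (prf_K2 p) (prf_K3 p) (prf_E2 p (prf_L3 p) (prf_E1 p)) (prf_I2 p (prf_I1 p)) (prf_Z1 p)
    (prf_Z2 p)

theorem prfA_DeepNu (p : ℕ) [Fact p.Prime] : DeepNu p :=
  prf_DeepNu p (prf_T1 p (prfA_L2 p)) (prfA_CountBad p)

/-- Second target of module A. -/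
theorem prfA_DeepBound (p : ℕ) [Fact p.Prime] : DeepBound p :=
  prf_DeepBound p (prfA_L2 p) (prf_L5 p) (prf_J1 p) (prfA_DeepNu p)

end Gou

end
end

section

/-!
B0e: the Hecke operators commute.
-/

open scoped MatrixGroups Polynomial
open CongruenceSubgroup

noncomputable section

namespace Gou

namespace HeckeAux

lemma rep_low (l : ℕ) (i : Option (Fin l)) : rep l i 1 0 = 0 := by
  cases i <;> simp [rep, repU, repV]

lemma cancel_right {X Y A : Matrix (Fin 2) (Fin 2) ℤ} (hA : A.det ≠ 0) (h : X * A = Y * A) :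
    X = Y := by
  have h1 := congrArg (fun M => M * A.adjugate) h
  simp only [Matrix.mul_assoc, Matrix.mul_adjugate] at h1
  rw [Matrix.mul_smul, Matrix.mul_smul, Matrix.mul_one, Matrix.mul_one] at h1
  exact smul_right_injective _ hA h1

lemma hecke_hecke (h1 : BComp) {N n : ℕ} (l l' : ℕ) {R : Type} [CommRing R]
    {φ : Vec → Vec → R[X]} (hφ : φ ∈ Symb N n R) (r s : Vec) :
    heckeSymbFun n l (heckeSymbFun n l' φ) r s =
      ∑ q : Option (Fin l) × Option (Fin l'), symAct n (rep l' q.2 * rep l q.1)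
        (φ ((rep l' q.2 * rep l q.1).mulVec r) ((rep l' q.2 * rep l q.1).mulVec s)) := by
  rw [hecke_eq, Fintype.sum_prod_type]
  refine Finset.sum_congr rfl fun i _ => ?_
  rw [hecke_eq, BCompAux.symAct_sum]
  refine Finset.sum_congr rfl fun j _ => ?_
  rw [(h1 R n (rep l' j) (rep l i) _ (hφ.1 _ _)).1, Matrix.mulVec_mulVec, Matrix.mulVec_mulVec]

end HeckeAux

open HeckeAux in
theorem bComm (h1 : BComp) : BComm := by
  classical
  intro N n l l' R _ hl hl' hlN hl'N φ hφ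
  by_cases hll : l = l'
  · subst hll; rfl
  have hlp : Prime (l : ℤ) := Nat.prime_iff_prime_int.1 hl
  have hl'p : Prime (l' : ℤ) := Nat.prime_iff_prime_int.1 hl'
  have hndvd : ¬ (l : ℤ) ∣ l' := by
    intro h
    rw [Int.natCast_dvd_natCast] at h
    exact hll ((Nat.prime_dvd_prime_iff_eq hl hl').1 h)
  funext r s
  rw [hecke_hecke h1 l l' hφ, hecke_hecke h1 l' l hφ]
  have hsw := (Equiv.prodComm (Option (Fin l)) (Option (Fin l'))).sum_comp
    (fun q : Option (Fin l') × Option (Fin l) => symAct n (rep l q.2 * rep l' q.1)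
      (φ ((rep l q.2 * rep l' q.1).mulVec r) ((rep l q.2 * rep l' q.1).mulVec s)))
  simp only [Equiv.prodComm_apply, Prod.fst_swap, Prod.snd_swap] at hsw
  rw [← hsw]
  have hex : ∀ q : Option (Fin l) × Option (Fin l'), ∃ (q' : Option (Fin l) × Option (Fin l'))
      (δ : SL(2, ℤ)), δ ∈ Gamma0 N ∧ rep l' q.2 * rep l q.1 = mx δ * (rep l q'.1 * rep l' q'.2) := by
    rintro ⟨i, j⟩
    have hlow : (N : ℤ) ∣ (rep l' j * rep l i) 1 0 := by
      rw [Matrix.mul_apply, Fin.sum_univ_two, rep_low, rep_low]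
      simp
    have hdet : (rep l' j * rep l i).det = (l : ℤ) * l' := by
      rw [Matrix.det_mul, det_rep, det_rep, mul_comm]
    obtain ⟨j', X, hX, hXN⟩ := exists_factor hl' hl'N (rep l' j * rep l i)
      (by rw [hdet]; exact dvd_mul_left _ _) hlow
    have hXdet : X.det = l := by
      have := congrArg Matrix.det hX
      rw [Matrix.det_mul X, det_rep, hdet] at this
      exact (mul_right_cancel₀ hl'p.ne_zero this).symm
    obtain ⟨i', δ, hδ, hXδ⟩ := exists_factor' hl hlN X hXdet hXN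
    exact ⟨(i', j'), δ, hδ, by rw [hX, hXδ, Matrix.mul_assoc]⟩
  choose σ δ hδ hσ using hex
  have hinj : Function.Injective σ := by
    rintro ⟨i1, j1⟩ ⟨i2, j2⟩ hii
    have e1 := hσ (i1, j1)
    have e2 := hσ (i2, j2)
    rw [← hii] at e2
    have e3 : (mx (δ (i1, j1))⁻¹ * rep l' j1) * rep l i1 =
        (mx (δ (i2, j2))⁻¹ * rep l' j2) * rep l i2 := by
      rw [Matrix.mul_assoc, Matrix.mul_assoc, e1, e2, ← Matrix.mul_assoc,
        ← Matrix.mul_assoc (mx (δ (i2, j2))⁻¹), mx_inv_mul, mx_inv_mul]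
    have e4 : i1 = i2 := unique_factor hl e3 (by
      rw [Matrix.det_mul, det_rep, (δ (i1, j1))⁻¹.2, one_mul]
      exact hndvd)
    subst e4
    have e5 := cancel_right (by rw [det_rep]; exact hlp.ne_zero) e3
    have e6 : j1 = j2 := unique_factor hl' e5 (by
      rw [(δ (i1, j1))⁻¹.2]
      exact hl'p.not_dvd_one)
    rw [e6]
  have hbij : Function.Bijective σ := Finite.injective_iff_bijective.1 hinj
  rw [← Function.Bijective.sum_comp hbij (fun q => symAct n (rep l q.1 * rep l' q.2)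
    (φ ((rep l q.1 * rep l' q.2).mulVec r) ((rep l q.1 * rep l' q.2).mulVec s)))]
  refine Finset.sum_congr rfl fun q _ => ?_
  rw [hσ q, symb_inv h1 hφ (hδ q)]

end Gou

end
end
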