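import Pool.Agent.Work.MP_602313_nt.Bd.B15
import Pool.Agent.Work.MP_602313_nt.Bd.B17

/-! Bundle of small proof modules (one section per former module). -/

section

/-!
MP_602313_nt, module C2, item P3: boundedness of the Petersson function.
-/

open scoped MatrixGroups ModularForm UpperHalfPlane Manifold Pointwise Modular
open CongruenceSubgroup UpperHalfPlane Matrix Matrix.SpecialLinearGroup ConjAct OnePoint
open MeasureTheory

noncomputable section

namespace Gou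

theorem petBdd_sq (k : ℤ) (F G : ℍ → ℂ) (z : ℍ) :
    ‖petersson k F G z‖ ^ 2 = ‖petersson k F F z‖ * ‖petersson k G G z‖ := by
  unfold petersson
  simp only [norm_mul, RCLike.norm_conj]
  ring

theorem petBdd : PetBdd := by
  intro Γ _ k f g α
  obtain ⟨C1, hC1⟩ : ∃ C : ℝ, ∀ z, ‖petersson k f f z‖ ≤ C :=
    CuspFormClass.petersson_bounded_left k (Γ : Subgroup (GL (Fin 2) ℝ)) f f
  obtain ⟨C2, hC2⟩ : ∃ C : ℝ, ∀ z, ‖petersson k g g z‖ ≤ C :=
    CuspFormClass.petersson_bounded_left k (Γ : Subgroup (GL (Fin 2) ℝ)) g g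
  have h1 : ∀ z, ‖petersson k (⇑f ∣[k] gR α) (⇑f ∣[k] gR α) z‖
      ≤ |(gR α).det.val| ^ (k - 2) * C1 := by
    intro z
    rw [petersson_slash, norm_mul, norm_σ]
    have h2 : ‖((|(gR α).det.val| : ℝ) : ℂ) ^ (k - 2)‖ = |(gR α).det.val| ^ (k - 2) := by
      rw [norm_zpow, Complex.norm_real, Real.norm_eq_abs, abs_abs]
    rw [h2]
    exact mul_le_mul_of_nonneg_left (hC1 _) (zpow_nonneg (abs_nonneg _) _)
  refine ⟨Real.sqrt ((|(gR α).det.val| ^ (k - 2) * C1) * C2), fun z => ?_⟩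
  apply Real.le_sqrt_of_sq_le
  rw [petBdd_sq]
  have h3 : 0 ≤ |(gR α).det.val| ^ (k - 2) * C1 := (norm_nonneg _).trans (h1 z)
  exact mul_le_mul (h1 z) (hC2 z) (norm_nonneg _) h3

end Gou

end
end

section

/-!
MP_602313_nt, module C2, item P4: positivity of the weighted Petersson form.
-/

open scoped MatrixGroups ModularForm UpperHalfPlane Manifold Pointwise Modular
open CongruenceSubgroup UpperHalfPlane Matrix Matrix.SpecialLinearGroup ConjAct OnePoint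
open MeasureTheory

noncomputable section

namespace Gou

theorem petPos_isOpenPos : (volume : Measure ℍ).IsOpenPosMeasure := by
  refine ⟨fun U hU hne h0 => ?_⟩
  rw [volume_eq_lintegral] at h0
  have hV : IsOpen ((fun z : ℍ => (z : ℂ)) '' U) := isOpenEmbedding_coe.isOpenMap U hU
  rw [setLIntegral_eq_zero_iff hV.measurableSet (by fun_prop)] at h0
  have h1 : volume ((fun z : ℍ => (z : ℂ)) '' U) = 0 := by
    refine measure_mono_null ?_ h0
    rintro _ ⟨z, hz, rfl⟩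
    simp only [Set.mem_compl_iff, Set.mem_ofPred_eq, Classical.not_imp]
    refine ⟨⟨z, hz, rfl⟩, ?_⟩
    simpa using z.im_ne_zero
  exact (hV.measure_pos volume (hne.image _)).ne' h1

theorem petPos_self (k : ℤ) (f : ℍ → ℂ) (z : ℍ) :
    petersson k f f z = ((‖f z‖ ^ 2 * z.im ^ k : ℝ) : ℂ) := by
  rw [petersson, Complex.conj_mul']
  push_cast
  rfl

theorem petPos_countable : Countable SL(2, ℤ) := by
  have h : Countable (Fin 2 → Fin 2 → ℤ) := inferInstance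
  exact Function.Injective.countable (β := Fin 2 → Fin 2 → ℤ)
    (f := fun A i j => (A : Matrix (Fin 2) (Fin 2) ℤ) i j)
    (fun A B h => Subtype.ext (Matrix.ext fun i j => congrFun (congrFun h i) j))

theorem petPos : PetPos := by
  intro Γ _ w hw k f hf
  have := petPos_countable
  have := petPos_isOpenPos
  set F : ℍ → ℝ := fun z => ‖f z‖ ^ 2 * z.im ^ k with hF
  have hF0 : ∀ z, 0 ≤ F z := fun z => mul_nonneg (sq_nonneg _) (zpow_nonneg z.im_pos.le _)
  have hpet : ∀ z, petersson k f f z = ((F z : ℝ) : ℂ) := fun z => petPos_self k f z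
  have hfc : Continuous (⇑f : ℍ → ℂ) := f.holo'.continuous
  have hFc : Continuous F := by
    have h1 : Continuous fun z : ℍ => (petersson k f f z).re :=
      Complex.continuous_re.comp (petersson_continuous k hfc hfc)
    refine h1.congr fun z => ?_
    rw [hpet z, Complex.ofReal_re]
  have hFinv : ∀ γ : Γ, ∀ z, F (((γ : SL(2, ℤ)) : SL(2, ℤ)) • z) = F z := by
    intro γ z
    have h1 := petersson_slash_SL k f f (γ : SL(2, ℤ)) z
    rw [slash_of_mem f γ.2, hpet, hpet] at h1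
    exact_mod_cast h1.symm
  obtain ⟨C, hC⟩ : ∃ C : ℝ, ∀ z, ‖petersson k f f z‖ ≤ C :=
    CuspFormClass.petersson_bounded_left k (Γ : Subgroup (GL (Fin 2) ℝ)) f f
  have hFb : ∀ z, ‖F z‖ ≤ C := by
    intro z
    have := hC z
    rw [hpet z, Complex.norm_real] at this
    exact this
  have hint : Integrable fun z => w z * F z :=
    hw.int.mul_bdd (c := C) hFc.aestronglyMeasurable (Filter.Eventually.of_forall hFb)
  have hre : (∫ z, (w z : ℂ) * petersson k f f z).re = ∫ z, w z * F z := by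
    have : (fun z => (w z : ℂ) * petersson k f f z) = fun z => ((w z * F z : ℝ) : ℂ) := by
      funext z
      rw [hpet z]
      push_cast
      rfl
    rw [this, integral_complex_ofReal, Complex.ofReal_re]
  rw [hre]
  have hnn : 0 ≤ fun z => w z * F z := fun z => mul_nonneg (hw.nonneg z) (hF0 z)
  refine lt_of_le_of_ne (integral_nonneg hnn) fun h0 => hf ?_
  rw [eq_comm, integral_eq_zero_iff_of_nonneg hnn hint] at h0
  have hae : ∀ᵐ z : ℍ, ∀ γ : Γ, w ((γ : SL(2, ℤ)) • z) * F z = 0 := by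
    rw [ae_all_iff]
    intro γ
    have hq : Measure.QuasiMeasurePreserving (fun z : ℍ => (γ : SL(2, ℤ)) • z) volume volume := by
      have := (measurePreserving_smul (mapGL ℝ (γ : SL(2, ℤ))) (volume : Measure ℍ))
      exact this.quasiMeasurePreserving
    have h1 := hq.ae h0
    filter_upwards [h1] with z hz
    have : w ((γ : SL(2, ℤ)) • z) * F ((γ : SL(2, ℤ)) • z) = 0 := hz
    rw [hFinv γ z] at this
    exact this
  have hFae : F =ᵐ[volume] fun _ => 0 := by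
    filter_upwards [hae] with z hz
    have h1 := (hw.sum z).mul_right (F z)
    have h2 : HasSum (fun γ : Γ => w ((γ : SL(2, ℤ)) • z) * F z) 0 := by
      have : (fun γ : Γ => w ((γ : SL(2, ℤ)) • z) * F z) = fun _ => 0 := funext hz
      rw [this]
      exact hasSum_zero
    have := h1.unique h2
    simpa using this
  have hFz : F = fun _ => 0 := (Continuous.ae_eq_iff_eq volume hFc continuous_const).mp hFae
  ext z
  have h1 := congrFun hFz z
  simp only [hF, mul_eq_zero, sq_eq_zero_iff, norm_eq_zero] at h1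
  rcases h1 with h1 | h1
  · simpa using h1
  · exact absurd h1 (zpow_ne_zero _ z.im_ne_zero)

end Gou

end
end

section

/-!
MP_602313_nt, module C2, item L4: Vandermonde for holomorphic functions on the upper half plane.
-/

open scoped MatrixGroups ModularForm UpperHalfPlane Manifold Pointwise Modular
open CongruenceSubgroup UpperHalfPlane Matrix Matrix.SpecialLinearGroup ConjAct OnePoint

noncomputable section

namespace Gou

theorem vander : Vander := by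
  classical
  intro n x g hx hg hne hinj hsum
  let s : Finset (Fin n × Fin n) := Finset.univ.filter fun p => p.1 ≠ p.2
  have hd : ∀ p ∈ s, MDiff (x p.1 - x p.2) := fun p _ => (hx p.1).sub (hx p.2)
  have hdne : ∀ p ∈ s, x p.1 - x p.2 ≠ 0 := by
    intro p hp h
    have hp' : p.1 ≠ p.2 := (Finset.mem_filter.mp hp).2
    exact hp' (hinj (sub_eq_zero.mp h))
  have hX : MDiff (∏ j, x j) := MDifferentiable.prod fun j _ => hx j
  have hD : MDiff (∏ p ∈ s, (x p.1 - x p.2)) := MDifferentiable.prod hd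
  have hXne : ∏ j, x j ≠ 0 := by
    intro h
    obtain ⟨j, _, hj⟩ := (UpperHalfPlane.prod_eq_zero_iff fun j _ => hx j).mp h
    exact hne j hj
  have hDne : ∏ p ∈ s, (x p.1 - x p.2) ≠ 0 := by
    intro h
    obtain ⟨p, hp, hp'⟩ := (UpperHalfPlane.prod_eq_zero_iff hd).mp h
    exact hdne p hp hp'
  have hHne : (∏ j, x j) * (∏ p ∈ s, (x p.1 - x p.2)) ≠ 0 := by
    intro h
    rcases (UpperHalfPlane.mul_eq_zero_iff hX hD).mp h with h | h
    · exact hXne h
    · exact hDne h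
  have hH : MDiff ((∏ j, x j) * (∏ p ∈ s, (x p.1 - x p.2))) := hX.mul hD
  funext i
  have key : ((∏ j, x j) * (∏ p ∈ s, (x p.1 - x p.2))) * g i = 0 := by
    funext z
    simp only [Pi.mul_apply, Pi.zero_apply]
    by_cases hz : ((∏ j, x j) * (∏ p ∈ s, (x p.1 - x p.2))) z = 0
    · simp only [Pi.mul_apply] at hz
      rw [hz, zero_mul]
    · simp only [Pi.mul_apply, Finset.prod_apply] at hz
      have hz1 : ∀ j, x j z ≠ 0 := by
        intro j hj
        exact hz (by rw [Finset.prod_eq_zero (Finset.mem_univ j) hj, zero_mul])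
      have hz2 : Function.Injective (fun j => x j z) := by
        intro a b hab
        by_contra hne'
        refine hz ?_
        rw [Finset.prod_eq_zero (s := s) (i := (a, b)) (by simp [s, hne']) (by
          simp only [Pi.sub_apply]; exact sub_eq_zero.mpr hab), mul_zero]
      have hv : (fun i => g i z) = 0 := by
        refine Matrix.eq_zero_of_forall_index_sum_pow_mul_eq_zero hz2 ?_
        intro j
        have h := hsum j z
        have h' : x j z * ∑ i : Fin n, x j z ^ (i : ℕ) * g i z = 0 := by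
          rw [Finset.mul_sum, ← h]
          exact Finset.sum_congr rfl fun i _ => by ring
        rcases mul_eq_zero.mp h' with h'' | h''
        · exact absurd h'' (hz1 j)
        · exact h''
      have := congrFun hv i
      simp only [Pi.zero_apply] at this
      rw [this, mul_zero]
  rcases (UpperHalfPlane.mul_eq_zero_iff hH (hg i)).mp key with h | h
  · exact absurd h hHne
  · exact h

end Gou

end
end

section

/-!
Module E0: isomorphisms between the complex numbers and the algebraic closure of the p-adics exist.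
-/

open Cardinal

noncomputable section

namespace Gou

theorem e0Iso_padic_le (p : ℕ) [Fact p.Prime] : #ℚ_[p] ≤ 𝔠 := by
  have h : Function.Surjective (Padic.mk : PadicSeq p → ℚ_[p]) := by
    intro x
    exact Quotient.inductionOn x fun a => ⟨a, rfl⟩
  refine (mk_le_of_surjective h).trans ?_
  have h2 : #(PadicSeq p) ≤ #(ℕ → ℚ) := mk_subtype_le _
  refine h2.trans ?_
  have h3 : #(ℕ → ℚ) = 𝔠 := by
    rw [← power_def, mk_nat, Cardinal.mkRat, aleph0_power_aleph0]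
  exact h3.le

theorem e0Iso_padic (p : ℕ) [Fact p.Prime] : #ℚ_[p] = 𝔠 :=
  le_antisymm (e0Iso_padic_le p) (continuum_le_cardinal_of_nontriviallyNormedField _)

theorem e0Iso_alg (p : ℕ) [Fact p.Prime] : #(PadicAlgCl p) = 𝔠 := by
  apply le_antisymm
  · have h := Algebra.IsAlgebraic.cardinalMk_le_max ℚ_[p] (PadicAlgCl p)
    rw [e0Iso_padic, max_eq_left aleph0_le_continuum] at h
    exact h
  · rw [← e0Iso_padic p]
    exact mk_le_of_injective (algebraMap ℚ_[p] (PadicAlgCl p)).injective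

theorem e0Iso : E0Iso := by
  intro p _
  apply IsAlgClosed.ringEquiv_of_equiv_of_charZero
  · rw [mk_complex]
    exact aleph0_lt_continuum
  · rw [← Cardinal.eq, mk_complex, e0Iso_alg]

end Gou

end
end

section

/-!
Module E0: the absolute value on the complex numbers induced by the p-adic one.
-/

noncomputable section

namespace Gou

theorem e0NA : E0NA := by
  intro p _ ι
  refine ⟨fun x y => ?_, ?_⟩
  · show ‖ι (x + y)‖ ≤ max ‖ι x‖ ‖ι y‖
    rw [map_add]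
    exact PadicAlgCl.isNonarchimedean p (ι x) (ι y)
  · show ‖ι ((p : ℕ) : ℂ)‖ = ((p : ℕ) : ℝ)⁻¹
    rw [map_natCast, ← map_natCast (algebraMap ℚ_[p] (PadicAlgCl p))]
    have h := PadicAlgCl.norm_extends p ((p : ℕ) : ℚ_[p])
    rw [Padic.norm_p] at h
    exact h

end Gou

end
end

section

/-!
Module E: coordinates on the modular symbols.
-/

open scoped MatrixGroups ModularForm UpperHalfPlane Polynomial ENNReal
open CongruenceSubgroup UpperHalfPlane MeasureTheory Filter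

noncomputable section

namespace Gou

/-- The integral symbol with coordinates `x`. -/
def symZ {r : ℕ} (b : Fin r → Vec → Vec → ℤ[X]) (x : Fin r → ℤ) : Vec → Vec → ℤ[X] :=
  ∑ i, x i • b i

/-- The complex symbol with coordinates `x`. -/
def symC {r : ℕ} (b : Fin r → Vec → Vec → ℤ[X]) (x : Fin r → ℂ) : Vec → Vec → ℂ[X] :=
  ∑ i, x i • castSymb ℂ (b i)

/-- The matrices `M l` represent the Hecke operators in the basis `b`. -/
def IsHeckeMat (N n r : ℕ) (b : Fin r → Vec → Vec → ℤ[X]) (M : ℕ → Matrix (Fin r) (Fin r) ℤ) :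
    Prop :=
  ∀ l : ℕ, l.Prime → ¬ l ∣ N →
    (∀ x : Fin r → ℤ, heckeSymbFun n l (symZ b x) = symZ b ((M l).mulVec x)) ∧
    (∀ x : Fin r → ℂ, heckeSymbFun n l (symC b x) = symC b ((cm ℂ (M l)).mulVec x))

/-- E1a. The matrices of the Hecke operators. -/
def E1Mat (N : ℕ) : Prop := SymbHecke N → ∀ (n r : ℕ) (b : Fin r → Vec → Vec → ℤ[X]),
  IsSymbBasis N n r b → ∃ M : ℕ → Matrix (Fin r) (Fin r) ℤ, IsHeckeMat N n r b M

/-- E1b. Translation between coordinates and symbols. -/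
def E1Ind : Prop := ∀ (N n r : ℕ) (b : Fin r → Vec → Vec → ℤ[X]), IsSymbBasis N n r b →
  (∀ x : Fin r → ℤ, symZ b x ∈ Symb N n ℤ) ∧
  (∀ x y : Fin r → ℤ, symZ b x = symZ b y → x = y) ∧
  (∀ x y : Fin r → ℂ, symC b x = symC b y → x = y) ∧
  (∀ (x : Fin r → ℤ) (q : ℤ), (∃ ψ ∈ Symb N n ℤ, symZ b x = q • ψ) ↔ ∀ k, q ∣ x k) ∧
  (∀ (p q : ℕ) (x : Fin q → Fin r → ℤ), PIndep p N n q (fun i => symZ b (x i)) ↔ PInd p x)

/-- E1c. The trace bound from the norm bound: eigenvalues of products of the matrices `M l`. -/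
def E1Tr (N : ℕ) : Prop := SymbNorm N → ∃ C : ℕ, ∀ n : ℕ, Even n →
  ∀ (r : ℕ) (b : Fin r → Vec → Vec → ℤ[X]) (M : ℕ → Matrix (Fin r) (Fin r) ℤ),
    IsSymbBasis N n r b → IsHeckeMat N n r b M → ∀ w : List ℕ, (∀ l ∈ w, l.Prime ∧ ¬ l ∣ N) →
      ((|((w.map M).prod).trace| : ℤ) : ℝ) ≤ r * (w.prod : ℝ) ^ (C * (n + 1))

end Gou

end
end

section

/-!
# E2: decomposition of `S_k` into joint eigenspaces
-/

open scoped MatrixGroups ModularForm UpperHalfPlane Polynomial ENNReal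
open CongruenceSubgroup UpperHalfPlane MeasureTheory Filter

noncomputable section

namespace Gou

namespace E2

open Module

variable {V : Type*} [AddCommGroup V] [Module ℂ V]

/-- positive definite Hermitian form (as in `PetSelfAdj`) -/
structure PosForm (B : V → V → ℂ) : Prop where
  add : ∀ f g h, B f (g + h) = B f g + B f h
  smul : ∀ (c : ℂ) f g, B f (c • g) = c * B f g
  herm : ∀ f g, B g f = (starRingEnd ℂ) (B f g)
  pos : ∀ f, f ≠ 0 → 0 < (B f f).re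

theorem PosForm.zero_right {B : V → V → ℂ} (h : PosForm B) (f : V) : B f 0 = 0 := by
  have := h.smul 0 f 0
  rwa [zero_smul, zero_mul] at this

theorem PosForm.smul_left {B : V → V → ℂ} (h : PosForm B) (c : ℂ) (f g : V) :
    B (c • f) g = (starRingEnd ℂ) c * B f g := by
  rw [h.herm g (c • f), h.smul, map_mul, ← h.herm g f]

theorem PosForm.add_left {B : V → V → ℂ} (h : PosForm B) (f g k : V) :
    B (f + g) k = B f k + B g k := by
  rw [h.herm k (f + g), h.add, map_add, ← h.herm k f, ← h.herm k g]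

theorem PosForm.ker_sq {B : V → V → ℂ} (h : PosForm B) (T : End ℂ V)
    (hT : ∀ f g, B (T f) g = B f (T g)) (μ : ℂ) (f : V)
    (hf : (T - μ • (1 : End ℂ V)) ((T - μ • (1 : End ℂ V)) f) = 0) :
    (T - μ • (1 : End ℂ V)) f = 0 := by
  set g := (T - μ • (1 : End ℂ V)) f with hg
  by_contra hne
  have hTg : T g = μ • g := by
    have : T g - μ • g = 0 := by simpa using hf
    exact sub_eq_zero.1 this
  have hpos := h.pos g hne
  have h1 : (starRingEnd ℂ) μ * B g g = μ * B g g := by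
    have := hT g g
    rwa [hTg, h.smul_left, h.smul] at this
  have hBne : B g g ≠ 0 := by
    intro h0; rw [h0] at hpos; simp at hpos
  have hμ : (starRingEnd ℂ) μ = μ := mul_right_cancel₀ hBne h1
  have h2 : B g g = 0 := by
    have e1 : g = T f + (-μ) • f := by rw [hg]; simp [sub_eq_add_neg]
    have e2 : B g g = B (T f + (-μ) • f) g := by rw [← e1]
    rw [e2, h.add_left, h.smul_left, hT, hTg, h.smul, map_neg, hμ]
    ring
  exact hBne h2

theorem PosForm.maxGen {B : V → V → ℂ} (h : PosForm B) (T : End ℂ V)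
    (hT : ∀ f g, B (T f) g = B f (T g)) (μ : ℂ) (f : V) (hf : f ∈ T.maxGenEigenspace μ) :
    T f = μ • f := by
  rw [End.mem_maxGenEigenspace] at hf
  obtain ⟨k, hk⟩ := hf
  have key : ∀ k : ℕ, ∀ f : V, ((T - μ • (1 : End ℂ V)) ^ k) f = 0 →
      (T - μ • (1 : End ℂ V)) f = 0 := by
    intro k
    induction k with
    | zero => intro f hf; simp only [pow_zero, End.one_apply] at hf; rw [hf, map_zero]
    | succ k ih =>
      intro f hf
      rw [pow_succ, End.mul_apply] at hf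
      exact h.ker_sq T hT μ f (ih _ hf)
  have := key k f hk
  have h2 : T f - μ • f = 0 := by simpa using this
  exact sub_eq_zero.1 h2

/-- joint diagonalisation -/
theorem joint [FiniteDimensional ℂ V] {ι : Type*} (T : ι → End ℂ V)
    (hc : ∀ i j, Commute (T i) (T j)) {B : V → V → ℂ} (h : PosForm B)
    (hT : ∀ i f g, B (T i f) g = B f (T i g)) :
    ∃ (q : ℕ) (χ : Fin q → ι → ℂ) (μ : Fin q → ℕ) (f : (i : Fin q) → Fin (μ i) → V),
      (∀ i, 1 ≤ μ i) ∧ ∑ i, μ i = finrank ℂ V ∧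
      (∀ i j l, T l (f i j) = χ i l • f i j) ∧ Function.Injective χ ∧
      LinearIndependent ℂ (fun x : (i : Fin q) × Fin (μ i) => f x.1 x.2) := by
  classical
  let E : (ι → ℂ) → Submodule ℂ V := fun χ => ⨅ i, (T i).maxGenEigenspace (χ i)
  have hmaps : ∀ i j φ, Set.MapsTo (T i) ((T j).maxGenEigenspace φ)
      ((T j).maxGenEigenspace φ) := fun i j φ =>
    End.mapsTo_maxGenEigenspace_of_comm (hc j i) φ
  have hind : iSupIndep E := End.independent_iInf_maxGenEigenspace_of_forall_mapsTo T hmaps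
  have htop : ⨆ χ, E χ = ⊤ := End.iSup_iInf_maxGenEigenspace_eq_top_of_forall_mapsTo T hmaps
    (fun i => End.iSup_maxGenEigenspace_eq_top (T i))
  have hfin : {χ | E χ ≠ ⊥}.Finite := WellFoundedGT.finite_ne_bot_of_iSupIndep hind
  let S : Type _ := {χ : ι → ℂ // E χ ≠ ⊥}
  have : Fintype S := hfin.fintype
  let q := Fintype.card S
  let eq : Fin q ≃ S := (Fintype.equivFin S).symm
  let E' : Fin q → Submodule ℂ V := fun i => E (eq i).1
  have hind' : iSupIndep E' := hind.comp (Subtype.val_injective.comp eq.injective)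
  have htop' : iSup E' = ⊤ := by
    rw [eq_top_iff, ← htop]
    refine iSup_le fun χ => ?_
    by_cases h0 : E χ = ⊥
    · rw [h0]; exact bot_le
    · have : E χ = E' (eq.symm ⟨χ, h0⟩) := by simp [E']
      rw [this]
      exact le_iSup E' _
  have hint : DirectSum.IsInternal E' :=
    DirectSum.isInternal_submodule_of_iSupIndep_of_iSup_eq_top hind' htop'
  let μ : Fin q → ℕ := fun i => finrank ℂ (E' i)
  let b : (i : Fin q) → Basis (Fin (μ i)) ℂ (E' i) := fun i => finBasis ℂ (E' i)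
  let bb : Basis ((i : Fin q) × Fin (μ i)) ℂ V := hint.collectedBasis b
  refine ⟨q, fun i => (eq i).1, μ, fun i j => (b i j : V), ?_, ?_, ?_, ?_, ?_⟩
  · intro i
    have hne : E' i ≠ ⊥ := (eq i).2
    have : Nontrivial (E' i) := (Submodule.nontrivial_iff_ne_bot).2 hne
    exact finrank_pos
  · rw [finrank_eq_card_basis bb]
    simp
  · intro i j l
    have hm : (b i j : V) ∈ E' i := (b i j).2
    have hm' : (b i j : V) ∈ (T l).maxGenEigenspace ((eq i).1 l) := (Submodule.mem_iInf _).1 hm l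
    exact h.maxGen (T l) (hT l) _ _ hm'
  · exact Subtype.val_injective.comp eq.injective
  · have : (fun x : (i : Fin q) × Fin (μ i) => (b x.1 x.2 : V)) = bb := by
      funext x
      simp only [bb]
      rw [DirectSum.IsInternal.collectedBasis_coe]
    rw [this]
    exact bb.linearIndependent

end E2

theorem isHecke_unique {N : ℕ} {k : ℤ} {l : ℕ} (hl : 0 < l) {T T' : SN N k →ₗ[ℂ] SN N k}
    (h : IsHecke N k l T) (h' : IsHecke N k l T') : T = T' := by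
  ext f z
  rw [h hl f z, h' hl f z]

theorem e2 {N : ℕ} (h1 : FinDim N) (h2 : HeckeExists N) (h3 : HeckeComm N) (h4 : PetSelfAdj N) :
    CharDecomp N := by
  classical
  intro k
  have : Module.Finite ℂ (SN N k) := h1 k
  let P : Type := {l : ℕ // l.Prime ∧ ¬ l ∣ N}
  choose T hT using fun l : P => h2 k l.1 l.2.1 l.2.2
  obtain ⟨B, hB1, hB2, hB3, hB4, hB5⟩ := h4 k
  have hPF : E2.PosForm B := ⟨hB1, hB2, hB3, hB4⟩
  obtain ⟨q, χ, μ, f, hμ, hsum, heig, hinj, hli⟩ := E2.joint T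
    (fun i j => h3 k i.1 j.1 i.2.1 j.2.1 i.2.2 j.2.2 (T i) (T j) (hT i) (hT j)) hPF
    (fun i f g => hB5 i.1 i.2.1 i.2.2 (T i) (hT i) f g)
  refine ⟨q, fun i l => if h : l.Prime ∧ ¬ l ∣ N then χ i ⟨l, h⟩ else 0, μ, f, hμ, hsum, ?_, ?_,
    hli⟩
  · intro i j l hl hlN T' hT'
    have e1 : T' = T ⟨l, hl, hlN⟩ := isHecke_unique hl.pos hT' (hT ⟨l, hl, hlN⟩)
    rw [e1, heig]
    beta_reduce
    rw [dif_pos (⟨hl, hlN⟩ : l.Prime ∧ ¬ l ∣ N)]
  · intro i j hij
    have hne : χ i ≠ χ j := fun h => hij (hinj h)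
    obtain ⟨l, hl⟩ := Function.ne_iff.1 hne
    refine ⟨l.1, l.2.1, l.2.2, ?_⟩
    beta_reduce
    rw [dif_pos l.2, dif_pos l.2]
    exact hl

end Gou

end
end

section

/-!
Module E, E3a: the upper bound (I) with explicit error terms.
-/

open scoped MatrixGroups ModularForm UpperHalfPlane Polynomial
open CongruenceSubgroup UpperHalfPlane

noncomputable section

namespace Gou

namespace E3a

/-- the `2 m` vectors obtained from `m` forms -/
def dbl {E V : Type} [AddCommGroup E] [Module ℂ E] [AddCommGroup V] [Module ℂ V]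
    (Φ : (E × E) →ₗ[ℂ] V) {m : ℕ} (f : Fin m → E) (j : Fin (m + m)) : V :=
  Φ (Sum.elim (fun i => (f i, (0 : E))) (fun i => ((0 : E), f i)) (finSumFinEquiv.symm j))

theorem dbl_li {E V : Type} [AddCommGroup E] [Module ℂ E] [AddCommGroup V] [Module ℂ V]
    (Φ : (E × E) →ₗ[ℂ] V) (hinj : Function.Injective Φ) {m : ℕ} (f : Fin m → E)
    (hf : LinearIndependent ℂ f) : LinearIndependent ℂ (dbl Φ f) := by
  have h1 := linearIndependent_inl_union_inr' hf hf
  have h2 := h1.comp (finSumFinEquiv (m := m) (n := m)).symm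
    (finSumFinEquiv (m := m) (n := m)).symm.injective
  have h3 := h2.map' Φ (LinearMap.ker_eq_bot.2 hinj)
  have e : dbl Φ f = Φ ∘ (Sum.elim (LinearMap.inl ℂ E E ∘ f) (LinearMap.inr ℂ E E ∘ f) ∘
      (finSumFinEquiv (m := m) (n := m)).symm) := by
    funext j
    rw [dbl, Function.comp_apply, Function.comp_apply]
    rcases finSumFinEquiv.symm j with i | i
    · rfl
    · rfl
  rw [e]
  exact h3

theorem dbl_cases {E V : Type} [AddCommGroup E] [Module ℂ E] [AddCommGroup V] [Module ℂ V]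
    (Φ : (E × E) →ₗ[ℂ] V) {m : ℕ} (f : Fin m → E) (j : Fin (m + m)) :
    ∃ i, dbl Φ f j = Φ (f i, 0) ∨ dbl Φ f j = Φ (0, f i) := by
  rw [dbl]
  rcases finSumFinEquiv.symm j with i | i
  · exact ⟨i, Or.inl rfl⟩
  · exact ⟨i, Or.inr rfl⟩

theorem flatten_prod_le {L : Type} (g : L → ℕ) (Z : ℕ) : ∀ W : List (List L),
    (∀ u ∈ W, (u.map g).prod ≤ Z) → (W.flatten.map g).prod ≤ Z ^ W.length
  | [], _ => by simp
  | u :: W, h => by
    rw [List.flatten_cons, List.map_append, List.prod_append, List.length_cons, pow_succ']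
    exact Nat.mul_le_mul (h u (by simp)) (flatten_prod_le g Z W fun v hv => h v (by simp [hv]))

theorem heckeOp_isHecke {N : ℕ} {k : ℤ} {l : ℕ} (h : ∃ T : SN N k →ₗ[ℂ] SN N k, IsHecke N k l T) :
    IsHecke N k l (heckeOp N k l) := by
  classical
  rw [heckeOp, dif_pos h]
  exact h.choose_spec

theorem heckeEigs_eq {N : ℕ} {k : ℤ} {l : ℕ} (h : Module.Finite ℂ (SN N k)) :
    heckeEigs N k l = (heckeOp N k l).charpoly.roots := by
  classical
  rw [heckeEigs, dif_pos h]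

/-- the index set of the operators -/
abbrev LL (N Z : ℕ) : Type := {l : ℕ // l.Prime ∧ ¬ l ∣ N ∧ l ≤ Z}

instance (N Z : ℕ) : Finite (LL N Z) :=
  Finite.of_injective (fun l : LL N Z => (⟨l.1, Nat.lt_succ_of_le l.2.2.2⟩ : Fin (Z + 1)))
    (by
      intro a b hab
      exact Subtype.ext (by simpa using hab))

/-- the words -/
def SS (N Z : ℕ) : Set (List (LL N Z)) := {w | (w.map (fun l => l.1)).prod ≤ Z}

theorem nil_mem {N Z : ℕ} (hZ1 : 1 ≤ Z) : ([] : List (LL N Z)) ∈ SS N Z := by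
  change (([] : List (LL N Z)).map (fun l => l.1)).prod ≤ Z
  simpa using hZ1

theorem one_mem {N Z : ℕ} (l : LL N Z) : [l] ∈ SS N Z := by
  change (([l] : List (LL N Z)).map (fun l => l.1)).prod ≤ Z
  simpa using l.2.2.2

theorem trace_bound {p N n C1 : ℕ} (D : CoordAt p N n C1) (Z m : ℕ) (X : ℝ) (hZ1 : 1 ≤ Z)
    (hX : (D.R : ℝ) * ((Z : ℝ) ^ m) ^ (C1 * (n + 1)) ≤ X)
    (W : List (List (LL N Z))) (hW : W.length ≤ m) (hWS : ∀ u ∈ W, u ∈ SS N Z) :
    ((|(((W.flatten).map (fun l : LL N Z => D.M l.1)).prod).trace| : ℤ) : ℝ) ≤ X := by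
  obtain ⟨w, hw⟩ : ∃ w : List ℕ, w = W.flatten.map (fun l => l.1) := ⟨_, rfl⟩
  have e1 : W.flatten.map (fun l : LL N Z => D.M l.1) = w.map D.M := by
    rw [hw, List.map_map]
    rfl
  have h5 : ∀ l ∈ w, l.Prime ∧ ¬ l ∣ N := by
    intro l hl
    rw [hw] at hl
    obtain ⟨l', _, rfl⟩ := List.mem_map.1 hl
    exact ⟨l'.2.1, l'.2.2.1⟩
  have h8 : ((w.prod : ℕ) : ℝ) ≤ (Z : ℝ) ^ m := by
    have h6 := flatten_prod_le (fun l : LL N Z => l.1) Z W hWS
    have h7 : w.prod ≤ Z ^ m := by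
      rw [hw]
      exact h6.trans (Nat.pow_le_pow_right hZ1 hW)
    exact_mod_cast h7
  have h9 : ((w.prod : ℕ) : ℝ) ^ (C1 * (n + 1)) ≤ ((Z : ℝ) ^ m) ^ (C1 * (n + 1)) :=
    pow_le_pow_left₀ (Nat.cast_nonneg _) h8 _
  rw [e1]
  exact (D.trace w h5).trans ((mul_le_mul_of_nonneg_left h9 (Nat.cast_nonneg _)).trans hX)

theorem eig_vec {p N n C1 : ℕ} (D : CoordAt p N n C1) (h4 : HeckeExists N) (χ : ℕ → ℂ) (m : ℕ)
    (f : Fin m → SN N ((n : ℤ) + 2)) (heig : ∀ j, IsEigen N ((n : ℤ) + 2) χ (f j))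
    (j : Fin (m + m)) (l : ℕ) (hl : l.Prime) (hlN : ¬ l ∣ N) :
    (cm ℂ (D.M l)).mulVec (dbl D.Φ f j) = χ l • dbl D.Φ f j := by
  obtain ⟨T, hT⟩ := h4 ((n : ℤ) + 2) l hl hlN
  obtain ⟨j', hj | hj⟩ := dbl_cases D.Φ f j
  · have h6 := D.equiv l hl hlN T hT (f j') 0
    rw [heig j' l hl hlN T hT, map_zero] at h6
    rw [hj, ← h6, ← map_smul, Prod.smul_mk, smul_zero]
  · have h6 := D.equiv l hl hlN T hT 0 (f j')
    rw [heig j' l hl hlN T hT, map_zero] at h6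
    rw [hj, ← h6, ← map_smul, Prod.smul_mk, smul_zero]

/-- the word of a number -/
theorem exists_word {N Y Z : ℕ} (hZ1 : 1 ≤ Z) (hYZ : Y ≤ Z) (m : ℕ) (hm : m ≤ Y)
    (hmN : m.Coprime N) : ∃ w : List (LL N Z), w ∈ SS N Z ∧
      ∀ χ' : ℕ → ℂ, (w.map fun l => χ' l.1).prod = cmul χ' m := by
  by_cases hm0 : m = 0
  · refine ⟨[], nil_mem hZ1, fun χ' => ?_⟩
    rw [cmul, hm0]
    simp
  have hmem : ∀ l ∈ m.primeFactorsList, l.Prime ∧ ¬ l ∣ N ∧ l ≤ Z := by
    intro l hl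
    have hl1 := Nat.prime_of_mem_primeFactorsList hl
    have hl2 := Nat.dvd_of_mem_primeFactorsList hl
    refine ⟨hl1, ?_, ?_⟩
    · intro hlN
      have h7 := Nat.dvd_gcd hl2 hlN
      rw [hmN] at h7
      exact hl1.one_lt.ne' (Nat.dvd_one.1 h7)
    · exact (Nat.le_of_dvd (Nat.pos_of_ne_zero hm0) hl2).trans (hm.trans hYZ)
  have e2 : (m.primeFactorsList.attach.map (fun l => (⟨l.1, hmem l.1 l.2⟩ : LL N Z))).map
      (fun l => l.1) = m.primeFactorsList := by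
    rw [List.map_map]
    exact List.attach_map_subtype_val _
  refine ⟨m.primeFactorsList.attach.map (fun l => (⟨l.1, hmem l.1 l.2⟩ : LL N Z)), ?_, ?_⟩
  · change (List.map (fun l : LL N Z => l.1) _).prod ≤ Z
    rw [e2, Nat.prod_primeFactorsList hm0]
    exact hm.trans hYZ
  · intro χ'
    rw [cmul]
    have e4 : (m.primeFactorsList.attach.map (fun l => (⟨l.1, hmem l.1 l.2⟩ : LL N Z))).map
        (fun l => χ' l.1) = m.primeFactorsList.map χ' := by
      conv_rhs => rw [← e2]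
      rw [List.map_map, List.map_map, List.map_map]
      rfl
    rw [e4]

theorem word_li {N Y Z q : ℕ} (hZ1 : 1 ≤ Z) (hYZ : Y ≤ Z) (χ : Fin q → ℕ → ℂ)
    (h6 : LinearIndependent ℂ
      (fun (i : Fin q) (m : {m : ℕ // m ≤ Y ∧ m.Coprime N}) => cmul (χ i) m)) :
    LinearIndependent ℂ (fun (i : Fin q) (w : SS N Z) => (w.1.map (fun l => χ i l.1)).prod) := by
  have hw : ∀ m : {m : ℕ // m ≤ Y ∧ m.Coprime N}, ∃ w : SS N Z,
      ∀ χ' : ℕ → ℂ, (w.1.map fun l => χ' l.1).prod = cmul χ' m := by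
    intro m
    obtain ⟨w, hw1, hw2⟩ := exists_word hZ1 hYZ m.1 m.2.1 m.2.2
    exact ⟨⟨w, hw1⟩, hw2⟩
  choose wd hwd using hw
  refine LinearIndependent.of_comp (LinearMap.funLeft ℂ ℂ wd) ?_
  have e3 : (LinearMap.funLeft ℂ ℂ wd) ∘ (fun (i : Fin q) (w : SS N Z) =>
      (w.1.map (fun l => χ i l.1)).prod) =
      fun (i : Fin q) (m : {m : ℕ // m ≤ Y ∧ m.Coprime N}) => cmul (χ i) m := by
    funext i m
    exact hwd m (χ i)
  rw [e3]
  exact h6

/-- The inequality coming from the linear algebra. -/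
theorem lin {p N n C1 : ℕ} [Fact p.Prime] (hp : ¬ p ∣ N) (d11 : D11Gen) (d17 : D17Root)
    (d18 : D18Upper) (d19 : D19Sum) (d20 : D20Two) (d21 : D21Cmp) (e0 : E0NA) (h3 : FinDim N)
    (h4 : HeckeExists N) (h5 : CharDecomp N)
    (D : CoordAt p N n C1) (C2 Y Z mx s h h1 c : ℕ) (X : ℝ) (ι : ℂ ≃+* PadicAlgCl p)
    (hdim : (Gamma0 N).index * (n + 2) ≤ 12 * Module.finrank ℂ (SN N ((n : ℤ) + 2)) + C2)
    (hsep : ∀ (r : ℕ) (χ : Fin r → ℕ → ℂ) (f : Fin r → SN N ((n : ℤ) + 2)),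
      (∀ i, f i ≠ 0) → (∀ i, IsEigen N ((n : ℤ) + 2) (χ i) (f i)) →
      (∀ i j, i ≠ j → ∃ l : ℕ, l.Prime ∧ ¬ l ∣ N ∧ χ i l ≠ χ j l) →
      LinearIndependent ℂ (fun (i : Fin r) (m : {m : ℕ // m ≤ Y ∧ m.Coprime N}) => cmul (χ i) m))
    (hmult : ∀ (χ : ℕ → ℂ) (r : ℕ) (f : Fin r → SN N ((n : ℤ) + 2)),
      (∀ i, IsEigen N ((n : ℤ) + 2) χ (f i)) → LinearIndependent ℂ f → 2 * r ≤ mx)
    (hYZ : Y ≤ Z) (hpZ : p ≤ Z)
    (hh : C1 * n ^ 3 ≤ h ^ 4) (hsh : (p + 1) * (s + h) ≤ n) (hh1 : 1 ≤ h1)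
    (hc : p * (D.R + 1) < p ^ c)
    (hX1 : 1 ≤ X)
    (hX : (D.R : ℝ) * ((Z : ℝ) ^ (2 * (C1 + C2 + 1))) ^ (C1 * (n + 1)) ≤ X) :
    2 * ((heckeEigs N ((n : ℤ) + 2) p).map fun a => ws p (avI ι) s a).sum ≤
      ∑ m ∈ Finset.Icc 1 s, (((Gamma0 N).index : ℝ) / 6 * ((n : ℝ) - (p + 1) * m) +
        C1 * (n : ℝ) ^ (3 / 4 : ℝ) + C1)
      + D.R * h + 2 * ((h1 + s + c : ℕ) : ℝ) * ((C1 * h : ℕ) : ℝ)
      + 2 * ((s + c : ℕ) : ℝ) * (((C1 + C2 : ℕ) : ℝ) +
        mx * ((D.R * Real.logb p D.R + D.R * Real.logb p X) / 2) / h1) := by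
  have hpp : p.Prime := Fact.out
  have hZ1 : 1 ≤ Z := hpp.one_lt.le.trans hpZ
  -- the number lam
  obtain ⟨u, hu, hroot⟩ := d11 p ℂ (avI ι) (e0 p ι) s c D.R (cm ℂ (D.M p)).charpoly.roots
    ((Polynomial.card_roots' _).trans (by rw [Matrix.charpoly_natDegree_eq_dim, Fintype.card_fin]))
    hc
  have hroot' : ∀ a : ℂ, (cm ℂ (D.M p)).charpoly.IsRoot a →
      (p : ℝ) ^ (-((s + c : ℕ) : ℝ)) ≤ avI ι (a - (((p : ℤ) ^ s * u : ℤ) : ℂ)) := by
    intro a ha
    have h6 := hroot a ((Polynomial.mem_roots (Matrix.charpoly_monic _).ne_zero).2 ha)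
    have e5 : (((p : ℤ) ^ s * u : ℤ) : ℂ) = (p : ℂ) ^ s * (u : ℂ) := by push_cast; rfl
    rw [e5]
    exact h6
  -- the characters
  obtain ⟨q, χ, μ, f, hμ1, hμs, heig, hdist, hli⟩ := h5 ((n : ℤ) + 2)
  have hfi : ∀ i, LinearIndependent ℂ (f i) := by
    intro i
    exact hli.comp (fun j => (⟨i, j⟩ : (i : Fin q) × Fin (μ i))) (by
      intro a b hab
      simpa using hab)
  have g1 : ∀ l l' : LL N Z, D.M l.1 * D.M l'.1 = D.M l'.1 * D.M l.1 :=
    fun l l' => D.comm l.1 l'.1 l.2.1 l'.2.1 l.2.2.1 l'.2.2.1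
  have g2 : ∀ W : List (List (LL N Z)), W.length ≤ 2 * (C1 + C2 + 1) → (∀ u ∈ W, u ∈ SS N Z) →
      ((|(((W.flatten).map (fun l : LL N Z => D.M l.1)).prod).trace| : ℤ) : ℝ) ≤ X :=
    trace_bound D Z _ X hZ1 hX
  have g3 : ∀ i, 1 ≤ μ i + μ i ∧ μ i + μ i ≤ mx := by
    intro i
    refine ⟨by have := hμ1 i; omega, ?_⟩
    have h6 := hmult (χ i) (μ i) (f i) (heig i) (hfi i)
    omega
  have g4 : D.R ≤ ∑ i, (μ i + μ i) + (C1 + C2) := by
    have h6 := D.rank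
    have h7 : ∑ i, (μ i + μ i) = 2 * Module.finrank ℂ (SN N ((n : ℤ) + 2)) := by
      rw [Finset.sum_add_distrib, hμs]; ring
    rw [h7]
    have h8 : (Gamma0 N).index * (n + 2) = (Gamma0 N).index * n + (Gamma0 N).index * 2 := by
      ring
    omega
  have g5 : ∀ i, LinearIndependent ℂ (dbl D.Φ (f i)) := fun i => dbl_li D.Φ D.inj (f i) (hfi i)
  have g6 : ∀ (i : Fin q) (j : Fin (μ i + μ i)) (l : LL N Z),
      (cm ℂ (D.M l.1)).mulVec (dbl D.Φ (f i) j) = χ i l.1 • dbl D.Φ (f i) j :=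
    fun i j l => eig_vec D h4 (χ i) (μ i) (f i) (heig i) j l.1 l.2.1 l.2.2.1
  have g7 : LinearIndependent ℂ
      (fun (i : Fin q) (w : SS N Z) => (w.1.map (fun l => χ i l.1)).prod) :=
    word_li hZ1 hYZ χ (hsep q χ (fun i => f i ⟨0, hμ1 i⟩) (fun i => (hfi i).ne_zero _)
        (fun i => heig i _) hdist)
  have g8 : ∀ m : ℕ, 1 ≤ m → m ≤ s → ∀ (r : ℕ) (x : Fin r → Fin D.R → ℤ), PInd p x →
      (∀ i k, (p : ℤ) ^ m ∣ (D.M p).mulVec (x i) k) →
      (r : ℝ) ≤ ((Gamma0 N).index : ℝ) / 6 * ((n : ℝ) - (p + 1) * m) +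
        C1 * (n : ℝ) ^ (3 / 4 : ℝ) + C1 := by
    intro m hm1 hms r x hx hdvd
    exact D.hodge m ((Nat.mul_le_mul_left _ (by omega : m ≤ s + h)).trans hsh) r x hx hdvd
  have hmain := d18 p ℂ (avI ι) (e0 p ι) (LL N Z) D.R (C1 + C2) mx q
    h1 s c h (C1 * h) (fun l => D.M l.1) ⟨p, hpp, hp, hpZ⟩
    (SS N Z) X ((p : ℤ) ^ s * u) (fun i l => χ i l.1)
    (fun i => μ i + μ i) (fun i => dbl D.Φ (f i))
    (fun m => ((Gamma0 N).index : ℝ) / 6 * ((n : ℝ) - (p + 1) * m) +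
        C1 * (n : ℝ) ^ (3 / 4 : ℝ) + C1)
    g1 (nil_mem hZ1) one_mem hX1 hh1 g2 g3 g4 g5 g6 g7 hroot' (Dvd.intro _ rfl) g8
    (D.deep s h hh hsh u hu)
  obtain ⟨hdet, hle⟩ := hmain
  refine le_trans ?_ hle
  have hsum := d19 p ℂ (avI ι) (e0 p ι) D.R (D.M p) ((p : ℤ) ^ s * u) hdet
  refine le_trans ?_ hsum.ge
  have := h3 ((n : ℤ) + 2)
  have hH := heckeOp_isHecke (h4 ((n : ℤ) + 2) p hpp hp)
  obtain ⟨Q, hQ, _⟩ := d20 ℂ (SN N ((n : ℤ) + 2)) D.R (cm ℂ (D.M p)) (heckeOp N ((n : ℤ) + 2) p)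
    D.Φ D.inj (D.equiv p hpp hp _ hH)
  have hterm : ∀ a ∈ (cm ℂ (D.M p)).charpoly.roots,
      ws p (avI ι) s a ≤ -Real.logb p (avI ι (a - (((p : ℤ) ^ s * u : ℤ) : ℂ))) ∧
        0 ≤ ws p (avI ι) s a := by
    intro a ha
    have ha' := (Polynomial.mem_roots (Matrix.charpoly_monic _).ne_zero).1 ha
    have h6 := d21 p ℂ (avI ι) (e0 p ι) s c u a hu (d17 p ℂ (avI ι) (e0 p ι) D.R (D.M p) a ha')
      (hroot' a ha')
    exact ⟨h6.1, h6.2.2.1⟩
  have h7 : (((cm ℂ (D.M p)).charpoly.roots.map fun a => ws p (avI ι) s a)).sum ≤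
      ((cm ℂ (D.M p)).charpoly.roots.map fun a =>
        -Real.logb p (avI ι (a - (((p : ℤ) ^ s * u : ℤ) : ℂ)))).sum :=
    Multiset.sum_map_le_sum_map _ _ fun a ha => (hterm a ha).1
  refine le_trans ?_ h7
  rw [heckeEigs_eq (h3 _), hQ, Multiset.map_add, Multiset.map_add, Multiset.sum_add,
    Multiset.sum_add]
  have h8 : 0 ≤ (Q.map fun a => ws p (avI ι) s a).sum := by
    apply Multiset.sum_nonneg
    intro x hx
    obtain ⟨a, ha, rfl⟩ := Multiset.mem_map.1 hx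
    exact (hterm a (by rw [hQ]; exact Multiset.mem_add.2 (Or.inr ha))).2
  linarith

/-! ### Asymptotics -/

theorem sumIcc (a b c d e : ℝ) (s : ℕ) :
    ∑ m ∈ Finset.Icc 1 s, (a * (b - c * (m : ℝ)) + d + e) =
      a * (b * s - c * (s * (s + 1)) / 2) + d * s + e * s := by
  induction s with
  | zero => simp
  | succ s ih =>
    rw [Finset.sum_Icc_succ_top (by omega), ih]
    push_cast
    ring

theorem logb_le {p : ℕ} (hp : p.Prime) {t : ℝ} (ht : 1 ≤ t) :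
    Real.logb p t ≤ 2 * Real.log t := by
  have h2 : (2 : ℝ) ≤ p := by exact_mod_cast hp.two_le
  have h3 : (1 / 2 : ℝ) ≤ Real.log p := by
    have h4 := Real.log_two_gt_d9
    have h5 := Real.log_le_log (by norm_num) h2
    linarith
  have h6 := Real.log_nonneg ht
  rw [Real.logb, div_le_iff₀ (by linarith)]
  nlinarith

theorem mbound (B x : ℝ) (hx : 1 ≤ x) : (B * x) ^ B ≤ |B| ^ B * x ^ |B| := by
  have h1 := Real.abs_rpow_le_abs_rpow (B * x) B
  have h2 : (B * x) ^ B ≤ |B * x| ^ B := (le_abs_self _).trans h1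
  rw [abs_mul, abs_of_pos (by linarith : (0 : ℝ) < x), Real.mul_rpow (abs_nonneg _)
    (by linarith)] at h2
  exact h2.trans (mul_le_mul_of_nonneg_left (Real.rpow_le_rpow_of_exponent_le hx (le_abs_self B))
    (Real.rpow_nonneg (abs_nonneg _) _))

theorem c_bound {p : ℕ} (hp : p.Prime) (R : ℕ) :
    p * (R + 1) < p ^ (Nat.log p (p * (R + 1)) + 1) ∧ Nat.log p (p * (R + 1)) + 1 ≤ R + 2 := by
  refine ⟨Nat.lt_pow_succ_log_self hp.one_lt _, ?_⟩
  have h1 : p * (R + 1) < p ^ (R + 2) := by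
    rw [pow_succ' p (R + 1)]
    exact Nat.mul_lt_mul_of_pos_left (Nat.lt_pow_self hp.one_lt) hp.pos
  have h2 := Nat.log_lt_of_lt_pow (by positivity [hp.pos] : p * (R + 1) ≠ 0) h1
  omega

theorem log_n_ge {n : ℕ} (hn : 3 ≤ n) : 1 ≤ Real.log n := by
  have h3 : (3 : ℝ) ≤ n := by exact_mod_cast hn
  rw [Real.le_log_iff_exp_le (by linarith)]
  have h4 := Real.exp_one_lt_d9
  linarith

theorem log_n2_le {n : ℕ} (hn : 3 ≤ n) : Real.log ((n : ℝ) + 2) ≤ 2 * Real.log n := by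
  have h3 : (3 : ℝ) ≤ n := by exact_mod_cast hn
  have h4 : Real.log ((n : ℝ) ^ 2) = 2 * Real.log n := by
    rw [Real.log_pow]; norm_num
  rw [← h4]
  apply Real.log_le_log (by linarith)
  nlinarith

/-- the constant of `xbound` -/
def a4 (I : ℝ) (C1 C2 A : ℕ) : ℝ :=
  2 * (I + C1 + 2) + 16 * C1 * (C1 + C2 + 1) * (A + 1)

/-- the constant of `xbound` -/
def a5 (I : ℝ) (C1 C2 A : ℕ) : ℝ := (I + C1) * ((2 * (I + C1 + 2) + a4 I C1 C2 A) / 2)

theorem a4_nonneg {I : ℝ} (hI : 0 ≤ I) (C1 C2 A : ℕ) : 0 ≤ a4 I C1 C2 A := by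
  rw [a4]; positivity

theorem a5_nonneg {I : ℝ} (hI : 0 ≤ I) (C1 C2 A : ℕ) : 0 ≤ a5 I C1 C2 A := by
  have := a4_nonneg hI C1 C2 A
  rw [a5]; positivity

theorem xbound {C1 C2 A n R p : ℕ} {I : ℝ} (hp : p.Prime) (hI : 0 ≤ I) (hn : 3 ≤ n)
    (hR : (R : ℝ) ≤ (I + C1) * n) :
    (R * Real.logb p R + R * Real.logb p (((R : ℝ) + 1) *
      ((((n + 2) ^ (A + 1) : ℕ) : ℝ) ^ (2 * (C1 + C2 + 1))) ^ (C1 * (n + 1)))) / 2 ≤
      a5 I C1 C2 A * (n : ℝ) ^ 2 * Real.log n := by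
  have h3 : (3 : ℝ) ≤ n := by exact_mod_cast hn
  have hl := log_n_ge hn
  have hl2 := log_n2_le hn
  have hl20 : 0 ≤ Real.log ((n : ℝ) + 2) := Real.log_nonneg (by linarith)
  have hR0 : (0 : ℝ) ≤ R := Nat.cast_nonneg _
  have hC1 : (0 : ℝ) ≤ C1 := Nat.cast_nonneg _
  have hC2 : (0 : ℝ) ≤ C2 := Nat.cast_nonneg _
  have hA : (0 : ℝ) ≤ A := Nat.cast_nonneg _
  obtain ⟨l, hldef⟩ : ∃ l : ℝ, l = Real.log n := ⟨_, rfl⟩
  rw [← hldef] at hl hl2 ⊢
  -- log (R+1)
  have hlogR : Real.log ((R : ℝ) + 1) ≤ (I + C1 + 2) * l := by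
    have h4 : (R : ℝ) + 1 ≤ (I + C1 + 1) * n := by nlinarith
    have h5 : Real.log ((R : ℝ) + 1) ≤ Real.log ((I + C1 + 1) * n) :=
      Real.log_le_log (by linarith) h4
    rw [Real.log_mul (by positivity) (by positivity), ← hldef] at h5
    have h6 : Real.log (I + C1 + 1) ≤ I + C1 := by
      have h7 := Real.log_le_sub_one_of_pos (by positivity : (0 : ℝ) < I + C1 + 1)
      linarith
    nlinarith [mul_nonneg (add_nonneg hI hC1) (by linarith : (0 : ℝ) ≤ l - 1)]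
  have hlogR0 : 0 ≤ Real.log ((R : ℝ) + 1) := Real.log_nonneg (by linarith)
  -- logb R
  have h8 : Real.logb p R ≤ 2 * (I + C1 + 2) * l := by
    rcases Nat.eq_zero_or_pos R with h0 | h0
    · rw [h0, Nat.cast_zero, Real.logb_zero]
      positivity
    · have h9 : (1 : ℝ) ≤ R := by exact_mod_cast h0
      have h10 := logb_le hp h9
      have h11 : Real.log R ≤ Real.log ((R : ℝ) + 1) := Real.log_le_log (by linarith) (by linarith)
      linarith
  -- logb X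
  have hXlog : Real.log (((R : ℝ) + 1) *
      ((((n + 2) ^ (A + 1) : ℕ) : ℝ) ^ (2 * (C1 + C2 + 1))) ^ (C1 * (n + 1))) =
      Real.log ((R : ℝ) + 1) + (C1 * (n + 1)) * ((2 * (C1 + C2 + 1)) *
        ((A + 1) * Real.log ((n : ℝ) + 2))) := by
    have h12 : ((((n + 2) ^ (A + 1) : ℕ) : ℝ)) = ((n : ℝ) + 2) ^ (A + 1) := by push_cast; rfl
    have h13 : (0 : ℝ) < (n : ℝ) + 2 := by linarith
    rw [h12, Real.log_mul (by positivity) (by positivity), Real.log_pow, Real.log_pow,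
      Real.log_pow]
    push_cast
    ring
  have hX1 : (1 : ℝ) ≤ ((R : ℝ) + 1) *
      ((((n + 2) ^ (A + 1) : ℕ) : ℝ) ^ (2 * (C1 + C2 + 1))) ^ (C1 * (n + 1)) := by
    have h14 : (1 : ℝ) ≤ (((n + 2) ^ (A + 1) : ℕ) : ℝ) := by
      exact_mod_cast Nat.one_le_pow _ _ (by omega)
    have h15 : (1 : ℝ) ≤ ((((n + 2) ^ (A + 1) : ℕ) : ℝ) ^ (2 * (C1 + C2 + 1))) ^ (C1 * (n + 1)) :=
      one_le_pow₀ (one_le_pow₀ h14)
    nlinarith
  have h16 := logb_le hp hX1
  rw [hXlog] at h16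
  obtain ⟨Lx, hLx⟩ : ∃ Lx : ℝ, Lx = Real.logb p (((R : ℝ) + 1) *
      ((((n + 2) ^ (A + 1) : ℕ) : ℝ) ^ (2 * (C1 + C2 + 1))) ^ (C1 * (n + 1))) := ⟨_, rfl⟩
  rw [← hLx] at h16 ⊢
  have h17 : Lx ≤ a4 I C1 C2 A * n * l := by
    have h18 : (C1 * ((n : ℝ) + 1)) * ((2 * (C1 + C2 + 1)) *
        ((A + 1) * Real.log ((n : ℝ) + 2))) ≤
        (C1 * (2 * (n : ℝ))) * ((2 * (C1 + C2 + 1)) * ((A + 1) * (2 * l))) := by
      have h19 : (n : ℝ) + 1 ≤ 2 * n := by linarith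
      gcongr
    have h20 : (I + C1 + 2) * l ≤ (I + C1 + 2) * n * l := by
      have h21 : (0 : ℝ) ≤ (I + C1 + 2) * l := by positivity
      nlinarith
    rw [a4]
    nlinarith
  have h22 : (R : ℝ) * Real.logb p R + R * Lx ≤
      R * ((2 * (I + C1 + 2) + a4 I C1 C2 A) * n * l) := by
    rw [← mul_add]
    apply mul_le_mul_of_nonneg_left _ hR0
    have h23 : 2 * (I + C1 + 2) * l ≤ 2 * (I + C1 + 2) * n * l := by
      have h24 : (0 : ℝ) ≤ 2 * (I + C1 + 2) * l := by positivity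
      nlinarith
    nlinarith
  have h25 : (R : ℝ) * ((2 * (I + C1 + 2) + a4 I C1 C2 A) * n * l) ≤
      ((I + C1) * n) * ((2 * (I + C1 + 2) + a4 I C1 C2 A) * n * l) := by
    apply mul_le_mul_of_nonneg_right hR
    have := a4_nonneg hI C1 C2 A
    positivity
  rw [a5]
  nlinarith

end E3a

open E3a in
theorem e3a {p N : ℕ} [Fact p.Prime] (h1 : CoordExists p N) (h2 : DimLower N) (h3 : FinDim N)
    (h4 : HeckeExists N) (h5 : CharDecomp N) (h6 : CharSep N) (h7 : MultBound N) (hp : ¬ p ∣ N)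
    (_ : D1Int) (d11 : D11Gen) (d17 : D17Root) (d18 : D18Upper) (d19 : D19Sum) (d20 : D20Two)
    (d21 : D21Cmp) (e0 : E0NA) : EUpX p N := by
  obtain ⟨C1, n1, hD⟩ := h1
  obtain ⟨C2, hdim⟩ := h2
  obtain ⟨A, hsep⟩ := h6
  obtain ⟨B, hmult⟩ := h7
  have hpp : p.Prime := Fact.out
  obtain ⟨I, hI⟩ : ∃ I : ℝ, I = ((Gamma0 N).index : ℝ) := ⟨_, rfl⟩
  have hI0 : 0 ≤ I := by rw [hI]; exact Nat.cast_nonneg _
  have hC1 : (0 : ℝ) ≤ C1 := Nat.cast_nonneg _
  have hC2 : (0 : ℝ) ≤ C2 := Nat.cast_nonneg _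
  have ha5 := a5_nonneg hI0 C1 C2 A
  obtain ⟨a6, ha6⟩ : ∃ a6 : ℝ, a6 = 2 * |B| ^ B * 3 ^ |B| * a5 I C1 C2 A := ⟨_, rfl⟩
  have hBB : 0 ≤ |B| ^ B := Real.rpow_nonneg (abs_nonneg _) _
  have h3B : (0 : ℝ) ≤ 3 ^ |B| := Real.rpow_nonneg (by norm_num) _
  have ha60 : 0 ≤ a6 := by rw [ha6]; positivity
  obtain ⟨a2, ha2⟩ : ∃ a2 : ℝ, a2 = I + C1 + 3 := ⟨_, rfl⟩
  have ha20 : 0 ≤ a2 := by rw [ha2]; positivity
  obtain ⟨C, hC⟩ : ∃ C : ℝ, C = C1 + (I + C1) + 2 * C1 * (1 + a2) + 2 * a2 * (C1 + C2 + a6) +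
    (|B| + 1) := ⟨_, rfl⟩
  have hB0 := abs_nonneg B
  have k1 : 0 ≤ 2 * C1 * (1 + a2) := by positivity
  have k2 : 0 ≤ 2 * a2 * (C1 + C2 + a6) := by positivity
  have hC0 : 0 ≤ C := by rw [hC]; positivity
  refine ⟨C, max n1 (max 3 p), hC0, ?_⟩
  intro n hn hne s h h1 hh hsh hh1 ι
  have hn1 : n1 ≤ n := (le_max_left _ _).trans hn
  have hn3 : 3 ≤ n := ((le_max_left _ _).trans (le_max_right _ _)).trans hn
  have hnp : p ≤ n := ((le_max_right _ _).trans (le_max_right _ _)).trans hn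
  have hn3' : (3 : ℝ) ≤ n := by exact_mod_cast hn3
  obtain ⟨D⟩ := hD n hn1 hne
  -- the multiplicities
  obtain ⟨mx, hmx⟩ : ∃ mx : ℕ, mx = ⌊max 0 (2 * (B * Real.log ((n + 2 : ℕ) : ℝ) + B) ^ B)⌋₊ :=
    ⟨_, rfl⟩
  have hmult' : ∀ (χ : ℕ → ℂ) (r : ℕ) (f : Fin r → SN N ((n : ℤ) + 2)),
      (∀ i, IsEigen N ((n : ℤ) + 2) χ (f i)) → LinearIndependent ℂ f → 2 * r ≤ mx := by
    intro χ r f hf1 hf2
    have h8 := hmult (n + 2) (by omega) χ r f hf1 hf2
    rw [hmx]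
    apply Nat.le_floor
    push_cast at h8 ⊢
    exact (mul_le_mul_of_nonneg_left h8 zero_le_two).trans (le_max_right _ _)
  have hl := log_n_ge hn3
  have hl2 := log_n2_le hn3
  have hmxle : (mx : ℝ) ≤ 2 * |B| ^ B * 3 ^ |B| * Real.log n ^ |B| := by
    have h8 : (mx : ℝ) ≤ max 0 (2 * (B * Real.log ((n + 2 : ℕ) : ℝ) + B) ^ B) := by
      rw [hmx]
      exact Nat.floor_le (le_max_left _ _)
    refine h8.trans (max_le (by positivity) ?_)
    have h9 : B * Real.log ((n + 2 : ℕ) : ℝ) + B = B * (Real.log ((n : ℝ) + 2) + 1) := by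
      push_cast; ring
    have h10 : 0 ≤ Real.log ((n : ℝ) + 2) := Real.log_nonneg (by linarith)
    have h11 := mbound B (Real.log ((n : ℝ) + 2) + 1) (by linarith)
    have h12 : (Real.log ((n : ℝ) + 2) + 1) ^ |B| ≤ 3 ^ |B| * Real.log n ^ |B| := by
      rw [← Real.mul_rpow (by norm_num) (by linarith)]
      exact Real.rpow_le_rpow (by linarith) (by linarith) hB0
    rw [h9]
    calc 2 * (B * (Real.log ((n : ℝ) + 2) + 1)) ^ B
        ≤ 2 * (|B| ^ B * (Real.log ((n : ℝ) + 2) + 1) ^ |B|) :=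
          mul_le_mul_of_nonneg_left h11 zero_le_two
      _ ≤ 2 * (|B| ^ B * (3 ^ |B| * Real.log n ^ |B|)) := by gcongr
      _ = 2 * |B| ^ B * 3 ^ |B| * Real.log n ^ |B| := by ring
  -- the rank
  have hR : (D.R : ℝ) ≤ (I + C1) * n := by
    have h8 : (6 : ℝ) * D.R ≤ I * n + C1 := by
      rw [hI]
      exact_mod_cast D.rank
    have h9 : (0 : ℝ) ≤ D.R := Nat.cast_nonneg _
    have h10 : 0 ≤ I * n := by positivity
    nlinarith
  obtain ⟨hc1, hc2⟩ := c_bound hpp D.R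
  obtain ⟨c, hcdef⟩ : ∃ c : ℕ, c = Nat.log p (p * (D.R + 1)) + 1 := ⟨_, rfl⟩
  rw [← hcdef] at hc1 hc2
  have hdim' := hdim (n + 2) (by rw [Nat.even_add]; exact iff_of_true hne even_two)
  have hZ1 : (1 : ℝ) ≤ (((n + 2) ^ (A + 1) : ℕ) : ℝ) := by
    exact_mod_cast Nat.one_le_pow _ _ (by omega)
  have hpow1 : (1 : ℝ) ≤
      ((((n + 2) ^ (A + 1) : ℕ) : ℝ) ^ (2 * (C1 + C2 + 1))) ^ (C1 * (n + 1)) :=
    one_le_pow₀ (one_le_pow₀ hZ1)
  have hDR0 : (0 : ℝ) ≤ D.R := Nat.cast_nonneg _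
  have hlin := lin hp d11 d17 d18 d19 d20 d21 e0 h3 h4 h5 D C2 ((n + 2) ^ A) ((n + 2) ^ (A + 1))
    mx s h h1 c (((D.R : ℝ) + 1) *
      ((((n + 2) ^ (A + 1) : ℕ) : ℝ) ^ (2 * (C1 + C2 + 1))) ^ (C1 * (n + 1))) ι
    hdim' (hsep (n + 2) (by omega)) hmult' (Nat.pow_le_pow_right (by omega) (by omega))
    ((hnp.trans (by omega : n ≤ n + 2)).trans (Nat.le_self_pow (by omega) _))
    (by
      have h8 : (C1 : ℝ) * (n : ℝ) ^ 3 ≤ (h : ℝ) ^ 4 := by
        refine le_trans ?_ hh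
        apply mul_le_mul_of_nonneg_right _ (by positivity)
        rw [hC]
        linarith
      exact_mod_cast h8)
    hsh hh1 hc1
    (by nlinarith)
    (by
      apply mul_le_mul_of_nonneg_right (by linarith) (by linarith))
  refine hlin.trans ?_
  have hx := xbound (C1 := C1) (C2 := C2) (A := A) hpp hI0 hn3 hR
  obtain ⟨V, hV⟩ : ∃ V : ℝ, V = (D.R * Real.logb p D.R + D.R * Real.logb p (((D.R : ℝ) + 1) *
      ((((n + 2) ^ (A + 1) : ℕ) : ℝ) ^ (2 * (C1 + C2 + 1))) ^ (C1 * (n + 1)))) / 2 := ⟨_, rfl⟩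
  rw [← hV] at hx ⊢
  rw [← hI, sumIcc]
  obtain ⟨l, hldef⟩ : ∃ l : ℝ, l = Real.log n := ⟨_, rfl⟩
  rw [← hldef] at hl hx hmxle ⊢
  have hs0 : (0 : ℝ) ≤ s := Nat.cast_nonneg _
  have hsn : (s : ℝ) ≤ n := by
    have h8 : s ≤ n := by nlinarith
    exact_mod_cast h8
  have hh0 : (0 : ℝ) ≤ h := Nat.cast_nonneg _
  have hh10 : (1 : ℝ) ≤ h1 := by exact_mod_cast hh1
  have hsc : ((s + c : ℕ) : ℝ) ≤ a2 * n := by
    have h8 : (c : ℝ) ≤ D.R + 2 := by exact_mod_cast hc2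
    push_cast
    rw [ha2]
    nlinarith
  have hhsc : ((h1 + s + c : ℕ) : ℝ) ≤ h1 + a2 * n := by
    push_cast at hsc ⊢
    linarith
  -- the main error term
  have hterm : (mx : ℝ) * V / h1 ≤ a6 * (l ^ C * (n : ℝ) ^ 2 / h1) := by
    have h8 : l ^ |B| * l ≤ l ^ C := by
      rw [← Real.rpow_add_one (by linarith)]
      apply Real.rpow_le_rpow_of_exponent_le hl
      rw [hC]
      have : 0 ≤ I + C1 := by positivity
      linarith
    have h9 : (mx : ℝ) * V ≤ a6 * (l ^ C * (n : ℝ) ^ 2) := by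
      calc (mx : ℝ) * V ≤ (mx : ℝ) * (a5 I C1 C2 A * (n : ℝ) ^ 2 * l) :=
            mul_le_mul_of_nonneg_left hx (Nat.cast_nonneg _)
        _ ≤ (2 * |B| ^ B * 3 ^ |B| * l ^ |B|) * (a5 I C1 C2 A * (n : ℝ) ^ 2 * l) :=
            mul_le_mul_of_nonneg_right hmxle (by positivity)
        _ = a6 * ((l ^ |B| * l) * (n : ℝ) ^ 2) := by rw [ha6]; ring
        _ ≤ a6 * (l ^ C * (n : ℝ) ^ 2) := by gcongr
    rw [← mul_div_assoc]
    apply div_le_div_of_nonneg_right h9 (by linarith)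
  obtain ⟨E, hE⟩ : ∃ E : ℝ, E = l ^ C * (n : ℝ) ^ 2 / h1 := ⟨_, rfl⟩
  have hE0 : 0 ≤ E := by
    rw [hE]
    have : 0 ≤ l ^ C := Real.rpow_nonneg (by linarith) _
    positivity
  rw [← hE] at hterm ⊢
  have ht1 : 2 * ((s + c : ℕ) : ℝ) * (((C1 + C2 : ℕ) : ℝ) + (mx : ℝ) * V / h1) ≤
      2 * a2 * (C1 + C2 + a6) * (n * (1 + E)) := by
    have h8 : ((C1 + C2 : ℕ) : ℝ) + (mx : ℝ) * V / h1 ≤ (C1 + C2 + a6) * (1 + E) := by
      push_cast
      have h9 : 0 ≤ (C1 + C2 : ℝ) * E := by positivity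
      nlinarith
    calc 2 * ((s + c : ℕ) : ℝ) * (((C1 + C2 : ℕ) : ℝ) + (mx : ℝ) * V / h1)
        ≤ 2 * ((s + c : ℕ) : ℝ) * ((C1 + C2 + a6) * (1 + E)) :=
          mul_le_mul_of_nonneg_left h8 (by positivity)
      _ ≤ 2 * (a2 * n) * ((C1 + C2 + a6) * (1 + E)) := by gcongr
      _ = 2 * a2 * (C1 + C2 + a6) * (n * (1 + E)) := by ring
  have ht2 : 2 * ((h1 + s + c : ℕ) : ℝ) * ((C1 * h : ℕ) : ℝ) ≤
      2 * C1 * (1 + a2) * ((h1 + n) * h) := by
    have h8 : ((h1 + s + c : ℕ) : ℝ) ≤ (1 + a2) * (h1 + n) := by nlinarith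
    calc 2 * ((h1 + s + c : ℕ) : ℝ) * ((C1 * h : ℕ) : ℝ)
        ≤ 2 * ((1 + a2) * (h1 + n)) * ((C1 * h : ℕ) : ℝ) := by gcongr
      _ = 2 * C1 * (1 + a2) * ((h1 + n) * h) := by push_cast; ring
  have ht3 : (D.R : ℝ) * h ≤ (I + C1) * (n * h) := by
    calc (D.R : ℝ) * h ≤ ((I + C1) * n) * h := mul_le_mul_of_nonneg_right hR hh0
      _ = (I + C1) * (n * h) := by ring
  obtain ⟨t34, ht34⟩ : ∃ t : ℝ, t = (n : ℝ) ^ (3 / 4 : ℝ) := ⟨_, rfl⟩
  have ht340 : 0 ≤ t34 := by rw [ht34]; positivity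
  rw [← ht34]
  have hp0 : (0 : ℝ) ≤ (p : ℝ) + 1 := by positivity
  have hIs : 0 ≤ I / 6 * ((p + 1) * s / 2) := by positivity
  have hn0 : (0 : ℝ) ≤ n := by linarith
  have e1 : I / 6 * ((n : ℝ) * s - (p + 1) * (s * (s + 1)) / 2) + C1 * t34 * s + C1 * s ≤
      I / 6 * ((n : ℝ) * s - (p + 1) * (s : ℝ) ^ 2 / 2) + C1 * (s * t34) + C1 * n := by
    have h8 : (C1 : ℝ) * s ≤ C1 * n := mul_le_mul_of_nonneg_left hsn hC1
    nlinarith
  have m1 : (C1 : ℝ) * (s * t34) ≤ C * (s * t34) := by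
    apply mul_le_mul_of_nonneg_right _ (by positivity)
    rw [hC]
    linarith
  have m2 : (C1 : ℝ) * n ≤ C * n := by
    apply mul_le_mul_of_nonneg_right _ hn0
    rw [hC]
    linarith
  have m3 : (I + C1) * ((n : ℝ) * h) ≤ C * (n * h) := by
    apply mul_le_mul_of_nonneg_right _ (by positivity)
    rw [hC]
    linarith
  have m4 : 2 * C1 * (1 + a2) * (((h1 : ℝ) + n) * h) ≤ C * ((h1 + n) * h) := by
    apply mul_le_mul_of_nonneg_right _ (by positivity)
    rw [hC]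
    linarith
  have m5 : 2 * a2 * (C1 + C2 + a6) * ((n : ℝ) * (1 + E)) ≤ C * (n * (1 + E)) := by
    apply mul_le_mul_of_nonneg_right _ (by positivity)
    rw [hC]
    linarith
  have fin : C * ((s : ℝ) * t34 + n + n * h + (h1 + n) * h + n * (1 + E)) =
      C * (s * t34) + C * n + C * (n * h) + C * ((h1 + n) * h) + C * (n * (1 + E)) := by ring
  rw [fin]
  linarith

end Gou

end
end

section

/-!
Module E3b: the asymptotic form of the upper bound.
-/

open scoped MatrixGroups ModularForm UpperHalfPlane Polynomial ENNReal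
open CongruenceSubgroup UpperHalfPlane MeasureTheory Filter

noncomputable section

namespace Gou

theorem e3b_ev (K C δ : ℝ) (hδ : 0 < δ) :
    ∀ᶠ x : ℝ in atTop, x ^ (15 / 8 : ℝ) * (K + Real.log x ^ C) ≤ δ * x ^ 2 := by
  have h1 := isLittleO_log_rpow_rpow_atTop (s := (1 / 8 : ℝ)) C (by norm_num)
  have h1' := h1.bound (half_pos hδ)
  have h2 : Tendsto (fun x : ℝ => x ^ (1 / 8 : ℝ)) atTop atTop :=
    tendsto_rpow_atTop (by norm_num)
  have h2' := h2.eventually_ge_atTop (K / (δ / 2))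
  filter_upwards [h1', h2', eventually_gt_atTop (0 : ℝ)] with x hx1 hx2 hx0
  have hL : Real.log x ^ C ≤ δ / 2 * x ^ (1 / 8 : ℝ) := by
    refine (le_abs_self _).trans ?_
    rw [Real.norm_eq_abs, Real.norm_eq_abs, abs_of_nonneg (Real.rpow_nonneg hx0.le _)] at hx1
    exact hx1
  have hK : K ≤ δ / 2 * x ^ (1 / 8 : ℝ) := by
    rw [div_le_iff₀ (half_pos hδ)] at hx2
    linarith
  have hs : x ^ (15 / 8 : ℝ) * x ^ (1 / 8 : ℝ) = x ^ 2 := by
    rw [← Real.rpow_add hx0]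
    norm_num
  have h0 : 0 ≤ x ^ (15 / 8 : ℝ) := Real.rpow_nonneg hx0.le _
  calc x ^ (15 / 8 : ℝ) * (K + Real.log x ^ C)
      ≤ x ^ (15 / 8 : ℝ) * (δ * x ^ (1 / 8 : ℝ)) := by
        apply mul_le_mul_of_nonneg_left _ h0
        linarith
    _ = δ * (x ^ (15 / 8 : ℝ) * x ^ (1 / 8 : ℝ)) := by ring
    _ = δ * x ^ 2 := by rw [hs]

theorem e3b_err {x s h h1 C C' L : ℝ} (hx : 1 ≤ x) (hC : 0 ≤ C) (hC' : 1 ≤ C') (hL : 0 ≤ L)
    (hs0 : 0 ≤ s) (hs : s ≤ x) (hh0 : 0 ≤ h) (hh : h ≤ C' * x ^ (3 / 4 : ℝ) + 1)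
    (hh1 : x ^ (9 / 8 : ℝ) ≤ h1) (hh1' : h1 ≤ x ^ (9 / 8 : ℝ) + 1) :
    C * (s * x ^ (3 / 4 : ℝ) + x + x * h + (h1 + x) * h + x * (1 + L * x ^ 2 / h1)) ≤
      C * (x ^ (15 / 8 : ℝ) * ((4 * C' + 7) + L)) := by
  have hx0 : 0 < x := by linarith
  set a := x ^ (3 / 4 : ℝ) with ha
  set b := x ^ (9 / 8 : ℝ) with hb
  set y := x ^ (15 / 8 : ℝ) with hy
  have hab : b * a = y := by
    rw [ha, hb, hy, ← Real.rpow_add hx0]
    norm_num
  have ha1 : 1 ≤ a := Real.one_le_rpow hx (by norm_num)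
  have hb1 : 1 ≤ b := Real.one_le_rpow hx (by norm_num)
  have hxb : x ≤ b := by
    have := Real.rpow_le_rpow_of_exponent_le hx (show (1 : ℝ) ≤ 9 / 8 by norm_num)
    rwa [Real.rpow_one] at this
  have hby : b ≤ y := by nlinarith
  have hxy : x ≤ y := hxb.trans hby
  have hxa : x * a ≤ y := by
    rw [← hab]
    exact mul_le_mul_of_nonneg_right hxb (by linarith)
  have hh' : h ≤ (C' + 1) * a := by nlinarith
  have hh1'' : h1 + x ≤ 3 * b := by linarith
  have hb0 : 0 < b := by linarith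
  have hh10 : 0 < h1 := by linarith
  have t1 : s * a ≤ y := (mul_le_mul_of_nonneg_right hs (by linarith)).trans hxa
  have t3 : x * h ≤ (C' + 1) * y := by
    calc x * h ≤ x * ((C' + 1) * a) := mul_le_mul_of_nonneg_left hh' hx0.le
      _ = (C' + 1) * (x * a) := by ring
      _ ≤ (C' + 1) * y := mul_le_mul_of_nonneg_left hxa (by linarith)
  have t4 : (h1 + x) * h ≤ 3 * (C' + 1) * y := by
    calc (h1 + x) * h ≤ (3 * b) * ((C' + 1) * a) := by
          apply mul_le_mul hh1'' hh' hh0 (by linarith)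
      _ = 3 * (C' + 1) * (b * a) := by ring
      _ = 3 * (C' + 1) * y := by rw [hab]
  have t5 : x * (1 + L * x ^ 2 / h1) ≤ y + L * y := by
    have e1 : x ^ 3 = y * b := by
      rw [hy, hb, ← Real.rpow_add hx0]
      norm_num
    have e2 : L * x ^ 3 / h1 ≤ L * y := by
      rw [div_le_iff₀ hh10, e1]
      have : y * b ≤ y * h1 := mul_le_mul_of_nonneg_left hh1 (by linarith)
      nlinarith
    have e3 : x * (1 + L * x ^ 2 / h1) = x + L * x ^ 3 / h1 := by ring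
    rw [e3]
    linarith
  apply mul_le_mul_of_nonneg_left _ hC
  have : y * ((4 * C' + 7) + L) = y + y + (C' + 1) * y + 3 * (C' + 1) * y + (y + L * y) := by ring
  rw [this]
  linarith

theorem e3b {p N : ℕ} [Fact p.Prime] (h : EUpX p N) : EUp p N := by
  obtain ⟨C, n0, hC, H⟩ := h
  intro ε hε
  set C' : ℝ := max 1 C with hC'
  have hC'1 : 1 ≤ C' := le_max_left _ _
  have hC'C : C ≤ C' := le_max_right _ _
  have hp0 : (0 : ℝ) < (p : ℝ) + 1 := by positivity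
  have ev1 := e3b_ev (4 * C' + 7) C (ε / (C + 1)) (div_pos hε (by linarith))
  have ev2 : ∀ᶠ x : ℝ in atTop, ((p : ℝ) + 1) * (C' * x ^ (3 / 4 : ℝ) + 1) ≤ ε * x := by
    have h2 : Tendsto (fun x : ℝ => x ^ (1 / 4 : ℝ)) atTop atTop :=
      tendsto_rpow_atTop (by norm_num)
    have h2' := h2.eventually_ge_atTop (((p : ℝ) + 1) * (C' + 1) / ε)
    filter_upwards [h2', eventually_ge_atTop (1 : ℝ)] with x hx2 hx1
    have hx0 : 0 < x := by linarith
    rw [div_le_iff₀ hε] at hx2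
    have ha1 : 1 ≤ x ^ (3 / 4 : ℝ) := Real.one_le_rpow hx1 (by norm_num)
    have hs : x ^ (3 / 4 : ℝ) * x ^ (1 / 4 : ℝ) = x := by
      rw [← Real.rpow_add hx0]
      norm_num
    calc ((p : ℝ) + 1) * (C' * x ^ (3 / 4 : ℝ) + 1)
        ≤ ((p : ℝ) + 1) * ((C' + 1) * x ^ (3 / 4 : ℝ)) := by
          apply mul_le_mul_of_nonneg_left _ hp0.le
          nlinarith
      _ = x ^ (3 / 4 : ℝ) * (((p : ℝ) + 1) * (C' + 1)) := by ring
      _ ≤ x ^ (3 / 4 : ℝ) * (x ^ (1 / 4 : ℝ) * ε) := by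
          apply mul_le_mul_of_nonneg_left hx2 (by linarith)
      _ = ε * (x ^ (3 / 4 : ℝ) * x ^ (1 / 4 : ℝ)) := by ring
      _ = ε * x := by rw [hs]
  have ev3 := (ev1.and (ev2.and (eventually_ge_atTop (1 : ℝ))))
  have ev4 := (tendsto_natCast_atTop_atTop (R := ℝ)).eventually ev3
  rw [eventually_atTop] at ev4
  obtain ⟨n1, hn1⟩ := ev4
  refine ⟨max n0 n1, fun n hn hev s hs ι => ?_⟩
  obtain ⟨b1, b2, b3⟩ := hn1 n ((le_max_right _ _).trans hn)
  have hx0 : (0 : ℝ) < (n : ℝ) := by linarith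
  set hh : ℕ := ⌈C' * (n : ℝ) ^ (3 / 4 : ℝ)⌉₊ with hhh
  set h1 : ℕ := ⌈(n : ℝ) ^ (9 / 8 : ℝ)⌉₊ with hh1
  have c0 : 0 ≤ C' * (n : ℝ) ^ (3 / 4 : ℝ) := by positivity
  have c1 : C' * (n : ℝ) ^ (3 / 4 : ℝ) ≤ (hh : ℝ) := Nat.le_ceil _
  have c2 : (hh : ℝ) ≤ C' * (n : ℝ) ^ (3 / 4 : ℝ) + 1 := (Nat.ceil_lt_add_one c0).le
  have c3 : (n : ℝ) ^ (9 / 8 : ℝ) ≤ (h1 : ℝ) := Nat.le_ceil _
  have c4 : (h1 : ℝ) ≤ (n : ℝ) ^ (9 / 8 : ℝ) + 1 :=
    (Nat.ceil_lt_add_one (Real.rpow_nonneg hx0.le _)).le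
  have c5 : (1 : ℝ) ≤ (n : ℝ) ^ (9 / 8 : ℝ) := Real.one_le_rpow b3 (by norm_num)
  have d1 : C * (n : ℝ) ^ 3 ≤ (hh : ℝ) ^ 4 := by
    have e1 : (C' * (n : ℝ) ^ (3 / 4 : ℝ)) ^ 4 ≤ (hh : ℝ) ^ 4 := pow_le_pow_left₀ c0 c1 4
    have e2 : ((n : ℝ) ^ (3 / 4 : ℝ)) ^ 4 = (n : ℝ) ^ 3 := by
      rw [← Real.rpow_natCast, ← Real.rpow_mul hx0.le]
      norm_num
    rw [mul_pow, e2] at e1
    refine le_trans ?_ e1
    apply mul_le_mul_of_nonneg_right _ (by positivity)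
    have e3 : C' ≤ C' ^ 4 := by
      have := pow_le_pow_right₀ hC'1 (show 1 ≤ 4 by norm_num)
      simpa using this
    linarith
  have hp0' : 0 ≤ (p : ℝ) := Nat.cast_nonneg _
  have hsn : (s : ℝ) ≤ n := by
    have h0 : (0 : ℝ) ≤ s := Nat.cast_nonneg _
    nlinarith
  have d2 : (p + 1) * (s + hh) ≤ n := by
    have : (((p + 1) * (s + hh) : ℕ) : ℝ) ≤ (n : ℝ) := by
      push_cast
      have e4 : ((p : ℝ) + 1) * hh ≤ ε * n :=
        (mul_le_mul_of_nonneg_left c2 hp0.le).trans b2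
      nlinarith
    exact_mod_cast this
  have d3 : 1 ≤ h1 := by
    have : (1 : ℝ) ≤ (h1 : ℝ) := c5.trans c3
    exact_mod_cast this
  have key := H n ((le_max_left _ _).trans hn) hev s hh h1 d1 d2 d3 ι
  have hL : 0 ≤ Real.log n ^ C := Real.rpow_nonneg (Real.log_nonneg b3) _
  have err := e3b_err (x := (n : ℝ)) (s := s) (h := hh) (h1 := h1) (C := C) (C' := C')
    (L := Real.log n ^ C) b3 hC hC'1 hL (Nat.cast_nonneg _) hsn (Nat.cast_nonneg _) c2 c3 c4
  have fin : C * ((n : ℝ) ^ (15 / 8 : ℝ) * ((4 * C' + 7) + Real.log n ^ C)) ≤ ε * (n : ℝ) ^ 2 := by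
    have e5 := mul_le_mul_of_nonneg_left b1 hC
    refine e5.trans ?_
    have e6 : C * (ε / (C + 1) * (n : ℝ) ^ 2) = (C / (C + 1)) * (ε * (n : ℝ) ^ 2) := by
      field_simp
    rw [e6]
    have e7 : C / (C + 1) ≤ 1 := by
      rw [div_le_one (by linarith)]
      linarith
    have e8 : 0 ≤ ε * (n : ℝ) ^ 2 := by positivity
    nlinarith
  linarith [key, err, fin]

end Gou

end
end

section

/-!
Module E, item E4: the lower bound (II).
-/

open scoped MatrixGroups ModularForm UpperHalfPlane Polynomial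
open CongruenceSubgroup UpperHalfPlane

noncomputable section

namespace Gou

theorem e4_sq (c : ℕ) : c ^ 2 ≤ 4 * 2 ^ c := by
  induction c with
  | zero => norm_num
  | succ c ih =>
    rcases Nat.lt_or_ge c 3 with h | h
    · interval_cases c <;> norm_num
    · have : (c + 1) ^ 2 ≤ 2 * c ^ 2 := by nlinarith
      calc (c + 1) ^ 2 ≤ 2 * c ^ 2 := this
        _ ≤ 2 * (4 * 2 ^ c) := by omega
        _ = 4 * 2 ^ (c + 1) := by ring

/-- `c = O(log n)`. -/
theorem e4_log (A δ : ℝ) (hA : 0 ≤ A) (hδ : 0 < δ) (n c : ℕ) (hn1 : 1 ≤ n)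
    (hn : 8 * A ≤ δ ^ 2 * n) (hc : (2 : ℝ) ^ c ≤ A * (n + 1)) : (c : ℝ) ≤ δ * n := by
  have h1 : ((c : ℝ)) ^ 2 ≤ 4 * 2 ^ c := by exact_mod_cast e4_sq c
  have h2 : (1 : ℝ) ≤ n := by exact_mod_cast hn1
  have h3 : (c : ℝ) ^ 2 ≤ (δ * n) ^ 2 := by
    calc (c : ℝ) ^ 2 ≤ 4 * 2 ^ c := h1
      _ ≤ 4 * (A * (n + 1)) := by linarith
      _ ≤ 4 * (A * (n + n)) := by gcongr
      _ = (8 * A) * n := by ring
      _ ≤ (δ ^ 2 * n) * n := by gcongr
      _ = (δ * n) ^ 2 := by ring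
  exact (abs_le_of_sq_le_sq' h3 (by positivity)).2

/-- the determinant of `M - lam` is not zero if `lam` is away from the roots -/
theorem e4_det (p : ℕ) [Fact p.Prime] (av : AbsoluteValue ℂ ℝ) (R : ℕ)
    (M : Matrix (Fin R) (Fin R) ℤ) (lam : ℤ) (b : ℝ) (hb : 0 < b)
    (h : ∀ a ∈ (cm ℂ M).charpoly.roots, b ≤ av (a - lam)) :
    (M - Matrix.scalar (Fin R) lam).det ≠ 0 := by
  intro hdet
  have h3 : (((M - Matrix.scalar (Fin R) lam).det : ℤ) : ℂ) =
      (cm ℂ (M - Matrix.scalar (Fin R) lam)).det := Int.cast_det _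
  have h4 : cm ℂ (M - Matrix.scalar (Fin R) lam) =
      -(Matrix.scalar (Fin R) (lam : ℂ) - cm ℂ M) := by
    ext i j
    simp only [cm, Matrix.map_apply, Matrix.sub_apply, Matrix.neg_apply, Matrix.scalar_apply,
      Matrix.diagonal_apply]
    split_ifs <;> push_cast <;> ring
  rw [hdet, Int.cast_zero, h4, Matrix.det_neg, Fintype.card_fin] at h3
  have h5 : (Matrix.scalar (Fin R) (lam : ℂ) - cm ℂ M).det = 0 := by
    rcases mul_eq_zero.1 h3.symm with h6 | h6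
    · exact absurd h6 (pow_ne_zero _ (by norm_num))
    · exact h6
  have h6 : (lam : ℂ) ∈ (cm ℂ M).charpoly.roots := by
    rw [Polynomial.mem_roots (Matrix.charpoly_monic _).ne_zero, Polynomial.IsRoot.def,
      Matrix.eval_charpoly]
    exact h5
  have h7 := h _ h6
  rw [sub_self, map_zero] at h7
  linarith

/-- the image of `M - lam` modulo `p^s` is that of `M` -/
theorem e4_image (p s R : ℕ) (M : Matrix (Fin R) (Fin R) ℤ) (u : ℤ) (L : ℝ)
    (h : ∀ (r : ℕ) (x : Fin r → Fin R → ℤ),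
      (∀ i j, (∀ k, (p : ℤ) ^ s ∣ M.mulVec (x i) k - M.mulVec (x j) k) → i = j) →
      Real.logb p r ≤ L) (r : ℕ) (x : Fin r → Fin R → ℤ)
    (hx : ∀ i j, (∀ k, (p : ℤ) ^ s ∣ (M - Matrix.scalar (Fin R) ((p : ℤ) ^ s * u)).mulVec (x i) k -
      (M - Matrix.scalar (Fin R) ((p : ℤ) ^ s * u)).mulVec (x j) k) → i = j) :
    Real.logb p r ≤ L := by
  refine h r x fun i j hij => hx i j fun k => ?_
  have e : ∀ y : Fin R → ℤ, (M - Matrix.scalar (Fin R) ((p : ℤ) ^ s * u)).mulVec y k =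
      M.mulVec y k - (p : ℤ) ^ s * (u * y k) := by
    intro y
    rw [Matrix.sub_mulVec, Pi.sub_apply, Matrix.scalar_apply, Matrix.mulVec_diagonal]
    ring
  rw [e, e]
  have e2 : M.mulVec (x i) k - (p : ℤ) ^ s * (u * x i k) -
      (M.mulVec (x j) k - (p : ℤ) ^ s * (u * x j k)) =
      (M.mulVec (x i) k - M.mulVec (x j) k) - (p : ℤ) ^ s * (u * x i k - u * x j k) := by ring
  rw [e2]
  exact dvd_sub (hij k) (dvd_mul_right _ _)

/-- The inequality at `n` with explicit errors. -/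
theorem e4_at {p N : ℕ} [Fact p.Prime] (h3 : FinDim N) (h4 : HeckeExists N) (hp : ¬ p ∣ N)
    (d10 : D10Lower) (d11 : D11Gen) (d17 : D17Root) (d19 : D19Sum) (d20 : D20Two) (d21 : D21Cmp)
    (e0 : E0NA) (n C : ℕ) (D : CoordAt p N n C) (C2 : ℕ)
    (hdim : ((Gamma0 N).index : ℝ) * n ≤
      12 * (Module.finrank ℂ (SN N ((n : ℤ) + 2)) : ℝ) + C2)
    (s : ℕ) (hs : (p + 1) * s ≤ n) (ι : ℂ ≃+* PadicAlgCl p) (c : ℕ)
    (hc : p * (D.R + 1) < p ^ c) :
    ((Gamma0 N).index : ℝ) / 6 * ((n : ℝ) * s - (p + 1) * (s : ℝ) ^ 2 / 2) -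
      (C2 / 6 * s + C * n + C + D.R * c) ≤
      2 * ((heckeEigs N ((n : ℤ) + 2) p).map fun a => ws p (avI ι) s a).sum := by
  classical
  have hpp : p.Prime := (Fact.out : p.Prime)
  have hp0 : (0 : ℝ) < p := by exact_mod_cast hpp.pos
  have hna : NA ℂ p (avI ι) := e0 p ι
  have hfin : Module.Finite ℂ (SN N ((n : ℤ) + 2)) := h3 _
  have hex := h4 ((n : ℤ) + 2) p hpp hp
  have hT : IsHecke N ((n : ℤ) + 2) p (heckeOp N ((n : ℤ) + 2) p) := by
    unfold heckeOp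
    rw [dif_pos hex]
    exact hex.choose_spec
  have hE : heckeEigs N ((n : ℤ) + 2) p = (heckeOp N ((n : ℤ) + 2) p).charpoly.roots := by
    unfold heckeEigs
    rw [dif_pos hfin]
  obtain ⟨Q, hQ, hQc⟩ := d20 ℂ (SN N ((n : ℤ) + 2)) D.R (cm ℂ (D.M p))
    (heckeOp N ((n : ℤ) + 2) p) D.Φ D.inj (D.equiv p hpp hp _ hT)
  have hcard : Multiset.card (cm ℂ (D.M p)).charpoly.roots ≤ D.R := by
    refine (Polynomial.card_roots' _).trans ?_
    rw [Matrix.charpoly_natDegree_eq_dim, Fintype.card_fin]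
  obtain ⟨u, hu, hroots⟩ := d11 p ℂ (avI ι) hna s c D.R _ hcard hc
  have hroots' : ∀ a ∈ (cm ℂ (D.M p)).charpoly.roots,
      (p : ℝ) ^ (-((s + c : ℕ) : ℝ)) ≤ avI ι (a - (((p : ℤ) ^ s * u : ℤ) : ℂ)) := by
    intro a ha
    have := hroots a ha
    push_cast at this ⊢
    exact this
  have hdet := e4_det p (avI ι) D.R (D.M p) ((p : ℤ) ^ s * u) _
    (Real.rpow_pos_of_pos hp0 (-((s + c : ℕ) : ℝ))) hroots'
  have hlow := d10 p D.R s (D.M p - Matrix.scalar (Fin D.R) ((p : ℤ) ^ s * u)) _ hdet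
    (e4_image p s D.R (D.M p) u _ (D.image s hs))
  have hsum := d19 p ℂ (avI ι) hna D.R (D.M p) ((p : ℤ) ^ s * u) hdet
  have hcmp : ∀ a ∈ (cm ℂ (D.M p)).charpoly.roots,
      -Real.logb p (avI ι (a - (((p : ℤ) ^ s * u : ℤ) : ℂ))) ≤ ws p (avI ι) s a + c ∧
      0 ≤ ws p (avI ι) s a ∧ ws p (avI ι) s a ≤ s := by
    intro a ha
    have hroot : (cm ℂ (D.M p)).charpoly.IsRoot a :=
      (Polynomial.mem_roots (Matrix.charpoly_monic _).ne_zero).1 ha
    have h1 := d21 p ℂ (avI ι) hna s c u a hu (d17 p ℂ (avI ι) hna D.R (D.M p) a hroot)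
      (hroots' a ha)
    exact ⟨h1.2.1, h1.2.2.1, h1.2.2.2⟩
  have hle : ((cm ℂ (D.M p)).charpoly.roots.map fun a =>
      -Real.logb p (avI ι (a - (((p : ℤ) ^ s * u : ℤ) : ℂ)))).sum ≤
      ((cm ℂ (D.M p)).charpoly.roots.map fun a => ws p (avI ι) s a + c).sum :=
    Multiset.sum_map_le_sum_map _ _ fun a ha => (hcmp a ha).1
  have hQle : (Q.map fun a => ws p (avI ι) s a).sum ≤ (Multiset.card Q : ℝ) * s := by
    have h1 : (Q.map fun a => ws p (avI ι) s a).sum ≤ (Q.map fun _ => (s : ℝ)).sum :=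
      Multiset.sum_map_le_sum_map _ _ fun a ha => (hcmp a (by
        rw [hQ]
        exact Multiset.mem_add.2 (Or.inr ha))).2.2
    rw [Multiset.map_const', Multiset.sum_replicate, nsmul_eq_mul] at h1
    exact h1
  have hsplit : ((cm ℂ (D.M p)).charpoly.roots.map fun a => ws p (avI ι) s a + (c : ℝ)).sum ≤
      2 * ((heckeEigs N ((n : ℤ) + 2) p).map fun a => ws p (avI ι) s a).sum +
        (Multiset.card Q : ℝ) * s + D.R * c := by
    rw [Multiset.sum_map_add, Multiset.map_const', Multiset.sum_replicate, nsmul_eq_mul, hE]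
    have h1 : ((cm ℂ (D.M p)).charpoly.roots.map fun a => ws p (avI ι) s a).sum =
        2 * ((heckeOp N ((n : ℤ) + 2) p).charpoly.roots.map fun a => ws p (avI ι) s a).sum +
          (Q.map fun a => ws p (avI ι) s a).sum := by
      rw [hQ, Multiset.map_add, Multiset.map_add, Multiset.sum_add, Multiset.sum_add]
      ring
    rw [h1]
    have h2 : (Multiset.card (cm ℂ (D.M p)).charpoly.roots : ℝ) * c ≤ (D.R : ℝ) * c := by
      have : (Multiset.card (cm ℂ (D.M p)).charpoly.roots : ℝ) ≤ D.R := by exact_mod_cast hcard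
      exact mul_le_mul_of_nonneg_right this (Nat.cast_nonneg _)
    linarith
  have hR : (D.R : ℝ) = Multiset.card Q + 2 * (Module.finrank ℂ (SN N ((n : ℤ) + 2)) : ℝ) := by
    exact_mod_cast hQc.symm
  have hs0 : (0 : ℝ) ≤ s := Nat.cast_nonneg _
  have h5 : ((Gamma0 N).index : ℝ) / 6 * n * s ≤
      (2 * (Module.finrank ℂ (SN N ((n : ℤ) + 2)) : ℝ) + C2 / 6) * s :=
    mul_le_mul_of_nonneg_right (by linarith) hs0
  have h6 : (D.R : ℝ) * s = (Multiset.card Q : ℝ) * s +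
      2 * (Module.finrank ℂ (SN N ((n : ℤ) + 2)) : ℝ) * s := by rw [hR]; ring
  rw [hsum] at hlow
  linarith [hlow, hle, hsplit, h5, h6, hQle]

/-- E4. The lower bound (II). -/
theorem e4 {p N : ℕ} [Fact p.Prime] (h1 : CoordExists p N) (h2 : DimLower N) (h3 : FinDim N)
    (h4 : HeckeExists N) (hp : ¬ p ∣ N) (_d1 : D1Int) (d10 : D10Lower) (d11 : D11Gen)
    (d17 : D17Root) (d19 : D19Sum) (d20 : D20Two) (d21 : D21Cmp) (e0 : E0NA) : ELow p N := by
  obtain ⟨C, n0, hC⟩ := h1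
  obtain ⟨C2, hC2⟩ := h2
  intro ε hε
  have hpp : p.Prime := (Fact.out : p.Prime)
  set ψ : ℝ := ((Gamma0 N).index : ℝ) with hψ
  have hψ0 : 0 ≤ ψ := Nat.cast_nonneg _
  have hC0 : (0 : ℝ) ≤ C := Nat.cast_nonneg _
  have hC20 : (0 : ℝ) ≤ C2 := Nat.cast_nonneg _
  set δ : ℝ := ε / (2 * (ψ + C + 1)) with hδ
  have hδ0 : 0 < δ := by positivity
  set A : ℝ := 2 * p * (ψ + C + 1) with hA
  have hA0 : 0 ≤ A := by positivity
  obtain ⟨n2, hn2⟩ := exists_nat_ge (8 * A / δ ^ 2 + 2 * (C2 + 2 * C) / ε)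
  refine ⟨max (max n0 n2) 1, ?_⟩
  intro n hn he s hs ι
  have hnn0 : n0 ≤ n := (le_max_left _ _).trans ((le_max_left _ _).trans hn)
  have hnn2 : n2 ≤ n := (le_max_right _ _).trans ((le_max_left _ _).trans hn)
  have hn1 : 1 ≤ n := (le_max_right _ _).trans hn
  have hnr : (1 : ℝ) ≤ n := by exact_mod_cast hn1
  have hbig : 8 * A / δ ^ 2 + 2 * (C2 + 2 * C) / ε ≤ n := hn2.trans (by exact_mod_cast hnn2)
  have hb1 : 8 * A ≤ δ ^ 2 * n := by
    have h7 : 8 * A / δ ^ 2 ≤ n := by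
      have : 0 ≤ 2 * (C2 + 2 * C) / ε := by positivity
      linarith
    rw [div_le_iff₀ (by positivity)] at h7
    linarith
  have hb2 : 2 * (C2 + 2 * C) ≤ ε * n := by
    have h7 : 2 * (C2 + 2 * C) / ε ≤ n := by
      have : 0 ≤ 8 * A / δ ^ 2 := by positivity
      linarith
    rw [div_le_iff₀ hε] at h7
    linarith
  obtain ⟨D⟩ := hC n hnn0 he
  -- the dimension
  have hdim : ψ * n ≤ 12 * (Module.finrank ℂ (SN N ((n : ℤ) + 2)) : ℝ) + C2 := by
    have h5 := hC2 (n + 2) (by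
      rcases he with ⟨a, ha⟩
      exact ⟨a + 1, by omega⟩)
    have h6 : (((n + 2 : ℕ)) : ℤ) = (n : ℤ) + 2 := by push_cast; rfl
    rw [h6] at h5
    have h7 : ((Gamma0 N).index : ℝ) * ((n : ℝ) + 2) ≤
        12 * (Module.finrank ℂ (SN N ((n : ℤ) + 2)) : ℝ) + C2 := by exact_mod_cast h5
    rw [← hψ] at h7
    nlinarith
  -- the rank
  have hR : (D.R : ℝ) ≤ (ψ + C) * n := by
    have h5 : (6 : ℝ) * D.R ≤ ψ * n + C := by
      have := D.rank
      rw [hψ]
      exact_mod_cast this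
    nlinarith [mul_nonneg hψ0 (Nat.cast_nonneg n : (0 : ℝ) ≤ n),
      mul_nonneg hC0 (Nat.cast_nonneg n : (0 : ℝ) ≤ n)]
  -- the number `c`
  set c : ℕ := Nat.log p (p * (D.R + 1)) + 1 with hc
  have hc1 : p * (D.R + 1) < p ^ c := Nat.lt_pow_succ_log_self hpp.one_lt _
  have hc2 : (2 : ℝ) ^ c ≤ A * (n + 1) := by
    have h5 : p ^ Nat.log p (p * (D.R + 1)) ≤ p * (D.R + 1) :=
      Nat.pow_log_le_self p (Nat.mul_ne_zero hpp.ne_zero (Nat.succ_ne_zero _))
    have h6 : 2 ^ Nat.log p (p * (D.R + 1)) ≤ p ^ Nat.log p (p * (D.R + 1)) :=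
      Nat.pow_le_pow_left hpp.two_le _
    have h7 : (2 : ℝ) ^ Nat.log p (p * (D.R + 1)) ≤ p * (D.R + 1) := by
      exact_mod_cast h6.trans h5
    have hp0 : (0 : ℝ) ≤ p := Nat.cast_nonneg _
    have h8 : (D.R : ℝ) + 1 ≤ (ψ + C + 1) * (n + 1) := by nlinarith
    calc (2 : ℝ) ^ c = 2 * 2 ^ Nat.log p (p * (D.R + 1)) := by rw [hc, pow_succ]; ring
      _ ≤ 2 * (p * (D.R + 1)) := by linarith
      _ ≤ 2 * (p * ((ψ + C + 1) * (n + 1))) := by gcongr
      _ = A * (n + 1) := by rw [hA]; ring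
  have hc3 : (c : ℝ) ≤ δ * n := e4_log A δ hA0 hδ0 n c hn1 hb1 hc2
  -- the bound on `s`
  have hsn : (p + 1) * s ≤ n := by
    have h5 : ((p : ℝ) + 1) * s ≤ n := by
      refine hs.trans ?_
      nlinarith
    exact_mod_cast h5
  have hsr : (s : ℝ) ≤ n := by
    have : s ≤ n := le_trans (Nat.le_mul_of_pos_left s (Nat.succ_pos p)) hsn
    exact_mod_cast this
  have hmain := e4_at h3 h4 hp d10 d11 d17 d19 d20 d21 e0 n C D C2 hdim s hsn ι c hc1
  rw [← hψ] at hmain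
  refine le_trans ?_ hmain
  have h9 : (D.R : ℝ) * c ≤ ε / 2 * n ^ 2 := by
    calc (D.R : ℝ) * c ≤ ((ψ + C) * n) * (δ * n) :=
          mul_le_mul hR hc3 (Nat.cast_nonneg _) (by positivity)
      _ ≤ ((ψ + C + 1) * n) * (δ * n) := by
          have : 0 ≤ n * (δ * n) := by positivity
          nlinarith
      _ = ε / 2 * n ^ 2 := by rw [hδ]; field_simp
  have h10 : (C2 : ℝ) / 6 * s + C * n + C ≤ ε / 2 * n ^ 2 := by
    have h11 : (C2 : ℝ) / 6 * s ≤ C2 * n := by nlinarith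
    have h12 : (C : ℝ) ≤ C * n := by nlinarith
    have h13 : (C2 + 2 * C : ℝ) * n ≤ ε / 2 * n * n := by nlinarith
    nlinarith
  linarith

end Gou

end
end

section

/-!
Module E, item E5: asymptotics of the dimension.
-/

open scoped MatrixGroups ModularForm UpperHalfPlane Polynomial
open CongruenceSubgroup UpperHalfPlane

noncomputable section

namespace Gou

theorem e5 {p N : ℕ} (h1 : DimLower N) (h2 : CoordExists p N) (hf : FinDim N) : EDim N := by
  obtain ⟨C1, hC1⟩ := h1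
  obtain ⟨C, n0, hC⟩ := h2
  have key : ∀ n ≥ n0, Even n → ∀ m : ℤ, m = (n : ℤ) + 2 →
      12 * Module.finrank ℂ (SN N m) ≤ (Gamma0 N).index * n + C := by
    intro n hn he m hm
    subst hm
    obtain ⟨c⟩ := hC n hn he
    have := hf ((n : ℤ) + 2)
    have h3 := LinearMap.finrank_le_finrank_of_injective c.inj
    rw [Module.finrank_prod, Module.finrank_fin_fun] at h3
    have h4 := c.rank
    omega
  refine ⟨C1 + C + ∑ j ∈ Finset.range (n0 + 2), 12 * Module.finrank ℂ (SN N (j : ℤ)), ?_⟩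
  intro k hk
  have h5 := hC1 k hk
  refine ⟨by omega, ?_⟩
  rcases lt_or_ge k (n0 + 2) with h | h
  · have h6 : 12 * Module.finrank ℂ (SN N (k : ℤ)) ≤
        ∑ j ∈ Finset.range (n0 + 2), 12 * Module.finrank ℂ (SN N (j : ℤ)) :=
      Finset.single_le_sum (f := fun j : ℕ => 12 * Module.finrank ℂ (SN N (j : ℤ)))
        (fun _ _ => Nat.zero_le _) (Finset.mem_range.2 h)
    have h7 : 0 ≤ (Gamma0 N).index * k := Nat.zero_le _
    omega
  · obtain ⟨n, rfl⟩ := Nat.exists_eq_add_of_le' (show 2 ≤ k by omega)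
    have he : Even n := by
      rcases hk with ⟨a, ha⟩
      exact ⟨a - 1, by omega⟩
    have h6 := key n (by omega) he ((n + 2 : ℕ) : ℤ) (by push_cast; rfl)
    have h7 : (Gamma0 N).index * n ≤ (Gamma0 N).index * (n + 2) :=
      Nat.mul_le_mul_left _ (by omega)
    omega

end Gou

end
end

section

/-!
Module E, E6: the integral of `g` against `μ_k`.
-/

open scoped MatrixGroups ModularForm UpperHalfPlane Polynomial ENNReal
open CongruenceSubgroup UpperHalfPlane MeasureTheory Filter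

noncomputable section

namespace Gou

namespace E6

/-- Integral against a finite sum of point masses. -/
theorem integral_sum_dirac (g : ℝ → ℝ) (f : ℝ → ℝ) (m : Multiset ℝ) :
    Integrable g ((m.map fun s => Measure.dirac (f s)).sum) ∧
    ∫ x, g x ∂((m.map fun s => Measure.dirac (f s)).sum) = (m.map fun s => g (f s)).sum := by
  induction m using Multiset.induction_on with
  | empty => simp
  | cons a m ih =>
    obtain ⟨h1, h2⟩ := ih
    have h3 : Integrable g (Measure.dirac (f a)) := integrable_dirac (by simp)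
    constructor
    · rw [Multiset.map_cons, Multiset.sum_cons]
      exact h3.add_measure h1
    · rw [Multiset.map_cons, Multiset.sum_cons, Multiset.map_cons, Multiset.sum_cons,
        integral_add_measure h3 h1, h2, integral_dirac]

theorem card_heckeEigs (N : ℕ) (h1 : FinDim N) (k : ℤ) (l : ℕ) :
    Multiset.card (heckeEigs N k l) = Module.finrank ℂ (SN N k) := by
  have := h1 k
  have h : heckeEigs N k l = (heckeOp N k l).charpoly.roots := by
    unfold heckeEigs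
    rw [dif_pos (h1 k)]
  rw [h, IsAlgClosed.card_roots_eq_natDegree, LinearMap.charpoly_natDegree]

theorem mem_le_one {p N : ℕ} [Fact p.Prime] (hp : ¬ p ∣ N) (h1 : FinDim N) (h2 : HeckeExists N)
    {n C : ℕ} (D : CoordAt p N n C) (h4 : D17Root) (h5 : D20Two) (h0 : E0NA)
    (ι : ℂ ≃+* PadicAlgCl p) (a : ℂ) (ha : a ∈ heckeEigs N ((n : ℤ) + 2) p) :
    avI ι a ≤ 1 := by
  have := h1 ((n : ℤ) + 2)
  have hpp : p.Prime := Fact.out
  have h : heckeEigs N ((n : ℤ) + 2) p = (heckeOp N ((n : ℤ) + 2) p).charpoly.roots := by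
    unfold heckeEigs
    rw [dif_pos (h1 ((n : ℤ) + 2))]
  have hT : IsHecke N ((n : ℤ) + 2) p (heckeOp N ((n : ℤ) + 2) p) := by
    have hex := h2 ((n : ℤ) + 2) p hpp hp
    have e : heckeOp N ((n : ℤ) + 2) p = hex.choose := by
      unfold heckeOp
      rw [dif_pos hex]
    rw [e]
    exact hex.choose_spec
  obtain ⟨Q, hQ, -⟩ := h5 ℂ (SN N ((n : ℤ) + 2)) D.R (cm ℂ (D.M p)) (heckeOp N ((n : ℤ) + 2) p)
    D.Φ D.inj (fun f g => D.equiv p hpp hp _ hT f g)
  rw [h] at ha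
  have ha2 : a ∈ (cm ℂ (D.M p)).charpoly.roots := by
    rw [hQ]
    simp [ha]
  have ha3 : (cm ℂ (D.M p)).charpoly.IsRoot a := Polynomial.isRoot_of_mem_roots ha2
  exact h4 p ℂ (avI ι) (h0 p ι) D.R (D.M p) a ha3

theorem ws_facts {K : Type*} [Field K] (p : ℕ) (hp : p.Prime) (av : AbsoluteValue K ℝ) (a : K)
    (ha : av a ≤ 1) (S : ℝ) (hS : 0 ≤ S) :
    0 ≤ ws p av S a ∧ ws p av S a ≤ S ∧ ∀ s : ℝ, 0 ≤ s → s ≤ S →
      ws p av s a = min (ws p av S a) s := by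
  have hp1 : (1 : ℝ) < p := by exact_mod_cast hp.one_lt
  have hp0 : (0 : ℝ) < p := by positivity
  have key : ∀ s : ℝ, 0 ≤ s → 0 ≤ ws p av s a ∧ ws p av s a ≤ s := by
    intro s hs
    have hpos : 0 < (p : ℝ) ^ (-s) := Real.rpow_pos_of_pos hp0 _
    have hle1 : (p : ℝ) ^ (-s) ≤ 1 := by
      apply Real.rpow_le_one_of_one_le_of_nonpos hp1.le
      linarith
    constructor
    · unfold ws
      have : Real.logb p (max (av a) ((p : ℝ) ^ (-s))) ≤ 0 := by
        apply Real.logb_nonpos hp1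
        · exact le_max_of_le_right hpos.le
        · exact max_le ha hle1
      linarith
    · unfold ws
      have : Real.logb p ((p : ℝ) ^ (-s)) ≤ Real.logb p (max (av a) ((p : ℝ) ^ (-s))) := by
        apply Real.logb_le_logb_of_le hp1 hpos
        exact le_max_right _ _
      rw [Real.logb_rpow hp0 hp1.ne'] at this
      linarith
  refine ⟨(key S hS).1, (key S hS).2, ?_⟩
  intro s hs0 hs
  have hposS : 0 < (p : ℝ) ^ (-S) := Real.rpow_pos_of_pos hp0 _
  have hpos : 0 < (p : ℝ) ^ (-s) := Real.rpow_pos_of_pos hp0 _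
  have hmono : (p : ℝ) ^ (-S) ≤ (p : ℝ) ^ (-s) := by
    apply Real.rpow_le_rpow_of_exponent_le hp1.le
    linarith
  have e1 : max (av a) ((p : ℝ) ^ (-s)) = max (max (av a) ((p : ℝ) ^ (-S))) ((p : ℝ) ^ (-s)) := by
    rw [max_assoc, max_eq_right hmono]
  unfold ws
  rw [e1]
  have hlog : Real.logb p ((p : ℝ) ^ (-s)) = -s := Real.logb_rpow hp0 hp1.ne'
  rcases le_total (max (av a) ((p : ℝ) ^ (-S))) ((p : ℝ) ^ (-s)) with h | h
  · rw [max_eq_right h, hlog]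
    have h' := Real.logb_le_logb_of_le hp1 (lt_max_of_lt_right hposS) h
    rw [hlog] at h'
    rw [min_eq_right (by linarith)]
    ring
  · rw [max_eq_left h]
    have h' := Real.logb_le_logb_of_le hp1 hpos h
    rw [hlog] at h'
    rw [min_eq_left (by linarith)]

end E6

open E6 in
/-- E6. The hypothesis `¬ p ∣ N` is added (the operator `T_p` exists only then). -/
theorem e6 {p N : ℕ} [Fact p.Prime] (hpN : ¬ p ∣ N) (h1 : FinDim N) (h2 : HeckeExists N)
    (h3 : CoordExists p N) (h4 : D17Root) (h5 : D20Two) (h6 : ERoots) (h0 : E0NA) :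
    EInt p N := by
  obtain ⟨C, n0, hC⟩ := h3
  have hpp : p.Prime := Fact.out
  refine ⟨n0 + 2, fun k hk hev ι g hg => ?_⟩
  obtain ⟨n, rfl⟩ : ∃ n, k = n + 2 := ⟨k - 2, by omega⟩
  have hn : n0 ≤ n := by omega
  have hevn : Even n := by
    rcases hev with ⟨r, hr⟩
    exact ⟨r - 1, by omega⟩
  obtain ⟨D⟩ := hC n hn hevn
  have hcast : (((n + 2 : ℕ) : ℕ) : ℤ) = (n : ℤ) + 2 := by push_cast; ring
  have hle : ∀ a ∈ heckeEigs N ((n + 2 : ℕ) : ℤ) p, avI ι a ≤ 1 := by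
    intro a ha
    rw [hcast] at ha
    exact mem_le_one hpN h1 h2 D h4 h5 h0 ι a ha
  have hcard : Multiset.card (heckeEigs N ((n + 2 : ℕ) : ℤ) p)
      = Module.finrank ℂ (SN N ((n + 2 : ℕ) : ℤ)) := card_heckeEigs N h1 _ p
  set κ : ℝ := ((n + 2 : ℕ) : ℝ) - 1 with hκ
  have hκ1 : 1 ≤ κ := by
    rw [hκ]
    push_cast
    have : (0 : ℝ) ≤ n := Nat.cast_nonneg n
    linarith
  have hκ0 : 0 ≤ κ / 2 := by linarith
  refine ⟨hcard, fun a ha => ws_facts p hpp (avI ι) a (hle a ha) (κ / 2) hκ0, ?_⟩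
  have hold : oldSlopes p N (n + 2) ι = (heckeEigs N ((n + 2 : ℕ) : ℤ) p).bind fun a =>
      ({ws p (avI ι) (κ / 2) a, κ - ws p (avI ι) (κ / 2) a} : Multiset ℝ) := by
    unfold oldSlopes
    apply Multiset.bind_congr
    intro a ha
    exact h6 p ι a (n + 2) (by omega) (hle a ha)
  have hc2 : Multiset.card (oldSlopes p N (n + 2) ι)
      = 2 * Module.finrank ℂ (SN N ((n + 2 : ℕ) : ℤ)) := by
    rw [hold, Multiset.card_bind, ← hcard]
    simp [mul_comm]
  have hsum : ((oldSlopes p N (n + 2) ι).map fun s => g (s / κ)).sum =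
      ((heckeEigs N ((n + 2 : ℕ) : ℤ) p).map fun a =>
          g (ws p (avI ι) (κ / 2) a / κ) + g (1 - ws p (avI ι) (κ / 2) a / κ)).sum := by
    rw [hold, Multiset.map_bind, Multiset.sum_bind]
    congr 1
    apply Multiset.map_congr rfl
    intro a _
    have hκne : κ ≠ 0 := by linarith
    have : (κ - ws p (avI ι) (κ / 2) a) / κ = 1 - ws p (avI ι) (κ / 2) a / κ := by
      rw [sub_div, div_self hκne]
    simp [this]
  unfold muK
  rw [integral_smul_measure, (integral_sum_dirac g (fun s => s / κ) _).2, hsum, hc2]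
  simp [ENNReal.toReal_inv]

end Gou

end
end
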