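import Pool.Agent.Work.MP_602313_nt.Bd.B05

/-! Bundle of small proof modules (one section per former module). -/

section

/-!
Module B, item BKK: ranks of the kernels of the norm operators, second part.
-/

open scoped MatrixGroups Polynomial
open CongruenceSubgroup

noncomputable section

namespace Gou

namespace KK

section sy

variable {R : Type} [CommRing R] [IsDomain R]

/-! ### The step for `S` -/

/-- The outer coefficients. -/
def piS (n' : ℕ) : Sy R (4 + n') →ₗ[R] (Fin 4 → R) where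
  toFun f := ![f.1.coeff 0, f.1.coeff 1, f.1.coeff (3 + n'), f.1.coeff (4 + n')]
  map_add' f g := by
    ext i
    fin_cases i <;> simp
  map_smul' c f := by
    ext i
    fin_cases i <;> simp

/-- The action on the outer coefficients. -/
def gCS : (Fin 4 → R) →ₗ[R] (Fin 4 → R) where
  toFun x := ![x 3, - x 2, - x 1, x 0]
  map_add' f g := by
    ext i
    fin_cases i <;> simp <;> ring
  map_smul' c f := by
    ext i
    fin_cases i <;> simp

theorem step_S (h1 : BComp) (h2 : BMul) [IsNoetherianRing R] (h3 : (2 : R) ≠ 0) (n' : ℕ)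
    (hn : Even n') : kkf R 2 mS (4 + n') = kkf R 2 mS n' + 2 := by
  have hQ : (Polynomial.X ^ 2 : R[X]).natDegree ≤ 4 :=
    (Polynomial.natDegree_X_pow_le _).trans (by norm_num)
  have hQ0 : (Polynomial.X ^ 2 : R[X]) ≠ 0 := pow_ne_zero _ Polynomial.X_ne_zero
  have hinv : symAct 4 (mx mS) (Polynomial.X ^ 2 : R[X]) = Polynomial.X ^ 2 := by
    rw [act_S]
    simp [Finset.sum_range_succ, Polynomial.coeff_X_pow]
  have hn4 : Even (4 + n') := by
    rw [Nat.even_add]
    exact ⟨fun _ => hn, fun _ => by decide⟩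
  rw [kkf, kkf]
  have hk := add_ker (actS n' (mx mS) : Sy R n' →ₗ[R] Sy R n')
    (actS (4 + n') (mx mS) : Sy R (4 + n') →ₗ[R] Sy R (4 + n')) gCS
    (mulL _ hQ n') (piS n') (mulL_inj _ hQ n' hQ0) ?_ ?_
    (mulL_equiv h2 _ hQ n' _ hinv) ?_ 2 (by exact_mod_cast h3) (pow_S h1 _ hn4)
  · rw [hk]
    congr 1
    set σ : (Fin 4 → R) →ₗ[R] (Fin 2 → R) :=
      { toFun := fun x => ![x 0 + x 3, x 1 - x 2]
        map_add' := fun x y => by
          ext i
          fin_cases i <;> simp <;> ring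
        map_smul' := fun c x => by
          ext i
          fin_cases i <;> simp <;> ring } with hσ
    have hσ0 : ∀ x, σ x 0 = x 0 + x 3 := fun _ => rfl
    have hσ1 : ∀ x, σ x 1 = x 1 - x 2 := fun _ => rfl
    have hker : LinearMap.ker (NN 2 (gCS : (Fin 4 → R) →ₗ[R] (Fin 4 → R))) =
        LinearMap.ker σ := by
      have hNN : ∀ x : Fin 4 → R, NN 2 gCS x = ![σ x 0, σ x 1, - σ x 1, σ x 0] := by
        intro x
        rw [NN_apply]
        simp only [Finset.sum_range_succ, Finset.sum_range_zero, pow_zero, pow_one, zero_add,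
          Module.End.one_apply]
        have a0 : ∀ y : Fin 4 → R, gCS y 0 = y 3 := fun _ => rfl
        have a1 : ∀ y : Fin 4 → R, gCS y 1 = - y 2 := fun _ => rfl
        have a2 : ∀ y : Fin 4 → R, gCS y 2 = - y 1 := fun _ => rfl
        have a3 : ∀ y : Fin 4 → R, gCS y 3 = y 0 := fun _ => rfl
        ext i
        fin_cases i
        · change x 0 + gCS x 0 = σ x 0
          rw [a0, hσ0]
        · change x 1 + gCS x 1 = σ x 1
          rw [a1, hσ1]
          ring
        · change x 2 + gCS x 2 = - σ x 1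
          rw [a2, hσ1]
          ring
        · change x 3 + gCS x 3 = σ x 0
          rw [a3, hσ0]
          ring
      ext x
      rw [LinearMap.mem_ker, LinearMap.mem_ker, hNN]
      constructor
      · intro h
        ext i
        fin_cases i
        · exact congrFun h 0
        · exact congrFun h 1
      · intro h
        rw [h]
        ext i
        fin_cases i <;> simp
    rw [hker]
    have h4 := range_add_ker σ
    have h5 : LinearMap.range σ = ⊤ := by
      rw [LinearMap.range_eq_top]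
      intro r
      refine ⟨![r 0, r 1, 0, 0], ?_⟩
      ext i
      fin_cases i
      · change r 0 + 0 = r 0
        rw [add_zero]
      · change r 1 - 0 = r 1
        rw [sub_zero]
    rw [h5, finrank_top, Module.finrank_fintype_fun_eq_card, Module.finrank_fintype_fun_eq_card,
      Fintype.card_fin, Fintype.card_fin] at h4
    omega
  · intro x
    refine ⟨⟨Polynomial.C (x 0) + Polynomial.C (x 1) * Polynomial.X +
      Polynomial.C (x 2) * Polynomial.X ^ (3 + n') +
      Polynomial.C (x 3) * Polynomial.X ^ (4 + n'), ?_⟩, ?_⟩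
    · refine (Polynomial.natDegree_add_le _ _).trans (max_le ((Polynomial.natDegree_add_le _ _).trans
        (max_le ((Polynomial.natDegree_add_le _ _).trans (max_le ?_ ?_)) ?_)) ?_)
      · simp
      · refine (Polynomial.natDegree_C_mul_le _ _).trans (Polynomial.natDegree_X_le.trans ?_)
        omega
      · refine (Polynomial.natDegree_C_mul_le _ _).trans
          ((Polynomial.natDegree_X_pow_le _).trans ?_)
        omega
      · exact (Polynomial.natDegree_C_mul_le _ _).trans (Polynomial.natDegree_X_pow_le _)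
    · have hc : ∀ i, (Polynomial.C (x 0) + Polynomial.C (x 1) * Polynomial.X +
          Polynomial.C (x 2) * Polynomial.X ^ (3 + n') +
          Polynomial.C (x 3) * Polynomial.X ^ (4 + n')).coeff i =
          (if i = 0 then x 0 else 0) + x 1 * (if 1 = i then 1 else 0) +
            x 2 * (if i = 3 + n' then 1 else 0) + x 3 * (if i = 4 + n' then 1 else 0) := by
        intro i
        rw [Polynomial.coeff_add, Polynomial.coeff_add, Polynomial.coeff_add,
          Polynomial.coeff_C_mul, Polynomial.coeff_C_mul, Polynomial.coeff_C_mul,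
          Polynomial.coeff_C, Polynomial.coeff_X, Polynomial.coeff_X_pow, Polynomial.coeff_X_pow]
      have e1 : ¬ (0 = 3 + n') := by omega
      have e2 : ¬ (0 = 4 + n') := by omega
      have e3 : ¬ (1 = 3 + n') := by omega
      have e4 : ¬ (1 = 4 + n') := by omega
      have e5 : ¬ (3 + n' = 0) := by omega
      have e6 : ¬ (4 + n' = 0) := by omega
      have e7 : ¬ (3 + n' = 4 + n') := by omega
      have e8 : ¬ (4 + n' = 3 + n') := by omega
      have e9 : ¬ (1 = 0) := by omega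
      ext i
      fin_cases i
      · change (Polynomial.C (x 0) + Polynomial.C (x 1) * Polynomial.X +
          Polynomial.C (x 2) * Polynomial.X ^ (3 + n') +
          Polynomial.C (x 3) * Polynomial.X ^ (4 + n')).coeff 0 = x 0
        rw [hc, if_pos rfl, if_neg e9, if_neg e1, if_neg e2]
        ring
      · change (Polynomial.C (x 0) + Polynomial.C (x 1) * Polynomial.X +
          Polynomial.C (x 2) * Polynomial.X ^ (3 + n') +
          Polynomial.C (x 3) * Polynomial.X ^ (4 + n')).coeff 1 = x 1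
        rw [hc, if_neg e9, if_pos rfl, if_neg e3, if_neg e4]
        ring
      · change (Polynomial.C (x 0) + Polynomial.C (x 1) * Polynomial.X +
          Polynomial.C (x 2) * Polynomial.X ^ (3 + n') +
          Polynomial.C (x 3) * Polynomial.X ^ (4 + n')).coeff (3 + n') = x 2
        rw [hc, if_neg e5, if_neg e3, if_pos rfl, if_neg e7]
        ring
      · change (Polynomial.C (x 0) + Polynomial.C (x 1) * Polynomial.X +
          Polynomial.C (x 2) * Polynomial.X ^ (3 + n') +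
          Polynomial.C (x 3) * Polynomial.X ^ (4 + n')).coeff (4 + n') = x 3
        rw [hc, if_neg e6, if_neg e4, if_neg e8, if_pos rfl]
        ring
  · intro b
    constructor
    · intro hb
      have hb0 : b.1.coeff 0 = 0 := congrFun hb 0
      have hb1 : b.1.coeff 1 = 0 := congrFun hb 1
      have hb2 : b.1.coeff (3 + n') = 0 := congrFun hb 2
      have hb3 : b.1.coeff (4 + n') = 0 := congrFun hb 3
      have hd : (Polynomial.X : R[X]) ^ 2 ∣ b.1 := by
        rw [Polynomial.X_pow_dvd_iff]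
        intro d hd
        interval_cases d
        · exact hb0
        · exact hb1
      obtain ⟨f, hf⟩ := hd
      have hbd : b.1.natDegree ≤ 4 + n' := b.2
      refine ⟨⟨f, ?_⟩, Subtype.ext hf.symm⟩
      change f.natDegree ≤ n'
      rw [Polynomial.natDegree_le_iff_coeff_eq_zero]
      intro N hN
      have h4 : f.coeff N = b.1.coeff (N + 2) := by
        rw [hf, Polynomial.coeff_X_pow_mul]
      rw [h4]
      by_cases h5 : N + 2 = 3 + n'
      · rw [h5, hb2]
      by_cases h6 : N + 2 = 4 + n'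
      · rw [h6, hb3]
      exact Polynomial.coeff_eq_zero_of_natDegree_lt (by omega)
    · rintro ⟨a, rfl⟩
      have ha : a.1.natDegree ≤ n' := a.2
      ext i
      fin_cases i
      · simp [piS, mulL_val]
      · change (Polynomial.X ^ 2 * a.1).coeff 1 = 0
        rw [pow_two, mul_assoc]
        simp [Polynomial.coeff_X_mul]
      · change (Polynomial.X ^ 2 * a.1).coeff (3 + n') = 0
        rw [show 3 + n' = (n' + 1) + 2 by ring, Polynomial.coeff_X_pow_mul,
          Polynomial.coeff_eq_zero_of_natDegree_lt (by omega)]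
      · change (Polynomial.X ^ 2 * a.1).coeff (4 + n') = 0
        rw [show 4 + n' = (n' + 2) + 2 by ring, Polynomial.coeff_X_pow_mul,
          Polynomial.coeff_eq_zero_of_natDegree_lt (by omega)]
  · intro b
    have c1 : ((-1 : R)) ^ (4 + n') = 1 := hn4.neg_one_pow
    have c2 : ((-1 : R)) ^ (3 + n') = -1 := by
      have h5 : ((-1 : R)) ^ (4 + n') = (-1) ^ (3 + n') * (-1) := by
        rw [← pow_succ]
        congr 1
        omega
      rw [c1] at h5
      linear_combination h5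
    ext i
    fin_cases i
    · change (symAct (4 + n') (mx mS) b.1).coeff 0 = b.1.coeff (4 + n')
      rw [act_S_coeff _ _ _ (by omega), Nat.sub_zero, c1, mul_one]
    · change (symAct (4 + n') (mx mS) b.1).coeff 1 = - b.1.coeff (3 + n')
      rw [act_S_coeff _ _ _ (by omega), show 4 + n' - 1 = 3 + n' by omega, c2]
      ring
    · change (symAct (4 + n') (mx mS) b.1).coeff (3 + n') = - b.1.coeff 1
      rw [act_S_coeff _ _ _ (by omega), show 4 + n' - (3 + n') = 1 by omega]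
      ring
    · change (symAct (4 + n') (mx mS) b.1).coeff (4 + n') = b.1.coeff 0
      rw [act_S_coeff _ _ _ (by omega), show 4 + n' - (4 + n') = 0 by omega]
      ring

/-! ### Bounds -/

theorem kkf_le (d : ℕ) (g : SL(2, ℤ)) [IsNoetherianRing R] (n : ℕ) : kkf R d g n ≤ n + 1 := by
  rw [kkf]
  refine (Submodule.finrank_le _).trans ?_
  rw [finrank_Sy]

theorem pos_of_mem [IsNoetherianRing R] {A : Type} [AddCommGroup A] [Module R A]
    [Module.Finite R A] [Module.IsTorsionFree R A] (K : Submodule R A) (x : A) (hx : x ∈ K)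
    (h0 : x ≠ 0) : 1 ≤ Module.finrank R K := by
  have : Nontrivial K := ⟨⟨⟨x, hx⟩, 0, fun h => h0 (congrArg Subtype.val h)⟩⟩
  exact Module.finrank_pos

theorem kkf_V_pos (h1 : BComp) [IsNoetherianRing R] (n : ℕ) (hn : 1 ≤ n) :
    1 ≤ kkf R 3 mV n := by
  set g : Sy R n →ₗ[R] Sy R n := actS n (mx mV) with hg
  have hg3 : g ^ 3 = 1 := pow_V h1 n
  set u : Sy R n := ⟨1, by change (1 : R[X]).natDegree ≤ n; simp⟩ with hu
  refine pos_of_mem _ (u - g u) ?_ ?_
  · rw [LinearMap.mem_ker, map_sub]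
    have h5 : NN 3 g (g u) = NN 3 g u := by
      have h6 : NN 3 g * g = NN 3 g := by
        have h7 : NN 3 g * g = g * NN 3 g := by
          rw [NN, Finset.sum_mul, Finset.mul_sum]
          exact Finset.sum_congr rfl fun i _ => (pow_succ g i).symm.trans (pow_succ' g i)
        rw [h7, g_NN 3 g hg3]
      conv_rhs => rw [← h6]
      rfl
    rw [h5, sub_self]
  · intro h
    have h5 : (1 : R[X]) - symAct n (mx mV) 1 = 0 := congrArg Subtype.val h
    have h6 := congrArg (fun f => Polynomial.coeff f 0) h5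
    simp only [Polynomial.coeff_sub, act_V_coeff0, Polynomial.coeff_zero] at h6
    rw [Polynomial.coeff_one, Polynomial.coeff_one, if_pos rfl, if_neg (by omega)] at h6
    simp at h6

theorem kkf_S_two [IsNoetherianRing R] :
    1 ≤ kkf R 2 mS 2 ∧ kkf R 2 mS 2 ≤ 2 := by
  constructor
  · refine pos_of_mem _ (⟨Polynomial.X, Polynomial.natDegree_X_le.trans (by norm_num)⟩ : Sy R 2)
      ?_ ?_
    · rw [LinearMap.mem_ker]
      apply Subtype.ext
      rw [NN_apply]
      simp only [Finset.sum_range_succ, Finset.sum_range_zero, pow_zero, pow_one, zero_add,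
        Module.End.one_apply]
      change (Polynomial.X : R[X]) + symAct 2 (mx mS) Polynomial.X = 0
      rw [act_S]
      simp [Finset.sum_range_succ, Polynomial.coeff_X]
    · intro h
      exact Polynomial.X_ne_zero (congrArg Subtype.val h)
  · have h4 := range_add_ker (NN 2 (actS 2 (mx mS) : Sy R 2 →ₗ[R] Sy R 2))
    rw [finrank_Sy] at h4
    have h5 : 1 ≤ Module.finrank R
        (LinearMap.range (NN 2 (actS 2 (mx mS) : Sy R 2 →ₗ[R] Sy R 2))) := by
      set u : Sy R 2 := ⟨1, by change (1 : R[X]).natDegree ≤ 2; simp⟩ with hu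
      refine pos_of_mem _ (NN 2 (actS 2 (mx mS)) u) (LinearMap.mem_range_self _ _) ?_
      intro h
      have h6 : (1 : R[X]) + symAct 2 (mx mS) 1 = 0 := by
        have h7 := congrArg Subtype.val h
        rw [NN_apply] at h7
        simp only [Finset.sum_range_succ, Finset.sum_range_zero, pow_zero, pow_one, zero_add,
          Module.End.one_apply] at h7
        exact h7
      have h8 := congrArg (fun f => Polynomial.coeff f 0) h6
      simp only [Polynomial.coeff_add, Polynomial.coeff_zero] at h8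
      rw [act_S_coeff _ _ _ (by omega), Polynomial.coeff_one, Polynomial.coeff_one,
        if_pos rfl, if_neg (by omega)] at h8
      simp at h8
    rw [kkf]
    omega

theorem bound_V (h1 : BComp) (h2 : BMul) [IsNoetherianRing R] (h3 : (3 : R) ≠ 0) (n : ℕ) :
    2 * n ≤ 3 * kkf R 3 mV n + 1 ∧ 3 * kkf R 3 mV n ≤ 2 * n + 5 := by
  induction n using Nat.strong_induction_on with
  | _ n ih =>
    by_cases hn : n < 3
    · have h4 := kkf_le (R := R) 3 mV n
      by_cases h5 : n = 0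
      · omega
      · have h6 := kkf_V_pos (R := R) h1 n (by omega)
        omega
    · obtain ⟨n', rfl⟩ := Nat.exists_eq_add_of_le (not_lt.1 hn)
      have h4 := step_V h1 h2 h3 n'
      have h5 := ih n' (by omega)
      omega

theorem bound_S (h1 : BComp) (h2 : BMul) [IsNoetherianRing R] (h3 : (2 : R) ≠ 0) (n : ℕ)
    (he : Even n) : n ≤ 2 * kkf R 2 mS n + 1 ∧ 2 * kkf R 2 mS n ≤ n + 3 := by
  induction n using Nat.strong_induction_on with
  | _ n ih =>
    by_cases hn : n < 4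
    · have h4 := kkf_le (R := R) 2 mS n
      obtain ⟨k, hk⟩ := he
      by_cases h5 : n = 0
      · omega
      · have h6 : n = 2 := by omega
        subst h6
        have h7 := kkf_S_two (R := R)
        omega
    · obtain ⟨n', rfl⟩ := Nat.exists_eq_add_of_le (not_lt.1 hn)
      have he' : Even n' := by
        rw [Nat.even_add] at he
        exact he.1 (by decide)
      have h4 := step_S h1 h2 h3 n' he'
      have h5 := ih n' (by omega) he'
      omega

end sy

/-! ### Indices -/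

section idx

variable {p : ℕ} [Fact p.Prime]

/-- The inclusion. -/
def io (p : ℕ) [Fact p.Prime] (n : ℕ) : Sy ℤ_[p] n →+ ℤ_[p][X] :=
  (Sy ℤ_[p] n).subtype.toAddMonoidHom

theorem io_apply (n : ℕ) (x : Sy ℤ_[p] n) : io p n x = x.1 := rfl

theorem le_range (n : ℕ) (K : AddSubgroup ℤ_[p][X]) (hK : K ≤ Pn p n) : K ≤ (io p n).range := by
  intro f hf
  exact ⟨⟨f, hK hf⟩, rfl⟩

theorem rel_io (n : ℕ) (J K : AddSubgroup ℤ_[p][X]) (hK : K ≤ Pn p n) :
    J.relIndex K = (J.comap (io p n)).relIndex (K.comap (io p n)) := by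
  rw [AddSubgroup.relIndex_comap, AddSubgroup.map_comap_eq_self (le_range n K hK)]

theorem mem_pPn (n j : ℕ) (x : Sy ℤ_[p] n) :
    x.1 ∈ pPn p n j ↔ ∃ y : Sy ℤ_[p] n, x = ((p : ℤ_[p]) ^ j) • y := by
  have hp0 : ((p : ℤ_[p]) ^ j) ≠ 0 := pow_ne_zero _ PadicInt.prime_p.ne_zero
  constructor
  · intro h
    obtain ⟨y, hy⟩ := (Polynomial.C_dvd_iff_dvd_coeff _ _).2 h.2
    refine ⟨⟨y, ?_⟩, ?_⟩
    · change y.natDegree ≤ n
      rw [← Polynomial.natDegree_C_mul (p := y) hp0, ← hy]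
      exact h.1
    · apply Subtype.ext
      change x.1 = ((p : ℤ_[p]) ^ j) • y
      rw [hy, Polynomial.smul_eq_C_mul]
  · rintro ⟨y, rfl⟩
    refine ⟨(((p : ℤ_[p]) ^ j) • y).2, fun i => ?_⟩
    change _ ∣ (((p : ℤ_[p]) ^ j) • y.1).coeff i
    rw [Polynomial.coeff_smul, smul_eq_mul]
    exact dvd_mul_right _ _

theorem NN_Ng (h1 : BComp) (n d : ℕ) (g : SL(2, ℤ)) (x : Sy ℤ_[p] n) :
    ((NN d (actS n (mx g)) x : Sy ℤ_[p] n) : ℤ_[p][X]) = Ng n d g x.1 :=
  NN_val h1 n d g x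

theorem kerN_le (n d : ℕ) (g : SL(2, ℤ)) (K J : AddSubgroup ℤ_[p][X]) :
    kerN n d g K J ≤ K := fun _ hf => hf.1

/-- The second clause. -/
theorem clause2 (h1 : BComp) (h3 : BLat) (d : ℕ) (hd : 1 ≤ d) (g : SL(2, ℤ)) (n j : ℕ)
    (hg : (actS n (mx g) : Sy ℤ_[p] n →ₗ[ℤ_[p]] Sy ℤ_[p] n) ^ d = 1) :
    (pPn p n j).relIndex (kerN n d g (Pn p n) (pPn p n j)) ≠ 0 ∧
      (pPn p n j).relIndex (kerN n d g (Pn p n) (pPn p n j)) ≤
        p ^ (j * kkf ℤ_[p] d g n + padicValNat p d * (n + 1)) := by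
  rw [rel_io n _ _ (kerN_le _ _ _ _ _)]
  have h := h3 p (Sy ℤ_[p] n) (actS n (mx g)) d j hd hg
    ((kerN n d g (Pn p n) (pPn p n j)).comap (io p n)) ((pPn p n j).comap (io p n))
    (fun x => mem_pPn n j x) (fun x => ?_)
  · rw [finrank_Sy] at h
    exact h
  · rw [← NN_apply]
    change (x.1 ∈ Pn p n ∧ Ng n d g x.1 ∈ pPn p n j) ↔
      (NN d (actS n (mx g)) x : Sy ℤ_[p] n).1 ∈ pPn p n j
    rw [NN_Ng h1]
    exact ⟨fun h => h.2, fun h => ⟨x.2, h⟩⟩

/-- The third clause. -/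
theorem clause3 (h1 : BComp) (h2 : BMul) (h3 : BLat) (d : ℕ) (hd : 1 ≤ d) (g : SL(2, ℤ))
    (k n' j : ℕ) (H : ℤ_[p][X]) (hk : H.natDegree ≤ k) (hinv : symAct k (mx g) H = H)
    (hp : ¬ dvdP (p : ℤ_[p]) H)
    (hg : (actS (k + n') (mx g) : Sy ℤ_[p] (k + n') →ₗ[ℤ_[p]] Sy ℤ_[p] (k + n')) ^ d = 1)
    (J : AddSubgroup ℤ_[p][X]) (hJ : ∀ x, x ∈ J ↔ ∃ a b : ℤ_[p][X], a ∈ Pn p n' ∧
      b ∈ pPn p (k + n') j ∧ x = H * a + b) :
    kkf ℤ_[p] d g n' ≤ kkf ℤ_[p] d g (k + n') ∧
      J.relIndex (kerN (k + n') d g (Pn p (k + n')) J) ≠ 0 ∧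
      J.relIndex (kerN (k + n') d g (Pn p (k + n')) J) ≤
        p ^ (j * (kkf ℤ_[p] d g (k + n') - kkf ℤ_[p] d g n') + padicValNat p d * k) := by
  have hH0 : H ≠ 0 := by
    rintro rfl
    exact hp fun i => by simp
  set gA : Sy ℤ_[p] n' →ₗ[ℤ_[p]] Sy ℤ_[p] n' := actS n' (mx g) with hgA
  set gB : Sy ℤ_[p] (k + n') →ₗ[ℤ_[p]] Sy ℤ_[p] (k + n') := actS (k + n') (mx g) with hgB
  set μ := mulL H hk n' with hμ
  have hμe : ∀ a, μ (gA a) = gB (μ a) := mulL_equiv h2 H hk n' (mx g) hinv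
  set S := LinearMap.range μ with hS
  have hcomap : S ≤ S.comap gB := by
    rintro _ ⟨a, rfl⟩
    exact ⟨gA a, hμe a⟩
  set gC : (Sy ℤ_[p] (k + n') ⧸ S) →ₗ[ℤ_[p]] (Sy ℤ_[p] (k + n') ⧸ S) := S.mapQ S gB hcomap
    with hgC
  have hπC : ∀ b, S.mkQ (gB b) = gC (S.mkQ b) := fun b => rfl
  have htf : Module.IsTorsionFree ℤ_[p] (Sy ℤ_[p] (k + n') ⧸ S) := by
    rw [Module.isTorsionFree_iff_smul_eq_zero]
    intro r m hm
    by_cases hr : r = 0
    · exact Or.inl hr
    right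
    obtain ⟨f, rfl⟩ := S.mkQ_surjective m
    rw [← map_smul, Submodule.mkQ_apply, Submodule.Quotient.mk_eq_zero] at hm
    rw [Submodule.mkQ_apply, Submodule.Quotient.mk_eq_zero]
    obtain ⟨a, ha⟩ := hm
    have ha' : H * a.1 = Polynomial.C r * f.1 := by
      have := congrArg Subtype.val ha
      rw [mulL_val] at this
      rw [this]
      exact Polynomial.smul_eq_C_mul r
    have hr2 := PadicInt.unitCoeff_spec hr
    set u := PadicInt.unitCoeff hr
    set s := r.valuation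
    have hdv : (Polynomial.C (p : ℤ_[p])) ^ s ∣ a.1 := by
      refine Prime.pow_dvd_of_dvd_mul_left (Polynomial.prime_C_iff.2 PadicInt.prime_p) s
        (fun h => hp ((Polynomial.C_dvd_iff_dvd_coeff _ _).1 h)) ?_
      rw [ha', hr2, Polynomial.C_mul, Polynomial.C_pow]
      exact ⟨Polynomial.C (u : ℤ_[p]) * f.1, by ring⟩
    obtain ⟨a', ha2⟩ := hdv
    have h5 : f.1 = H * (Polynomial.C ((u⁻¹ : ℤ_[p]ˣ) : ℤ_[p]) * a') := by
      have h6 : Polynomial.C r ≠ 0 := Polynomial.C_ne_zero.2 hr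
      apply mul_left_cancel₀ h6
      rw [← ha', ha2]
      conv_rhs => rw [hr2]
      rw [Polynomial.C_mul, Polynomial.C_pow]
      have h7 : Polynomial.C (u : ℤ_[p]) * Polynomial.C ((u⁻¹ : ℤ_[p]ˣ) : ℤ_[p]) = 1 := by
        rw [← Polynomial.C_mul, Units.mul_inv, Polynomial.C_1]
      linear_combination (-(H * Polynomial.C (p : ℤ_[p]) ^ s * a')) * h7
    have hpow : ((p : ℤ_[p]) ^ s) ≠ 0 := pow_ne_zero _ PadicInt.prime_p.ne_zero
    refine ⟨⟨Polynomial.C ((u⁻¹ : ℤ_[p]ˣ) : ℤ_[p]) * a', ?_⟩, Subtype.ext h5.symm⟩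
    change (Polynomial.C ((u⁻¹ : ℤ_[p]ˣ) : ℤ_[p]) * a').natDegree ≤ n'
    refine (Polynomial.natDegree_C_mul_le _ _).trans ?_
    have h8 : a.1.natDegree ≤ n' := a.2
    rw [ha2, ← Polynomial.C_pow, Polynomial.natDegree_C_mul hpow] at h8
    exact h8
  have hfree : Module.Free ℤ_[p] (Sy ℤ_[p] (k + n') ⧸ S) :=
    Module.free_of_finite_type_torsion_free'
  have hrank : Module.finrank ℤ_[p] (Sy ℤ_[p] (k + n') ⧸ S) = k := by
    have h5 := Submodule.finrank_quotient_add_finrank S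
    rw [LinearMap.finrank_range_of_inj (mulL_inj H hk n' hH0), finrank_Sy, finrank_Sy] at h5
    omega
  have hd0 : ((d : ℕ) : ℤ_[p]) ≠ 0 := by
    rw [Nat.cast_ne_zero]
    omega
  have hadd := add_ker gA gB gC μ S.mkQ (mulL_inj H hk n' hH0) S.mkQ_surjective
    (fun b => by rw [Submodule.mkQ_apply, Submodule.Quotient.mk_eq_zero]; exact Iff.rfl)
    hμe hπC d hd0 hg
  have hgCd : gC ^ d = 1 := by
    have h5 : ∀ i b, S.mkQ ((gB ^ i) b) = (gC ^ i) (S.mkQ b) := by
      intro i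
      induction i with
      | zero => intro b; simp
      | succ i ih =>
        intro b
        rw [pow_succ, pow_succ]
        change S.mkQ ((gB ^ i) (gB b)) = (gC ^ i) (gC (S.mkQ b))
        rw [ih, hπC]
    apply LinearMap.ext
    intro x
    obtain ⟨b, rfl⟩ := S.mkQ_surjective x
    rw [← h5, hg]
    rfl
  have hkk : kkf ℤ_[p] d g (k + n') = kkf ℤ_[p] d g n' +
      Module.finrank ℤ_[p] (LinearMap.ker (NN d gC)) := hadd
  refine ⟨by omega, ?_⟩
  have hkC : kkf ℤ_[p] d g (k + n') - kkf ℤ_[p] d g n' =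
      Module.finrank ℤ_[p] (LinearMap.ker (NN d gC)) := by omega
  rw [hkC]
  -- the subgroups
  set π : Sy ℤ_[p] (k + n') →+ (Sy ℤ_[p] (k + n') ⧸ S) := S.mkQ.toAddMonoidHom with hπ
  have hπs : Function.Surjective π := S.mkQ_surjective
  set JW := J.comap (io p (k + n')) with hJW
  set KW := (kerN (k + n') d g (Pn p (k + n')) J).comap (io p (k + n')) with hKW
  set Pj := JW.map π with hPj
  have hkerJ : π.ker ≤ JW := by
    intro x hx
    have hx' : x ∈ S := by
      have h5 : S.mkQ x = 0 := hx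
      rwa [Submodule.mkQ_apply, Submodule.Quotient.mk_eq_zero] at h5
    obtain ⟨a, rfl⟩ := hx'
    change (μ a).1 ∈ J
    rw [hJ]
    exact ⟨a.1, 0, a.2, (pPn p (k + n') j).zero_mem, by rw [add_zero]; rfl⟩
  have hPJ : Pj.comap π = JW := AddSubgroup.comap_map_eq_self hkerJ
  set Kj : AddSubgroup (Sy ℤ_[p] (k + n') ⧸ S) := Pj.comap (NN d gC).toAddMonoidHom with hKj
  have hKK : Kj.comap π = KW := by
    ext w
    change NN d gC (S.mkQ w) ∈ Pj ↔ (w.1 ∈ Pn p (k + n') ∧ Ng (k + n') d g w.1 ∈ J)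
    rw [← NN_equiv gB gC S.mkQ hπC d w, ← NN_Ng h1]
    have h5 : S.mkQ (NN d gB w) ∈ Pj ↔ NN d gB w ∈ JW := by
      rw [← hPJ]
      rfl
    rw [h5]
    exact ⟨fun h => ⟨w.2, h⟩, fun h => h.2⟩
  have hrel : J.relIndex (kerN (k + n') d g (Pn p (k + n')) J) = Pj.relIndex Kj := by
    rw [rel_io (k + n') _ _ (kerN_le _ _ _ _ _), ← hJW, ← hKW, ← hPJ, AddSubgroup.relIndex_comap,
      ← hKK, AddSubgroup.map_comap_eq_self_of_surjective hπs]
  rw [hrel]
  have h := h3 p (Sy ℤ_[p] (k + n') ⧸ S) gC d j hd hgCd Kj Pj ?_ ?_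
  · rw [hrank] at h
    exact h
  · intro x
    constructor
    · rintro ⟨w, hw, rfl⟩
      obtain ⟨a, b, ha, hb, hab⟩ := (hJ _).1 hw
      obtain ⟨y, hy⟩ := (mem_pPn (k + n') j ⟨b, hb.1⟩).1 hb
      refine ⟨S.mkQ y, ?_⟩
      have h5 : w = μ ⟨a, ha⟩ + ((p : ℤ_[p]) ^ j) • y := by
        apply Subtype.ext
        rw [← hy]
        exact hab
      change S.mkQ w = _
      rw [h5, map_add, map_smul]
      have h6 : S.mkQ (μ ⟨a, ha⟩) = 0 := by
        rw [Submodule.mkQ_apply, Submodule.Quotient.mk_eq_zero]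
        exact LinearMap.mem_range_self _ _
      rw [h6, zero_add]
    · rintro ⟨y, rfl⟩
      obtain ⟨v, rfl⟩ := S.mkQ_surjective y
      refine ⟨((p : ℤ_[p]) ^ j) • v, ?_, rfl⟩
      change (((p : ℤ_[p]) ^ j) • v).1 ∈ J
      rw [hJ]
      exact ⟨0, _, (Pn p n').zero_mem, (mem_pPn (k + n') j _).2 ⟨v, rfl⟩, by ring⟩
  · intro x
    rw [← NN_apply]
    rfl

end idx

end KK

open KK in
theorem bKK (h1 : BComp) (h2 : BMul) (h3 : BLat) (h4 : BH) : BKK := by
  intro p _ d e g hdeg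
  have hd1 : 1 ≤ d := by
    rcases hdeg with ⟨h, -, -⟩ | ⟨h, -, -⟩ <;> omega
  have he1 : 1 ≤ e := by
    rcases hdeg with ⟨-, h, -⟩ | ⟨-, h, -⟩ <;> omega
  have hge : g ^ e = 1 := by
    rcases hdeg with ⟨-, rfl, rfl⟩ | ⟨-, rfl, rfl⟩
    · rw [show 4 = 2 * 2 by norm_num, pow_mul, gS_pow]
      simp
    · exact gV_pow
  have hpow : ∀ n, (d = 2 → Even n) →
      (actS n (mx g) : Sy ℤ_[p] n →ₗ[ℤ_[p]] Sy ℤ_[p] n) ^ d = 1 := by
    intro n hn
    rcases hdeg with ⟨rfl, -, rfl⟩ | ⟨rfl, -, rfl⟩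
    · exact pow_S h1 n (hn rfl)
    · exact pow_V h1 n
  refine ⟨fun n => kkf ℤ_[p] d g n, ?_, ?_, ?_⟩
  · intro n hn
    rcases hdeg with ⟨rfl, -, rfl⟩ | ⟨rfl, -, rfl⟩
    · obtain ⟨b1, b2⟩ := bound_S (R := ℤ_[p]) h1 h2 two_ne_zero n (hn rfl)
      have c1 : (n : ℝ) ≤ 2 * (kkf ℤ_[p] 2 mS n : ℝ) + 1 := by exact_mod_cast b1
      have c2 : 2 * (kkf ℤ_[p] 2 mS n : ℝ) ≤ (n : ℝ) + 3 := by exact_mod_cast b2
      rw [abs_le]
      push_cast
      constructor <;> nlinarith
    · obtain ⟨b1, b2⟩ := bound_V (R := ℤ_[p]) h1 h2 (OfNat.ofNat_ne_zero 3) n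
      have c1 : 2 * (n : ℝ) ≤ 3 * (kkf ℤ_[p] 3 mV n : ℝ) + 1 := by exact_mod_cast b1
      have c2 : 3 * (kkf ℤ_[p] 3 mV n : ℝ) ≤ 2 * (n : ℝ) + 5 := by exact_mod_cast b2
      rw [abs_le]
      push_cast
      constructor <;> nlinarith
  · intro n j hn
    exact clause2 h1 h3 d hd1 g n j (hpow n hn)
  · intro n j hn hle J hJ
    obtain ⟨b1, b2, -, -, b3⟩ := h4 p e g hge he1
    obtain ⟨n', rfl⟩ := Nat.exists_eq_add_of_le hle
    rw [Nat.add_sub_cancel_left] at hJ ⊢
    exact clause3 h1 h2 h3 d hd1 g (e * (p + 1)) n' j (HH p e g) b1 b2 b3 (hpow _ hn) J hJ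

end Gou

end
end

section

/-!
MP_602313_nt, module B, item BKerI: the kernel of the norm operators on `Sym / I_m`.
-/

open scoped MatrixGroups Polynomial
open CongruenceSubgroup

noncomputable section

namespace Gou

namespace KerAux

variable {p : ℕ} [Fact p.Prime]

/-- The third clause of `BKK`. -/
def KK3 (p : ℕ) [Fact p.Prime] (d e : ℕ) (g : SL(2, ℤ)) (kk : ℕ → ℕ) : Prop :=
    ∀ n j, (d = 2 → Even n) → e * (p + 1) ≤ n →
      ∀ J : AddSubgroup ℤ_[p][X], (∀ x, x ∈ J ↔ ∃ a b : ℤ_[p][X], a ∈ Pn p (n - e * (p + 1)) ∧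
        b ∈ pPn p n j ∧ x = HH p e g * a + b) →
      kk (n - e * (p + 1)) ≤ kk n ∧
      J.relIndex (kerN n d g (Pn p n) J) ≠ 0 ∧
      J.relIndex (kerN n d g (Pn p n) J) ≤
        p ^ (j * (kk n - kk (n - e * (p + 1))) + padicValNat p d * (e * (p + 1)))

/-- One step of the recursion. -/
theorem ker_step (hH : BH) (hP : BProd) (hC : BCard) (hM : BMul) (hcomp : BComp)
    (d e : ℕ) (g : SL(2, ℤ)) (hg : g ^ e = 1) (he : 1 ≤ e) (kk : ℕ → ℕ) (h3 : KK3 p d e g kk)
    (n m : ℕ) (hpar : d = 2 → Even n) (hem : e ≤ m) (hmn : (p + 1) * m ≤ n) :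
    (Ip p n m).relIndex (kerN n d g (Pn p n) (Ip p n m)) ≤
      (Ip p (n - e * (p + 1)) (m - e)).relIndex (kerN (n - e * (p + 1)) d g
        (Pn p (n - e * (p + 1))) (Ip p (n - e * (p + 1)) (m - e))) *
      p ^ (m * (kk n - kk (n - e * (p + 1))) + padicValNat p d * (e * (p + 1))) := by
  obtain ⟨hH1, hH2, hH3, -, -⟩ := hH p e g hg he
  obtain ⟨hP1, -, hP3, hP4, -, -, hP7, hP8⟩ := hP p
  set E := e * (p + 1) with hE
  have hEn : E ≤ n := by
    refine le_trans ?_ hmn
    rw [hE, mul_comm]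
    exact Nat.mul_le_mul_left _ hem
  have hinv : Inv E g (HH p e g) := Inv.of_one hcomp E g _ hH1 hH2
  have hm' : (p + 1) * (m - e) ≤ n - E := by
    rw [Nat.mul_sub, hE, mul_comm e]
    exact Nat.sub_le_sub_right hmn _
  set μ : ℤ_[p][X] →+ ℤ_[p][X] := AddMonoidHom.mulLeft (HH p e g) with hμ
  set J1 := (Pn p (n - E)).map μ ⊔ Ip p n m with hJ1
  set J2 := (Pn p (n - E)).map μ ⊔ pPn p n m with hJ2
  have hμP : (Pn p (n - E)).map μ ≤ Pn p n := by
    rintro _ ⟨x, hx, rfl⟩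
    exact mul_mem_Pn hH1 hx (by omega)
  have hJ1P : J1 ≤ Pn p n := sup_le hμP (Ip_le n m)
  have hJ2P : J2 ≤ Pn p n := sup_le hμP (pPn_le n m)
  have hJ21 : J2 ≤ J1 := sup_le_sup_left (hP3 n m) _
  have hIfin : (Ip p n m).relIndex (Pn p n) ≠ 0 := (hC p n m hmn).2
  have hcommP : ∀ x ∈ Pn p (n - E), NgH n d g (μ x) = μ (NgH (n - E) d g x) := by
    intro x hx
    exact Ng_mul hM hinv d hEn x hx
  have hst2 : J2.map (NgH n d g) ≤ J2 := by
    rw [hJ2, AddSubgroup.map_sup]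
    refine sup_le_sup ?_ (NgH_stab n d g _ (hP7 n m))
    rintro _ ⟨_, ⟨x, hx, rfl⟩, rfl⟩
    refine ⟨NgH (n - E) d g x, ?_, (hcommP x hx).symm⟩
    exact NgH_stab (n - E) d g _ (hP8 (n - E)) ⟨x, hx, rfl⟩
  have hst1 : J1.map (NgH n d g) ≤ J1 := by
    rw [hJ1, AddSubgroup.map_sup]
    refine sup_le_sup ?_ (NgH_stab n d g _ (hP4 n m))
    rintro _ ⟨_, ⟨x, hx, rfl⟩, rfl⟩
    refine ⟨NgH (n - E) d g x, ?_, (hcommP x hx).symm⟩
    exact NgH_stab (n - E) d g _ (hP8 (n - E)) ⟨x, hx, rfl⟩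
  have hJ2fin : J2.relIndex (Pn p n) ≠ 0 :=
    relIndex_ne_of_le_left le_sup_right (pPn_index_ne n m)
  have hJ1fin : J1.relIndex (Pn p n) ≠ 0 := relIndex_ne_of_le_left le_sup_right hIfin
  -- first factor
  have f1 : (Ip p n m).relIndex (J1 ⊓ (Ip p n m).comap (NgH n d g)) ≤
      (Ip p (n - E) (m - e)).relIndex (Pn p (n - E) ⊓
        (Ip p (n - E) (m - e)).comap (NgH (n - E) d g)) := by
    refine ker_quot (NgH n d g) (NgH (n - E) d g) μ (Pn p (n - E)) (Ip p (n - E) (m - e))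
      (Ip p n m) J1 (Ip_le _ _) (NgH_stab _ _ _ _ (hP8 _)) (NgH_stab _ _ _ _ (hP4 _ _))
      (hC p _ _ hm').2 hJ1 (NgH_stab _ _ _ _ (hP4 _ _)) (relIndex_ne_of_le_right hJ1P hIfin)
      hcommP ?_
    rintro _ ⟨x, hx, rfl⟩
    have h4 := hP1 E (n - E) e (m - e) (HH p e g) x hH3 hx
    have h5 : E + (n - E) = n := by omega
    have h6 : e + (m - e) = m := by omega
    rw [h5, h6] at h4
    exact h4
  -- second factor
  have f2 : J1.relIndex (Pn p n ⊓ J1.comap (NgH n d g)) ≤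
      J2.relIndex (Pn p n ⊓ J2.comap (NgH n d g)) := by
    refine ker_quot (NgH n d g) (NgH n d g) (AddMonoidHom.id _) (Pn p n) J2 J1 (Pn p n) hJ2P
      (NgH_stab _ _ _ _ (hP8 _)) hst2 hJ2fin ?_ hst1 hJ1fin (fun x _ => rfl) ?_
    · rw [AddSubgroup.map_id, sup_eq_left.2 hJ1P]
    · rw [AddSubgroup.map_id]
      exact hJ21
  have f3 := h3 n m hpar hEn J2 (by
    intro x
    rw [hJ2, AddSubgroup.mem_sup]
    constructor
    · rintro ⟨_, ⟨a, ha, rfl⟩, b, hb, rfl⟩
      exact ⟨a, b, ha, hb, rfl⟩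
    · rintro ⟨a, b, ha, hb, rfl⟩
      exact ⟨_, ⟨a, ha, rfl⟩, b, hb, rfl⟩)
  rw [← hE, kerN_eq] at f3
  have f4 := ker_comb (NgH n d g) (Pn p n) (Ip p n m) J1 le_sup_right hJ1P
    (relIndex_ne_of_le_right inf_le_left hJ1fin)
  rw [kerN_eq, kerN_eq]
  calc _ ≤ _ := f4
    _ ≤ _ := Nat.mul_le_mul f1 (f2.trans f3.2.2)

theorem ker_ne (hC : BCard) (d : ℕ) (g : SL(2, ℤ)) (n m : ℕ) (hmn : (p + 1) * m ≤ n) :
    (Ip p n m).relIndex (kerN n d g (Pn p n) (Ip p n m)) ≠ 0 :=
  relIndex_ne_of_le_right (fun _ hx => hx.1) (hC p n m hmn).2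

/-- The bound. -/
theorem ker_bound (hH : BH) (hP : BProd) (hC : BCard) (hM : BMul) (hcomp : BComp)
    (d e : ℕ) (g : SL(2, ℤ)) (hg : g ^ e = 1) (he : 1 ≤ e) (hd : 1 ≤ d) (hde : d = 2 → e = 4)
    (kk : ℕ → ℕ)
    (h1 : ∀ n, (d = 2 → Even n) → |(kk n : ℝ) - (1 - 1 / (d : ℝ)) * ((n : ℝ) + 1)| ≤ 1)
    (h3 : KK3 p d e g kk) :
    ∀ m n : ℕ, (d = 2 → Even n) → (p + 1) * m ≤ n →
      Real.logb p ((Ip p n m).relIndex (kerN n d g (Pn p n) (Ip p n m))) ≤
        (1 - 1 / (d : ℝ)) * ((p : ℝ) + 1) * ((m : ℝ) ^ 2 / 2 + e * m / 2)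
          + m * ((kk n : ℝ) - (1 - 1 / (d : ℝ)) * ((n : ℝ) + 1))
          + (1 + padicValNat p d * ((p : ℝ) + 1)) * m + ((p : ℝ) + 1) * (e : ℝ) ^ 2 := by
  have hp : 1 < (p : ℝ) := by exact_mod_cast (Fact.out : p.Prime).one_lt
  have hp0 : 0 < (p : ℝ) := by linarith
  have hc0 : 0 ≤ 1 - 1 / (d : ℝ) := by
    rw [sub_nonneg, div_le_one (by exact_mod_cast hd)]
    exact_mod_cast hd
  intro m
  induction m using Nat.strong_induction_on with
  | _ m ih =>
    intro n hpar hmn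
    have hk := abs_le.1 (h1 n hpar)
    have hm0 : (0 : ℝ) ≤ m := Nat.cast_nonneg m
    have he0 : (0 : ℝ) ≤ e := Nat.cast_nonneg e
    have hv0 : (0 : ℝ) ≤ padicValNat p d := Nat.cast_nonneg _
    rcases lt_or_ge m e with hlt | hge
    · have b1 : (Ip p n m).relIndex (kerN n d g (Pn p n) (Ip p n m)) ≤
          (Ip p n m).relIndex (Pn p n) :=
        AddSubgroup.relIndex_le_of_le_right (fun _ hx => hx.1) (hC p n m hmn).2
      have b2 : Real.logb p ((Ip p n m).relIndex (kerN n d g (Pn p n) (Ip p n m))) ≤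
          Real.logb p ((Ip p n m).relIndex (Pn p n)) := by
        refine Real.logb_le_logb_of_le hp ?_ (by exact_mod_cast b1)
        exact_mod_cast Nat.pos_of_ne_zero (ker_ne hC d g n m hmn)
      have b3 := (hC p n m hmn).1
      have b4 : (m : ℝ) + 1 ≤ e := by exact_mod_cast hlt
      have b5 : ((p : ℝ) + 1) * m * (m + 1) ≤ ((p : ℝ) + 1) * (e : ℝ) ^ 2 := by
        have : (m : ℝ) * (m + 1) ≤ (e : ℝ) * e := mul_le_mul (by linarith) b4 (by linarith) he0
        calc ((p : ℝ) + 1) * m * (m + 1) = ((p : ℝ) + 1) * (m * (m + 1)) := by ring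
          _ ≤ ((p : ℝ) + 1) * (e * e) := mul_le_mul_of_nonneg_left this (by linarith)
          _ = _ := by ring
      have b6 : 0 ≤ ((p : ℝ) + 1) * m * (m + 1) := by positivity
      have b7 : 0 ≤ (1 - 1 / (d : ℝ)) * ((p : ℝ) + 1) * ((m : ℝ) ^ 2 / 2 + e * m / 2) := by
        refine mul_nonneg (mul_nonneg hc0 (by linarith)) (by positivity)
      have b8 : -(m : ℝ) ≤ m * ((kk n : ℝ) - (1 - 1 / (d : ℝ)) * ((n : ℝ) + 1)) := by
        have := mul_le_mul_of_nonneg_left hk.1 hm0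
        linarith
      have b9 : 0 ≤ padicValNat p d * ((p : ℝ) + 1) * m := by positivity
      linarith
    · have s1 := ker_step hH hP hC hM hcomp d e g hg he kk h3 n m hpar hge hmn
      set E := e * (p + 1) with hE
      have hEn : E ≤ n := by
        refine le_trans ?_ hmn
        rw [hE, mul_comm]
        exact Nat.mul_le_mul_left _ hge
      have hm' : (p + 1) * (m - e) ≤ n - E := by
        rw [Nat.mul_sub, hE, mul_comm e]
        exact Nat.sub_le_sub_right hmn _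
      have hpar' : d = 2 → Even (n - E) := by
        intro hd2
        have h4 := hpar hd2
        have h5 : Even E := by
          rw [hE, hde hd2]
          exact ⟨2 * (p + 1), by ring⟩
        exact (Nat.even_sub hEn).2 (iff_of_true h4 h5)
      have s2 := ih (m - e) (by omega) (n - E) hpar' hm'
      have s3 := ker_ne (p := p) hC d g (n - E) (m - e) hm'
      have s4 : Real.logb p ((Ip p n m).relIndex (kerN n d g (Pn p n) (Ip p n m))) ≤
          Real.logb p ((Ip p (n - E) (m - e)).relIndex (kerN (n - E) d g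
            (Pn p (n - E)) (Ip p (n - E) (m - e)))) +
          ((m : ℝ) * ((kk n : ℝ) - kk (n - E)) + padicValNat p d * (e * ((p : ℝ) + 1))) := by
        have t1 : (((Ip p n m).relIndex (kerN n d g (Pn p n) (Ip p n m)) : ℕ) : ℝ) ≤
            (((Ip p (n - E) (m - e)).relIndex (kerN (n - E) d g
            (Pn p (n - E)) (Ip p (n - E) (m - e))) : ℕ) : ℝ) *
            (p : ℝ) ^ (m * (kk n - kk (n - E)) + padicValNat p d * E) := by
          exact_mod_cast s1
        have t2 : (0 : ℝ) < (((Ip p n m).relIndex (kerN n d g (Pn p n) (Ip p n m)) : ℕ) : ℝ) := by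
          exact_mod_cast Nat.pos_of_ne_zero (ker_ne hC d g n m hmn)
        have t3 : (((Ip p (n - E) (m - e)).relIndex (kerN (n - E) d g
            (Pn p (n - E)) (Ip p (n - E) (m - e))) : ℕ) : ℝ) ≠ 0 := by
          exact_mod_cast s3
        have t4 := Real.logb_le_logb_of_le hp t2 t1
        rw [Real.logb_mul t3 (by positivity), Real.logb_pow, Real.logb_self_eq_one hp,
          mul_one] at t4
        have hkk : kk (n - E) ≤ kk n := by
          refine (h3 n m hpar hEn ((Pn p (n - E)).map (AddMonoidHom.mulLeft (HH p e g)) ⊔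
            pPn p n m) ?_).1
          intro x
          rw [AddSubgroup.mem_sup]
          constructor
          · rintro ⟨_, ⟨a, ha, rfl⟩, b, hb, rfl⟩
            exact ⟨a, b, ha, hb, rfl⟩
          · rintro ⟨a, b, ha, hb, rfl⟩
            exact ⟨_, ⟨a, ha, rfl⟩, b, hb, rfl⟩
        have hEc : (E : ℝ) = e * ((p : ℝ) + 1) := by
          rw [hE]
          push_cast
          ring
        rw [Nat.cast_add, Nat.cast_mul, Nat.cast_mul, Nat.cast_sub hkk, hEc] at t4
        exact t4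
      have hk' := abs_le.1 (h1 (n - E) hpar')
      have hcast1 : ((n - E : ℕ) : ℝ) = (n : ℝ) - e * ((p : ℝ) + 1) := by
        rw [Nat.cast_sub hEn, hE]
        push_cast
        ring
      have hcast2 : ((m - e : ℕ) : ℝ) = (m : ℝ) - e := by
        rw [Nat.cast_sub hge]
      rw [hcast2, hcast1] at s2
      rw [hcast1] at hk'
      set c := 1 - 1 / (d : ℝ) with hc
      have key : -(e : ℝ) * ((kk (n - E) : ℝ) - c * ((n : ℝ) - e * ((p : ℝ) + 1) + 1)) ≤ e := by
        have := mul_le_mul_of_nonneg_left hk'.1 he0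
        linarith
      refine s4.trans ?_
      refine (add_le_add_left s2 _).trans ?_
      have hfin : c * ((p : ℝ) + 1) * (((m : ℝ) - e) ^ 2 / 2 + e * ((m : ℝ) - e) / 2)
          + ((m : ℝ) - e) * ((kk (n - E) : ℝ) - c * ((n : ℝ) - e * ((p : ℝ) + 1) + 1))
          + (1 + padicValNat p d * ((p : ℝ) + 1)) * ((m : ℝ) - e) + ((p : ℝ) + 1) * (e : ℝ) ^ 2
          + ((m : ℝ) * ((kk n : ℝ) - kk (n - E)) + padicValNat p d * (e * ((p : ℝ) + 1)))
          = c * ((p : ℝ) + 1) * ((m : ℝ) ^ 2 / 2 + e * m / 2)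
          + m * ((kk n : ℝ) - c * ((n : ℝ) + 1))
          + (1 + padicValNat p d * ((p : ℝ) + 1)) * m + ((p : ℝ) + 1) * (e : ℝ) ^ 2
          + (-(e : ℝ) * ((kk (n - E) : ℝ) - c * ((n : ℝ) - e * ((p : ℝ) + 1) + 1)) - e) := by
        ring
      linarith

theorem mS_pow : mS ^ 4 = 1 := by
  ext i j
  fin_cases i <;> fin_cases j <;> simp [mS, pow_succ, Matrix.mul_apply, Fin.sum_univ_two]

theorem mV_pow : mV ^ 3 = 1 := by
  ext i j
  fin_cases i <;> fin_cases j <;> simp [mV, pow_succ, Matrix.mul_apply, Fin.sum_univ_two]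

end KerAux

open KerAux

theorem bKerI (h1 : BKK) (h2 : BH) (h3 : BProd) (h4 : BCard) (h5 : BMul) (h6 : BComp) :
    BKerI := by
  intro p _
  obtain ⟨k2, k21, -, k23⟩ := h1 p 2 4 mS (Or.inl ⟨rfl, rfl, rfl⟩)
  obtain ⟨k3, k31, -, k33⟩ := h1 p 3 3 mV (Or.inr ⟨rfl, rfl, rfl⟩)
  have hp : 1 < (p : ℝ) := by exact_mod_cast (Fact.out : p.Prime).one_lt
  refine ⟨3 * ((p : ℝ) + 1) + 2 + (padicValNat p 2 + padicValNat p 3 : ℝ) * ((p : ℝ) + 1)
    + 16 * ((p : ℝ) + 1), by positivity, ?_⟩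
  intro n m hn hmn
  have hm0 : (0 : ℝ) ≤ m := Nat.cast_nonneg m
  have hv2 : (0 : ℝ) ≤ (padicValNat p 2 : ℝ) * ((p : ℝ) + 1) := by positivity
  have hv3 : (0 : ℝ) ≤ (padicValNat p 3 : ℝ) * ((p : ℝ) + 1) := by positivity
  constructor
  · have b := ker_bound h2 h3 h4 h5 h6 2 4 mS mS_pow (by norm_num) (by norm_num)
      (fun _ => rfl) k2 k21 k23 m n (fun _ => hn) hmn
    have b2 := (abs_le.1 (k21 n (fun _ => hn))).2
    have b3 := mul_le_mul_of_nonneg_left b2 hm0
    refine b.trans ?_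
    push_cast at b3 ⊢
    norm_num at b3 ⊢
    nlinarith [mul_nonneg hm0 hv2, mul_nonneg hm0 hv3, mul_nonneg hm0 (by linarith : (0:ℝ) ≤ (p:ℝ) + 1)]
  · have b := ker_bound h2 h3 h4 h5 h6 3 3 mV mV_pow (by norm_num) (by norm_num)
      (fun h => by omega) k3 k31 k33 m n (fun _ => hn) hmn
    have b2 := (abs_le.1 (k31 n (fun h => by omega))).2
    have b3 := mul_le_mul_of_nonneg_left b2 hm0
    refine b.trans ?_
    push_cast at b3 ⊢
    norm_num at b3 ⊢
    nlinarith [mul_nonneg hm0 hv2, mul_nonneg hm0 hv3, mul_nonneg hm0 (by linarith : (0:ℝ) ≤ (p:ℝ) + 1)]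

end Gou

end
end
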