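import Pool.Agent.Work.MP_602313_nt.Bd.B17
import Pool.Agent.Work.MP_602313_nt.Bd.B05
import Pool.Agent.Work.MP_602313_nt.Bd.B18
import Pool.Agent.Work.MP_602313_nt.Bd.B07
import Pool.Agent.Work.MP_602313_nt.Bd.B15
import Pool.Agent.Work.MP_602313_nt.Bd.B06
import Pool.Agent.Work.MP_602313_nt.Bd.B09
import Pool.Agent.Work.MP_602313_nt.Bd.B10
import Pool.Agent.Work.MP_602313_nt.Bd.B11
import Pool.Agent.Work.MP_602313_nt.Bd.B14
import Pool.Agent.Work.MP_602313_nt.B.BComp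
import Pool.Agent.Work.MP_602313_nt.Bd.B13
import Pool.Agent.Work.MP_602313_nt.B.BImage
import Pool.Agent.Work.MP_602313_nt.Bd.B04
import Pool.Agent.Work.MP_602313_nt.D.D16P

/-! Bundle of small proof modules (one section per former module). -/

section

/-!
E6a. The valuations of the roots of `x^2 - a x + p^(k-1)`.
-/

open scoped Polynomial

noncomputable section

namespace Gou

theorem e6a_two {K : Type*} [Field K] [IsAlgClosed K] (b c : K) :
    ∃ α β : K, (Polynomial.X ^ 2 - Polynomial.C b * Polynomial.X + Polynomial.C c : K[X]).roots =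
      {α, β} ∧ α + β = b ∧ α * β = c := by
  set P : K[X] := Polynomial.X ^ 2 - Polynomial.C b * Polynomial.X + Polynomial.C c with hP
  have hdeg : P.natDegree = 2 := by rw [hP]; compute_degree!
  have hmon : P.Monic := by rw [hP]; monicity!
  have hcard : Multiset.card P.roots = 2 := by
    rw [← hdeg]
    exact Polynomial.splits_iff_card_roots.1 (IsAlgClosed.splits P)
  obtain ⟨α, β, hαβ⟩ := Multiset.card_eq_two.1 hcard
  refine ⟨α, β, hαβ, ?_, ?_⟩
  · have h1 := (IsAlgClosed.splits P).eq_prod_roots_of_monic hmon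
    rw [hαβ] at h1
    simp only [Multiset.insert_eq_cons, Multiset.map_cons, Multiset.map_singleton,
      Multiset.prod_cons, Multiset.prod_singleton] at h1
    have h2 := congrArg (Polynomial.eval (1 : K)) h1
    have h3 := congrArg (Polynomial.eval (0 : K)) h1
    rw [hP] at h2 h3
    simp at h2 h3
    linear_combination h2 - h3
  · have h1 := (IsAlgClosed.splits P).eval_eq_prod_roots_of_monic hmon 0
    rw [hαβ] at h1
    rw [hP] at h1
    simp at h1
    exact h1.symm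

theorem e6a (h0 : E0NA) : ERoots := by
  intro p hpf ι a k hk _
  have hp : p.Prime := hpf.out
  have hp0 : (0 : ℝ) < p := by exact_mod_cast hp.pos
  have hp1 : (1 : ℝ) < p := by exact_mod_cast hp.one_lt
  have hna := h0 p ι
  have hum : ∀ x y : PadicAlgCl p, ‖x + y‖ ≤ max ‖x‖ ‖y‖ := by
    intro x y
    have h1 := hna.na (ι.symm x) (ι.symm y)
    have h2 : ∀ z : ℂ, avI ι z = ‖ι z‖ := fun _ => rfl
    rw [h2, h2, h2, map_add, RingEquiv.apply_symm_apply, RingEquiv.apply_symm_apply] at h1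
    exact h1
  have hpn : ‖(p : PadicAlgCl p)‖ = (p : ℝ)⁻¹ := by
    have h1 := hna.hp
    have h2 : avI ι (p : ℂ) = ‖ι (p : ℂ)‖ := rfl
    rw [h2, map_natCast] at h1
    exact h1
  obtain ⟨α, β, hr, hs, hm⟩ := e6a_two (ι a) ((p : PadicAlgCl p) ^ (k - 1))
  rw [hr]
  have hprod : ‖α‖ * ‖β‖ = (p : ℝ) ^ (-((k : ℝ) - 1)) := by
    rw [← norm_mul, hm, norm_pow, hpn, inv_pow, Real.rpow_neg hp0.le]
    congr 1
    rw [← Real.rpow_natCast]
    congr 1
    push_cast [Nat.cast_sub (by omega : 1 ≤ k)]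
    ring
  -- the symmetric statement
  have key : ∀ α β : PadicAlgCl p, ‖β‖ ≤ ‖α‖ → α + β = ι a →
      ‖α‖ * ‖β‖ = (p : ℝ) ^ (-((k : ℝ) - 1)) →
      vAlg p α = ws p (avI ι) (((k : ℝ) - 1) / 2) a ∧
        vAlg p β = ((k : ℝ) - 1) - ws p (avI ι) (((k : ℝ) - 1) / 2) a := by
    intro α β hle hs hprod
    set w : ℝ := ((k : ℝ) - 1) / 2 with hw
    have hpw : (p : ℝ) ^ (-w) * (p : ℝ) ^ (-w) = (p : ℝ) ^ (-((k : ℝ) - 1)) := by
      rw [← Real.rpow_add hp0]
      congr 1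
      rw [hw]
      ring
    have hpw0 : 0 < (p : ℝ) ^ (-w) := Real.rpow_pos_of_pos hp0 _
    have hα0 : 0 ≤ ‖α‖ := norm_nonneg α
    have hβ0 : 0 ≤ ‖β‖ := norm_nonneg β
    have hα : (p : ℝ) ^ (-w) ≤ ‖α‖ := by
      by_contra hcon
      push Not at hcon
      nlinarith
    have hβ : ‖β‖ ≤ (p : ℝ) ^ (-w) := by
      by_contra hcon
      push Not at hcon
      nlinarith
    have hαpos : 0 < ‖α‖ := hpw0.trans_le hα
    have hmax : max (avI ι a) ((p : ℝ) ^ (-w)) = ‖α‖ := by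
      have h2 : avI ι a = ‖α + β‖ := by rw [hs]; rfl
      rw [h2]
      rcases lt_or_eq_of_le hle with h | h
      · have h3 : ‖α + β‖ ≤ ‖α‖ := (hum α β).trans (max_le le_rfl hle)
        have h4 : ‖α‖ ≤ ‖α + β‖ := by
          have h5 := hum (α + β) (-β)
          rw [add_neg_cancel_right, norm_neg] at h5
          rcases le_max_iff.1 h5 with h6 | h6
          · exact h6
          · exact absurd h6 (not_le.2 h)
        rw [le_antisymm h3 h4]
        exact max_eq_left hα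
      · have h3 : ‖α‖ = (p : ℝ) ^ (-w) := le_antisymm (h ▸ hβ) hα
        rw [h3]
        refine max_eq_right ?_
        rw [← h3]
        exact (hum α β).trans (max_le le_rfl hle)
    have h1 : vAlg p α = ws p (avI ι) w a := by
      rw [vAlg, ws, hmax]
    refine ⟨h1, ?_⟩
    rw [← h1, vAlg, vAlg]
    have hβpos : 0 < ‖β‖ := by
      rcases hβ0.lt_or_eq with h | h
      · exact h
      · rw [← h, mul_zero] at hprod
        exact absurd hprod (Real.rpow_pos_of_pos hp0 _).ne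
    have h3 := congrArg (Real.logb p) hprod
    rw [Real.logb_mul hαpos.ne' hβpos.ne', Real.logb_rpow hp0 hp1.ne'] at h3
    linarith
  rcases le_total ‖β‖ ‖α‖ with h | h
  · obtain ⟨h1, h2⟩ := key α β h hs hprod
    simp only [Multiset.insert_eq_cons, Multiset.map_cons, Multiset.map_singleton, h1, h2]
  · obtain ⟨h1, h2⟩ := key β α h (by rw [add_comm]; exact hs) (by rw [mul_comm]; exact hprod)
    simp only [Multiset.insert_eq_cons, Multiset.map_cons, Multiset.map_singleton, h1, h2]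
    exact Multiset.cons_swap _ _ 0

end Gou

end
end

section

/-!
E7: pure analysis. Means of `min t s` determine the limit distribution.
-/

open MeasureTheory Filter Topology

noncomputable section

namespace Gou

namespace E7

/-- The mean of `G (t / (n + 1))`. -/
def L (A : ℕ → Multiset ℝ) (G : ℝ → ℝ) (n : ℕ) : ℝ :=
  (1 / (Multiset.card (A n) : ℝ)) * ((A n).map fun t => G (t / ((n : ℝ) + 1))).sum

/-- Even numbers tending to infinity. -/
def F : Filter ℕ := atTop ⊓ 𝓟 {n : ℕ | Even n}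

/-- The limit. -/
def Lam (p : ℕ) (G : ℝ → ℝ) : ℝ := ((p : ℝ) + 1) * ∫ x in (0 : ℝ)..(1 / ((p : ℝ) + 1)), G x

lemma F_le : F ≤ atTop := inf_le_left

lemma ev_F {P : ℕ → Prop} : (∀ᶠ n in F, P n) ↔ ∀ᶠ n in atTop, Even n → P n :=
  Filter.eventually_inf_principal

lemma L_add (A : ℕ → Multiset ℝ) (G H : ℝ → ℝ) (n : ℕ) :
    L A (fun x => G x + H x) n = L A G n + L A H n := by
  unfold L
  rw [Multiset.sum_map_add]
  ring

lemma L_smul (A : ℕ → Multiset ℝ) (G : ℝ → ℝ) (c : ℝ) (n : ℕ) :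
    L A (fun x => c * G x) n = c * L A G n := by
  unfold L
  rw [Multiset.sum_map_mul_left]
  ring

lemma L_const (A : ℕ → Multiset ℝ) (c : ℝ) (n : ℕ) (h : Multiset.card (A n) ≠ 0) :
    L A (fun _ => c) n = c := by
  unfold L
  have h' : (Multiset.card (A n) : ℝ) ≠ 0 := by exact_mod_cast h
  simp only [Multiset.map_const', Multiset.sum_replicate, nsmul_eq_mul]
  field_simp

lemma L_mono {A : ℕ → Multiset ℝ} (hA : ∀ n, ∀ t ∈ A n, 0 ≤ t ∧ t ≤ ((n : ℝ) + 1) / 2)
    {G H : ℝ → ℝ} (h : ∀ x, 0 ≤ x → x ≤ 1 / 2 → G x ≤ H x) (n : ℕ) : L A G n ≤ L A H n := by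
  unfold L
  apply mul_le_mul_of_nonneg_left _ (by positivity)
  apply Multiset.sum_map_le_sum_map
  intro t ht
  obtain ⟨h0, h1⟩ := hA n t ht
  have hn : (0 : ℝ) < (n : ℝ) + 1 := by positivity
  apply h
  · positivity
  · rw [div_le_iff₀ hn]
    linarith

lemma L_close {A : ℕ → Multiset ℝ} (hA : ∀ n, ∀ t ∈ A n, 0 ≤ t ∧ t ≤ ((n : ℝ) + 1) / 2)
    {G H : ℝ → ℝ} {ε : ℝ} (h : ∀ x, 0 ≤ x → x ≤ 1 / 2 → |G x - H x| ≤ ε) (n : ℕ)
    (hn : Multiset.card (A n) ≠ 0) : |L A G n - L A H n| ≤ ε := by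
  have h1 : L A G n ≤ L A H n + ε := by
    rw [← L_const A ε n hn, ← L_add]
    exact L_mono hA (fun x hx hx' => by linarith [(abs_le.1 (h x hx hx')).2]) n
  have h2 : L A H n ≤ L A G n + ε := by
    rw [← L_const A ε n hn, ← L_add]
    exact L_mono hA (fun x hx hx' => by linarith [(abs_le.1 (h x hx hx')).1]) n
  rw [abs_le]
  constructor <;> linarith

lemma b_mem {p : ℕ} (hp : 2 ≤ p) : 0 < 1 / ((p : ℝ) + 1) ∧ 1 / ((p : ℝ) + 1) ≤ 1 / 2 := by
  have h : (2 : ℝ) ≤ p := by exact_mod_cast hp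
  constructor
  · positivity
  · rw [div_le_div_iff₀ (by positivity) (by norm_num)]
    linarith

lemma Lam_close {p : ℕ} (hp : 2 ≤ p) {G H : ℝ → ℝ} (hG : Continuous G) (hH : Continuous H)
    {ε : ℝ} (h : ∀ x, 0 ≤ x → x ≤ 1 / 2 → |G x - H x| ≤ ε) : |Lam p G - Lam p H| ≤ ε := by
  obtain ⟨hb0, hb⟩ := b_mem hp
  have hp0 : (0 : ℝ) < (p : ℝ) + 1 := by positivity
  unfold Lam
  rw [← mul_sub, ← intervalIntegral.integral_sub (hG.intervalIntegrable _ _)
    (hH.intervalIntegrable _ _), abs_mul, abs_of_pos hp0]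
  have h1 : ‖∫ x in (0 : ℝ)..(1 / ((p : ℝ) + 1)), (G x - H x)‖ ≤
      ε * |1 / ((p : ℝ) + 1) - 0| := by
    apply intervalIntegral.norm_integral_le_of_norm_le_const
    intro x hx
    rw [Set.uIoc_of_le hb0.le] at hx
    exact h x hx.1.le (hx.2.trans hb)
  rw [Real.norm_eq_abs, sub_zero, abs_of_pos hb0] at h1
  calc ((p : ℝ) + 1) * |∫ x in (0 : ℝ)..(1 / ((p : ℝ) + 1)), (G x - H x)|
      ≤ ((p : ℝ) + 1) * (ε * (1 / ((p : ℝ) + 1))) := mul_le_mul_of_nonneg_left h1 hp0.le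
    _ = ε := by field_simp

/-- Convergence for the function `G`. -/
def Cv (p : ℕ) (A : ℕ → Multiset ℝ) (G : ℝ → ℝ) : Prop :=
  Continuous G ∧ Tendsto (L A G) F (𝓝 (Lam p G))

section

variable {p : ℕ} {A : ℕ → Multiset ℝ}

lemma Cv.add {G H : ℝ → ℝ} (hG : Cv p A G) (hH : Cv p A H) : Cv p A (fun x => G x + H x) := by
  refine ⟨hG.1.add hH.1, ?_⟩
  have h1 : Lam p (fun x => G x + H x) = Lam p G + Lam p H := by
    unfold Lam
    rw [intervalIntegral.integral_add (hG.1.intervalIntegrable _ _) (hH.1.intervalIntegrable _ _)]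
    ring
  rw [h1]
  have h2 : L A (fun x => G x + H x) = fun n => L A G n + L A H n := funext fun n => L_add A G H n
  rw [h2]
  exact hG.2.add hH.2

lemma Cv.smul {G : ℝ → ℝ} (hG : Cv p A G) (c : ℝ) : Cv p A (fun x => c * G x) := by
  refine ⟨continuous_const.mul hG.1, ?_⟩
  have h1 : Lam p (fun x => c * G x) = c * Lam p G := by
    unfold Lam
    rw [intervalIntegral.integral_const_mul]
    ring
  rw [h1]
  have h2 : L A (fun x => c * G x) = fun n => c * L A G n := funext fun n => L_smul A G c n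
  rw [h2]
  exact hG.2.const_mul c

lemma Cv.const (hc : ∀ᶠ n in F, Multiset.card (A n) ≠ 0) (c : ℝ) : Cv p A (fun _ => c) := by
  refine ⟨continuous_const, ?_⟩
  have hp0 : (0 : ℝ) < (p : ℝ) + 1 := by positivity
  have h1 : Lam p (fun _ => c) = c := by
    unfold Lam
    rw [intervalIntegral.integral_const, sub_zero, smul_eq_mul]
    field_simp
  rw [h1]
  apply tendsto_const_nhds.congr'
  filter_upwards [hc] with n hn
  exact (L_const A c n hn).symm

lemma Cv.closed (hp : 2 ≤ p) (hA : ∀ n, ∀ t ∈ A n, 0 ≤ t ∧ t ≤ ((n : ℝ) + 1) / 2)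
    (hc : ∀ᶠ n in F, Multiset.card (A n) ≠ 0) {G : ℝ → ℝ} (hG : Continuous G)
    (h : ∀ ε : ℝ, 0 < ε → ∃ H, Cv p A H ∧ ∀ x, 0 ≤ x → x ≤ 1 / 2 → |G x - H x| ≤ ε) :
    Cv p A G := by
  refine ⟨hG, ?_⟩
  rw [Metric.tendsto_nhds]
  intro ε hε
  obtain ⟨H, hH, hGH⟩ := h (ε / 4) (by positivity)
  have h1 := Metric.tendsto_nhds.1 hH.2 (ε / 4) (by positivity)
  filter_upwards [h1, hc] with n hn hcn
  have h2 := L_close hA hGH n hcn
  have h3 := Lam_close hp hG hH.1 hGH
  rw [Real.dist_eq] at hn ⊢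
  have e : L A G n - Lam p G = (L A G n - L A H n) + (L A H n - Lam p H) - (Lam p G - Lam p H) := by
    ring
  rw [e]
  rw [abs_lt] at hn ⊢
  rw [abs_le] at h2 h3
  constructor <;> linarith [h2.1, h2.2, h3.1, h3.2, hn.1, hn.2]

/-! ### piecewise linear approximation -/

lemma piecewise (hmin : ∀ a : ℝ, 0 ≤ a → Cv p A (fun x => min x a))
    (hconst : ∀ c : ℝ, Cv p A (fun _ => c)) (G : ℝ → ℝ) (h : ℝ) (hh : 0 < h) (ω : ℝ)
    (m : ℕ) (hω : ∀ x y, 0 ≤ x → x ≤ m * h → 0 ≤ y → y ≤ m * h → |x - y| ≤ h → |G x - G y| ≤ ω) :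
    ∃ H : ℝ → ℝ, Cv p A H ∧ (∀ x, 0 ≤ x → x ≤ m * h → |G x - H x| ≤ 2 * ω) ∧
      ∀ x, m * h ≤ x → H x = G (m * h) := by
  have hω0 : 0 ≤ ω := by
    have h1 := hω 0 0 le_rfl (by positivity) le_rfl (by positivity) (by simpa using hh.le)
    simpa using h1
  suffices hs : ∀ k : ℕ, k ≤ m → ∃ H : ℝ → ℝ, Cv p A H ∧
      (∀ x, 0 ≤ x → x ≤ k * h → |G x - H x| ≤ 2 * ω) ∧ ∀ x, k * h ≤ x → H x = G (k * h) from
    hs m le_rfl
  intro k
  induction k with
  | zero =>
    intro _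
    refine ⟨fun _ => G 0, hconst _, ?_, ?_⟩
    · intro x hx hx'
      have : x = 0 := by
        rw [Nat.cast_zero, zero_mul] at hx'
        linarith
      rw [this]
      simpa using by positivity
    · intro x _
      simp
  | succ k ih =>
    intro hk
    obtain ⟨H, hH, h1, h2⟩ := ih (by omega)
    have hkm : ((k : ℝ) + 1) * h ≤ m * h := by
      apply mul_le_mul_of_nonneg_right _ hh.le
      exact_mod_cast hk
    have hk0 : (0 : ℝ) ≤ k * h := by positivity
    set x0 : ℝ := k * h with hx0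
    have e1 : ((k : ℝ) + 1) * h = x0 + h := by rw [hx0]; ring
    set c : ℝ := (G (x0 + h) - G x0) / h with hcdef
    have hch : c * h = G (x0 + h) - G x0 := by
      rw [hcdef]
      field_simp
    refine ⟨fun x => H x + c * (min x (x0 + h) + (-1) * min x x0),
      hH.add ((((hmin (x0 + h) (by positivity)).add ((hmin x0 hk0).smul (-1))).smul c)), ?_, ?_⟩
    · intro x hx hx'
      push_cast at hx'
      rw [e1] at hx'
      show |G x - (H x + c * (min x (x0 + h) + (-1) * min x x0))| ≤ 2 * ω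
      rcases le_total x x0 with hle | hle
      · rw [min_eq_left (by linarith : x ≤ x0 + h), min_eq_left hle]
        have := h1 x hx hle
        simpa using this
      · rw [min_eq_left hx', min_eq_right hle, h2 x hle]
        have e2 : c * (x + -1 * x0) = (x - x0) / h * (G (x0 + h) - G x0) := by
          rw [hcdef]
          field_simp
          ring
        rw [e2]
        have hl0 : 0 ≤ (x - x0) / h := div_nonneg (by linarith) hh.le
        have hl1 : (x - x0) / h ≤ 1 := by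
          rw [div_le_one hh]
          linarith
        have h3 := hω x x0 hx (by linarith) hk0 (by linarith) (by rw [abs_le]; constructor <;> linarith)
        have h4 := hω (x0 + h) x0 (by linarith) (by linarith) hk0 (by linarith)
          (by rw [abs_le]; constructor <;> linarith)
        have e3 : G x - (G x0 + (x - x0) / h * (G (x0 + h) - G x0)) =
            (G x - G x0) - (x - x0) / h * (G (x0 + h) - G x0) := by ring
        rw [e3]
        refine (abs_sub _ _).trans ?_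
        rw [abs_mul, abs_of_nonneg hl0]
        have h5 : (x - x0) / h * |G (x0 + h) - G x0| ≤ 1 * ω :=
          mul_le_mul hl1 h4 (abs_nonneg _) zero_le_one
        linarith
    · intro x hx
      push_cast at hx ⊢
      rw [e1] at hx ⊢
      show H x + c * (min x (x0 + h) + (-1) * min x x0) = _
      rw [min_eq_right hx, min_eq_right (by linarith : x0 ≤ x), h2 x (by linarith)]
      have e2 : c * (x0 + h + -1 * x0) = c * h := by ring
      rw [e2, hch]
      ring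

lemma Cv.of_min (hp : 2 ≤ p) (hA : ∀ n, ∀ t ∈ A n, 0 ≤ t ∧ t ≤ ((n : ℝ) + 1) / 2)
    (hc : ∀ᶠ n in F, Multiset.card (A n) ≠ 0)
    (hmin : ∀ a : ℝ, 0 ≤ a → Cv p A (fun x => min x a)) {G : ℝ → ℝ} (hG : Continuous G) :
    Cv p A G := by
  apply Cv.closed hp hA hc hG
  intro ε hε
  have huc : UniformContinuousOn G (Set.Icc 0 (1 / 2)) :=
    isCompact_Icc.uniformContinuousOn_of_continuous hG.continuousOn
  obtain ⟨δ, hδ, hδ'⟩ := Metric.uniformContinuousOn_iff.1 huc (ε / 2) (by positivity)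
  obtain ⟨m, hm⟩ := exists_nat_gt (1 / (2 * δ))
  have hm0 : (0 : ℝ) < m := lt_trans (by positivity) hm
  have hmh : (m : ℝ) * (1 / (2 * m)) = 1 / 2 := by field_simp
  obtain ⟨H, hH, h1, -⟩ := piecewise hmin (Cv.const hc) G (1 / (2 * m)) (by positivity) (ε / 2) m
    (by
      intro x y hx hx' hy hy' hxy
      rw [hmh] at hx' hy'
      have h2 : dist x y < δ := by
        rw [Real.dist_eq]
        refine lt_of_le_of_lt hxy ?_
        rw [div_lt_iff₀ (by positivity)] at hm ⊢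
        linarith
      have h3 := hδ' x ⟨hx, hx'⟩ y ⟨hy, hy'⟩ h2
      rw [Real.dist_eq] at h3
      exact h3.le)
  rw [hmh] at h1
  exact ⟨H, hH, fun x hx hx' => by have := h1 x hx hx'; linarith⟩

/-! ### The functions `min x a` -/

lemma card_div {ψ C : ℝ}
    (hcard : ∀ n, Even n → |12 * (Multiset.card (A n) : ℝ) - ψ * n| ≤ C) :
    Tendsto (fun n : ℕ => (Multiset.card (A n) : ℝ) / n) F (𝓝 (ψ / 12)) := by
  rw [tendsto_iff_norm_sub_tendsto_zero]
  have h1 : Tendsto (fun n : ℕ => (C / 12) * (1 / (n : ℝ))) F (𝓝 0) := by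
    have h2 : Tendsto (fun n : ℕ => 1 / (n : ℝ)) F (𝓝 0) :=
      (tendsto_one_div_atTop_nhds_zero_nat (𝕜 := ℝ)).mono_left F_le
    have h3 := h2.const_mul (C / 12)
    rwa [mul_zero] at h3
  refine squeeze_zero' (Eventually.of_forall fun n => norm_nonneg _) ?_ h1
  rw [ev_F]
  filter_upwards [eventually_ge_atTop 1] with n hn he
  have hn0 : (0 : ℝ) < n := by exact_mod_cast hn
  have e : (Multiset.card (A n) : ℝ) / n - ψ / 12 =
      (12 * (Multiset.card (A n) : ℝ) - ψ * n) / (12 * n) := by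
    field_simp
  rw [e, Real.norm_eq_abs, abs_div, abs_of_pos (by positivity : (0 : ℝ) < 12 * n),
    div_le_iff₀ (by positivity)]
  have e2 : C / 12 * (1 / (n : ℝ)) * (12 * n) = C := by field_simp
  rw [e2]
  exact hcard n he

lemma card_ne {ψ C : ℝ} (hψ : 0 < ψ)
    (hcard : ∀ n, Even n → |12 * (Multiset.card (A n) : ℝ) - ψ * n| ≤ C) :
    ∀ᶠ n in F, Multiset.card (A n) ≠ 0 := by
  have h1 := (card_div hcard).eventually (lt_mem_nhds (by positivity : 0 < ψ / 12))
  filter_upwards [h1] with n hn h0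
  rw [h0] at hn
  simp at hn

lemma min_lt {ψ C : ℝ} (hψ : 0 < ψ) (hA : ∀ n, ∀ t ∈ A n, 0 ≤ t ∧ t ≤ ((n : ℝ) + 1) / 2)
    (hcard : ∀ n, Even n → |12 * (Multiset.card (A n) : ℝ) - ψ * n| ≤ C)
    (hyp : ∀ ε : ℝ, 0 < ε → ∃ n1 : ℕ, ∀ n ≥ n1, Even n → ∀ s : ℕ,
      ((p : ℝ) + 1) * s ≤ (1 - ε) * n →
      |2 * ((A n).map fun t => min t (s : ℝ)).sum
        - ψ / 6 * ((n : ℝ) * s - (p + 1) * (s : ℝ) ^ 2 / 2)| ≤ ε * (n : ℝ) ^ 2)
    {a : ℝ} (ha0 : 0 ≤ a) (ha : ((p : ℝ) + 1) * a < 1) :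
    Tendsto (L A (fun x => min x a)) F (𝓝 (a - (p + 1) * a ^ 2 / 2)) := by
  set s : ℕ → ℕ := fun n => ⌊a * (n : ℝ)⌋₊ with hs
  have hsn : Tendsto (fun n : ℕ => (s n : ℝ) / n) F (𝓝 a) :=
    ((tendsto_nat_floor_mul_div_atTop ha0).comp tendsto_natCast_atTop_atTop).mono_left F_le
  have hR : Tendsto (fun n : ℕ => (n : ℝ) / ((n : ℝ) + 1)) F (𝓝 1) :=
    (tendsto_natCast_div_add_atTop (1 : ℝ)).mono_left F_le
  have hge : ∀ᶠ n : ℕ in F, (0 : ℝ) < n := by
    apply F_le
    filter_upwards [eventually_ge_atTop 1] with n hn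
    exact_mod_cast hn
  have hs1 : Tendsto (fun n : ℕ => (s n : ℝ) / ((n : ℝ) + 1)) F (𝓝 a) := by
    have h1 := hsn.mul hR
    rw [mul_one] at h1
    apply h1.congr'
    filter_upwards [hge] with n hn
    field_simp
  set D : ℕ → ℝ := fun n => 2 * ((A n).map fun t => min t (s n : ℝ)).sum with hDdef
  set T : ℕ → ℝ := fun n => ψ / 6 * ((n : ℝ) * s n - (p + 1) * (s n : ℝ) ^ 2 / 2) with hTdef
  have hDT : Tendsto (fun n => (D n - T n) / (n : ℝ) ^ 2) F (𝓝 0) := by
    rw [Metric.tendsto_nhds]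
    intro ε hε
    have hε' : 0 < min (ε / 2) (1 - ((p : ℝ) + 1) * a) := lt_min (by positivity) (by linarith)
    obtain ⟨n1, hn1⟩ := hyp _ hε'
    rw [ev_F]
    filter_upwards [eventually_ge_atTop n1, eventually_ge_atTop 1] with n hn hn' he
    have hn0 : (0 : ℝ) < n := by exact_mod_cast hn'
    have h1 : ((p : ℝ) + 1) * (s n : ℝ) ≤ (1 - min (ε / 2) (1 - ((p : ℝ) + 1) * a)) * n := by
      have h2 : (s n : ℝ) ≤ a * n := Nat.floor_le (by positivity)
      have h3 : min (ε / 2) (1 - ((p : ℝ) + 1) * a) ≤ 1 - ((p : ℝ) + 1) * a := min_le_right _ _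
      calc ((p : ℝ) + 1) * (s n : ℝ) ≤ ((p : ℝ) + 1) * (a * n) := by gcongr
        _ = (((p : ℝ) + 1) * a) * n := by ring
        _ ≤ _ := by
            apply mul_le_mul_of_nonneg_right _ hn0.le
            linarith
    have h2 := hn1 n hn he (s n) h1
    rw [Real.dist_eq, sub_zero, abs_div, abs_of_pos (by positivity : (0 : ℝ) < (n : ℝ) ^ 2),
      div_lt_iff₀ (by positivity)]
    refine lt_of_le_of_lt h2 ?_
    apply mul_lt_mul_of_pos_right _ (by positivity)
    exact lt_of_le_of_lt (min_le_left _ _) (by linarith)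
  have hT : Tendsto (fun n => T n / (n : ℝ) ^ 2) F (𝓝 (ψ / 6 * (a - (p + 1) * a ^ 2 / 2))) := by
    have h1 : Tendsto (fun n : ℕ => ψ / 6 * ((s n : ℝ) / n - (p + 1) * ((s n : ℝ) / n) ^ 2 / 2)) F
        (𝓝 (ψ / 6 * (a - (p + 1) * a ^ 2 / 2))) :=
      (hsn.sub (((hsn.pow 2).const_mul ((p : ℝ) + 1)).div_const 2)).const_mul (ψ / 6)
    apply h1.congr'
    filter_upwards [hge] with n hn
    simp only [hTdef]
    field_simp
  have hD : Tendsto (fun n => D n / (n : ℝ) ^ 2) F (𝓝 (ψ / 6 * (a - (p + 1) * a ^ 2 / 2))) := by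
    have h1 := hDT.add hT
    rw [zero_add] at h1
    apply h1.congr'
    filter_upwards [hge] with n hn
    field_simp
    ring
  have hcd := card_div hcard
  have hne := card_ne hψ hcard
  have hLH : Tendsto (fun n : ℕ => L A (fun x => min x ((s n : ℝ) / ((n : ℝ) + 1))) n) F
      (𝓝 (a - (p + 1) * a ^ 2 / 2)) := by
    have h1 := (hD.mul hR).div (hcd.const_mul 2) (by positivity)
    have e : ψ / 6 * (a - (p + 1) * a ^ 2 / 2) * 1 / (2 * (ψ / 12)) =
        a - (p + 1) * a ^ 2 / 2 := by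
      field_simp
      ring
    rw [e] at h1
    apply h1.congr'
    filter_upwards [hge, hne] with n hn hcn
    have hcn' : (Multiset.card (A n) : ℝ) ≠ 0 := by exact_mod_cast hcn
    have e2 : L A (fun x => min x ((s n : ℝ) / ((n : ℝ) + 1))) n =
        1 / (Multiset.card (A n) : ℝ) * (1 / ((n : ℝ) + 1) * (D n / 2)) := by
      have e3 : D n / 2 = ((A n).map fun t => min t (s n : ℝ)).sum := by
        simp only [hDdef]
        ring
      rw [e3, ← Multiset.sum_map_mul_left]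
      unfold L
      congr 2
      refine Multiset.map_congr rfl fun t _ => ?_
      show min (t / ((n : ℝ) + 1)) ((s n : ℝ) / ((n : ℝ) + 1)) = _
      rw [min_div_div_right (by positivity : (0 : ℝ) ≤ (n : ℝ) + 1)]
      ring
    rw [e2]
    show D n / (n : ℝ) ^ 2 * ((n : ℝ) / ((n : ℝ) + 1)) /
      (2 * ((Multiset.card (A n) : ℝ) / n)) = _
    field_simp
  have hdiff : Tendsto (fun n => L A (fun x => min x a) n -
      L A (fun x => min x ((s n : ℝ) / ((n : ℝ) + 1))) n) F (𝓝 0) := by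
    have h1 : Tendsto (fun n : ℕ => |a - (s n : ℝ) / ((n : ℝ) + 1)|) F (𝓝 0) := by
      have h2 := (hs1.const_sub a).abs
      rwa [sub_self, abs_zero] at h2
    apply squeeze_zero_norm' _ h1
    filter_upwards [hne] with n hcn
    rw [Real.norm_eq_abs]
    apply L_close hA _ n hcn
    intro x _ _
    refine (abs_min_sub_min_le_max _ _ _ _).trans ?_
    rw [sub_self, abs_zero]
    exact max_le (abs_nonneg _) le_rfl
  have h1 := hdiff.add hLH
  rw [zero_add] at h1
  refine h1.congr fun n => ?_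
  ring

lemma Lam_min_lt {a : ℝ} (ha0 : 0 ≤ a) (ha : a ≤ 1 / ((p : ℝ) + 1)) :
    Lam p (fun x => min x a) = a - (p + 1) * a ^ 2 / 2 := by
  have hp0 : (0 : ℝ) < (p : ℝ) + 1 := by positivity
  unfold Lam
  have hc : Continuous (fun x : ℝ => min x a) := by fun_prop
  rw [← intervalIntegral.integral_add_adjacent_intervals (hc.intervalIntegrable 0 a)
    (hc.intervalIntegrable a _)]
  have h1 : ∫ x in (0 : ℝ)..a, min x a = ∫ x in (0 : ℝ)..a, x := by
    apply intervalIntegral.integral_congr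
    intro x hx
    rw [Set.uIcc_of_le ha0] at hx
    exact min_eq_left hx.2
  have h2 : ∫ x in a..(1 / ((p : ℝ) + 1)), min x a = ∫ x in a..(1 / ((p : ℝ) + 1)), a := by
    apply intervalIntegral.integral_congr
    intro x hx
    rw [Set.uIcc_of_le ha] at hx
    exact min_eq_right hx.1
  rw [h1, h2, integral_id, intervalIntegral.integral_const, smul_eq_mul]
  field_simp
  ring

lemma Lam_min_ge {a : ℝ} (ha : 1 / ((p : ℝ) + 1) ≤ a) :
    Lam p (fun x => min x a) = 1 / ((p : ℝ) + 1) / 2 := by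
  have hp0 : (0 : ℝ) < (p : ℝ) + 1 := by positivity
  unfold Lam
  have h1 : ∫ x in (0 : ℝ)..(1 / ((p : ℝ) + 1)), min x a = ∫ x in (0 : ℝ)..(1 / ((p : ℝ) + 1)), x := by
    apply intervalIntegral.integral_congr
    intro x hx
    rw [Set.uIcc_of_le (by positivity)] at hx
    exact min_eq_left (hx.2.trans ha)
  rw [h1, integral_id]
  field_simp
  ring

lemma min_ge (hp : 2 ≤ p) (hA : ∀ n, ∀ t ∈ A n, 0 ≤ t ∧ t ≤ ((n : ℝ) + 1) / 2)
    (hlt : ∀ a : ℝ, 0 ≤ a → ((p : ℝ) + 1) * a < 1 →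
      Tendsto (L A (fun x => min x a)) F (𝓝 (a - (p + 1) * a ^ 2 / 2)))
    {a : ℝ} (ha : 1 / ((p : ℝ) + 1) ≤ a) :
    Tendsto (L A (fun x => min x a)) F (𝓝 (1 / ((p : ℝ) + 1) / 2)) := by
  obtain ⟨hb0, hb1⟩ := b_mem hp
  have hp0 : (0 : ℝ) < (p : ℝ) + 1 := by positivity
  set b : ℝ := 1 / ((p : ℝ) + 1) with hb
  have hpb : ((p : ℝ) + 1) * b = 1 := by rw [hb]; field_simp
  have ha0 : 0 < a := lt_of_lt_of_le hb0 ha
  have hφ : ∀ x : ℝ, (b - x) - (p + 1) * (b - x) ^ 2 / 2 = b / 2 - (p + 1) * x ^ 2 / 2 := by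
    intro x
    have e : (b - x) - (p + 1) * (b - x) ^ 2 / 2 =
        b - x - (((p : ℝ) + 1) * b) * b / 2 + (((p : ℝ) + 1) * b) * x - (p + 1) * x ^ 2 / 2 := by ring
    rw [e, hpb]
    ring
  rw [tendsto_order]
  constructor
  · intro c hc
    set δ : ℝ := min (b / 2) ((b / 2 - c) / ((p : ℝ) + 1)) with hδ
    have hδ0 : 0 < δ := lt_min (by positivity) (div_pos (by linarith) hp0)
    have hδ1 : δ ≤ b / 2 := min_le_left _ _
    have hδ2 : ((p : ℝ) + 1) * δ ≤ b / 2 - c := by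
      have h1 : δ ≤ (b / 2 - c) / ((p : ℝ) + 1) := min_le_right _ _
      rw [le_div_iff₀ hp0] at h1
      linarith
    have h1 := hlt (b - δ) (by linarith) (by rw [mul_sub, hpb]; nlinarith)
    rw [hφ] at h1
    have h2 : c < b / 2 - (p + 1) * δ ^ 2 / 2 := by
      have h3 : ((p : ℝ) + 1) * δ ^ 2 ≤ ((p : ℝ) + 1) * δ := by
        apply mul_le_mul_of_nonneg_left _ hp0.le
        nlinarith
      linarith
    filter_upwards [h1.eventually (lt_mem_nhds h2)] with n hn
    refine lt_of_lt_of_le hn (L_mono hA ?_ n)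
    intro x _ _
    exact min_le_min le_rfl (by linarith)
  · intro c hc
    set δ : ℝ := min (b / 2) ((c - b / 2) / (3 * (a + 1) * ((p : ℝ) + 1))) with hδ
    have hδ0 : 0 < δ := lt_min (by positivity) (div_pos (by linarith) (by positivity))
    have hδ1 : δ ≤ b / 2 := min_le_left _ _
    have hδ2 : 3 * (a + 1) * ((p : ℝ) + 1) * δ ≤ c - b / 2 := by
      have h1 : δ ≤ (c - b / 2) / (3 * (a + 1) * ((p : ℝ) + 1)) := min_le_right _ _
      rw [le_div_iff₀ (by positivity)] at h1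
      linarith
    have h1 := hlt (b - δ) (by linarith) (by rw [mul_sub, hpb]; nlinarith)
    have h2 := hlt (b - 2 * δ) (by linarith) (by rw [mul_sub, hpb]; nlinarith)
    rw [hφ] at h1 h2
    have h3 := h1.add ((h1.add (h2.const_mul (-1))).const_mul ((a - (b - δ)) / δ))
    have h4 : b / 2 - (p + 1) * δ ^ 2 / 2 + (a - (b - δ)) / δ *
        (b / 2 - (p + 1) * δ ^ 2 / 2 + -1 * (b / 2 - (p + 1) * (2 * δ) ^ 2 / 2)) < c := by
      have e : b / 2 - (p + 1) * δ ^ 2 / 2 + (a - (b - δ)) / δ *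
          (b / 2 - (p + 1) * δ ^ 2 / 2 + -1 * (b / 2 - (p + 1) * (2 * δ) ^ 2 / 2)) =
          b / 2 - (p + 1) * δ ^ 2 / 2 + (a - b + δ) * (3 * ((p : ℝ) + 1) * δ / 2) := by
        field_simp
        ring
      rw [e]
      have h5 : (a - b + δ) * (3 * ((p : ℝ) + 1) * δ / 2) ≤
          (a + 1) * (3 * ((p : ℝ) + 1) * δ / 2) := by
        apply mul_le_mul_of_nonneg_right _ (by positivity)
        linarith
      have h6 : (a + 1) * (3 * ((p : ℝ) + 1) * δ / 2) ≤ (c - b / 2) / 2 := by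
        have e6 : (a + 1) * (3 * ((p : ℝ) + 1) * δ / 2) = (3 * (a + 1) * ((p : ℝ) + 1) * δ) / 2 := by
          ring
        rw [e6]
        linarith
      have h7 : 0 ≤ (p + 1) * δ ^ 2 / 2 := by positivity
      linarith
    filter_upwards [h3.eventually (gt_mem_nhds h4)] with n hn
    refine lt_of_le_of_lt ?_ hn
    have e : L A (fun x => min x (b - δ)) n + (a - (b - δ)) / δ *
        (L A (fun x => min x (b - δ)) n + -1 * L A (fun x => min x (b - 2 * δ)) n) =
        L A (fun x => min x (b - δ) + (a - (b - δ)) / δ * (min x (b - δ) +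
          -1 * min x (b - 2 * δ))) n := by
      rw [L_add, L_smul, L_add, L_smul]
    rw [e]
    apply L_mono hA
    intro x hx _
    have hq : 0 ≤ (a - (b - δ)) / δ := div_nonneg (by linarith) hδ0.le
    rcases le_total x (b - δ) with hle | hle
    · rw [min_eq_left (by linarith : x ≤ a), min_eq_left hle]
      have h5 : 0 ≤ x + -1 * min x (b - 2 * δ) := by linarith [min_le_left x (b - 2 * δ)]
      have h6 := mul_nonneg hq h5
      linarith
    · rw [min_eq_right hle, min_eq_right (by linarith : b - 2 * δ ≤ x)]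
      have h5 : (a - (b - δ)) / δ * (b - δ + -1 * (b - 2 * δ)) = a - (b - δ) := by
        field_simp
        ring
      rw [h5]
      linarith [min_le_right x a]

end

end E7

theorem e7 : EAna := by
  intro p ψ C A G hp hψ hG hA hcard hyp
  have hne := E7.card_ne hψ hcard
  have hlt : ∀ a : ℝ, 0 ≤ a → ((p : ℝ) + 1) * a < 1 →
      Tendsto (E7.L A (fun x => min x a)) E7.F (𝓝 (a - (p + 1) * a ^ 2 / 2)) :=
    fun a ha0 ha => E7.min_lt hψ hA hcard hyp ha0 ha
  have hmin : ∀ a : ℝ, 0 ≤ a → E7.Cv p A (fun x => min x a) := by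
    intro a ha0
    have hp0 : (0 : ℝ) < (p : ℝ) + 1 := by positivity
    refine ⟨by fun_prop, ?_⟩
    rcases lt_or_ge (((p : ℝ) + 1) * a) 1 with h | h
    · rw [E7.Lam_min_lt ha0 (by rw [le_div_iff₀ hp0]; linarith)]
      exact hlt a ha0 h
    · have h' : 1 / ((p : ℝ) + 1) ≤ a := by rw [div_le_iff₀ hp0]; linarith
      rw [E7.Lam_min_ge h']
      exact E7.min_ge hp hA hlt h'
  exact (E7.Cv.of_min hp hA hne hmin hG).2

end Gou

end
end

section

/-!
E8. There are no cusp forms of odd weight.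
-/

open scoped MatrixGroups ModularForm UpperHalfPlane
open CongruenceSubgroup UpperHalfPlane

noncomputable section

namespace Gou

theorem e8 (N : ℕ) : EOdd N := by
  intro k hk
  have hk' : Odd (k : ℤ) := by
    rw [Int.odd_coe_nat]
    exact Nat.not_even_iff_odd.1 hk
  have hmem : (-1 : GL (Fin 2) ℝ) ∈ ((Gamma0 N : Subgroup SL(2, ℤ)) : Subgroup (GL (Fin 2) ℝ)) := by
    refine ⟨-1, ?_, by ext; simp⟩
    simp [Gamma0_mem]
  have h0 : ∀ f : SN N k, f = 0 := by
    intro f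
    ext z
    have hf := SlashInvariantForm.slash_action_eqn'' f hmem z
    rw [neg_smul, one_smul, denom_neg, denom_one, hk'.neg_one_zpow] at hf
    have h2 : (2 : ℂ) * f z = 0 := by linear_combination hf
    exact (mul_eq_zero.mp h2).resolve_left (by norm_num)
  have : Subsingleton (SN N k) := ⟨fun f g => by rw [h0 f, h0 g]⟩
  exact Module.finrank_zero_of_subsingleton

end Gou

end
end

section

/-! E9: final assembly (MP_602313_nt). -/

open scoped MatrixGroups ModularForm UpperHalfPlane Polynomial ENNReal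
open CongruenceSubgroup UpperHalfPlane MeasureTheory Filter

noncomputable section

namespace Gou

theorem e9_nuP (p : ℕ) (hp : 2 ≤ p) (g : ℝ → ℝ) (hg : Continuous g) :
    ∫ x, g x ∂(nuP p) = (1 / 2) * (((p : ℝ) + 1) *
      ∫ x in (0 : ℝ)..(1 / ((p : ℝ) + 1)), (g x + g (1 - x))) := by
  have hp' : (2 : ℝ) ≤ p := by exact_mod_cast hp
  have hpos : (0 : ℝ) < (p : ℝ) + 1 := by linarith
  have h0 : (0 : ℝ) ≤ 1 / ((p : ℝ) + 1) := by positivity
  have hlt : 1 / ((p : ℝ) + 1) < (p : ℝ) / ((p : ℝ) + 1) := by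
    apply div_lt_div_of_pos_right _ hpos
    linarith
  have hle1 : (p : ℝ) / ((p : ℝ) + 1) ≤ 1 := by
    rw [div_le_one hpos]
    linarith
  have heq : (1 : ℝ) - 1 / ((p : ℝ) + 1) = (p : ℝ) / ((p : ℝ) + 1) := by
    field_simp
    ring
  have hint1 : IntegrableOn g (Set.Icc 0 (1 / ((p : ℝ) + 1))) := hg.continuousOn.integrableOn_Icc
  have hint2 : IntegrableOn g (Set.Icc ((p : ℝ) / ((p : ℝ) + 1)) 1) :=
    hg.continuousOn.integrableOn_Icc
  have hdisj : Disjoint (Set.Icc 0 (1 / ((p : ℝ) + 1))) (Set.Icc ((p : ℝ) / ((p : ℝ) + 1)) 1) := by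
    rw [Set.disjoint_left]
    intro x hx hx'
    exact absurd (lt_of_le_of_lt hx.2 hlt) (not_lt.mpr hx'.1)
  rw [nuP, integral_smul_measure, ENNReal.toReal_ofReal (by positivity),
    setIntegral_union hdisj measurableSet_Icc hint1 hint2, integral_Icc_eq_integral_Ioc,
    integral_Icc_eq_integral_Ioc, ← intervalIntegral.integral_of_le h0,
    ← intervalIntegral.integral_of_le hle1]
  have hg1 : Continuous fun x : ℝ => g (1 - x) := hg.comp (continuous_const.sub continuous_id)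
  have hadd : ∫ x in (0 : ℝ)..(1 / ((p : ℝ) + 1)), (g x + g (1 - x)) =
      (∫ x in (0 : ℝ)..(1 / ((p : ℝ) + 1)), g x) +
        ∫ x in (0 : ℝ)..(1 / ((p : ℝ) + 1)), g (1 - x) :=
    intervalIntegral.integral_add (hg.intervalIntegrable _ _) (hg1.intervalIntegrable _ _)
  rw [hadd, intervalIntegral.integral_comp_sub_left g 1, heq, sub_zero, smul_eq_mul]
  ring

theorem e9 {p N : ℕ} [hpf : Fact p.Prime] (h1 : EUp p N) (h2 : ELow p N) (h3 : EDim N)
    (h4 : EInt p N) (h5 : EAna) (h6 : EOdd N) (hN : N ≠ 0) : Conclusion p N := by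
  classical
  intro ι g hg
  have hp2 : 2 ≤ p := hpf.out.two_le
  have hp2' : (2 : ℝ) ≤ p := by exact_mod_cast hp2
  obtain ⟨k0, hk0⟩ := h4
  obtain ⟨C0, hC0⟩ := h3
  have : NeZero N := ⟨hN⟩
  have hidx : 0 < (Gamma0 N).index := Nat.pos_of_ne_zero Subgroup.FiniteIndex.index_ne_zero
  set ψ : ℝ := ((Gamma0 N).index : ℝ) with hψ
  have hψ0 : 0 < ψ := by
    rw [hψ]
    exact_mod_cast hidx
  have key : ∀ n : ℕ, Even n → k0 ≤ n + 2 →
      Multiset.card (heckeEigs N ((n : ℤ) + 2) p) = Module.finrank ℂ (SN N ((n : ℤ) + 2)) ∧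
      (∀ a ∈ heckeEigs N ((n : ℤ) + 2) p, 0 ≤ ws p (avI ι) (((n : ℝ) + 1) / 2) a ∧
        ws p (avI ι) (((n : ℝ) + 1) / 2) a ≤ ((n : ℝ) + 1) / 2 ∧
        ∀ s : ℝ, 0 ≤ s → s ≤ ((n : ℝ) + 1) / 2 →
          ws p (avI ι) s a = min (ws p (avI ι) (((n : ℝ) + 1) / 2) a) s) ∧
      ∫ x, g x ∂(muK p N (n + 2) ι) =
        (1 / (2 * (Module.finrank ℂ (SN N ((n : ℤ) + 2)) : ℝ))) *
        ((heckeEigs N ((n : ℤ) + 2) p).map fun a =>
          g (ws p (avI ι) (((n : ℝ) + 1) / 2) a / ((n : ℝ) + 1))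
            + g (1 - ws p (avI ι) (((n : ℝ) + 1) / 2) a / ((n : ℝ) + 1))).sum := by
    intro n hn hk
    have h := hk0 (n + 2) hk (hn.add even_two) ι g hg
    have e1 : (((n + 2 : ℕ) : ℝ) - 1) = (n : ℝ) + 1 := by push_cast; ring
    have e2 : (((n + 2 : ℕ) : ℤ)) = (n : ℤ) + 2 := by push_cast; ring
    rw [e1, e2] at h
    exact h
  let A : ℕ → Multiset ℝ := fun n => if Even n ∧ k0 ≤ n + 2 then
    (heckeEigs N ((n : ℤ) + 2) p).map (fun a => ws p (avI ι) (((n : ℝ) + 1) / 2) a) else 0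
  have hA1 : ∀ n, Even n → k0 ≤ n + 2 → A n =
      (heckeEigs N ((n : ℤ) + 2) p).map (fun a => ws p (avI ι) (((n : ℝ) + 1) / 2) a) := by
    intro n hn hk
    exact if_pos ⟨hn, hk⟩
  have hlim := h5 p ψ (C0 + 2 * ψ + ψ * k0) A (fun x => g x + g (1 - x)) hp2 hψ0
    (hg.add (hg.comp (continuous_const.sub continuous_id))) ?_ ?_ ?_
  rotate_left
  · -- bounds
    intro n t ht
    by_cases hc : Even n ∧ k0 ≤ n + 2
    · rw [hA1 n hc.1 hc.2] at ht
      obtain ⟨a, ha, rfl⟩ := Multiset.mem_map.mp ht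
      have h := (key n hc.1 hc.2).2.1 a ha
      exact ⟨h.1, h.2.1⟩
    · have : A n = 0 := if_neg hc
      rw [this] at ht
      simp at ht
  · -- cardinality
    intro n hn
    by_cases hk : k0 ≤ n + 2
    · rw [hA1 n hn hk, Multiset.card_map, (key n hn hk).1]
      have h := hC0 (n + 2) (hn.add even_two)
      have e2 : (((n + 2 : ℕ) : ℤ)) = (n : ℤ) + 2 := by push_cast; ring
      rw [e2] at h
      have ha : ψ * ((n : ℝ) + 2) ≤ 12 * (Module.finrank ℂ (SN N ((n : ℤ) + 2)) : ℝ) + C0 := by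
        rw [hψ]
        exact_mod_cast h.1
      have hb : 12 * (Module.finrank ℂ (SN N ((n : ℤ) + 2)) : ℝ) ≤ ψ * ((n : ℝ) + 2) + C0 := by
        rw [hψ]
        exact_mod_cast h.2
      have hk0' : 0 ≤ ψ * (k0 : ℝ) := by positivity
      rw [abs_le]
      constructor <;> linarith
    · have : A n = 0 := if_neg fun h => hk h.2
      rw [this]
      push Not at hk
      have hnk : (n : ℝ) ≤ k0 := by
        have : n ≤ k0 := by omega
        exact_mod_cast this
      have hC0' : (0 : ℝ) ≤ C0 := Nat.cast_nonneg _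
      have h1' : ψ * n ≤ ψ * k0 := mul_le_mul_of_nonneg_left hnk hψ0.le
      have h2' : 0 ≤ ψ * (n : ℝ) := by positivity
      simp only [Multiset.card_zero, Nat.cast_zero, mul_zero, zero_sub, abs_neg]
      rw [abs_of_nonneg h2']
      linarith
  · -- asymptotics
    intro ε hε
    obtain ⟨n1, hn1⟩ := h1 ε hε
    obtain ⟨n2, hn2⟩ := h2 ε hε
    refine ⟨max (max n1 n2) k0, fun n hn hne s hs => ?_⟩
    have hk : k0 ≤ n + 2 := by
      have := le_trans (le_max_right _ _) hn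
      omega
    have ha := hn1 n (le_trans (le_trans (le_max_left _ _) (le_max_left _ _)) hn) hne s hs ι
    have hb := hn2 n (le_trans (le_trans (le_max_right _ _) (le_max_left _ _)) hn) hne s hs ι
    have hs' : (s : ℝ) ≤ ((n : ℝ) + 1) / 2 := by
      have h0 : (0 : ℝ) ≤ s := Nat.cast_nonneg _
      have h0' : (0 : ℝ) ≤ n := Nat.cast_nonneg _
      have h3' : 3 * (s : ℝ) ≤ ((p : ℝ) + 1) * s := by nlinarith
      have h4' : (1 - ε) * (n : ℝ) ≤ n := by nlinarith
      linarith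
    have hsum : ((A n).map fun t => min t (s : ℝ)).sum =
        ((heckeEigs N ((n : ℤ) + 2) p).map fun a => ws p (avI ι) s a).sum := by
      rw [hA1 n hne hk, Multiset.map_map]
      congr 1
      refine Multiset.map_congr rfl fun a ha => ?_
      simp only [Function.comp_apply]
      exact (((key n hne hk).2.1 a ha).2.2 s (Nat.cast_nonneg _) hs').symm
    rw [hsum, abs_le]
    constructor <;> linarith
  -- conclusion
  have hlim2 := hlim.const_mul (1 / 2 : ℝ)
  rw [← e9_nuP p hp2 g hg] at hlim2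
  have hshift : Tendsto (fun k : ℕ => k - 2)
      (atTop ⊓ 𝓟 {k : ℕ | 0 < Module.finrank ℂ (SN N k)}) (atTop ⊓ 𝓟 {n : ℕ | Even n}) := by
    rw [tendsto_inf]
    constructor
    · exact (tendsto_sub_atTop_nat 2).mono_left inf_le_left
    · rw [tendsto_principal]
      have h : ∀ᶠ k : ℕ in 𝓟 {k : ℕ | 0 < Module.finrank ℂ (SN N k)}, k - 2 ∈ {n : ℕ | Even n} := by
        rw [eventually_principal]
        intro k hk
        by_contra hcon
        have hk' : ¬ Even k := by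
          intro hke
          apply hcon
          show Even (k - 2)
          rcases Nat.lt_or_ge k 2 with h | h
          · have : k - 2 = 0 := by omega
            rw [this]
            exact Even.zero
          · exact (Nat.even_sub h).mpr (by simp [hke])
        have := h6 k hk'
        have hk2 : 0 < Module.finrank ℂ (SN N k) := hk
        omega
      exact h.filter_mono inf_le_right
  refine (hlim2.comp hshift).congr' ?_
  have hmem : ∀ᶠ k : ℕ in atTop ⊓ 𝓟 {k : ℕ | 0 < Module.finrank ℂ (SN N k)},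
      max k0 2 ≤ k ∧ 0 < Module.finrank ℂ (SN N k) := by
    refine Filter.Eventually.and ?_ ?_
    · exact (eventually_ge_atTop (max k0 2)).filter_mono inf_le_left
    · have h : ∀ᶠ k : ℕ in 𝓟 {k : ℕ | 0 < Module.finrank ℂ (SN N k)},
          0 < Module.finrank ℂ (SN N k) := by
        rw [eventually_principal]
        intro k hk
        exact hk
      exact h.filter_mono inf_le_right
  filter_upwards [hmem] with k hk
  obtain ⟨n, rfl⟩ : ∃ n, k = n + 2 := ⟨k - 2, by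
    have := le_trans (le_max_right _ _) hk.1
    omega⟩
  have hkk : k0 ≤ n + 2 := le_trans (le_max_left _ _) hk.1
  have hne : Even n := by
    by_contra hcon
    have hk' : ¬ Even (n + 2) := by
      intro h
      exact hcon ((Nat.even_add.mp h).mpr even_two)
    have := h6 (n + 2) hk'
    omega
  have hK := key n hne hkk
  rw [hK.2.2]
  simp only [Function.comp_apply, Nat.add_sub_cancel]
  rw [hA1 n hne hkk, Multiset.card_map, Multiset.map_map, hK.1]
  simp only [Function.comp_def]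
  ring

end Gou

end
end

section

/-!
MP_602313_nt, module B, item BWW: the module `I_m` modulo `p^h`.
-/

open scoped MatrixGroups Polynomial
open CongruenceSubgroup

noncomputable section

namespace Gou

namespace KerAux

variable {p : ℕ} [Fact p.Prime]

/-! ### Gauss lemma -/

theorem dvdP_iff {R : Type*} [CommRing R] (q : R) (f : R[X]) :
    dvdP q f ↔ Polynomial.C q ∣ f := (Polynomial.C_dvd_iff_dvd_coeff q f).symm

theorem prime_C : Prime (Polynomial.C (p : ℤ_[p])) := Polynomial.prime_C_iff.2 PadicInt.prime_p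

theorem gauss {Q x : ℤ_[p][X]} (h : ℕ) (i : ℕ) (hQ : ¬ dvdP (p : ℤ_[p]) Q)
    (hx : dvdP ((p : ℤ_[p]) ^ h) (Q ^ i * x)) : dvdP ((p : ℤ_[p]) ^ h) x := by
  rw [dvdP_iff] at hQ hx ⊢
  rw [Polynomial.C_pow] at hx ⊢
  refine prime_C.pow_dvd_of_dvd_mul_left h ?_ hx
  intro h1
  exact hQ (prime_C.dvd_of_dvd_pow h1)

theorem not_dvdP_Theta : ¬ dvdP (p : ℤ_[p]) (Theta p) := by
  intro h
  have h1 := h p
  have hp1 : (1 : ℕ) ≠ p := (Fact.out : p.Prime).one_lt.ne
  unfold Theta at h1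
  rw [Polynomial.coeff_sub, Polynomial.coeff_X_pow, if_pos rfl, Polynomial.coeff_X,
    if_neg hp1, sub_zero] at h1
  exact PadicInt.prime_p.not_isUnit (isUnit_of_dvd_one h1)

/-! ### The decomposition of `I_m` modulo `p^h` -/

theorem C_mul_mem_Pn {n : ℕ} {f : ℤ_[p][X]} (c : ℤ_[p]) (hf : f ∈ Pn p n) :
    Polynomial.C c * f ∈ Pn p n :=
  (Polynomial.natDegree_C_mul_le c f).trans hf

theorem C_mul_mem_pPn {n h : ℕ} {f : ℤ_[p][X]} (c : ℤ_[p]) (hf : f ∈ pPn p n h) :
    Polynomial.C c * f ∈ pPn p n h :=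
  ⟨C_mul_mem_Pn c hf.1, fun i => by
    rw [Polynomial.coeff_C_mul]
    exact Dvd.dvd.mul_left (hf.2 i) _⟩

theorem pow_mul_mem_pPn {n h k : ℕ} {f : ℤ_[p][X]} (hf : f ∈ Pn p n) (hk : h ≤ k) :
    Polynomial.C ((p : ℤ_[p]) ^ k) * f ∈ pPn p n h :=
  ⟨C_mul_mem_Pn _ hf, fun i => by
    rw [Polynomial.coeff_C_mul]
    exact Dvd.dvd.mul_right (pow_dvd_pow _ hk) _⟩

theorem pow_mem_Pn {n : ℕ} {f : ℤ_[p][X]} (hf : f ∈ Pn p n) (i : ℕ) : f ^ i ∈ Pn p (i * n) :=
  Polynomial.natDegree_pow_le.trans (Nat.mul_le_mul_left _ hf)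

theorem Theta_mem : Theta p ∈ Pn p (p + 1) := by
  have hp1 := (Fact.out : p.Prime).one_lt
  change (Polynomial.natDegree _) ≤ p + 1
  unfold Theta
  refine (Polynomial.natDegree_sub_le _ _).trans ?_
  rw [Polynomial.natDegree_X_pow, Polynomial.natDegree_X]
  omega

/-- The subgroup `H^i0 P_n0 + p^h P_n`. -/
def SH (p : ℕ) [Fact p.Prime] (n h i0 E : ℕ) (H : ℤ_[p][X]) : AddSubgroup ℤ_[p][X] :=
  (Pn p (n - i0 * E)).map (AddMonoidHom.mulLeft (H ^ i0)) ⊔ pPn p n h

theorem SH_mem {n h i0 E : ℕ} {H x : ℤ_[p][X]} :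
    x ∈ SH p n h i0 E H ↔ ∃ a ∈ Pn p (n - i0 * E), ∃ b ∈ pPn p n h, H ^ i0 * a + b = x := by
  unfold SH
  rw [AddSubgroup.mem_sup]
  constructor
  · rintro ⟨_, ⟨a, ha, rfl⟩, b, hb, rfl⟩
    exact ⟨a, ha, b, hb, rfl⟩
  · rintro ⟨a, ha, b, hb, rfl⟩
    exact ⟨_, ⟨a, ha, rfl⟩, b, hb, rfl⟩

theorem SH_C_mul {n h i0 E : ℕ} {H x : ℤ_[p][X]} (c : ℤ_[p]) (hx : x ∈ SH p n h i0 E H) :
    Polynomial.C c * x ∈ SH p n h i0 E H := by
  rw [SH_mem] at hx ⊢
  obtain ⟨a, ha, b, hb, rfl⟩ := hx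
  exact ⟨Polynomial.C c * a, C_mul_mem_Pn c ha, Polynomial.C c * b, C_mul_mem_pPn c hb, by ring⟩

theorem Ip_le_SH (hT : BTheta) (e : ℕ) (he : 1 ≤ e) (H K : ℤ_[p][X])
    (hH : H ∈ Pn p (e * (p + 1))) (hK : K ∈ Pn p (e * (p + 1)))
    (hTh : Theta p ^ e = H + Polynomial.C (p : ℤ_[p]) * K) (n m h : ℕ)
    (hmn : (p + 1) * m ≤ n) :
    Ip p n m ≤ SH p n h (m / e - (2 * h + 2)) (e * (p + 1)) H := by
  intro F hF
  obtain ⟨G, hG, rfl⟩ := hT p n m hmn F hF
  set i0 := m / e - (2 * h + 2) with hi0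
  refine AddSubgroup.sum_mem _ fun i hi => ?_
  rw [Finset.mem_range] at hi
  have him : (p + 1) * i ≤ n := (Nat.mul_le_mul_left _ (by omega)).trans hmn
  have hTi : Theta p ^ i * G i ∈ Pn p n :=
    mul_mem_Pn (pow_mem_Pn Theta_mem i) (hG i (by omega)) (by
      rw [mul_comm i]
      omega)
  rw [mul_assoc]
  rcases le_or_gt h (m - i) with hc | hc
  · rw [SH_mem]
    refine ⟨0, AddSubgroup.zero_mem _, _, pow_mul_mem_pPn hTi hc, ?_⟩
    rw [mul_zero, zero_add]
  · refine SH_C_mul _ ?_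
    set q := i / e with hq
    set r := i % e with hr
    have hqr : e * q + r = i := Nat.div_add_mod i e
    have hqm : m / e ≤ q + h := by
      have h1 : m < (q + h + 1) * e := by
        have h2 : r < e := Nat.mod_lt _ he
        have h3 : h ≤ h * e := Nat.le_mul_of_pos_right _ he
        have h4 : (q + h + 1) * e = e * q + h * e + e := by ring
        omega
      have := (Nat.div_lt_iff_lt_mul he).2 h1
      omega
    have hexp : Theta p ^ i * G i = ∑ j ∈ Finset.range (q + 1),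
        H ^ j * (Polynomial.C (p : ℤ_[p]) * K) ^ (q - j) * (q.choose j : ℤ_[p][X]) *
          (Theta p ^ r * G i) := by
      rw [← hqr, pow_add, pow_mul, hTh, add_pow, mul_assoc, Finset.sum_mul, hqr]
    rw [hexp]
    refine AddSubgroup.sum_mem _ fun j hj => ?_
    rw [Finset.mem_range] at hj
    have hdeg0 : (q - j) * (e * (p + 1)) + j * (e * (p + 1)) = (p + 1) * (e * q) := by
      rw [← Nat.add_mul, Nat.sub_add_cancel (by omega : j ≤ q)]
      ring
    have hqi : (p + 1) * i = (p + 1) * (e * q) + r * (p + 1) := by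
      rw [← hqr]
      ring
    have hlast : Theta p ^ r * G i ∈ Pn p (r * (p + 1) + (n - (p + 1) * i)) :=
      mul_mem_Pn (pow_mem_Pn Theta_mem r) (hG i (by omega)) le_rfl
    have hKj : K ^ (q - j) ∈ Pn p ((q - j) * (e * (p + 1))) := pow_mem_Pn hK _
    have hchoose : (q.choose j : ℤ_[p][X]) = Polynomial.C ((q.choose j : ℕ) : ℤ_[p]) := by simp
    rw [SH_mem]
    rcases le_or_gt h (q - j) with hc2 | hc2
    · refine ⟨0, AddSubgroup.zero_mem _,
        Polynomial.C ((p : ℤ_[p]) ^ (q - j)) * (Polynomial.C ((q.choose j : ℕ) : ℤ_[p]) *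
          ((H ^ j * K ^ (q - j)) * (Theta p ^ r * G i))), pow_mul_mem_pPn ?_ hc2, ?_⟩
      · refine C_mul_mem_Pn _ ?_
        refine mul_mem_Pn (a := j * (e * (p + 1)) + (q - j) * (e * (p + 1)))
          (mul_mem_Pn (pow_mem_Pn hH j) hKj le_rfl) hlast ?_
        omega
      · rw [hchoose, mul_zero, zero_add, mul_pow, ← Polynomial.C_pow]
        ring
    · have hj0 : i0 ≤ j := by omega
      refine ⟨Polynomial.C ((p : ℤ_[p]) ^ (q - j)) * (Polynomial.C ((q.choose j : ℕ) : ℤ_[p]) *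
          ((H ^ (j - i0) * K ^ (q - j)) * (Theta p ^ r * G i))), ?_, 0,
          AddSubgroup.zero_mem _, ?_⟩
      · refine C_mul_mem_Pn _ (C_mul_mem_Pn _ ?_)
        refine mul_mem_Pn (a := (j - i0) * (e * (p + 1)) + (q - j) * (e * (p + 1)))
          (mul_mem_Pn (pow_mem_Pn hH (j - i0)) hKj le_rfl) hlast ?_
        have h5 : (j - i0) * (e * (p + 1)) + i0 * (e * (p + 1)) = j * (e * (p + 1)) := by
          rw [← Nat.add_mul, Nat.sub_add_cancel hj0]
        omega
      · have h6 : H ^ j = H ^ i0 * H ^ (j - i0) := by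
          rw [← pow_add, Nat.add_sub_cancel' hj0]
        rw [hchoose, add_zero, mul_pow, ← Polynomial.C_pow, h6]
        ring

theorem mul_mem_pPn {n h k : ℕ} {Q x : ℤ_[p][X]} (hQ : Q ∈ Pn p k) (hk : k ≤ n)
    (hx : x ∈ pPn p (n - k) h) : Q * x ∈ pPn p n h := by
  refine ⟨mul_mem_Pn hQ hx.1 (by omega), ?_⟩
  have h1 := hx.2
  change dvdP _ _
  rw [dvdP_iff] at h1 ⊢
  exact Dvd.dvd.mul_left h1 _

theorem Theta_pow_mem (hP : BProd) (m : ℕ) : Theta p ^ m ∈ Ip p (m * (p + 1)) m := by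
  obtain ⟨hP1, hP2, -, -, -, hP6, -, -⟩ := hP p
  induction m with
  | zero =>
    have h1 : (1 : ℤ_[p][X]) ∈ Pn p 0 := by
      change Polynomial.natDegree (1 : ℤ_[p][X]) ≤ 0
      simp
    rw [← hP6] at h1
    simpa using h1
  | succ m ih =>
    rw [pow_succ, Nat.succ_mul]
    exact hP1 _ _ _ _ _ _ ih hP2

section main

variable (hT : BTheta) (hP : BProd) (hM : BMul) (hcomp : BComp) (hBH : BH)

include hT hP hM hcomp hBH

theorem WW_n0 (e : ℕ) (he : 1 ≤ e) (n m h : ℕ) (hmn : (p + 1) * m ≤ n) :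
    (m / e - (2 * h + 2)) * (e * (p + 1)) ≤ n ∧
    (((n - (m / e - (2 * h + 2)) * (e * (p + 1)) : ℕ)) : ℝ) ≤
      (n : ℝ) - (p + 1) * m + (2 * h + 3) * (e * ((p : ℝ) + 1)) := by
  have h1 : m / e * e ≤ m := Nat.div_mul_le_self m e
  have h2 : m ≤ m / e * e + e := by
    have := Nat.lt_div_mul_add (a := m) (b := e) (by omega)
    omega
  have h3 : (m / e - (2 * h + 2)) * (e * (p + 1)) ≤ n := by
    calc (m / e - (2 * h + 2)) * (e * (p + 1)) ≤ (m / e) * (e * (p + 1)) :=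
          Nat.mul_le_mul_right _ (Nat.sub_le _ _)
      _ = (p + 1) * (m / e * e) := by ring
      _ ≤ (p + 1) * m := Nat.mul_le_mul_left _ h1
      _ ≤ n := hmn
  refine ⟨h3, ?_⟩
  rw [Nat.cast_sub h3]
  have h4 : (m : ℝ) ≤ (m / e : ℕ) * e + e := by exact_mod_cast h2
  have h5 : ((m / e : ℕ) : ℝ) ≤ ((m / e - (2 * h + 2) : ℕ) : ℝ) + (2 * h + 2) := by
    have : m / e ≤ (m / e - (2 * h + 2)) + (2 * h + 2) := by omega
    exact_mod_cast this
  have he0 : (0 : ℝ) ≤ e := Nat.cast_nonneg e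
  have hp0 : (0 : ℝ) ≤ (p : ℝ) + 1 := by positivity
  have h6 : ((m / e : ℕ) : ℝ) * e ≤ (((m / e - (2 * h + 2) : ℕ) : ℝ) + (2 * h + 2)) * e :=
    mul_le_mul_of_nonneg_right h5 he0
  have h7 : (m : ℝ) * ((p : ℝ) + 1) ≤
      ((((m / e - (2 * h + 2) : ℕ) : ℝ) + (2 * h + 2)) * e + e) * ((p : ℝ) + 1) :=
    mul_le_mul_of_nonneg_right (by linarith) hp0
  push_cast
  nlinarith

theorem WW_upper (e : ℕ) (g : SL(2, ℤ)) (hg : g ^ e = 1) (he : 1 ≤ e) (n m h : ℕ)
    (hmn : (p + 1) * m ≤ n) :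
    (pPn p n h).relIndex (Ip p n m) ≤
      p ^ (h * (n - (m / e - (2 * h + 2)) * (e * (p + 1)) + 1)) := by
  obtain ⟨hH1, hH2, hH3, ⟨K, hK, hTh⟩, hH5⟩ := hBH p e g hg he
  have hn0 := (WW_n0 (p := p) hT hP hM hcomp hBH e he n m h hmn).1
  set i0 := m / e - (2 * h + 2) with hi0
  set E := e * (p + 1) with hE
  have h1 := Ip_le_SH hT e he _ K hH1 hK hTh n m h hmn
  have hQ : HH p e g ^ i0 ∈ Pn p (i0 * E) := pow_mem_Pn hH1 i0
  have hSP : SH p n h i0 E (HH p e g) ≤ Pn p n := by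
    refine sup_le ?_ (pPn_le n h)
    rintro _ ⟨x, hx, rfl⟩
    exact mul_mem_Pn hQ hx (by omega)
  have h2 : (pPn p n h).relIndex (Ip p n m) ≤ (pPn p n h).relIndex (SH p n h i0 E (HH p e g)) :=
    AddSubgroup.relIndex_le_of_le_right h1 (relIndex_ne_of_le_right hSP (pPn_index_ne n h))
  have h3 : (pPn p n h).relIndex (SH p n h i0 E (HH p e g)) ≤
      (pPn p (n - i0 * E) h).relIndex (Pn p (n - i0 * E)) := by
    unfold SH
    rw [AddSubgroup.relIndex_sup_right, ← AddSubgroup.relIndex_comap]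
    refine AddSubgroup.relIndex_le_of_le_left ?_ (pPn_index_ne _ _)
    intro x hx
    exact mul_mem_pPn hQ hn0 hx
  rw [pPn_index] at h3
  exact h2.trans h3

theorem WW_lower (n m h : ℕ) (hmn : (p + 1) * m ≤ n) :
    p ^ (h * (n - (p + 1) * m + 1)) ≤ (pPn p n h).relIndex (Ip p n m) := by
  obtain ⟨hP1, hP2, -, -, -, hP6, -, -⟩ := hP p
  have hTm := Theta_pow_mem (p := p) hP m
  have hm' : m * (p + 1) ≤ n := by rw [mul_comm]; exact hmn
  have h1 : (Pn p (n - m * (p + 1))).map (AddMonoidHom.mulLeft (Theta p ^ m)) ≤ Ip p n m := by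
    rintro _ ⟨x, hx, rfl⟩
    rw [← hP6] at hx
    have h2 := hP1 _ _ _ _ _ _ hTm hx
    rw [Nat.add_sub_cancel' hm', Nat.add_zero] at h2
    exact h2
  have h2 : (pPn p n h).relIndex ((Pn p (n - m * (p + 1))).map
      (AddMonoidHom.mulLeft (Theta p ^ m))) ≤ (pPn p n h).relIndex (Ip p n m) :=
    AddSubgroup.relIndex_le_of_le_right h1 (relIndex_ne_of_le_right (Ip_le n m) (pPn_index_ne n h))
  rw [← AddSubgroup.relIndex_comap] at h2
  refine le_trans ?_ h2
  have h3 : (Pn p (n - m * (p + 1))) ⊓ (pPn p n h).comap (AddMonoidHom.mulLeft (Theta p ^ m))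
      ≤ pPn p (n - m * (p + 1)) h := by
    rintro x ⟨hx1, hx2⟩
    have hx3 : Theta p ^ m * x ∈ pPn p n h := hx2
    exact ⟨hx1, gauss h m not_dvdP_Theta hx3.2⟩
  rw [← AddSubgroup.inf_relIndex_left (Pn p (n - m * (p + 1))), mul_comm (p + 1) m, ← pPn_index]
  refine AddSubgroup.relIndex_le_of_le_left h3 ?_
  rw [AddSubgroup.inf_relIndex_left]
  refine relIndex_ne_of_le_left (J := pPn p (n - m * (p + 1)) h) ?_ (pPn_index_ne _ _)
  intro x hx
  exact mul_mem_pPn hTm.1 hm' hx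

theorem WW_ker (d e : ℕ) (g : SL(2, ℤ)) (hg : g ^ e = 1) (he : 1 ≤ e) (n m h : ℕ)
    (hmn : (p + 1) * m ≤ n) :
    (Ip p n m ⊓ pPn p n h).relIndex (kerN n d g (Ip p n m) (Ip p n m ⊓ pPn p n h)) ≤
      (pPn p (n - (m / e - (2 * h + 2)) * (e * (p + 1))) h).relIndex
        (kerN (n - (m / e - (2 * h + 2)) * (e * (p + 1))) d g
          (Pn p (n - (m / e - (2 * h + 2)) * (e * (p + 1))))
          (pPn p (n - (m / e - (2 * h + 2)) * (e * (p + 1))) h)) := by
  obtain ⟨hH1, hH2, hH3, ⟨K, hK, hTh⟩, hH5⟩ := hBH p e g hg he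
  obtain ⟨-, -, -, -, -, -, hP7, hP8⟩ := hP p
  have hn0 := (WW_n0 (p := p) hT hP hM hcomp hBH e he n m h hmn).1
  set i0 := m / e - (2 * h + 2) with hi0
  set E := e * (p + 1) with hE
  have hinv : Inv (i0 * E) g (HH p e g ^ i0) :=
    Inv.pow hcomp hM (Inv.of_one hcomp E g _ hH1 hH2) i0
  have h1 := Ip_le_SH hT e he _ K hH1 hK hTh n m h hmn
  set X := kerN n d g (Ip p n m) (Ip p n m ⊓ pPn p n h) with hX
  set Z := kerN (n - i0 * E) d g (Pn p (n - i0 * E)) (pPn p (n - i0 * E) h) with hZ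
  have hXI : X ≤ Ip p n m := fun _ hx => hx.1
  have e1 : (Ip p n m ⊓ pPn p n h).relIndex X = (pPn p n h).relIndex X := by
    rw [← AddSubgroup.inf_relIndex_right, ← AddSubgroup.inf_relIndex_right (pPn p n h) X]
    congr 1
    rw [inf_comm (Ip p n m), inf_assoc, inf_eq_right.2 hXI]
  have hXY : X ≤ Z.map (AddMonoidHom.mulLeft (HH p e g ^ i0)) ⊔ pPn p n h := by
    intro x hx
    obtain ⟨a, ha, b, hb, rfl⟩ := SH_mem.1 (h1 hx.1)
    rw [AddSubgroup.mem_sup]
    refine ⟨HH p e g ^ i0 * a, ⟨a, ⟨ha, ?_⟩, rfl⟩, b, hb, rfl⟩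
    have h2 : Ng n d g (HH p e g ^ i0 * a + b) ∈ pPn p n h := (hx.2 : _ ∈ Ip p n m ⊓ pPn p n h).2
    have h3 : Ng n d g b ∈ pPn p n h := NgH_stab n d g _ (hP7 n h) ⟨b, hb, rfl⟩
    rw [Ng_add] at h2
    have h4 : Ng n d g (HH p e g ^ i0 * a) ∈ pPn p n h := by
      have := (pPn p n h).sub_mem h2 h3
      rwa [add_sub_cancel_right] at this
    rw [Ng_mul hM hinv d hn0 a ha] at h4
    refine ⟨?_, gauss h i0 hH5 h4.2⟩
    exact NgH_stab (n - i0 * E) d g _ (hP8 _) ⟨a, ha, rfl⟩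
  have hZP : Z ≤ Pn p (n - i0 * E) := fun _ hx => hx.1
  have hYP : Z.map (AddMonoidHom.mulLeft (HH p e g ^ i0)) ⊔ pPn p n h ≤ Pn p n := by
    refine sup_le ?_ (pPn_le n h)
    rintro _ ⟨x, hx, rfl⟩
    exact mul_mem_Pn hinv.1 (hZP hx) (by omega)
  rw [e1]
  have h5 := AddSubgroup.relIndex_le_of_le_right hXY
    (relIndex_ne_of_le_right hYP (pPn_index_ne n h))
  refine h5.trans ?_
  rw [AddSubgroup.relIndex_sup_right, ← AddSubgroup.relIndex_comap]
  refine AddSubgroup.relIndex_le_of_le_left ?_ (relIndex_ne_of_le_right hZP (pPn_index_ne _ _))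
  intro x hx
  exact mul_mem_pPn hinv.1 hn0 hx

end main

theorem WW_ker_log (hT : BTheta) (hP : BProd) (hM : BMul) (hcomp : BComp) (hBH : BH)
    (d e : ℕ) (g : SL(2, ℤ)) (hg : g ^ e = 1) (he : 1 ≤ e) (he4 : e ≤ 4) (hd : 1 ≤ d)
    (hde : d = 2 → e = 4) (kk : ℕ → ℕ)
    (h1 : ∀ n, (d = 2 → Even n) → |(kk n : ℝ) - (1 - 1 / (d : ℝ)) * ((n : ℝ) + 1)| ≤ 1)
    (h2 : ∀ n j, (d = 2 → Even n) →
      (pPn p n j).relIndex (kerN n d g (Pn p n) (pPn p n j)) ≠ 0 ∧
      (pPn p n j).relIndex (kerN n d g (Pn p n) (pPn p n j)) ≤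
        p ^ (j * kk n + padicValNat p d * (n + 1)))
    (n m h : ℕ) (hn : Even n) (hh : 1 ≤ h) (hmn : (p + 1) * m ≤ n) :
    Real.logb p ((Ip p n m ⊓ pPn p n h).relIndex
      (kerN n d g (Ip p n m) (Ip p n m ⊓ pPn p n h))) ≤
      (1 - 1 / (d : ℝ)) * (h * ((n : ℝ) - (p + 1) * m)) +
        (20 * ((p : ℝ) + 1) + 2 + padicValNat p d) * ((h : ℝ) ^ 2 + n + 1) := by
  have hp : 1 < (p : ℝ) := by exact_mod_cast (Fact.out : p.Prime).one_lt
  have k1 := WW_ker (p := p) hT hP hM hcomp hBH d e g hg he n m h hmn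
  obtain ⟨k2, k3⟩ := WW_n0 (p := p) hT hP hM hcomp hBH e he n m h hmn
  set n0 := n - (m / e - (2 * h + 2)) * (e * (p + 1)) with hn0
  have hpar : d = 2 → Even n0 := by
    intro hd2
    have h5 : Even ((m / e - (2 * h + 2)) * (e * (p + 1))) := by
      rw [hde hd2]
      exact ⟨(m / 4 - (2 * h + 2)) * (2 * (p + 1)), by ring⟩
    exact (Nat.even_sub k2).2 (iff_of_true hn h5)
  obtain ⟨k4, k5⟩ := h2 n0 h hpar
  have k6 := (abs_le.1 (h1 n0 hpar)).2
  have k7 := k1.trans k5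
  have hn00 : (n0 : ℝ) ≤ n := by exact_mod_cast Nat.sub_le _ _
  have hpos : (0 : ℝ) < ((Ip p n m ⊓ pPn p n h).relIndex
      (kerN n d g (Ip p n m) (Ip p n m ⊓ pPn p n h)) : ℕ) := by
    have hne : (Ip p n m ⊓ pPn p n h).relIndex
      (kerN n d g (Ip p n m) (Ip p n m ⊓ pPn p n h)) ≠ 0 := by
      have h6 : (kerN n d g (Ip p n m) (Ip p n m ⊓ pPn p n h)) ≤ Ip p n m := fun _ hx => hx.1
      refine relIndex_ne_of_le_right h6 ?_
      rw [AddSubgroup.inf_relIndex_left]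
      exact relIndex_ne_of_le_right (Ip_le n m) (pPn_index_ne n h)
    exact_mod_cast Nat.pos_of_ne_zero hne
  have k8 : (((Ip p n m ⊓ pPn p n h).relIndex
      (kerN n d g (Ip p n m) (Ip p n m ⊓ pPn p n h)) : ℕ) : ℝ) ≤
      (p : ℝ) ^ (h * kk n0 + padicValNat p d * (n0 + 1)) := by exact_mod_cast k7
  have k9 := Real.logb_le_logb_of_le hp hpos k8
  rw [Real.logb_pow, Real.logb_self_eq_one hp, mul_one] at k9
  refine k9.trans ?_
  push_cast
  have hc0 : 0 ≤ 1 - 1 / (d : ℝ) := by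
    rw [sub_nonneg, div_le_one (by exact_mod_cast hd)]
    exact_mod_cast hd
  have hc1 : 1 - 1 / (d : ℝ) ≤ 1 := by
    have : (0 : ℝ) ≤ 1 / (d : ℝ) := by positivity
    linarith
  set c := 1 - 1 / (d : ℝ) with hc
  have hh1 : (1 : ℝ) ≤ h := by exact_mod_cast hh
  have hh0 : (0 : ℝ) ≤ h := by linarith
  have he0 : (0 : ℝ) ≤ e := Nat.cast_nonneg e
  have he4' : (e : ℝ) ≤ 4 := by exact_mod_cast he4
  have hp1 : (0 : ℝ) ≤ (p : ℝ) + 1 := by linarith
  have hv0 : (0 : ℝ) ≤ padicValNat p d := Nat.cast_nonneg _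
  have hnn : (0 : ℝ) ≤ n := Nat.cast_nonneg n
  have hm0 : (0 : ℝ) ≤ m := Nat.cast_nonneg m
  have hmn' : ((p : ℝ) + 1) * m ≤ n := by exact_mod_cast hmn
  -- h * kk n0
  have q1 : (h : ℝ) * kk n0 ≤ h * (c * ((n0 : ℝ) + 1) + 1) :=
    mul_le_mul_of_nonneg_left (by linarith) hh0
  have q2 : c * ((n0 : ℝ) + 1) ≤ c * ((n : ℝ) - (p + 1) * m) + ((2 * h + 3) * (e * ((p : ℝ) + 1)) + 1) := by
    have r1 : c * ((n0 : ℝ) + 1) ≤ c * (((n : ℝ) - (p + 1) * m) + ((2 * h + 3) * (e * ((p : ℝ) + 1)) + 1)) :=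
      mul_le_mul_of_nonneg_left (by linarith) hc0
    have r2 : (0 : ℝ) ≤ (2 * h + 3) * (e * ((p : ℝ) + 1)) + 1 := by positivity
    have r3 : c * ((2 * h + 3) * (e * ((p : ℝ) + 1)) + 1) ≤ (2 * h + 3) * (e * ((p : ℝ) + 1)) + 1 :=
      mul_le_of_le_one_left r2 hc1
    rw [mul_add] at r1
    linarith
  have q3 : (2 * (h : ℝ) + 3) * (e * ((p : ℝ) + 1)) ≤ (5 * h) * (4 * ((p : ℝ) + 1)) := by
    refine mul_le_mul (by linarith) (mul_le_mul_of_nonneg_right he4' hp1) (by positivity)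
      (by positivity)
  have q4 : (h : ℝ) * (c * ((n0 : ℝ) + 1) + 1) ≤
      h * (c * ((n : ℝ) - (p + 1) * m) + (5 * h) * (4 * ((p : ℝ) + 1)) + 2) :=
    mul_le_mul_of_nonneg_left (by linarith) hh0
  have q5 : (padicValNat p d : ℝ) * ((n0 : ℝ) + 1) ≤ padicValNat p d * ((n : ℝ) + 1) :=
    mul_le_mul_of_nonneg_left (by linarith) hv0
  have q6 : (h : ℝ) ≤ (h : ℝ) ^ 2 := by nlinarith
  have q7 : 0 ≤ ((p : ℝ) + 1) * ((n : ℝ) + 1) := by positivity
  have q8 : 0 ≤ (padicValNat p d : ℝ) * (h : ℝ) ^ 2 := by positivity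
  nlinarith

end KerAux

open KerAux

theorem bWW (h1 : BKK) (h2 : BH) (h3 : BProd) (h4 : BTheta) (h5 : BMul) (h6 : BComp) : BWW := by
  intro p _
  obtain ⟨k2, k21, k22, -⟩ := h1 p 2 4 mS (Or.inl ⟨rfl, rfl, rfl⟩)
  obtain ⟨k3, k31, k32, -⟩ := h1 p 3 3 mV (Or.inr ⟨rfl, rfl, rfl⟩)
  have hp : 1 < (p : ℝ) := by exact_mod_cast (Fact.out : p.Prime).one_lt
  refine ⟨20 * ((p : ℝ) + 1) + 2 + (padicValNat p 2 + padicValNat p 3 : ℝ), by positivity, ?_⟩
  intro n m h hn hh hmn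
  have hv2 : (0 : ℝ) ≤ (padicValNat p 2 : ℝ) := by positivity
  have hv3 : (0 : ℝ) ≤ (padicValNat p 3 : ℝ) := by positivity
  have hpos : (0 : ℝ) ≤ (h : ℝ) ^ 2 + n + 1 := by positivity
  refine ⟨?_, ?_, ?_, ?_⟩
  · rw [AddSubgroup.inf_relIndex_left]
    have u1 := WW_upper (p := p) h4 h3 h5 h6 h2 4 mS mS_pow (by norm_num) n m h hmn
    have u2 := WW_lower (p := p) h4 h3 h5 h6 h2 n m h hmn
    obtain ⟨u3, u4⟩ := WW_n0 (p := p) h4 h3 h5 h6 h2 4 (by norm_num) n m h hmn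
    set n0 := n - (m / 4 - (2 * h + 2)) * (4 * (p + 1)) with hn0
    have hne : (pPn p n h).relIndex (Ip p n m) ≠ 0 :=
      relIndex_ne_of_le_right (Ip_le n m) (pPn_index_ne n h)
    have hpos1 : (0 : ℝ) < (((pPn p n h).relIndex (Ip p n m) : ℕ) : ℝ) := by
      exact_mod_cast Nat.pos_of_ne_zero hne
    have u5 : (((pPn p n h).relIndex (Ip p n m) : ℕ) : ℝ) ≤ (p : ℝ) ^ (h * (n0 + 1)) := by
      exact_mod_cast u1
    have u6 : (p : ℝ) ^ (h * (n - (p + 1) * m + 1)) ≤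
        (((pPn p n h).relIndex (Ip p n m) : ℕ) : ℝ) := by
      exact_mod_cast u2
    have u7 := Real.logb_le_logb_of_le hp hpos1 u5
    have u8 := Real.logb_le_logb_of_le hp (by positivity) u6
    rw [Real.logb_pow, Real.logb_self_eq_one hp, mul_one] at u7 u8
    push_cast at u7
    rw [Nat.cast_mul, Nat.cast_add, Nat.cast_sub hmn] at u8
    push_cast at u8
    have hh1 : (1 : ℝ) ≤ h := by exact_mod_cast hh
    have hh0 : (0 : ℝ) ≤ h := by linarith
    have hnn : (0 : ℝ) ≤ n := Nat.cast_nonneg n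
    rw [abs_le]
    constructor
    · have : 0 ≤ (20 * ((p : ℝ) + 1) + 2 + (padicValNat p 2 + padicValNat p 3 : ℝ)) *
        ((h : ℝ) ^ 2 + n + 1) := by positivity
      nlinarith
    · have v1 : (h : ℝ) * ((n0 : ℝ) + 1) ≤
          h * (((n : ℝ) - (p + 1) * m) + ((2 * h + 3) * (4 * ((p : ℝ) + 1)) + 1)) := by
        push_cast at u4
        exact mul_le_mul_of_nonneg_left (by linarith) hh0
      have v2 : (2 * (h : ℝ) + 3) * (4 * ((p : ℝ) + 1)) ≤ (5 * h) * (4 * ((p : ℝ) + 1)) :=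
        mul_le_mul_of_nonneg_right (by linarith) (by positivity)
      have v3 : (h : ℝ) * ((2 * h + 3) * (4 * ((p : ℝ) + 1)) + 1) ≤
          h * ((5 * h) * (4 * ((p : ℝ) + 1)) + 1) :=
        mul_le_mul_of_nonneg_left (by linarith) hh0
      have v4 : (h : ℝ) ≤ (h : ℝ) ^ 2 := by nlinarith
      have v5 : 0 ≤ (20 * ((p : ℝ) + 1)) * ((n : ℝ) + 1) := by positivity
      have v6 : 0 ≤ (padicValNat p 2 + padicValNat p 3 : ℝ) * ((h : ℝ) ^ 2 + n + 1) := by
        positivity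
      nlinarith
  · rw [AddSubgroup.inf_relIndex_left]
    exact relIndex_ne_of_le_right (Ip_le n m) (pPn_index_ne n h)
  · have b := WW_ker_log (p := p) h4 h3 h5 h6 h2 2 4 mS mS_pow (by norm_num) (by norm_num)
      (by norm_num) (fun _ => rfl) k2 k21 k22 n m h hn hh hmn
    have b2 : 0 ≤ (padicValNat p 3 : ℝ) * ((h : ℝ) ^ 2 + n + 1) := by positivity
    have b3 : (1 - 1 / ((2 : ℕ) : ℝ)) = 1 / 2 := by norm_num
    rw [b3] at b
    nlinarith
  · have b := WW_ker_log (p := p) h4 h3 h5 h6 h2 3 3 mV mV_pow (by norm_num) (by norm_num)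
      (by norm_num) (fun h => by omega) k3 k31 k32 n m h hn hh hmn
    have b2 : 0 ≤ (padicValNat p 2 : ℝ) * ((h : ℝ) ^ 2 + n + 1) := by positivity
    have b3 : (1 - 1 / ((3 : ℕ) : ℝ)) = 2 / 3 := by norm_num
    rw [b3] at b
    nlinarith

end Gou

end
end

section

/-!
MP_602313_nt, module C1 (helper5): final statements of module C1.
-/

namespace Gou

theorem c1_h1 : H1Hecke := h1Hecke k0Sum k2T

theorem c1_heckeExists {N : ℕ} (hN : N ≠ 0) : HeckeExists N := c1_h1 N hN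

theorem c1_h5 : H5Coeff := h5Coeff q1Exp q2Uniq q3U q4V

theorem c1_s2 : S2Sturm := s2Sturm s1Level

theorem c1_h4 : H4Sturm := h4Sturm q1Exp q6Decay c1_s2

theorem c1_finDim {N : ℕ} (hN : N ≠ 0) : FinDim N := h6Fin c1_h4 q1Exp q2Uniq N hN

theorem c1_heckeComm {N : ℕ} (hN : N ≠ 0) : HeckeComm N := h7Comm q1Exp q2Uniq c1_h5 N hN

theorem c1_multBound {N : ℕ} (hN : N ≠ 0) : MultBound N :=
  f1Mult q1Exp q2Uniq c1_h4 r4Count (r7Vanish q1Exp c1_h1 c1_h5 r1Eigen r3Fact) N hN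

theorem c1_charSep {N : ℕ} (hN : N ≠ 0) : CharSep N :=
  f2Sep q1Exp q2Uniq q3U q5Shift q6Decay c1_s2 c1_h1 (h2U k0Sum k1U) (h3B k3B) c1_h5 r1Eigen
    r2Conv r3Fact r5Ded r6Dep N hN

end Gou

end

section

/-!
MP_602313_nt, module C2: `PetSelfAdj` and `DimLower`, unconditionally.
-/

namespace Gou

theorem c2Pet : ∀ N : ℕ, N ≠ 0 → PetSelfAdj N :=
  p9Pet (wtG (wtSL fdFinite fdVol)) petBdd petPos unfold petSubst heckeEquiv heckeSlash

theorem c2DimInj : DimInj := dimInj deltaInv mulCusp (deltaStab deltaGrow matRed) vander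

theorem c2Dim : ∀ N : ℕ, N ≠ 0 → FinDim N → DimLower N :=
  l7Dim dimOne c2DimInj

end Gou

end

section

/-!
MP_602313_nt, module C2: `EichlerEmb`, unconditionally.
-/

namespace Gou

theorem c2Bdry : EBdry :=
  eBdry ePer ePrim eConst (eChain (bComp bMul)) eSL (bComp bMul) bMap

theorem c2Phi : EPhi :=
  ePhi ePer ePrim eConst (eChain (bComp bMul)) eSL c2Bdry (eUniq (bComp bMul))
    (eTrans (bComp bMul))

theorem c2Eich : ∀ N : ℕ, N ≠ 0 → EichlerEmb N :=
  eEmb c2Phi (eKappa ePrim eConst (bComp bMul) q1Exp) eFour (eEps (bComp bMul)) c2Bdry ePrim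
    q1Exp

end Gou

end

section

/-!
E1a: the matrices of the Hecke operators in a basis of the modular symbols.
-/

open scoped MatrixGroups ModularForm UpperHalfPlane Polynomial ENNReal
open CongruenceSubgroup UpperHalfPlane MeasureTheory Filter

noncomputable section

namespace Gou

/-- The Hecke operator as a linear map on all functions. -/
def heckeLin (R : Type*) [CommRing R] (n l : ℕ) :
    (Vec → Vec → R[X]) →ₗ[R] (Vec → Vec → R[X]) where
  toFun := heckeSymbFun n l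
  map_add' φ φ' := by
    funext r s
    simp only [heckeSymbFun, Pi.add_apply, symAct_add, Finset.sum_add_distrib]
    ring
  map_smul' c φ := by
    funext r s
    simp only [heckeSymbFun, Pi.smul_apply, symAct_smul, RingHom.id_apply, smul_add,
      Finset.smul_sum]

@[simp] lemma heckeLin_apply (R : Type*) [CommRing R] (n l : ℕ) (φ : Vec → Vec → R[X]) :
    heckeLin R n l φ = heckeSymbFun n l φ := rfl

lemma symAct_cast (R : Type*) [CommRing R] (n : ℕ) (g : Matrix (Fin 2) (Fin 2) ℤ) (f : ℤ[X]) :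
    (symAct n g f).map (Int.castRingHom R) = symAct n g (f.map (Int.castRingHom R)) := by
  simp only [symAct, Polynomial.map_sum, Polynomial.map_mul, Polynomial.map_pow,
    Polynomial.map_add, Polynomial.map_C, Polynomial.map_X, Polynomial.coeff_map,
    eq_intCast (Int.castRingHom R), Int.cast_id]

lemma hecke_cast (R : Type*) [CommRing R] (n l : ℕ) (φ : Vec → Vec → ℤ[X]) :
    heckeSymbFun n l (castSymb R φ) = castSymb R (heckeSymbFun n l φ) := by
  funext r s
  simp only [heckeSymbFun, castSymb, Polynomial.map_add, Polynomial.map_sum, symAct_cast]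

lemma e1a_castSymb_sum (R : Type*) [CommRing R] {r : ℕ} (b : Fin r → Vec → Vec → ℤ[X])
    (c : Fin r → ℤ) :
    castSymb R (∑ i, c i • b i) = ∑ i, (c i : R) • castSymb R (b i) := by
  funext u v
  simp only [castSymb, Finset.sum_apply, Pi.smul_apply, Polynomial.map_sum]
  refine Finset.sum_congr rfl fun i _ => ?_
  rw [Polynomial.smul_eq_C_mul, Polynomial.smul_eq_C_mul, Polynomial.map_mul, Polynomial.map_C,
    eq_intCast]

theorem e1a (N : ℕ) : E1Mat N := by
  classical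
  intro hH n r b hb
  have hex : ∀ l : ℕ, ∀ j : Fin r, ∃ c : Fin r → ℤ, l.Prime → ¬ l ∣ N →
      heckeSymbFun n l (b j) = ∑ i, c i • b i := by
    intro l j
    by_cases hl : l.Prime ∧ ¬ l ∣ N
    · obtain ⟨c, hc, -⟩ := hb.2.1 _ (hH n l hl.1 hl.2 (b j) (hb.1 j))
      exact ⟨c, fun _ _ => hc⟩
    · exact ⟨0, fun h1 h2 => absurd ⟨h1, h2⟩ hl⟩
  choose c hc using hex
  refine ⟨fun l => Matrix.of fun i j => c l j i, fun l hl hlN => ⟨fun x => ?_, fun x => ?_⟩⟩
  · have h1 : heckeSymbFun n l (symZ b x) = ∑ j, x j • heckeSymbFun n l (b j) := by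
      rw [← heckeLin_apply, symZ, map_sum]
      refine Finset.sum_congr rfl fun j _ => ?_
      rw [map_smul, heckeLin_apply]
    rw [h1, symZ]
    simp only [Matrix.mulVec, dotProduct, Matrix.of_apply, Finset.sum_smul]
    rw [Finset.sum_comm]
    refine Finset.sum_congr rfl fun j _ => ?_
    rw [hc l j hl hlN, Finset.smul_sum]
    refine Finset.sum_congr rfl fun i _ => ?_
    rw [smul_smul, mul_comm]
  · have h1 : heckeSymbFun n l (symC b x) = ∑ j, x j • heckeSymbFun n l (castSymb ℂ (b j)) := by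
      rw [← heckeLin_apply, symC, map_sum]
      refine Finset.sum_congr rfl fun j _ => ?_
      rw [map_smul, heckeLin_apply]
    rw [h1, symC]
    simp only [Matrix.mulVec, dotProduct, Matrix.map_apply, Matrix.of_apply, Finset.sum_smul]
    rw [Finset.sum_comm]
    refine Finset.sum_congr rfl fun j _ => ?_
    rw [hecke_cast, hc l j hl hlN, e1a_castSymb_sum, Finset.smul_sum]
    refine Finset.sum_congr rfl fun i _ => ?_
    rw [smul_smul, mul_comm]

end Gou

end
end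

section

/-!
MP_602313_nt, module B: assembly (modular symbols).
-/

noncomputable section

namespace Gou

theorem m_bComp : BComp := bComp bMul
theorem m_bHecke : BHecke := bHecke m_bComp bMap
theorem m_bComm : BComm := bComm m_bComp
theorem m_bDiv : BDiv := bDiv bManin m_bComp
theorem m_bVal : BVal := bVal bTrans m_bComp
theorem m_bTp : BTp := bTp m_bVal bMap
theorem m_bVmod : BVmod := bVmod m_bComp
theorem m_bJet : BJet := bJet m_bComp
theorem m_bBasis : BBasis := bBasis m_bDiv bReps bManin m_bComp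
theorem m_bNorm : BNorm := bNorm bManin m_bComp bReps
theorem m_bProd : BProd := bProd m_bComp bMul
theorem m_bStep : BStep := bStep m_bComp bMul
theorem m_bTheta : BTheta := bTheta m_bStep
theorem m_bCard : BCard := bCard m_bStep
theorem m_bH : BH := bH m_bComp bMul m_bProd
theorem m_bCount : BCount := bCount bManin
theorem m_bKK : BKK := bKK m_bComp bMul bLat m_bH
theorem m_bKerI : BKerI := bKerI m_bKK m_bH m_bProd m_bCard bMul m_bComp
theorem m_bWW : BWW := bWW m_bKK m_bH m_bProd m_bTheta bMul m_bComp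
theorem m_bCountJK : BCountJK := bCountJK m_bCount m_bComp bManin bReps
theorem m_bImage : BImage :=
  bImage m_bCountJK m_bCard m_bKerI bKerT m_bProd m_bDiv bReps m_bHecke m_bComp bMap
theorem m_bHodge : BHodge :=
  bHodge m_bCountJK m_bWW bKerT m_bProd m_bTp m_bDiv bReps m_bComp bMap
theorem m_bRank : BRank :=
  bRank m_bCountJK m_bKK bKerT m_bDiv bReps bMap m_bProd
theorem m_bDeep : BDeep := bDeep m_bTp m_bVmod m_bJet m_bDiv bReps bMap

end Gou

end
end

section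

/-!
MP_602313_nt, modules C1 and C2: assembly (cusp forms).
-/

end

section

/-!
E1b: translation between coordinates and symbols.
-/

open scoped MatrixGroups ModularForm UpperHalfPlane Polynomial ENNReal
open CongruenceSubgroup UpperHalfPlane MeasureTheory Filter

noncomputable section

namespace Gou

lemma e1b_castSymb_mem {N n : ℕ} {φ : Vec → Vec → ℤ[X]} (hφ : φ ∈ Symb N n ℤ) (R : Type*)
    [CommRing R] : castSymb R φ ∈ Symb N n R := by
  obtain ⟨h1, h2, h3, h4, h5⟩ := hφ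
  refine ⟨?_, ?_, ?_, ?_, ?_⟩
  · intro r s
    exact Polynomial.natDegree_map_le.trans (h1 r s)
  · intro r s h
    simp only [castSymb, h2 r s h, Polynomial.map_zero]
  · intro r s t hr hs ht
    simp only [castSymb]
    rw [← Polynomial.map_add, h3 r s t hr hs ht]
  · intro c r s hc
    simp only [castSymb, h4 c r s hc]
  · intro γ hγ r s
    simp only [castSymb]
    rw [← symAct_cast, h5 γ hγ r s]

lemma symZ_smul {r : ℕ} (b : Fin r → Vec → Vec → ℤ[X]) (q : ℤ) (x : Fin r → ℤ) :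
    symZ b (fun k => q * x k) = q • symZ b x := by
  simp only [symZ, Finset.smul_sum, smul_smul]

lemma symZ_sum {r q : ℕ} (b : Fin r → Vec → Vec → ℤ[X]) (c : Fin q → ℤ) (x : Fin q → Fin r → ℤ) :
    ∑ i, c i • symZ b (x i) = symZ b (fun k => ∑ i, c i * x i k) := by
  simp only [symZ, Finset.smul_sum, smul_smul, Finset.sum_smul]
  rw [Finset.sum_comm]

theorem e1b : E1Ind := by
  classical
  intro N n r b hb
  have hZ : ∀ x : Fin r → ℤ, symZ b x ∈ Symb N n ℤ := fun x =>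
    Submodule.sum_mem _ fun i _ => Submodule.smul_mem _ _ (hb.1 i)
  have hC : ∀ x : Fin r → ℂ, symC b x ∈ Symb N n ℂ := fun x =>
    Submodule.sum_mem _ fun i _ => Submodule.smul_mem _ _ (e1b_castSymb_mem (hb.1 i) ℂ)
  have hZi : ∀ x y : Fin r → ℤ, symZ b x = symZ b y → x = y := fun x y hxy =>
    (hb.2.1 _ (hZ x)).unique rfl hxy
  have hCi : ∀ x y : Fin r → ℂ, symC b x = symC b y → x = y := fun x y hxy =>
    (hb.2.2 _ (hC x)).unique rfl hxy
  have hdvd : ∀ (x : Fin r → ℤ) (q : ℤ), (∃ ψ ∈ Symb N n ℤ, symZ b x = q • ψ) ↔ ∀ k, q ∣ x k := by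
    intro x q
    constructor
    · rintro ⟨ψ, hψ, he⟩ k
      obtain ⟨c, hc, -⟩ := hb.2.1 ψ hψ
      have h1 : symZ b x = symZ b (fun k => q * c k) := by
        rw [symZ_smul, he, hc, symZ]
      have h2 := congrFun (hZi _ _ h1) k
      exact ⟨c k, h2⟩
    · intro h
      choose c hc using h
      refine ⟨symZ b c, hZ c, ?_⟩
      rw [← symZ_smul]
      congr 1
      funext k
      exact hc k
  refine ⟨hZ, hZi, hCi, hdvd, ?_⟩
  intro p q x
  constructor
  · rintro ⟨-, h⟩ c hc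
    refine h c ?_
    rw [symZ_sum]
    exact (hdvd _ _).2 hc
  · intro h
    refine ⟨fun i => hZ _, ?_⟩
    intro c hc
    rw [symZ_sum] at hc
    exact h c ((hdvd _ _).1 hc)

end Gou

end
end

section

/-!
E1c: the trace bound.
-/

open scoped MatrixGroups ModularForm UpperHalfPlane Polynomial ENNReal
open CongruenceSubgroup UpperHalfPlane MeasureTheory Filter

noncomputable section

namespace Gou

lemma symC_mem {N n r : ℕ} {b : Fin r → Vec → Vec → ℤ[X]} (hb : IsSymbBasis N n r b)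
    (x : Fin r → ℂ) : symC b x ∈ Symb N n ℂ :=
  Submodule.sum_mem _ fun i _ => Submodule.smul_mem _ _ (e1b_castSymb_mem (hb.1 i) ℂ)

lemma symC_zero {r : ℕ} (b : Fin r → Vec → Vec → ℤ[X]) : symC b 0 = 0 := by
  simp [symC]

lemma symC_smul {r : ℕ} (b : Fin r → Vec → Vec → ℤ[X]) (a : ℂ) (x : Fin r → ℂ) :
    symC b (a • x) = a • symC b x := by
  simp only [symC, Finset.smul_sum, smul_smul, Pi.smul_apply, smul_eq_mul]

theorem e1c (N : ℕ) : E1Tr N := by
  classical
  rintro ⟨C, hC⟩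
  refine ⟨C, ?_⟩
  intro n hn r b M hb hM w hw
  obtain ⟨nrm, h0, h1, -, h3⟩ := hC n hn
  have hinj := (e1b N n r b hb).2.2.1
  have key : ∀ w : List ℕ, (∀ l ∈ w, l.Prime ∧ ¬ l ∣ N) → ∀ x : Fin r → ℂ,
      nrm (symC b ((cm ℂ ((w.map M).prod)).mulVec x)) ≤
        (w.prod : ℝ) ^ (C * (n + 1)) * nrm (symC b x) := by
    intro w
    induction w with
    | nil =>
      intro _ x
      simp [cm]
    | cons l w ih =>
      intro hw x
      have hl := hw l (List.mem_cons_self ..)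
      have hw' : ∀ l ∈ w, l.Prime ∧ ¬ l ∣ N := fun l hl => hw l (List.mem_cons_of_mem _ hl)
      have e1 : cm ℂ (((l :: w).map M).prod) = cm ℂ (M l) * cm ℂ ((w.map M).prod) := by
        rw [List.map_cons, List.prod_cons]
        exact Matrix.map_mul (f := Int.castRingHom ℂ)
      rw [e1, ← Matrix.mulVec_mulVec, ← (hM l hl.1 hl.2).2]
      refine (h3 l hl.1 hl.2 _ (symC_mem hb _)).trans ?_
      rw [List.prod_cons, Nat.cast_mul, mul_pow, mul_assoc]
      exact mul_le_mul_of_nonneg_left (ih hw' x) (by positivity)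
  set A : Matrix (Fin r) (Fin r) ℤ := (w.map M).prod with hA
  have heig : ∀ a ∈ (cm ℂ A).charpoly.roots, ‖a‖ ≤ (w.prod : ℝ) ^ (C * (n + 1)) := by
    intro a ha
    have hroot : (cm ℂ A).charpoly.IsRoot a := (Polynomial.mem_roots'.1 ha).2
    rw [← Matrix.mem_spectrum_iff_isRoot_charpoly, ← Matrix.spectrum_toLin',
      ← Module.End.hasEigenvalue_iff_mem_spectrum] at hroot
    obtain ⟨x, hx⟩ := hroot.exists_hasEigenvector
    have hx1 : (cm ℂ A).mulVec x = a • x := by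
      have := hx.apply_eq_smul
      rwa [Matrix.toLin'_apply] at this
    have hx0 : symC b x ≠ 0 := by
      intro h
      apply hx.2
      apply hinj
      rw [h, symC_zero]
    have hpos : 0 < nrm (symC b x) := by
      rcases (h0 _ (symC_mem hb x)).1.lt_or_eq with h | h
      · exact h
      · exact absurd ((h0 _ (symC_mem hb x)).2 h.symm) hx0
    have h5 := key w hw x
    rw [← hA, hx1, symC_smul, h1 a _ (symC_mem hb x)] at h5
    exact le_of_mul_le_mul_right h5 hpos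
  have htr : ((A.trace : ℤ) : ℂ) = ((cm ℂ A).charpoly.roots).sum := by
    rw [← Matrix.trace_eq_sum_roots_charpoly]
    simp [Matrix.trace, cm]
  have hcard : Multiset.card ((cm ℂ A).charpoly.roots) = r := by
    rw [IsAlgClosed.card_roots_eq_natDegree]
    simp
  have h6 : ‖((A.trace : ℤ) : ℂ)‖ ≤ r * (w.prod : ℝ) ^ (C * (n + 1)) := by
    rw [htr]
    refine (norm_multiset_sum_le _).trans ?_
    have h7 := Multiset.sum_le_card_nsmul (((cm ℂ A).charpoly.roots).map fun a => ‖a‖)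
      ((w.prod : ℝ) ^ (C * (n + 1))) (by
        intro x hx
        obtain ⟨a, ha, rfl⟩ := Multiset.mem_map.1 hx
        exact heig a ha)
    rw [Multiset.card_map, hcard, nsmul_eq_mul] at h7
    exact h7
  rw [Complex.norm_intCast] at h6
  rw [Int.cast_abs]
  exact h6

end Gou

end
end

section

/-!
E1: existence of the coordinates.
-/

open scoped MatrixGroups ModularForm UpperHalfPlane Polynomial ENNReal
open CongruenceSubgroup UpperHalfPlane MeasureTheory Filter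

noncomputable section

namespace Gou

lemma symC_add {r : ℕ} (b : Fin r → Vec → Vec → ℤ[X]) (x y : Fin r → ℂ) :
    symC b (x + y) = symC b x + symC b y := by
  simp only [symC, Pi.add_apply, add_smul, Finset.sum_add_distrib]

lemma symZ_sub {r : ℕ} (b : Fin r → Vec → Vec → ℤ[X]) (x y : Fin r → ℤ) :
    symZ b (x - y) = symZ b x - symZ b y := by
  simp only [symZ, Pi.sub_apply, sub_smul, Finset.sum_sub_distrib]

/-- The coordinates of a family of complex symbols. -/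
lemma exists_coord {N n r : ℕ} {b : Fin r → Vec → Vec → ℤ[X]} (hb : IsSymbBasis N n r b)
    {V : Type*} [AddCommGroup V] [Module ℂ V] (Φ0 : V →ₗ[ℂ] (Vec → Vec → ℂ[X]))
    (hΦ : ∀ x, Φ0 x ∈ Symb N n ℂ) :
    ∃ Φ : V →ₗ[ℂ] (Fin r → ℂ), ∀ x, symC b (Φ x) = Φ0 x := by
  have hinj := (e1b N n r b hb).2.2.1
  have hex : ∀ x : V, ∃ c : Fin r → ℂ, symC b c = Φ0 x := by
    intro x
    obtain ⟨c, hc, -⟩ := hb.2.2 _ (hΦ x)
    exact ⟨c, hc.symm⟩
  choose c hc using hex
  refine ⟨{ toFun := c, map_add' := fun x y => ?_, map_smul' := fun a x => ?_ }, hc⟩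
  · apply hinj
    rw [hc, symC_add, hc, hc, map_add]
  · apply hinj
    rw [hc, RingHom.id_apply, symC_smul, hc, map_smul]

theorem e1 {p N : ℕ} (ha : E1Mat N) (hb : E1Ind) (hc : E1Tr N) (h1 : SymbBasisExists N)
    (h2 : SymbRank N) (h3 : SymbHecke N) (h4 : SymbComm N) (h5 : SymbHodge p N)
    (h6 : SymbDeep p N) (h7 : SymbImage p N) (h8 : SymbNorm N) (h9 : EichlerEmb N)
    (hp : p.Prime) (hpN : ¬ p ∣ N) : CoordExists p N := by
  classical
  obtain ⟨C2, h2⟩ := h2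
  obtain ⟨C5, h5⟩ := h5
  obtain ⟨C6, n6, h6⟩ := h6
  obtain ⟨C7, h7⟩ := h7
  obtain ⟨C8, h8⟩ := hc h8
  obtain ⟨n9, h9⟩ := h9
  obtain ⟨C, hC2, hC5, hC6, hC7, hC8⟩ : ∃ C : ℕ, C2 ≤ C ∧ C5 ≤ C ∧ C6 ≤ C ∧ C7 ≤ C ∧ C8 ≤ C := by
    refine ⟨C2 + ⌈C5⌉₊ + C6 + ⌈C7⌉₊ + C8, by omega, ?_, by omega, ?_, by omega⟩
    · refine (Nat.le_ceil C5).trans ?_
      exact_mod_cast (by omega : ⌈C5⌉₊ ≤ C2 + ⌈C5⌉₊ + C6 + ⌈C7⌉₊ + C8)
    · refine (Nat.le_ceil C7).trans ?_
      exact_mod_cast (by omega : ⌈C7⌉₊ ≤ C2 + ⌈C5⌉₊ + C6 + ⌈C7⌉₊ + C8)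
  refine ⟨C, max n6 n9, ?_⟩
  intro n hn hev
  obtain ⟨r0, b, hbas⟩ := h1 n hev
  obtain ⟨M, hM⟩ := ha h3 n r0 b hbas
  obtain ⟨hZ, hZi, hCi, hdvd, hPI⟩ := hb N n r0 b hbas
  obtain ⟨Φ0, hΦi, hΦm, hΦe⟩ := h9 n ((le_max_right _ _).trans hn) hev
  obtain ⟨Φ, hΦ⟩ := exists_coord hbas Φ0 hΦm
  have hMp := (hM p hp hpN).1
  refine ⟨⟨r0, M, ?_, ?_, ?_, ?_, ?_, ?_, Φ, ?_, ?_⟩⟩
  · intro l l' hl hl' hlN hl'N
    have key : ∀ x : Fin r0 → ℤ, (M l * M l').mulVec x = (M l' * M l).mulVec x := by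
      intro x
      apply hZi
      rw [← Matrix.mulVec_mulVec, ← Matrix.mulVec_mulVec, ← (hM l hl hlN).1,
        ← (hM l' hl' hl'N).1, ← (hM l' hl' hl'N).1, ← (hM l hl hlN).1]
      exact h4 n l l' hl hl' hlN hl'N _ (hZ x)
    apply Matrix.toLin'.injective
    apply LinearMap.ext
    intro x
    rw [Matrix.toLin'_apply, Matrix.toLin'_apply]
    exact key x
  · exact (h2 n hev r0 b hbas).trans (by omega)
  · intro m hm r x hx hd
    have h10 := h5 n hev m hm r (fun i => symZ b (x i)) ((hPI p r x).2 hx) ?_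
    · refine h10.trans ?_
      have h11 : (0 : ℝ) ≤ (n : ℝ) ^ (3 / 4 : ℝ) := by positivity
      have h12 := mul_le_mul_of_nonneg_right hC5 h11
      linarith
    · intro i
      have h13 := (hdvd ((M p).mulVec (x i)) ((p : ℤ) ^ m)).2 (hd i)
      obtain ⟨ψ, hψ, he⟩ := h13
      exact ⟨ψ, hψ, by rw [hMp, he]⟩
  · intro s h hCn hsh u hu r x hx hd
    have hC6n : C6 * n ^ 3 ≤ h ^ 4 := (Nat.mul_le_mul_right _ hC6).trans hCn
    have h10 := h6 n ((le_max_left _ _).trans hn) hev s h hC6n hsh u hu r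
      (fun i => symZ b (x i)) ((hPI p r x).2 hx) ?_
    · exact h10.trans (Nat.mul_le_mul_right _ hC6)
    · intro i
      have h13 := (hdvd _ ((p : ℤ) ^ (s + h))).2 (hd i)
      obtain ⟨ψ, hψ, he⟩ := h13
      refine ⟨ψ, hψ, ?_⟩
      rw [← he, Matrix.sub_mulVec, symZ_sub, hMp]
      congr 1
      rw [← symZ_smul]
      congr 1
      funext k
      rw [Matrix.scalar_apply, Matrix.mulVec_diagonal]
  · intro s hs r x hx
    have h10 := h7 n hev s hs r (fun i => symZ b (x i)) (fun i => hZ _) ?_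
    · refine h10.trans ?_
      have h12 := mul_le_mul_of_nonneg_right hC7 (Nat.cast_nonneg (α := ℝ) n)
      linarith
    · rintro i j ⟨ψ, hψ, he⟩
      apply hx
      have h14 : ∃ ψ ∈ Symb N n ℤ, symZ b ((M p).mulVec (x i) - (M p).mulVec (x j)) =
          ((p : ℤ) ^ s) • ψ := by
        refine ⟨ψ, hψ, ?_⟩
        rw [symZ_sub, ← hMp, ← hMp, he]
      exact (hdvd _ _).1 h14
  · intro w hw
    refine (h8 n hev r0 b M hbas hM w hw).trans ?_
    refine mul_le_mul_of_nonneg_left ?_ (Nat.cast_nonneg _)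
    have hpos : 1 ≤ w.prod := by
      apply Nat.one_le_iff_ne_zero.2
      intro h0
      rw [List.prod_eq_zero_iff] at h0
      exact Nat.not_prime_zero (hw 0 h0).1
    apply pow_le_pow_right₀ (by exact_mod_cast hpos)
    exact Nat.mul_le_mul_right _ hC8
  · intro x y hxy
    apply hΦi
    rw [← hΦ, ← hΦ, hxy]
  · intro l hl hlN T hT f g
    apply hCi
    rw [hΦ, ← (hM l hl hlN).2, hΦ]
    exact hΦe l hl hlN T hT f g

end Gou

end
end

section

/-!
MP_602313_nt, modules D and E: assembly.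
-/

noncomputable section

namespace Gou

theorem m_d10 : D10Lower := d10Lower d8Smith
theorem m_d11 : D11Gen := d11Gen d1Int
theorem m_d15 : D15Gram := d15Gram d1Int
theorem m_d17 : D17Root := d17Root d1Int
theorem m_d16 : D16P := d16P d12Char d13Chain d14Cramer m_d15 m_d17 d1Int
theorem m_d19 : D19Sum := d19Sum d1Int
theorem m_d21 : D21Cmp := d21Cmp d1Int
theorem m_d4 : D4Vol := d4Vol d2Det
theorem m_d5 : D5Minor := d5Minor d2Det
theorem m_d6 : D6Unit := d6Unit d1Int d2Det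
theorem m_d7 : D7Z := d7Z d1Int d3Basis m_d4 m_d5 m_d6
theorem m_d9 : D9Upper := d9Upper d8Smith
theorem m_d18 : D18Upper := d18Upper m_d7 m_d9 m_d16
theorem m_e6a : ERoots := e6a e0NA

/-- Everything that the final step uses, from the coordinates and the facts on cusp forms. -/
theorem m_final {p N : ℕ} [Fact p.Prime] (hN : N ≠ 0) (hp : ¬ p ∣ N) (hc : CoordExists p N)
    (h2 : DimLower N) (h3 : FinDim N) (h4 : HeckeExists N) (h5 : HeckeComm N)
    (h6 : PetSelfAdj N) (h7 : CharSep N) (h8 : MultBound N) :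
    EUp p N ∧ ELow p N ∧ EDim N ∧ EInt p N :=
  ⟨e3b (e3a hc h2 h3 h4 (e2 h3 h4 h5 h6) h7 h8 hp d1Int m_d11 m_d17 m_d18 m_d19 d20Two m_d21 e0NA),
    e4 hc h2 h3 h4 hp d1Int m_d10 m_d11 m_d17 m_d19 d20Two m_d21 e0NA,
    e5 h2 hc h3,
    e6 hp h3 h4 hc m_d17 d20Two m_e6a e0NA⟩

end Gou

end
end
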